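import Pool.Agent.MP_cbe134_nt.VD3
import Pool.Agent.MP_cbe134_nt.VD1

section

/- Oriented chains: exterior multiplication, contraction, induced maps, inner product. -/

namespace Pool.Agent.MP_cbe134_nt.V

open Finsupp

variable {α : Type} [DecidableEq α] {E : Type} [AddCommGroup E] [Module ℚ E]

theorem sg_sq (a : α) (S : Finset α) : sg a S * sg a S = 1 := by
  unfold sg
  rw [← pow_add, ← two_mul, pow_mul]
  simp

open Classical in
/-- the sign of a pair -/
noncomputable def h1_e (a b : α) : ℚ := if WellOrderingRel a b then -1 else 1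

omit [DecidableEq α] in
theorem h1_e_self (a : α) : h1_e a a = 1 := if_neg (irrefl_of WellOrderingRel a)

omit [DecidableEq α] in
theorem h1_e_sq (a b : α) : h1_e a b * h1_e a b = 1 := by
  unfold h1_e
  split_ifs <;> norm_num

omit [DecidableEq α] in
theorem h1_e_swap {a b : α} (h : a ≠ b) : h1_e b a = -h1_e a b := by
  unfold h1_e
  rcases trichotomous_of WellOrderingRel a b with h1 | h1 | h1
  · rw [if_pos h1, if_neg (asymm_of WellOrderingRel h1), neg_neg]
  · exact absurd h1 h
  · rw [if_pos h1, if_neg (asymm_of WellOrderingRel h1)]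

theorem h1_sg_insert {a : α} {S : Finset α} (h : a ∉ S) (b : α) :
    sg b (insert a S) = sg b S * h1_e a b := by
  classical
  unfold sg h1_e
  rw [Finset.filter_insert]
  split_ifs with h1
  · rw [Finset.card_insert_of_notMem fun h2 => h (Finset.mem_filter.1 h2).1, pow_succ]
  · rw [mul_one]

theorem h1_sg_erase {a : α} {S : Finset α} (h : a ∈ S) (b : α) :
    sg b (S.erase a) = sg b S * h1_e a b := by
  have h1 := h1_sg_insert (Finset.notMem_erase a S) b
  rw [Finset.insert_erase h] at h1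
  rw [h1, mul_assoc, h1_e_sq, mul_one]

theorem wg_single (a : α) (S : Finset α) (c : ℚ) :
    wg a (single S c) = if a ∈ S then 0 else single (insert a S) (c * sg a S) := by
  rw [wg, linearCombination_single, smul_ite, smul_zero, smul_single, smul_eq_mul]

theorem io_single (a : α) (S : Finset α) (c : ℚ) :
    io a (single S c) = if a ∈ S then single (S.erase a) (c * sg a S) else 0 := by
  rw [io, linearCombination_single, smul_ite, smul_zero, smul_single, smul_eq_mul]

theorem h1_wg_self (a : α) (x : Ch α) : wg a (wg a x) = 0 := by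
  induction x using Finsupp.induction_linear with
  | zero => rw [map_zero, map_zero]
  | add x y hx hy => rw [map_add, map_add, hx, hy, add_zero]
  | single S c =>
    rw [wg_single]
    split_ifs
    · exact map_zero _
    · rw [wg_single, if_pos (Finset.mem_insert_self a S)]

theorem wg_wg (a b : α) (x : Ch α) : wg a (wg b x) = -wg b (wg a x) := by
  by_cases hab : a = b
  · subst hab
    rw [h1_wg_self, neg_zero]
  induction x using Finsupp.induction_linear with
  | zero => simp only [map_zero, neg_zero]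
  | add x y hx hy => simp only [map_add, hx, hy, neg_add]
  | single S c =>
    rw [wg_single, wg_single]
    by_cases ha : a ∈ S <;> by_cases hb : b ∈ S
    · rw [if_pos ha, if_pos hb, map_zero, map_zero, neg_zero]
    · rw [if_pos ha, if_neg hb, wg_single, if_pos (Finset.mem_insert_of_mem ha), map_zero,
        neg_zero]
    · rw [if_neg ha, if_pos hb, wg_single, if_pos (Finset.mem_insert_of_mem hb), map_zero,
        neg_zero]
    · rw [if_neg ha, if_neg hb, wg_single, wg_single,
        if_neg (by simp [hab, ha]), if_neg (by simp [Ne.symm hab, hb]), h1_sg_insert ha,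
        h1_sg_insert hb, h1_e_swap hab, Finset.insert_comm, ← single_neg]
      congr 1
      ring

theorem wg_self (a : α) (x : Ch α) : wg a (wg a x) = 0 := by
  exact h1_wg_self a x

theorem io_wg (a b : α) (x : Ch α) :
    io a (wg b x) = (if a = b then x else 0) - wg b (io a x) := by
  induction x using Finsupp.induction_linear with
  | zero => simp only [map_zero, ite_self, sub_zero]
  | add x y hx hy =>
    simp only [map_add, hx, hy]
    split_ifs <;> abel
  | single S c =>
    rw [wg_single, io_single]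
    by_cases hab : a = b
    · subst hab
      rw [if_pos rfl]
      by_cases ha : a ∈ S
      · rw [if_pos ha, if_pos ha, map_zero, wg_single, if_neg (Finset.notMem_erase a S),
          Finset.insert_erase ha, h1_sg_erase ha, h1_e_self, mul_one, mul_assoc, sg_sq, mul_one,
          sub_self]
      · rw [if_neg ha, if_neg ha, map_zero, io_single, if_pos (Finset.mem_insert_self a S),
          Finset.erase_insert ha, h1_sg_insert ha, h1_e_self, mul_one, mul_assoc, sg_sq, mul_one,
          sub_zero]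
    · rw [if_neg hab, zero_sub]
      by_cases ha : a ∈ S <;> by_cases hb : b ∈ S
      · rw [if_pos ha, if_pos hb, map_zero, wg_single,
          if_pos (Finset.mem_erase.2 ⟨Ne.symm hab, hb⟩), neg_zero]
      · rw [if_pos ha, if_neg hb, io_single, wg_single, if_pos (Finset.mem_insert_of_mem ha),
          if_neg fun h => hb (Finset.mem_of_mem_erase h), h1_sg_insert hb, h1_sg_erase ha,
          h1_e_swap hab, Finset.erase_insert_of_ne (Ne.symm hab), ← single_neg]
        congr 1
        ring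
      · rw [if_neg ha, if_pos hb, map_zero, map_zero, neg_zero]
      · rw [if_neg ha, if_neg hb, io_single, if_neg (by simp [hab, ha]), map_zero, neg_zero]

theorem br_nil : br ([] : List α) = single ∅ 1 := rfl

theorem br_cons (a : α) (l : List α) : br (a :: l) = wg a (br l) := rfl

theorem alt_br : Alt (br : List α → Ch α) := by
  intro l₁ a b l₂
  induction l₁ with
  | nil => exact wg_wg a b _
  | cons c l ih => rw [List.cons_append, List.cons_append, br_cons, br_cons, ih, map_neg]

omit [DecidableEq α] [Module ℚ E] in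
theorem h1_tail {F : List α → E} (hF : Alt F) (a : α) : Alt fun l => F (a :: l) :=
  fun l₁ b c l₂ => hF (a :: l₁) b c l₂

omit [DecidableEq α] in
theorem h1_dup (a : α) (s t : List α) : ∀ {F : List α → E}, Alt F → F (a :: (s ++ a :: t)) = 0 := by
  induction s with
  | nil =>
    intro F hF
    have h1 : (2 : ℚ) • F (a :: a :: t) = 0 := by
      rw [two_smul]
      exact add_eq_zero_iff_eq_neg.2 (hF [] a a t)
    exact (smul_eq_zero.1 h1).resolve_left two_ne_zero
  | cons b s ih =>
    intro F hF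
    exact (hF [] a b (s ++ a :: t)).trans (neg_eq_zero.2 (ih (h1_tail hF b)))

omit [DecidableEq α] in
theorem h1_perm {l l' : List α} (h : l.Perm l') : ∃ ε : ℚ, ε * ε = 1 ∧
    ∀ (E : Type) [AddCommGroup E] [Module ℚ E] (F : List α → E), Alt F → F l = ε • F l' := by
  induction h with
  | nil => exact ⟨1, one_mul _, fun _ _ _ _ _ => (one_smul _ _).symm⟩
  | cons a _ ih =>
    obtain ⟨ε, h1, h2⟩ := ih
    exact ⟨ε, h1, fun E _ _ F hF => h2 E _ (h1_tail hF a)⟩
  | swap a b l => exact ⟨-1, by norm_num, fun _ _ _ F hF => by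
      rw [neg_one_smul]
      exact hF [] b a l⟩
  | trans _ _ ih ih' =>
    obtain ⟨ε, h1, h2⟩ := ih
    obtain ⟨η, h3, h4⟩ := ih'
    exact ⟨ε * η, by rw [mul_mul_mul_comm, h1, h3, one_mul], fun E _ _ F hF => by
      rw [h2 E F hF, h4 E F hF, mul_smul]⟩

theorem Alt.eq_zero {F : List α → E} (hF : Alt F) {l : List α} (h : ¬ l.Nodup) : F l = 0 := by
  induction l generalizing F with
  | nil => exact absurd List.nodup_nil h
  | cons a l ih =>
    by_cases ha : a ∈ l
    · obtain ⟨s, t, rfl⟩ := List.append_of_mem ha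
      exact h1_dup a s t hF
    · exact ih (h1_tail hF a) fun h1 => h (List.nodup_cons.2 ⟨ha, h1⟩)

theorem br_nodup {l : List α} (h : l.Nodup) :
    ∃ ε : ℚ, ε * ε = 1 ∧ br l = single l.toFinset ε := by
  induction l with
  | nil => exact ⟨1, one_mul _, rfl⟩
  | cons a l ih =>
    obtain ⟨h1, h2⟩ := List.nodup_cons.1 h
    obtain ⟨ε, h3, h4⟩ := ih h2
    refine ⟨ε * sg a l.toFinset, by rw [mul_mul_mul_comm, h3, sg_sq, one_mul], ?_⟩
    rw [br_cons, h4, wg_single, if_neg fun h5 => h1 (List.mem_toFinset.1 h5), List.toFinset_cons]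

theorem h1_toList (S : Finset α) :
    ∃ ε : ℚ, ε * ε = 1 ∧ br S.toList = single S ε ∧ br S.toList S = ε := by
  obtain ⟨ε, h1, h2⟩ := br_nodup S.nodup_toList
  rw [Finset.toList_toFinset] at h2
  exact ⟨ε, h1, h2, by rw [h2, single_eq_same]⟩

theorem single_eq_br (S : Finset α) : single S (1 : ℚ) = br S.toList S • br S.toList := by
  obtain ⟨ε, h1, h2, h3⟩ := h1_toList S
  rw [h3, h2, smul_single, smul_eq_mul, h1]

theorem lft_br {F : List α → E} (hF : Alt F) (l : List α) : lft F (br l) = F l := by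
  by_cases h : l.Nodup
  · obtain ⟨ε, -, h2⟩ := h1_perm (List.toFinset_toList h).symm
    obtain ⟨η, h3, h4, h5⟩ := h1_toList l.toFinset
    rw [h2 _ _ alt_br, h2 _ _ hF, map_smul, h4, lft, linearCombination_single, h5, smul_smul η,
      h3, one_smul]
  · rw [alt_br.eq_zero h, hF.eq_zero h, map_zero]

theorem single_mem_Sup {p : Finset α → Prop} {S : Finset α} (h : p S) (c : ℚ) :
    single S c ∈ Sup p := by
  exact single_mem_supported ℚ c h

theorem mem_Sup_iff {p : Finset α → Prop} {x : Ch α} : x ∈ Sup p ↔ ∀ S, x S ≠ 0 → p S := by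
  rw [mem_supported]
  exact ⟨fun h S hS => h (mem_support_iff.2 hS), fun h S hS => h S (mem_support_iff.1 hS)⟩

theorem br_mem_Sup {p : Finset α → Prop} {l : List α} (h : l.Nodup → p l.toFinset) :
    br l ∈ Sup p := by
  by_cases hl : l.Nodup
  · obtain ⟨ε, -, h2⟩ := br_nodup hl
    rw [h2]
    exact single_mem_Sup (h hl) ε
  · rw [alt_br.eq_zero hl]
    exact zero_mem _

theorem Sup_mono {p q : Finset α → Prop} (h : ∀ S, p S → q S) : Sup p ≤ Sup q := by
  exact supported_mono h

theorem Sup_ind {p : Finset α → Prop} {Q : Ch α → Prop} (h0 : Q 0)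
    (hadd : ∀ x y, Q x → Q y → Q (x + y)) (hsmul : ∀ (c : ℚ) x, Q x → Q (c • x))
    (hs : ∀ S, p S → Q (single S 1)) {x : Ch α} (hx : x ∈ Sup p) : Q x := by
  rw [Sup, supported_eq_span_single] at hx
  induction hx using Submodule.span_induction with
  | mem x hx =>
    obtain ⟨S, hS, rfl⟩ := hx
    exact hs S hS
  | zero => exact h0
  | add x y _ _ hx hy => exact hadd x y hx hy
  | smul c x _ hx => exact hsmul c x hx

theorem Sup_ind_br {p : Finset α → Prop} {Q : Ch α → Prop} (h0 : Q 0)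
    (hadd : ∀ x y, Q x → Q y → Q (x + y)) (hsmul : ∀ (c : ℚ) x, Q x → Q (c • x))
    (hs : ∀ l : List α, l.Nodup → p l.toFinset → Q (br l)) {x : Ch α} (hx : x ∈ Sup p) :
    Q x := by
  refine Sup_ind h0 hadd hsmul (fun S hS => ?_) hx
  rw [single_eq_br]
  exact hsmul _ _ (hs _ S.nodup_toList (by rwa [Finset.toList_toFinset]))

theorem lin_ext {f g : Ch α →ₗ[ℚ] E} (h : ∀ l : List α, l.Nodup → f (br l) = g (br l)) :
    f = g := by
  refine Finsupp.lhom_ext' fun S => LinearMap.ext_ring ?_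
  change f (single S 1) = g (single S 1)
  rw [single_eq_br, map_smul, map_smul, h _ S.nodup_toList]

theorem act_br (f : α → α) (l : List α) : act f (br l) = br (l.map f) := by
  refine lft_br (F := fun l => br (l.map f)) (fun l₁ a b l₂ => ?_) l
  simp only [List.map_append, List.map_cons]
  exact alt_br _ _ _ _

theorem act_wg (f : α → α) (a : α) (x : Ch α) : act f (wg a x) = wg (f a) (act f x) := by
  refine LinearMap.congr_fun (lin_ext (f := act f ∘ₗ wg a) (g := wg (f a) ∘ₗ act f)
    fun l _ => ?_) x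
  rw [LinearMap.comp_apply, LinearMap.comp_apply, ← br_cons, act_br, act_br, List.map_cons, br_cons]

theorem act_act (f g : α → α) (x : Ch α) : act f (act g x) = act (f ∘ g) x := by
  refine LinearMap.congr_fun (lin_ext (f := act f ∘ₗ act g) (g := act (f ∘ g)) fun l _ => ?_) x
  rw [LinearMap.comp_apply, act_br, act_br, act_br, List.map_map]

theorem act_id (x : Ch α) : act id x = x := by
  refine LinearMap.congr_fun (lin_ext (f := act id) (g := LinearMap.id) fun l _ => ?_) x
  rw [act_br, List.map_id, LinearMap.id_apply]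

theorem act_single {f : α → α} (hf : Function.Injective f) (S : Finset α) :
    ∃ ε : ℚ, ε * ε = 1 ∧ act f (single S 1) = single (S.image f) ε := by
  obtain ⟨η, h1, -, h3⟩ := h1_toList S
  obtain ⟨ε, h4, h5⟩ := br_nodup (S.nodup_toList.map hf)
  have e : (S.toList.map f).toFinset = S.image f := by
    ext b
    simp
  refine ⟨η * ε, by rw [mul_mul_mul_comm, h1, h4, one_mul], ?_⟩
  rw [single_eq_br, map_smul, act_br, h3, h5, e, smul_single, smul_eq_mul]

theorem act_mem_Sup {f : α → α} (hf : Function.Injective f) {p q : Finset α → Prop}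
    (h : ∀ S, p S → q (S.image f)) {x : Ch α} (hx : x ∈ Sup p) : act f x ∈ Sup q := by
  refine Sup_ind (Q := fun x => act f x ∈ Sup q) (by rw [map_zero]; exact zero_mem _)
    (fun x y hx hy => by rw [map_add]; exact add_mem hx hy)
    (fun c x hx => by rw [map_smul]; exact Submodule.smul_mem _ c hx) (fun S hS => ?_) hx
  obtain ⟨ε, -, h1⟩ := act_single hf S
  rw [h1]
  exact single_mem_Sup (h S hS) ε

theorem ip_single (S : Finset α) (c : ℚ) (y : Ch α) : ip (single S c) y = c * y S := by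
  rw [ip, linearCombination_single, LinearMap.smul_apply, lapply_apply, smul_eq_mul]

theorem ip_comm (x y : Ch α) : ip x y = ip y x := by
  induction x using Finsupp.induction_linear with
  | zero => rw [map_zero, map_zero, LinearMap.zero_apply]
  | add x z hx hz => rw [map_add, map_add, LinearMap.add_apply, hx, hz]
  | single S c =>
    induction y using Finsupp.induction_linear with
    | zero => rw [map_zero, map_zero, LinearMap.zero_apply]
    | add y z hy hz => rw [map_add, map_add, LinearMap.add_apply, hy, hz]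
    | single T d =>
      rw [ip_single, ip_single]
      by_cases h : S = T
      · rw [h, single_eq_same, single_eq_same, mul_comm]
      · rw [single_eq_of_ne h, single_eq_of_ne (Ne.symm h), mul_zero, mul_zero]

theorem ip_wg (a : α) (x y : Ch α) : ip (wg a x) y = ip x (io a y) := by
  induction x using Finsupp.induction_linear with
  | zero => simp only [map_zero, LinearMap.zero_apply]
  | add x z hx hz => simp only [map_add, LinearMap.add_apply, hx, hz]
  | single S c =>
    induction y using Finsupp.induction_linear with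
    | zero => simp only [map_zero]
    | add y z hy hz => simp only [map_add, hy, hz]
    | single T d =>
      rw [wg_single, io_single, ip_single]
      by_cases ha : a ∈ S
      · rw [if_pos ha, map_zero, LinearMap.zero_apply]
        split_ifs
        · rw [single_eq_of_ne fun h : S = T.erase a => Finset.notMem_erase a T (h ▸ ha), mul_zero]
        · rw [Finsupp.zero_apply, mul_zero]
      · rw [if_neg ha, ip_single]
        by_cases h : insert a S = T
        · subst h
          rw [if_pos (Finset.mem_insert_self a S), Finset.erase_insert ha, single_eq_same,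
            single_eq_same, h1_sg_insert ha, h1_e_self]
          ring
        · rw [single_eq_of_ne h, mul_zero]
          split_ifs with hT
          · rw [single_eq_of_ne fun h1 => h (by rw [h1, Finset.insert_erase hT]), mul_zero]
          · rw [Finsupp.zero_apply, mul_zero]

theorem h1_io_nil (a : α) : io a (br ([] : List α)) = 0 := by
  rw [br_nil, io_single, if_neg (Finset.notMem_empty a)]

theorem h1_act_nil (f : α → α) : act f (br ([] : List α)) = br [] := act_br f []

theorem h1_act_io {f g : α → α} (h1 : Function.LeftInverse g f) (h2 : Function.LeftInverse f g)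
    (a : α) (y : Ch α) : act g (io (f a) y) = io a (act g y) := by
  refine LinearMap.congr_fun (lin_ext (f := act g ∘ₗ io (f a)) (g := io a ∘ₗ act g)
    fun l hl => ?_) y
  clear hl
  rw [LinearMap.comp_apply, LinearMap.comp_apply]
  induction l with
  | nil => rw [h1_act_nil, h1_io_nil, h1_io_nil, map_zero]
  | cons b l ih =>
    rw [br_cons, act_wg, io_wg, io_wg, map_sub, act_wg, ih, apply_ite (act g), map_zero]
    congr 1
    exact if_congr ⟨fun h => by rw [← h, h1], fun h => by rw [h, h2]⟩ rfl rfl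

theorem h1_ip_nil (g : α → α) (y : Ch α) : ip (act g y) (br []) = ip y (br []) := by
  refine LinearMap.congr_fun (lin_ext (f := ip.flip (br []) ∘ₗ act g) (g := ip.flip (br []))
    fun l _ => ?_) y
  rw [LinearMap.comp_apply, LinearMap.flip_apply, LinearMap.flip_apply]
  cases l with
  | nil => rw [h1_act_nil]
  | cons b l => rw [br_cons, act_wg, ip_wg, ip_wg, h1_io_nil, h1_io_nil, map_zero, map_zero]

theorem ip_act {f g : α → α} (h1 : Function.LeftInverse g f) (h2 : Function.LeftInverse f g)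
    (x y : Ch α) : ip (act f x) y = ip x (act g y) := by
  refine LinearMap.congr_fun (lin_ext (f := ip.flip y ∘ₗ act f) (g := ip.flip (act g y))
    fun l hl => ?_) x
  clear hl
  rw [LinearMap.comp_apply, LinearMap.flip_apply, LinearMap.flip_apply]
  induction l generalizing y with
  | nil => rw [h1_act_nil, ip_comm, ← h1_ip_nil g, ip_comm]
  | cons a l ih => rw [br_cons, act_wg, ip_wg, ip_wg, ih, h1_act_io h1 h2]

theorem h1_bd_single {S T : Finset α} (h : S ⊆ T) (c : ℚ) :
    bd (single S c) = ∑ b ∈ T, io b (single S c) := by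
  rw [bd, linearCombination_single, Finset.smul_sum,
    ← Finset.sum_subset h fun b _ hb => by rw [io_single, if_neg hb]]
  exact Finset.sum_congr rfl fun b _ => by rw [← map_smul, smul_single, smul_eq_mul, mul_one]

theorem h1_bd_wg (a : α) (x : Ch α) : bd (wg a x) = x - wg a (bd x) := by
  induction x using Finsupp.induction_linear with
  | zero => simp only [map_zero, sub_zero]
  | add x y hx hy =>
    simp only [map_add, hx, hy]
    abel
  | single S c =>
    have e : bd (wg a (single S c)) = ∑ b ∈ insert a S, io b (wg a (single S c)) := by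
      rw [wg_single]
      split_ifs
      · simp only [map_zero, Finset.sum_const_zero]
      · exact h1_bd_single subset_rfl _
    rw [e, h1_bd_single (Finset.subset_insert a S), map_sum]
    simp only [io_wg]
    rw [Finset.sum_sub_distrib, Finset.sum_ite_eq', if_pos (Finset.mem_insert_self a S)]

theorem bd_br_nil : bd (br ([] : List α)) = 0 := by
  rw [br_nil, h1_bd_single subset_rfl, Finset.sum_empty]

theorem bd_br_cons (a : α) (l : List α) : bd (br (a :: l)) = br l - wg a (bd (br l)) := by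
  exact h1_bd_wg a (br l)

theorem act_bd (f : α → α) (x : Ch α) : act f (bd x) = bd (act f x) := by
  refine LinearMap.congr_fun (lin_ext (f := act f ∘ₗ bd) (g := bd ∘ₗ act f) fun l hl => ?_) x
  clear hl
  rw [LinearMap.comp_apply, LinearMap.comp_apply]
  induction l with
  | nil => rw [h1_act_nil, bd_br_nil, map_zero]
  | cons a l ih => rw [br_cons, act_wg, h1_bd_wg, h1_bd_wg, map_sub, act_wg, ih]

theorem bd_mem_Sup {p q : Finset α → Prop} (h : ∀ S a, p S → a ∈ S → q (S.erase a))
    {x : Ch α} (hx : x ∈ Sup p) : bd x ∈ Sup q := by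
  refine Sup_ind (Q := fun x => bd x ∈ Sup q) (by rw [map_zero]; exact zero_mem _)
    (fun x y hx hy => by rw [map_add]; exact add_mem hx hy)
    (fun c x hx => by rw [map_smul]; exact Submodule.smul_mem _ c hx) (fun S hS => ?_) hx
  rw [h1_bd_single subset_rfl]
  refine Submodule.sum_mem _ fun a ha => ?_
  rw [io_single, if_pos ha]
  exact single_mem_Sup (h S a hS ha) _

end Pool.Agent.MP_cbe134_nt.V

end

section

/- The coboundary in a family of finite sets. -/

namespace Pool.Agent.MP_cbe134_nt.V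

open Finsupp

variable {α : Type} [DecidableEq α] {c c' p q : Finset α → Prop}

theorem del_single {S W : Finset α} (hW : ∀ w, w ∈ Ext c S ↔ w ∈ W) :
    del c (single S 1) = ∑ w ∈ W, wg w (single S 1) := by
  have h : Ext c S = (W : Set α) := Set.ext fun w => (hW w).trans Finset.mem_coe.symm
  rw [del, linearCombination_single, one_smul, h, finsum_mem_coe_finset]

theorem h2_del_single {S W : Finset α} (hW : ∀ w, w ∈ Ext c S ↔ w ∈ W) (ε : ℚ) :
    del c (single S ε) = ∑ w ∈ W, wg w (single S ε) := by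
  have h : single S ε = ε • single S (1 : ℚ) := by rw [smul_single, smul_eq_mul, mul_one]
  rw [h, map_smul, del_single hW, Finset.smul_sum]
  exact Finset.sum_congr rfl fun w _ => (map_smul _ _ _).symm

theorem del_br {l : List α} (hl : l.Nodup) {W : Finset α}
    (hW : ∀ w, w ∈ Ext c l.toFinset ↔ w ∈ W) : del c (br l) = ∑ w ∈ W, br (w :: l) := by
  obtain ⟨ε, -, h⟩ := br_nodup hl
  simp only [br_cons]
  rw [h, h2_del_single hW]

theorem h2_wg_mem {S : Finset α} {w : α} (h : q (insert w S)) : wg w (single S 1) ∈ Sup q := by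
  rw [wg_single]
  split_ifs
  · exact zero_mem _
  · exact single_mem_Sup h _

theorem del_mem_Sup (hfin : ∀ S, p S → (Ext c S).Finite)
    (h : ∀ S w, p S → w ∈ Ext c S → q (insert w S)) {x : Ch α} (hx : x ∈ Sup p) :
    del c x ∈ Sup q := by
  refine Sup_ind (Q := fun x => del c x ∈ Sup q) ?_ ?_ ?_ ?_ hx
  · rw [map_zero]; exact zero_mem _
  · intro x y hx hy; rw [map_add]; exact add_mem hx hy
  · intro a x hx; rw [map_smul]; exact Submodule.smul_mem _ _ hx
  · intro S hS
    rw [del_single fun w => (hfin S hS).mem_toFinset.symm]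
    exact sum_mem fun w hw => h2_wg_mem (h S w hS ((hfin S hS).mem_toFinset.1 hw))

theorem del_sub_del (hfin : ∀ S, p S → (Ext c S).Finite)
    (hsub : ∀ S, p S → Ext c' S ⊆ Ext c S)
    (h : ∀ S w, p S → w ∈ Ext c S → w ∉ Ext c' S → q (insert w S)) {x : Ch α}
    (hx : x ∈ Sup p) : del c x - del c' x ∈ Sup q := by
  refine Sup_ind (Q := fun x => del c x - del c' x ∈ Sup q) ?_ ?_ ?_ ?_ hx
  · rw [map_zero, map_zero, sub_zero]; exact zero_mem _
  · intro x y hx hy
    rw [map_add, map_add, add_sub_add_comm]; exact add_mem hx hy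
  · intro a x hx
    rw [map_smul, map_smul, ← smul_sub]; exact Submodule.smul_mem _ _ hx
  · intro S hS
    have h1 := hfin S hS
    have h2 := h1.subset (hsub S hS)
    rw [del_single fun w => h1.mem_toFinset.symm, del_single fun w => h2.mem_toFinset.symm,
      ← Finset.sum_sdiff_eq_sub (Set.Finite.toFinset_subset_toFinset.2 (hsub S hS))]
    refine sum_mem fun w hw => h2_wg_mem ?_
    rw [Finset.mem_sdiff, h1.mem_toFinset, h2.mem_toFinset] at hw
    exact h S w hS hw.1 hw.2

theorem h2_ip_del {S T : Finset α} (hS : (Ext c S).Finite) (hT : c T) :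
    ip (del c (single S 1)) (single T 1) = ip (single S 1) (bd (single T 1)) := by
  rw [del_single fun w => hS.mem_toFinset.symm, bd, linearCombination_single, one_smul, map_sum,
    map_sum, LinearMap.sum_apply]
  simp only [ip_wg]
  refine Finset.sum_congr_of_eq_on_inter ?_ ?_ fun _ _ _ => rfl
  · intro w _ hw
    rw [io_single, if_neg hw, map_zero]
  · intro w hw hw'
    rw [io_single, if_pos hw, ip_single, single_eq_of_ne, mul_zero]
    rintro rfl
    refine hw' (hS.mem_toFinset.2 ⟨Finset.notMem_erase _ _, ?_⟩)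
    rwa [Finset.insert_erase hw]

theorem ip_del {x z : Ch α} (hx : x ∈ Sup fun S => (Ext c S).Finite) (hz : z ∈ Sup c) :
    ip (del c x) z = ip x (bd z) := by
  refine Sup_ind (Q := fun x => ip (del c x) z = ip x (bd z)) ?_ ?_ ?_ ?_ hx
  · simp only [map_zero, LinearMap.zero_apply]
  · intro x y hx hy
    simp only [map_add, LinearMap.add_apply, hx, hy]
  · intro a x hx
    simp only [map_smul, LinearMap.smul_apply, hx]
  · intro S hS
    refine Sup_ind (Q := fun z => ip (del c (single S 1)) z = ip (single S 1) (bd z))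
      ?_ ?_ ?_ ?_ hz
    · simp only [map_zero]
    · intro x y hx hy
      simp only [map_add, hx, hy]
    · intro a x hx
      simp only [map_smul, hx]
    · intro T hT
      exact h2_ip_del hS hT

theorem del_del (hdown : ∀ S T, S ⊆ T → c T → c S) {x : Ch α}
    (hx : x ∈ Sup fun S => (Ext c S).Finite) : del c (del c x) = 0 := by
  classical
  refine Sup_ind (Q := fun x => del c (del c x) = 0) ?_ ?_ ?_ ?_ hx
  · simp only [map_zero]
  · intro x y hx hy
    simp only [map_add, hx, hy, add_zero]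
  · intro a x hx
    simp only [map_smul, hx, smul_zero]
  · intro S hS
    let F : α → α → Ch α := fun w w' =>
      if w' ≠ w ∧ c (insert w' (insert w S)) then wg w' (wg w (single S 1)) else 0
    have hF : ∀ w w', F w w' = -F w' w := by
      intro w w'
      simp only [F]
      rw [Finset.insert_comm w w']
      by_cases h : w' ≠ w ∧ c (insert w' (insert w S))
      · rw [if_pos h, if_pos ⟨h.1.symm, h.2⟩]
        exact wg_wg _ _ _
      · rw [if_neg h, if_neg fun h' => h ⟨h'.1.symm, h'.2⟩, neg_zero]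
    have h1 : ∀ w ∈ hS.toFinset, del c (wg w (single S 1)) = ∑ w' ∈ hS.toFinset, F w w' := by
      intro w hw
      have hw' := hS.mem_toFinset.1 hw
      rw [← Finset.sum_filter, wg_single, if_neg hw'.1]
      refine h2_del_single (fun w' => ?_) _
      rw [Finset.mem_filter, hS.mem_toFinset]
      refine ⟨fun h => ⟨⟨fun h' => h.1 (Finset.mem_insert_of_mem h'), hdown _ _ ?_ h.2⟩,
        fun h' => h.1 (h' ▸ Finset.mem_insert_self _ _), h.2⟩, fun h => ⟨fun h' => ?_, h.2.2⟩⟩
      · exact Finset.insert_subset_insert _ (Finset.subset_insert _ _)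
      · exact (Finset.mem_insert.1 h').elim h.2.1 h.1.1
    rw [del_single fun w => hS.mem_toFinset.symm, map_sum, Finset.sum_congr rfl h1]
    have h2 : ∑ w ∈ hS.toFinset, ∑ w' ∈ hS.toFinset, F w w' =
        -∑ w ∈ hS.toFinset, ∑ w' ∈ hS.toFinset, F w w' := by
      conv_lhs => rw [Finset.sum_comm]
      rw [← Finset.sum_neg_distrib]
      refine Finset.sum_congr rfl fun w _ => ?_
      rw [← Finset.sum_neg_distrib]
      exact Finset.sum_congr rfl fun w' _ => hF _ _
    have h3 : (2 : ℚ) • ∑ w ∈ hS.toFinset, ∑ w' ∈ hS.toFinset, F w w' = 0 := by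
      rw [two_smul]
      exact eq_neg_iff_add_eq_zero.1 h2
    exact (smul_eq_zero.1 h3).resolve_left two_ne_zero

theorem act_del {f g : α → α} (h1 : Function.LeftInverse g f) (h2 : Function.LeftInverse f g)
    (hc : ∀ S, c (S.image f) ↔ c S) {x : Ch α} (hx : x ∈ Sup fun S => (Ext c S).Finite) :
    act f (del c x) = del c (act f x) := by
  refine Sup_ind (Q := fun x => act f (del c x) = del c (act f x)) ?_ ?_ ?_ ?_ hx
  · simp only [map_zero]
  · intro x y hx hy
    simp only [map_add, hx, hy]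
  · intro a x hx
    simp only [map_smul, hx]
  · intro S hS
    obtain ⟨ε, -, h⟩ := act_single h1.injective S
    have hW : ∀ w, w ∈ Ext c (S.image f) ↔ w ∈ hS.toFinset.image f := by
      intro w
      obtain ⟨w, rfl⟩ := h2.surjective w
      rw [h1.injective.mem_finset_image, hS.mem_toFinset]
      refine and_congr (not_congr h1.injective.mem_finset_image) ?_
      rw [← Finset.image_insert, hc]
    rw [del_single fun w => hS.mem_toFinset.symm, map_sum, h, h2_del_single hW,
      Finset.sum_image fun _ _ _ _ e => h1.injective e, ← h]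
    exact Finset.sum_congr rfl fun w _ => act_wg f w _

theorem ext_Miss_fin (M : Finset α) (k : ℕ) (lab : α → ℕ) (S : Finset α) :
    (Ext (Miss M k lab) S).Finite :=
  M.finite_toSet.subset fun _ hw => hw.2.1 (Finset.mem_insert_self _ _)

theorem Miss.mono {M : Finset α} {k : ℕ} {lab : α → ℕ} {S T : Finset α} (h : S ⊆ T)
    (hT : Miss M k lab T) : Miss M k lab S :=
  ⟨h.trans hT.1, fun i hi =>
    let ⟨A, hA, hl, hn⟩ := hT.2 i hi
    ⟨A, hA, hl, fun h' => hn (h h')⟩⟩

theorem Miss.card_le {M : Finset α} {k : ℕ} {lab : α → ℕ} {S : Finset α}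
    (hS : Miss M k lab S) : S.card + k ≤ M.card := by
  have h1 : Finset.range k ⊆ (M \ S).image lab := fun i hi => by
    obtain ⟨A, hA, hl, hn⟩ := hS.2 i (Finset.mem_range.1 hi)
    exact Finset.mem_image.2 ⟨A, Finset.mem_sdiff.2 ⟨hA, hn⟩, hl⟩
  have h2 := (Finset.card_le_card h1).trans Finset.card_image_le
  have h3 := Finset.card_sdiff_add_card_eq_card hS.1
  rw [Finset.card_range] at h2
  omega

end Pool.Agent.MP_cbe134_nt.V

end

section

/- The local contraction of a descending link. -/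

namespace Pool.Agent.MP_cbe134_nt.V

variable {α : Type} [DecidableEq α]

theorem h3_io {p q : Finset α → Prop} {a : α} (h : ∀ S, p S → a ∈ S → q (S.erase a)) {x : Ch α}
    (hx : x ∈ Sup p) : io a x ∈ Sup q := by
  refine Sup_ind (Q := fun x => io a x ∈ Sup q) (by simp) (fun x y h1 h2 => ?_)
    (fun c x h1 => ?_) (fun S hS => ?_) hx
  · rw [map_add]
    exact add_mem h1 h2
  · rw [map_smul]
    exact Submodule.smul_mem _ c h1
  · rw [io_single]
    split_ifs with ha
    · exact single_mem_Sup (h S hS ha) _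
    · exact zero_mem _

theorem h3_full {M : Finset α} {x : Ch α} (hx : x ∈ Sup fun S => S ⊆ M) :
    del (fun S => S ⊆ M) x = ∑ w ∈ M, wg w x := by
  refine Sup_ind (Q := fun x => del (fun S => S ⊆ M) x = ∑ w ∈ M, wg w x) (by simp)
    (fun x y h1 h2 => ?_) (fun c x h1 => ?_) (fun S hS => ?_) hx
  · simp only [map_add, h1, h2, Finset.sum_add_distrib]
  · simp only [map_smul, h1, Finset.smul_sum]
  · rw [del_single (W := M \ S) fun w => by
      simp only [Ext, Set.mem_ofPred_eq, Finset.insert_subset_iff, Finset.mem_sdiff]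
      tauto]
    refine Finset.sum_subset Finset.sdiff_subset fun w h1 h2 => ?_
    rw [wg_single, if_pos (by simpa [h1] using h2)]

theorem h3_htpy {M : Finset α} {a : α} (ha : a ∈ M) {x : Ch α} (hx : x ∈ Sup fun S => S ⊆ M) :
    io a (del (fun S => S ⊆ M) x) + del (fun S => S ⊆ M) (io a x) = x := by
  rw [h3_full hx, h3_full (h3_io (fun S hS _ => (Finset.erase_subset a S).trans hS) hx), map_sum]
  simp [io_wg, ha]

theorem h3_fin (M S : Finset α) : (Ext (fun S => S ⊆ M) S).Finite :=
  M.finite_toSet.subset fun w hw => hw.2 (Finset.mem_insert_self w S)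

theorem h3_step {M : Finset α} {k : ℕ} {lab : α → ℕ} {p : Finset α → Prop}
    (hp : ∀ S, p S → S ⊆ M) {a : α} (ha : a ∈ M) {z : Ch α} (hz : z ∈ Sup p)
    (h0 : del (Miss M k lab) z = 0) {S : Finset α} (hS : Miss M k lab S)
    (hne : (z - del (Miss M k lab) (io a z)) S ≠ 0) : ∃ S' w, p S' ∧ insert w S' ⊆ M ∧
      ¬ Miss M k lab (insert w S') ∧ S = (insert w S').erase a := by
  have h1 := del_sub_del (c := fun S => S ⊆ M) (c' := Miss M k lab) (p := fun _ => True)
    (q := fun T => ¬ Miss M k lab T) (fun S _ => h3_fin M S) (fun S _ w hw => ⟨hw.1, hw.2.1⟩)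
    (fun S w _ h h' h'' => h' ⟨h.1, h''⟩) (x := io a z) (mem_Sup_iff.2 fun _ _ => trivial)
  have h2 := del_sub_del (c := fun S => S ⊆ M) (c' := Miss M k lab) (p := p)
    (q := fun T => ∃ S' w, p S' ∧ insert w S' ⊆ M ∧ ¬ Miss M k lab (insert w S') ∧
      T = insert w S') (fun S _ => h3_fin M S) (fun S _ w hw => ⟨hw.1, hw.2.1⟩)
    (fun S w hS h h' => ⟨S, w, hS, h.2, fun h'' => h' ⟨h.1, h''⟩, rfl⟩) hz
  rw [h0, sub_zero] at h2
  have h3 := h3_io (a := a) (q := fun T => ∃ S' w, p S' ∧ insert w S' ⊆ M ∧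
    ¬ Miss M k lab (insert w S') ∧ T = (insert w S').erase a)
    (fun T ⟨S', w, e1, e2, e3, e4⟩ _ => ⟨S', w, e1, e2, e3, by rw [e4]⟩) h2
  refine mem_Sup_iff.1 h3 S fun h4 => hne ?_
  have h5 := by_contra fun h => mem_Sup_iff.1 h1 S h hS
  nth_rw 1 [← h3_htpy ha (Sup_mono hp hz)]
  rw [add_sub_assoc, Finsupp.add_apply, h4, h5, add_zero]

theorem local_contract (M : Finset α) (k : ℕ) (lab : α → ℕ) (hlab : ∀ A ∈ M, lab A < k)
    (u : ℕ → α) (hu : ∀ i < k, u i ∈ M ∧ lab (u i) = i) (D : Finset α → Prop)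
    (hD : ∀ S, D S → Miss M k lab S) (hup : ∀ S T, D S → S ⊆ T → Miss M k lab T → D T)
    (her : ∀ S, D S → ∀ i < k, D (S.erase (u i))) (n : ℕ) {z : Ch α}
    (hz : z ∈ Sup fun S => D S ∧ S.card = n + 1) (h0 : del (Miss M k lab) z = 0) :
    ∃ y ∈ Sup fun S => D S ∧ S.card = n, z - del (Miss M k lab) y ∈
      Sup fun S => D S ∧ S.card = n + 1 ∧ S = M \ (Finset.range k).image u := by
  have key : ∀ j ≤ k, ∃ y ∈ Sup fun S => D S ∧ S.card = n, z - del (Miss M k lab) y ∈
      Sup fun S => (D S ∧ S.card = n + 1) ∧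
        ∀ i < j, ∀ A ∈ M, lab A = i → (A ∈ S ↔ A ≠ u i) := by
    intro j
    induction j with
    | zero =>
      refine fun _ => ⟨0, zero_mem _, ?_⟩
      rw [map_zero, sub_zero]
      exact Sup_mono (fun S h => ⟨h, fun i hi => absurd hi (Nat.not_lt_zero i)⟩) hz
    | succ j ih =>
      intro hj
      obtain ⟨y, hy, h1⟩ := ih (by omega)
      have h2 : del (Miss M k lab) (z - del (Miss M k lab) y) = 0 := by
        rw [map_sub, h0, del_del (fun S T => Miss.mono)
          (mem_Sup_iff.2 fun S _ => ext_Miss_fin M k lab S), sub_zero]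
      generalize hz' : z - del (Miss M k lab) y = z' at h1 h2
      have h3 : io (u j) z' ∈ Sup fun S => D S ∧ S.card = n :=
        h3_io (fun S h ha => ⟨her S h.1.1 j hj, by rw [Finset.card_erase_of_mem ha, h.1.2]; rfl⟩) h1
      have h4 : z' - del (Miss M k lab) (io (u j) z') ∈ Sup fun S => D S ∧ S.card = n + 1 :=
        sub_mem (Sup_mono (fun S h => h.1) h1) (del_mem_Sup (fun S _ => ext_Miss_fin M k lab S)
          (fun S w h hw => ⟨hup S _ h.1 (Finset.subset_insert w S) hw.2, by
            rw [Finset.card_insert_of_notMem hw.1, h.2]⟩) h3)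
      refine ⟨y + io (u j) z', add_mem hy h3, ?_⟩
      rw [map_add, ← sub_sub, hz']
      refine mem_Sup_iff.2 fun S hS => ⟨mem_Sup_iff.1 h4 S hS, ?_⟩
      have hm := hD S (mem_Sup_iff.1 h4 S hS).1
      obtain ⟨S', w, e1, e2, e3, rfl⟩ :=
        h3_step (fun S h => (hD S h.1.1).1) (hu j hj).1 h1 h2 hm hS
      intro i hi A hA hl
      rcases (Nat.le_of_lt_succ hi).eq_or_lt with rfl | hij
      · refine ⟨fun h => (Finset.mem_erase.1 h).1, fun h => Finset.mem_erase.2 ⟨h, ?_⟩⟩
        by_contra hA'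
        refine e3 ⟨e2, fun i' hi' => ?_⟩
        obtain ⟨B, b1, b2, b3⟩ := hm.2 i' hi'
        by_cases hB : B = u i
        · exact ⟨A, hA, by rw [hl, ← b2, hB, (hu i hj).2], hA'⟩
        · exact ⟨B, b1, b2, fun h => b3 (Finset.mem_erase.2 ⟨hB, h⟩)⟩
      · have hne : ∀ B, lab B = i → B ≠ u j := fun B hB h => by
          rw [h, (hu j hj).2] at hB
          omega
        rw [Finset.mem_erase, Finset.mem_insert, e1.2 i hij A hA hl]
        refine ⟨fun h => h.2.elim (fun h' h'' => ?_) id, fun h => ⟨hne A hl, Or.inr h⟩⟩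
        obtain ⟨B, b1, b2, b3⟩ := hm.2 i (by omega)
        refine b3 (Finset.mem_erase.2 ⟨hne B b2, ?_⟩)
        by_cases hB : B = u i
        · rw [hB, ← h'', h']
          exact Finset.mem_insert_self _ _
        · exact Finset.mem_insert_of_mem ((e1.2 i hij B b1 b2).2 hB)
  obtain ⟨y, hy, h1⟩ := key k le_rfl
  refine ⟨y, hy, Sup_mono (fun S h => ⟨h.1.1, h.1.2, ?_⟩) h1⟩
  ext A
  rw [Finset.mem_sdiff, Finset.mem_image]
  constructor
  · intro hA
    have hM := (hD S h.1.1).1 hA
    refine ⟨hM, ?_⟩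
    rintro ⟨i, hi, rfl⟩
    rw [Finset.mem_range] at hi
    exact (h.2 i hi _ hM (hu i hi).2).1 hA rfl
  · rintro ⟨hM, hA⟩
    exact (h.2 _ (hlab A hM) A hM rfl).2 fun e =>
      hA ⟨_, Finset.mem_range.2 (hlab A hM), e.symm⟩

end Pool.Agent.MP_cbe134_nt.V

end

section

/- The quasi-shuffle product of truncated sums and products in the depth filtration. -/

open Filter Asymptotics Topology

namespace Pool.Agent.MP_cbe134_nt.V

theorem z1_pos {a : ℕ} {u : List ℕ} : Pos (a :: u) ↔ 1 ≤ a ∧ Pos u := List.forall_mem_cons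

theorem z1_mem {a b : ℕ} {u v w : List ℕ} : w ∈ stuf (a :: u) (b :: v) ↔
    (∃ x ∈ stuf u (b :: v), a :: x = w) ∨ (∃ x ∈ stuf (a :: u) v, b :: x = w) ∨
      ∃ x ∈ stuf u v, (a + b) :: x = w := by
  rw [stuf]
  simp only [List.mem_append, List.mem_map, or_assoc]

theorem z1_len {u v w : List ℕ} (h : w ∈ stuf u v) : w.length ≤ u.length + v.length := by
  induction u, v using stuf.induct generalizing w with
  | case1 v => simp_all [stuf]
  | case2 a u => simp_all [stuf]
  | case3 a u b v ih1 ih2 ih3 =>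
    rcases z1_mem.1 h with ⟨x, hx, rfl⟩ | ⟨x, hx, rfl⟩ | ⟨x, hx, rfl⟩
    · have := ih1 hx
      simp only [List.length_cons] at this ⊢
      omega
    · have := ih2 hx
      simp only [List.length_cons] at this ⊢
      omega
    · have := ih3 hx
      simp only [List.length_cons]
      omega

theorem mem_shuf {β : Type} {u v w : List β} (h : w ∈ shuf u v) : w.Perm (u ++ v) := by
  induction u, v using shuf.induct generalizing w with
  | case1 v => simp_all [shuf]
  | case2 a u => simp_all [shuf]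
  | case3 a u b v ih1 ih2 =>
    rw [shuf, List.mem_append, List.mem_map, List.mem_map] at h
    rcases h with ⟨x, hx, rfl⟩ | ⟨x, hx, rfl⟩
    · exact (ih1 hx).cons a
    · exact ((ih2 hx).cons b).trans List.perm_middle.symm

theorem shuf_nil_right {β : Type} (u : List β) : shuf u [] = [u] := by
  cases u <;> simp [shuf]

theorem stuf_nil_right (u : List ℕ) : stuf u [] = [u] := by
  cases u <;> simp [stuf]

theorem mem_stuf {u v w : List ℕ} (hu : Pos u) (hv : Pos v) (h : w ∈ stuf u v) :
    Pos w ∧ w.sum = u.sum + v.sum ∧ w.length ≤ u.length + v.length := by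
  induction u, v using stuf.induct generalizing w with
  | case1 v =>
    rw [stuf, List.mem_singleton] at h
    subst h
    exact ⟨hv, by simp, by simp⟩
  | case2 a u =>
    rw [stuf, List.mem_singleton] at h
    subst h
    exact ⟨hu, by simp, by simp⟩
  | case3 a u b v ih1 ih2 ih3 =>
    obtain ⟨ha, hu'⟩ := z1_pos.1 hu
    obtain ⟨hb, hv'⟩ := z1_pos.1 hv
    rcases z1_mem.1 h with ⟨x, hx, rfl⟩ | ⟨x, hx, rfl⟩ | ⟨x, hx, rfl⟩
    · obtain ⟨h1, h2, h3⟩ := ih1 hu' hv hx
      simp only [List.sum_cons, List.length_cons] at h2 h3 ⊢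
      exact ⟨z1_pos.2 ⟨ha, h1⟩, by omega, by omega⟩
    · obtain ⟨h1, h2, h3⟩ := ih2 hu hv' hx
      simp only [List.sum_cons, List.length_cons] at h2 h3 ⊢
      exact ⟨z1_pos.2 ⟨hb, h1⟩, by omega, by omega⟩
    · obtain ⟨h1, h2, h3⟩ := ih3 hu' hv' hx
      simp only [List.sum_cons, List.length_cons] at h2 h3 ⊢
      exact ⟨z1_pos.2 ⟨by omega, h1⟩, by omega, by omega⟩

theorem stuf_perm (u v : List ℕ) : ∃ L : List (List ℕ), (stuf u v).Perm (shuf u v ++ L) ∧
    ∀ w ∈ L, w.length < u.length + v.length := by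
  induction u, v using stuf.induct with
  | case1 v => exact ⟨[], by simp [stuf, shuf], by simp⟩
  | case2 a u => exact ⟨[], by simp [stuf, shuf], by simp⟩
  | case3 a u b v ih1 ih2 _ =>
    obtain ⟨L1, p1, q1⟩ := ih1
    obtain ⟨L2, p2, q2⟩ := ih2
    refine ⟨L1.map (a :: ·) ++ L2.map (b :: ·) ++ (stuf u v).map ((a + b) :: ·), ?_, ?_⟩
    · rw [stuf, shuf, ← List.append_assoc]
      refine List.Perm.append_right _ (((p1.map _).append (p2.map _)).trans ?_)
      simp only [List.map_append, List.append_assoc]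
      refine List.Perm.append_left _ ?_
      rw [← List.append_assoc, ← List.append_assoc]
      exact List.perm_append_comm.append_right _
    · intro w hw
      simp only [List.mem_append, List.mem_map] at hw
      rcases hw with (⟨x, hx, rfl⟩ | ⟨x, hx, rfl⟩) | ⟨x, hx, rfl⟩
      · have := q1 x hx
        simp only [List.length_cons] at this ⊢
        omega
      · have := q2 x hx
        simp only [List.length_cons] at this ⊢
        omega
      · have := z1_len hx
        simp only [List.length_cons] at this ⊢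
        omega

theorem adm_stuf {u v w : List ℕ} (hu : Adm u) (hv : Adm v) (h : w ∈ stuf u v) : Adm w := by
  refine ⟨(mem_stuf hu.1 hv.1 h).1, ?_⟩
  cases u with
  | nil =>
    rw [stuf, List.mem_singleton] at h
    exact h ▸ hv.2
  | cons a u =>
    cases v with
    | nil =>
      rw [stuf, List.mem_singleton] at h
      exact h ▸ hu.2
    | cons b v =>
      have ha : 2 ≤ a := hu.2 a (by simp)
      have hb : 2 ≤ b := hv.2 b (by simp)
      rcases z1_mem.1 h with ⟨x, -, rfl⟩ | ⟨x, -, rfl⟩ | ⟨x, -, rfl⟩ <;> simp <;> omega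

theorem Zt_stuf (u v : List ℕ) (N : ℕ) :
    Zt u N * Zt v N = ((stuf u v).map fun w => Zt w N).sum := by
  induction u, v using stuf.induct generalizing N with
  | case1 v => simp [stuf, Zt_nil]
  | case2 a u => simp [stuf, Zt_nil]
  | case3 a u b v ih1 ih2 ih3 =>
    rw [stuf, List.map_append, List.map_append, List.sum_append, List.sum_append]
    induction N with
    | zero =>
      rw [sum_map_cons_zero, sum_map_cons_zero, sum_map_cons_zero, Zt_cons_zero]
      simp
    | succ N ihN =>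
      rw [sum_map_cons_succ, sum_map_cons_succ, sum_map_cons_succ, ← ih1, ← ih2, ← ih3, Zt_succ,
        Zt_succ]
      linear_combination ihN

theorem ZR_stuf (u v : List ℕ) (N : ℕ) :
    ZR u N * ZR v N = ((stuf u v).map fun w => ZR w N).sum := by
  simp only [ZR]
  rw [← Rat.cast_mul, Zt_stuf, Rat.cast_list_sum, List.map_map]
  rfl

theorem Fil_mul (p i q j : ℕ) : Fil p i * Fil q j ≤ Fil (p + q) (i + j) := by
  rw [Fil, Fil, Submodule.span_mul_span, Submodule.span_le]
  rintro _ ⟨_, ⟨u, hu, su, lu, rfl⟩, _, ⟨v, hv, sv, lv, rfl⟩, rfl⟩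
  have h1 := (tendsto_Zt u hu).mul (tendsto_Zt v hv)
  have h2 := tendsto_list (stuf u v) fun w hw => adm_stuf hu hv hw
  have h3 : mzv u * mzv v = ((stuf u v).map mzv).sum :=
    tendsto_nhds_unique h1 (h2.congr fun N => by rw [← Zt_stuf, Rat.cast_mul])
  show mzv u * mzv v ∈ Fil (p + q) (i + j)
  rw [h3]
  refine list_sum_mem fun x hx => ?_
  obtain ⟨w, hw, rfl⟩ := List.mem_map.1 hx
  obtain ⟨-, e1, e2⟩ := mem_stuf hu.1 hv.1 hw
  exact mzv_mem_Fil (adm_stuf hu hv hw) (by omega) (by omega)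

theorem fin_Fil (r k : ℕ) : FiniteDimensional ℚ (Fil r k) := by
  refine FiniteDimensional.span_of_finite ℚ ?_
  refine (((List.finite_length_le (Fin (k + 1)) r).image (List.map Fin.val)).image mzv).subset ?_
  rintro _ ⟨w, -, h2, h3, rfl⟩
  refine ⟨w, ⟨w.map fun a => Fin.ofNat (k + 1) a, by simpa using h3, ?_⟩, rfl⟩
  rw [List.map_map]
  conv_rhs => rw [← List.map_id w]
  refine List.map_congr_left fun a ha => ?_
  have := List.single_le_sum (fun _ _ => Nat.zero_le _) a ha
  exact Nat.mod_eq_of_lt (by omega)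

theorem Dec_le (r k : ℕ) : Dec r k ≤ Fil r k := by
  refine sup_le ?_ ?_
  · cases r with
    | zero => exact bot_le
    | succ r => exact Fil_mono (Nat.le_succ r) k
  · simp only [iSup_le_iff]
    rintro p q i j ⟨-, -, rfl, rfl⟩
    exact Fil_mul p i q j

theorem Fil_le_prev {r k : ℕ} (hr : 1 ≤ r) (h : k ≤ r) : Fil r k ≤ FilPrev r k := by
  obtain ⟨r, rfl⟩ : ∃ s, r = s + 1 := ⟨r - 1, by omega⟩
  refine Submodule.span_mono ?_
  rintro _ ⟨w, h1, h2, h3, rfl⟩
  refine ⟨w, h1, h2, ?_, rfl⟩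
  cases w with
  | nil => simp
  | cons a w =>
    have ha : 2 ≤ a := h1.2 a (by simp)
    have := length_le_sum w fun b hb => h1.1 b (by simp [hb])
    simp only [List.sum_cons, List.length_cons] at h2 ⊢
    omega

/-- the words of `1^m * w`: the word `1^m w` once, all others with fewer leading ones -/
theorem stuf_ones (m : ℕ) (w : List ℕ) (hw : Adm w) (hne : w ≠ []) :
    ∃ L : List (List ℕ), (stuf (ones m) w).Perm ((ones m ++ w) :: L) ∧
      ∀ x ∈ L, ∃ i < m, ∃ y, Adm y ∧ y ≠ [] ∧ x = ones i ++ y := by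
  obtain ⟨b, v, rfl⟩ := List.exists_cons_of_ne_nil hne
  have hb : 2 ≤ b := hw.2 b (by simp)
  have hv : Pos v := (z1_pos.1 hw.1).2
  have ho : ∀ m, Pos (ones m) := fun m a ha => (List.eq_of_mem_replicate ha).ge
  have hc : ∀ c x, 2 ≤ c → Pos x → Adm (c :: x) := fun c x h1 h2 =>
    ⟨z1_pos.2 ⟨by omega, h2⟩, by simpa using h1⟩
  induction m with
  | zero => exact ⟨[], by simp [ones, stuf], by simp⟩
  | succ m ih =>
    obtain ⟨L, p, q⟩ := ih
    have e : ∀ i, ones (i + 1) = 1 :: ones i := fun _ => rfl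
    refine ⟨L.map (1 :: ·) ++ (stuf (1 :: ones m) v).map (b :: ·) ++
      (stuf (ones m) v).map ((1 + b) :: ·), ?_, ?_⟩
    · rw [e, stuf]
      exact ((p.map (1 :: ·)).append_right _).append_right _
    · intro x hx
      simp only [List.mem_append, List.mem_map] at hx
      rcases hx with (⟨y, hy, rfl⟩ | ⟨y, hy, rfl⟩) | ⟨y, hy, rfl⟩
      · obtain ⟨i, hi, z, z1, z2, rfl⟩ := q y hy
        exact ⟨i + 1, by omega, z, z1, z2, rfl⟩
      · exact ⟨0, by omega, _, hc b y hb (mem_stuf (ho (m + 1)) hv hy).1, by simp, rfl⟩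
      · exact ⟨0, by omega, _, hc (1 + b) y (by omega) (mem_stuf (ho m) hv hy).1, by simp, rfl⟩

theorem pos_split {w : List ℕ} (hw : Pos w) : ∃ m y, Adm y ∧ w = ones m ++ y := by
  induction w with
  | nil => exact ⟨0, [], ⟨by simp, by simp⟩, rfl⟩
  | cons a w ih =>
    obtain ⟨ha, hw'⟩ := z1_pos.1 hw
    rcases ha.eq_or_lt with rfl | ha
    · obtain ⟨m, y, h1, rfl⟩ := ih hw'
      exact ⟨m + 1, y, h1, rfl⟩
    · exact ⟨0, a :: w, ⟨hw, by simpa using Nat.succ_le_of_lt ha⟩, rfl⟩

end Pool.Agent.MP_cbe134_nt.V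

end

section

/- Asymptotic expansions of truncated sums. -/

open Filter Asymptotics Topology

namespace Pool.Agent.MP_cbe134_nt.V

theorem z2_rpow_mono {a b : ℝ} (h : a ≤ b) :
    (fun N : ℕ => (N : ℝ) ^ a) =O[atTop] fun N : ℕ => (N : ℝ) ^ b := by
  refine IsBigO.of_bound 1 ?_
  filter_upwards [eventually_ge_atTop 1] with N hN
  have h1 : (1 : ℝ) ≤ N := by exact_mod_cast hN
  have h0 : (0 : ℝ) ≤ N := by positivity
  rw [Real.norm_of_nonneg (Real.rpow_nonneg h0 _), Real.norm_of_nonneg (Real.rpow_nonneg h0 _),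
    one_mul]
  exact Real.rpow_le_rpow_of_exponent_le h1 h

theorem z2_rpow_mul (a b : ℝ) :
    (fun N : ℕ => (N : ℝ) ^ a * (N : ℝ) ^ b) =O[atTop] fun N : ℕ => (N : ℝ) ^ (a + b) := by
  refine IsBigO.of_bound 1 ?_
  filter_upwards [eventually_ge_atTop 1] with N hN
  have h1 : (0 : ℝ) < N := by exact_mod_cast hN
  rw [Real.rpow_add h1, one_mul]

theorem z2_cg {P : (ℕ → ℝ) → Prop} {s t : ℕ → ℝ} (hs : P s) (h : ∀ N, s N = t N) : P t :=
  (funext h : s = t) ▸ hs

theorem Small.add {s t : ℕ → ℝ} (hs : Small s) (ht : Small t) : Small fun N => s N + t N := by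
  obtain ⟨a, ha, h1⟩ := hs
  obtain ⟨b, hb, h2⟩ := ht
  refine ⟨min a b, lt_min ha hb, IsBigO.add ?_ ?_⟩
  · exact h1.trans (z2_rpow_mono (neg_le_neg (min_le_left a b)))
  · exact h2.trans (z2_rpow_mono (neg_le_neg (min_le_right a b)))

theorem Small.zero : Small fun _ => 0 :=
  ⟨1, one_pos, isBigO_zero _ _⟩

theorem Small.mul_slow {s t : ℕ → ℝ} (hs : Small s) (ht : Slow t) :
    Small fun N => s N * t N := by
  obtain ⟨a, ha, h1⟩ := hs
  refine ⟨a / 2, by positivity, ?_⟩
  have h2 := (h1.mul (ht (a / 2) (by positivity))).trans (z2_rpow_mul (-a) (a / 2))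
  have h3 : -a + a / 2 = -(a / 2) := by ring
  rwa [h3] at h2

theorem Small.slow {s : ℕ → ℝ} (hs : Small s) : Slow s := by
  obtain ⟨a, ha, h1⟩ := hs
  intro ε hε
  exact h1.trans (z2_rpow_mono (by linarith))

theorem Slow.const (c : ℝ) : Slow fun _ => c := by
  intro ε hε
  have h := z2_rpow_mono (a := 0) hε.le
  simp only [Real.rpow_zero] at h
  exact (isBigO_const_const c one_ne_zero atTop).trans h

theorem Slow.add {s t : ℕ → ℝ} (hs : Slow s) (ht : Slow t) : Slow fun N => s N + t N :=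
  fun ε hε => (hs ε hε).add (ht ε hε)

theorem Slow.mul {s t : ℕ → ℝ} (hs : Slow s) (ht : Slow t) : Slow fun N => s N * t N := by
  intro ε hε
  have h := ((hs (ε / 2) (by positivity)).mul (ht (ε / 2) (by positivity))).trans
    (z2_rpow_mul (ε / 2) (ε / 2))
  rwa [add_halves] at h

theorem z2_nonneg (w : List ℕ) (N : ℕ) : 0 ≤ ZR w N := by
  unfold ZR
  exact_mod_cast Zt_nonneg w N

theorem z2_succ (a : ℕ) (k : List ℕ) (N : ℕ) :
    ZR (a :: k) (N + 1) = ZR (a :: k) N + ((N : ℝ)⁻¹) ^ a * ZR k N := by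
  unfold ZR
  rw [Zt_succ]
  push_cast
  rfl

theorem z2_cons (a : ℕ) (k : List ℕ) (N : ℕ) :
    ZR (a :: k) N = ∑ n ∈ Finset.range N, ((n : ℝ)⁻¹) ^ a * ZR k n := by
  unfold ZR
  rw [Zt_cons]
  push_cast
  rfl

theorem z2_nil (N : ℕ) : ZR [] N = 1 := by
  unfold ZR
  rw [Zt_nil]
  simp

theorem z2_mono (w : List ℕ) : Monotone (ZR w) := by
  refine monotone_nat_of_le_succ fun N => ?_
  cases w with
  | nil => rw [z2_nil, z2_nil]
  | cons a k =>
    rw [z2_succ]
    have := z2_nonneg k N
    have h : 0 ≤ ((N : ℝ)⁻¹) ^ a * ZR k N := by positivity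
    linarith

theorem z2_slow_harm : Slow fun N => ∑ n ∈ Finset.range N, (n : ℝ)⁻¹ := by
  intro ε hε
  have h1 : (fun N : ℕ => Real.log N) =O[atTop] fun N : ℕ => (N : ℝ) ^ ε :=
    ((isLittleO_log_rpow_atTop hε).comp_tendsto tendsto_natCast_atTop_atTop).isBigO
  refine IsBigO.trans ?_ ((Slow.const 1 ε hε).add h1)
  refine IsBigO.of_bound 1 (Eventually.of_forall fun N => ?_)
  have h0 : 0 ≤ ∑ n ∈ Finset.range N, (n : ℝ)⁻¹ := Finset.sum_nonneg fun n _ => by positivity
  have h2 : ∑ n ∈ Finset.range N, (n : ℝ)⁻¹ ≤ (harmonic N : ℝ) := by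
    have h3 : ∑ n ∈ Finset.range (N + 1), (n : ℝ)⁻¹ = (harmonic N : ℝ) := by
      rw [Finset.sum_range_succ', harmonic]
      push_cast
      simp
    rw [← h3, Finset.sum_range_succ]
    have : (0 : ℝ) ≤ (N : ℝ)⁻¹ := by positivity
    linarith
  rw [Real.norm_of_nonneg h0, one_mul]
  exact (h2.trans (harmonic_le_one_add_log N)).trans (le_abs_self _)

theorem z2_inv_pow_le (n a b : ℕ) (h : b ≤ a) : ((n : ℝ)⁻¹) ^ a ≤ ((n : ℝ)⁻¹) ^ b := by
  refine pow_le_pow_of_le_one (by positivity) ?_ h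
  rcases Nat.eq_zero_or_pos n with rfl | hn
  · simp
  · exact inv_le_one_of_one_le₀ (by exact_mod_cast hn)

theorem slow_ZR {w : List ℕ} (hw : Pos w) : Slow (ZR w) := by
  induction w with
  | nil =>
    have : ZR [] = fun _ => 1 := funext z2_nil
    rw [this]
    exact Slow.const 1
  | cons a k ih =>
    have ha : 1 ≤ a := hw a List.mem_cons_self
    have hk := ih fun b hb => hw b (List.mem_cons_of_mem _ hb)
    intro ε hε
    refine IsBigO.trans ?_ (z2_slow_harm.mul hk ε hε)
    refine IsBigO.of_bound 1 (Eventually.of_forall fun N => ?_)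
    rw [Real.norm_of_nonneg (z2_nonneg _ _), one_mul]
    refine le_trans ?_ (le_abs_self _)
    rw [z2_cons, Finset.sum_mul]
    refine Finset.sum_le_sum fun n hn => ?_
    have h1 := z2_inv_pow_le n a 1 ha
    rw [pow_one] at h1
    exact mul_le_mul h1 (z2_mono k (Finset.mem_range.1 hn).le) (z2_nonneg _ _) (by positivity)

theorem z2_tele {x : ℝ} (hx : 1 ≤ x) :
    (x⁻¹) ^ 2 * √x ≤ 6 * ((√x)⁻¹ - (√(x + 1))⁻¹) := by
  have hs : 1 ≤ √x := Real.one_le_sqrt.2 hx
  have hxx : √x ^ 2 = x := Real.sq_sqrt (by linarith)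
  have htt : √(x + 1) ^ 2 = x + 1 := Real.sq_sqrt (by linarith)
  have hst : √x ≤ √(x + 1) := Real.sqrt_le_sqrt (by linarith)
  generalize √(x + 1) = t at htt hst
  generalize √x = s at hs hxx hst
  subst hxx
  have hs0 : 0 < s := by linarith
  have ht0 : 0 < t := by linarith
  have ht2 : t ≤ 2 * s := by nlinarith
  have h1 : s⁻¹ - t⁻¹ = (s * t * (s + t))⁻¹ := by
    field_simp
    nlinarith
  have h2 : ((s ^ 2)⁻¹) ^ 2 * s = 6 * (6 * s ^ 3)⁻¹ := by
    field_simp
  rw [h1, h2]
  refine mul_le_mul_of_nonneg_left (inv_anti₀ (by positivity) ?_) (by norm_num)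
  have h3 : s * t ≤ s * (2 * s) := mul_le_mul_of_nonneg_left ht2 hs0.le
  have h4 : s * t * (s + t) ≤ s * (2 * s) * (3 * s) :=
    mul_le_mul h3 (by linarith) (by positivity) (by positivity)
  nlinarith

theorem small_tail {w : List ℕ} (hw : Adm w) : Small fun N => ZR w N - mzv w := by
  cases w with
  | nil =>
    have : (fun N => ZR [] N - mzv []) = fun _ => 0 := by
      funext N
      rw [z2_nil, mzv_nil, sub_self]
    rw [this]
    exact Small.zero
  | cons a k =>
    have ha : 2 ≤ a := hw.2 a (by simp)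
    have hk : ∀ b ∈ k, 1 ≤ b := fun b hb => hw.1 b (List.mem_cons_of_mem _ hb)
    have hlim : Tendsto (ZR (a :: k)) atTop (𝓝 (mzv (a :: k))) := tendsto_Zt _ hw
    set K : ℝ := 6 * 2 ^ k.length with hK
    have hK0 : 0 ≤ K := by positivity
    have hstep : ∀ N : ℕ, 1 ≤ N → ZR (a :: k) (N + 1) + K * (√((N + 1 : ℕ) : ℝ))⁻¹ ≤
        ZR (a :: k) N + K * (√(N : ℝ))⁻¹ := by
      intro N hN
      have h1 : (1 : ℝ) ≤ N := by exact_mod_cast hN
      have h2 := z2_tele h1
      have h3 : ZR k N ≤ 2 ^ k.length * √(N : ℝ) := Zt_le k hk N hN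
      have h4 : ((N : ℝ)⁻¹) ^ a * ZR k N ≤ ((N : ℝ)⁻¹) ^ 2 * (2 ^ k.length * √(N : ℝ)) :=
        mul_le_mul (z2_inv_pow_le N a 2 ha) h3 (z2_nonneg _ _) (by positivity)
      have h5 := mul_le_mul_of_nonneg_left h2 (show (0 : ℝ) ≤ 2 ^ k.length by positivity)
      rw [z2_succ]
      push_cast
      rw [hK]
      nlinarith
    have hup : ∀ N : ℕ, 1 ≤ N → mzv (a :: k) ≤ ZR (a :: k) N + K * (√(N : ℝ))⁻¹ := by
      intro N hN
      refine le_of_tendsto hlim ?_
      filter_upwards [eventually_ge_atTop N] with M hM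
      have h : ZR (a :: k) M + K * (√(M : ℝ))⁻¹ ≤ ZR (a :: k) N + K * (√(N : ℝ))⁻¹ := by
        induction M, hM using Nat.le_induction with
        | base => exact le_rfl
        | succ M hM ih => exact (hstep M (hN.trans hM)).trans ih
      have h' : 0 ≤ K * (√(M : ℝ))⁻¹ := by positivity
      linarith
    refine ⟨1 / 2, by norm_num, IsBigO.of_bound K ?_⟩
    filter_upwards [eventually_ge_atTop 1] with N hN
    have h0 : (0 : ℝ) ≤ N := by positivity
    have h1 : ZR (a :: k) N ≤ mzv (a :: k) := (z2_mono _).ge_of_tendsto hlim N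
    rw [Real.norm_of_nonneg (Real.rpow_nonneg h0 _), Real.rpow_neg h0, ← Real.sqrt_eq_rpow,
      Real.norm_eq_abs, abs_sub_comm, abs_of_nonneg (by linarith)]
    have := hup N hN
    linarith

/-- the value of an expansion -/
noncomputable def z2V (N : ℕ) : (ℕ →₀ ℝ) →ₗ[ℝ] ℝ :=
  Finsupp.linearCombination ℝ fun j => ZR (ones j) N

theorem z2V_eq (c : ℕ →₀ ℝ) (N : ℕ) : (c.sum fun j x => x * ZR (ones j) N) = z2V N c := by
  rw [z2V, Finsupp.linearCombination_apply]
  rfl

theorem z2_expn {a : ℕ → ℝ} {c : ℕ →₀ ℝ} : Expn a c ↔ Small fun N => a N - z2V N c := by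
  unfold Expn
  simp only [z2V_eq]

theorem z2V_single (N m : ℕ) (x : ℝ) : z2V N (Finsupp.single m x) = x * ZR (ones m) N := by
  rw [z2V, Finsupp.linearCombination_single, smul_eq_mul]

theorem Expn.add {a b : ℕ → ℝ} {c e : ℕ →₀ ℝ} (ha : Expn a c) (hb : Expn b e) :
    Expn (fun N => a N + b N) (c + e) := by
  rw [z2_expn] at ha hb ⊢
  have h := ha.add hb
  refine z2_cg h fun N => ?_
  rw [map_add]
  ring

theorem Expn.smul {a : ℕ → ℝ} {c : ℕ →₀ ℝ} (x : ℝ) (ha : Expn a c) :
    Expn (fun N => x * a N) (x • c) := by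
  rw [z2_expn] at ha ⊢
  have h := ha.mul_slow (Slow.const x)
  refine z2_cg h fun N => ?_
  rw [map_smul, smul_eq_mul]
  ring

theorem expn_ones (m : ℕ) : Expn (ZR (ones m)) (Finsupp.single m 1) := by
  rw [z2_expn]
  refine z2_cg Small.zero fun N => ?_
  rw [z2V_single]
  ring

theorem expn_adm {w : List ℕ} (hw : Adm w) : Expn (ZR w) (Finsupp.single 0 (mzv w)) := by
  rw [z2_expn]
  refine z2_cg (small_tail hw) fun N => ?_
  rw [z2V_single, show ones 0 = [] from rfl, z2_nil, mul_one]

theorem z2_pos_ones (m : ℕ) : Pos (ones m) := by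
  intro a ha
  rw [List.eq_of_mem_replicate ha]

theorem z2_expn_zero : Expn (fun _ => 0) 0 := by
  rw [z2_expn]
  refine z2_cg Small.zero fun N => ?_
  rw [map_zero, sub_zero]

theorem z2_expn_list (L : List (List ℕ)) (e : List ℕ → ℕ →₀ ℝ)
    (he : ∀ w ∈ L, Expn (ZR w) (e w)) :
    Expn (fun N => (L.map fun w => ZR w N).sum) (L.map e).sum := by
  induction L with
  | nil => simpa using z2_expn_zero
  | cons w L ih =>
    simp only [List.map_cons, List.sum_cons]
    exact (he w List.mem_cons_self).add (ih fun x hx => he x (List.mem_cons_of_mem _ hx))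

theorem z2_list_good (L : List (List ℕ)) (r k : ℕ)
    (h : ∀ w ∈ L, ∃ c : ℕ →₀ ℝ, Expn (ZR w) c ∧
      ∀ j, (c j ≠ 0 → j ≤ r) ∧ c j ∈ Fil (r - j) (k - j)) :
    ∃ c : ℕ →₀ ℝ, Expn (fun N => (L.map fun w => ZR w N).sum) c ∧
      ∀ j, (c j ≠ 0 → j ≤ r) ∧ c j ∈ Fil (r - j) (k - j) := by
  induction L with
  | nil => exact ⟨0, by simpa using z2_expn_zero, fun j => ⟨by simp, by simp⟩⟩
  | cons w L ih =>
    obtain ⟨c, hc, h1⟩ := h w List.mem_cons_self
    obtain ⟨e, he, h2⟩ := ih fun x hx => h x (List.mem_cons_of_mem _ hx)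
    refine ⟨c + e, ?_, fun j => ⟨fun hj => ?_, ?_⟩⟩
    · simp only [List.map_cons, List.sum_cons]
      exact hc.add he
    · by_contra hr
      have h3 : c j = 0 := by_contra fun h => hr ((h1 j).1 h)
      have h4 : e j = 0 := by_contra fun h => hr ((h2 j).1 h)
      exact hj (by rw [Finsupp.add_apply, h3, h4, add_zero])
    · rw [Finsupp.add_apply]
      exact add_mem (h1 j).2 (h2 j).2

theorem z2_single_good (m : ℕ) (y : List ℕ) (hy : Adm y) (j : ℕ) :
    ((Finsupp.single m (mzv y) : ℕ →₀ ℝ) j ≠ 0 → j ≤ (ones m ++ y).length) ∧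
      (Finsupp.single m (mzv y) : ℕ →₀ ℝ) j ∈
        Fil ((ones m ++ y).length - j) ((ones m ++ y).sum - j) := by
  by_cases hj : m = j
  · subst hj
    refine ⟨fun _ => by simp [ones], ?_⟩
    rw [Finsupp.single_eq_same]
    exact mzv_mem_Fil hy (by simp [ones]) (by simp [ones])
  · rw [Finsupp.single_eq_of_ne' hj]
    exact ⟨fun h => absurd rfl h, zero_mem _⟩

theorem z2_exists (m : ℕ) : ∀ y : List ℕ, Adm y → ∃ c : ℕ →₀ ℝ, Expn (ZR (ones m ++ y)) c ∧
    ∀ j, (c j ≠ 0 → j ≤ (ones m ++ y).length) ∧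
      c j ∈ Fil ((ones m ++ y).length - j) ((ones m ++ y).sum - j) := by
  induction m using Nat.strong_induction_on with
  | _ m ih =>
    intro y hy
    by_cases hne : y = []
    · subst hne
      refine ⟨Finsupp.single m 1, by simpa using expn_ones m, fun j => ?_⟩
      have h := z2_single_good m [] hy j
      rwa [mzv_nil] at h
    obtain ⟨L, hL, hlt⟩ := stuf_ones m y hy hne
    obtain ⟨c, hc, h1⟩ := z2_list_good L (ones m ++ y).length (ones m ++ y).sum (by
      intro x hx
      have hm := mem_stuf (z2_pos_ones m) hy.1 (hL.mem_iff.2 (List.mem_cons_of_mem _ hx))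
      obtain ⟨i, hi, z, hz, -, rfl⟩ := hlt x hx
      obtain ⟨c, hc, h1⟩ := ih i hi z hz
      rw [← List.length_append, ← List.sum_append] at hm
      refine ⟨c, hc, fun j => ⟨fun hj => ((h1 j).1 hj).trans hm.2.2, ?_⟩⟩
      rw [← hm.2.1]
      exact Fil_mono (Nat.sub_le_sub_right hm.2.2 j) _ (h1 j).2)
    have h2 : Expn (fun N => ZR (ones m) N * ZR y N) (Finsupp.single m (mzv y)) := by
      rw [z2_expn]
      refine z2_cg ((small_tail hy).mul_slow (slow_ZR (z2_pos_ones m))) fun N => ?_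
      rw [z2V_single]
      ring
    refine ⟨Finsupp.single m (mzv y) + (-1 : ℝ) • c, ?_, fun j => ⟨fun hj => ?_, ?_⟩⟩
    · refine z2_cg (P := fun s => Expn s _) (h2.add (hc.smul (-1))) fun N => ?_
      rw [ZR_stuf, (hL.map _).sum_eq, List.map_cons, List.sum_cons]
      ring
    · by_contra hr
      have h3 : (Finsupp.single m (mzv y) : ℕ →₀ ℝ) j = 0 :=
        by_contra fun h => hr ((z2_single_good m y hy j).1 h)
      have h4 : c j = 0 := by_contra fun h => hr ((h1 j).1 h)
      exact hj (by rw [Finsupp.add_apply, h3, Finsupp.smul_apply, h4, smul_zero, add_zero])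
    · rw [Finsupp.add_apply, Finsupp.smul_apply, neg_one_smul]
      exact add_mem (z2_single_good m y hy j).2 (neg_mem (h1 j).2)

theorem exists_expn {w : List ℕ} (hw : Pos w) : ∃ c : ℕ →₀ ℝ, Expn (ZR w) c ∧
    ∀ j, (c j ≠ 0 → j ≤ w.length) ∧ c j ∈ Fil (w.length - j) (w.sum - j) := by
  obtain ⟨m, y, hy, rfl⟩ := pos_split hw
  exact z2_exists m y hy

theorem z2_expn_sum {ι : Type} (s : Finset ι) (a : ι → ℕ → ℝ) (c : ι → ℕ →₀ ℝ)
    (h : ∀ i ∈ s, Expn (a i) (c i)) : Expn (fun N => ∑ i ∈ s, a i N) (∑ i ∈ s, c i) := by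
  classical
  induction s using Finset.induction_on with
  | empty => simpa using z2_expn_zero
  | insert i s hi ih =>
    simp only [Finset.sum_insert hi]
    exact (h i (Finset.mem_insert_self _ _)).add
      (ih fun x hx => h x (Finset.mem_insert_of_mem hx))

theorem z2_slow_V (c : ℕ →₀ ℝ) : Slow fun N => z2V N c := by
  induction c using Finsupp.induction_linear with
  | zero => simpa using Slow.const 0
  | add c e hc he => simpa using hc.add he
  | single m x =>
    simp only [z2V_single]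
    exact (Slow.const x).mul (slow_ZR (z2_pos_ones m))

/-- product of two expansions, given expansions `e w` of all words -/
theorem Expn.mul {a b : ℕ → ℝ} {c c' : ℕ →₀ ℝ} (ha : Expn a c) (hb : Expn b c')
    (e : List ℕ → ℕ →₀ ℝ) (he : ∀ w, Pos w → Expn (ZR w) (e w)) :
    Expn (fun N => a N * b N) (c.sum fun i x => c'.sum fun j y =>
      (x * y) • ((stuf (ones i) (ones j)).map e).sum) := by
  have h1 : Expn (fun N => z2V N c * z2V N c') (c.sum fun i x => c'.sum fun j y =>
      (x * y) • ((stuf (ones i) (ones j)).map e).sum) := by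
    have h := z2_expn_sum c.support _ _ fun i _ => z2_expn_sum c'.support _ _ fun j _ =>
      (z2_expn_list (stuf (ones i) (ones j)) e fun w hw =>
        he w (mem_stuf (z2_pos_ones i) (z2_pos_ones j) hw).1).smul (c i * c' j)
    refine z2_cg (P := fun s => Expn s _) h fun N => ?_
    rw [← z2V_eq, ← z2V_eq, Finsupp.sum, Finsupp.sum, Finset.sum_mul_sum]
    refine Finset.sum_congr rfl fun i _ => Finset.sum_congr rfl fun j _ => ?_
    rw [← ZR_stuf]
    ring
  rw [z2_expn] at ha hb h1 ⊢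
  have hsb : Slow b := by
    refine z2_cg (hb.slow.add (z2_slow_V c')) fun N => ?_
    ring
  refine z2_cg (((ha.mul_slow hsb).add (hb.mul_slow (z2_slow_V c))).add h1) fun N => ?_
  ring

end Pool.Agent.MP_cbe134_nt.V

end

section

/- Dimension bounds for graded families of subspaces. -/

namespace Pool.Agent.MP_cbe134_nt.V

open Finset.HasAntidiagonal

/-- the dimension is finite and at most `q` -/
def a1_B (V : Submodule ℚ ℝ) (q : ℚ) : Prop :=
  FiniteDimensional ℚ V ∧ (Module.finrank ℚ V : ℚ) ≤ q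

theorem a1_mono {V W : Submodule ℚ ℝ} {q q' : ℚ} (h : a1_B W q) (h1 : V ≤ W) (h2 : q ≤ q') :
    a1_B V q' := by
  have := h.1
  refine ⟨Submodule.finiteDimensional_of_le h1, le_trans ?_ (h.2.trans h2)⟩
  exact_mod_cast Submodule.finrank_mono h1

theorem a1_zero : a1_B 0 0 := ⟨inferInstanceAs (FiniteDimensional ℚ (⊥ : Submodule ℚ ℝ)), by
  rw [Submodule.zero_eq_bot, finrank_bot, Nat.cast_zero]⟩

theorem a1_range {ι : Type} [Fintype ι] (b : ι → ℝ) :
    a1_B (Submodule.span ℚ (Set.range b)) (Fintype.card ι) :=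
  ⟨FiniteDimensional.span_of_finite ℚ (Set.finite_range b), by
    exact_mod_cast finrank_range_le_card b⟩

theorem a1_single (v : ℝ) : a1_B (Submodule.span ℚ {v}) 1 := by
  have := a1_range fun _ : Unit => v
  rwa [Set.range_const, Fintype.card_unit, Nat.cast_one] at this

theorem a1_add {V W : Submodule ℚ ℝ} {a b : ℚ} (h : a1_B V a) (h' : a1_B W b) :
    a1_B (V + W) (a + b) := by
  have := h.1
  have := h'.1
  rw [Submodule.add_eq_sup]
  refine ⟨inferInstance, le_trans ?_ (add_le_add h.2 h'.2)⟩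
  exact_mod_cast Submodule.finrank_add_le_finrank_add_finrank V W

theorem a1_sum {ι : Type} {s : Finset ι} {V : ι → Submodule ℚ ℝ} {a : ι → ℚ}
    (h : ∀ i ∈ s, a1_B (V i) (a i)) : a1_B (∑ i ∈ s, V i) (∑ i ∈ s, a i) := by
  classical
  induction s using Finset.induction_on with
  | empty => exact a1_zero
  | insert i s hi ih =>
    rw [Finset.sum_insert hi, Finset.sum_insert hi]
    exact a1_add (h i (Finset.mem_insert_self i s))
      (ih fun j hj => h j (Finset.mem_insert_of_mem hj))

theorem a1_sum_eq {ι : Type} (s : Finset ι) (V : ι → Submodule ℚ ℝ) :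
    ∑ i ∈ s, V i = ⨆ i ∈ s, V i := by
  classical
  induction s using Finset.induction_on with
  | empty => simp
  | insert i s hi ih => rw [Finset.sum_insert hi, Finset.iSup_insert, ih, Submodule.add_eq_sup]

theorem a1_basis {V : Submodule ℚ ℝ} (h : FiniteDimensional ℚ V) :
    ∃ b : Fin (Module.finrank ℚ V) → ℝ, V = Submodule.span ℚ (Set.range b) := by
  refine ⟨V.subtype ∘ Module.finBasis ℚ V, ?_⟩
  rw [Set.range_comp, ← Submodule.map_span, Module.Basis.span_eq, Submodule.map_subtype_top]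

theorem a1_mul {V W : Submodule ℚ ℝ} {a b : ℚ} (h : a1_B V a) (h' : a1_B W b) :
    a1_B (V * W) (a * b) := by
  obtain ⟨v, hv⟩ := a1_basis h.1
  obtain ⟨w, hw⟩ := a1_basis h'.1
  refine a1_mono (a1_range fun p : _ × _ => v p.1 * w p.2) ?_ ?_
  · refine (mul_le_mul' hv.le hw.le).trans ?_
    rw [Submodule.span_mul_span]
    refine Submodule.span_mono ?_
    rintro _ ⟨_, ⟨i, rfl⟩, _, ⟨j, rfl⟩, rfl⟩
    exact ⟨(i, j), rfl⟩
  · rw [Fintype.card_prod, Fintype.card_fin, Fintype.card_fin, Nat.cast_mul]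
    exact mul_le_mul h.2 h'.2 (Nat.cast_nonneg _) ((Nat.cast_nonneg _).trans h.2)

theorem a1_sq {V : Submodule ℚ ℝ} {a : ℚ} (h : a1_B V a) : a1_B (V * V) ((a * a + a) / 2) := by
  obtain ⟨v, hv⟩ := a1_basis h.1
  refine a1_mono (a1_range (Sym2.lift ⟨fun i j => v i * v j, fun i j => mul_comm _ _⟩)) ?_ ?_
  · refine (mul_le_mul' hv.le hv.le).trans ?_
    rw [Submodule.span_mul_span]
    refine Submodule.span_mono ?_
    rintro _ ⟨_, ⟨i, rfl⟩, _, ⟨j, rfl⟩, rfl⟩
    exact ⟨s(i, j), rfl⟩
  · rw [Sym2.card, Fintype.card_fin, Nat.cast_choose_two]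
    have h1 := h.2
    have h2 : (0 : ℚ) ≤ Module.finrank ℚ V := Nat.cast_nonneg _
    push_cast
    nlinarith

theorem Bd.add {x y : Gr} {s t : PowerSeries ℚ} (hx : Bd x s) (hy : Bd y t) :
    Bd (x + y) (s + t) := fun k => by
  rw [map_add, map_add]
  exact a1_add (hx k) (hy k)

theorem Bd.mul {x y : Gr} {s t : PowerSeries ℚ} (hx : Bd x s) (hy : Bd y t) :
    Bd (x * y) (s * t) := fun k => by
  rw [PowerSeries.coeff_mul, PowerSeries.coeff_mul]
  exact a1_sum fun p _ => a1_mul (hx p.1) (hy p.2)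

theorem a1_diag (f : ℕ → ℚ) (k : ℕ) :
    ∑ p ∈ antidiagonal k, (if p.1 = p.2 then f p.1 else 0) = if Even k then f (k / 2) else 0 := by
  split_ifs with h
  · obtain ⟨m, rfl⟩ := h
    rw [Finset.sum_eq_single_of_mem (m, m) (mem_antidiagonal.2 rfl), if_pos rfl]
    · congr 1
      omega
    · intro p hp hne
      have := mem_antidiagonal.1 hp
      exact if_neg fun e => hne (Prod.ext (by dsimp only; omega) (by dsimp only; omega))
  · exact Finset.sum_eq_zero fun p hp => if_neg fun e => h ⟨p.1, by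
      have := mem_antidiagonal.1 hp
      omega⟩

theorem Bd.sq {x : Gr} {s : PowerSeries ℚ} (hx : Bd x s) :
    Bd (x ^ 2) ((1 / 2 : ℚ) • (s ^ 2 + sq2 s)) := fun k => by
  obtain ⟨q, hq⟩ : ∃ q : ℕ × ℕ → ℚ, ∀ p, q p = if p.1 < p.2 then
      PowerSeries.coeff p.1 s * PowerSeries.coeff p.2 s else if p.1 = p.2 then
      (PowerSeries.coeff p.1 s * PowerSeries.coeff p.1 s + PowerSeries.coeff p.1 s) / 2 else 0 :=
    ⟨_, fun _ => rfl⟩
  have h1 : a1_B (∑ p ∈ antidiagonal k, if p.1 ≤ p.2 then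
      PowerSeries.coeff p.1 x * PowerSeries.coeff p.2 x else 0) (∑ p ∈ antidiagonal k, q p) :=
    a1_sum fun p _ => by
      rw [hq]
      rcases lt_trichotomy p.1 p.2 with h | h | h
      · rw [if_pos h.le, if_pos h]
        exact a1_mul (hx _) (hx _)
      · rw [if_pos h.le, if_neg h.not_lt, if_pos h, ← h]
        exact a1_sq (hx _)
      · rw [if_neg h.not_ge, if_neg h.not_gt, if_neg h.ne']
        exact a1_zero
  refine a1_mono h1 ?_ (le_of_eq ?_)
  · rw [pow_two, PowerSeries.coeff_mul, a1_sum_eq, a1_sum_eq]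
    refine iSup₂_le fun p hp => ?_
    by_cases h : p.1 ≤ p.2
    · exact le_iSup₂_of_le p hp (by rw [if_pos h])
    · refine le_iSup₂_of_le p.swap (mem_antidiagonal.2 ?_) ?_
      · rw [← mem_antidiagonal.1 hp]
        exact add_comm _ _
      · rw [if_pos (show p.swap.1 ≤ p.swap.2 from (not_le.1 h).le), mul_comm]
        exact le_rfl
  · have h2 : ∑ p ∈ antidiagonal k, q p + ∑ p ∈ antidiagonal k, q p =
        PowerSeries.coeff k (s ^ 2 + sq2 s) := by
      rw [map_add, pow_two, PowerSeries.coeff_mul, sq2, PowerSeries.coeff_mk,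
        ← a1_diag fun i => PowerSeries.coeff i s, ← Finset.sum_add_distrib (s := antidiagonal k)
          (f := fun p => PowerSeries.coeff p.1 s * PowerSeries.coeff p.2 s)]
      nth_rewrite 2 [← Finset.Nat.sum_antidiagonal_swap]
      rw [← Finset.sum_add_distrib]
      refine Finset.sum_congr rfl fun p _ => ?_
      simp only [hq, Prod.fst_swap, Prod.snd_swap]
      rcases lt_trichotomy p.1 p.2 with h | h | h
      · simp [h, h.ne, h.ne', h.not_gt]
      · simp [← h]
      · simp [h, h.ne', h.not_gt, mul_comm]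
    rw [PowerSeries.coeff_smul, ← h2, smul_eq_mul]
    ring

theorem bd_one : Bd 1 1 := fun k => by
  change a1_B _ _
  rw [PowerSeries.coeff_one, PowerSeries.coeff_one]
  split_ifs
  · rw [Submodule.one_eq_span]
    exact a1_single 1
  · exact a1_zero

theorem a1_const {m : ℕ} (hm : 0 < m) :
    PowerSeries.constantCoeff (1 - PowerSeries.X ^ m : PowerSeries ℚ) ≠ 0 := by
  simp [hm.ne']

theorem a1_gs {m : ℕ} (hm : 0 < m) : gs m = 1 + PowerSeries.X ^ m * gs m := by
  have := PowerSeries.mul_inv_cancel _ (a1_const hm)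
  rw [← this, gs]
  ring

theorem a1_gs_two (k : ℕ) : PowerSeries.coeff k (gs 2) = if Even k then 1 else 0 := by
  induction k using Nat.strong_induction_on with
  | _ k ih =>
    rw [a1_gs two_pos, map_add, PowerSeries.coeff_one, PowerSeries.coeff_X_pow_mul']
    rcases k with _ | _ | k
    · simp
    · simp
    · rw [if_neg (by omega), if_pos (by omega), zero_add, ih _ (by omega)]
      exact if_congr (by rw [Nat.even_iff, Nat.even_iff]; omega) rfl rfl

theorem bd_Ev : Bd Ev eS := fun k => by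
  rw [Ev, eS, PowerSeries.coeff_mk, PowerSeries.coeff_X_pow_mul', a1_gs_two]
  by_cases h : Even k ∧ 2 ≤ k
  · rw [if_pos h, if_pos h.2, if_pos (by have := h.1; rw [Nat.even_iff] at this ⊢; omega)]
    exact a1_single _
  · rw [if_neg h]
    exact a1_mono a1_zero le_rfl (by split_ifs <;> norm_num)

/-- odd single zeta values of weight at least `m` -/
noncomputable def a1_O (m : ℕ) : Gr :=
  PowerSeries.mk fun k => if Odd k ∧ m ≤ k then Submodule.span ℚ {mzv [k]} else ⊥

theorem a1_O_eq {m : ℕ} (hm : Odd m) :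
    a1_O m = PowerSeries.monomial m (Submodule.span ℚ {mzv [m]}) + a1_O (m + 2) := by
  ext1 k
  rw [map_add, a1_O, a1_O, PowerSeries.coeff_mk, PowerSeries.coeff_mk, PowerSeries.coeff_monomial]
  by_cases h : k = m
  · rw [if_pos h, h, if_pos ⟨hm, le_rfl⟩, if_neg (fun e => by omega), ← Submodule.zero_eq_bot,
      add_zero]
  · rw [if_neg h, zero_add]
    refine if_congr (and_congr_right fun hk => ?_) rfl rfl
    rw [Nat.odd_iff] at hk hm
    omega

theorem a1_idem (x : Gr) : x + x = x := by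
  ext1 k
  rw [map_add, Submodule.add_eq_sup, sup_idem]

theorem a1_pow (z y : Gr) (j : ℕ) : (z + y) ^ (j + 1) = z * (z + y) ^ j + y ^ (j + 1) := by
  induction j with
  | zero => simp
  | succ j ih =>
    calc (z + y) ^ (j + 1 + 1) = z * (z + y) ^ (j + 1) + y * (z + y) ^ (j + 1) := by ring
      _ = z * (z + y) ^ (j + 1) + y * (z * (z + y) ^ j + y ^ (j + 1)) := by rw [← ih]
      _ = z * z * (z + y) ^ j + (z * y * (z + y) ^ j + z * y * (z + y) ^ j) + y ^ (j + 1 + 1) := by
        ring
      _ = z * (z + y) ^ (j + 1) + y ^ (j + 1 + 1) := by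
        rw [a1_idem]
        ring

theorem a1_monomial (m : ℕ) (v : ℝ) :
    Bd (PowerSeries.monomial m (Submodule.span ℚ {v})) (PowerSeries.X ^ m) := fun k => by
  change a1_B _ _
  rw [PowerSeries.coeff_monomial, PowerSeries.coeff_X_pow]
  split_ifs
  · exact a1_single v
  · exact a1_zero

theorem a1_O_pow (j : ℕ) : ∀ m, Odd m → Bd (a1_O m ^ j)
    (PowerSeries.X ^ (m * j) * ∏ i ∈ Finset.range j, gs (2 * (i + 1))) := by
  induction j with
  | zero => intro m _; simpa using bd_one
  | succ j ih =>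
    have key : ∀ k n m, Odd m → k < m + n → a1_B (PowerSeries.coeff k (a1_O m ^ (j + 1)))
        (PowerSeries.coeff k (PowerSeries.X ^ (m * (j + 1)) *
          ∏ i ∈ Finset.range (j + 1), gs (2 * (i + 1)))) := by
      intro k n
      induction n with
      | zero =>
        intro m _ hk
        rw [PowerSeries.coeff_X_pow_mul', if_neg (by nlinarith), pow_succ', PowerSeries.coeff_mul,
          Finset.sum_eq_zero fun p hp => ?_]
        · exact a1_zero
        · have := mem_antidiagonal.1 hp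
          rw [a1_O, PowerSeries.coeff_mk, if_neg (fun e => by omega), ← Submodule.zero_eq_bot,
            zero_mul]
      | succ n ihn =>
        intro m hm hk
        have e : (PowerSeries.X ^ (m * (j + 1)) * ∏ i ∈ Finset.range (j + 1), gs (2 * (i + 1)) :
            PowerSeries ℚ) = PowerSeries.X ^ m * (PowerSeries.X ^ (m * j) *
              ∏ i ∈ Finset.range j, gs (2 * (i + 1))) + PowerSeries.X ^ ((m + 2) * (j + 1)) *
              ∏ i ∈ Finset.range (j + 1), gs (2 * (i + 1)) := by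
          rw [Finset.prod_range_succ]
          nth_rewrite 1 [a1_gs (m := 2 * (j + 1)) (by omega)]
          ring
        rw [e, map_add, a1_O_eq hm, a1_pow, ← a1_O_eq hm, map_add]
        exact a1_add ((a1_monomial m _).mul (ih m hm) k)
          (ihn (m + 2) (hm.add_even even_two) (by omega))
    exact fun m hm k => key k (k + 1) m hm (by omega)

theorem bd_Od_pow (j : ℕ) : Bd (Od ^ j) (pS j) := a1_O_pow j 3 (by decide)

end Pool.Agent.MP_cbe134_nt.V

end

section

/- The depth-graded pieces are spanned by monomials with at most one even zeta value. -/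

namespace Pool.Agent.MP_cbe134_nt.V

/-- the order on graded families -/
def va2_le (x y : Gr) : Prop := x + y = y

/-- the depth filtration as a graded family -/
noncomputable def va2_F (r : ℕ) : Gr := PowerSeries.mk fun k => Fil r k

theorem va2_iff {x y : Gr} :
    va2_le x y ↔ ∀ k, PowerSeries.coeff k x ≤ PowerSeries.coeff k y := by
  unfold va2_le
  rw [PowerSeries.ext_iff]
  refine forall_congr' fun k => ?_
  rw [map_add, Submodule.add_eq_sup, sup_eq_right]

theorem va2_refl (x : Gr) : va2_le x x := va2_iff.2 fun _ => le_rfl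

theorem va2_le.trans {x y z : Gr} (h : va2_le x y) (h' : va2_le y z) : va2_le x z :=
  va2_iff.2 fun k => (va2_iff.1 h k).trans (va2_iff.1 h' k)

theorem va2_le.add {x y z : Gr} (h : va2_le x z) (h' : va2_le y z) : va2_le (x + y) z := by
  unfold va2_le at *
  rw [add_assoc, h', h]

theorem va2_le.left {x y : Gr} (h : va2_le x y) (z : Gr) : va2_le x (y + z) := by
  unfold va2_le at *
  rw [← add_assoc, h]

theorem va2_le.right {x z : Gr} (h : va2_le x z) (y : Gr) : va2_le x (y + z) := by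
  rw [add_comm]
  exact h.left y

theorem va2_le.mul {x y z w : Gr} (h : va2_le x y) (h' : va2_le z w) :
    va2_le (x * z) (y * w) := by
  have h1 : va2_le (x * z) (y * z) := by
    unfold va2_le at *
    rw [← add_mul, h]
  have h2 : va2_le (y * z) (y * w) := by
    unfold va2_le at *
    rw [← mul_add, h']
  exact h1.trans h2

theorem va2_of_eq {x y : Gr} (z : Gr) (h : y = x + z) : va2_le x y :=
  h ▸ (va2_refl x).left z

theorem va2_mul_le {x y z : Gr} (h : ∀ i j, PowerSeries.coeff i x * PowerSeries.coeff j y ≤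
    PowerSeries.coeff (i + j) z) : va2_le (x * y) z := by
  refine va2_iff.2 fun k => ?_
  rw [PowerSeries.coeff_mul]
  refine Finset.sum_induction _ (· ≤ PowerSeries.coeff k z) (fun a b ha hb => sup_le ha hb)
    bot_le fun p hp => ?_
  rw [← Finset.HasAntidiagonal.mem_antidiagonal.1 hp]
  exact h _ _

theorem va2_le_mul (x y : Gr) (i j : ℕ) : PowerSeries.coeff i x * PowerSeries.coeff j y ≤
    PowerSeries.coeff (i + j) (x * y) := by
  rw [PowerSeries.coeff_mul]
  exact Finset.single_le_sum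
    (f := fun p : ℕ × ℕ => PowerSeries.coeff p.1 x * PowerSeries.coeff p.2 y)
    (fun _ _ => bot_le) (a := (i, j)) (Finset.HasAntidiagonal.mem_antidiagonal.2 rfl)

theorem va2_FF (p q : ℕ) : va2_le (va2_F p * va2_F q) (va2_F (p + q)) :=
  va2_mul_le fun i j => by
    simp only [va2_F, PowerSeries.coeff_mk]
    exact Fil_mul p i q j

theorem va2_mulF {x y : Gr} {p q r : ℕ} (h : va2_le x (va2_F p)) (h' : va2_le y (va2_F q))
    (e : p + q = r) : va2_le (x * y) (va2_F r) :=
  e ▸ (h.mul h').trans (va2_FF p q)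

theorem va2_Od : va2_le Od (va2_F 1) := by
  refine va2_iff.2 fun k => ?_
  simp only [va2_F, Od, PowerSeries.coeff_mk]
  split_ifs with h
  · exact Submodule.span_le.2 (Set.singleton_subset_iff.2
      (mzv_mem_Fil (adm_single (by omega)) (by simp) (by simp)))
  · exact bot_le

theorem va2_Ev : va2_le Ev (va2_F 1) := by
  refine va2_iff.2 fun k => ?_
  simp only [va2_F, Ev, PowerSeries.coeff_mk]
  split_ifs with h
  · exact Submodule.span_le.2 (Set.singleton_subset_iff.2
      (mzv_mem_Fil (adm_single (by omega)) (by simp) (by simp)))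
  · exact bot_le

theorem va2_G {r : ℕ} {G : Gr} (h : Gens r G) : va2_le G (va2_F r) :=
  va2_iff.2 fun k => by
    simp only [va2_F, PowerSeries.coeff_mk]
    exact (h k).1

theorem va2_one : va2_le 1 (va2_F 0) := by
  refine va2_iff.2 fun k => ?_
  simp only [va2_F, PowerSeries.coeff_mk, PowerSeries.coeff_one]
  split_ifs with h
  · rw [Submodule.one_le, ← mzv_nil]
    exact mzv_mem_Fil ⟨by simp, by simp⟩ (by simp [h]) (by simp)
  · exact bot_le

theorem va2_zero (k : ℕ) : Fil 0 k ≤ PowerSeries.coeff k (1 : Gr) := by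
  refine Submodule.span_le.2 ?_
  rintro _ ⟨w, -, h2, h3, rfl⟩
  obtain rfl : w = [] := List.length_eq_zero_iff.1 (Nat.le_zero.1 h3)
  obtain rfl : 0 = k := h2
  rw [mzv_nil, PowerSeries.coeff_one, if_pos rfl]
  exact Submodule.one_le.1 le_rfl

theorem va2_F1 : va2_le (va2_F 1) (va2_F 0 + (Od + Ev)) := by
  refine va2_iff.2 fun k => ?_
  simp only [va2_F, Od, Ev, map_add, PowerSeries.coeff_mk, Submodule.add_eq_sup]
  refine Submodule.span_le.2 ?_
  rintro _ ⟨w, h1, h2, h3, rfl⟩
  match w, h1, h2, h3 with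
  | [], h1, h2, _ => exact Submodule.mem_sup_left (mzv_mem_Fil h1 h2 le_rfl)
  | [a], h1, h2, _ =>
    obtain rfl : a = k := by simpa using h2
    have h4 : 2 ≤ a := h1.2 a (by simp)
    refine Submodule.mem_sup_right ?_
    rcases Nat.even_or_odd a with h | h
    · refine Submodule.mem_sup_right ?_
      rw [if_pos ⟨h, h4⟩]
      exact Submodule.mem_span_singleton_self _
    · refine Submodule.mem_sup_left ?_
      rw [if_pos ⟨h, by obtain ⟨m, rfl⟩ := h; omega⟩]
      exact Submodule.mem_span_singleton_self _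
  | _ :: _ :: _, _, _, h3 => simp at h3

theorem va2_pi {j : ℕ} (hj : 1 ≤ j) : ∃ q : ℚ, mzv [2 * j] = q • Real.pi ^ (2 * j) := by
  obtain ⟨q, hq⟩ := pi_pow_eq hj
  have h0 : q ≠ 0 := by
    rintro rfl
    rw [zero_smul] at hq
    exact pow_ne_zero _ Real.pi_ne_zero hq
  exact ⟨q⁻¹, by rw [hq, smul_smul, inv_mul_cancel₀ h0, one_smul]⟩

theorem va2_EvEv : va2_le (Ev * Ev) (va2_F 1) := by
  refine va2_mul_le fun i j => ?_
  simp only [va2_F, Ev, PowerSeries.coeff_mk]
  split_ifs with h h'
  · obtain ⟨⟨a, rfl⟩, ha⟩ := h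
    obtain ⟨⟨b, rfl⟩, hb⟩ := h'
    rw [Submodule.span_mul_span, Set.singleton_mul_singleton, ← two_mul, ← two_mul]
    refine Submodule.span_le.2 (Set.singleton_subset_iff.2 ?_)
    obtain ⟨q, hq⟩ := va2_pi (j := a) (by omega)
    obtain ⟨q', hq'⟩ := va2_pi (j := b) (by omega)
    obtain ⟨q'', hq''⟩ := pi_pow_eq (j := a + b) (by omega)
    rw [hq, hq', smul_mul_smul_comm, ← pow_add, ← mul_add, hq'']
    exact Submodule.smul_mem _ _ (Submodule.smul_mem _ _
      (mzv_mem_Fil (adm_single (by omega)) (by simp) (by simp)))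
  · simp
  · simp
  · simp

section main

variable {G2 G3 G4 : Gr}

theorem va2_TT (p q : ℕ) (h : p + q ≤ 4) :
    va2_le (Tm G2 G3 G4 p * Tm G2 G3 G4 q) (Tm G2 G3 G4 (p + q)) := by
  have h13 : va2_le (Tm G2 G3 G4 1 * Tm G2 G3 G4 3) (Tm G2 G3 G4 4) :=
    va2_of_eq (G4 + G2 ^ 2) (by simp only [Tm]; ring)
  have h12 : va2_le (Tm G2 G3 G4 1 * Tm G2 G3 G4 2) (Tm G2 G3 G4 3) :=
    va2_of_eq G3 (by simp only [Tm]; ring)
  have h11 : va2_le (Tm G2 G3 G4 1 * Tm G2 G3 G4 1) (Tm G2 G3 G4 2) :=
    va2_of_eq G2 (by simp only [Tm]; ring)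
  have h22 : va2_le (Tm G2 G3 G4 2 * Tm G2 G3 G4 2) (Tm G2 G3 G4 4) := by
    have e : Tm G2 G3 G4 2 * Tm G2 G3 G4 2 = (G2 ^ 2 + G2 * Od ^ 2 + Od ^ 4) + G2 * Od ^ 2 := by
      simp only [Tm]; ring
    rw [e]
    exact (va2_of_eq (G4 + G3 * Od) (by simp only [Tm]; ring)).add
      (va2_of_eq (G4 + G3 * Od + G2 ^ 2 + Od ^ 4) (by simp only [Tm]; ring))
  have h0 : Tm G2 G3 G4 0 = 1 := rfl
  rcases Nat.eq_zero_or_pos p with rfl | hp
  · rw [h0, one_mul, zero_add]
    exact va2_refl _
  rcases Nat.eq_zero_or_pos q with rfl | hq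
  · rw [h0, mul_one, add_zero]
    exact va2_refl _
  have hp4 : p ≤ 3 := by omega
  have hq4 : q ≤ 3 := by omega
  interval_cases p <;> interval_cases q
  · exact h11
  · exact h12
  · exact h13
  · exact mul_comm (Tm G2 G3 G4 1) _ ▸ h12
  · exact h22
  · omega
  · exact mul_comm (Tm G2 G3 G4 1) _ ▸ h13
  · omega
  · omega

theorem va2_T (h2 : Gens 2 G2) (h3 : Gens 3 G3) (h4 : Gens 4 G4) (r : ℕ) (hr : r ≤ 4) :
    va2_le (Tm G2 G3 G4 r) (va2_F r) := by
  have o2 : va2_le (Od ^ 2) (va2_F 2) := pow_two Od ▸ va2_mulF va2_Od va2_Od rfl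
  have o3 : va2_le (Od ^ 3) (va2_F 3) := pow_succ Od 2 ▸ va2_mulF o2 va2_Od rfl
  have o4 : va2_le (Od ^ 4) (va2_F 4) := pow_succ Od 3 ▸ va2_mulF o3 va2_Od rfl
  have g2 : va2_le (G2 ^ 2) (va2_F 4) := pow_two G2 ▸ va2_mulF (va2_G h2) (va2_G h2) rfl
  interval_cases r
  · exact va2_one
  · exact va2_Od
  · exact (va2_G h2).add o2
  · exact ((va2_G h3).add (va2_mulF (va2_G h2) va2_Od rfl)).add o3
  · exact ((((va2_G h4).add (va2_mulF (va2_G h3) va2_Od rfl)).add g2).add
      (va2_mulF (va2_G h2) o2 rfl)).add o4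

theorem va2_prod (h2 : Gens 2 G2) (h3 : Gens 3 G3) (h4 : Gens 4 G4) (p q : ℕ)
    (h : p + q + 2 ≤ 4) (hp : va2_le (va2_F (p + 1)) (va2_F p + Sm G2 G3 G4 (p + 1)))
    (hq : va2_le (va2_F (q + 1)) (va2_F q + Sm G2 G3 G4 (q + 1))) :
    va2_le (va2_F (p + 1) * va2_F (q + 1)) (va2_F (p + q + 1) + Sm G2 G3 G4 (p + q + 1 + 1)) := by
  have hT := va2_T h2 h3 h4
  have hS : va2_le (Sm G2 G3 G4 (p + 1)) (va2_F (p + 1)) :=
    (hT _ (by omega)).add (va2_mulF va2_Ev (hT p (by omega)) (by omega))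
  refine (hp.mul (va2_refl _)).trans ?_
  rw [add_mul]
  refine ((va2_mulF (va2_refl _) (va2_refl _) (by omega)).left _).add ?_
  refine ((va2_refl _).mul hq).trans ?_
  rw [mul_add]
  refine ((va2_mulF hS (va2_refl _) (by omega)).left _).add ?_
  have e : Sm G2 G3 G4 (p + 1) * Sm G2 G3 G4 (q + 1) =
      Tm G2 G3 G4 (p + 1) * Tm G2 G3 G4 (q + 1) + Ev * (Tm G2 G3 G4 (p + 1) * Tm G2 G3 G4 q) +
        Ev * (Tm G2 G3 G4 p * Tm G2 G3 G4 (q + 1)) +
          Ev * Ev * (Tm G2 G3 G4 p * Tm G2 G3 G4 q) := by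
    simp only [Sm]
    ring
  have e' : Sm G2 G3 G4 (p + q + 1 + 1) =
      Tm G2 G3 G4 (p + q + 1 + 1) + Ev * Tm G2 G3 G4 (p + q + 1) := rfl
  rw [e, e']
  have a1 := va2_TT (G2 := G2) (G3 := G3) (G4 := G4) (p + 1) (q + 1) (by omega)
  have a2 := va2_TT (G2 := G2) (G3 := G3) (G4 := G4) (p + 1) q (by omega)
  have a3 := va2_TT (G2 := G2) (G3 := G3) (G4 := G4) p (q + 1) (by omega)
  rw [show p + 1 + (q + 1) = p + q + 1 + 1 by omega] at a1
  rw [show p + 1 + q = p + q + 1 by omega] at a2
  exact ((((a1.left _).right _).add ((((va2_refl Ev).mul a2).right _).right _)).add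
    ((((va2_refl Ev).mul a3).right _).right _)).add
    ((va2_mulF va2_EvEv (va2_mulF (hT p (by omega)) (hT q (by omega)) rfl) (by omega)).left _)

theorem va2_step {r : ℕ} {G S : Gr} (hG : Gens (r + 1) G) (hS : va2_le G S)
    (h : ∀ p q, p + q + 1 = r → va2_le (va2_F (p + 1) * va2_F (q + 1)) (va2_F r + S)) :
    va2_le (va2_F (r + 1)) (va2_F r + S) := by
  refine va2_iff.2 fun k => ?_
  have h1 := (hG k).2
  rw [va2_F, PowerSeries.coeff_mk]
  refine h1.trans (sup_le (sup_le ?_ ?_) (va2_iff.1 (hS.right _) k))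
  · have h2 := va2_iff.1 ((va2_refl (va2_F r)).left S) k
    rwa [va2_F, PowerSeries.coeff_mk] at h2
  · refine iSup_le fun p => iSup_le fun q => iSup_le fun i => iSup_le fun j => iSup_le ?_
    rintro ⟨hp, hq, hpq, rfl⟩
    obtain ⟨p, rfl⟩ : ∃ p', p = p' + 1 := ⟨p - 1, by omega⟩
    obtain ⟨q, rfl⟩ : ∃ q', q = q' + 1 := ⟨q - 1, by omega⟩
    refine le_trans ?_ (va2_iff.1 (h p q (by omega)) (i + j))
    have h2 := va2_le_mul (va2_F (p + 1)) (va2_F (q + 1)) i j
    rwa [va2_F, va2_F, PowerSeries.coeff_mk, PowerSeries.coeff_mk] at h2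

theorem va2_main (h2 : Gens 2 G2) (h3 : Gens 3 G3) (h4 : Gens 4 G4) (r : ℕ) (hr : r + 1 ≤ 4) :
    va2_le (va2_F (r + 1)) (va2_F r + Sm G2 G3 G4 (r + 1)) := by
  induction r using Nat.strong_induction_on with
  | _ r ih =>
    have h : ∀ p q, p + q + 1 = r →
        va2_le (va2_F (p + 1) * va2_F (q + 1)) (va2_F r + Sm G2 G3 G4 (r + 1)) := by
      rintro p q rfl
      exact va2_prod h2 h3 h4 p q (by omega) (ih p (by omega) (by omega))
        (ih q (by omega) (by omega))
    have hr' : r ≤ 3 := by omega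
    interval_cases r
    · have e : Sm G2 G3 G4 (0 + 1) = Od + Ev := by simp only [Sm, Tm, mul_one]
      rw [e]
      exact va2_F1
    · exact va2_step h2 (((va2_refl G2).left _).left _) h
    · exact va2_step h3 ((((va2_refl G3).left _).left _).left _) h
    · exact va2_step h4 ((((((va2_refl G4).left _).left _).left _).left _).left _) h

end main

theorem Fil_le_Sm {G2 G3 G4 : Gr} (h2 : Gens 2 G2) (h3 : Gens 3 G3) (h4 : Gens 4 G4)
    (r : ℕ) (hr : r ≤ 4) (k : ℕ) :
    Fil r k ≤ FilPrev r k ⊔ PowerSeries.coeff k (Sm G2 G3 G4 r) := by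
  cases r with
  | zero => exact (va2_zero k).trans le_sup_right
  | succ r =>
    have h := va2_iff.1 (va2_main h2 h3 h4 r hr) k
    rwa [map_add, va2_F, va2_F, PowerSeries.coeff_mk, PowerSeries.coeff_mk] at h

theorem grDim_le {r k : ℕ} {W : Submodule ℚ ℝ} [FiniteDimensional ℚ W]
    (h : Fil r k ≤ FilPrev r k ⊔ W) : grDim r k ≤ Module.finrank ℚ W := by
  have h1 : FilPrev r k ≤ Fil r k := by
    cases r with
    | zero => exact bot_le
    | succ r => exact Fil_mono (Nat.le_succ r) k
  have : FiniteDimensional ℚ (W ⊓ Fil r k : Submodule ℚ ℝ) :=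
    Submodule.finiteDimensional_of_le inf_le_left
  let f : (W ⊓ Fil r k : Submodule ℚ ℝ) →ₗ[ℚ] (Fil r k ⧸ (FilPrev r k).submoduleOf (Fil r k)) :=
    ((FilPrev r k).submoduleOf (Fil r k)).mkQ.comp (Submodule.inclusion inf_le_right)
  have hf : Function.Surjective f := by
    intro y
    obtain ⟨x, rfl⟩ := Submodule.mkQ_surjective _ y
    obtain ⟨p, hp, w, hw, e⟩ := Submodule.mem_sup.1 (h x.2)
    have hw' : w ∈ Fil r k := by
      rw [eq_sub_of_add_eq' e]
      exact sub_mem x.2 (h1 hp)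
    refine ⟨⟨w, hw, hw'⟩, (Submodule.Quotient.eq _).2 ?_⟩
    show w - x ∈ FilPrev r k
    rw [← e, sub_add_cancel_right]
    exact neg_mem hp
  exact (LinearMap.finrank_le_finrank_of_surjective hf).trans (Submodule.finrank_mono inf_le_left)

end Pool.Agent.MP_cbe134_nt.V

end

section

/- Coefficients of the Broadhurst-Kreimer series and the counting identities. -/

open PowerSeries

namespace Pool.Agent.MP_cbe134_nt.V

theorem a3_gs {m : ℕ} (hm : m ≠ 0) : (1 - X ^ m) * gs m = 1 :=
  PowerSeries.mul_inv_cancel _ (by simp [hm])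

/-- the inclusion of the first variable -/
def a3_e : Unit ↪ Fin 2 := ⟨fun _ => 0, fun _ _ _ => rfl⟩

/-- power series in the first variable -/
noncomputable def a3_i : PowerSeries ℚ →ₐ[ℚ] MvPowerSeries (Fin 2) ℚ := MvPowerSeries.rename a3_e

theorem a3_X : a3_i X = MvPowerSeries.X 0 := MvPowerSeries.rename_X a3_e ()

theorem a3_igs {m : ℕ} (hm : m ≠ 0) : a3_i (gs m) = (1 - MvPowerSeries.X 0 ^ m)⁻¹ := by
  rw [MvPowerSeries.eq_inv_iff_mul_eq_one (by simp [hm]), mul_comm]
  simpa only [map_mul, map_sub, map_one, map_pow, a3_X] using congrArg a3_i (a3_gs hm)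

theorem a3_coeff (B : PowerSeries ℚ) (k r s : ℕ) :
    MvPowerSeries.coeff (Finsupp.single 0 k + Finsupp.single 1 r)
      (a3_i B * MvPowerSeries.X 1 ^ s) = if r = s then coeff k B else 0 := by
  rw [MvPowerSeries.X_pow_eq]
  split_ifs with h
  · subst h
    rw [MvPowerSeries.coeff_add_mul_monomial, mul_one]
    have := MvPowerSeries.coeff_embDomain_rename a3_e B (Finsupp.single () k)
    rwa [Finsupp.embDomain_single] at this
  · rw [MvPowerSeries.coeff_mul_monomial]
    split_ifs with h1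
    · rw [mul_one]
      refine MvPowerSeries.coeff_rename_eq_zero a3_e B ?_
      rintro ⟨x, hx⟩
      have h2 := DFunLike.congr_fun hx 1
      have h3 := h1 1
      rw [Finsupp.mapDomain_of_notMem_range _ _ fun ⟨_, h⟩ => zero_ne_one (α := Fin 2) h] at h2
      simp at h2 h3
      omega
    · rfl

theorem a3_ring {A : Type} [CommRing A] (O E S Y I : A)
    (h : (1 - O * Y + S * Y ^ 2 - S * Y ^ 4) * I = 1) : ∃ T, (1 + E * Y) * I =
      1 * Y ^ 0 + (O + E * 1) * Y ^ 1 + (O ^ 2 - S + E * O) * Y ^ 2 +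
      (O ^ 3 - 2 * O * S + E * (O ^ 2 - S)) * Y ^ 3 +
      (O ^ 4 - 3 * O ^ 2 * S + S ^ 2 + S + E * (O ^ 3 - 2 * O * S)) * Y ^ 4 + Y ^ 5 * T :=
  ⟨E * (O ^ 4 - 3 * O ^ 2 * S + S ^ 2 + S) - (-O * (O ^ 4 - 3 * O ^ 2 * S + S ^ 2 + S) +
    S * (O ^ 3 - 2 * O * S) - S * O + S * (O ^ 4 - 3 * O ^ 2 * S + S ^ 2 + S - (O ^ 2 - S)) * Y -
    S * (O ^ 3 - 2 * O * S) * Y ^ 2 - S * (O ^ 4 - 3 * O ^ 2 * S + S ^ 2 + S) * Y ^ 3) *
    (1 + E * Y) * I, by
    linear_combination (1 + E * Y) * (1 + O * Y + (O ^ 2 - S) * Y ^ 2 +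
      (O ^ 3 - 2 * O * S) * Y ^ 3 + (O ^ 4 - 3 * O ^ 2 * S + S ^ 2 + S) * Y ^ 4) * h⟩

theorem bkCoeff_eq (k r : ℕ) (hr : r ≤ 4) : bkCoeff k r = coeff k (bS r) := by
  have hO : serO = a3_i oS := by rw [oS, map_mul, map_pow, a3_X, a3_igs two_ne_zero, serO]
  have hE : serE = a3_i eS := by rw [eS, map_mul, map_pow, a3_X, a3_igs two_ne_zero, serE]
  have hS : serS = a3_i cS := by
    rw [cS, map_mul, map_mul, map_pow, a3_X, a3_igs (by norm_num), a3_igs (by norm_num), serS,
      MvPowerSeries.mul_inv_rev]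
    ring
  obtain ⟨T, hT⟩ := a3_ring serO serE serS (MvPowerSeries.X 1) _
    (MvPowerSeries.mul_inv_cancel _ (by simp))
  have h : serBK = a3_i (bS 0) * MvPowerSeries.X 1 ^ 0 + a3_i (bS 1) * MvPowerSeries.X 1 ^ 1 +
      a3_i (bS 2) * MvPowerSeries.X 1 ^ 2 + a3_i (bS 3) * MvPowerSeries.X 1 ^ 3 +
      a3_i (bS 4) * MvPowerSeries.X 1 ^ 4 + MvPowerSeries.X 1 ^ 5 * T := by
    rw [serBK, hT, hO, hE, hS]
    simp only [bS, uS, map_add, map_sub, map_mul, map_pow, map_one, map_ofNat]
  rw [bkCoeff, h]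
  simp only [map_add, a3_coeff]
  rw [MvPowerSeries.X_pow_dvd_iff.1 (dvd_mul_right _ T) _ (by simp; omega)]
  interval_cases r <;> simp

theorem a3_gs_eq {m : ℕ} (hm : m ≠ 0) {P : PowerSeries ℚ} (h : (1 - X ^ m) * P = 1 - X ^ 24) :
    gs m = P * gs 24 := by
  linear_combination (-gs m) * a3_gs (m := 24) (by norm_num) + P * gs 24 * a3_gs hm -
    gs m * gs 24 * h

theorem a3_12 : gs 12 = (1 + X ^ 12) * gs 24 := a3_gs_eq (by norm_num) (by ring)

theorem a3_8 : gs 8 = (1 + X ^ 8 + X ^ 16) * gs 24 := a3_gs_eq (by norm_num) (by ring)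

theorem a3_6 : gs 6 = (1 + X ^ 6) * (1 + X ^ 12) * gs 24 := a3_gs_eq (by norm_num) (by ring)

theorem a3_4 : gs 4 = (1 + X ^ 4) * (1 + X ^ 8 + X ^ 16) * gs 24 := a3_gs_eq (by norm_num) (by ring)

theorem a3_2 : gs 2 = (1 + X ^ 2) * (1 + X ^ 4) * (1 + X ^ 8 + X ^ 16) * gs 24 :=
  a3_gs_eq (by norm_num) (by ring)

theorem a3_sq (s : PowerSeries ℚ) : sq2 s = expand 2 two_ne_zero s := by
  ext k
  simp only [sq2, coeff_mk, coeff_expand, even_iff_two_dvd]

theorem a3_exp {m : ℕ} (hm : m ≠ 0) : expand 2 two_ne_zero (gs m) = gs (2 * m) := by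
  rw [gs.eq_1 (2 * m), PowerSeries.eq_inv_iff_mul_eq_one (by simp [hm]), mul_comm]
  simpa only [map_mul, map_sub, map_one, map_pow, expand_X, ← pow_mul] using
    congrArg (expand 2 two_ne_zero) (a3_gs hm)

theorem a3_sq2 : sq2 (X ^ 2 * ser2) = X ^ 16 * gs 4 * gs 12 := by
  simp only [a3_sq, ser2, map_mul, map_pow, expand_X, a3_exp two_ne_zero,
    a3_exp (show 6 ≠ 0 by norm_num)]
  ring

theorem count_one : pS 1 = uS 1 := by
  simp [pS, uS, oS]

theorem count_two : X ^ 2 * ser2 + pS 2 = uS 2 := by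
  simp only [pS, uS, oS, cS, ser2, Finset.prod_range_succ, Finset.prod_range_zero, Nat.reduceAdd,
    Nat.reduceMul, a3_2, a3_4, a3_6]
  ring

theorem count_three : X ^ 3 * ser3 + X ^ 2 * ser2 * pS 1 + pS 3 = uS 3 := by
  simp only [pS, uS, oS, cS, ser2, ser3, Finset.prod_range_succ, Finset.prod_range_zero,
    Nat.reduceAdd, Nat.reduceMul, a3_2, a3_4, a3_6]
  ring

theorem count_four : X ^ 4 * ser4 + X ^ 3 * ser3 * pS 1 +
    (1 / 2 : ℚ) • ((X ^ 2 * ser2) ^ 2 + sq2 (X ^ 2 * ser2)) + X ^ 2 * ser2 * pS 2 + pS 4 =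
      uS 4 := by
  have h2 : ∀ s : PowerSeries ℚ, 2 * (1 / 2 : ℚ) • s = s := fun s => by
    rw [two_mul, ← add_smul]; norm_num
  have h0 : (2 : PowerSeries ℚ) ≠ 0 := fun h => by
    simpa [map_ofNat] using congrArg constantCoeff h
  refine mul_left_cancel₀ h0 ?_
  simp only [mul_add, h2]
  rw [a3_sq2]
  have h := a3_gs (m := 24) (by norm_num)
  have h3 : 2 * cS - X ^ 16 * gs 4 * gs 12 =
      (2 * cS - X ^ 16 * gs 4 * gs 12) * ((1 - X ^ 24) * gs 24) ^ 2 := by rw [h, one_pow, mul_one]
  simp only [pS, uS, oS, cS, ser2, ser3, ser4, Finset.prod_range_succ, Finset.prod_range_zero,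
    Nat.reduceAdd, Nat.reduceMul, a3_2, a3_4, a3_6, a3_8, a3_12] at h3 ⊢
  linear_combination -h3

end Pool.Agent.MP_cbe134_nt.V

end
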