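import Pool.Agent.Mg.Fcbe134.Gd1fa32
import Pool.Agent.MP_cbe134_nt.VD1
import Pool.Agent.Mg.Fcbe134.G70d310

section

/- Molien's formula. -/

open MvPolynomial Matrix

namespace Pool.Agent.MP_cbe134_nt.V

variable {n : ℕ}

section field

variable {K : Type} [Field K]

/-- linear substitution over a field -/
noncomputable def mol_sub (A : Matrix (Fin n) (Fin n) K) :
    MvPolynomial (Fin n) K →ₐ[K] MvPolynomial (Fin n) K :=
  aeval fun i => ∑ j, C (A i j) * X j

/-- exponents of degree `d` -/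
noncomputable def mol_S (n d : ℕ) : Finset (Fin n →₀ ℕ) := Finset.finsuppAntidiag Finset.univ d

/-- the trace on forms of degree `d` -/
noncomputable def mol_t (A : Matrix (Fin n) (Fin n) K) (d : ℕ) : K :=
  ∑ α ∈ mol_S n d, coeff α (mol_sub A (monomial α 1))

theorem mol_mem_S {d : ℕ} {α : Fin n →₀ ℕ} : α ∈ mol_S n d ↔ α.degree = d := by
  simp [mol_S, Finsupp.degree_eq_sum]

theorem mol_expand {d : ℕ} {f : MvPolynomial (Fin n) K} (hf : f.IsHomogeneous d) :
    f = ∑ α ∈ mol_S n d, coeff α f • monomial α (1 : K) := by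
  ext β
  simp only [coeff_sum, coeff_smul, coeff_monomial, smul_eq_mul, mul_ite, mul_one, mul_zero,
    Finset.sum_ite_eq', mol_mem_S]
  split_ifs with h
  exacts [rfl, hf.coeff_eq_zero h]

theorem mol_sub_hom (A : Matrix (Fin n) (Fin n) K) {d : ℕ} {f : MvPolynomial (Fin n) K}
    (hf : f.IsHomogeneous d) : (mol_sub A f).IsHomogeneous d := by
  have := hf.aeval (fun i => ∑ j, C (A i j) * X j : Fin n → MvPolynomial (Fin n) K) (n := 1)
    fun i => IsHomogeneous.sum _ _ _ fun j _ => isHomogeneous_C_mul_X _ _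
  rwa [one_mul] at this

theorem mol_sub_mul (A B : Matrix (Fin n) (Fin n) K) (f : MvPolynomial (Fin n) K) :
    mol_sub (A * B) f = mol_sub B (mol_sub A f) := by
  have : mol_sub (A * B) = (mol_sub B).comp (mol_sub A) := by
    refine algHom_ext fun i => ?_
    simp only [mol_sub, AlgHom.comp_apply, aeval_X, map_sum, map_mul, aeval_C, algebraMap_eq,
      Matrix.mul_apply, Finset.sum_mul, Finset.mul_sum, mul_assoc]
    exact Finset.sum_comm
  rw [this, AlgHom.comp_apply]

theorem mol_t_mul (A B : Matrix (Fin n) (Fin n) K) (d : ℕ) :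
    mol_t (A * B) d = ∑ α ∈ mol_S n d, ∑ β ∈ mol_S n d,
      coeff β (mol_sub A (monomial α 1)) * coeff α (mol_sub B (monomial β 1)) := by
  refine Finset.sum_congr rfl fun α hα => ?_
  rw [mol_sub_mul, mol_expand (mol_sub_hom A (isHomogeneous_monomial 1 (mol_mem_S.1 hα))), map_sum,
    coeff_sum, ← mol_expand (mol_sub_hom A (isHomogeneous_monomial 1 (mol_mem_S.1 hα)))]
  simp only [map_smul, coeff_smul, smul_eq_mul]

theorem mol_t_comm (A B : Matrix (Fin n) (Fin n) K) (d : ℕ) : mol_t (A * B) d = mol_t (B * A) d := by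
  rw [mol_t_mul, mol_t_mul, Finset.sum_comm]
  simp only [mul_comm]

theorem mol_rev_comm (A B : Matrix (Fin n) (Fin n) K) :
    (A * B).charpolyRev = (B * A).charpolyRev := by
  rw [← reverse_charpoly, ← reverse_charpoly, charpoly_mul_comm]

theorem mol_t_diag (μ : Fin n → K) (d : ℕ) :
    mol_t (diagonal μ) d = ∑ α ∈ mol_S n d, ∏ i, μ i ^ α i := by
  refine Finset.sum_congr rfl fun α _ => ?_
  have h : ∀ i, (∑ j, C (diagonal μ i j) * X j : MvPolynomial (Fin n) K) = C (μ i) * X i := by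
    intro i
    rw [Finset.sum_eq_single i (fun j _ hj => by rw [diagonal_apply_ne' _ hj, map_zero, zero_mul])
      (by simp), diagonal_apply_eq]
  have h2 : mol_sub (diagonal μ) (monomial α 1) = monomial α (∏ i, μ i ^ α i) := by
    rw [mol_sub, aeval_monomial, monomial_eq, map_one, one_mul, Finsupp.prod_fintype _ _ (by simp),
      Finsupp.prod_fintype _ _ (by simp), map_prod, ← Finset.prod_mul_distrib]
    exact Finset.prod_congr rfl fun i _ => by rw [h, mul_pow, map_pow]
  rw [h2, coeff_monomial, if_pos rfl]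

theorem mol_geom (c : K) :
    (PowerSeries.mk fun k => c ^ k) * (1 - PowerSeries.X * PowerSeries.C c) = 1 := by
  ext k
  rw [mul_sub, mul_one, ← mul_assoc, map_sub, PowerSeries.coeff_mul_C]
  cases k with
  | zero => simp
  | succ k => simp [PowerSeries.coeff_succ_mul_X, PowerSeries.coeff_one, pow_succ]

theorem mol_diag (μ : Fin n → K) :
    PowerSeries.mk (mol_t (diagonal μ)) * ((diagonal μ).charpolyRev : PowerSeries K) = 1 := by
  have h1 : PowerSeries.mk (mol_t (diagonal μ)) = ∏ i, PowerSeries.mk fun k => μ i ^ k := by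
    ext d
    rw [PowerSeries.coeff_mk, mol_t_diag, PowerSeries.coeff_prod]
    simp only [PowerSeries.coeff_mk, mol_S]
  have h2 : (diagonal μ).charpolyRev = ∏ i, (1 - Polynomial.X * Polynomial.C (μ i)) := by
    rw [charpolyRev, diagonal_map (map_zero _), ← diagonal_smul, ← diagonal_one, diagonal_sub,
      det_diagonal]
    rfl
  rw [h1, h2, ← Polynomial.coeToPowerSeries.ringHom_apply, map_prod, ← Finset.prod_mul_distrib]
  refine Finset.prod_eq_one fun i _ => ?_
  rw [← mol_geom (μ i), map_sub, map_mul, map_one, Polynomial.coeToPowerSeries.ringHom_apply,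
    Polynomial.coeToPowerSeries.ringHom_apply, Polynomial.coe_X, Polynomial.coe_C]

theorem mol_diagonalize [IsAlgClosed K] [CharZero K] (A : Matrix (Fin n) (Fin n) K) {N : ℕ}
    (hN : 0 < N) (hA : A ^ N = 1) :
    ∃ (P : Matrix (Fin n) (Fin n) K) (μ : Fin n → K), IsUnit P ∧ A * P = P * diagonal μ := by
  have h1 : Module.End.IsSemisimple (Matrix.toLinAlgEquiv' A) := by
    refine Module.End.isSemisimple_of_squarefree_aeval_eq_zero (p := Polynomial.X ^ N - 1)
      (Polynomial.X_pow_sub_one_separable_iff.2 (Nat.cast_ne_zero.2 hN.ne')).squarefree ?_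
    rw [map_sub, map_pow, Polynomial.aeval_X, map_one, ← map_pow, hA, map_one, sub_self]
  have h2 := h1.iSup_eigenspace_eq_top
  rw [Submodule.iSup_eq_span] at h2
  obtain ⟨f, h3, -, h4⟩ := Submodule.exists_fun_fin_finrank_span_eq K
    (⋃ c, (Module.End.eigenspace (Matrix.toLinAlgEquiv' A) c : Set (Fin n → K)))
  have h5 : n = Module.finrank K (Submodule.span K
      (⋃ c, (Module.End.eigenspace (Matrix.toLinAlgEquiv' A) c : Set (Fin n → K)))) := by
    rw [h2, finrank_top, Module.finrank_fin_fun]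
  simp only [Set.mem_iUnion, SetLike.mem_coe, Module.End.mem_eigenspace_iff,
    Matrix.toLinAlgEquiv'_apply] at h3
  choose μ hμ using h3
  refine ⟨Matrix.of fun i j => f (Fin.cast h5 j) i, fun j => μ (Fin.cast h5 j),
    linearIndependent_cols_iff_isUnit.1 (h4.comp _ (Fin.cast_injective h5)), ?_⟩
  ext i j
  rw [mul_diagonal, of_apply, mul_comm]
  exact congrFun (hμ (Fin.cast h5 j)) i

theorem mol_closed [IsAlgClosed K] [CharZero K] (A : Matrix (Fin n) (Fin n) K) {N : ℕ}
    (hN : 0 < N) (hA : A ^ N = 1) :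
    PowerSeries.mk (mol_t A) * (A.charpolyRev : PowerSeries K) = 1 := by
  obtain ⟨P, μ, hP, h⟩ := mol_diagonalize A hN hA
  obtain ⟨Q, hQ⟩ := hP.exists_right_inv
  have h1 : A = P * (diagonal μ * Q) := by rw [← mul_assoc, ← h, mul_assoc, hQ, mul_one]
  have h2 : diagonal μ * Q * P = diagonal μ := by rw [mul_assoc, mul_eq_one_comm.1 hQ, mul_one]
  have h3 : mol_t A = mol_t (diagonal μ) := funext fun d => by rw [h1, mol_t_comm, h2]
  rw [h3, h1, mol_rev_comm, h2, mol_diag]

theorem mol_t_map {L : Type} [Field L] (φ : K →+* L) (A : Matrix (Fin n) (Fin n) K) (d : ℕ) :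
    φ (mol_t A d) = mol_t (A.map φ) d := by
  have h : (MvPolynomial.map φ).comp (mol_sub A).toRingHom =
      (mol_sub (A.map φ)).toRingHom.comp (MvPolynomial.map φ) :=
    ringHom_ext (fun r => by simp [mol_sub]) fun i => by simp [mol_sub]
  rw [mol_t, mol_t, map_sum]
  refine Finset.sum_congr rfl fun α _ => ?_
  have h1 := RingHom.congr_fun h (monomial α 1)
  simp only [RingHom.comp_apply, AlgHom.toRingHom_eq_coe, RingHom.coe_coe, map_monomial,
    map_one] at h1
  rw [← h1, coeff_map]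

theorem mol_rev_map {L : Type} [Field L] (φ : K →+* L) (A : Matrix (Fin n) (Fin n) K) :
    A.charpolyRev.map φ = (A.map φ).charpolyRev := by
  rw [charpolyRev, charpolyRev, ← Polynomial.coe_mapRingHom, RingHom.map_det]
  congr 1
  ext i j : 1
  simp [Matrix.one_apply, apply_ite (Polynomial.map φ)]

end field

theorem mol_rat (A : Matrix (Fin n) (Fin n) ℚ) {N : ℕ} (hN : 0 < N) (hA : A ^ N = 1) :
    PowerSeries.mk (mol_t A) = (A.charpolyRev : PowerSeries ℚ)⁻¹ := by
  have h1 : PowerSeries.mk (mol_t A) * (A.charpolyRev : PowerSeries ℚ) = 1 := by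
    have h2 := mol_closed (A.map (algebraMap ℚ ℂ)) hN (by
      rw [← RingHom.mapMatrix_apply, ← map_pow, hA, map_one])
    apply PowerSeries.map_injective (algebraMap ℚ ℂ) (algebraMap ℚ ℂ).injective
    rw [map_mul, map_one, ← h2, ← mol_rev_map, Polynomial.polynomial_map_coe]
    congr 1
    ext d
    simp only [PowerSeries.coeff_map, PowerSeries.coeff_mk, mol_t_map]
  refine (PowerSeries.eq_inv_iff_mul_eq_one fun h => ?_).2 h1
  have h2 := congrArg PowerSeries.constantCoeff h1
  rw [map_mul, h, mul_zero, map_one] at h2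
  exact zero_ne_one h2

/-- the substitution restricted to forms of degree `d` -/
noncomputable abbrev mol_r (A : Mx n) (d : ℕ) : Hd n d →ₗ[ℚ] Hd n d :=
  (sub A).toLinearMap.restrict (p := Hd n d) (q := Hd n d) fun _ hf => sub_mem A hf

theorem mol_trace (A : Mx n) (d : ℕ) :
    LinearMap.trace ℚ (Hd n d) (mol_r A d) = mol_t (A.map (Int.cast : ℤ → ℚ)) d := by
  have h : mol_r A d = ∑ α ∈ (mol_S n d).attach, (lcoeff ℚ α.1 ∘ₗ (Hd n d).subtype).smulRight
      (⟨sub A (monomial α.1 1), sub_mem A (isHomogeneous_monomial 1 (mol_mem_S.1 α.2))⟩ : Hd n d) := by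
    ext f : 2
    have h1 := congrArg (sub A) (mol_expand f.2)
    rw [map_sum, ← Finset.sum_attach] at h1
    simpa [LinearMap.sum_apply] using h1
  rw [h, map_sum, mol_t, ← Finset.sum_attach (mol_S n d)]
  refine Finset.sum_congr rfl fun α _ => ?_
  rw [LinearMap.trace_smulRight]
  rfl

/-- trace of a substitution of finite order on the forms of degree `d` -/
theorem trace_sub (A : Mx n) (N : ℕ) (hN : 0 < N) (hA : A ^ N = 1) (d : ℕ) :
    LinearMap.trace ℚ (Hd n d)
      ((sub A).toLinearMap.restrict (p := Hd n d) (q := Hd n d) fun _ hf => sub_mem A hf) =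
      PowerSeries.coeff d (mol A) := by
  have h := mol_rat (A.map (Int.castRingHom ℚ)) hN (by
    rw [← RingHom.mapMatrix_apply, ← map_pow, hA, map_one])
  rw [mol_trace, mol]
  exact (PowerSeries.coeff_mk d _).symm.trans (congrArg (PowerSeries.coeff d) h)

theorem mol_order (G : List (Mx n)) (hmul : ∀ A ∈ G, ∀ B ∈ G, A * B ∈ G)
    (hinv : ∀ A ∈ G, ∃ B ∈ G, A * B = 1) {A : Mx n} (hA : A ∈ G) : ∃ N, 0 < N ∧ A ^ N = 1 := by
  have h1 : ∀ k : ℕ, A ^ (k + 1) ∈ {B | B ∈ G} := fun k => by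
    induction k with
    | zero => simpa using hA
    | succ k ih => rw [pow_succ]; exact hmul _ ih _ hA
  obtain ⟨i, j, hij, h⟩ := Set.Finite.exists_lt_map_eq_of_forall_mem h1 G.finite_toSet
  obtain ⟨B, -, hB⟩ := hinv A hA
  refine ⟨j - i, by omega, ((IsUnit.of_mul_eq_one B hB).pow (i + 1)).mul_eq_left.1 ?_⟩
  rw [← pow_add, h]
  congr 1
  omega

theorem mol_apply (G : List (Mx n)) (χ : Mx n → ℚ) (d : ℕ) (f : Hd n d) :
    ((G.map fun A => χ A • mol_r A d).sum f : Pn n) = (G.map fun A => χ A • sub A f).sum := by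
  induction G with
  | nil => simp
  | cons A G ih => simp [ih]

theorem mol_trace_sum (G : List (Mx n)) (χ : Mx n → ℚ) (d : ℕ)
    (h : ∀ A ∈ G, ∃ N, 0 < N ∧ A ^ N = 1) :
    LinearMap.trace ℚ (Hd n d) (G.map fun A => χ A • mol_r A d).sum =
      PowerSeries.coeff d ((G.map fun A => χ A • mol A).sum) := by
  induction G with
  | nil => simp
  | cons A G ih =>
    obtain ⟨N, h1, h2⟩ := h A List.mem_cons_self
    simp only [List.map_cons, List.sum_cons, map_add, map_smul]
    rw [ih fun B hB => h B (List.mem_cons_of_mem _ hB), trace_sub A N h1 h2]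

/-- the average over the group projects onto the isotypic part -/
theorem avg_mem (G : List (Mx n)) (χ : Mx n → ℚ) (hnd : G.Nodup)
    (hmul : ∀ A ∈ G, ∀ B ∈ G, A * B ∈ G) (hinv : ∀ A ∈ G, ∃ B ∈ G, A * B = 1)
    (hχ : ∀ A ∈ G, χ A * χ A = 1) (hχm : ∀ A ∈ G, ∀ B ∈ G, χ (A * B) = χ A * χ B) {d : ℕ}
    {f : Pn n} (hf : f ∈ Hd n d) : (G.map fun A => χ A • sub A f).sum ∈ Iso G χ d := by
  refine ⟨list_sum_mem fun g hg => ?_, fun B hB => ?_⟩
  · obtain ⟨A, -, rfl⟩ := List.mem_map.1 hg
    exact Submodule.smul_mem _ _ (sub_mem A hf)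
  · obtain ⟨B', -, hB'⟩ := hinv B hB
    have h1 : (G.map (· * B)).Perm G := by
      refine ((hnd.map fun A A' h => ?_).subperm fun g hg => ?_).perm_of_length_le (by simp)
      · have := congrArg (· * B') h
        simpa only [mul_assoc, hB', mul_one] using this
      · obtain ⟨A, hA, rfl⟩ := List.mem_map.1 hg
        exact hmul A hA B hB
    conv_rhs => rw [← (h1.map _).sum_eq]
    rw [map_list_sum, List.smul_sum, List.map_map, List.map_map, List.map_map]
    refine congrArg List.sum (List.map_congr_left fun A hA => ?_)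
    simp only [Function.comp_apply, map_smul, sub_sub, smul_smul]
    rw [hχm A hA B hB, mul_left_comm, hχ B hB, mul_one]

theorem molien (G : List (Mx n)) (χ : Mx n → ℚ) (hnd : G.Nodup) (h1 : (1 : Mx n) ∈ G)
    (hmul : ∀ A ∈ G, ∀ B ∈ G, A * B ∈ G) (hinv : ∀ A ∈ G, ∃ B ∈ G, A * B = 1)
    (hχ : ∀ A ∈ G, χ A * χ A = 1) (hχm : ∀ A ∈ G, ∀ B ∈ G, χ (A * B) = χ A * χ B) (d : ℕ) :
    (G.length : ℚ) * Module.finrank ℚ (Iso G χ d) =
      PowerSeries.coeff d ((G.map fun A => χ A • mol A).sum) := by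
  have h0 : (G.length : ℚ) ≠ 0 := Nat.cast_ne_zero.2 (List.length_pos_of_mem h1).ne'
  have hp : LinearMap.IsProj ((Iso G χ d).comap (Hd n d).subtype)
      ((G.length : ℚ)⁻¹ • (G.map fun A => χ A • mol_r A d).sum) := by
    refine ⟨fun f => Submodule.smul_mem _ _ ?_, fun f hf => Subtype.ext ?_⟩
    · rw [Submodule.mem_comap, Submodule.subtype_apply, mol_apply]
      exact avg_mem G χ hnd hmul hinv hχ hχm f.2
    · rw [LinearMap.smul_apply, Submodule.coe_smul, mol_apply,
        List.map_congr_left (g := fun _ => (f : Pn n)) fun A hA => by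
          rw [show sub A f = χ A • (f : Pn n) from hf.2 A hA, smul_smul, hχ A hA, one_smul],
        List.map_const', List.sum_replicate, ← Nat.cast_smul_eq_nsmul ℚ, smul_smul,
        inv_mul_cancel₀ h0, one_smul]
  have := Module.Free.of_divisionRing ℚ ((Iso G χ d).comap (Hd n d).subtype)
  have := Module.Free.of_divisionRing ℚ
    (LinearMap.ker ((G.length : ℚ)⁻¹ • (G.map fun A => χ A • mol_r A d).sum))
  have h2 := hp.trace
  rw [map_smul, mol_trace_sum G χ d fun A hA => mol_order G hmul hinv hA,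
    (Submodule.comapSubtypeEquivOfLe (p := Iso G χ d) fun f hf => hf.1).finrank_eq] at h2
  rw [← h2, smul_eq_mul, mul_inv_cancel_left₀ h0]

end Pool.Agent.MP_cbe134_nt.V

end

section

/- The double shuffle space in depth two. -/

namespace Pool.Agent.MP_cbe134_nt.V

open PowerSeries

def d2_A : Mx 2 := !![0, 1; 1, 0]

def d2_B : Mx 2 := !![1, 0; 1, -1]

def d2_G : List (Mx 2) :=
  [!![1, 0; 0, 1], !![0, 1; 1, 0], !![1, 0; 1, -1], !![1, -1; 1, 0], !![0, 1; -1, 1],
    !![-1, 1; 0, 1], !![1, -1; 0, -1], !![0, -1; 1, -1], !![-1, 1; -1, 0], !![-1, 0; -1, 1],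
    !![0, -1; -1, 0], !![-1, 0; 0, -1]]

def d2_det (A : Mx 2) : ℤ := A 0 0 * A 1 1 - A 0 1 * A 1 0

theorem d2_det_mul (A B : Mx 2) : d2_det (A * B) = d2_det A * d2_det B := by
  simp only [d2_det, Matrix.mul_apply, Fin.sum_univ_two]
  ring

theorem d2_words : d2_G = [1, d2_A, d2_B, d2_A * d2_B, d2_B * d2_A, d2_A * d2_B * d2_A,
    d2_B * d2_A * d2_B, d2_A * d2_B * d2_A * d2_B, d2_B * d2_A * d2_B * d2_A,
    d2_A * d2_B * d2_A * d2_B * d2_A, d2_B * d2_A * d2_B * d2_A * d2_B,
    d2_A * d2_B * d2_A * d2_B * d2_A * d2_B] := by decide +kernel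

theorem d2_le (d : ℕ) : DS 2 d ≤ Iso d2_G (fun A => (d2_det A : ℚ)) d := by
  intro f hf
  refine ⟨hf.1, ?_⟩
  have key : ∀ a b : ℚ, MvPolynomial.eval ![a, b] f + MvPolynomial.eval ![b, a] f = 0 ∧
      MvPolynomial.eval ![a + b, b] f + MvPolynomial.eval ![a + b, a] f = 0 := by
    intro a b
    have e : ∀ s t : ℚ, ev f [s, t] = MvPolynomial.eval ![s, t] f := fun s t => by
      unfold ev
      congr 2
      funext i
      fin_cases i <;> rfl
    have h := hf.2 [a] [b] (by simp) (by simp) rfl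
    simpa [shuf, psum, e, add_comm b a] using h
  have hx : ∀ x : Fin 2 → ℚ, x = ![x 0, x 1] := fun x => by
    funext i
    fin_cases i <;> rfl
  have hA : sub d2_A f = (d2_det d2_A : ℚ) • f := by
    refine poly_ext fun x => ?_
    have e : mv d2_A x = ![x 1, x 0] := by
      funext i
      fin_cases i <;> simp [mv, d2_A]
    have h := (key (x 0) (x 1)).1
    rw [← hx x] at h
    rw [eval_sub, e, MvPolynomial.smul_eval, show d2_det d2_A = -1 by decide]
    push_cast
    linarith
  have hB : sub d2_B f = (d2_det d2_B : ℚ) • f := by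
    refine poly_ext fun x => ?_
    have e : mv d2_B x = ![x 0, x 0 - x 1] := by
      funext i
      fin_cases i <;> simp [mv, d2_B, sub_eq_add_neg]
    have h := (key (x 0 - x 1) (x 1)).2
    rw [sub_add_cancel, ← hx x] at h
    rw [eval_sub, e, MvPolynomial.smul_eval, show d2_det d2_B = -1 by decide]
    push_cast
    linarith
  have hm : ∀ {g h : Mx 2}, sub g f = (d2_det g : ℚ) • f → sub h f = (d2_det h : ℚ) • f →
      sub (g * h) f = (d2_det (g * h) : ℚ) • f := fun {g h} h1 h2 => by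
    rw [← sub_sub, h1, map_smul, h2, smul_smul, d2_det_mul, Int.cast_mul]
  have h1 : sub (1 : Mx 2) f = (d2_det 1 : ℚ) • f := by
    rw [sub_one, show d2_det 1 = 1 by decide, Int.cast_one, one_smul]
  rw [d2_words]
  simp only [List.forall_mem_cons]
  exact ⟨h1, hA, hB, hm hA hB, hm hB hA, hm (hm hA hB) hA, hm (hm hB hA) hB,
    hm (hm (hm hA hB) hA) hB, hm (hm (hm hB hA) hB) hA, hm (hm (hm (hm hA hB) hA) hB) hA,
    hm (hm (hm (hm hB hA) hB) hA) hB, hm (hm (hm (hm (hm hA hB) hA) hB) hA) hB, by simp⟩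

/-- the inverse of a quadratic polynomial -/
noncomputable def d2_q (t e : ℤ) : ℚ⟦X⟧ := (1 - (t : ℚ⟦X⟧) * X + (e : ℚ⟦X⟧) * X ^ 2)⁻¹

theorem d2_q_mul (t e : ℤ) : (1 - (t : ℚ⟦X⟧) * X + (e : ℚ⟦X⟧) * X ^ 2) * d2_q t e = 1 :=
  PowerSeries.mul_inv_cancel _ (by simp)

theorem d2_mol (a b c e : ℤ) : mol (!![a, b; c, e] : Mx 2) = d2_q (a + e) (a * e - b * c) := by
  unfold mol d2_q
  congr 1
  have h : ((!![a, b; c, e] : Mx 2).map (Int.cast : ℤ → ℚ)).charpolyRev =
      1 - ((a + e : ℤ) : Polynomial ℚ) * Polynomial.X +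
        ((a * e - b * c : ℤ) : Polynomial ℚ) * Polynomial.X ^ 2 := by
    rw [Matrix.charpolyRev, Matrix.det_fin_two]
    simp
    ring
  rw [h, ← Polynomial.coeToPowerSeries.ringHom_apply]
  simp only [map_add, map_sub, map_mul, map_one, map_pow, map_intCast,
    Polynomial.coeToPowerSeries.ringHom_apply, Polynomial.coe_X]

theorem d2_gs (m : ℕ) (hm : m ≠ 0) : (1 - X ^ m : ℚ⟦X⟧) * gs m = 1 :=
  PowerSeries.mul_inv_cancel _ (by simp [hm])

theorem d2_sum : (d2_G.map fun A => (d2_det A : ℚ) • mol A).sum = 12 * ser2 := by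
  have e : (d2_G.map fun A => (d2_det A : ℚ) • mol A).sum =
      d2_q 2 1 + d2_q (-2) 1 + 2 * d2_q 1 1 + 2 * d2_q (-1) 1 - 6 * d2_q 0 (-1) := by
    simp only [d2_G, List.map_cons, List.map_nil, List.sum_cons, List.sum_nil, d2_mol, d2_det,
      Matrix.of_apply, Matrix.cons_val', Matrix.cons_val_zero, Matrix.cons_val_one,
      Matrix.cons_val_fin_one]
    norm_num
    ring
  have h1 := d2_q_mul 2 1
  have h2 := d2_q_mul (-2) 1
  have h3 := d2_q_mul 1 1
  have h4 := d2_q_mul (-1) 1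
  have h5 := d2_q_mul 0 (-1)
  have h6 := d2_gs 2 (by norm_num)
  have h7 := d2_gs 6 (by norm_num)
  push_cast at h1 h2 h3 h4 h5
  have hne : ((1 - X ^ 2) * (1 - X ^ 6) : ℚ⟦X⟧) ≠ 0 :=
    mul_ne_zero (left_ne_zero_of_mul_eq_one h6) (left_ne_zero_of_mul_eq_one h7)
  refine mul_left_cancel₀ hne ?_
  rw [e, ser2]
  linear_combination (1 + X) ^ 2 * (1 + X + X ^ 2) * (1 - X + X ^ 2) * h1 +
    (1 - X) ^ 2 * (1 + X + X ^ 2) * (1 - X + X ^ 2) * h2 +
    2 * (1 - X ^ 2) ^ 2 * (1 + X + X ^ 2) * h3 + 2 * (1 - X ^ 2) ^ 2 * (1 - X + X ^ 2) * h4 -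
    6 * (1 - X ^ 6) * h5 - 12 * X ^ 6 * (1 - X ^ 6) * gs 6 * h6 - 12 * X ^ 6 * h7

theorem ds2_le (d : ℕ) : (Module.finrank ℚ (DS 2 d) : ℚ) ≤ PowerSeries.coeff d ser2 := by
  have hsq : ∀ A ∈ d2_G, d2_det A * d2_det A = 1 := by decide +kernel
  have h := molien d2_G (fun A => (d2_det A : ℚ)) (by decide +kernel) (by decide +kernel)
    (by decide +kernel) (by decide +kernel) (fun A hA => by exact_mod_cast hsq A hA)
    (fun A _ B _ => by rw [d2_det_mul, Int.cast_mul]) d
  rw [d2_sum, show (12 : ℚ⟦X⟧) = C 12 from (map_ofNat C 12).symm, coeff_C_mul,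
    show d2_G.length = 12 from rfl] at h
  have := fin_of_le (L := Iso d2_G (fun A => (d2_det A : ℚ)) d) (d := d) fun f hf => hf.1
  have h2 : (Module.finrank ℚ (DS 2 d) : ℚ) ≤
      Module.finrank ℚ (Iso d2_G (fun A => (d2_det A : ℚ)) d) := by
    exact_mod_cast Submodule.finrank_mono (d2_le d)
  push_cast at h
  linarith

end Pool.Agent.MP_cbe134_nt.V

end

section

/- Abel regularisation. -/

open Filter Asymptotics Topology

namespace Pool.Agent.MP_cbe134_nt.V

theorem z3_ev : ∀ᶠ z in 𝓝[<] (1 : ℝ), 0 ≤ z ∧ z < 1 := Ico_mem_nhdsLT one_pos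

theorem z3_norm (F : PowerSeries ℝ) {z : ℝ} (hz : 0 ≤ z) (n : ℕ) :
    ‖PowerSeries.coeff n F * z ^ n‖ = |PowerSeries.coeff n F| * z ^ n := by
  rw [Real.norm_eq_abs, abs_mul, abs_of_nonneg (pow_nonneg hz n)]

theorem z3_sum {F : PowerSeries ℝ} {z : ℝ} (hz : 0 ≤ z)
    (h : Summable fun n => |PowerSeries.coeff n F| * z ^ n) :
    Summable fun n => ‖PowerSeries.coeff n F * z ^ n‖ := by
  simpa only [z3_norm F hz] using h

theorem z3_le {a b : ℝ} (h : a ≤ b) :
    (fun z : ℝ => (1 - z) ^ b) =O[𝓝[<] 1] fun z : ℝ => (1 - z) ^ a := by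
  refine IsBigO.of_bound' (z3_ev.mono fun z hz => ?_)
  have h1 : 0 < 1 - z := by linarith [hz.2]
  rw [Real.norm_of_nonneg (by positivity), Real.norm_of_nonneg (by positivity)]
  exact Real.rpow_le_rpow_of_exponent_ge h1 (by linarith [hz.1]) h

theorem z3_tend : Tendsto (fun z : ℝ => 1 - z) (𝓝[<] 1) (𝓝[>] 0) := by
  refine tendsto_nhdsWithin_iff.2 ⟨?_, z3_ev.mono fun z hz => sub_pos.2 hz.2⟩
  have h : Tendsto (fun z : ℝ => 1 - z) (𝓝 1) (𝓝 (1 - 1)) := tendsto_const_nhds.sub tendsto_id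
  rw [sub_self] at h
  exact h.mono_left nhdsWithin_le_nhds

theorem z3_poly (P : Polynomial ℝ) {ε : ℝ} (hε : ε < 0) :
    (fun z : ℝ => P.eval (-Real.log (1 - z))) =O[𝓝[<] 1] fun z : ℝ => (1 - z) ^ ε := by
  induction P using Polynomial.induction_on' with
  | add P Q hP hQ => simpa only [Polynomial.eval_add] using hP.add hQ
  | monomial n a =>
    simp only [Polynomial.eval_monomial]
    refine IsBigO.const_mul_left ?_ a
    have h := ((isLittleO_abs_log_rpow_rpow_nhdsGT_zero n hε).comp_tendsto z3_tend).isBigO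
    refine IsBigO.of_norm_left (h.congr_left fun z => ?_)
    simp

theorem z3_anti (F G : PowerSeries ℝ) (z : ℝ) (n : ℕ) :
    ∑ p ∈ Finset.HasAntidiagonal.antidiagonal n,
      (PowerSeries.coeff p.1 F * z ^ p.1) * (PowerSeries.coeff p.2 G * z ^ p.2) =
      PowerSeries.coeff n (F * G) * z ^ n := by
  rw [PowerSeries.coeff_mul, Finset.sum_mul]
  refine Finset.sum_congr rfl fun p hp => ?_
  rw [← Finset.HasAntidiagonal.mem_antidiagonal.1 hp]
  ring

theorem z3_mul {F G : PowerSeries ℝ} {z : ℝ} (hz : 0 ≤ z)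
    (hF : Summable fun n => |PowerSeries.coeff n F| * z ^ n)
    (hG : Summable fun n => |PowerSeries.coeff n G| * z ^ n) :
    (Summable fun n => |PowerSeries.coeff n (F * G)| * z ^ n) ∧
      evS z (F * G) = evS z F * evS z G := by
  constructor
  · have h := summable_norm_sum_mul_antidiagonal_of_summable_norm (z3_sum hz hF) (z3_sum hz hG)
    simpa only [z3_anti, z3_norm _ hz] using h
  · have h := tsum_mul_tsum_eq_tsum_sum_antidiagonal_of_summable_norm (z3_sum hz hF)
      (z3_sum hz hG)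
    simp only [z3_anti] at h
    exact h.symm

theorem z3_lin (z : ℝ) :
    (Summable fun n => |PowerSeries.coeff n (1 - PowerSeries.X : PowerSeries ℝ)| * z ^ n) ∧
      evS z (1 - PowerSeries.X) = 1 - z := by
  have h : ∀ n ∉ Finset.range 2, PowerSeries.coeff n (1 - PowerSeries.X : PowerSeries ℝ) = 0 := by
    intro n hn
    have h1 : n ≠ 0 := by rintro rfl; simp at hn
    have h2 : n ≠ 1 := by rintro rfl; simp at hn
    simp [PowerSeries.coeff_one, PowerSeries.coeff_X, h1, h2]
  refine ⟨summable_of_ne_finset_zero (s := Finset.range 2) fun n hn => by simp [h n hn], ?_⟩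
  unfold evS
  rw [tsum_eq_sum (s := Finset.range 2) fun n hn => by rw [h n hn, zero_mul]]
  simp [Finset.sum_range_succ, PowerSeries.coeff_one, PowerSeries.coeff_X, sub_eq_add_neg]

theorem z3_split {δ z : ℝ} (hδ : 0 < δ) (h0 : 0 ≤ z) (h1 : z < 1) :
    ∃ g : ℕ → ℝ, ∃ a : ℝ, HasSum g a ∧ (∀ n : ℕ, ((n + 1 : ℕ) : ℝ) ^ (-δ) * z ^ n ≤ g n) ∧
      (1 - z) * a ≤ (1 - z) ^ (1 / 2 : ℝ) + (1 - z) ^ (δ / 2) := by
  have hu : 0 < 1 - z := by linarith
  set t : ℝ := (1 - z) ^ (-(1 / 2) : ℝ) with ht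
  have ht0 : 0 < t := by positivity
  have hs : HasSum (fun n : ℕ => if n ∈ Finset.range ⌊t⌋₊ then (1 : ℝ) else 0) ⌊t⌋₊ := by
    have h := hasSum_sum_of_ne_finset_zero (L := SummationFilter.unconditional ℕ)
      (f := fun n : ℕ => if n ∈ Finset.range ⌊t⌋₊ then (1 : ℝ) else 0) (s := Finset.range ⌊t⌋₊)
      fun n hn => if_neg hn
    rwa [Finset.sum_congr rfl fun n hn => if_pos hn, Finset.sum_const, Finset.card_range,
      nsmul_eq_mul, mul_one] at h
  refine ⟨_, _, hs.add ((hasSum_geometric_of_lt_one h0 h1).mul_left (t ^ (-δ))), fun n => ?_, ?_⟩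
  · have hz : 0 ≤ z ^ n := pow_nonneg h0 n
    split_ifs with hn
    · have a1 : ((n + 1 : ℕ) : ℝ) ^ (-δ) ≤ 1 :=
        Real.rpow_le_one_of_one_le_of_nonpos (by simp) (by linarith)
      have a2 : z ^ n ≤ 1 := pow_le_one₀ h0 h1.le
      have a3 : 0 ≤ t ^ (-δ) * z ^ n := by positivity
      have a4 := mul_le_one₀ a1 hz a2
      linarith
    · rw [zero_add]
      refine mul_le_mul_of_nonneg_right (Real.rpow_le_rpow_of_nonpos ht0 ?_ (by linarith)) hz
      have a1 : (⌊t⌋₊ : ℝ) ≤ n := by exact_mod_cast not_lt.1 (mt Finset.mem_range.2 hn)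
      have a2 := Nat.lt_floor_add_one t
      push_cast
      linarith
  · have a1 : (1 - z) * t = (1 - z) ^ (1 / 2 : ℝ) := by
      rw [ht, ← Real.rpow_one_add' hu.le (by norm_num)]
      norm_num
    have a2 : t ^ (-δ) = (1 - z) ^ (δ / 2) := by
      rw [ht, ← Real.rpow_mul hu.le]
      congr 1
      ring
    have a3 := mul_le_mul_of_nonneg_left (Nat.floor_le ht0.le) hu.le
    rw [mul_add, ← a1, a2, mul_left_comm, mul_inv_cancel₀ hu.ne', mul_one]
    linarith

theorem Asy.add {F G : PowerSeries ℝ} {P Q : Polynomial ℝ} (hF : Asy F P) (hG : Asy G Q) :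
    Asy (F + G) (P + Q) := by
  obtain ⟨hF, a, ha, hF'⟩ := hF
  obtain ⟨hG, b, hb, hG'⟩ := hG
  refine ⟨fun z h0 h1 => Summable.of_nonneg_of_le (fun n => by positivity) (fun n => ?_)
    ((hF z h0 h1).add (hG z h0 h1)), min a b, lt_min ha hb, ?_⟩
  · rw [map_add, ← add_mul]
    exact mul_le_mul_of_nonneg_right (abs_add_le _ _) (pow_nonneg h0 n)
  · refine ((hF'.trans (z3_le (min_le_left a b))).add
      (hG'.trans (z3_le (min_le_right a b)))).congr' (z3_ev.mono fun z hz => ?_) .rfl
    have h := (z3_sum hz.1 (hF z hz.1 hz.2)).of_norm.tsum_add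
      (z3_sum hz.1 (hG z hz.1 hz.2)).of_norm
    simp only [evS, map_add, add_mul, Polynomial.eval_add, h]
    ring

theorem Asy.smul {F : PowerSeries ℝ} {P : Polynomial ℝ} (c : ℝ) (hF : Asy F P) :
    Asy (c • F) (c • P) := by
  obtain ⟨hF, a, ha, hF'⟩ := hF
  refine ⟨fun z h0 h1 => ((hF z h0 h1).mul_left |c|).congr fun n => ?_, a, ha,
    (hF'.const_mul_left c).congr_left fun z => ?_⟩
  · simp [abs_mul, mul_assoc]
  · simp only [evS, map_smul, smul_eq_mul, mul_assoc, tsum_mul_left, Polynomial.eval_smul]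
    ring

theorem Asy.zero : Asy 0 0 := by
  refine ⟨fun z _ _ => by simp, 1, one_pos, ?_⟩
  simpa [evS] using isBigO_zero _ _

theorem Asy.one : Asy 1 1 := by
  refine ⟨fun z _ _ => summable_of_ne_finset_zero (s := {0}) fun n hn => ?_, 1, one_pos, ?_⟩
  · simp [PowerSeries.coeff_one, Finset.notMem_singleton.1 hn]
  · refine (isBigO_zero _ _).congr_left fun z => ?_
    unfold evS
    rw [tsum_eq_single 0 fun n hn => by simp [PowerSeries.coeff_one, hn]]
    simp

theorem Asy.mul {F G : PowerSeries ℝ} {P Q : Polynomial ℝ} (hF : Asy F P) (hG : Asy G Q) :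
    Asy (F * G) (P * Q) := by
  obtain ⟨hF, a, ha, hF'⟩ := hF
  obtain ⟨hG, b, hb, hG'⟩ := hG
  have hd := lt_min ha hb
  refine ⟨fun z h0 h1 => (z3_mul h0 (hF z h0 h1) (hG z h0 h1)).1, min a b / 2, by linarith, ?_⟩
  have h1 := hF'.trans (z3_le (min_le_left a b))
  have h2 := hG'.trans (z3_le (min_le_right a b))
  have h3 : -(min a b / 2) < 0 := by linarith
  have h4 := (h2.trans (z3_le (a := -(min a b / 2)) (by linarith))).add (z3_poly Q h3)
  have h5 := (h1.mul h4).add (h2.mul (z3_poly P h3))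
  refine h5.congr' (z3_ev.mono fun z hz => ?_) (z3_ev.mono fun z hz => ?_)
  · simp only [(z3_mul hz.1 (hF z hz.1 hz.2) (hG z hz.1 hz.2)).2, Polynomial.eval_mul]
    ring
  · dsimp only
    rw [← Real.rpow_add (sub_pos.2 hz.2)]
    congr 1
    ring

theorem Asy.unique {F : PowerSeries ℝ} {P Q : Polynomial ℝ} (hP : Asy F P) (hQ : Asy F Q) :
    P = Q := by
  obtain ⟨-, a, ha, hP⟩ := hP
  obtain ⟨-, b, hb, hQ⟩ := hQ
  have h0 : ∀ c : ℝ, 0 < c → Tendsto (fun z : ℝ => (1 - z) ^ c) (𝓝[<] 1) (𝓝 0) := fun c hc => by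
    have h := (z3_tend.mono_right nhdsWithin_le_nhds).rpow_const (p := c) (Or.inr hc.le)
    rwa [Real.zero_rpow hc.ne'] at h
  have h1 : Tendsto (fun z : ℝ => (P - Q).eval (-Real.log (1 - z))) (𝓝[<] 1) (𝓝 0) := by
    have h := (hQ.trans_tendsto (h0 b hb)).sub (hP.trans_tendsto (h0 a ha))
    rw [sub_zero] at h
    refine h.congr fun z => ?_
    rw [Polynomial.eval_sub]
    ring
  have h2 : Tendsto (fun z : ℝ => -Real.log (1 - z)) (𝓝[<] 1) atTop :=
    tendsto_neg_atBot_atTop.comp (Real.tendsto_log_nhdsGT_zero.comp z3_tend)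
  have h3 : (P - Q).degree ≤ 0 := by
    by_contra h
    exact not_tendsto_nhds_of_tendsto_atTop
      (((P - Q).abs_tendsto_atTop (not_le.1 h)).comp h2) _ h1.abs
  rw [Polynomial.eq_C_of_degree_le_zero h3] at h1
  simp only [Polynomial.eval_C] at h1
  have h4 := tendsto_nhds_unique tendsto_const_nhds h1
  rw [← sub_eq_zero, Polynomial.eq_C_of_degree_le_zero h3, h4, map_zero]

theorem asy_small {s : ℕ → ℝ} (hs : Small s) : Asy (abel s) 0 := by
  obtain ⟨δ, hδ, hs⟩ := hs
  obtain ⟨C, hC, hb⟩ := bound_of_isBigO_nat_atTop hs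
  have h1 : ∀ n : ℕ, |s (n + 1)| ≤ C * ((n + 1 : ℕ) : ℝ) ^ (-δ) := fun n => by
    have h2 : 0 < ((n + 1 : ℕ) : ℝ) ^ (-δ) := by positivity
    have h3 := hb h2.ne'
    rwa [Real.norm_eq_abs, Real.norm_of_nonneg h2.le] at h3
  have h2 : ∀ z : ℝ, 0 ≤ z → z < 1 →
      (Summable fun n => |PowerSeries.coeff n (PowerSeries.mk fun n => s (n + 1))| * z ^ n) ∧
      (1 - z) * ‖evS z (PowerSeries.mk fun n => s (n + 1))‖ ≤
        C * ((1 - z) ^ (1 / 2 : ℝ) + (1 - z) ^ (δ / 2)) := by
    intro z h0 hz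
    obtain ⟨g, a, g1, g2, g3⟩ := z3_split hδ h0 hz
    have g4 : ∀ n, |PowerSeries.coeff n (PowerSeries.mk fun n => s (n + 1))| * z ^ n ≤ C * g n := by
      intro n
      rw [PowerSeries.coeff_mk]
      refine (mul_le_mul_of_nonneg_right (h1 n) (pow_nonneg h0 n)).trans ?_
      rw [mul_assoc]
      exact mul_le_mul_of_nonneg_left (g2 n) hC.le
    refine ⟨Summable.of_nonneg_of_le (fun n => by positivity) g4 (g1.mul_left C).summable, ?_⟩
    have g5 : ‖evS z (PowerSeries.mk fun n => s (n + 1))‖ ≤ C * a :=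
      tsum_of_norm_bounded (g1.mul_left C) fun n => by rw [z3_norm _ h0]; exact g4 n
    refine (mul_le_mul_of_nonneg_left g5 (sub_pos.2 hz).le).trans ?_
    rw [mul_left_comm]
    exact mul_le_mul_of_nonneg_left g3 hC.le
  refine ⟨fun z h0 hz => (z3_mul h0 (z3_lin z).1 (h2 z h0 hz).1).1, min (1 / 2) (δ / 2),
    lt_min (by norm_num) (by linarith), IsBigO.trans ?_
      ((z3_le (min_le_left _ _)).add (z3_le (min_le_right _ _)))⟩
  refine IsBigO.of_bound C (z3_ev.mono fun z hz => ?_)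
  have hu := sub_pos.2 hz.2
  rw [abel, (z3_mul hz.1 (z3_lin z).1 (h2 z hz.1 hz.2).1).2, (z3_lin z).2, Polynomial.eval_zero,
    sub_zero, norm_mul, Real.norm_of_nonneg hu.le, Real.norm_of_nonneg (by positivity :
      0 ≤ (1 - z) ^ (1 / 2 : ℝ) + (1 - z) ^ (δ / 2))]
  exact (h2 z hz.1 hz.2).2

theorem asy_log : Asy (abel (ZR [1])) Polynomial.X := by
  have h1 : ∀ n : ℕ, PowerSeries.coeff n (abel (ZR [1])) = (n : ℝ)⁻¹ := by
    intro n
    rw [abel, sub_mul, one_mul, map_sub, PowerSeries.coeff_mk]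
    cases n with
    | zero => simp [ZR, Zt]
    | succ n =>
      rw [PowerSeries.coeff_succ_X_mul, PowerSeries.coeff_mk, ZR, ZR, Zt_succ 1 [] (n + 1)]
      simp [Zt_nil]
  have h2 : ∀ z : ℝ, 0 ≤ z → z < 1 →
      HasSum (fun n : ℕ => (n : ℝ)⁻¹ * z ^ n) (-Real.log (1 - z)) := by
    intro z h0 hz
    have h := Real.hasSum_pow_div_log_of_abs_lt_one (x := z) (by rwa [abs_of_nonneg h0])
    refine (hasSum_nat_add_iff' 1).1 ?_
    simpa [div_eq_inv_mul] using h
  refine ⟨fun z h0 hz => (h2 z h0 hz).summable.congr fun n => ?_, 1, one_pos,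
    (isBigO_zero _ _).congr' (z3_ev.mono fun z hz => ?_) .rfl⟩
  · rw [h1, abs_of_nonneg (by positivity)]
  · simp only [evS, h1, (h2 z hz.1 hz.2).tsum_eq, Polynomial.eval_X, sub_self]

theorem abel_ZR (w : List ℕ) :
    abel (ZR w) = PowerSeries.map (algebraMap ℚ ℝ) (LiS w) := by
  rw [abel, LiS, map_mul, map_sub, map_one, PowerSeries.map_X]
  congr 1

end Pool.Agent.MP_cbe134_nt.V

end

section

/- Generating sums and the formal shuffle product of multiple polylogarithms. -/

open Finset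

namespace Pool.Agent.MP_cbe134_nt.V

variable {E E' : Type} [AddCommGroup E] [Module ℚ E] [AddCommGroup E'] [Module ℚ E']

theorem gen_map (φ : E →ₗ[ℚ] E') (t : List ℚ) (F : List ℕ → E) (d : ℕ) :
    φ (gen t F d) = gen t (fun w => φ (F w)) d := by
  induction t generalizing F d with
  | nil => simp only [gen]; split_ifs <;> simp
  | cons a t ih => simp only [gen, map_sum, map_smul, ih]

theorem z4_pos_cons {k : ℕ} {w : List ℕ} (h : Pos w) : Pos ((k + 1) :: w) := by
  intro a ha
  rcases List.mem_cons.1 ha with rfl | ha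
  · omega
  · exact h a ha

theorem z4_rel (R : E → E' → Prop) (h0 : R 0 0)
    (hadd : ∀ a b a' b', R a a' → R b b' → R (a + b) (a' + b'))
    (hsmul : ∀ (c : ℚ) a a', R a a' → R (c • a) (c • a')) (t : List ℚ) (F : List ℕ → E)
    (F' : List ℕ → E') (d : ℕ)
    (h : ∀ w, Pos w → w.length = t.length → w.sum = d + t.length → R (F w) (F' w)) :
    R (gen t F d) (gen t F' d) := by
  induction t generalizing F F' d with
  | nil =>
    simp only [gen]
    split_ifs with hd
    · exact h [] (fun _ h => by simp at h) rfl (by simp [hd])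
    · exact h0
  | cons a t ih =>
    simp only [gen]
    refine Finset.sum_hom_rel h0 (fun p b c hbc => ?_) |> fun h' => by
      rw [← Finset.sum_coe_sort (HasAntidiagonal.antidiagonal d),
        ← Finset.sum_coe_sort (HasAntidiagonal.antidiagonal d)]
      exact h'
    refine hadd _ _ _ _ (hsmul _ _ _ (ih _ _ _ fun w hw h1 h2 => h _ (z4_pos_cons hw) ?_ ?_)) hbc
    · simp [h1]
    · have := HasAntidiagonal.mem_antidiagonal.1 p.2
      simp only [List.sum_cons, List.length_cons]
      omega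

theorem gen_congr (t : List ℚ) {F F' : List ℕ → E} (d : ℕ)
    (h : ∀ w, Pos w → w.length = t.length → w.sum = d + t.length → F w = F' w) :
    gen t F d = gen t F' d :=
  z4_rel (· = ·) rfl (fun _ _ _ _ h h' => by rw [h, h']) (fun _ _ _ h => by rw [h]) t F F' d h

theorem gen_mem (D : Submodule ℚ E) (t : List ℚ) (F : List ℕ → E) (d : ℕ)
    (h : ∀ w, Pos w → w.length = t.length → w.sum = d + t.length → F w ∈ D) :
    gen t F d ∈ D :=
  z4_rel (fun a (_ : E) => a ∈ D) D.zero_mem (fun _ _ _ _ h h' => D.add_mem h h')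
    (fun c _ _ h => D.smul_mem c h) t F F d h

/-- a relation between two families passes to the generating sums -/
theorem gen_rel (R : E → E' → Prop) (h0 : R 0 0)
    (hadd : ∀ a b a' b', R a a' → R b b' → R (a + b) (a' + b'))
    (hsmul : ∀ (c : ℚ) a a', R a a' → R (c • a) (c • a')) (t : List ℚ) (F : List ℕ → E)
    (F' : List ℕ → E') (h : ∀ w, Pos w → R (F w) (F' w)) (d : ℕ) :
    R (gen t F d) (gen t F' d) :=
  z4_rel R h0 hadd hsmul t F F' d fun w hw _ _ => h w hw

theorem z4_add (t : List ℚ) (F F' : List ℕ → E) (d : ℕ) :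
    gen t (fun w => F w + F' w) d = gen t F d + gen t F' d := by
  induction t generalizing F F' d with
  | nil => simp only [gen]; split_ifs <;> simp
  | cons a t ih => simp only [gen, ih, smul_add, sum_add_distrib]

theorem z4_smul (c : ℚ) (t : List ℚ) (F : List ℕ → E) (d : ℕ) :
    gen t (fun w => c • F w) d = c • gen t F d :=
  (gen_map (c • (LinearMap.id : E →ₗ[ℚ] E)) t F d).symm

theorem z4_zero (t : List ℚ) (d : ℕ) : gen t (fun _ => (0 : E)) d = 0 := by
  simpa using z4_smul 0 t (fun _ => (0 : E)) d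

theorem z4_sum {ι : Type} (s : Finset ι) (t : List ℚ) (F : ι → List ℕ → E) (d : ℕ) :
    gen t (fun w => ∑ i ∈ s, F i w) d = ∑ i ∈ s, gen t (F i) d := by
  classical
  induction s using Finset.induction_on with
  | empty => simpa using z4_zero t d
  | insert i s hi ih => simp only [sum_insert hi, z4_add, ih]

omit [Module ℚ E] in
theorem z4_assoc (f : ℕ → ℕ → ℕ → E) (d : ℕ) :
    ∑ p ∈ HasAntidiagonal.antidiagonal d, ∑ q ∈ HasAntidiagonal.antidiagonal p.1, f q.1 q.2 p.2 =
      ∑ p ∈ HasAntidiagonal.antidiagonal d, ∑ q ∈ HasAntidiagonal.antidiagonal p.2,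
        f p.1 q.1 q.2 := by
  simp only [Finset.sum_sigma']
  apply Finset.sum_nbij' (fun ⟨⟨_i, j⟩, ⟨k, l⟩⟩ ↦ ⟨(k, l + j), (l, j)⟩)
    (fun ⟨⟨i, _j⟩, ⟨k, l⟩⟩ ↦ ⟨(i + k, l), (i, k)⟩) <;> aesop (add simp [add_assoc])

omit [Module ℚ E] in
theorem z4_assoc' (f : ℕ → ℕ → ℕ → E) (d : ℕ) :
    ∑ p ∈ HasAntidiagonal.antidiagonal d, ∑ q ∈ HasAntidiagonal.antidiagonal p.2, f p.1 q.1 q.2 =
      ∑ p ∈ HasAntidiagonal.antidiagonal d, ∑ q ∈ HasAntidiagonal.antidiagonal p.2,
        f q.1 p.1 q.2 := by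
  rw [← z4_assoc f, ← z4_assoc fun a b c => f b a c]
  exact sum_congr rfl fun p _ =>
    (Finset.Nat.sum_antidiagonal_swap (f := fun q => f q.1 q.2 p.2)).symm

/-- the double generating sum -/
def z4_G2 (H : List ℕ → List ℕ → E) (t t' : List ℚ) (d : ℕ) : E :=
  ∑ p ∈ HasAntidiagonal.antidiagonal d, gen t (fun u => gen t' (fun v => H u v) p.2) p.1

theorem z4_left (H : List ℕ → List ℕ → E) (a : ℚ) (t t' : List ℚ) (d : ℕ) :
    z4_G2 H (a :: t) t' d = ∑ p ∈ HasAntidiagonal.antidiagonal d,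
      a ^ p.1 • z4_G2 (fun u v => H ((p.1 + 1) :: u) v) t t' p.2 := by
  simp only [z4_G2, gen, smul_sum]
  exact z4_assoc (fun k l j => a ^ k • gen t (fun u => gen t' (fun v => H ((k + 1) :: u) v) j) l) d

theorem z4_right (H : List ℕ → List ℕ → E) (b : ℚ) (t t' : List ℚ) (d : ℕ) :
    z4_G2 H t (b :: t') d = ∑ p ∈ HasAntidiagonal.antidiagonal d,
      b ^ p.1 • z4_G2 (fun u v => H u ((p.1 + 1) :: v)) t t' p.2 := by
  simp only [z4_G2, gen, smul_sum, z4_sum, z4_smul]
  exact z4_assoc' (fun i k l => b ^ k • gen t (fun u => gen t' (fun v => H u ((k + 1) :: v)) l) i) d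

theorem z4_cons_sum (a : ℚ) (L : List (List ℚ)) (F : List ℕ → E) (d : ℕ) :
    ((L.map (a :: ·)).map fun σ => gen σ F d).sum = ∑ p ∈ HasAntidiagonal.antidiagonal d,
      a ^ p.1 • (L.map fun σ => gen σ (fun w => F ((p.1 + 1) :: w)) p.2).sum := by
  induction L with
  | nil => simp
  | cons σ L ih => simp only [List.map_cons, List.sum_cons, ih, smul_add, sum_add_distrib, gen]

theorem gen_shuf (t t' : List ℚ) (F : List ℕ → E) (d : ℕ) :
    ((shuf t t').map fun σ => gen σ F d).sum =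
      ∑ p ∈ HasAntidiagonal.antidiagonal d,
        gen t (fun u => gen t' (fun v => ((shuf u v).map F).sum) p.2) p.1 := by
  induction t, t' using shuf.induct generalizing F d with
  | case1 v =>
    rw [sum_eq_single_of_mem (0, d) (by simp)]
    · simp [shuf, gen]
    · intro p hp hne
      have := HasAntidiagonal.mem_antidiagonal.1 hp
      exact if_neg fun h => hne (Prod.ext h (by dsimp only; omega))
  | case2 a u =>
    rw [sum_eq_single_of_mem (d, 0) (by simp)]
    · simp [shuf_nil_right, gen]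
    · intro p hp hne
      have := HasAntidiagonal.mem_antidiagonal.1 hp
      have h0 : p.2 ≠ 0 := fun h => hne (Prod.ext (by dsimp only; omega) h)
      simp only [gen.eq_1, if_neg h0, z4_zero]
  | case3 a u b v ih1 ih2 =>
    rw [shuf, List.map_append, List.sum_append, z4_cons_sum, z4_cons_sum]
    simp only [ih1, ih2]
    refine (congrArg₂ (· + ·)
      (z4_left (fun x y => ((shuf x.tail y).map fun w => F (x.headD 0 :: w)).sum) a u (b :: v) d)
      (z4_right (fun x y => ((shuf x y.tail).map fun w => F (y.headD 0 :: w)).sum) b (a :: u) v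
        d)).symm.trans ?_
    rw [z4_G2, z4_G2, ← sum_add_distrib]
    refine sum_congr rfl fun p _ => ?_
    rw [← z4_add]
    refine gen_congr _ _ fun x _ hx _ => ?_
    rw [← z4_add]
    refine gen_congr _ _ fun y _ hy _ => ?_
    obtain ⟨k, x, rfl⟩ := List.exists_cons_of_length_eq_add_one hx
    obtain ⟨l, y, rfl⟩ := List.exists_cons_of_length_eq_add_one hy
    simp [shuf, Function.comp_def]

theorem gen_shuf_mem (D : Submodule ℚ E) (t t' : List ℚ) (F : List ℕ → E) (d : ℕ)
    (h : ∀ u v, Pos u → Pos v → u.length = t.length → v.length = t'.length →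
      u.sum + v.sum = d + (t.length + t'.length) → ((shuf u v).map F).sum ∈ D) :
    ((shuf t t').map fun σ => gen σ F d).sum ∈ D := by
  rw [gen_shuf]
  refine D.sum_mem fun p hp => gen_mem D _ _ _ fun u hu h1 h2 => gen_mem D _ _ _
    fun v hv h3 h4 => h u v hu hv h1 h3 ?_
  have := HasAntidiagonal.mem_antidiagonal.1 hp
  omega

theorem gen_ofFn (r : ℕ) (x : Fin r → ℚ) (F : List ℕ → E) (d : ℕ) :
    gen (List.ofFn x) F d = ∑ a ∈ Finset.Nat.antidiagonalTuple r d,
      (∏ i, x i ^ a i) • F (List.ofFn fun i => a i + 1) := by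
  induction r generalizing F d with
  | zero => cases d <;> simp [gen]
  | succ r ih =>
    rw [List.ofFn_succ, gen]
    simp only [ih, smul_sum, sum_sigma']
    refine sum_nbij' (fun p => Fin.cons p.1.1 p.2)
      (fun a => ⟨(a 0, ∑ i : Fin r, a i.succ), fun i => a i.succ⟩) ?_ ?_ ?_ ?_ ?_
    · rintro ⟨⟨i, j⟩, a⟩ h
      simp only [mem_sigma, HasAntidiagonal.mem_antidiagonal,
        Finset.Nat.mem_antidiagonalTuple] at h ⊢
      rw [Fin.sum_cons, h.2, h.1]
    · intro a h
      simp only [mem_sigma, HasAntidiagonal.mem_antidiagonal,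
        Finset.Nat.mem_antidiagonalTuple, and_true] at h ⊢
      rw [← h, Fin.sum_univ_succ]
    · rintro ⟨⟨i, j⟩, a⟩ h
      simp only [mem_sigma, HasAntidiagonal.mem_antidiagonal,
        Finset.Nat.mem_antidiagonalTuple] at h
      simp [h.2]
    · intro a _
      exact Fin.cons_self_tail a
    · rintro ⟨⟨i, j⟩, a⟩ _
      simp [Fin.prod_univ_succ, List.ofFn_succ, mul_smul]

theorem psum_length (s : List ℚ) : (psum s).length = s.length := by
  induction s with
  | nil => rfl
  | cons a s ih => simp [psum, ih]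

section Li

open PowerSeries

/-- the Euler operator -/
noncomputable def z4_th : ℚ⟦X⟧ →ₗ[ℚ] ℚ⟦X⟧ :=
  LinearMap.mulLeft ℚ X ∘ₗ (PowerSeries.derivative ℚ).toLinearMap

theorem z4_th_apply (f : ℚ⟦X⟧) : z4_th f = X * PowerSeries.derivative ℚ f := rfl

theorem z4_th_coeff (f : ℚ⟦X⟧) (n : ℕ) : coeff n (z4_th f) = n * coeff n f := by
  rw [z4_th_apply]
  cases n with
  | zero => simp
  | succ n => rw [coeff_succ_X_mul, coeff_derivative]; push_cast; ring

theorem z4_th_mul (f g : ℚ⟦X⟧) : z4_th (f * g) = z4_th f * g + f * z4_th g := by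
  simp only [z4_th_apply, Derivation.leibniz, smul_eq_mul]
  ring

theorem z4_th_inj {f : ℚ⟦X⟧} (h : z4_th f = 0) (h0 : constantCoeff f = 0) : f = 0 := by
  ext n
  cases n with
  | zero => simpa using h0
  | succ n =>
    have := z4_th_coeff f (n + 1)
    rw [h, map_zero] at this
    exact (mul_eq_zero.1 this.symm).resolve_left (by positivity)

theorem z4_Li_coeff (a : ℕ) (w : List ℕ) (n : ℕ) :
    coeff n (LiS (a :: w)) = ((n : ℚ)⁻¹) ^ a * Zt w n := by
  rw [LiS, sub_mul, one_mul, map_sub]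
  cases n with
  | zero =>
    rw [coeff_zero_X_mul, coeff_mk, Zt_succ, Zt_cons, sum_range_zero, zero_add, sub_zero]
  | succ n => rw [coeff_succ_X_mul, coeff_mk, coeff_mk, Zt_succ a w (n + 1), add_sub_cancel_left]

theorem z4_Li_nil : LiS [] = 1 := by
  rw [LiS, mul_comm]
  exact mk_one_mul_one_sub_eq_one ℚ

theorem z4_Li_const (a : ℕ) (w : List ℕ) : constantCoeff (LiS ((a + 1) :: w)) = 0 := by
  rw [← coeff_zero_eq_constantCoeff_apply, z4_Li_coeff]
  simp

theorem z4_th_one (w : List ℕ) : z4_th (LiS (1 :: w)) = X * PowerSeries.mk 1 * LiS w := by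
  have e : (X * PowerSeries.mk 1 * LiS w : ℚ⟦X⟧) = X * PowerSeries.mk fun n => Zt w (n + 1) := by
    rw [LiS, ← mul_assoc, mul_assoc X, mk_one_mul_one_sub_eq_one, mul_one]
  rw [e]
  ext n
  rw [z4_th_coeff, z4_Li_coeff]
  cases n with
  | zero => simp
  | succ n =>
    rw [coeff_succ_X_mul, coeff_mk, pow_one, mul_inv_cancel_left₀ (by positivity)]

theorem z4_th_succ (a : ℕ) (w : List ℕ) : z4_th (LiS ((a + 1 + 1) :: w)) = LiS ((a + 1) :: w) := by
  ext n
  rw [z4_th_coeff, z4_Li_coeff, z4_Li_coeff]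
  cases n with
  | zero => simp
  | succ n => rw [pow_succ', mul_assoc, mul_inv_cancel_left₀ (by positivity)]

/-- the generating series -/
noncomputable def z4_A (t : List ℚ) : ℚ⟦X⟧⟦X⟧ := PowerSeries.mk fun d => gen t LiS d

/-- the Euler operator on coefficients -/
noncomputable def z4_Th : ℚ⟦X⟧⟦X⟧ →+ ℚ⟦X⟧⟦X⟧ :=
  AddMonoidHom.mk' (fun f => PowerSeries.mk fun d => z4_th (coeff d f)) fun f g => by
    ext1 d
    simp only [coeff_mk, map_add]

theorem z4_Th_coeff (f : ℚ⟦X⟧⟦X⟧) (d : ℕ) : coeff d (z4_Th f) = z4_th (coeff d f) :=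
  coeff_mk d fun d => z4_th (coeff d f)

theorem z4_Th_mul (f g : ℚ⟦X⟧⟦X⟧) : z4_Th (f * g) = z4_Th f * g + f * z4_Th g := by
  ext1 d
  simp only [z4_Th_coeff, map_add, coeff_mul, map_sum, z4_th_mul, sum_add_distrib]

theorem z4_Th_inj {f : ℚ⟦X⟧⟦X⟧} {c : ℚ⟦X⟧} (h : z4_Th f = C c * (X * f))
    (h0 : PowerSeries.map constantCoeff f = 0) : f = 0 := by
  have h1 : ∀ d, constantCoeff (coeff d f) = 0 := fun d => by
    rw [← coeff_map, h0, map_zero]
  ext1 d
  induction d with
  | zero => exact z4_th_inj (by rw [← z4_Th_coeff, h]; simp) (h1 0)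
  | succ d ih =>
    refine z4_th_inj ?_ (h1 _)
    rw [← z4_Th_coeff, h, coeff_C_mul, coeff_succ_X_mul, ih, map_zero, mul_zero]

theorem z4_A_nil : z4_A [] = 1 := by
  ext1 d
  rw [z4_A, coeff_mk, gen, z4_Li_nil, coeff_one]

theorem z4_A_const (a : ℚ) (t : List ℚ) : PowerSeries.map constantCoeff (z4_A (a :: t)) = 0 := by
  ext1 d
  rw [coeff_map, z4_A, coeff_mk, map_zero, ← coeff_zero_eq_constantCoeff_apply, gen_map, gen]
  simp only [coeff_zero_eq_constantCoeff_apply, z4_Li_const, z4_zero, smul_zero, sum_const_zero]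

theorem z4_Th_A (a : ℚ) (t : List ℚ) :
    z4_Th (z4_A (a :: t)) = C (X * PowerSeries.mk 1) * z4_A t + C (C a) * (X * z4_A (a :: t)) := by
  have e : ∀ d, gen t (fun w => X * PowerSeries.mk 1 * LiS w) d = X * PowerSeries.mk 1 * gen t LiS d := fun d =>
    (gen_map (LinearMap.mulLeft ℚ (X * PowerSeries.mk 1 : ℚ⟦X⟧)) t LiS d).symm
  ext1 d
  rw [z4_Th_coeff, map_add, coeff_C_mul, coeff_C_mul, z4_A, z4_A, coeff_mk, coeff_mk, gen_map, gen]
  cases d with
  | zero => simp [z4_th_one, e]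
  | succ d =>
    rw [Finset.Nat.sum_antidiagonal_succ, coeff_succ_X_mul, coeff_mk, gen, mul_sum]
    simp only [zero_add, z4_th_one, e, pow_zero, one_smul, z4_th_succ, pow_succ', mul_smul,
      smul_eq_C_mul]

theorem z4_Th_sum (a c : ℚ) (L : List (List ℚ)) (h : ∀ σ ∈ L, a + σ.sum = c) :
    z4_Th ((L.map (a :: ·)).map fun σ => z4_A (psum σ)).sum =
      C (X * PowerSeries.mk 1) * (L.map fun σ => z4_A (psum σ)).sum +
        C (C c) * (X * ((L.map (a :: ·)).map fun σ => z4_A (psum σ)).sum) ∧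
    PowerSeries.map constantCoeff ((L.map (a :: ·)).map fun σ => z4_A (psum σ)).sum = 0 := by
  induction L with
  | nil => simp
  | cons σ L ih =>
    obtain ⟨h1, h2⟩ := ih fun σ hσ => h σ (List.mem_cons_of_mem _ hσ)
    simp only [List.map_cons, List.sum_cons, map_add]
    rw [h1, h2, psum, z4_Th_A, z4_A_const, h σ List.mem_cons_self]
    exact ⟨by ring, add_zero _⟩

theorem z4_shuf (s s' : List ℚ) :
    ((shuf s s').map fun σ => z4_A (psum σ)).sum = z4_A (psum s) * z4_A (psum s') := by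
  induction s, s' using shuf.induct with
  | case1 v => simp [shuf, psum, z4_A_nil]
  | case2 a u => simp [shuf, psum.eq_1, z4_A_nil]
  | case3 a u b v ih1 ih2 =>
    obtain ⟨h1, h2⟩ := z4_Th_sum a (a + u.sum + (b + v.sum)) (shuf u (b :: v)) fun σ hσ => by
      rw [(mem_shuf hσ).sum_eq, List.sum_append, List.sum_cons]; ring
    obtain ⟨h3, h4⟩ := z4_Th_sum b (a + u.sum + (b + v.sum)) (shuf (a :: u) v) fun σ hσ => by
      rw [(mem_shuf hσ).sum_eq, List.sum_append, List.sum_cons]; ring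
    rw [shuf, List.map_append, List.sum_append, ← sub_eq_zero]
    refine z4_Th_inj (c := C (a + u.sum + (b + v.sum))) ?_ ?_
    · rw [map_sub, map_add, h1, h3, ih1, ih2, z4_Th_mul, psum, psum, z4_Th_A, z4_Th_A]
      simp only [map_add]
      ring
    · rw [map_sub, map_add, h2, h4, map_mul, psum, z4_A_const]
      simp

end Li

theorem LiS_shuf (s s' : List ℚ) (d : ℕ) :
    ((shuf s s').map fun σ => gen (psum σ) LiS d).sum =
      ∑ p ∈ HasAntidiagonal.antidiagonal d, gen (psum s) LiS p.1 * gen (psum s') LiS p.2 := by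
  have := congrArg (PowerSeries.coeff d) (z4_shuf s s')
  rw [map_list_sum, List.map_map, PowerSeries.coeff_mul] at this
  simpa only [z4_A, Function.comp_def, PowerSeries.coeff_mk] using this

theorem LiS_ones (j : ℕ) : (j.factorial : ℚ) • LiS (ones j) = LiS [1] ^ j := by
  have h1 : z4_th (LiS [1]) = PowerSeries.X * PowerSeries.mk 1 := by
    rw [z4_th_one, z4_Li_nil, mul_one]
  have h2 : ∀ j : ℕ, z4_th (LiS [1] ^ (j + 1)) =
      ((j : ℚ) + 1) • (PowerSeries.X * PowerSeries.mk 1 * LiS [1] ^ j) := by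
    intro j
    induction j with
    | zero => simp [h1]
    | succ j ih =>
      rw [pow_succ, z4_th_mul, ih, h1, Nat.cast_succ, add_smul ((j : ℚ) + 1), one_smul,
        smul_mul_assoc]
      congr 1
      · rw [pow_succ, mul_assoc]
      · ring
  induction j with
  | zero => simp [ones, z4_Li_nil]
  | succ j ih =>
    have e : ones (j + 1) = 1 :: ones j := rfl
    rw [← sub_eq_zero]
    refine z4_th_inj ?_ ?_
    · rw [map_sub, map_smul, e, z4_th_one, h2, ← ih, mul_smul_comm, smul_smul, Nat.factorial_succ]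
      push_cast
      exact sub_self _
    · have h3 := z4_Li_const 0 (ones j)
      have h4 := z4_Li_const 0 []
      rw [zero_add] at h3 h4
      rw [map_sub, map_pow, h4, PowerSeries.smul_eq_C_mul, map_mul, e, h3]
      simp

end Pool.Agent.MP_cbe134_nt.V

end

section

/- The regularised values satisfy both shuffle relations modulo lower depth and products. -/

namespace Pool.Agent.MP_cbe134_nt.V

theorem z5_abel_add (a b : ℕ → ℝ) : abel (fun N => a N + b N) = abel a + abel b := by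
  rw [abel, abel, abel, ← mul_add]
  congr 1

theorem z5_abel_smul (x : ℝ) (a : ℕ → ℝ) : abel (fun N => x * a N) = x • abel a := by
  rw [abel, abel, ← mul_smul_comm]
  congr 1

theorem z5_abel_zero : abel (fun _ => 0) = 0 := by
  have := z5_abel_smul 0 fun _ => 0
  simpa using this

theorem z5_map_smul (c : ℚ) (F : PowerSeries ℚ) :
    PowerSeries.map (algebraMap ℚ ℝ) (c • F) = (c : ℝ) • PowerSeries.map (algebraMap ℚ ℝ) F := by
  ext n
  simp

theorem z5_pow {F : PowerSeries ℝ} {P : Polynomial ℝ} (h : Asy F P) (j : ℕ) :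
    Asy (F ^ j) (P ^ j) := by
  induction j with
  | zero => simpa using Asy.one
  | succ j ih =>
    rw [pow_succ, pow_succ]
    exact ih.mul h

theorem z5_ones (j : ℕ) (x : ℝ) :
    Asy (abel fun N => x * ZR (ones j) N) (Polynomial.monomial j (x / j.factorial)) := by
  have hj : (j.factorial : ℝ) ≠ 0 := by exact_mod_cast j.factorial_ne_zero
  have h1 : (j.factorial : ℝ) • abel (ZR (ones j)) = abel (ZR [1]) ^ j := by
    rw [abel_ZR, abel_ZR, ← map_pow, ← LiS_ones, z5_map_smul, Rat.cast_natCast]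
  have h2 := (z5_pow asy_log j).smul (x / j.factorial)
  rw [← h1, smul_smul, div_mul_cancel₀ _ hj, Polynomial.X_pow_eq_monomial,
    Polynomial.smul_monomial, smul_eq_mul, mul_one] at h2
  rwa [z5_abel_smul]

theorem z5_sum {ι : Type} (s : Finset ι) (a : ι → ℕ → ℝ) (P : ι → Polynomial ℝ)
    (h : ∀ i, Asy (abel (a i)) (P i)) : Asy (abel fun N => ∑ i ∈ s, a i N) (∑ i ∈ s, P i) := by
  classical
  induction s using Finset.induction_on with
  | empty =>
    simp only [Finset.sum_empty, z5_abel_zero]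
    exact Asy.zero
  | insert i s hi ih =>
    simp only [Finset.sum_insert hi, z5_abel_add]
    exact (h i).add ih

theorem z5_coeff (c : ℕ →₀ ℝ) (i : ℕ) :
    (c.sum fun j x => Polynomial.monomial j (x / (j.factorial : ℝ))).coeff i =
      c i / i.factorial := by
  rw [Finsupp.sum, Polynomial.finsetSum_coeff, Finset.sum_eq_single i]
  · rw [Polynomial.coeff_monomial, if_pos rfl]
  · intro j _ hj
    rw [Polynomial.coeff_monomial, if_neg hj]
  · intro hi
    rw [Finsupp.notMem_support_iff.1 hi, zero_div, map_zero, Polynomial.coeff_zero]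

theorem Expn.asy {a : ℕ → ℝ} {c : ℕ →₀ ℝ} (h : Expn a c) :
    Asy (abel a) (c.sum fun j x => Polynomial.monomial j (x / j.factorial)) := by
  have h1 := (asy_small h).add (z5_sum c.support (fun j N => c j * ZR (ones j) N) _
    fun j => z5_ones j (c j))
  rw [← z5_abel_add, zero_add] at h1
  simpa only [Finsupp.sum, sub_add_cancel] using h1

theorem Expn.unique {a : ℕ → ℝ} {c c' : ℕ →₀ ℝ} (h : Expn a c) (h' : Expn a c') : c = c' := by
  ext i
  have h1 := congrArg (Polynomial.coeff · i) (h.asy.unique h'.asy)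
  simp only [z5_coeff] at h1
  have hj : (i.factorial : ℝ) ≠ 0 := by exact_mod_cast i.factorial_ne_zero
  exact (div_left_inj' hj).1 h1

theorem z5_prev {r r' k : ℕ} (h : r < r') : Fil r k ≤ Dec r' k := by
  obtain ⟨n, rfl⟩ : ∃ n, r' = n + 1 := ⟨r' - 1, by omega⟩
  exact (Fil_mono (by omega) k).trans le_sup_left

theorem z5_dec {p q i j : ℕ} (hp : 1 ≤ p) (hq : 1 ≤ q) {x y : ℝ} (hx : x ∈ Fil p i)
    (hy : y ∈ Fil q j) : x * y ∈ Dec (p + q) (i + j) := by
  refine Submodule.mem_sup_right ?_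
  refine Submodule.mem_iSup_of_mem p (Submodule.mem_iSup_of_mem q (Submodule.mem_iSup_of_mem i
    (Submodule.mem_iSup_of_mem j (Submodule.mem_iSup_of_mem ⟨hp, hq, rfl, rfl⟩ ?_))))
  exact Submodule.mul_mem_mul hx hy

theorem z5_len {w : List ℕ} (hw : Pos w) :
    w.length ≤ w.sum ∧ (w.sum ≤ w.length → w = ones w.length) := by
  induction w with
  | nil => exact ⟨le_rfl, fun _ => rfl⟩
  | cons a w ih =>
    have ha : 1 ≤ a := hw a (by simp)
    obtain ⟨h1, h2⟩ := ih fun b hb => hw b (by simp [hb])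
    simp only [List.length_cons, List.sum_cons]
    refine ⟨by omega, fun h => ?_⟩
    rw [ones, List.replicate_succ, ← ones, ← h2 (by omega), show a = 1 by omega]

theorem z5_pos_ones (j : ℕ) : Pos (ones j) := fun a ha => by
  rw [List.eq_of_mem_replicate ha]

theorem z5_list (e : List ℕ → ℕ →₀ ℝ) (L : List (List ℕ)) (h : ∀ w ∈ L, Expn (ZR w) (e w)) :
    Expn (fun N => (L.map fun w => ZR w N).sum) (L.map e).sum := by
  induction L with
  | nil => simpa [Expn] using Small.zero
  | cons w L ih =>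
    simp only [List.map_cons, List.sum_cons]
    exact (h w (by simp)).add (ih fun x hx => h x (by simp [hx]))

theorem z5_apply (e : List ℕ → ℕ →₀ ℝ) (L : List (List ℕ)) :
    (L.map e).sum 0 = (L.map fun w => e w 0).sum := by
  induction L with
  | nil => rfl
  | cons w L ih => simp only [List.map_cons, List.sum_cons, Finsupp.add_apply, ih]

theorem z5_mem (D : Submodule ℚ ℝ) {β : Type} (f : β → ℝ) (L : List β) (h : ∀ w ∈ L, f w ∈ D) :
    (L.map f).sum ∈ D :=
  list_sum_mem fun x hx => by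
    obtain ⟨w, hw, rfl⟩ := List.mem_map.1 hx
    exact h w hw

section

variable {e : List ℕ → ℕ →₀ ℝ} (he : ∀ w, Pos w → Expn (ZR w) (e w))
  (hf : ∀ w, Pos w → ∀ j, (e w j ≠ 0 → j ≤ w.length) ∧ e w j ∈ Fil (w.length - j) (w.sum - j))

include he hf

theorem z5_oo {i j : ℕ} (h : 1 ≤ i + j) :
    ((stuf (ones i) (ones j)).map fun w => e w 0).sum ∈ Fil (i + j - 1) (i + j) := by
  refine z5_mem _ _ _ fun w hw => ?_
  obtain ⟨h1, h2, h3⟩ := mem_stuf (z5_pos_ones i) (z5_pos_ones j) hw
  simp only [ones, List.sum_replicate, smul_eq_mul, mul_one, List.length_replicate] at h2 h3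
  rcases h3.lt_or_eq with h3 | h3
  · have := (hf w h1 0).2
    rw [Nat.sub_zero, Nat.sub_zero, h2] at this
    exact Fil_mono (by omega) _ this
  · have h4 := (z5_len h1).2 (by omega)
    rw [h3] at h4
    rw [h4, (he _ (z5_pos_ones _)).unique (expn_ones _), Finsupp.single_eq_of_ne (by omega)]
    exact zero_mem _

theorem z5_stuf {u v : List ℕ} (hu : Pos u) (hv : Pos v) (hu' : 1 ≤ u.length)
    (hv' : 1 ≤ v.length) :
    ((stuf u v).map fun w => e w 0).sum ∈ Dec (u.length + v.length) (u.sum + v.sum) := by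
  have h1 := z5_list e (stuf u v) fun w hw => he w (mem_stuf hu hv hw).1
  have h2 := (he u hu).mul (he v hv) e he
  simp only [ZR_stuf] at h2
  rw [← z5_apply, h1.unique h2, Finsupp.sum, Finsupp.finsetSum_apply]
  refine Submodule.sum_mem _ fun i hi => ?_
  rw [Finsupp.sum, Finsupp.finsetSum_apply]
  refine Submodule.sum_mem _ fun j hj => ?_
  rw [Finsupp.smul_apply, z5_apply, smul_eq_mul]
  obtain ⟨a1, a2⟩ := hf u hu i
  obtain ⟨b1, b2⟩ := hf v hv j
  have a3 := a1 (Finsupp.mem_support_iff.1 hi)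
  have b3 := b1 (Finsupp.mem_support_iff.1 hj)
  have a4 := (z5_len hu).1
  have b4 := (z5_len hv).1
  rcases Nat.eq_zero_or_pos (i + j) with h | h
  · obtain rfl : i = 0 := by omega
    obtain rfl : j = 0 := by omega
    have h0 : e [] 0 = 1 := by
      rw [(he [] (z5_pos_ones 0)).unique (expn_ones 0), Finsupp.single_eq_same]
    have : ((stuf (ones 0) (ones 0)).map fun w => e w 0).sum = 1 := by
      simp [ones, stuf, h0]
    rw [this, mul_one]
    exact z5_dec hu' hv' a2 b2
  · have h3 := Fil_mul _ _ _ _ (Submodule.mul_mem_mul (Fil_mul _ _ _ _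
      (Submodule.mul_mem_mul a2 b2)) (z5_oo he hf h))
    rw [show u.sum - i + (v.sum - j) + (i + j) = u.sum + v.sum by omega] at h3
    exact z5_prev (by omega) h3

theorem z5_shuf {u v : List ℕ} (hu : Pos u) (hv : Pos v) (hu' : 1 ≤ u.length)
    (hv' : 1 ≤ v.length) :
    ((shuf u v).map fun w => e w 0).sum ∈ Dec (u.length + v.length) (u.sum + v.sum) := by
  obtain ⟨L, h1, h2⟩ := stuf_perm u v
  have h3 := z5_stuf he hf hu hv hu' hv'
  rw [(h1.map _).sum_eq, List.map_append, List.sum_append] at h3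
  refine (Submodule.add_mem_iff_left _ (z5_mem _ _ _ fun w hw => ?_)).1 h3
  obtain ⟨a1, a2, -⟩ := mem_stuf hu hv (h1.symm.subset (List.mem_append_right _ hw))
  have := (hf w a1 0).2
  rw [Nat.sub_zero, Nat.sub_zero, a2] at this
  exact z5_prev (h2 w hw) this

omit hf in
theorem z5_gen (t : List ℚ) (d : ℕ) :
    Asy (PowerSeries.map (algebraMap ℚ ℝ) (gen t LiS d))
      (gen t (fun w => (e w).sum fun j x => Polynomial.monomial j (x / (j.factorial : ℝ))) d) := by
  refine gen_rel (fun F P => Asy (PowerSeries.map (algebraMap ℚ ℝ) F) P) ?_ ?_ ?_ t _ _ ?_ d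
  · rw [map_zero]
    exact Asy.zero
  · intro a b a' b' h h'
    rw [map_add]
    exact h.add h'
  · intro c a a' h
    rw [z5_map_smul, ← Rat.cast_smul_eq_qsmul ℝ]
    exact h.smul _
  · intro w hw
    rw [← abel_ZR]
    exact (he w hw).asy

omit hf in
theorem z5_psum (u v : List ℚ) (d : ℕ) :
    ((shuf u v).map fun σ => gen (psum σ) (fun w => e w 0) d).sum =
      ∑ p ∈ Finset.HasAntidiagonal.antidiagonal d,
        gen (psum u) (fun w => e w 0) p.1 * gen (psum v) (fun w => e w 0) p.2 := by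
  set P : List ℕ → Polynomial ℝ :=
    fun w => (e w).sum fun j x => Polynomial.monomial j (x / (j.factorial : ℝ)) with hP
  have h1 : ∀ L : List (List ℚ), Asy (PowerSeries.map (algebraMap ℚ ℝ)
      (L.map fun σ => gen (psum σ) LiS d).sum) (L.map fun σ => gen (psum σ) P d).sum := by
    intro L
    induction L with
    | nil => simpa using Asy.zero
    | cons σ L ih =>
      simp only [List.map_cons, List.sum_cons, map_add]
      exact (z5_gen he _ _).add ih
  have h2 : ∀ s : Finset (ℕ × ℕ), Asy (PowerSeries.map (algebraMap ℚ ℝ)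
      (∑ p ∈ s, gen (psum u) LiS p.1 * gen (psum v) LiS p.2))
      (∑ p ∈ s, gen (psum u) P p.1 * gen (psum v) P p.2) := by
    intro s
    induction s using Finset.induction_on with
    | empty => simpa using Asy.zero
    | insert p s hp ih =>
      simp only [Finset.sum_insert hp, map_add, map_mul]
      exact ((z5_gen he _ _).mul (z5_gen he _ _)).add ih
  have h3 := h1 (shuf u v)
  rw [LiS_shuf] at h3
  have h4 := congrArg (Polynomial.coeff · 0) (h3.unique (h2 _))
  have h5 : ∀ t d, (gen t P d).coeff 0 = gen t (fun w => e w 0) d := fun t d => by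
    have := gen_map ((Polynomial.lcoeff ℝ 0).restrictScalars ℚ) t P d
    simpa [hP, z5_coeff] using this
  simp only [Polynomial.finsetSum_coeff, Polynomial.mul_coeff_zero, h5] at h4
  rw [← h4]
  induction shuf u v with
  | nil => simp
  | cons σ L ih => simp only [List.map_cons, List.sum_cons, Polynomial.coeff_add, h5, ih]

end

theorem exists_reg : ∃ reg : List ℕ → ℝ, (∀ w, Adm w → reg w = mzv w) ∧
    (∀ w, Pos w → reg w ∈ Fil w.length w.sum) ∧
    ∀ (u v : List ℚ) (d : ℕ), u ≠ [] → v ≠ [] →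
      ((shuf u v).map fun σ => gen σ reg d).sum ∈
        Dec (u.length + v.length) (d + (u.length + v.length)) ∧
      ((shuf u v).map fun σ => gen (psum σ) reg d).sum ∈
        Dec (u.length + v.length) (d + (u.length + v.length)) := by
  have h0 : ∀ w, ∃ c : ℕ →₀ ℝ, Pos w → Expn (ZR w) c ∧
      ∀ j, (c j ≠ 0 → j ≤ w.length) ∧ c j ∈ Fil (w.length - j) (w.sum - j) := fun w => by
    by_cases hw : Pos w
    · obtain ⟨c, hc⟩ := exists_expn hw
      exact ⟨c, fun _ => hc⟩
    · exact ⟨0, fun h => absurd h hw⟩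
  choose e h using h0
  have he := fun w hw => (h w hw).1
  have hf := fun w hw => (h w hw).2
  refine ⟨fun w => e w 0, fun w hw => ?_, fun w hw => (hf w hw 0).2, fun u v d hu hv => ?_⟩
  · change e w 0 = _
    rw [(he w hw.1).unique (expn_adm hw), Finsupp.single_eq_same]
  have hu' : 1 ≤ u.length := List.length_pos_iff.2 hu
  have hv' : 1 ≤ v.length := List.length_pos_iff.2 hv
  refine ⟨gen_shuf_mem _ _ _ _ _ fun a b ha hb h1 h2 h3 => ?_, ?_⟩
  · rw [← h3, ← h1, ← h2]
    exact z5_shuf he hf ha hb (h1 ▸ hu') (h2 ▸ hv')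
  · have hg : ∀ (t : List ℚ) (i : ℕ),
        gen (psum t) (fun w => e w 0) i ∈ Fil t.length (i + t.length) := fun t i =>
      gen_mem _ _ _ _ fun w hw h1 h2 => by
        rw [psum_length] at h1 h2
        rw [← h2, ← h1]
        exact (hf w hw 0).2
    rw [z5_psum he]
    refine Submodule.sum_mem _ fun p hp => ?_
    have := z5_dec hu' hv' (hg u p.1) (hg v p.2)
    rwa [show p.1 + u.length + (p.2 + v.length) = d + (u.length + v.length) by
      have := Finset.HasAntidiagonal.mem_antidiagonal.1 hp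
      omega] at this

end Pool.Agent.MP_cbe134_nt.V

end

section

/- Generators modulo lower depth and products are bounded by the double shuffle space. -/

namespace Pool.Agent.MP_cbe134_nt.V

open MvPolynomial in
/-- the form attached to a family of reals and a rational functional -/
noncomputable def z6_form (r d : ℕ) (reg : List ℕ → ℝ) : Module.Dual ℚ ℝ →ₗ[ℚ] Pn r :=
  ∑ a ∈ Finset.Nat.antidiagonalTuple r d,
    (monomial (Finsupp.equivFunOnFinite.symm a)) ∘ₗ
      (LinearMap.applyₗ (reg (List.ofFn fun i => a i + 1)))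

open MvPolynomial in
theorem z6_form_apply (r d : ℕ) (reg : List ℕ → ℝ) (ψ : Module.Dual ℚ ℝ) :
    z6_form r d reg ψ = ∑ a ∈ Finset.Nat.antidiagonalTuple r d,
      monomial (Finsupp.equivFunOnFinite.symm a) (ψ (reg (List.ofFn fun i => a i + 1))) := by
  simp [z6_form, LinearMap.sum_apply]

open MvPolynomial in
theorem z6_form_mem (r d : ℕ) (reg : List ℕ → ℝ) (ψ : Module.Dual ℚ ℝ) :
    z6_form r d reg ψ ∈ Hd r d := by
  rw [z6_form_apply]
  refine Submodule.sum_mem _ fun a ha => ?_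
  rw [mem_homogeneousSubmodule]
  refine isHomogeneous_monomial _ ?_
  rw [Finset.Nat.mem_antidiagonalTuple] at ha
  rw [Finsupp.degree_eq_sum, ← ha]
  rfl

open MvPolynomial in
theorem z6_ev (r d : ℕ) (reg : List ℕ → ℝ) (ψ : Module.Dual ℚ ℝ) (t : List ℚ)
    (ht : t.length = r) : ev (z6_form r d reg ψ) t = ψ (gen t reg d) := by
  have h1 : t = List.ofFn fun i : Fin r => t.getD i 0 := by
    subst ht
    apply List.ext_getElem
    · simp
    · intro i h1 h2
      simp [List.getD_eq_getElem?_getD]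
  conv_rhs => rw [h1, gen_ofFn]
  rw [ev, z6_form_apply, map_sum, map_sum]
  refine Finset.sum_congr rfl fun a _ => ?_
  rw [eval_monomial, map_smul, smul_eq_mul, mul_comm, Finsupp.prod_fintype _ _ (by simp)]
  rfl

open MvPolynomial in
theorem z6_coeff (r d : ℕ) (reg : List ℕ → ℝ) (ψ : Module.Dual ℚ ℝ)
    (h : z6_form r d reg ψ = 0) (a : Fin r → ℕ) (ha : ∑ i, a i = d) :
    ψ (reg (List.ofFn fun i => a i + 1)) = 0 := by
  classical
  have h2 := congrArg (coeff (Finsupp.equivFunOnFinite.symm a)) h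
  rw [z6_form_apply, coeff_sum, Finset.sum_eq_single a] at h2
  · simpa using h2
  · intro b _ hb
    rw [coeff_monomial, if_neg]
    intro hh
    exact hb (Finsupp.equivFunOnFinite.symm.injective hh)
  · intro hn
    exact absurd (Finset.Nat.mem_antidiagonalTuple.2 ha) hn

theorem z6_kill (r d : ℕ) (hr : 2 ≤ r) (reg : List ℕ → ℝ) (hreg : ∀ w, Adm w → reg w = mzv w)
    (ψ : Module.Dual ℚ ℝ) (h : z6_form r d reg ψ = 0)
    (hD : ∀ x ∈ Dec r (d + r), ψ x = 0) : ∀ x ∈ Fil r (d + r), ψ x = 0 := by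
  have : Fil r (d + r) ≤ LinearMap.ker ψ := by
    rw [Fil, Submodule.span_le]
    rintro x ⟨w, hw, hs, hl, rfl⟩
    rw [SetLike.mem_coe, LinearMap.mem_ker]
    rcases hl.lt_or_eq with hl | hl
    · apply hD
      refine Submodule.mem_sup_left ?_
      obtain ⟨r', rfl⟩ : ∃ r', r = r' + 1 := ⟨r - 1, by omega⟩
      exact Submodule.subset_span ⟨w, hw, hs, by omega, rfl⟩
    · subst hl
      have hw1 : (List.ofFn fun i : Fin w.length => (w[i] - 1) + 1) = w := by
        apply List.ext_getElem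
        · simp
        · intro i h1 h2
          have := hw.1 w[i] (List.getElem_mem h2)
          simp only [List.getElem_ofFn, Fin.getElem_fin]
          omega
      have hsum : ∑ i : Fin w.length, (w[i] - 1) = d := by
        have h3 := congrArg List.sum hw1
        rw [List.sum_ofFn, Finset.sum_add_distrib, hs] at h3
        simp only [Finset.sum_const, Finset.card_univ, Fintype.card_fin, smul_eq_mul,
          mul_one] at h3
        omega
      have := z6_coeff _ d reg ψ h (fun i => w[i] - 1) hsum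
      rwa [hw1, hreg w hw] at this
  exact fun x hx => this hx

theorem exists_compl (r d : ℕ) (hr : 2 ≤ r) : ∃ G : Submodule ℚ ℝ, G ≤ Fil r (d + r) ∧
    Fil r (d + r) ≤ Dec r (d + r) ⊔ G ∧ Module.finrank ℚ G ≤ Module.finrank ℚ (DS r d) := by
  obtain ⟨reg, hreg, -, hsh⟩ := exists_reg
  obtain ⟨C, hC⟩ := Submodule.exists_isCompl (Dec r (d + r))
  set G : Submodule ℚ ℝ := C ⊓ Fil r (d + r) with hG
  have := fin_Fil r (d + r)
  have : FiniteDimensional ℚ G := Submodule.finiteDimensional_of_le inf_le_right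
  have : FiniteDimensional ℚ (DS r d) := fin_of_le (d := d) fun f hf => hf.1
  refine ⟨G, inf_le_right, ?_, ?_⟩
  · rw [hG, ← sup_inf_assoc_of_le _ (Dec_le r (d + r)), hC.sup_eq_top, top_inf_eq]
  obtain ⟨ρ, hρ⟩ := LinearMap.exists_leftInverse_of_injective G.subtype G.ker_subtype
  let π : ℝ →ₗ[ℚ] G := ρ ∘ₗ C.subtype ∘ₗ C.projectionOnto _ hC.symm
  have hπ0 : ∀ x ∈ Dec r (d + r), π x = 0 := fun x hx => by
    simp only [π, LinearMap.comp_apply]
    rw [Submodule.projectionOnto_apply_of_mem_right hC.symm hx]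
    simp
  have hπ1 : ∀ x : G, π x = x := fun x => by
    simp only [π, LinearMap.comp_apply]
    have := Submodule.projectionOnto_apply_left hC.symm ⟨x, x.2.1⟩
    simp only at this
    rw [this]
    exact LinearMap.congr_fun hρ x
  let F : Module.Dual ℚ G →ₗ[ℚ] Pn r := z6_form r d reg ∘ₗ π.dualMap
  have hF : ∀ φ, F φ ∈ DS r d := fun φ => by
    refine ⟨z6_form_mem r d reg _, fun u v hu hv huv => ?_⟩
    obtain ⟨h1, h2⟩ := hsh u v d hu hv
    rw [huv] at h1 h2
    have hl : ∀ w ∈ shuf u v, w.length = r := fun w hw => by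
      rw [(mem_shuf hw).length_eq, List.length_append, huv]
    constructor
    · have := congrArg φ (hπ0 _ h1)
      rw [map_zero, map_list_sum, map_list_sum, List.map_map, List.map_map] at this
      rw [← this]
      congr 1
      refine List.map_congr_left fun w hw => ?_
      exact z6_ev r d reg _ w (hl w hw)
    · have := congrArg φ (hπ0 _ h2)
      rw [map_zero, map_list_sum, map_list_sum, List.map_map, List.map_map] at this
      rw [← this]
      congr 1
      refine List.map_congr_left fun w hw => ?_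
      exact z6_ev r d reg _ _ ((psum_length w).trans (hl w hw))
  have hinj : Function.Injective (F.codRestrict (DS r d) hF) := by
    rw [injective_iff_map_eq_zero]
    intro φ hφ
    have h0 : z6_form r d reg (π.dualMap φ) = 0 := congrArg Subtype.val hφ
    have hk := z6_kill r d hr reg hreg _ h0 fun x hx => by
      rw [LinearMap.dualMap_apply, hπ0 x hx, map_zero]
    ext x
    have := hk x x.2.2
    rwa [LinearMap.dualMap_apply, hπ1] at this
  rw [← Subspace.dual_finrank_eq]
  exact LinearMap.finrank_le_finrank_of_injective hinj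

theorem exists_gens (r : ℕ) (hr : 2 ≤ r) (s : PowerSeries ℚ)
    (hs : ∀ d, (Module.finrank ℚ (DS r d) : ℚ) ≤ PowerSeries.coeff d s) :
    ∃ G : Gr, Gens r G ∧ Bd G (PowerSeries.X ^ r * s) := by
  choose G h1 h2 h3 using fun d => exists_compl r d hr
  refine ⟨PowerSeries.mk fun k => if r ≤ k then G (k - r) else ⊥, fun k => ?_, fun k => ?_⟩
  · rw [PowerSeries.coeff_mk]
    split_ifs with hk
    · have e : k - r + r = k := by omega
      have a1 := h1 (k - r)
      have a2 := h2 (k - r)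
      rw [e] at a1 a2
      exact ⟨a1, a2⟩
    · exact ⟨bot_le, (Fil_le_prev (by omega) (by omega)).trans
        (le_sup_left.trans le_sup_left)⟩
  · rw [PowerSeries.coeff_mk, PowerSeries.coeff_X_pow_mul']
    by_cases hk : r ≤ k
    · rw [if_pos hk, if_pos hk]
      have := fin_Fil r (k - r + r)
      exact ⟨Submodule.finiteDimensional_of_le (h1 _),
        le_trans (by exact_mod_cast h3 (k - r)) (hs _)⟩
    · rw [if_neg hk, if_neg hk]
      exact ⟨inferInstance, by simp⟩

end Pool.Agent.MP_cbe134_nt.V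

end
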