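import Pool.Agent.Mg.Fcbe134.G4ded4e

/- Finite identities checked by evaluation: the complementary idempotent. -/

namespace Pool.Agent.MP_cbe134_nt.V

theorem k_eEy : chkG (gmul (gmul (gmul (gmul eD [(1, JY)]) shY1) eD) [(1, JYi)] ++
    gsm (-1) eEy) = true := by decide +kernel

theorem k_eEx : chkG (gmul (gmul (gmul (gmul eD [(1, JX)]) shX1) eD) [(1, JXi)] ++
    gsm (-1) eEx) = true := by decide +kernel

theorem k_killY : chkG (gmul shY1 eEy) = true ∧ chkG (gmul shY2 eEy) = true := by
  decide +kernel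

theorem k_killX : chkG (gmul shX1 eEx) = true ∧ chkG (gmul shX2 eEx) = true := by
  decide +kernel

theorem k_absY : chkG (gmul eD eEy ++ gsm (-10) eEy) = true := by decide +kernel

theorem k_absX : chkG (gmul eD eEx ++ gsm (-10) eEx) = true := by decide +kernel

theorem k_sumY : chkG (eEy ++ gmul (gmul [(1, JYi)] eEy) [(1, JY)] ++ gsm (-20) eD) = true := by
  decide +kernel

theorem k_sumX : chkG (eEx ++ gmul (gmul [(1, JXi)] eEx) [(1, JX)] ++ gsm (-20) eD) = true := by
  decide +kernel

end Pool.Agent.MP_cbe134_nt.V
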