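import Mathlib

section

/- Formal power series operators: integration against `2 du / sqrt (1 - u²)` and `2 du / u`. -/

open Finset PowerSeries

namespace Pool.Agent.MP_cbe134_nt

/-- coefficients of the inverse square root of `1 - u²` -/
noncomputable def sc : ℕ → ℝ
  | 0 => 1
  | 1 => 0
  | n + 2 => sc n * (n + 1) / (n + 2)

/-- the inverse square root of `1 - u²` -/
noncomputable def ss : ℝ⟦X⟧ := mk sc

/-- integration against `2 du / sqrt (1 - u²)` -/
noncomputable def Jop : Module.End ℝ ℝ⟦X⟧ where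
  toFun g := mk fun m => 2 * coeff (m - 1) (ss * g) / m
  map_add' f g := by ext m; simp only [coeff_mk, mul_add, map_add]; ring
  map_smul' c f := by
    ext m
    simp only [coeff_mk, mul_smul_comm, map_smul, RingHom.id_apply, smul_eq_mul]
    ring

/-- integration against `2 du / u` -/
noncomputable def Cop : Module.End ℝ ℝ⟦X⟧ where
  toFun g := mk fun m => 2 * coeff m g / m
  map_add' f g := by ext m; simp only [coeff_mk, mul_add, map_add]; ring
  map_smul' c f := by ext m; simp only [coeff_mk, map_smul, RingHom.id_apply, smul_eq_mul]; ring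

lemma coeff_Jop (g : ℝ⟦X⟧) (m : ℕ) : coeff m (Jop g) = 2 * coeff (m - 1) (ss * g) / m :=
  coeff_mk m fun m => 2 * coeff (m - 1) (ss * g) / m

lemma coeff_Cop (g : ℝ⟦X⟧) (m : ℕ) : coeff m (Cop g) = 2 * coeff m g / m :=
  coeff_mk m fun m => 2 * coeff m g / m

lemma cc_Jop (g : ℝ⟦X⟧) : constantCoeff (Jop g) = 0 := by
  rw [← coeff_zero_eq_constantCoeff_apply, coeff_Jop]; simp

lemma cc_Cop (g : ℝ⟦X⟧) : constantCoeff (Cop g) = 0 := by
  rw [← coeff_zero_eq_constantCoeff_apply, coeff_Cop]; simp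

lemma d_Jop (g : ℝ⟦X⟧) : d⁄dX ℝ (Jop g) = 2 * (ss * g) := by
  ext m
  have : ((m + 1 : ℕ) : ℝ) ≠ 0 := by positivity
  rw [coeff_derivative, coeff_Jop, two_mul (ss * g), map_add, Nat.add_sub_cancel]
  push_cast at this ⊢
  field_simp
  ring

lemma coeff_X_mul_d (g : ℝ⟦X⟧) (m : ℕ) : coeff m (X * d⁄dX ℝ g) = m * coeff m g := by
  cases m with
  | zero => simp
  | succ m => rw [coeff_succ_X_mul, coeff_derivative]; push_cast; ring

lemma d_Cop (g : ℝ⟦X⟧) (hg : constantCoeff g = 0) : X * d⁄dX ℝ (Cop g) = 2 * g := by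
  ext m
  rw [coeff_X_mul_d, coeff_Cop, two_mul g, map_add]
  cases m with
  | zero => simp [hg]
  | succ m =>
    have : ((m + 1 : ℕ) : ℝ) ≠ 0 := by positivity
    field_simp
    ring

lemma ext_X_d {f g : ℝ⟦X⟧} (h : X * d⁄dX ℝ f = X * d⁄dX ℝ g)
    (hc : constantCoeff f = constantCoeff g) : f = g :=
  derivative.ext (mul_left_cancel₀ X_ne_zero h) hc

/-- the series `2 arcsin u` -/
noncomputable def Th : ℝ⟦X⟧ := Jop 1

lemma d_Th : d⁄dX ℝ Th = 2 * ss := by rw [Th, d_Jop, mul_one]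

lemma cc_Th : constantCoeff Th = 0 := cc_Jop 1

lemma Th_mul_J (g : ℝ⟦X⟧) : Th * Jop g = Jop (Th * g) + Jop (Jop g) := by
  refine derivative.ext ?_ (by simp [cc_Jop])
  rw [Derivation.leibniz, map_add, d_Jop, d_Jop, d_Jop, d_Th, smul_eq_mul, smul_eq_mul]
  ring

lemma Th_mul_C (g : ℝ⟦X⟧) (hg : constantCoeff g = 0) :
    Th * Cop g = Cop (Th * g) + Jop (Cop g) := by
  refine ext_X_d ?_ (by simp [cc_Jop, cc_Cop])
  rw [Derivation.leibniz, map_add, mul_add, mul_add, d_Cop _ (by simp [hg]), d_Jop, d_Th,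
    smul_eq_mul, smul_eq_mul]
  linear_combination Th * d_Cop g hg

lemma Th_mul_Jpow (n : ℕ) (g : ℝ⟦X⟧) :
    Th * (Jop ^ n) g = (Jop ^ n) (Th * g) + (n : ℝ) • (Jop ^ (n + 1)) g := by
  induction n with
  | zero => simp
  | succ n ih =>
    rw [pow_succ', Module.End.mul_apply, Th_mul_J, ih, map_add, map_smul, pow_succ' Jop (n + 1),
      pow_succ' Jop n]
    simp only [Module.End.mul_apply]
    push_cast
    rw [add_smul, one_smul, add_assoc]

lemma ss_ode : (1 - X ^ 2) * d⁄dX ℝ ss = X * ss := by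
  have : (1 - X ^ 2) * d⁄dX ℝ ss = d⁄dX ℝ ss - X * (X * d⁄dX ℝ ss) := by ring
  rw [this]
  ext m
  cases m with
  | zero =>
    rw [map_sub, coeff_derivative]
    simp [ss, sc]
  | succ m =>
    rw [map_sub, coeff_succ_X_mul, coeff_succ_X_mul, coeff_X_mul_d, coeff_derivative]
    simp only [ss, coeff_mk, sc]
    push_cast
    have : (m : ℝ) + 2 ≠ 0 := by positivity
    field_simp
    ring

lemma ss_sq : (1 - X ^ 2) * ss ^ 2 = 1 := by
  refine derivative.ext ?_ ?_
  · rw [Derivation.leibniz, map_sub, derivative_pow, derivative_pow, derivative_X, derivative_one,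
      smul_eq_mul, smul_eq_mul]
    push_cast
    linear_combination 2 * ss * ss_ode
  · simp [ss, sc, ← coeff_zero_eq_constantCoeff_apply, sq, coeff_mul]

lemma JJ_ode (g : ℝ⟦X⟧) :
    (1 - X ^ 2) * d⁄dX ℝ (d⁄dX ℝ (Jop (Jop g))) = X * d⁄dX ℝ (Jop (Jop g)) + 4 * g := by
  rw [d_Jop, two_mul, map_add, Derivation.leibniz, d_Jop, smul_eq_mul, smul_eq_mul]
  linear_combination 2 * Jop g * ss_ode + 4 * g * ss_sq

lemma JJ_rec (g : ℝ⟦X⟧) (m : ℕ) :
    ((m : ℝ) + 2) * (m + 1) * coeff (m + 2) (Jop (Jop g)) =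
      (m : ℝ) ^ 2 * coeff m (Jop (Jop g)) + 4 * coeff m g := by
  have h := JJ_ode g
  set h0 := Jop (Jop g)
  have e : d⁄dX ℝ (d⁄dX ℝ h0) = X * d⁄dX ℝ (X * d⁄dX ℝ h0) + C 4 * g := by
    rw [Derivation.leibniz, derivative_X, smul_eq_mul, smul_eq_mul, map_ofNat]
    linear_combination h
  have := congrArg (coeff m) e
  rw [map_add, coeff_X_mul_d, coeff_X_mul_d, coeff_derivative, coeff_derivative, coeff_C_mul]
    at this
  push_cast at this
  linear_combination this

lemma JJ_one (g : ℝ⟦X⟧) : coeff 1 (Jop (Jop g)) = 0 := by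
  rw [coeff_Jop]
  simp [cc_Jop]

lemma sc_nonneg : ∀ n, 0 ≤ sc n
  | 0 => by simp [sc]
  | 1 => by simp [sc]
  | n + 2 => by
    have := sc_nonneg n
    simp only [sc]
    positivity

lemma sc_even_pos : ∀ n, 0 < sc (2 * n)
  | 0 => by simp [sc]
  | n + 1 => by
    have := sc_even_pos n
    rw [show 2 * (n + 1) = 2 * n + 2 by ring]
    simp only [sc]
    positivity

lemma sc_sq_le : ∀ n, sc n ^ 2 * (n + 1) ≤ 1
  | 0 => by simp [sc]
  | 1 => by simp [sc]
  | n + 2 => by
    have h := sc_sq_le n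
    simp only [sc]
    push_cast
    refine le_trans ?_ h
    have h2 : (0 : ℝ) < (n : ℝ) + 2 := by positivity
    rw [div_pow, div_mul_eq_mul_div, div_le_iff₀ (by positivity)]
    have : 0 ≤ sc n ^ 2 * (n + 1) := by positivity
    nlinarith

/-- `g` represents the sequence `c` -/
def Rep (g : ℝ⟦X⟧) (c : ℕ → ℝ) : Prop :=
  ∀ n, coeff (2 * n) g * sc (2 * n) = c n ∧ coeff (2 * n + 1) g = 0

lemma rep_one : Rep 1 fun n => if n = 0 then 1 else 0 := by
  intro n
  cases n with
  | zero => simp [sc, coeff_one]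
  | succ n => simp [coeff_one]

lemma Rep.cop {g : ℝ⟦X⟧} {c : ℕ → ℝ} (h : Rep g c) : Rep (Cop g) fun n => (n : ℝ)⁻¹ * c n := by
  intro n
  beta_reduce
  rw [coeff_Cop, coeff_Cop, (h n).2, ← (h n).1]
  refine ⟨?_, by simp⟩
  rcases Nat.eq_zero_or_pos n with rfl | hn
  · simp
  · push_cast
    field_simp

lemma Rep.jj {g : ℝ⟦X⟧} {c : ℕ → ℝ} (h : Rep g c) :
    Rep (Jop (Jop g)) fun n => ((n : ℝ)⁻¹) ^ 2 * ∑ m ∈ range n, c m := by
  have key : ∀ n : ℕ, (n : ℝ) ^ 2 * (coeff (2 * n) (Jop (Jop g)) * sc (2 * n)) =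
      ∑ m ∈ range n, c m := by
    intro n
    induction n with
    | zero => simp
    | succ n ih =>
      rw [sum_range_succ, ← ih, ← (h n).1, show 2 * (n + 1) = 2 * n + 2 by ring]
      have := JJ_rec g (2 * n)
      simp only [sc]
      push_cast at this ⊢
      have h2 : (2 * (n : ℝ) + 2) ≠ 0 := by positivity
      field_simp
      linear_combination (sc (2 * n) / 2) * this
  intro n
  constructor
  · rcases Nat.eq_zero_or_pos n with rfl | hn
    · simp [cc_Jop]
    · beta_reduce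
      rw [← key n]
      field_simp
  · induction n with
    | zero => exact JJ_one g
    | succ n ih =>
      have := JJ_rec g (2 * n + 1)
      rw [ih, (h n).2] at this
      rw [show 2 * (n + 1) + 1 = 2 * n + 1 + 2 by ring]
      have h2 : (((2 * n + 1 : ℕ) : ℝ) + 2) * (((2 * n + 1 : ℕ) : ℝ) + 1) ≠ 0 := by positivity
      exact (mul_eq_zero.1 (by simpa using this)).resolve_left h2

end Pool.Agent.MP_cbe134_nt

end

section

/- Evaluation of series with nonnegative summable coefficients at `u = 1`. -/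

open Finset PowerSeries Filter Topology

namespace Pool.Agent.MP_cbe134_nt

/-- nonnegative summable coefficients -/
def Good (g : ℝ⟦X⟧) : Prop := (∀ m, 0 ≤ coeff m g) ∧ Summable fun m => coeff m g

/-- the value at `u = 1` -/
noncomputable def evl (g : ℝ⟦X⟧) : ℝ := ∑' m, coeff m g

lemma Good.one : Good 1 := by
  refine ⟨fun m => by rw [coeff_one]; split_ifs <;> norm_num, ?_⟩
  refine summable_of_ne_finset_zero (s := {0}) fun m hm => ?_
  rw [coeff_one, if_neg (by simpa using hm)]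

lemma Good.add {f g : ℝ⟦X⟧} (hf : Good f) (hg : Good g) : Good (f + g) :=
  ⟨fun m => by rw [map_add]; exact add_nonneg (hf.1 m) (hg.1 m),
    by simpa using hf.2.add hg.2⟩

lemma Good.smul {f : ℝ⟦X⟧} (hf : Good f) {c : ℝ} (hc : 0 ≤ c) : Good (c • f) :=
  ⟨fun m => by rw [map_smul]; exact mul_nonneg hc (hf.1 m), by simpa using hf.2.mul_left c⟩

lemma Good.evl_add {f g : ℝ⟦X⟧} (hf : Good f) (hg : Good g) : evl (f + g) = evl f + evl g := by
  simp only [evl, map_add]
  exact hf.2.tsum_add hg.2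

lemma evl_smul (c : ℝ) (f : ℝ⟦X⟧) : evl (c • f) = c * evl f := by
  simp only [evl, map_smul, smul_eq_mul]
  exact tsum_mul_left

lemma Good.sum {ι : Type*} (s : Finset ι) (f : ι → ℝ⟦X⟧) (h : ∀ i ∈ s, Good (f i)) :
    Good (∑ i ∈ s, f i) ∧ evl (∑ i ∈ s, f i) = ∑ i ∈ s, evl (f i) := by
  classical
  induction s using Finset.induction_on with
  | empty => simp [Good, evl, summable_zero]
  | insert a s ha ih =>
    have h1 := h a (mem_insert_self _ _)
    obtain ⟨h2, h3⟩ := ih fun i hi => h i (mem_insert_of_mem hi)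
    rw [sum_insert ha, sum_insert ha, h1.evl_add h2, h3]
    exact ⟨h1.add h2, rfl⟩

lemma Good.norm {f : ℝ⟦X⟧} (hf : Good f) : Summable fun m => ‖coeff m f‖ := by
  simpa [abs_of_nonneg (hf.1 _)] using hf.2

lemma Good.mul {f g : ℝ⟦X⟧} (hf : Good f) (hg : Good g) : Good (f * g) := by
  refine ⟨fun m => ?_, ?_⟩
  · rw [coeff_mul]
    exact sum_nonneg fun p _ => mul_nonneg (hf.1 _) (hg.1 _)
  · simp only [coeff_mul]
    exact (summable_norm_sum_mul_antidiagonal_of_summable_norm hf.norm hg.norm).of_norm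

lemma Good.evl_mul {f g : ℝ⟦X⟧} (hf : Good f) (hg : Good g) : evl (f * g) = evl f * evl g := by
  simp only [evl, coeff_mul]
  exact (tsum_mul_tsum_eq_tsum_sum_antidiagonal_of_summable_norm hf.norm hg.norm).symm

lemma Good.cop {g : ℝ⟦X⟧} (hg : Good g) : Good (Cop g) := by
  have h0 : ∀ m, 0 ≤ coeff m (Cop g) := fun m => by
    rw [coeff_Cop]
    have := hg.1 m
    positivity
  refine ⟨h0, Summable.of_nonneg_of_le h0 (fun m => ?_) (hg.2.mul_left 2)⟩
  rw [coeff_Cop]
  have := hg.1 m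
  rcases Nat.eq_zero_or_pos m with rfl | hm
  · simpa using this
  · exact div_le_self (by positivity) (by exact_mod_cast hm)

lemma sc_le (n : ℕ) : sc n ≤ ((n + 1 : ℝ) ^ (1 / 2 : ℝ))⁻¹ := by
  have h := sc_sq_le n
  have h1 : (0 : ℝ) < n + 1 := by positivity
  rw [← Real.sqrt_eq_rpow, ← Real.sqrt_inv]
  refine Real.le_sqrt_of_sq_le ?_
  rw [← one_div, le_div_iff₀ h1]
  exact h

lemma summable_sc : Summable fun n : ℕ => 2 * sc n / (n + 1) := by
  have hs : Summable fun n : ℕ => 2 * (((n + 1 : ℕ) : ℝ) ^ (3 / 2 : ℝ))⁻¹ :=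
    ((summable_nat_add_iff 1).2 (Real.summable_nat_rpow_inv.2 (by norm_num))).mul_left _
  refine Summable.of_nonneg_of_le (fun n => by have := sc_nonneg n; positivity) (fun n => ?_) hs
  have h1 : (0 : ℝ) < n + 1 := by positivity
  have h2 : (((n + 1 : ℕ) : ℝ) ^ (3 / 2 : ℝ))⁻¹ = ((n + 1 : ℝ) ^ (1 / 2 : ℝ))⁻¹ / (n + 1) := by
    push_cast
    rw [show (3 / 2 : ℝ) = 1 / 2 + 1 by norm_num, Real.rpow_add h1, Real.rpow_one]
    field_simp
  rw [h2, mul_div_assoc]
  gcongr
  exact sc_le n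

lemma tendsto_sc : Tendsto sc atTop (𝓝 0) := by
  refine squeeze_zero sc_nonneg sc_le ?_
  refine tendsto_inv_atTop_zero.comp ((tendsto_rpow_atTop (by norm_num)).comp ?_)
  exact tendsto_atTop_add_const_right _ 1 tendsto_natCast_atTop_atTop

lemma coeff_Th (m : ℕ) : coeff (m + 1) Th = 2 * sc m / (m + 1) := by
  rw [Th, coeff_Jop]
  simp [ss]

lemma good_Th : Good Th := by
  refine ⟨fun m => ?_, ?_⟩
  · cases m with
    | zero => simp [cc_Th]
    | succ m =>
      rw [coeff_Th]
      have := sc_nonneg m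
      positivity
  · rw [← summable_nat_add_iff 1]
    simpa only [coeff_Th] using summable_sc

/-- the Wallis integrals -/
noncomputable def Iw (i : ℕ) : ℝ := ∑' j, 2 * sc j / (i + j + 1)

lemma Iw_le (i j : ℕ) : 2 * sc j / (i + j + 1) ≤ 2 * sc j / (j + 1) := by
  have := sc_nonneg j
  gcongr
  linarith [(Nat.cast_nonneg i : (0 : ℝ) ≤ i)]

lemma summable_Iw (i : ℕ) : Summable fun j : ℕ => 2 * sc j / (i + j + 1) :=
  Summable.of_nonneg_of_le (fun j => by have := sc_nonneg j; positivity) (Iw_le i) summable_sc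

lemma Iw_zero : Iw 0 = evl Th := by
  rw [evl, good_Th.2.tsum_eq_zero_add]
  simp [coeff_Th, cc_Th, Iw]

lemma Iw_rec (i : ℕ) : ((i : ℝ) + 2) * Iw (i + 2) = (i + 1) * Iw i := by
  set T : ℕ → ℝ := fun j => j * sc j / (i + j + 1) with hT
  have hT0 : Tendsto T atTop (𝓝 0) := by
    refine squeeze_zero (fun j => by have := sc_nonneg j; simp only [hT]; positivity)
      (fun j => ?_) tendsto_sc
    have := sc_nonneg j
    simp only [hT]
    rw [div_le_iff₀ (by positivity)]
    nlinarith [(Nat.cast_nonneg i : (0 : ℝ) ≤ i)]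
  have h1 := ((summable_Iw (i + 2)).hasSum.mul_left ((i : ℝ) + 2)).sub
    ((summable_Iw i).hasSum.mul_left ((i : ℝ) + 1))
  have h2 : ∀ J, ∑ j ∈ range J, (((i : ℝ) + 2) * (2 * sc j / (((i + 2 : ℕ) : ℝ) + j + 1))
      - ((i : ℝ) + 1) * (2 * sc j / (i + j + 1))) = -2 * (T J + T (J + 1)) := by
    intro J
    induction J with
    | zero => simp [hT, sc]
    | succ J ih =>
      rw [sum_range_succ, ih]
      simp only [hT, sc]
      push_cast
      field_simp
      ring
  have h3 := h1.tendsto_sum_nat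
  simp only [h2] at h3
  have h4 := (hT0.add ((tendsto_add_atTop_iff_nat 1).2 hT0)).const_mul (-2)
  have := tendsto_nhds_unique h3 h4
  unfold Iw
  linarith

lemma Iw_even (n : ℕ) : Iw (2 * n) = evl Th * sc (2 * n) := by
  induction n with
  | zero => simp [Iw_zero, sc]
  | succ n ih =>
    have := Iw_rec (2 * n)
    rw [show 2 * (n + 1) = 2 * n + 2 by ring]
    simp only [sc]
    have h2 : (((2 * n : ℕ) : ℝ) + 2) ≠ 0 := by positivity
    field_simp
    rw [ih] at this
    linear_combination this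

lemma Good.hasSum_J {g : ℝ⟦X⟧} (hg : Good g) :
    Good (Jop g) ∧ HasSum (fun i => coeff i g * Iw i) (evl (Jop g)) := by
  set F : ℕ × ℕ → ℝ := fun p => coeff p.2 g * (2 * sc p.1 / (p.2 + p.1 + 1)) with hF
  have hF0 : ∀ p, 0 ≤ F p := fun p => by
    have := hg.1 p.2
    have := sc_nonneg p.1
    simp only [hF]
    positivity
  have hs : Summable F := by
    have h1 : Summable fun p : ℕ × ℕ => (2 * sc p.1 / (p.1 + 1)) * coeff p.2 g :=
      summable_mul_of_summable_norm (f := fun j : ℕ => 2 * sc j / (j + 1))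
        (g := fun i => coeff i g) summable_sc.norm hg.norm
    refine Summable.of_nonneg_of_le hF0 (fun p => ?_) h1
    simp only [hF]
    rw [mul_comm]
    exact mul_le_mul_of_nonneg_right (Iw_le _ _) (hg.1 _)
  have hc : ∀ m, coeff (m + 1) (Jop g) = ∑ p ∈ antidiagonal m, F p := by
    intro m
    rw [coeff_Jop, Nat.add_sub_cancel, coeff_mul, mul_sum, sum_div]
    refine sum_congr rfl fun p hp => ?_
    rw [← mem_antidiagonal.1 hp]
    simp only [hF, ss, coeff_mk]
    push_cast
    ring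
  have h1 : HasSum (fun m => coeff (m + 1) (Jop g)) (∑' p, F p) := by
    have := (Finset.HasAntidiagonal.sigmaAntidiagonalEquivProd.hasSum_iff.2 hs.hasSum).sigma
      (fun m => hasSum_fintype _)
    refine this.congr_fun fun m => ?_
    rw [hc, ← Finset.sum_finset_coe]
    rfl
  have h2 : HasSum (fun m => coeff m (Jop g)) (∑' p, F p) := by
    exact (hasSum_nat_add_iff' (f := fun m => coeff m (Jop g)) 1).1
      (by simpa [cc_Jop] using h1)
  refine ⟨⟨fun m => ?_, h2.summable⟩, ?_⟩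
  · cases m with
    | zero => simp [cc_Jop]
    | succ m => rw [hc]; exact sum_nonneg fun p _ => hF0 p
  · rw [evl, h2.tsum_eq]
    have h3 := ((Equiv.prodComm ℕ ℕ).hasSum_iff.2 hs.hasSum).prod_fiberwise
      (g := fun i => coeff i g * Iw i) fun i => (summable_Iw i).hasSum.mul_left _
    exact h3

lemma Good.jop {g : ℝ⟦X⟧} (hg : Good g) : Good (Jop g) := hg.hasSum_J.1

lemma Good.jpow {g : ℝ⟦X⟧} (hg : Good g) (n : ℕ) : Good ((Jop ^ n) g) := by
  induction n with
  | zero => exact hg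
  | succ n ih => rw [pow_succ', Module.End.mul_apply]; exact ih.jop

lemma evl_J_rep {g : ℝ⟦X⟧} {c : ℕ → ℝ} {S : ℝ} (hg : Good g) (h : Rep g c) (hc : HasSum c S) :
    evl (Jop g) = evl Th * S := by
  refine hg.hasSum_J.2.unique ?_
  have h1 : HasSum (fun n => coeff (2 * n) g * Iw (2 * n)) (evl Th * S) := by
    refine (hc.mul_left (evl Th)).congr_fun fun n => ?_
    rw [Iw_even, ← (h n).1]
    ring
  have h2 : HasSum (fun n => coeff (2 * n + 1) g * Iw (2 * n + 1)) 0 := by
    simp only [(h _).2, zero_mul]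
    exact hasSum_zero
  simpa using HasSum.even_add_odd (f := fun i => coeff i g * Iw i) h1 h2

lemma evl_Th_pos : 0 < evl Th := by
  refine good_Th.2.tsum_pos good_Th.1 1 ?_
  rw [coeff_Th 0]
  simp [sc]

end Pool.Agent.MP_cbe134_nt

end

section

/- Statement of the polynomial vanishing lemma (part D of the depth-drop theorem). -/

open MvPolynomial

namespace Pool.Agent.MP_cbe134_nt

/-- apolar pairing: `pair p f = (p(d) f)(0)` -/
noncomputable def pair {ι : Type} [Fintype ι] (p f : MvPolynomial ι ℚ) : ℚ :=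
  ∑ n ∈ p.support, coeff n p * coeff n f * ∏ i, ((n i).factorial : ℚ)

/-- the signed sum `∑ ± X i` -/
noncomputable def sgnSum {ι : Type} [Fintype ι] (η : ι → Bool) : MvPolynomial ι ℚ :=
  ∑ i, if η i then X i else - X i

/-- the product of the squares of all signed sums -/
noncomputable def Npoly (ι : Type) [Fintype ι] [DecidableEq ι] : MvPolynomial ι ℚ :=
  ∏ η : ι → Bool, sgnSum η ^ 2

/-- the translation derivative -/
noncomputable def Lop {ι : Type} [Fintype ι] (h : MvPolynomial ι ℚ) : MvPolynomial ι ℚ :=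
  ∑ i, pderiv i h

/-- Part D: the system `L^a h = 0`, `N(d) (X_T h(X^2)) = 0` has no homogeneous solution of
large degree. -/
def StmtD : Prop :=
  ∀ (ι : Type) [Fintype ι] [DecidableEq ι] (T : Finset ι) (a : ℕ), ∃ K : ℕ, ∀ n : ℕ, K < n →
    ∀ h : MvPolynomial ι ℚ, h.IsHomogeneous n → Lop^[a] h = 0 →
      (∀ q : MvPolynomial ι ℚ, pair (Npoly ι * q) ((∏ i ∈ T, X i) * expand 2 h) = 0) → h = 0

/-- Part E: the form of part D used in the main argument. -/
def StmtE : Prop :=
  ∀ l : ℕ, ∃ K : ℕ, ∀ d : ℕ, K < d → ∀ B : MvPolynomial (Fin (l + 1)) ℚ, B.IsHomogeneous d →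
    (∀ a ∈ B.support, a (Fin.last l) ≠ 0) →
    (∀ b : Fin (l + 1) →₀ ℕ, ∑ i : Fin (l + 1),
      (if i = 0 then (b i : ℚ) + 1 else (b i : ℚ)) * coeff (b + Finsupp.single i 1) B = 0) →
    (∀ q : MvPolynomial (Fin (l + 1)) ℚ,
      pair (Npoly (Fin (l + 1)) * X (Fin.last l) * q) (X 0 * expand 2 B) = 0) → B = 0

end Pool.Agent.MP_cbe134_nt

end

section

/- Vanishing orders at the sign points and the cone lemma. -/

open MvPolynomial Finset

namespace Pool.Agent.MP_cbe134_nt

namespace DAux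

variable {ι : Type} [Fintype ι] [DecidableEq ι]

/-- the maximal ideal of a point -/
noncomputable def mI (p : ι → ℚ) : Ideal (MvPolynomial ι ℚ) := RingHom.ker (eval p)

/-- the derivative in the direction `p` -/
noncomputable def Lp (p : ι → ℚ) (f : MvPolynomial ι ℚ) : MvPolynomial ι ℚ :=
  ∑ i, C (p i) * pderiv i f

/-- the sign vector -/
def sg (η : ι → Bool) (i : ι) : ℚ := if η i then 1 else -1

/-- the sign change -/
noncomputable def flip (η : ι → Bool) : MvPolynomial ι ℚ →ₐ[ℚ] MvPolynomial ι ℚ :=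
  aeval fun i => C (sg η i) * X i

omit [Fintype ι] [DecidableEq ι] in
theorem X_sub_mem (p : ι → ℚ) (i : ι) : X i - C (p i) ∈ mI p := by
  simp [mI, RingHom.mem_ker]

theorem map_mem_pow {R : Type} [CommRing R] (φ : R →+* R) {I J : Ideal R}
    (h : ∀ f ∈ I, φ f ∈ J) {k : ℕ} {f : R} (hf : f ∈ I ^ k) : φ f ∈ J ^ k := by
  have h1 := Ideal.mem_map_of_mem φ hf
  rw [Ideal.map_pow] at h1
  exact Ideal.pow_right_mono (Ideal.map_le_iff_le_comap.2 h) k h1

omit [Fintype ι] [DecidableEq ι] in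
theorem pderiv_mem_pow (I : Ideal (MvPolynomial ι ℚ)) (i : ι) (k : ℕ) :
    ∀ f ∈ I ^ (k + 1), pderiv i f ∈ I ^ k := by
  induction k with
  | zero => simp
  | succ k ih =>
    intro f hf
    rw [pow_succ] at hf
    refine Submodule.mul_induction_on hf (fun a ha b hb => ?_) (fun a b ha hb => ?_)
    · rw [pderiv_mul]
      refine add_mem ?_ (Ideal.mul_mem_right _ _ ha)
      rw [pow_succ]
      exact Ideal.mul_mem_mul (ih a ha) hb
    · rw [map_add]
      exact add_mem ha hb

omit [DecidableEq ι] in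
theorem Lp_mem_pow (I : Ideal (MvPolynomial ι ℚ)) (p : ι → ℚ) {k : ℕ} {f : MvPolynomial ι ℚ}
    (hf : f ∈ I ^ (k + 1)) : Lp p f ∈ I ^ k :=
  Ideal.sum_mem _ fun i _ => Ideal.mul_mem_left _ _ (pderiv_mem_pow I i k f hf)

omit [DecidableEq ι] in
theorem Lp_hom (p : ι → ℚ) {n : ℕ} {f : MvPolynomial ι ℚ} (hf : f.IsHomogeneous (n + 1)) :
    (Lp p f).IsHomogeneous n :=
  IsHomogeneous.sum _ _ _ fun _ _ => hf.pderiv.C_mul _

omit [Fintype ι] in
theorem pderiv_pderiv (i j : ι) (f : MvPolynomial ι ℚ) :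
    pderiv i (pderiv j f) = pderiv j (pderiv i f) := by
  ext m
  simp only [coeff_pderiv, Finsupp.add_apply, Finsupp.single_apply]
  rw [add_right_comm]
  by_cases h : i = j
  · subst h
    rfl
  · simp only [h, Ne.symm h, if_false, add_zero]
    ring

theorem pderiv_Lp (p : ι → ℚ) (i : ι) (f : MvPolynomial ι ℚ) :
    pderiv i (Lp p f) = Lp p (pderiv i f) := by
  simp only [Lp, map_sum, pderiv_C_mul, pderiv_pderiv i]

theorem pderiv_Lp_iter (p : ι → ℚ) (i : ι) (a : ℕ) (f : MvPolynomial ι ℚ) :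
    pderiv i ((Lp p)^[a] f) = (Lp p)^[a] (pderiv i f) := by
  induction a generalizing f with
  | zero => rfl
  | succ a ih => rw [Function.iterate_succ_apply, Function.iterate_succ_apply, ih, pderiv_Lp]

theorem mult_of_iter (p : ι → ℚ) (n : ℕ) : ∀ (a : ℕ) (h : MvPolynomial ι ℚ), h.IsHomogeneous n →
    (Lp p)^[a] h = 0 → h ∈ mI p ^ (n + 1 - a) := by
  induction n with
  | zero =>
    intro a h _ ha
    rcases a with _ | a
    · rw [Function.iterate_zero_apply] at ha
      rw [ha]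
      exact zero_mem _
    · simp
  | succ n ih =>
    intro a h hh ha
    rcases a with _ | a
    · rw [Function.iterate_zero_apply] at ha
      rw [ha]
      exact zero_mem _
    rcases Nat.lt_or_ge n a with hn | hn
    · rw [show n + 1 + 1 - (a + 1) = 0 by omega]
      simp
    have e1 : (C ((n + 1 : ℕ) : ℚ) : MvPolynomial ι ℚ) * h =
        ∑ i, (X i - C (p i)) * pderiv i h + Lp p h := by
      rw [Lp, ← sum_add_distrib, map_natCast, ← nsmul_eq_mul, ← hh.sum_X_mul_pderiv]
      exact sum_congr rfl fun i _ => by ring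
    have e2 : (C ((n + 1 : ℕ) : ℚ) : MvPolynomial ι ℚ) * h ∈ mI p ^ (n + 1 - a) := by
      rw [e1]
      refine add_mem (Ideal.sum_mem _ fun i _ => ?_) (ih a _ (Lp_hom p hh) ha)
      rw [show n + 1 - a = (n + 1 - (a + 1)) + 1 by omega, pow_succ']
      refine Ideal.mul_mem_mul (X_sub_mem p i) (ih (a + 1) _ hh.pderiv ?_)
      rw [← pderiv_Lp_iter, ha, map_zero]
    have e3 := Ideal.mul_mem_left _ (C (((n + 1 : ℕ) : ℚ)⁻¹)) e2
    rw [← mul_assoc, ← map_mul, inv_mul_cancel₀ (by positivity), map_one, one_mul] at e3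
    rwa [show n + 1 + 1 - (a + 1) = n + 1 - a by omega]

omit [Fintype ι] in
theorem pderiv_expand (i : ι) (f : MvPolynomial ι ℚ) :
    pderiv i (expand 2 f) = X i * (C 2 * expand 2 (pderiv i f)) := by
  induction f using MvPolynomial.induction_on with
  | C a => simp [expand_C]
  | add p q hp hq => simp only [map_add, hp, hq]; ring
  | mul_X p j h =>
    have : (C 2 : MvPolynomial ι ℚ) = 2 := rfl
    by_cases e : j = i
    · subst e
      simp only [map_mul, expand_X, pderiv_mul, h, pderiv_pow, pderiv_X_self, map_add, this,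
        map_one]
      push_cast
      ring
    · simp only [map_mul, expand_X, pderiv_mul, h, pderiv_pow, pderiv_X_of_ne e, map_add, this,
        map_zero]
      ring

omit [Fintype ι] [DecidableEq ι] in
theorem mem_of_X_mul (i : ι) (g : MvPolynomial ι ℚ) (j : ℕ) (h : X i * g ∈ mI 1 ^ j) :
    g ∈ mI (1 : ι → ℚ) ^ j := by
  induction j with
  | zero => simp
  | succ j ih =>
    have h1 := ih (Ideal.pow_le_pow_right (Nat.le_succ j) h)
    have h2 := Ideal.mul_mem_mul (X_sub_mem (1 : ι → ℚ) i) h1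
    rw [← pow_succ'] at h2
    have := sub_mem h h2
    rwa [show X i * g - (X i - C ((1 : ι → ℚ) i)) * g = g by simp [sub_mul]] at this

theorem even_zero (D : ℕ) : ∀ (k : ℕ) (ψ : MvPolynomial ι ℚ), ψ.IsHomogeneous D →
    expand 2 ψ ∈ mI 1 ^ k → D < k → ψ = 0 := by
  induction D with
  | zero =>
    intro k ψ h1 h2 h3
    rw [← totalDegree_zero_iff_isHomogeneous, totalDegree_eq_zero_iff_eq_C] at h1
    have := Ideal.pow_le_self (by omega) h2
    rw [h1, expand_C, mI, RingHom.mem_ker, eval_C] at this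
    rw [h1, this, map_zero]
  | succ D ih =>
    intro k ψ h1 h2 h3
    obtain ⟨k, rfl⟩ : ∃ k', k = k' + 1 := ⟨k - 1, by omega⟩
    have h4 : ∀ i, pderiv i ψ = 0 := fun i => by
      have e1 := pderiv_mem_pow _ i k _ h2
      rw [pderiv_expand] at e1
      have e2 := Ideal.mul_mem_left _ (C (2⁻¹ : ℚ)) (mem_of_X_mul i _ k e1)
      rw [← mul_assoc, ← map_mul, inv_mul_cancel₀ two_ne_zero, map_one, one_mul] at e2
      exact ih k _ h1.pderiv e2 (by omega)
    have h5 := h1.sum_X_mul_pderiv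
    simp only [h4, mul_zero, sum_const_zero] at h5
    exact (smul_eq_zero.1 h5.symm).resolve_left (Nat.succ_ne_zero D)

theorem coeff_flip (η : ι → Bool) (f : MvPolynomial ι ℚ) (d : ι →₀ ℕ) :
    coeff d (flip η f) = (∏ i, sg η i ^ d i) * coeff d f := by
  induction f using MvPolynomial.induction_on' with
  | add p q hp hq => simp only [map_add, coeff_add, hp, hq, mul_add]
  | monomial n a =>
    have : flip η (monomial n a) = monomial n ((∏ i, sg η i ^ n i) * a) := by
      rw [flip, aeval_monomial, monomial_eq, Finsupp.prod_fintype _ _ (by simp),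
        Finsupp.prod_fintype _ _ (by simp)]
      simp only [mul_pow, prod_mul_distrib, map_mul, map_prod, map_pow, algebraMap_eq]
      ring
    rw [this, coeff_monomial, coeff_monomial]
    split_ifs with h
    · rw [h]
    · rw [mul_zero]

omit [Fintype ι] [DecidableEq ι] in
theorem sg_beq (η θ : ι → Bool) (i : ι) : sg (fun j => η j == θ j) i = sg θ i * sg η i := by
  rcases h1 : η i with _ | _ <;> rcases h2 : θ i with _ | _ <;> simp [sg, h1, h2]

theorem flip_flip (η θ : ι → Bool) (f : MvPolynomial ι ℚ) :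
    flip θ (flip η f) = flip (fun j => η j == θ j) f := by
  ext d
  simp only [coeff_flip, sg_beq, mul_pow, prod_mul_distrib, mul_assoc]

theorem flip_eq_zero {η : ι → Bool} {f : MvPolynomial ι ℚ} (h : flip η f = 0) : f = 0 := by
  ext d
  have := coeff_flip η f d
  rw [h, coeff_zero] at this
  refine (mul_eq_zero.1 this.symm).resolve_left (prod_ne_zero_iff.2 fun i _ => pow_ne_zero _ ?_)
  unfold sg
  split_ifs <;> norm_num

theorem flip_hom (η : ι → Bool) {n : ℕ} {f : MvPolynomial ι ℚ} (hf : f.IsHomogeneous n) :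
    (flip η f).IsHomogeneous n := fun d hd => by
  rw [coeff_flip] at hd
  exact hf (right_ne_zero_of_mul hd)

omit [Fintype ι] [DecidableEq ι] in
theorem flip_mem (η : ι → Bool) {k : ℕ} {f : MvPolynomial ι ℚ} (hf : f ∈ mI (sg η) ^ k) :
    flip η f ∈ mI 1 ^ k := by
  refine map_mem_pow (flip η).toRingHom (fun g hg => ?_) hf
  have : (eval (1 : ι → ℚ)).comp (flip η).toRingHom = eval (sg η) := by
    ext <;> simp [flip]
  rw [mI, RingHom.mem_ker] at hg ⊢
  rw [← hg, ← this]
  rfl

omit [Fintype ι] [DecidableEq ι] in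
theorem expand_mem (η : ι → Bool) {k : ℕ} {f : MvPolynomial ι ℚ} (hf : f ∈ mI 1 ^ k) :
    expand 2 f ∈ mI (sg η) ^ k := by
  refine map_mem_pow (expand 2 : MvPolynomial ι ℚ →ₐ[ℚ] _).toRingHom (fun g hg => ?_) hf
  have : (eval (sg η)).comp (expand 2 : MvPolynomial ι ℚ →ₐ[ℚ] _).toRingHom =
      eval (1 : ι → ℚ) := by
    ext i
    · simp [expand_C]
    · simp [sg]
  rw [mI, RingHom.mem_ker] at hg ⊢
  rw [← hg, ← this]
  rfl

theorem exists_half {Ψ : MvPolynomial ι ℚ} {N : ℕ} (h1 : Ψ.IsHomogeneous N)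
    (h2 : ∀ θ, flip θ Ψ = Ψ) :
    ∃ ψ : MvPolynomial ι ℚ, ψ.IsHomogeneous (N / 2) ∧ expand 2 ψ = Ψ := by
  have h3 : ∀ d ∈ Ψ.support, 2 • d.mapRange (· / 2) rfl = d := by
    intro d hd
    ext i
    have e1 := coeff_flip (fun j => decide (j ≠ i)) Ψ d
    rw [h2, prod_eq_single i (fun j _ hj => by simp [sg, hj]) (by simp)] at e1
    have e2 : Even (d i) := by
      by_contra h
      have e3 : sg (fun j => decide (j ≠ i)) i = -1 := by simp [sg]
      rw [e3, (Nat.not_even_iff_odd.1 h).neg_one_pow] at e1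
      exact mem_support_iff.1 hd (by linarith)
    simp only [Finsupp.smul_apply, Finsupp.mapRange_apply, smul_eq_mul]
    exact Nat.two_mul_div_two_of_even e2
  refine ⟨∑ d ∈ Ψ.support, monomial (d.mapRange (· / 2) rfl) (coeff d Ψ),
    IsHomogeneous.sum _ _ _ fun d hd => isHomogeneous_monomial _ ?_, ?_⟩
  · have e1 : d.degree = N := by
      by_contra h
      exact mem_support_iff.1 hd (h1.coeff_eq_zero h)
    rw [← h3 d hd, map_nsmul, smul_eq_mul] at e1
    omega
  · rw [map_sum]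
    conv_rhs => rw [Ψ.as_sum]
    exact sum_congr rfl fun d hd => by rw [expand_monomial, h3 d hd]

/-- A cone over one sign point with large multiplicity at all sign points is zero. -/
theorem cone_zero {G : MvPolynomial ι ℚ} {M m : ℕ} (η₀ : ι → Bool) (h1 : G.IsHomogeneous M)
    (h2 : Lp (sg η₀) G = 0) (h3 : ∀ η : ι → Bool, G ∈ mI (sg η) ^ m)
    (h4 : 2 ^ Fintype.card ι * M < 2 * ((2 ^ Fintype.card ι - 1) * m + M)) : G = 0 := by
  have hc : (univ : Finset (ι → Bool)).card = 2 ^ Fintype.card ι := by simp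
  have e1 : (∏ η, flip η G).IsHomogeneous (∑ _η : ι → Bool, M) :=
    IsHomogeneous.prod _ _ _ fun η _ => flip_hom η h1
  rw [sum_const, hc, smul_eq_mul] at e1
  obtain ⟨ψ, e2, e3⟩ := exists_half e1 fun θ => by
    rw [map_prod]
    simp only [flip_flip]
    have hb : Function.Involutive fun (η : ι → Bool) j => η j == θ j := by
      intro η
      funext j
      change ((η j == θ j) == θ j) = η j
      cases η j <;> cases θ j <;> rfl
    exact hb.bijective.prod_comp fun η => flip η G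
  have e4 : ∏ η, flip η G ∈ mI 1 ^ ((2 ^ Fintype.card ι - 1) * m + M) := by
    rw [← prod_erase_mul _ _ (mem_univ η₀), pow_add]
    refine Ideal.mul_mem_mul ?_ (flip_mem η₀ (mult_of_iter _ M 1 G h1 h2))
    have := Ideal.prod_mem_prod (s := univ.erase η₀) (I := fun _ => mI (1 : ι → ℚ) ^ m)
      (x := fun η => flip η G) fun η _ => flip_mem η (h3 η)
    rwa [prod_const, card_erase_of_mem (mem_univ _), hc, ← pow_mul, mul_comm] at this
  rw [← e3] at e4
  have e5 := even_zero _ _ ψ e2 e4 (by omega)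
  rw [e5, map_zero] at e3
  obtain ⟨η, -, hη⟩ := prod_eq_zero_iff.1 e3.symm
  exact flip_eq_zero hη

end DAux

end Pool.Agent.MP_cbe134_nt

end

section

/- The polynomial vanishing lemma with an explicit degree bound. -/

open MvPolynomial Finset

namespace Pool.Agent.MP_cbe134_nt

namespace DAux

variable {ι : Type} [Fintype ι] [DecidableEq ι]

omit [DecidableEq ι] in
theorem pair_eq {p : MvPolynomial ι ℚ} (f : MvPolynomial ι ℚ) {s : Finset (ι →₀ ℕ)}
    (hs : p.support ⊆ s) :
    pair p f = ∑ n ∈ s, coeff n p * coeff n f * ∏ i, ((n i).factorial : ℚ) :=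
  sum_subset hs fun n _ hn => by rw [notMem_support_iff.1 hn, zero_mul, zero_mul]

theorem pair_add (p q f : MvPolynomial ι ℚ) : pair (p + q) f = pair p f + pair q f := by
  rw [pair_eq f (support_add (p := p) (q := q)), pair_eq f (subset_union_left (s₂ := q.support)),
    pair_eq f (subset_union_right (s₁ := p.support)), ← sum_add_distrib]
  exact sum_congr rfl fun n _ => by rw [coeff_add]; ring

theorem pair_monomial (n : ι →₀ ℕ) (a : ℚ) (f : MvPolynomial ι ℚ) :
    pair (monomial n a) f = a * coeff n f * ∏ i, ((n i).factorial : ℚ) := by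
  rw [pair_eq f support_monomial_subset, sum_singleton, coeff_monomial, if_pos rfl]

theorem pair_X_mul (i : ι) (p f : MvPolynomial ι ℚ) :
    pair (X i * p) f = pair p (pderiv i f) := by
  induction p using MvPolynomial.induction_on' with
  | add p q hp hq => rw [mul_add, pair_add, pair_add, hp, hq]
  | monomial n a =>
    rw [X, monomial_mul, pair_monomial, pair_monomial, coeff_pderiv, one_mul,
      add_comm (Finsupp.single i 1), ← mul_prod_erase _ _ (mem_univ i),
      ← mul_prod_erase _ (fun j => ((n j).factorial : ℚ)) (mem_univ i),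
      prod_congr rfl (g := fun j => ((n j).factorial : ℚ)) fun j hj => by
        rw [Finsupp.add_apply, Finsupp.single_eq_of_ne (ne_of_mem_erase hj), add_zero]]
    simp only [Finsupp.add_apply, Finsupp.single_eq_same, Nat.factorial_succ]
    push_cast
    ring

theorem pair_sgnSum_mul (η : ι → Bool) (p f : MvPolynomial ι ℚ) :
    pair (sgnSum η * p) f = pair p (Lp (sg η) f) := by
  have h0 : pair (0 : MvPolynomial ι ℚ) f = 0 := by simp [pair]
  have h1 : ∀ (s : Finset ι) (g : ι → MvPolynomial ι ℚ),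
      pair (∑ i ∈ s, g i) f = ∑ i ∈ s, pair (g i) f := by
    intro s g
    induction s using Finset.induction_on with
    | empty => simpa using h0
    | insert a s ha ih => rw [sum_insert ha, sum_insert ha, pair_add, ih]
  have h2 : ∀ q : MvPolynomial ι ℚ, pair (-q) f = - pair q f := fun q => by
    rw [eq_neg_iff_add_eq_zero, ← pair_add, neg_add_cancel, h0]
  have h3 : pair p (Lp (sg η) f) = ∑ i, sg η i * pair p (pderiv i f) := by
    simp only [pair, Lp, coeff_sum, coeff_C_mul, mul_sum, sum_mul]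
    rw [sum_comm]
    exact sum_congr rfl fun i _ => sum_congr rfl fun n _ => by ring
  rw [sgnSum, sum_mul, h1, h3]
  refine sum_congr rfl fun i _ => ?_
  unfold sg
  split_ifs
  · rw [pair_X_mul, one_mul]
  · rw [neg_mul, h2, pair_X_mul, neg_one_mul]

theorem eq_zero_of_pair {f : MvPolynomial ι ℚ} (h : ∀ q, pair q f = 0) : f = 0 := by
  ext n
  have := h (monomial n 1)
  rw [pair_monomial, one_mul] at this
  exact (mul_eq_zero.1 this).resolve_right
    (prod_ne_zero_iff.2 fun i _ => Nat.cast_ne_zero.2 (Nat.factorial_ne_zero _))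

theorem peel {M m : ℕ}
    (h4 : 2 ^ Fintype.card ι * M < 2 * ((2 ^ Fintype.card ι - 1) * m + M))
    (s : Multiset (ι → Bool)) : ∀ G : MvPolynomial ι ℚ, G.IsHomogeneous (M + s.card) →
    (∀ η : ι → Bool, G ∈ mI (sg η) ^ (m + s.card)) →
    (∀ q, pair ((s.map sgnSum).prod * q) G = 0) → G = 0 := by
  induction s using Multiset.induction_on with
  | empty => exact fun G _ _ h => eq_zero_of_pair (by simpa using h)
  | cons η s ih =>
    intro G h1 h2 h3
    rw [Multiset.card_cons, ← add_assoc] at h1 h2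
    refine cone_zero η h1 (ih _ (Lp_hom _ h1) (fun θ => Lp_mem_pow _ _ (h2 θ)) fun q => ?_) h2 ?_
    · rw [← pair_sgnSum_mul, ← mul_assoc, ← h3 q, Multiset.map_cons, Multiset.prod_cons]
    · obtain ⟨Q, hQ⟩ : ∃ Q, 2 ^ Fintype.card ι = Q + 1 :=
        ⟨2 ^ Fintype.card ι - 1, (Nat.sub_add_cancel Nat.one_le_two_pow).symm⟩
      rw [hQ, Nat.add_sub_cancel] at h4 ⊢
      nlinarith

theorem peel_N {M m : ℕ}
    (h4 : 2 ^ Fintype.card ι * M < 2 * ((2 ^ Fintype.card ι - 1) * m + M))
    {G : MvPolynomial ι ℚ} (h1 : G.IsHomogeneous (M + 2 * 2 ^ Fintype.card ι))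
    (h2 : ∀ η : ι → Bool, G ∈ mI (sg η) ^ (m + 2 * 2 ^ Fintype.card ι))
    (h3 : ∀ q, pair (Npoly ι * q) G = 0) : G = 0 := by
  have hc : ((univ : Finset (ι → Bool)).val + univ.val).card = 2 * 2 ^ Fintype.card ι := by
    rw [Multiset.card_add, ← two_mul]
    simp
  refine peel h4 (univ.val + univ.val) G (hc ▸ h1) (hc ▸ h2) fun q => ?_
  rw [← h3 q, Multiset.map_add, Multiset.prod_add, Npoly, prod_pow, sq]
  rfl

theorem Lp_iter_sum (p : ι → ℚ) (a : ℕ) (s : Finset ι) (g : ι → MvPolynomial ι ℚ)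
    (h : ∀ i ∈ s, (Lp p)^[a] (g i) = 0) : (Lp p)^[a] (∑ i ∈ s, g i) = 0 := by
  induction a generalizing g with
  | zero => exact sum_eq_zero h
  | succ a ih =>
    have : Lp p (∑ i ∈ s, g i) = ∑ i ∈ s, Lp p (g i) := by
      simp only [Lp, map_sum, mul_sum]
      exact sum_comm
    rw [Function.iterate_succ_apply, this]
    exact ih _ h

theorem coeff_Lp_one (f : MvPolynomial ι ℚ) (b : ι →₀ ℕ) :
    coeff b (Lp 1 f) = ∑ i, coeff (b + Finsupp.single i 1) f * (b i + 1) := by
  simp [Lp, coeff_sum, coeff_pderiv]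

theorem iter_zero (s : Finset ι) : ∀ B : MvPolynomial ι ℚ,
    (∀ b, coeff b (Lp 1 B) = ∑ i ∈ s, coeff (b + Finsupp.single i 1) B) →
    (Lp 1)^[s.card + 1] B = 0 := by
  induction s using Finset.strongInduction with
  | H s ih =>
    intro B hB
    have e1 : Lp 1 B = ∑ i ∈ s, B.divMonomial (Finsupp.single i 1) := by
      ext b
      simp only [hB, coeff_sum, coeff_divMonomial, add_comm b]
    rw [Function.iterate_succ_apply, e1]
    refine Lp_iter_sum _ _ _ _ fun i hi => ?_
    rw [← card_erase_add_one hi]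
    refine ih _ (erase_ssubset hi) _ fun b => ?_
    have e2 := hB (Finsupp.single i 1 + b)
    rw [coeff_Lp_one, ← add_sum_erase _ _ hi, ← add_sum_erase _ _ (mem_univ i)] at e2
    rw [coeff_Lp_one, ← add_sum_erase _ _ (mem_univ i)]
    simp only [coeff_divMonomial, ← add_assoc]
    rw [sum_congr rfl (g := fun j => coeff (Finsupp.single i 1 + b + Finsupp.single j 1) B *
      ((b j : ℚ) + 1)) fun j hj => by
        rw [Finsupp.add_apply, Finsupp.single_eq_of_ne (ne_of_mem_erase hj), zero_add]] at e2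
    simp only [Finsupp.add_apply, Finsupp.single_eq_same] at e2
    push_cast at e2
    linarith

end DAux

open DAux

theorem stmtE_exp (l d : ℕ) (hd : 2 * 4 ^ (l + 1) ≤ d) (B : MvPolynomial (Fin (l + 1)) ℚ)
    (h1 : B.IsHomogeneous d) (h2 : ∀ a ∈ B.support, a (Fin.last l) ≠ 0)
    (h3 : ∀ b : Fin (l + 1) →₀ ℕ, ∑ i : Fin (l + 1),
      (if i = 0 then (b i : ℚ) + 1 else (b i : ℚ)) * coeff (b + Finsupp.single i 1) B = 0)
    (h4 : ∀ q : MvPolynomial (Fin (l + 1)) ℚ,
      pair (Npoly (Fin (l + 1)) * X (Fin.last l) * q) (X 0 * expand 2 B) = 0) : B = 0 := by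
  have hl : l + 1 < 2 ^ (l + 1) := Nat.lt_two_pow_self
  have h44 : 4 ^ (l + 1) = 2 ^ (l + 1) * 2 ^ (l + 1) := by rw [← mul_pow]; rfl
  obtain ⟨Q, hQ⟩ : ∃ Q, 2 ^ (l + 1) = Q + 1 :=
    ⟨2 ^ (l + 1) - 1, (Nat.sub_add_cancel Nat.one_le_two_pow).symm⟩
  rw [h44, hQ] at hd
  rw [hQ] at hl
  obtain ⟨m, rfl⟩ : ∃ m, d = m + 2 * (Q + 1) + 1 + l := ⟨d - (2 * (Q + 1) + 1 + l), by
    have : 2 * (Q + 1) + 1 + l ≤ d := by nlinarith
    omega⟩
  have e1 := iter_zero (univ.erase 0) B fun b => by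
    have := h3 b
    rw [← add_sum_erase _ _ (mem_univ 0), if_pos rfl,
      sum_congr rfl fun i hi => by rw [if_neg (ne_of_mem_erase hi)]] at this
    rw [coeff_Lp_one, ← add_sum_erase _ _ (mem_univ 0)]
    simp only [mul_comm (coeff _ B)]
    simp only [add_mul, one_mul, sum_add_distrib] at this ⊢
    linarith
  rw [card_erase_of_mem (mem_univ _), card_univ, Fintype.card_fin, Nat.add_sub_cancel] at e1
  have e2 := mult_of_iter _ _ _ B h1 e1
  rw [show m + 2 * (Q + 1) + 1 + l + 1 - (l + 1) = m + 2 * (Q + 1) + 1 by omega] at e2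
  have e3 : (expand 2 B).IsHomogeneous (2 * (m + 2 * (Q + 1) + 1 + l)) :=
    h1.aeval (fun i => X i ^ 2) fun i => isHomogeneous_X_pow i 2
  have e4 : pderiv (Fin.last l) (X 0 * expand 2 B) = 0 := by
    refine peel_N (M := 2 * m + 2 * (Q + 1) + 2 + 2 * l) (m := m) ?_ ?_ (fun η => ?_) fun q => ?_
    · rw [Fintype.card_fin, hQ, Nat.add_sub_cancel]
      nlinarith
    · have := ((isHomogeneous_X ℚ 0).mul e3).pderiv (i := Fin.last l)
      rw [Fintype.card_fin, hQ]
      convert this using 1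
      omega
    · rw [Fintype.card_fin, hQ]
      exact pderiv_mem_pow _ _ _ _ (Ideal.mul_mem_left _ _ (expand_mem η e2))
    · rw [← pair_X_mul, ← h4 q, ← mul_assoc, mul_comm (X _)]
  ext a
  by_contra ha
  have e5 := h2 a (mem_support_iff.2 ha)
  have e6 : Finsupp.single (0 : Fin (l + 1)) 1 + 2 • a - Finsupp.single (Fin.last l) 1 +
      Finsupp.single (Fin.last l) 1 = Finsupp.single 0 1 + 2 • a :=
    Finsupp.sub_add_single_one_cancel (by
      simp only [Finsupp.add_apply, Finsupp.smul_apply, smul_eq_mul]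
      omega)
  have e7 := coeff_pderiv (i := Fin.last l) (X 0 * expand 2 B)
    (Finsupp.single 0 1 + 2 • a - Finsupp.single (Fin.last l) 1)
  rw [e4, e6, coeff_X_mul, coeff_expand_smul _ two_ne_zero, coeff_zero] at e7
  exact ha ((mul_eq_zero.1 e7.symm).resolve_right (by positivity))

theorem stmtE : StmtE := fun l =>
  ⟨2 * 4 ^ (l + 1), fun d hd B => stmtE_exp l d hd.le B⟩

end Pool.Agent.MP_cbe134_nt

end
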