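import Pool.Agent.MP_cbe134_nt.VD1

section

/- Basic facts on linear substitutions of polynomials. -/

open MvPolynomial Matrix

namespace Pool.Agent.MP_cbe134_nt.V

variable {n d : ℕ}

theorem eval_sub (A : Mx n) (f : Pn n) (x : Fin n → ℚ) :
    eval x (sub A f) = eval (mv A x) f := by
  induction f using MvPolynomial.induction_on with
  | C a => simp [sub]
  | add p q hp hq => simp only [map_add, hp, hq]
  | mul_X p i hp =>
    simp only [map_mul, hp]
    congr 1
    simp [sub, mv]

theorem mv_mul (A B : Mx n) (x : Fin n → ℚ) : mv (A * B) x = mv A (mv B x) := by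
  funext i
  simp only [mv, Matrix.mul_apply, Int.cast_sum, Int.cast_mul, Finset.sum_mul, Finset.mul_sum]
  rw [Finset.sum_comm]
  exact Finset.sum_congr rfl fun j _ => Finset.sum_congr rfl fun l _ => by ring

theorem mv_one (x : Fin n → ℚ) : mv (1 : Mx n) x = x := by
  funext i
  simp [mv, Matrix.one_apply]

theorem mv_neg (A : Mx n) (x : Fin n → ℚ) : mv (-A) x = -mv A x := by
  funext i
  simp [mv]

theorem mv_cast (A : Mx n) (v : Fin n → ℤ) :
    mv A (fun i => (v i : ℚ)) = fun i => ((A *ᵥ v) i : ℚ) := by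
  funext i
  simp [mv, Matrix.mulVec, dotProduct]

theorem mv_transv (i j : Fin n) (c : ℤ) (x : Fin n → ℚ) :
    mv (1 + Matrix.single i j c) x = Function.update x i (x i + c * x j) := by
  funext l
  simp only [mv, Matrix.add_apply, Int.cast_add, add_mul, Finset.sum_add_distrib]
  have h1 : ∑ m, ((1 : Mx n) l m : ℚ) * x m = x l := congrFun (mv_one x) l
  rw [h1]
  by_cases hl : l = i
  · subst hl
    simp [Matrix.single_apply]
  · simp [Matrix.single_apply, hl, Ne.symm hl]

theorem mv_refl (i : Fin n) (x : Fin n → ℚ) :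
    mv (Matrix.diagonal (Function.update 1 i (-1))) x = Function.update x i (-x i) := by
  funext l
  by_cases hl : l = i
  · subst hl
    simp [mv, Matrix.diagonal_apply]
  · simp [mv, Matrix.diagonal_apply, hl]

theorem poly_ext {f g : Pn n} (h : ∀ x : Fin n → ℚ, eval x f = eval x g) : f = g :=
  MvPolynomial.funext h

theorem sub_sub (A B : Mx n) (f : Pn n) : sub A (sub B f) = sub (B * A) f :=
  poly_ext fun x => by rw [eval_sub, eval_sub, eval_sub, mv_mul]

theorem sub_one (f : Pn n) : sub (1 : Mx n) f = f :=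
  poly_ext fun x => by rw [eval_sub, mv_one]

theorem sub_mem (A : Mx n) {f : Pn n} (hf : f ∈ Hd n d) : sub A f ∈ Hd n d := by
  have h := MvPolynomial.IsHomogeneous.aeval (n := 1) hf
    (fun i => ∑ j, C (A i j : ℚ) * X j : Fin n → Pn n) (fun i => by
      refine IsHomogeneous.sum _ _ _ fun j _ => ?_
      exact (isHomogeneous_X ℚ j).C_mul _)
  rw [one_mul] at h
  exact h

theorem eval_smul_Hd {f : Pn n} (hf : f ∈ Hd n d) (c : ℚ) (x : Fin n → ℚ) :
    eval (c • x) f = c ^ d * eval x f := by
  rw [eval_eq', eval_eq', Finset.mul_sum]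
  refine Finset.sum_congr rfl fun m hm => ?_
  have h1 : ∑ i, m i = d := by
    have h2 := hf (mem_support_iff.1 hm)
    rw [← h2, Finsupp.weight_apply, Finsupp.sum_fintype]
    · simp
    · simp
  simp only [Pi.smul_apply, smul_eq_mul, mul_pow, Finset.prod_mul_distrib,
    Finset.prod_pow_eq_pow_sum, h1]
  ring

theorem sub_neg (A : Mx n) {f : Pn n} (hf : f ∈ Hd n d) :
    sub (-A) f = ((-1 : ℚ) ^ d) • sub A f :=
  poly_ext fun x => by
    rw [eval_sub, mv_neg, smul_eval, eval_sub, ← eval_smul_Hd hf, neg_one_smul]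

theorem sub_neg_even (A : Mx n) {f : Pn n} (hf : f ∈ Hd n d) (hd : Even d) :
    sub (-A) f = sub A f := by
  rw [sub_neg A hf, hd.neg_one_pow, one_smul]

theorem sub_homogeneousComponent (A : Mx n) (m : ℕ) (f : Pn n) :
    homogeneousComponent m (sub A f) = sub A (homogeneousComponent m f) := by
  conv_lhs => rw [← sum_homogeneousComponent f]
  rw [map_sum, map_sum]
  have h1 : ∀ i, homogeneousComponent m (sub A (homogeneousComponent i f)) =
      if m = i then sub A (homogeneousComponent i f) else 0 := fun i =>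
    homogeneousComponent_of_mem (sub_mem A (homogeneousComponent_mem i f))
  simp only [h1, Finset.sum_ite_eq]
  split_ifs with h
  · rfl
  · rw [homogeneousComponent_eq_zero, map_zero]
    simpa [Nat.lt_succ_iff] using h

instance fin_Hd (n d : ℕ) : FiniteDimensional ℚ (Hd n d) := by
  have h : Hd n d ≤ restrictTotalDegree (Fin n) ℚ d := fun f hf =>
    (mem_restrictTotalDegree _ _ _).2 (IsHomogeneous.totalDegree_le hf)
  exact Submodule.finiteDimensional_of_le h

theorem fin_of_le {L : Submodule ℚ (Pn n)} (h : L ≤ Hd n d) : FiniteDimensional ℚ L :=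
  Submodule.finiteDimensional_of_le h

/-- The restriction of a polynomial to a coordinate line. -/
theorem vpoly_line (f : Pn n) (i : Fin n) (x : Fin n → ℚ) :
    ∃ p : Polynomial ℚ, ∀ t, p.eval t = eval (Function.update x i t) f := by
  induction f using MvPolynomial.induction_on with
  | C a => exact ⟨Polynomial.C a, fun t => by simp⟩
  | add p q hp hq =>
    obtain ⟨p', hp⟩ := hp
    obtain ⟨q', hq⟩ := hq
    exact ⟨p' + q', fun t => by rw [Polynomial.eval_add, map_add, hp, hq]⟩
  | mul_X p l hp =>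
    obtain ⟨p', hp⟩ := hp
    by_cases hl : l = i
    · subst hl
      exact ⟨p' * Polynomial.X, fun t => by simp [hp]⟩
    · exact ⟨p' * Polynomial.C (x l), fun t => by simp [hp, hl]⟩

/-- A periodic polynomial is constant. -/
theorem vpoly_per (p : Polynomial ℚ) {a : ℚ} (ha : a ≠ 0)
    (h : ∀ t, p.eval (t + a) = p.eval t) (s t : ℚ) : p.eval s = p.eval t := by
  have h1 : ∀ m : ℕ, p.eval (t + m * a) = p.eval t := by
    intro m
    induction m with
    | zero => simp
    | succ m ih => rw [← ih, ← h (t + m * a)]; congr 1; push_cast; ring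
  have h2 : p = Polynomial.C (p.eval t) := by
    refine Polynomial.eq_of_infinite_eval_eq _ _ ?_
    refine Set.infinite_of_injective_forall_mem (f := fun m : ℕ => t + m * a) ?_ fun m => ?_
    · intro m m' e
      have e' : (m : ℚ) = m' := mul_right_cancel₀ ha (add_left_cancel e)
      exact_mod_cast e'
    · simp [h1 m]
  rw [h2]
  simp

theorem vpoly_shift {f : Pn n} {i : Fin n} (x : Fin n → ℚ) {a : ℚ} (ha : a ≠ 0)
    (h : ∀ t, eval (Function.update x i (t + a)) f = eval (Function.update x i t) f)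
    (t : ℚ) : eval (Function.update x i t) f = eval x f := by
  obtain ⟨p, hp⟩ := vpoly_line f i x
  have h1 := vpoly_per p ha (fun t => by rw [hp, hp, h]) t (x i)
  rwa [hp, hp, Function.update_eq_self] at h1

theorem indep_of_shift {f : Pn n} {i : Fin n}
    (h : ∀ x : Fin n → ℚ, eval (Function.update x i (x i + 1)) f = eval x f)
    (x : Fin n → ℚ) (t : ℚ) : eval (Function.update x i t) f = eval x f := by
  refine vpoly_shift x one_ne_zero (fun s => ?_) t
  have h1 := h (Function.update x i s)
  rwa [Function.update_self, Function.update_idem] at h1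

/-- Substitution of a constant for one variable. -/
theorem vpoly_upd (f : Pn n) (i : Fin n) (t : ℚ) (x : Fin n → ℚ) :
    eval x (aeval (Function.update (X : Fin n → Pn n) i (C t)) f) =
      eval (Function.update x i t) f := by
  induction f using MvPolynomial.induction_on with
  | C a => simp
  | add p q hp hq => simp only [map_add, hp, hq]
  | mul_X p l hp =>
    simp only [map_mul, hp]
    congr 1
    by_cases hl : l = i
    · subst hl
      simp
    · simp [hl]

theorem indep_of_transv {f : Pn n} {i j : Fin n} (hij : i ≠ j) {c : ℤ} (hc : c ≠ 0)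
    (h : sub (1 + Matrix.single i j c) f = f) (x : Fin n → ℚ) (t : ℚ) :
    eval (Function.update x i t) f = eval x f := by
  have h1 : ∀ y : Fin n → ℚ, y j ≠ 0 → eval (Function.update y i t) f = eval y f := by
    intro y hy
    refine vpoly_shift y (a := c * y j) (mul_ne_zero (Int.cast_ne_zero.2 hc) hy) (fun s => ?_) t
    have h2 := eval_sub (1 + Matrix.single i j c) f (Function.update y i s)
    rw [h, mv_transv, Function.update_self, Function.update_idem,
      Function.update_of_ne hij.symm] at h2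
    exact h2.symm
  have h2 : (aeval (Function.update (X : Fin n → Pn n) i (C t)) f - f) * X j = 0 := by
    refine poly_ext fun y => ?_
    rw [map_mul, map_sub, vpoly_upd, eval_X, map_zero]
    by_cases hy : y j = 0
    · rw [hy, mul_zero]
    · rw [h1 y hy, sub_self, zero_mul]
  have h3 := sub_eq_zero.1 ((mul_eq_zero.1 h2).resolve_right (X_ne_zero j))
  rw [← vpoly_upd, h3]

theorem indep_of_transv_pm {f : Pn n} {i j : Fin n} (hij : i ≠ j) {c : ℤ} (hc : c ≠ 0)
    {ε : ℚ} (hε : ε * ε = 1) (h : sub (1 + Matrix.single i j c) f = ε • f) (x : Fin n → ℚ)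
    (t : ℚ) : eval (Function.update x i t) f = eval x f := by
  refine indep_of_transv hij (c := c + c) (by omega) ?_ x t
  have h1 : (1 + Matrix.single i j (c + c) : Mx n) =
      (1 + Matrix.single i j c) * (1 + Matrix.single i j c) := by
    rw [add_mul, mul_add, mul_add, one_mul, one_mul, mul_one,
      Matrix.single_mul_single_of_ne _ _ _ _ hij.symm, Matrix.single_add, add_zero, add_assoc]
  rw [h1, ← sub_sub, h, map_smul, h, smul_smul, hε, one_smul]

theorem kill {f : Pn n} {i j : Fin n} (hij : i ≠ j) {c : ℤ} (hc : c ≠ 0)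
    (h1 : sub (1 + Matrix.single i j c) f = f)
    (h2 : sub (Matrix.diagonal (Function.update 1 i (-1))) f = -f) : f = 0 := by
  refine poly_ext fun x => ?_
  have h3 := eval_sub (Matrix.diagonal (Function.update 1 i (-1))) f x
  rw [h2, mv_refl, indep_of_transv hij hc h1, map_neg] at h3
  rw [map_zero]
  linarith

theorem not_mem_vars {f : Pn n} {i : Fin n}
    (h : ∀ (x : Fin n → ℚ) (t : ℚ), eval (Function.update x i t) f = eval x f) :
    i ∉ f.vars := by
  have h1 : f = bind₁ (Function.update (X : Fin n → Pn n) i (C 0)) f :=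
    poly_ext fun x => ((vpoly_upd f i 0 x).trans (h x 0)).symm
  intro hi
  rw [h1] at hi
  obtain ⟨l, -, hl⟩ := mem_vars_bind₁ _ _ hi
  by_cases e : l = i
  · subst e
    simp at hl
  · rw [Function.update_of_ne e, vars_X, Finset.mem_singleton] at hl
    exact e hl.symm

theorem eq_zero_of_indep {f : Pn n} (hf : f ∈ Hd n d) (hd : 0 < d)
    (h : ∀ (i : Fin n) (x : Fin n → ℚ) (t : ℚ), eval (Function.update x i t) f = eval x f) :
    f = 0 := by
  have h1 : f.vars = ∅ := Finset.eq_empty_of_forall_notMem fun i => not_mem_vars (h i)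
  refine poly_ext fun x => ?_
  have h2 : eval x f = eval ((0 : ℚ) • x) f :=
    eval₂Hom_congr' rfl (fun i hi => absurd hi (by simp [h1])) rfl
  rw [h2, eval_smul_Hd hf, zero_pow hd.ne', zero_mul, map_zero]

end Pool.Agent.MP_cbe134_nt.V

end

section

/- The apolar pairing and the dimension count for the intersection of two eigenspaces. -/

open MvPolynomial Matrix

namespace Pool.Agent.MP_cbe134_nt.V

/-- the apolar pairing `∑ α! f_α g_α` -/
noncomputable def Bp (n : ℕ) : Pn n →ₗ[ℚ] Pn n →ₗ[ℚ] ℚ :=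
  (basisMonomials (Fin n) ℚ).constr ℚ fun α =>
    (α.prod fun _ k => (k.factorial : ℚ)) • lcoeff ℚ α

variable {n d : ℕ}

theorem apol_mon (α : Fin n →₀ ℕ) (c : ℚ) (g : Pn n) :
    Bp n (monomial α c) g = c * (∏ i, ((α i).factorial : ℚ)) * coeff α g := by
  have h1 : Bp n (monomial α 1) = (α.prod fun _ k => (k.factorial : ℚ)) • lcoeff ℚ α := by
    rw [Bp, ← (basisMonomials (Fin n) ℚ).constr_basis ℚ
      (fun α => (α.prod fun _ k => (k.factorial : ℚ)) • lcoeff ℚ α) α, coe_basisMonomials]
  have h2 : (monomial α c : Pn n) = c • monomial α 1 := by rw [smul_monomial, smul_eq_mul, mul_one]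
  rw [h2, map_smul, h1, Finsupp.prod_fintype _ _ (by simp)]
  simp [mul_assoc]

theorem apol_X (i : Fin n) (f g : Pn n) : Bp n (f * X i) g = Bp n f (pderiv i g) := by
  induction f using MvPolynomial.induction_on' with
  | add p q hp hq => rw [add_mul, map_add, map_add, LinearMap.add_apply, LinearMap.add_apply, hp, hq]
  | monomial α c =>
    have h1 : ∏ j, (((α + Finsupp.single i 1 : Fin n →₀ ℕ) j).factorial : ℚ) =
        (∏ j, ((α j).factorial : ℚ)) * (α i + 1) := by
      rw [← Finset.mul_prod_erase _ _ (Finset.mem_univ i),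
        ← Finset.mul_prod_erase _ (fun j => ((α j).factorial : ℚ)) (Finset.mem_univ i),
        Finset.prod_congr rfl (g := fun j => ((α j).factorial : ℚ)) fun j hj => by
          simp [Finsupp.single_apply, (Finset.ne_of_mem_erase hj).symm]]
      simp only [Finsupp.add_apply, Finsupp.single_eq_same, Nat.factorial_succ]
      push_cast
      ring
    rw [X, monomial_mul, mul_one, apol_mon, apol_mon, coeff_pderiv, h1]
    ring

theorem apol_chain (A : Mx n) (i : Fin n) (g : Pn n) :
    pderiv i (sub A g) = ∑ j, (A j i : ℚ) • sub A (pderiv j g) := by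
  induction g using MvPolynomial.induction_on with
  | C a => simp [sub]
  | add p q hp hq => simp only [map_add, hp, hq, smul_add, Finset.sum_add_distrib]
  | mul_X p k hp =>
    have h1 : pderiv i (sub A (X k)) = C (A k i : ℚ) := by
      simp [sub, Pi.single_apply]
    have h2 : ∑ j, (A j i : ℚ) • sub A (p * pderiv j (X k : Pn n)) = sub A p * C (A k i : ℚ) := by
      rw [Finset.sum_eq_single k (fun j _ hj => by rw [pderiv_X_of_ne hj.symm]; simp) (by simp),
        pderiv_X_self, mul_one, smul_eq_C_mul, mul_comm]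
    simp only [pderiv_mul, map_add, smul_add, Finset.sum_add_distrib, h2]
    rw [map_mul, pderiv_mul, hp, h1, Finset.sum_mul]
    simp only [map_mul, smul_mul_assoc]

theorem Bp_sub (A : Mx n) (f g : Pn n) : Bp n (sub Aᵀ f) g = Bp n f (sub A g) := by
  induction f using MvPolynomial.induction_on generalizing g with
  | C a =>
    have h1 : coeff 0 (sub A g) = coeff 0 g := by
      have h2 := eval_sub A g 0
      rw [show mv A 0 = 0 from funext fun i => by simp [mv], eval_zero, constantCoeff_eq] at h2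
      exact h2
    rw [show sub Aᵀ (C a) = C a by simp [sub], C_apply, apol_mon, apol_mon, h1]
  | add p q hp hq => simp only [map_add, LinearMap.add_apply, hp, hq]
  | mul_X p i hp =>
    have h1 : sub Aᵀ (p * X i) = ∑ j, (A j i : ℚ) • (sub Aᵀ p * X j) := by
      rw [map_mul, show sub Aᵀ (X i) = ∑ j, C (A j i : ℚ) * X j by simp [sub], Finset.mul_sum]
      exact Finset.sum_congr rfl fun j _ => by rw [smul_eq_C_mul]; ring
    rw [h1, apol_X, apol_chain]
    simp only [map_sum, map_smul, LinearMap.sum_apply, LinearMap.smul_apply, apol_X, hp]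

theorem apol_def {f : Pn n} (h : Bp n f f = 0) : f = 0 := by
  have h1 : Bp n f f = ∑ α ∈ f.support, coeff α f * (∏ i, ((α i).factorial : ℚ)) * coeff α f := by
    conv_lhs => enter [1, 2]; rw [f.as_sum]
    simp only [map_sum, LinearMap.sum_apply, apol_mon]
  have h2 : ∀ α : Fin n →₀ ℕ, 0 < ∏ i, ((α i).factorial : ℚ) := fun α => by positivity
  rw [h1, Finset.sum_eq_zero_iff_of_nonneg fun α _ => by
    rw [mul_right_comm]; exact mul_nonneg (mul_self_nonneg _) (h2 α).le] at h
  by_contra h0
  obtain ⟨α, hα⟩ := support_nonempty.2 h0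
  have h3 := mem_support_iff.1 hα
  exact mul_ne_zero (mul_ne_zero h3 (h2 α).ne') h3 (h α hα)

theorem Bp_dim (L W : Submodule ℚ (Pn n)) (hL : L ≤ Hd n d) (hW : W ≤ Hd n d)
    (h : ∀ f ∈ L, ∀ g ∈ W, Bp n f g = 0) :
    Module.finrank ℚ L + Module.finrank ℚ W ≤ Module.finrank ℚ (Hd n d) := by
  have := fin_of_le hL
  have := fin_of_le hW
  have h1 : L ⊓ W = ⊥ := eq_bot_iff.2 fun f hf => apol_def (h f hf.1 f hf.2)
  rw [← Submodule.finrank_sup_add_finrank_inf_eq, h1, finrank_bot, add_zero]
  exact Submodule.finrank_mono (sup_le hL hW)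

theorem red_dim (p : Pn n →ₗ[ℚ] Pn n) (hp : ∀ g ∈ Hd n d, p g ∈ Hd n d)
    (hpp : ∀ g ∈ Hd n d, p (p g) = p g) (L U Rx Ry : Submodule ℚ (Pn n)) (hL : L ≤ Hd n d)
    (hU : ∀ g, g ∈ U ↔ g ∈ Hd n d ∧ p g = g) (hx : Rx ≤ U) (hy : Ry ≤ U)
    (oN : ∀ f ∈ L, ∀ g ∈ Hd n d, p g = 0 → Bp n f g = 0)
    (ox : ∀ f ∈ L, ∀ g ∈ Rx, Bp n f g = 0) (oy : ∀ f ∈ L, ∀ g ∈ Ry, Bp n f g = 0) :
    Module.finrank ℚ L + Module.finrank ℚ Rx + Module.finrank ℚ Ry ≤
      Module.finrank ℚ U + Module.finrank ℚ (Rx ⊓ Ry : Submodule ℚ (Pn n)) := by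
  have hUH : U ≤ Hd n d := fun g hg => ((hU g).1 hg).1
  have hR : Rx ⊔ Ry ≤ U := sup_le hx hy
  have hN : Hd n d ⊓ LinearMap.ker p ≤ Hd n d := inf_le_left
  have := fin_of_le hUH
  have := fin_of_le hN
  have := fin_of_le (hx.trans hUH)
  have := fin_of_le (hy.trans hUH)
  have h1 : U ⊓ (Hd n d ⊓ LinearMap.ker p) = ⊥ :=
    eq_bot_iff.2 fun g hg => ((hU g).1 hg.1).2.symm.trans hg.2.2
  have h2 : Hd n d ≤ U ⊔ (Hd n d ⊓ LinearMap.ker p) := fun g hg => by
    rw [← add_sub_cancel (p g) g]
    exact Submodule.add_mem_sup ((hU _).2 ⟨hp g hg, hpp g hg⟩)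
      ⟨Submodule.sub_mem _ hg (hp g hg), by
        rw [SetLike.mem_coe, LinearMap.mem_ker, map_sub, hpp g hg, sub_self]⟩
  have h3 := Submodule.finrank_mono h2
  have h4 := Submodule.finrank_sup_add_finrank_inf_eq U (Hd n d ⊓ LinearMap.ker p)
  have h5 := Submodule.finrank_sup_add_finrank_inf_eq (Rx ⊔ Ry) (Hd n d ⊓ LinearMap.ker p)
  have h6 := Submodule.finrank_sup_add_finrank_inf_eq Rx Ry
  have h7 := Bp_dim L ((Rx ⊔ Ry) ⊔ (Hd n d ⊓ LinearMap.ker p)) hL (sup_le (hR.trans hUH) hN)
    fun f hf => (show _ ≤ LinearMap.ker (Bp n f) from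
      sup_le (sup_le (ox f hf) (oy f hf)) fun g hg => oN f hf g hg.1 hg.2)
  rw [eq_bot_iff.2 ((inf_le_inf_right _ hR).trans h1.le), finrank_bot] at h5
  omega

end Pool.Agent.MP_cbe134_nt.V

end
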