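import Pool.Agent.Mg.Fcbe134.Gb7408c
import Pool.Agent.Mg.Fcbe134.Gd82bf5

section

/- Finite identities checked by evaluation: the dihedral idempotent and the chains. -/

namespace Pool.Agent.MP_cbe134_nt.V

theorem k_idem : chkG (gmul eD eD ++ gsm (-10) eD) = true := by decide +kernel

theorem k_splitY : chkG (gmul (gmul eD shY1) eD ++
    gmul (gmul (gmul (gmul eD [(1, JY)]) shY1) eD) [(1, JYi)] ++ gsm (-20) eD) = true := by
  decide +kernel

theorem k_splitX : chkG (gmul (gmul eD shX1) eD ++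
    gmul (gmul (gmul (gmul eD [(1, JX)]) shX1) eD) [(1, JXi)] ++ gsm (-20) eD) = true := by
  decide +kernel

theorem k_zetaD : chkC (zeta ++ csm (-1) zetaD) = true := by decide +kernel

theorem k_zeta_sh : chkC (opC shY1 zetaD) = true := by decide +kernel

theorem k_zeta_eD : chkC (opC eD zetaD ++ csm (-10) zetaD) = true := by decide +kernel

theorem k_psi_eD : chkC (opC eD psiL ++ csm (-10) psiL) = true := by decide +kernel

theorem k_psi_sh : chkC (opC shX1 psiL) = true := by decide +kernel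

theorem k_facets : chkC (opC R5 [(1, e02 :: u0L), (1, e13 :: u0L)]) = true := by decide +kernel

theorem k_absorb : ∀ p ∈ eD, chkG (gmul eD [p] ++ gsm (-1) eD) = true := by decide +kernel

theorem k_refl : ∀ v ∈ pm minA, ∃ p ∈ eD, p.1 = -1 ∧ (p.2.app v).nrm = v.nrm := by
  decide +kernel

theorem k_det : (∀ p ∈ eD, p.2.det * p.2.det = 1) ∧ (∀ p ∈ shY1, p.2.det * p.2.det = 1) ∧
    (∀ p ∈ shX1, p.2.det * p.2.det = 1) ∧ (∀ p ∈ thc, p.2.det * p.2.det = 1) ∧
    ∀ p ∈ R5, p.2.det = 1 := by decide +kernel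

theorem k_thc : ∀ p ∈ thc, p.2.pb qAm = qAm := by decide +kernel

theorem k_R5 : R5 = [(1, M4.one), (1, rM), (1, rM.mul rM), (1, (rM.mul rM).mul rM),
    (1, ((rM.mul rM).mul rM).mul rM)] ∧ (((rM.mul rM).mul rM).mul rM).mul rM = M4.one ∧
    rM.pb q2m = q1m ∧ rM.pb qAm = qAm := by decide +kernel

theorem k_flip : chkC [(1, k0L.map sigM.app), (1, ef :: tauL)] = true := by decide +kernel

theorem k_m1 : chkG (gmul (gmul eD eps8) R5 ++ gsm (-1) m1) = true := by decide +kernel

theorem k_m2 : chkG (gmul shY1 m1 ++ gsm (-20) (gmul shY1 eD)) = true := by decide +kernel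

end Pool.Agent.MP_cbe134_nt.V

end

section

/- Reduction of the double shuffle space in depth four to the intersection of two eigenspaces. -/

open Matrix

namespace Pool.Agent.MP_cbe134_nt.V

/-- the value at a point given by four coordinates -/
noncomputable def l9F (f : Pn 4) (a b c e : ℚ) : ℚ := MvPolynomial.eval ![a, b, c, e] f

theorem l9_ev (f : Pn 4) (a b c e : ℚ) : ev f [a, b, c, e] = l9F f a b c e := by
  unfold ev l9F
  congr 2
  funext i
  fin_cases i <;> rfl

theorem l9_self (f : Pn 4) (x : Fin 4 → ℚ) :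
    MvPolynomial.eval x f = l9F f (x 0) (x 1) (x 2) (x 3) := by
  unfold l9F
  congr 2
  funext i
  fin_cases i <;> rfl

theorem l9_eval (A : M4) (f : Pn 4) (x : Fin 4 → ℚ) : MvPolynomial.eval x (sub A.toM f) =
    l9F f (A.r0.a * x 0 + A.r0.b * x 1 + A.r0.c * x 2 + A.r0.d * x 3)
      (A.r1.a * x 0 + A.r1.b * x 1 + A.r1.c * x 2 + A.r1.d * x 3)
      (A.r2.a * x 0 + A.r2.b * x 1 + A.r2.c * x 2 + A.r2.d * x 3)
      (A.r3.a * x 0 + A.r3.b * x 1 + A.r3.c * x 2 + A.r3.d * x 3) := by
  rw [eval_sub, l9_self]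
  simp [mv, M4.toM, Fin.sum_univ_four]

theorem l9_rev {G : ℚ → ℚ → ℚ → ℚ → ℚ}
    (h1 : ∀ a b c e, G a b c e + G b a c e + G b c a e + G b c e a = 0)
    (h2 : ∀ a b c e, G a b c e + G a c b e + G a c e b + G c a b e + G c a e b + G c e a b = 0)
    (a b c e : ℚ) : G e c b a = -G a b c e := by
  linear_combination h1 a b c e - h2 b a c e + h1 e c b a

/-- `f` is fixed by the transpose of a signed matrix -/
def l9Fix (f : Pn 4) (p : ℤ × M4) : Prop := (p.1 : ℚ) • sub p.2.tr.toM f = f

theorem l9_mul {f : Pn 4} {p q : ℤ × M4} (hp : l9Fix f p) (hq : l9Fix f q) :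
    l9Fix f (p.1 * q.1, p.2.mul q.2) := by
  unfold l9Fix at *
  rw [toM_tr] at *
  rw [toM_mul, Matrix.transpose_mul, ← sub_sub, Int.cast_mul, mul_smul, ← map_smul, hq, hp]

theorem l9_len {f : Pn 4} (a : GR) (h : ∀ p ∈ a, l9Fix f p) :
    opR (gtr a) f = (a.length : ℚ) • f := by
  induction a with
  | nil => rw [gtr, List.map_nil, opR_nil, List.length_nil, Nat.cast_zero, zero_smul]
  | cons p a ih =>
    rw [gtr, List.map_cons, opR_cons, ← gtr, ih fun q hq => h q (List.mem_cons_of_mem _ hq),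
      List.length_cons, Nat.cast_succ, add_smul, one_smul, add_comm]
    exact congrArg _ (h p List.mem_cons_self)

theorem l9_idem {d : ℕ} (hd : Even d) {g : Pn 4} (hg : g ∈ Hd 4 d) :
    opR eD (opR eD g) = (10 : ℚ) • opR eD g := by
  have h := chkG_sound k_idem hd hg
  rw [opR_append, opR_gmul, opR_gsm] at h
  push_cast at h
  rwa [neg_smul, add_neg_eq_zero] at h

theorem l9_half {d : ℕ} (hd : Even d) {sh J Ji : GR}
    (h : chkG (gmul (gmul eD sh) eD ++ gmul (gmul (gmul (gmul eD J) sh) eD) Ji ++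
      gsm (-20) eD) = true) {U : Submodule ℚ (Pn 4)}
    (hU : ∀ g ∈ U, g ∈ Hd 4 d ∧ ((1 / 10 : ℚ) • opR eD) g = g) :
    Module.finrank ℚ U ≤ 2 * Module.finrank ℚ (Rsp sh d) := by
  have hR : Rsp sh d ≤ Hd 4 d := by
    rintro _ ⟨g, hg, rfl⟩
    rw [LinearMap.comp_apply]
    exact opR_mem _ (opR_mem _ hg)
  have := fin_of_le hR
  have h1 : U ≤ Rsp sh d ⊔ (Rsp sh d).map (opR Ji) := fun g hg => by
    obtain ⟨h2, h3⟩ := hU g hg
    have h4 := chkG_sound h hd h2
    simp only [opR_append, opR_gmul, opR_gsm] at h4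
    have h5 : g = (1 / 200 : ℚ) • (opR eD (opR sh (opR eD g)) +
        opR Ji (opR eD (opR sh (opR J (opR eD g))))) := by
      rw [LinearMap.smul_apply] at h3
      push_cast at h4
      linear_combination (norm := module) -h3 - (1 / 200 : ℚ) • h4
    rw [h5]
    exact Submodule.smul_mem _ _ (Submodule.add_mem_sup ⟨_, opR_mem _ h2, rfl⟩
      ⟨_, ⟨_, opR_mem _ (opR_mem _ h2), rfl⟩, rfl⟩)
  have h2 := Submodule.finrank_mono h1
  have h3 := Submodule.finrank_add_le_finrank_add_finrank (Rsp sh d) ((Rsp sh d).map (opR Ji))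
  have h4 := Submodule.finrank_map_le (opR Ji) (Rsp sh d)
  omega

theorem ds4_rel {d : ℕ} {f : Pn 4} (hf : f ∈ DS 4 d) :
    opR (gtr shY1) f = 0 ∧ opR (gtr shX1) f = 0 ∧ sub fM.tr.toM f = -f ∧
      sub gM.tr.toM f = -f := by
  have y1 : ∀ a b c e, l9F f a b c e + l9F f b a c e + l9F f b c a e + l9F f b c e a = 0 := by
    intro a b c e
    have h := (hf.2 [a] [b, c, e] (by simp) (by simp) rfl).1
    simp only [shuf, List.map_cons, List.map_nil, List.cons_append, List.nil_append,
      List.sum_cons, List.sum_nil, l9_ev] at h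
    linear_combination h
  have y2 : ∀ a b c e, l9F f a b c e + l9F f a c b e + l9F f a c e b + l9F f c a b e +
      l9F f c a e b + l9F f c e a b = 0 := by
    intro a b c e
    have h := (hf.2 [a, b] [c, e] (by simp) (by simp) rfl).1
    simp only [shuf, List.map_cons, List.map_nil, List.cons_append, List.nil_append,
      List.sum_cons, List.sum_nil, l9_ev] at h
    linear_combination h
  let G : ℚ → ℚ → ℚ → ℚ → ℚ := fun a b c e => ev f (psum [a, b, c, e])
  have hG : ∀ a b c e, G a b c e = l9F f (a + b + c + e) (b + c + e) (c + e) e := by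
    intro a b c e
    simp only [G, psum, List.sum_cons, List.sum_nil, l9_ev, add_zero, add_assoc]
  have x1 : ∀ a b c e, G a b c e + G b a c e + G b c a e + G b c e a = 0 := by
    intro a b c e
    have h := (hf.2 [a] [b, c, e] (by simp) (by simp) rfl).2
    simp only [shuf, List.map_cons, List.map_nil, List.cons_append, List.nil_append,
      List.sum_cons, List.sum_nil] at h
    linear_combination h
  have x2 : ∀ a b c e, G a b c e + G a c b e + G a c e b + G c a b e +
      G c a e b + G c e a b = 0 := by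
    intro a b c e
    have h := (hf.2 [a, b] [c, e] (by simp) (by simp) rfl).2
    simp only [shuf, List.map_cons, List.map_nil, List.cons_append, List.nil_append,
      List.sum_cons, List.sum_nil] at h
    linear_combination h
  refine ⟨poly_ext fun t => ?_, poly_ext fun t => ?_, poly_ext fun t => ?_, poly_ext fun t => ?_⟩
  · simp [gtr, shY1, opR_cons, opR_nil, M4.tr, l9_eval]
    linear_combination y1 (t 0) (t 1) (t 2) (t 3)
  · have h := x1 (t 0 - t 1) (t 1 - t 2) (t 2 - t 3) (t 3)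
    simp only [hG] at h
    simp [gtr, shX1, opR_cons, opR_nil, M4.tr, l9_eval]
    linear_combination (norm := ring_nf) h
  · rw [l9_eval, map_neg, l9_self f t, ← l9_rev y1 y2]
    simp [fM, M4.tr]
  · have h := l9_rev x1 x2 (t 0 - t 1) (t 1 - t 2) (t 2 - t 3) (t 3)
    simp only [hG] at h
    rw [l9_eval, map_neg, l9_self f t]
    simp [gM, M4.tr]
    linear_combination (norm := ring_nf) h

theorem l9_rot {d : ℕ} {f : Pn 4} (hf : f ∈ DS 4 d) :
    sub rM.tr.toM f = ((-1 : ℚ) ^ d) • f := by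
  obtain ⟨-, -, h1, h2⟩ := ds4_rel hf
  have h3 : l9Fix f (-1, fM) := by
    rw [l9Fix, h1]
    simp
  have h4 : l9Fix f (-1, gM) := by
    rw [l9Fix, h2]
    simp
  have h5 := l9_mul h4 h3
  have e : rM.tr = (gM.mul fM).tr.neg := by decide
  rw [e, toM_neg, sub_neg _ hf.1]
  simpa [l9Fix] using congrArg (fun x => ((-1 : ℚ) ^ d) • x) h5

theorem ds4_odd {d : ℕ} (hd : Odd d) : DS 4 d = ⊥ := by
  refine eq_bot_iff.2 fun f hf => ?_
  have h1 : l9Fix f (-1, rM) := by
    rw [l9Fix, l9_rot hf, hd.neg_one_pow]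
    simp
  have h2 := l9_mul (l9_mul (l9_mul (l9_mul h1 h1) h1) h1) h1
  have e : M4.one.tr = M4.one := by decide
  rw [l9Fix, k_R5.2.1, e, toM_one, sub_one] at h2
  push_cast at h2
  change f = 0
  linear_combination (norm := module) (-1 / 2 : ℚ) • h2

theorem ds4_red {d : ℕ} (hd : Even d) : Module.finrank ℚ (DS 4 d) ≤
    Module.finrank ℚ (Rsp shX1 d ⊓ Rsp shY1 d : Submodule ℚ (Pn 4)) := by
  have hfix : ∀ f ∈ DS 4 d, opR (gtr eD) f = (10 : ℚ) • f := fun f hf => by
    have h0 : l9Fix f (1, M4.one) := by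
      have e : M4.one.tr = M4.one := by decide
      rw [l9Fix, e, toM_one, sub_one, Int.cast_one, one_smul]
    have h1 : l9Fix f (1, rM) := by
      rw [l9Fix, l9_rot hf, hd.neg_one_pow, Int.cast_one, one_smul, one_smul]
    have h2 : l9Fix f (-1, fM) := by
      rw [l9Fix, (ds4_rel hf).2.2.1]
      simp
    have h3 : ∀ p ∈ R5, l9Fix f p := by
      rw [k_R5.1]
      simp only [List.forall_mem_cons]
      have hm : ∀ {A : M4}, l9Fix f (1, A) → l9Fix f (1, A.mul rM) := fun h => by
        simpa only [mul_one] using l9_mul h h1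
      exact ⟨h0, h1, hm h1, hm (hm h1), hm (hm (hm h1)), fun _ h => absurd h List.not_mem_nil⟩
    have e : eD = gmul R5 [(1, M4.one), (-1, fM)] := by decide +kernel
    have e' : ((eD.length : ℕ) : ℚ) = 10 := by
      rw [show eD.length = 10 from rfl]
      norm_num
    rw [← e']
    refine l9_len eD fun p hp => ?_
    rw [e, gmul, List.mem_flatMap] at hp
    obtain ⟨q, hq, hp⟩ := hp
    obtain ⟨s, hs, rfl⟩ := List.mem_map.1 hp
    refine l9_mul (h3 q hq) ?_
    rcases List.mem_pair.1 hs with rfl | rfl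
    · exact h0
    · exact h2
  have hpp : ∀ g ∈ Hd 4 d, ((1 / 10 : ℚ) • opR eD) (opR eD g) = opR eD g := fun g hg => by
    rw [LinearMap.smul_apply, l9_idem hd hg, smul_smul]
    norm_num
  let U : Submodule ℚ (Pn 4) := Hd 4 d ⊓ LinearMap.eqLocus ((1 / 10 : ℚ) • opR eD) LinearMap.id
  have hR : ∀ sh, Rsp sh d ≤ U := by
    rintro sh _ ⟨g, hg, rfl⟩
    rw [LinearMap.comp_apply]
    exact ⟨opR_mem _ (opR_mem _ hg), hpp _ (opR_mem _ hg)⟩
  have ho : ∀ sh, ∀ f ∈ DS 4 d, opR (gtr sh) f = 0 → ∀ g ∈ Rsp sh d, Bp 4 f g = 0 := by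
    rintro sh f hf h _ ⟨g, -, rfl⟩
    rw [LinearMap.comp_apply, ← Bp_opR, hfix f hf, map_smul, LinearMap.smul_apply, ← Bp_opR, h,
      map_zero, LinearMap.zero_apply, smul_zero]
  have h := red_dim (d := d) ((1 / 10 : ℚ) • opR eD)
    (fun g hg => Submodule.smul_mem _ _ (opR_mem _ hg))
    (fun g hg => by rw [LinearMap.smul_apply _ _ g, map_smul, hpp g hg])
    (DS 4 d) U (Rsp shX1 d) (Rsp shY1 d) (fun f hf => hf.1) (fun g => Iff.rfl) (hR _) (hR _)
    (fun f hf g _ hg => by
      have h1 := Bp_opR eD f g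
      rw [LinearMap.smul_apply, smul_eq_zero_iff_right (by norm_num)] at hg
      rw [hfix f hf, hg, map_zero, map_smul, LinearMap.smul_apply,
        smul_eq_zero_iff_right (by norm_num)] at h1
      exact h1)
    (fun f hf => ho _ f hf (ds4_rel hf).2.1) (fun f hf => ho _ f hf (ds4_rel hf).1)
  have hx := l9_half hd k_splitX (U := U) fun g hg => hg
  have hy := l9_half hd k_splitY (U := U) fun g hg => hg
  omega

end Pool.Agent.MP_cbe134_nt.V

end
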