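import Pool.Agent.Mg.Fcbe134.G4485fd
import Pool.Agent.Mg.Fcbe134.G49cffa
import Pool.Agent.Mg.Fcbe134.Gdfa172
import Pool.Agent.MP_cbe134_nt.VD3
import Pool.Agent.Mg.Fcbe134.G70d310

section

/- The explicit cells: supports, the wheel and its cofaces. -/

open Matrix Finsupp

namespace Pool.Agent.MP_cbe134_nt.V

theorem l2_sub_mn (q : M4) {l : List V4} (h : ∀ v ∈ l, q.bil v v = 2) :
    (((l.map V4.at).toFinset : Finset Mt) : Set Mt) ⊆ Mn q.toM := by
  intro A hA
  rw [Finset.mem_coe, List.mem_toFinset, List.mem_map] at hA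
  obtain ⟨v, hv, rfl⟩ := hA
  exact ⟨⟨_, rfl⟩, by rw [← bil_at]; exact h v hv⟩

theorem l2_card {l : List V4} (h : (l.map V4.at).Nodup) :
    (l.map V4.at).toFinset.card = l.length := by
  rw [List.toFinset_card_of_nodup h, List.length_map]

theorem l2_cellA {l : List V4} (h : ∀ v ∈ l, qAm.bil v v = 2) (hn : l.length ≤ 9) :
    Cell (l.map V4.at).toFinset :=
  cell_of_qA (l2_sub_mn qAm h) ((List.toFinset_card_le _).trans (by rwa [List.length_map]))

theorem l2_cell33 : Cell (s33.map V4.at).toFinset :=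
  ⟨_, _, vert_q1, vert_q2, fun h => absurd (toM_inj h) (by decide),
    l2_sub_mn q1m (by decide), l2_sub_mn q2m (by decide)⟩

theorem l2_spans {z : CL} {n : ℕ} (hn' : 7 ≤ n)
    (h : chn z ∈ Sup fun S => Cell S ∧ S.card = n ∧ (S : Set Mt) ⊆ Mn qAm.toM) :
    chn z ∈ Sup Spans :=
  Sup_mono (fun _ hS => hS.1.spans (hS.2.1 ▸ hn')) h

theorem chn_mem_A {z : CL} {n : ℕ} (hn : n ≤ 9)
    (h : ∀ p ∈ z, p.2.length = n ∧ ∀ v ∈ p.2, v.nrm ∈ minA) :
    chn z ∈ Sup fun S => Cell S ∧ S.card = n ∧ (S : Set Mt) ⊆ Mn qAm.toM := by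
  refine chn_mem_Sup fun s hs hnd => ?_
  have hsub : (((s.2.map V4.at).toFinset : Finset Mt) : Set Mt) ⊆ Mn qAm.toM := by
    intro A hA
    rw [Finset.mem_coe, List.mem_toFinset, List.mem_map] at hA
    obtain ⟨v, hv, rfl⟩ := hA
    rw [mn_qA, Finset.mem_coe, List.mem_toFinset, ← at_nrm]
    exact List.mem_map_of_mem ((h s hs).2 v hv)
  have hc : (s.2.map V4.at).toFinset.card = n := (l2_card hnd).trans (h s hs).1
  exact ⟨cell_of_qA hsub (hc ▸ hn), hc, hsub⟩

theorem l2_zL :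
    chn zL ∈ Sup fun S => Cell S ∧ S.card = 8 ∧ (S : Set Mt) ⊆ Mn qAm.toM :=
  chn_mem_A (by norm_num) (by decide +kernel)

theorem zL_mem : chn zL ∈ Sup fun S => Cell S ∧ Spans S := by
  exact Sup_mono (fun _ hS => ⟨hS.1, hS.1.spans (by rw [hS.2.1]; norm_num)⟩) l2_zL

theorem zL_spans : chn zL ∈ Sup Spans := by
  exact Sup_mono (fun _ hS => hS.2) zL_mem

theorem bd_zL_spans : bd (chn zL) ∈ Sup Spans := by
  refine bd_mem_Sup (fun S a hS ha => ?_) l2_zL
  refine (hS.1.mono (Finset.erase_subset a S)).spans ?_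
  rw [Finset.card_erase_of_mem ha, hS.2.1]

theorem psi_spans : chn psiL ∈ Sup Spans := by
  exact l2_spans (n := 7) le_rfl (chn_mem_A (by norm_num) (by decide +kernel))

theorem zetaD_spans : chn zetaD ∈ Sup Spans := by
  exact l2_spans (n := 7) le_rfl (chn_mem_A (by norm_num) (by decide +kernel))

theorem k0_spans : br (k0L.map V4.at) ∈ Sup Spans := by
  exact br_mem_Sup fun h =>
    (l2_cellA (by decide) (by decide)).spans (by rw [l2_card h]; decide)

theorem tau_spans : br (tauL.map V4.at) ∈ Sup Spans := by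
  refine br_mem_Sup fun _ => ⟨1, by simp, fun i => ?_⟩
  have h : ∃ v ∈ tauL, (1 : Mt) i = v.toV := by
    revert i
    decide
  obtain ⟨v, hv, h⟩ := h
  rw [h, List.mem_toFinset]
  exact List.mem_map_of_mem hv

theorem u0_mem : br (u0L.map V4.at) ∈ Wc 8 := by
  exact br_mem_Sup fun h => ⟨l2_cellA (by decide) (by decide), l2_card h⟩

theorem s33_mem : br (s33.map V4.at) ∈ Wc 9 := by
  exact br_mem_Sup fun h => ⟨l2_cell33, l2_card h⟩

theorem fac02_mem : br ((e02 :: u0L).map V4.at) ∈ Wc 9 := by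
  exact br_mem_Sup fun h => ⟨l2_cellA (by decide) (by decide), l2_card h⟩

theorem fac13_mem : br ((e13 :: u0L).map V4.at) ∈ Wc 9 := by
  exact br_mem_Sup fun h => ⟨l2_cellA (by decide) (by decide), l2_card h⟩

theorem vert_u0 {q : Mt} (hq : Vert q)
    (h : (((u0L.map V4.at).toFinset : Finset Mt) : Set Mt) ⊆ Mn q) :
    q = qAm.toM ∨ q = q1m.toM ∨ q = q2m.toM := by
  obtain ⟨B, rfl⟩ := toM_surj q
  have hs : B.tr = B := toM_inj (by rw [toM_tr]; exact hq.symm)
  have h2 : ∀ v ∈ u0L, B.bil v v = 2 := fun v hv => by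
    rw [bil_at]
    exact (h (Finset.mem_coe.2 (List.mem_toFinset.2 (List.mem_map_of_mem hv)))).2
  have h3 : ∀ v : V4, v ≠ ⟨0, 0, 0, 0⟩ → 2 ≤ B.bil v v := fun v hv => by
    rw [bil_at]
    refine hq.two_le fun h0 => hv (toV_inj (h0.trans ?_))
    decide
  have ha := h3 e02 (by decide)
  have hb := h3 e13 (by decide)
  have hc := h3 w0 (by decide)
  obtain ⟨⟨a0, b0, c0, d0⟩, ⟨a1, b1, c1, d1⟩, ⟨a2, b2, c2, d2⟩, ⟨a3, b3, c3, d3⟩⟩ := B
  simp only [M4.tr, M4.mk.injEq, V4.mk.injEq, true_and, and_true] at hs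
  simp only [u0L, List.forall_mem_cons, List.not_mem_nil, false_imp_iff, implies_true,
    and_true] at h2
  simp only [M4.bil, M4.app, V4.dot, e02, e13, w0, Int.add_def, Int.mul_def] at h2 ha hb hc
  have key : (c0 = 1 ∧ d1 = 1) ∨ (c0 = 0 ∧ d1 = 1) ∨ (c0 = 1 ∧ d1 = 0) := by omega
  rcases key with k | k | k
  · left
    congr 1
    simp only [qAm, M4.mk.injEq, V4.mk.injEq]
    omega
  · right; left
    congr 1
    simp only [q1m, M4.mk.injEq, V4.mk.injEq]
    omega
  · right; right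
    congr 1
    simp only [q2m, M4.mk.injEq, V4.mk.injEq]
    omega

theorem l2_ext (w : Mt) : w ∈ Ext Cell (u0L.map V4.at).toFinset ↔
    w ∈ ({e02.at, e13.at, w0.at} : Finset Mt) := by
  constructor
  · rintro ⟨hw, q, q', hq, hq', hne, h, h'⟩
    have hs : (((u0L.map V4.at).toFinset : Finset Mt) : Set Mt) ⊆
        ((insert w (u0L.map V4.at).toFinset : Finset Mt) : Set Mt) :=
      Finset.coe_subset.2 (Finset.subset_insert _ _)
    have h1 := h (Finset.mem_coe.2 (Finset.mem_insert_self _ _))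
    have h2 := h' (Finset.mem_coe.2 (Finset.mem_insert_self _ _))
    obtain ⟨⟨v', rfl⟩, h1⟩ := h1
    obtain ⟨v, rfl⟩ := toV_surj v'
    replace h2 := h2.2
    change pr q v.at = 2 at h1
    change pr q' v.at = 2 at h2
    change v.at ∉ _ at hw
    change v.at ∈ _
    rw [List.mem_toFinset, mem_at] at hw
    simp only [Finset.mem_insert, Finset.mem_singleton, at_eq_iff]
    have kA : ∀ v ∈ pm minA, v.nrm ∉ u0L.map V4.nrm →
        v.nrm = e02.nrm ∨ v.nrm = e13.nrm ∨ v.nrm = w0.nrm := by decide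
    have k1 : ∀ v ∈ pm min1, q2m.bil v v = 2 → v.nrm ∉ u0L.map V4.nrm →
        v.nrm = e02.nrm ∨ v.nrm = e13.nrm ∨ v.nrm = w0.nrm := by decide
    rcases vert_u0 hq (hs.trans h) with rfl | rfl | rfl <;>
      rcases vert_u0 hq' (hs.trans h') with rfl | rfl | rfl <;>
      rw [← bil_at] at h1 h2 <;>
      first
        | exact absurd rfl hne
        | exact kA v ((min_qA v).1 h1) hw
        | exact kA v ((min_qA v).1 h2) hw
        | exact k1 v ((min_q1 v).1 h1) h2 hw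
        | exact k1 v ((min_q1 v).1 h2) h1 hw
  · intro hw
    simp only [Finset.mem_insert, Finset.mem_singleton] at hw
    rcases hw with rfl | rfl | rfl
    · refine ⟨by rw [List.mem_toFinset, mem_at]; decide, ?_⟩
      rw [← List.toFinset_cons]
      exact l2_cellA (l := e02 :: u0L) (by decide) (by decide)
    · refine ⟨by rw [List.mem_toFinset, mem_at]; decide, ?_⟩
      rw [← List.toFinset_cons]
      exact l2_cellA (l := e13 :: u0L) (by decide) (by decide)
    · refine ⟨by rw [List.mem_toFinset, mem_at]; decide, ?_⟩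
      rw [← List.toFinset_cons]
      exact l2_cell33

theorem del_u0 : del Cell (br (u0L.map V4.at)) = br ((e02 :: u0L).map V4.at) +
    br ((e13 :: u0L).map V4.at) + br (s33.map V4.at) := by
  rw [del_br (nodup_at (by decide)) l2_ext, Finset.sum_insert, Finset.sum_pair, ← add_assoc]
  · rfl
  · rw [Ne, at_eq_iff]
    decide
  · simp only [Finset.mem_insert, Finset.mem_singleton, at_eq_iff]
    decide

theorem l2_stab (γ : GLz 4) (h : ip (ga γ (br (u0L.map V4.at))) (chn zL) ≠ 0) :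
    pb (γ : Mt) qAm.toM = qAm.toM := by
  have hnd : (u0L.map V4.at).Nodup := nodup_at (by decide)
  obtain ⟨ε, -, hε⟩ := br_nodup (hnd.map (cj_inj γ))
  rw [ga, act_br, hε, ip_single] at h
  have hS := (mem_Sup_iff.1 l2_zL _ (right_ne_zero_of_mul h)).2.2
  have hsub : (((u0L.map V4.at).toFinset : Finset Mt) : Set Mt) ⊆ Mn (pb (γ : Mt) qAm.toM) := by
    intro A hA
    rw [mem_Mn_pb]
    apply hS
    rw [Finset.mem_coe, List.mem_toFinset] at hA ⊢
    exact List.mem_map_of_mem hA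
  have hd := det_pb γ qAm.toM
  rcases vert_u0 (vert_qA.pb γ) hsub with h1 | h1 | h1
  · exact h1
  · rw [h1, toM_det, toM_det] at hd
    exact absurd hd (by decide)
  · rw [h1, toM_det, toM_det] at hd
    exact absurd hd (by decide)

theorem nm_u0 (g : Pn 4) : Nm (chn zL) g (br (u0L.map V4.at)) = opR m0 g := by
  obtain ⟨hnd, hmem, -, -, -, hdet⟩ := stab_group (q := qAm) (by decide) mem_GA nodup_GA
  have hinj : Set.InjOn (Units.val : GLz 4 → Mt)
      (Units.val ⁻¹' (((GA.map M4.toM).toFinset : Finset Mt) : Set Mt)) :=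
    Units.val_injective.injOn
  rw [nm_apply zL_spans, finsum_eq_sum_of_support_subset
    (s := (GA.map M4.toM).toFinset.preimage Units.val hinj)]
  · refine (Finset.sum_preimage Units.val _ hinj
      (fun A : Mt => ip (act (cj A) (br (u0L.map V4.at))) (chn zL) • sub A g) ?_).trans ?_
    · intro A hA hn
      obtain ⟨γ, hγ⟩ := exists_GL (hdet A (List.mem_toFinset.1 hA))
      exact absurd ⟨γ, hγ⟩ hn
    · rw [List.sum_toFinset _ hnd, m0, opR_filter, opR_eq, List.map_map, List.map_map]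
      congr 1
      refine List.map_congr_left fun A _ => ?_
      simp only [Function.comp, act_br_at, ipL_eq]
  · intro γ hγ
    rw [Finset.mem_coe, Finset.mem_preimage, List.mem_toFinset, hmem]
    refine l2_stab γ fun h0 => hγ ?_
    simp only [h0, zero_smul]

end Pool.Agent.MP_cbe134_nt.V

end

section

/- The two degenerate cells around a six-element face. -/

open Matrix Finsupp

namespace Pool.Agent.MP_cbe134_nt.V

theorem l3_sub (q : M4) (l : List V4) (h : ∀ v ∈ l, q.bil v v = 2) :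
    (((l.map V4.at).toFinset : Finset Mt) : Set Mt) ⊆ Mn q.toM := by
  intro A hA
  obtain ⟨v, hv, rfl⟩ := List.mem_map.1 (List.mem_toFinset.1 (Finset.mem_coe.1 hA))
  exact ⟨⟨v.toV, rfl⟩, (bil_at q v).symm.trans (h v hv)⟩

theorem l3_cell (g : M4) (hg : g.det * g.det = 1) (l : List V4) (hl : l.length ≤ 9)
    (h : ∀ v ∈ l, (g.pb qAm).bil v v = 2) : Cell (l.map V4.at).toFinset := by
  obtain ⟨G, hG⟩ := exists_GL (A := g.toM) (by rw [toM_det]; exact hg)
  refine (cell_image G _).1 (cell_of_qA ((image_sub_mn G _ _).2 ?_) ?_)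
  · rw [hG, ← toM_pb]
    exact l3_sub _ l h
  · exact Finset.card_image_le.trans ((List.toFinset_card_le _).trans (by simpa using hl))

theorem e02_ext : e02.at ∈ Ext Cell (tauL.map V4.at).toFinset := by
  refine ⟨fun h => absurd (mem_at.1 (List.mem_toFinset.1 h)) (by decide), ?_⟩
  rw [← List.toFinset_cons, ← List.map_cons]
  exact l3_cell M4.one (by decide) _ (by decide) (by decide)

theorem ef_ext : ef.at ∈ Ext Cell (tauL.map V4.at).toFinset := by
  refine ⟨fun h => absurd (mem_at.1 (List.mem_toFinset.1 h)) (by decide), ?_⟩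
  rw [← List.toFinset_cons, ← List.map_cons]
  exact l3_cell ⟨⟨1, 1, 0, 0⟩, ⟨0, -1, -1, 0⟩, ⟨0, 0, 1, 0⟩, ⟨0, 0, 0, 1⟩⟩ (by decide) _
    (by decide) (by decide)

theorem l3_nrm_d (v : V4) (h : v.nrm.d = 0) : v.d = 0 := by
  rcases nrm_cases v with e | e <;> rw [e] at h
  · exact h
  · exact neg_eq_zero.1 h

theorem l3_last {v : V4} (hv : v.at ∉ (tauL.map V4.at).toFinset) (γ : GLz 4)
    (h : (insert v.at (tauL.map V4.at).toFinset).image (cj γ) = (k0L.map V4.at).toFinset) :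
    v.d = 0 := by
  obtain ⟨A, hA⟩ := toM_surj (γ : Mt)
  have k1 : ∀ u ∈ v :: tauL, A.r3.dot u ≠ 0 → cj γ u.at = V4.at ⟨0, 0, 0, 1⟩ := by
    intro u hu hne
    have hm : cj γ u.at ∈ (k0L.map V4.at).toFinset := by
      rw [← h, ← List.toFinset_cons, ← List.map_cons]
      exact Finset.mem_image_of_mem _ (List.mem_toFinset.2 (List.mem_map_of_mem hu))
    rw [← hA, ← at_app] at hm ⊢
    have hk : ∀ x ∈ k0L.map V4.nrm, x.d = 0 ∨ x = V4.nrm ⟨0, 0, 0, 1⟩ := by decide
    rcases hk _ (mem_at.1 (List.mem_toFinset.1 hm)) with e | e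
    · exact absurd (l3_nrm_d _ e) hne
    · exact at_eq_iff.2 e
  have k2 : ∀ u ∈ v :: tauL, ∀ u' ∈ v :: tauL, A.r3.dot u ≠ 0 → A.r3.dot u' ≠ 0 →
      u.at = u'.at := fun u hu u' hu' a b => cj_inj γ ((k1 u hu a).trans (k1 u' hu' b).symm)
  have k3 : ∀ u ∈ tauL, ∀ u' ∈ tauL, u.nrm ≠ u'.nrm → A.r3.dot u = 0 ∨ A.r3.dot u' = 0 := by
    intro u hu u' hu' hne
    by_contra hc
    rw [not_or] at hc
    exact hne (at_eq_iff.1 (k2 u (List.mem_cons_of_mem _ hu) u' (List.mem_cons_of_mem _ hu')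
      hc.1 hc.2))
  have hdet : A.det ≠ 0 := by
    rw [← toM_det, hA]
    exact (isUnits_det_units γ).ne_zero
  have a1 := k3 ⟨1, 0, 0, 0⟩ (by decide) ⟨0, 1, 0, 0⟩ (by decide) (by decide)
  have a2 := k3 ⟨1, 0, 0, 0⟩ (by decide) ⟨1, -1, 0, 0⟩ (by decide) (by decide)
  have a3 := k3 ⟨0, 1, 0, 0⟩ (by decide) ⟨1, -1, 0, 0⟩ (by decide) (by decide)
  have a4 := k3 ⟨0, 0, 1, 0⟩ (by decide) ⟨0, 1, -1, 0⟩ (by decide) (by decide)
  have a5 := k2 v List.mem_cons_self ⟨0, 0, 0, 1⟩ (List.mem_cons_of_mem _ (by decide))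
  obtain ⟨⟨a0, b0, c0, d0⟩, ⟨a1', b1, c1, d1⟩, ⟨a2', b2, c2, d2⟩, ⟨p0, p1, p2, p3⟩⟩ := A
  simp only [V4.dot, Int.add_def, Int.mul_def, mul_one, mul_zero, add_zero, zero_add,
    mul_neg] at a1 a2 a3 a4 a5
  obtain rfl : p0 = 0 := by omega
  obtain rfl : p1 = 0 := by omega
  obtain rfl : p2 = 0 := by omega
  have hp : p3 ≠ 0 := by
    rintro rfl
    apply hdet
    have e : ∀ a b : ℤ, Int.sub a b = a - b := fun _ _ => rfl
    simp [M4.det, mn2, e]
  by_contra hd
  apply hv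
  rw [a5 (by simpa using ⟨hp, hd⟩) hp]
  exact List.mem_toFinset.2 (List.mem_map_of_mem (by decide))

theorem ext_tau {w : Mt} (hw : w ∈ Ext Cell (tauL.map V4.at).toFinset) (γ : GLz 4)
    (h : (insert w (tauL.map V4.at).toFinset).image (cj γ) = (k0L.map V4.at).toFinset) :
    w = e02.at ∨ w = ef.at := by
  obtain ⟨hw, q, -, hq, -, -, hs, -⟩ := hw
  obtain ⟨⟨v₀, rfl⟩, hv⟩ := hs (Finset.mem_coe.2 (Finset.mem_insert_self _ _))
  obtain ⟨v, rfl⟩ := toV_surj v₀
  change v.at ∉ _ at hw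
  change v.at = _ ∨ v.at = _
  have hd := l3_last hw γ h
  obtain ⟨Q, rfl⟩ := toM_surj q
  have hv' : Q.bil v v = 2 := (bil_at Q v).trans hv
  have k1 : ∀ u ∈ tauL, Q.bil u u = 2 := fun u hu => (bil_at Q u).trans
    (hs (Finset.mem_coe.2 (Finset.mem_insert_of_mem
      (List.mem_toFinset.2 (List.mem_map_of_mem hu))))).2
  have k2 : ∀ u : V4, u ≠ ⟨0, 0, 0, 0⟩ → 2 ≤ Q.bil u u := fun u hu => by
    rw [bil_at]
    refine hq.two_le fun e => hu (toV_inj (e.trans ?_))
    ext i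
    fin_cases i <;> rfl
  have hsym : Q.tr = Q := toM_inj ((toM_tr Q).trans hq.symm)
  have a0 := k1 ⟨1, 0, 0, 0⟩ (by decide)
  have a1 := k1 ⟨0, 1, 0, 0⟩ (by decide)
  have a2 := k1 ⟨0, 0, 1, 0⟩ (by decide)
  have a3 := k1 ⟨1, -1, 0, 0⟩ (by decide)
  have a4 := k1 ⟨0, 1, -1, 0⟩ (by decide)
  have a5 := k2 ⟨1, 0, -1, 0⟩ (by decide)
  have a6 := k2 ⟨1, -1, 1, 0⟩ (by decide)
  have hn : v.nrm ∉ tauL.map V4.nrm := fun e => hw (List.mem_toFinset.2 (mem_at.2 e))
  have key : qAm.bil v v = 2 ∨ q1m.bil v v = 2 := by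
    obtain ⟨⟨q00, q01, q02, q03⟩, ⟨q10, q11, q12, q13⟩, ⟨q20, q21, q22, q23⟩,
      ⟨q30, q31, q32, q33⟩⟩ := Q
    obtain ⟨x, y, z, t⟩ := v
    obtain rfl : t = 0 := hd
    simp only [M4.tr, M4.mk.injEq, V4.mk.injEq] at hsym
    simp only [M4.bil, M4.app, V4.dot, Int.add_def, Int.mul_def, mul_one, mul_zero, add_zero,
      zero_add, mul_neg, one_mul, zero_mul, neg_mul, qAm, q1m] at a0 a1 a2 a3 a4 a5 a6 hv' ⊢
    obtain rfl : q00 = 2 := by omega
    obtain rfl : q11 = 2 := by omega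
    obtain rfl : q22 = 2 := by omega
    obtain rfl : q01 = 1 := by omega
    obtain rfl : q10 = 1 := by omega
    obtain rfl : q12 = 1 := by omega
    obtain rfl : q21 = 1 := by omega
    obtain rfl : q20 = q02 := by omega
    have : q20 = 1 ∨ q20 = 0 := by omega
    rcases this with rfl | rfl
    · left; linarith
    · right; linarith
  have f1 : ∀ u ∈ pm minA, u.d = 0 → u.nrm ∈ tauL.map V4.nrm ∨ u.nrm = e02.nrm := by decide
  have f2 : ∀ u ∈ pm min1, u.d = 0 → u.nrm ∈ tauL.map V4.nrm ∨ u.nrm = ef.nrm := by decide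
  rcases key with e | e
  · exact Or.inl (at_eq_iff.2 ((f1 v ((min_qA v).1 e) hd).resolve_left hn))
  · exact Or.inr (at_eq_iff.2 ((f2 v ((min_q1 v).1 e) hd).resolve_left hn))

end Pool.Agent.MP_cbe134_nt.V

end

section

/- The degenerate part of the boundary vanishes. -/

open Matrix Finsupp

namespace Pool.Agent.MP_cbe134_nt.V

theorem Van.sub {g : Pn 4} (h : Van g) {A : Mt} (hA : pb A qAm.toM = qAm.toM) :
    Van (sub A g) := by
  intro v hv
  rw [eval_sub, mv_cast]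
  refine h _ ?_
  rw [← cj_phi, ← pr_pb, hA, hv]

theorem Van.opR {g : Pn 4} (h : Van g) {a : GR} (ha : ∀ p ∈ a, p.2.pb qAm = qAm) :
    Van (opR a g) := by
  induction a with
  | nil =>
    intro v _
    rw [opR_nil, map_zero]
  | cons p a ih =>
    intro v hv
    have h1 := h.sub (A := p.2.toM) (by rw [← toM_pb, ha p List.mem_cons_self]) v hv
    rw [opR_cons, map_add, MvPolynomial.smul_eval, h1,
      ih (fun q hq => ha q (List.mem_cons_of_mem _ hq)) v hv, mul_zero, add_zero]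

theorem l4_ip {l l' : List Mt} (hl : l.Nodup) (hl' : l'.Nodup) {γ : GLz 4}
    (h : ip (ga γ (br l)) (br l') ≠ 0) : l.toFinset.image (cj γ) = l'.toFinset := by
  obtain ⟨ε, -, h1⟩ := br_nodup (hl.map (cj_inj γ))
  obtain ⟨ε', -, h2⟩ := br_nodup hl'
  rw [ga, act_br, h1, h2, ip_single] at h
  by_contra hne
  refine h ?_
  rw [Finsupp.single_eq_of_ne, mul_zero]
  intro he
  refine hne (Eq.trans ?_ he)
  ext A
  simp

theorem l4_spans {l : List Mt} (hl : l.Nodup) (h : br l ∈ Sup Spans) : Spans l.toFinset := by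
  obtain ⟨ε, hε, h1⟩ := br_nodup hl
  refine mem_Sup_iff.1 h _ ?_
  rw [h1, Finsupp.single_eq_same]
  rintro rfl
  simp at hε

theorem l4_k0 : (k0L.map V4.at).Nodup := nodup_at (by decide)

theorem l4_tau : (tauL.map V4.at).Nodup := nodup_at (by decide)

theorem l4_two (g : Pn 4) : Nm (br (k0L.map V4.at)) g (del Cell (br (tauL.map V4.at))) =
    Nm (br (k0L.map V4.at)) g (br (k0L.map V4.at)) +
      Nm (br (k0L.map V4.at)) g (br ((ef :: tauL).map V4.at)) := by
  have hf := ext_fin (l4_spans l4_tau tau_spans)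
  rw [del_br l4_tau (W := hf.toFinset) (fun w => hf.mem_toFinset.symm), map_sum,
    Finset.sum_eq_add_of_mem e02.at ef.at (hf.mem_toFinset.2 e02_ext) (hf.mem_toFinset.2 ef_ext)
      (fun h => absurd (at_eq_iff.1 h) (by decide))]
  · rfl
  · intro w hw hne
    have hw' := hf.mem_toFinset.1 hw
    have hn : (w :: tauL.map V4.at).Nodup :=
      List.nodup_cons.2 ⟨fun h => hw'.1 (List.mem_toFinset.2 h), l4_tau⟩
    rw [nm_apply k0_spans]
    refine finsum_eq_zero_of_forall_eq_zero fun γ => ?_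
    by_cases h : ip (ga γ (br (w :: tauL.map V4.at))) (br (k0L.map V4.at)) = 0
    · rw [h, zero_smul]
    · have h1 := l4_ip hn l4_k0 h
      rw [List.toFinset_cons] at h1
      exact absurd (ext_tau hw' γ h1) (not_or.2 hne)

theorem l4_inv {g : Pn 4} (A : M4) (hA : A.det * A.det = 1)
    (h : Nm (br (k0L.map V4.at)) g (br ((k0L.map A.app).map V4.at)) =
      Nm (br (k0L.map V4.at)) g (br (k0L.map V4.at))) :
    sub A.toM (Nm (br (k0L.map V4.at)) g (br (k0L.map V4.at))) =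
      Nm (br (k0L.map V4.at)) g (br (k0L.map V4.at)) := by
  obtain ⟨γ, hγ⟩ := exists_GL (A := A.toM) (by rw [toM_det, hA])
  have h1 := nm_ga' k0_spans g γ (br (k0L.map V4.at))
  rwa [ga, hγ, act_br_at, h] at h1

theorem l4_fix (A : M4) (h : chkC [(1, k0L.map A.app), (-1, k0L)] = true) :
    br ((k0L.map A.app).map V4.at) = br (k0L.map V4.at) := by
  have h1 := chkC_sound h
  rw [chn_cons, chn_cons, chn_nil] at h1
  simpa [add_neg_eq_zero] using h1

/-- the swap of the first two coordinates -/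
def l4_P01 : M4 := ⟨⟨0, 1, 0, 0⟩, ⟨1, 0, 0, 0⟩, ⟨0, 0, 1, 0⟩, ⟨0, 0, 0, 1⟩⟩

/-- the swap of the first and third coordinates -/
def l4_P02 : M4 := ⟨⟨0, 0, 1, 0⟩, ⟨0, 1, 0, 0⟩, ⟨1, 0, 0, 0⟩, ⟨0, 0, 0, 1⟩⟩

theorem l4_e3 {g : Pn 4} (hv : Van g) :
    MvPolynomial.eval (fun i => ((V4.toV ⟨0, 0, 0, 1⟩ i : ℤ) : ℚ))
      (Nm (br (k0L.map V4.at)) g (br (k0L.map V4.at))) = 0 := by
  rw [nm_apply k0_spans]
  refine finsum_induction
    (fun f : Pn 4 => MvPolynomial.eval (fun i => ((V4.toV ⟨0, 0, 0, 1⟩ i : ℤ) : ℚ)) f = 0)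
    (map_zero _) (fun a b ha hb => by rw [map_add, ha, hb, add_zero]) fun γ => ?_
  rw [MvPolynomial.smul_eval]
  by_cases h : ip (ga γ (br (k0L.map V4.at))) (br (k0L.map V4.at)) = 0
  · rw [h, zero_mul]
  · have h1 : cj γ (V4.at ⟨0, 0, 0, 1⟩) ∈ (k0L.map V4.at).toFinset := by
      rw [← l4_ip l4_k0 l4_k0 h]
      exact Finset.mem_image_of_mem _
        (List.mem_toFinset.2 (List.mem_map_of_mem (by decide)))
    obtain ⟨w, hw, h2⟩ := List.mem_map.1 (List.mem_toFinset.1 h1)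
    have h3 : ∀ w ∈ k0L, qAm.bil w w = 2 := by decide
    rw [eval_sub, mv_cast, hv _ (by rw [← cj_phi, ← V4.at, ← h2, ← bil_at, h3 w hw]), mul_zero]

theorem theta_zero {d : ℕ} {g : Pn 4} (hg : g ∈ Hd 4 d) (hv : Van g)
    (h : Nm (br (k0L.map V4.at)) g (del Cell (br (tauL.map V4.at))) = 0) (x : Ch Mt) :
    Nm (br (k0L.map V4.at)) g x = 0 := by
  refine nm_orbit l4_k0 (l4_spans l4_k0 k0_spans) g ?_ x
  rw [l4_two] at h
  have hs := l4_inv (g := g) sigM (by decide) (by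
    have h1 := chkC_sound k_flip
    rw [chn_cons, chn_cons, chn_nil, Int.cast_one, one_smul, one_smul, add_zero] at h1
    rw [eq_neg_of_add_eq_zero_left h1, map_neg, ← eq_neg_of_add_eq_zero_left h])
  have h01 := l4_inv (g := g) l4_P01 (by decide) (by rw [l4_fix _ (by decide +kernel)])
  have h02 := l4_inv (g := g) l4_P02 (by decide) (by rw [l4_fix _ (by decide +kernel)])
  have he := l4_e3 hv
  have hT := nm_mem k0_spans hg (br (k0L.map V4.at))
  generalize Nm (br (k0L.map V4.at)) g (br (k0L.map V4.at)) = T at hs h01 h02 he hT ⊢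
  have t0 : sub (1 + Matrix.single 0 2 1) T = T := by
    have e : (1 + Matrix.single 0 2 1 : Mt) = sigM.toM * sigM.toM := by decide +kernel
    rw [e, ← sub_sub, hs, hs]
  have t1 : sub (1 + Matrix.single 1 2 1) T = T := by
    have e : (1 + Matrix.single 1 2 1 : Mt) =
        l4_P01.toM * (1 + Matrix.single 0 2 1) * l4_P01.toM := by decide +kernel
    rw [e, ← sub_sub, ← sub_sub, h01, t0, h01]
  have t2 : sub (1 + Matrix.single 2 0 1) T = T := by
    have e : (1 + Matrix.single 2 0 1 : Mt) =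
        l4_P02.toM * (1 + Matrix.single 0 2 1) * l4_P02.toM := by decide +kernel
    rw [e, ← sub_sub, ← sub_sub, h02, t0, h02]
  refine MvPolynomial.funext fun y => ?_
  have e : Function.update (Function.update (Function.update y 0 0) 1 0) 2 0 =
      y 3 • fun i => ((V4.toV ⟨0, 0, 0, 1⟩ i : ℤ) : ℚ) := by
    funext i
    fin_cases i <;> simp [V4.toV]
  rw [← indep_of_transv (by decide) one_ne_zero t0 y 0,
    ← indep_of_transv (by decide) one_ne_zero t1 _ 0,
    ← indep_of_transv (by decide) one_ne_zero t2 _ 0, e, eval_smul_Hd hT, he, mul_zero, map_zero]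

end Pool.Agent.MP_cbe134_nt.V

end

section

/- The cochain of an element of both eigenspaces is a cocycle that determines the element. -/

open Matrix Finsupp

namespace Pool.Agent.MP_cbe134_nt.V

variable {d : ℕ} {g : Pn 4}

theorem Rsp_le (sh : GR) (d : ℕ) : Rsp sh d ≤ Hd 4 d := by
  rintro _ ⟨h, hh, rfl⟩
  rw [LinearMap.comp_apply]
  exact opR_mem eD (opR_mem sh hh)

theorem van_of_Rsp {sh : GR} (hd : Even d) (hg : g ∈ Rsp sh d) : Van g := by
  obtain ⟨h, hh, rfl⟩ := hg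
  have h1 : opR sh h ∈ Hd 4 d := opR_mem _ hh
  rw [LinearMap.comp_apply]
  generalize opR sh h = f at h1
  intro v hv
  obtain ⟨w, rfl⟩ := toV_surj v
  obtain ⟨p, hp, h2, h3⟩ := k_refl w ((min_qA w).1 ((bil_at qAm w).trans hv))
  have h4 := chkG_sound (k_absorb p hp) hd h1
  rw [opR_append, opR_gsm, opR_gmul, opR_cons, opR_nil, h2] at h4
  have h5 : opR eD f ∈ Hd 4 d := opR_mem _ h1
  generalize opR eD f = g at h4 h5
  have h6 : MvPolynomial.eval (fun i => (w.toV i : ℚ)) (sub p.2.toM g) =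
      MvPolynomial.eval (fun i => (w.toV i : ℚ)) g := by
    rw [eval_sub, mv_cast, ← toV_app]
    rcases phi_eq_iff.1 (at_eq_iff.2 h3) with e | e
    · rw [e]
    · have h7 := eval_smul_Hd h5 (-1) fun i => (w.toV i : ℚ)
      rw [hd.neg_one_pow, one_mul] at h7
      rw [e, ← h7]
      congr 2
      funext i
      simp
  have h8 := congrArg (MvPolynomial.eval fun i => (w.toV i : ℚ)) h4
  simp only [map_add, MvPolynomial.smul_eval, h6, map_zero] at h8
  push_cast at h8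
  linarith

theorem l5_nm {w : CL} {sh : GR} (hw : chn w ∈ Sup Spans)
    (h1 : chkC (opC eD w ++ csm (-10) w) = true) (h2 : chkC (opC sh w) = true)
    (hs : ∀ p ∈ sh, p.2.det * p.2.det = 1) (hg : g ∈ Rsp sh d) (x : Ch Mt) :
    Nm (chn w) g x = 0 := by
  obtain ⟨h, -, rfl⟩ := hg
  have h3 := chkC_sound h1
  rw [chn_append, chn_csm, add_eq_zero_iff_eq_neg, ← neg_smul] at h3
  rw [LinearMap.comp_apply, ← nm_opC k_det.1 hw, h3, nm_smul_left hw, ← nm_opC hs hw,
    chkC_sound h2, nm_zero_left, smul_zero]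

theorem nm_psi (hg : g ∈ Rsp shX1 d) (x : Ch Mt) : Nm (chn psiL) g x = 0 := by
  exact l5_nm psi_spans k_psi_eD k_psi_sh k_det.2.2.1 hg x

theorem nm_zeta (hg : g ∈ Rsp shY1 d) (x : Ch Mt) : Nm (chn zetaD) g x = 0 := by
  exact l5_nm zetaD_spans k_zeta_eD k_zeta_sh k_det.2.1 hg x

theorem recover (hd : Even d) (hg : g ∈ Rsp shY1 d) :
    opR R5 (opR m0 g) = (-200 : ℚ) • g := by
  obtain ⟨h, hh, rfl⟩ := hg
  have h0 : opR shY1 h ∈ Hd 4 d := opR_mem _ hh
  have h1 := chkG_sound k_m0 hd h0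
  have h2 := chkG_sound k_m1 hd h0
  have h3 := chkG_sound k_m2 hd hh
  rw [opR_append, opR_gsm, opR_gmul eD m0] at h1
  rw [opR_append, opR_gsm, opR_gmul _ R5] at h2
  rw [opR_append, opR_gsm, opR_gmul, opR_gmul] at h3
  rw [LinearMap.comp_apply, eq_neg_of_add_eq_zero_left h1, map_neg, map_smul,
    eq_neg_of_add_eq_zero_left h2, eq_neg_of_add_eq_zero_left h3]
  push_cast
  module

theorem cocycle (hd : Even d) (hx : g ∈ Rsp shX1 d) (hy : g ∈ Rsp shY1 d) {y : Ch Mt}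
    (h : y ∈ Sup Spans) : Nm (chn zL) g (del Cell y) = 0 := by
  have hk : chn [(1, k0L)] ∈ Sup Spans := chn_one k0L ▸ k0_spans
  have ht := opC_mem k_det.2.2.2.1 hk
  have h1 := chkC_sound k_zetaD
  rw [zeta, chn_append, chn_append, chn_append, chn_csm, chn_csm, chn_csm, chn_csm, chn_bdL] at h1
  have h2 : bd (chn zL) = (10 : ℚ) • chn psiL + (-1 : ℚ) • chn (opC thc [(1, k0L)]) +
      (-1 : ℚ) • chn zetaD := by
    push_cast at h1
    linear_combination (norm := module) -h1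
  have h3 : ∀ y ∈ Sup Spans, Nm (chn zL) g (del Cell y) =
      -Nm (br (k0L.map V4.at)) (opR thc g) y := fun y hy' => by
    rw [nm_del zL_mem bd_zL_spans g hy', h2,
      nm_add_left (add_mem (Submodule.smul_mem _ _ psi_spans) (Submodule.smul_mem _ _ ht))
        (Submodule.smul_mem _ _ zetaD_spans),
      nm_add_left (Submodule.smul_mem _ _ psi_spans) (Submodule.smul_mem _ _ ht),
      nm_smul_left psi_spans, nm_smul_left ht, nm_smul_left zetaD_spans, nm_psi hx, nm_zeta hy,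
      nm_opC k_det.2.2.2.1 hk, chn_one, smul_zero, smul_zero, zero_add, add_zero, neg_one_smul]
  have h4 := h3 _ (del_mem_spans tau_spans)
  rw [del_del_cell tau_spans, map_zero, eq_comm, neg_eq_zero] at h4
  rw [h3 y h, theta_zero (opR_mem thc (Rsp_le _ _ hx)) ((van_of_Rsp hd hx).opR k_thc) h4,
    neg_zero]

end Pool.Agent.MP_cbe134_nt.V

end

section

/- The volume form on symmetric matrices. -/

open Matrix

namespace Pool.Agent.MP_cbe134_nt.V

def g4_r : Fin 10 → Fin 4 := ![0, 0, 0, 0, 1, 1, 1, 2, 2, 3]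

def g4_c : Fin 10 → Fin 4 := ![0, 1, 2, 3, 1, 2, 3, 2, 3, 3]

def g4_ix : Fin 4 → Fin 4 → Fin 10 := ![![0, 1, 2, 3], ![1, 4, 5, 6], ![2, 5, 7, 8], ![3, 6, 8, 9]]

theorem g4_ix_rc : ∀ p, g4_ix (g4_r p) (g4_c p) = p := by decide

theorem g4_ix_symm : ∀ i j, g4_ix i j = g4_ix j i := by decide

theorem g4_rc_ix : ∀ i j, (g4_r (g4_ix i j) = i ∧ g4_c (g4_ix i j) = j) ∨
    (g4_r (g4_ix i j) = j ∧ g4_c (g4_ix i j) = i) := by decide

section ring

variable (K : Type) [CommRing K]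

/-- coordinates of a symmetric matrix -/
def g4_crd : Matrix (Fin 4) (Fin 4) K →ₗ[K] (Fin 10 → K) where
  toFun A p := A (g4_r p) (g4_c p)
  map_add' _ _ := rfl
  map_smul' _ _ := rfl

/-- the symmetric matrix with given coordinates -/
def g4_sym : (Fin 10 → K) →ₗ[K] Matrix (Fin 4) (Fin 4) K where
  toFun v := Matrix.of fun i j => v (g4_ix i j)
  map_add' _ _ := rfl
  map_smul' _ _ := rfl

variable {K}

theorem g4_crd_sym (v : Fin 10 → K) : g4_crd K (g4_sym K v) = v := by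
  funext p
  change v (g4_ix (g4_r p) (g4_c p)) = v p
  rw [g4_ix_rc]

theorem g4_sym_isSymm (v : Fin 10 → K) : (g4_sym K v).IsSymm := by
  ext i j
  change v (g4_ix j i) = v (g4_ix i j)
  rw [g4_ix_symm]

theorem g4_sym_crd {A : Matrix (Fin 4) (Fin 4) K} (h : A.IsSymm) : g4_sym K (g4_crd K A) = A := by
  ext i j
  change A (g4_r (g4_ix i j)) (g4_c (g4_ix i j)) = A i j
  rcases g4_rc_ix i j with ⟨h1, h2⟩ | ⟨h1, h2⟩
  · rw [h1, h2]
  · rw [h1, h2, h.apply]

/-- the action on coordinates -/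
def g4_act (g : Matrix (Fin 4) (Fin 4) K) : (Fin 10 → K) →ₗ[K] (Fin 10 → K) where
  toFun v := g4_crd K (g * g4_sym K v * gᵀ)
  map_add' v w := by rw [map_add, Matrix.mul_add, Matrix.add_mul, map_add]
  map_smul' c v := by rw [map_smul, Matrix.mul_smul, Matrix.smul_mul, map_smul, RingHom.id_apply]

theorem g4_act_apply (g : Matrix (Fin 4) (Fin 4) K) (v : Fin 10 → K) :
    g4_act g v = g4_crd K (g * g4_sym K v * gᵀ) := rfl

theorem g4_act_one : g4_act (1 : Matrix (Fin 4) (Fin 4) K) = LinearMap.id := by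
  refine LinearMap.ext fun v => ?_
  rw [g4_act_apply, Matrix.one_mul, Matrix.transpose_one, Matrix.mul_one, g4_crd_sym,
    LinearMap.id_apply]

theorem g4_act_mul (g h : Matrix (Fin 4) (Fin 4) K) : g4_act (g * h) = g4_act g * g4_act h := by
  refine LinearMap.ext fun v => ?_
  have hs : (h * g4_sym K v * hᵀ).IsSymm := by
    rw [Matrix.IsSymm, Matrix.transpose_mul, Matrix.transpose_mul, Matrix.transpose_transpose,
      (g4_sym_isSymm v).eq, Matrix.mul_assoc]
  rw [Module.End.mul_apply, g4_act_apply, g4_act_apply, g4_act_apply, g4_sym_crd hs,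
    Matrix.transpose_mul]
  simp only [Matrix.mul_assoc]

theorem g4_det_diagonal (d : Fin 4 → K) :
    LinearMap.det (g4_act (diagonal d)) = (diagonal d).det ^ 5 := by
  have h : g4_act (diagonal d) =
      Matrix.toLin' (diagonal fun p => d (g4_r p) * d (g4_c p)) := by
    refine LinearMap.ext fun v => funext fun p => ?_
    rw [Matrix.toLin'_apply, Matrix.mulVec_diagonal, g4_act_apply]
    change (diagonal d * g4_sym K v * (diagonal d)ᵀ) (g4_r p) (g4_c p) = _
    rw [Matrix.diagonal_transpose, Matrix.mul_diagonal, Matrix.diagonal_mul]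
    change d (g4_r p) * v (g4_ix (g4_r p) (g4_c p)) * d (g4_c p) = _
    rw [g4_ix_rc]
    ring
  rw [h, LinearMap.det_toLin', Matrix.det_diagonal, Matrix.det_diagonal]
  simp only [Fin.prod_univ_succ, g4_r, g4_c, Fin.prod_univ_zero, Matrix.cons_val_zero,
    Matrix.cons_val_succ, Fin.succ_zero_eq_one, Fin.succ_one_eq_two, Fin.reduceSucc]
  ring

end ring

theorem g4_det_transvection (i j : Fin 4) (hij : i ≠ j) (c : ℚ) :
    LinearMap.det (g4_act (transvection i j c)) = 1 := by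
  have hmul : ∀ g h : Matrix (Fin 4) (Fin 4) ℚ, LinearMap.det (g4_act (g * h)) =
      LinearMap.det (g4_act g) * LinearMap.det (g4_act h) := fun g h => by
    rw [g4_act_mul, map_mul]
  have hD : diagonal (fun k : Fin 4 => if k = i then (2 : ℚ) else 1) * transvection i j c =
      transvection i j c * transvection i j c *
        diagonal (fun k : Fin 4 => if k = i then (2 : ℚ) else 1) := by
    rw [transvection_mul_transvection_same _ _ hij]
    ext a b
    rw [Matrix.mul_diagonal, Matrix.diagonal_mul]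
    simp only [transvection, Matrix.add_apply, Matrix.one_apply, Matrix.single_apply]
    by_cases h1 : a = i <;> by_cases h2 : b = j <;> by_cases h3 : a = b <;> simp_all [eq_comm]
    ring
  have h1 := congrArg (fun g => LinearMap.det (g4_act g)) hD
  simp only [hmul] at h1
  have h2 : LinearMap.det (g4_act (diagonal (fun k : Fin 4 => if k = i then (2 : ℚ) else 1))) ≠
      0 := by
    rw [g4_det_diagonal, Matrix.det_diagonal]
    refine pow_ne_zero _ (Finset.prod_ne_zero_iff.2 fun k _ => ?_)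
    split_ifs <;> norm_num
  have h3 : LinearMap.det (g4_act (transvection i j c)) ≠ 0 := by
    have h4 := hmul (transvection i j c) (transvection i j (-c))
    rw [transvection_mul_transvection_same _ _ hij, add_neg_cancel, transvection_zero, g4_act_one,
      LinearMap.det_id] at h4
    exact left_ne_zero_of_mul_eq_one h4.symm
  rw [mul_comm] at h1
  have h5 := mul_right_cancel₀ h2 h1
  exact (mul_left_cancel₀ h3 ((mul_one _).trans h5)).symm

theorem g4_det_act (g : Matrix (Fin 4) (Fin 4) ℚ) : LinearMap.det (g4_act g) = g.det ^ 5 := by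
  refine Matrix.diagonal_transvection_induction
    (fun g => LinearMap.det (g4_act g) = g.det ^ 5) g (fun d _ => g4_det_diagonal d)
    (fun t => ?_) fun a b ha hb => ?_
  · obtain ⟨i, j, hij, c⟩ := t
    rw [TransvectionStruct.toMatrix_mk, g4_det_transvection i j hij, det_transvection_of_ne _ _ hij,
      one_pow]
  · rw [g4_act_mul, map_mul, ha, hb, Matrix.det_mul, mul_pow]

theorem g4_crd_eq (A : Mt) : crd A = g4_crd ℤ A := by
  funext p
  fin_cases p <;> rfl

theorem g4_getD_swap {α : Type} (l₁ : List α) (a b : α) (l₂ : List α) (d : α) (k : ℕ)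
    (h1 : k ≠ l₁.length) (h2 : k ≠ l₁.length + 1) :
    (l₁ ++ a :: b :: l₂).getD k d = (l₁ ++ b :: a :: l₂).getD k d := by
  rcases lt_or_ge k l₁.length with h | h
  · rw [List.getD_append _ _ _ _ h, List.getD_append _ _ _ _ h]
  · rw [List.getD_append_right _ _ _ _ h, List.getD_append_right _ _ _ _ h]
    obtain ⟨m, hm⟩ : ∃ m, k - l₁.length = m + 2 := ⟨k - l₁.length - 2, by omega⟩
    rw [hm]
    rfl

theorem vol_swap (l₁ : List Mt) (a b : Mt) (l₂ : List Mt) :
    vol (l₁ ++ a :: b :: l₂) = -vol (l₁ ++ b :: a :: l₂) := by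
  unfold vol
  have hl : (l₁ ++ a :: b :: l₂).length = (l₁ ++ b :: a :: l₂).length := by simp
  rw [hl]
  split_ifs with h
  · have hn : l₁.length + 1 < 10 := by
      simp only [List.length_append, List.length_cons] at h
      omega
    have hne : (⟨l₁.length, by omega⟩ : Fin 10) ≠ ⟨l₁.length + 1, hn⟩ := by simp
    have key : (Matrix.of fun i : Fin 10 => crd ((l₁ ++ a :: b :: l₂).getD i 0)) =
        (Matrix.of fun i : Fin 10 => crd ((l₁ ++ b :: a :: l₂).getD i 0)).submatrix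
          (Equiv.swap (⟨l₁.length, by omega⟩ : Fin 10) ⟨l₁.length + 1, hn⟩) id := by
      ext i p
      rw [Matrix.submatrix_apply, Matrix.of_apply, Matrix.of_apply, id]
      by_cases h1 : i = ⟨l₁.length, by omega⟩
      · rw [h1, Equiv.swap_apply_left]
        simp
      · by_cases h2 : i = ⟨l₁.length + 1, hn⟩
        · rw [h2, Equiv.swap_apply_right]
          simp
        · rw [Equiv.swap_apply_of_ne_of_ne h1 h2,
            g4_getD_swap l₁ a b l₂ 0 i (fun e => h1 (Fin.ext e)) fun e => h2 (Fin.ext e)]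
    rw [key, Matrix.det_permute, Equiv.Perm.sign_swap hne]
    simp
  · rfl

theorem g4_exists_lin {n : Type} [Fintype n] [DecidableEq n] (M : Matrix n n ℤ) (i : n) :
    ∃ L : (n → ℤ) →ₗ[ℤ] ℤ, ∀ v, L v = (M.updateRow i v).det :=
  ⟨{ toFun := fun v => (M.updateRow i v).det
     map_add' := fun v w => Matrix.det_updateRow_add M i v w
     map_smul' := fun c v => Matrix.det_updateRow_smul M i c v }, fun _ => rfl⟩

theorem vol_lin (t : List Mt) : ∃ L : Mt →ₗ[ℤ] ℤ, ∀ A, L A = vol (A :: t) := by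
  by_cases h : t.length + 1 = 10
  · obtain ⟨L, hL⟩ := g4_exists_lin (Matrix.of fun i : Fin 10 => crd ((0 :: t).getD i 0)) 0
    refine ⟨L ∘ₗ g4_crd ℤ, fun A => ?_⟩
    have key : (Matrix.of fun i : Fin 10 => crd ((0 :: t).getD i 0)).updateRow 0 (g4_crd ℤ A) =
        Matrix.of fun i : Fin 10 => crd ((A :: t).getD i 0) := by
      ext i p
      induction i using Fin.cases with
      | zero =>
        rw [Matrix.updateRow_self, ← g4_crd_eq, Matrix.of_apply, Fin.val_zero, List.getD_cons_zero]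
      | succ i =>
        rw [Matrix.updateRow_ne (Fin.succ_ne_zero i), Matrix.of_apply, Matrix.of_apply,
          Fin.val_succ, List.getD_cons_succ, List.getD_cons_succ]
    unfold vol
    rw [List.length_cons, if_pos h, LinearMap.comp_apply, hL, key]
  · refine ⟨0, fun A => ?_⟩
    unfold vol
    rw [List.length_cons, if_neg h, LinearMap.zero_apply]

theorem vol_mem {A : Mt} {t : List Mt} (h : A ∈ t) : vol (A :: t) = 0 := by
  unfold vol
  split_ifs with hl
  · obtain ⟨k, hk, rfl⟩ := List.getElem_of_mem h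
    rw [List.length_cons] at hl
    refine Matrix.det_zero_of_row_eq (i := 0) (j := ⟨k + 1, by omega⟩) (by simp [Fin.ext_iff]) ?_
    change crd t[k] = crd (t.getD k 0)
    rw [List.getD_eq_getElem _ _ hk]
  · rfl

theorem vol_cj (g : Mt) {l : List Mt} (h : ∀ A ∈ l, A.IsSymm) :
    vol (l.map (cj g)) = g.det ^ 5 * vol l := by
  unfold vol
  rw [List.length_map]
  split_ifs with hl
  · have key : (Int.castRingHom ℚ).mapMatrix
        (Matrix.of fun i : Fin 10 => crd ((l.map (cj g)).getD i 0)) =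
        (Int.castRingHom ℚ).mapMatrix (Matrix.of fun i : Fin 10 => crd (l.getD i 0)) *
          (LinearMap.toMatrix' (g4_act ((Int.castRingHom ℚ).mapMatrix g)))ᵀ := by
      ext i p
      have hi : (i : ℕ) < l.length := by omega
      have h1 : (l.map (cj g)).getD i 0 = cj g (l.getD i 0) := by
        rw [List.getD_eq_getElem _ _ (by simpa using hi), List.getD_eq_getElem _ _ hi,
          List.getElem_map]
      have h2 : (l.getD i 0).IsSymm := by
        rw [List.getD_eq_getElem _ _ hi]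
        exact h _ (List.getElem_mem hi)
      have h3 : ((Int.castRingHom ℚ).mapMatrix (l.getD i 0)).IsSymm := h2.map _
      have h4 : ((Int.castRingHom ℚ).mapMatrix (Matrix.of fun i : Fin 10 => crd (l.getD i 0)) *
          (LinearMap.toMatrix' (g4_act ((Int.castRingHom ℚ).mapMatrix g)))ᵀ) i p =
          ((LinearMap.toMatrix' (g4_act ((Int.castRingHom ℚ).mapMatrix g))) *ᵥ
            g4_crd ℚ ((Int.castRingHom ℚ).mapMatrix (l.getD i 0))) p := by
        rw [Matrix.mul_apply, Matrix.mulVec, dotProduct]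
        refine Finset.sum_congr rfl fun q _ => ?_
        rw [mul_comm, Matrix.transpose_apply]
        congr 1
        rw [RingHom.mapMatrix_apply, Matrix.map_apply, Matrix.of_apply, g4_crd_eq]
        rfl
      rw [h4, LinearMap.toMatrix'_mulVec, g4_act_apply, g4_sym_crd h3, RingHom.mapMatrix_apply,
        Matrix.map_apply, Matrix.of_apply, h1, g4_crd_eq]
      change ((Int.castRingHom ℚ).mapMatrix (g * l.getD i 0 * gᵀ)) (g4_r p) (g4_c p) = _
      rw [map_mul, map_mul]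
      rfl
    have h5 := congrArg Matrix.det key
    rw [Matrix.det_mul, Matrix.det_transpose, LinearMap.det_toMatrix', g4_det_act,
      ← RingHom.map_det, ← RingHom.map_det, ← RingHom.map_det, ← map_pow, ← map_mul] at h5
    rw [mul_comm]
    exact (Int.castRingHom ℚ).injective_int h5
  · rw [mul_zero]

theorem vol_ne {l : List Mt} (hl : l.length = 10)
    (h : ∀ B : Mt, B.IsSymm → B ∈ Submodule.span ℤ {A | A ∈ l}) : vol l ≠ 0 := by
  unfold vol
  rw [if_pos hl]
  have h1 : Submodule.span ℤ {A | A ∈ l} ≤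
      (Submodule.span ℤ (Set.range fun i : Fin 10 => crd (l.getD i 0))).comap (g4_crd ℤ) := by
    refine Submodule.span_le.2 fun A hA => ?_
    obtain ⟨k, hk, rfl⟩ := List.getElem_of_mem hA
    refine Submodule.subset_span ⟨⟨k, by omega⟩, ?_⟩
    change crd (l.getD k 0) = _
    rw [List.getD_eq_getElem _ _ hk, g4_crd_eq]
  have h2 : ∀ p : Fin 10, ∃ c : Fin 10 → ℤ, ∑ i : Fin 10, c i • crd (l.getD i 0) =
      Pi.single p 1 := fun p => by
    have := h1 (h _ (g4_sym_isSymm (Pi.single p 1)))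
    rw [Submodule.mem_comap, g4_crd_sym] at this
    exact (Submodule.mem_span_range_iff_exists_fun ℤ).1 this
  choose N hN using h2
  have h3 : Matrix.of N * (Matrix.of fun i : Fin 10 => crd (l.getD i 0)) = 1 := by
    ext p q
    have := congrFun (hN p) q
    rw [Finset.sum_apply, Pi.single_apply] at this
    rw [Matrix.mul_apply, Matrix.one_apply]
    simp only [eq_comm (a := p)]
    exact this
  have h4 := congrArg Matrix.det h3
  rw [Matrix.det_mul, Matrix.det_one] at h4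
  exact right_ne_zero_of_mul_eq_one h4

end Pool.Agent.MP_cbe134_nt.V

end

section

/- Orientations of facets and the boundary of edges of the dual complex. -/

open Matrix Finsupp

namespace Pool.Agent.MP_cbe134_nt.V

theorem g5_frame {E : Type} [AddCommGroup E] {M S : Finset Mt} {lab : Mt → ℕ} {t : ℕ → Mt}
    (ht : ∀ A, A ∈ S ↔ A ∈ M ∧ t (lab A) ≠ A) (L : Mt →ₗ[ℤ] E) (hL : ∀ A ∈ S, L A = 0) {i : ℕ}
    (hi : t i ∈ M ∧ lab (t i) = i) : L (∑ A ∈ M.filter (fun A => lab A = i), A) = L (t i) := by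
  rw [map_sum]
  refine Finset.sum_eq_single_of_mem (t i) (Finset.mem_filter.2 hi) fun A hA hne => ?_
  obtain ⟨h1, h2⟩ := Finset.mem_filter.1 hA
  exact hL A ((ht A).2 ⟨h1, by rw [h2]; exact hne.symm⟩)

theorem g5_sum {E : Type} [AddCommGroup E] {q : Mt} {M : Finset Mt} {k : ℕ} {lab : Mt → ℕ}
    (h : Loc q M k lab) {S : Finset Mt} (hS : Miss M k lab S) (hc : S.card = 9)
    (L : Mt →ₗ[ℤ] E) (hL : ∀ A ∈ S, L A = 0) {u : Mt} (hu : u ∈ M) (hu' : u ∉ S) :
    (∀ v ∈ M, v ∉ S → L v = L u) ∧ L (∑ A ∈ M, A) = k • L u := by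
  obtain ⟨t, ht1, ht2⟩ := h.facet hS hc
  have h1 : ∀ v ∈ M, v ∉ S → t (lab v) = v := fun v hv hv' => by
    by_contra hne
    exact hv' ((ht2 v).2 ⟨hv, hne⟩)
  have h2 : ∀ i < k, L (t i) = L u := fun i hi => by
    rw [← g5_frame ht2 L hL (ht1 i hi), h.sums i hi _ (h.lab_lt u hu),
      g5_frame ht2 L hL (ht1 _ (h.lab_lt u hu)), h1 u hu hu']
  refine ⟨fun v hv hv' => by rw [← h2 _ (h.lab_lt v hv), h1 v hv hv'], ?_⟩
  rw [← Finset.sum_fiberwise_of_maps_to (t := Finset.range k) (g := lab)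
    (fun A hA => Finset.mem_range.2 (h.lab_lt A hA)), map_sum,
    Finset.sum_congr rfl fun i hi => (g5_frame ht2 L hL (ht1 i (Finset.mem_range.1 hi))).trans
      (h2 i (Finset.mem_range.1 hi)), Finset.sum_const, Finset.card_range]

theorem g5_fsum {q : Mt} {M : Finset Mt} (h : (M : Set Mt) = Mn q) :
    ∑ᶠ A ∈ Mn q, A = ∑ A ∈ M, A := by
  rw [← h, finsum_mem_coe_finset]

/-- pairing with a form as a linear map -/
def g5_pr (q : Mt) : Mt →ₗ[ℤ] ℤ where
  toFun := pr q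
  map_add' := pr_add q
  map_smul' c A := pr_zsmul q A c

theorem g5_pr_apply (q A : Mt) : g5_pr q A = pr q A := rfl

theorem g5_zero {q q' : Mt} {S : Finset Mt} (h : (S : Set Mt) ⊆ Mn q) (h' : (S : Set Mt) ⊆ Mn q') :
    ∀ A ∈ S, g5_pr (q' - q) A = 0 := fun A hA => by
  rw [g5_pr_apply, pr_sub, (h hA).2, (h' hA).2, sub_self]

theorem g5_pos {q q' : Mt} {M : Finset Mt} {k : ℕ} {lab : Mt → ℕ} (h : Loc q M k lab)
    (hq : Vert q) (hq' : Vert q') (hne : q ≠ q') {S : Finset Mt} (hS : Miss M k lab S)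
    (hc : S.card = 9) (h' : (S : Set Mt) ⊆ Mn q') {u : Mt} (hu : u ∈ M) (hu' : u ∉ S) :
    0 < pr (q' - q) u := by
  have hm : u ∈ Mn q := h.mn ▸ Finset.mem_coe.2 hu
  have h0 := g5_zero (h.mn ▸ Finset.coe_subset.2 hS.1) h'
  have h1 : 0 ≤ pr (q' - q) u := by
    rw [pr_sub, hm.2]
    exact sub_nonneg.2 (hq'.two_le_mn hm)
  refine lt_of_le_of_ne h1 fun e => hne (sub_eq_zero.1 ?_).symm
  refine eq_zero_of_perf (hq'.symm.sub hq.symm) h.perf fun A hA => ?_
  by_cases hAS : A ∈ S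
  · exact h0 A hAS
  · exact ((g5_sum h hS hc _ h0 hu hu').1 A hA hAS).trans e.symm

theorem g5_ins {α : Type} [DecidableEq α] {M S : Finset α} {k : ℕ} {lab : α → ℕ}
    (hS : Miss M k lab S) {w w' : α} (hw : w ∈ M) (hw' : w' ∈ M) (hS' : w' ∉ S) (hne : w' ≠ w)
    (hl : lab w' = lab w) : Miss M k lab (insert w S) := by
  refine ⟨Finset.insert_subset hw hS.1, fun i hi => ?_⟩
  obtain ⟨A, hA, hA1, hA2⟩ := hS.2 i hi
  by_cases e : A = w
  · exact ⟨w', hw', hl.trans (e ▸ hA1), by simp [hne, hS']⟩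
  · exact ⟨A, hA, hA1, by simp [e, hA2]⟩

theorem g5_missing {q : Mt} {M : Finset Mt} {k : ℕ} {lab : Mt → ℕ} (h : Loc q M k lab)
    {S : Finset Mt} (hS : Miss M k lab S) : ∃ u ∈ M, u ∉ S := by
  obtain ⟨u, hu, -, hu'⟩ := hS.2 0 h.kpos
  exact ⟨u, hu, hu'⟩

theorem osg_br (q : Mt) (l : List Mt) :
    osg q (br l) = (Int.sign (vol ((∑ᶠ A ∈ Mn q, A) :: l)) : ℚ) := by
  refine lft_br (F := fun l => (Int.sign (vol ((∑ᶠ A ∈ Mn q, A) :: l)) : ℚ)) ?_ l
  intro l₁ a b l₂
  simp only [← List.cons_append]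
  rw [vol_swap, Int.sign_neg, Int.cast_neg]

/-- the orientation can be computed with any missing minimal vector -/
theorem osg_eq {q : Mt} {M : Finset Mt} {k : ℕ} {lab : Mt → ℕ} (h : Loc q M k lab)
    {l : List Mt} (hl : l.Nodup) (h9 : l.length = 9) (hS : Miss M k lab l.toFinset) {u : Mt}
    (hu : u ∈ M) (hu' : u ∉ l) : osg q (br l) = (Int.sign (vol (u :: l)) : ℚ) ∧
      vol (u :: l) ≠ 0 := by
  have hc : l.toFinset.card = 9 := by rw [List.toFinset_card_of_nodup hl, h9]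
  have hu2 : u ∉ l.toFinset := fun e => hu' (List.mem_toFinset.1 e)
  constructor
  · obtain ⟨L, hL⟩ := vol_lin l
    have h1 := (g5_sum h hS hc L
      (fun A hA => by rw [hL, vol_mem (List.mem_toFinset.1 hA)]) hu hu2).2
    rw [osg_br, g5_fsum h.mn, ← hL, h1, hL, nsmul_eq_mul, Int.sign_mul,
      Int.sign_eq_one_of_pos (Int.natCast_pos.2 h.kpos), one_mul]
  · refine vol_ne (by rw [List.length_cons, h9]) fun B hB => ?_
    refine Submodule.span_le.2 (fun A hA => ?_) (h.perf B hB)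
    by_cases hA' : A ∈ l.toFinset
    · exact Submodule.subset_span (List.mem_cons_of_mem _ (List.mem_toFinset.1 hA'))
    · have h1 := (g5_sum h hS hc (Submodule.span ℤ {A | A ∈ u :: l}).mkQ
        (fun A hA => (Submodule.Quotient.mk_eq_zero _).2
          (Submodule.subset_span (List.mem_cons_of_mem _ (List.mem_toFinset.1 hA)))) hu hu2).1
          A hA hA'
      refine (Submodule.Quotient.mk_eq_zero _).1 (h1.trans ?_)
      exact (Submodule.Quotient.mk_eq_zero _).2 (Submodule.subset_span List.mem_cons_self)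

theorem osg_sq {q : Mt} (hq : Vert q) {S : Finset Mt} (hS : Cell S) (h9 : S.card = 9)
    (h : (S : Set Mt) ⊆ Mn q) : osg q (single S 1) * osg q (single S 1) = 1 := by
  obtain ⟨M, k, lab, hL⟩ := exists_loc hq
  have hM : Miss M k lab S := (hL.cell_iff hq (Finset.coe_subset.1 (hL.mn ▸ h))).1 hS
  obtain ⟨u, hu, hu'⟩ := g5_missing hL hM
  obtain ⟨h1, h2⟩ := osg_eq hL S.nodup_toList (by rw [Finset.length_toList, h9])
    (by rwa [Finset.toList_toFinset]) hu (fun e => hu' (Finset.mem_toList.1 e))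
  obtain ⟨ε, hε, h3⟩ := br_nodup S.nodup_toList
  have h4 : br S.toList S = ε := by rw [h3, Finset.toList_toFinset, single_eq_same]
  rw [single_eq_br, map_smul, h1, h4, smul_eq_mul, mul_mul_mul_comm, hε, one_mul,
    ← Int.cast_mul, ← Int.sign_mul, Int.sign_eq_one_of_pos (mul_self_pos.2 h2), Int.cast_one]

theorem osg_opp {q q' : Mt} (hq : Vert q) (hq' : Vert q') (hne : q ≠ q') {S : Finset Mt}
    (h9 : S.card = 9) (h : (S : Set Mt) ⊆ Mn q) (h' : (S : Set Mt) ⊆ Mn q') :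
    osg q' (single S 1) = -osg q (single S 1) := by
  obtain ⟨M, k, lab, hL⟩ := exists_loc hq
  obtain ⟨M', k', lab', hL'⟩ := exists_loc hq'
  have hS : Cell S := ⟨q, q', hq, hq', hne, h, h'⟩
  have hM : Miss M k lab S := (hL.cell_iff hq (Finset.coe_subset.1 (hL.mn ▸ h))).1 hS
  have hM' : Miss M' k' lab' S := (hL'.cell_iff hq' (Finset.coe_subset.1 (hL'.mn ▸ h'))).1 hS
  obtain ⟨u, hu, hu'⟩ := g5_missing hL hM
  obtain ⟨v, hv, hv'⟩ := g5_missing hL' hM'
  obtain ⟨h1, -⟩ := osg_eq hL S.nodup_toList (by rw [Finset.length_toList, h9])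
    (by rwa [Finset.toList_toFinset]) hu (fun e => hu' (Finset.mem_toList.1 e))
  obtain ⟨h2, -⟩ := osg_eq hL' S.nodup_toList (by rw [Finset.length_toList, h9])
    (by rwa [Finset.toList_toFinset]) hv (fun e => hv' (Finset.mem_toList.1 e))
  obtain ⟨L, hLv⟩ := vol_lin S.toList
  have hL0 : ∀ A ∈ S, L A = 0 := fun A hA => by rw [hLv, vol_mem (Finset.mem_toList.2 hA)]
  have hD0 := g5_zero h h'
  have hp : 0 < pr (q' - q) u := g5_pos hL hq hq' hne hM h9 h' hu hu'
  have hp' : 0 < pr (q - q') v := g5_pos hL' hq' hq hne.symm hM' h9 h hv hv'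
  have hn : pr (q' - q) v < 0 := by
    rw [pr_sub] at hp' ⊢
    omega
  have key : pr (q' - q) u * L v = L u * pr (q' - q) v := by
    have h3 : ∀ B ∈ Submodule.span ℤ (M : Set Mt),
        (pr (q' - q) u • L) B = (L u • g5_pr (q' - q)) B := by
      intro B hB
      refine LinearMap.eqOn_span' (fun A hA => ?_) hB
      simp only [LinearMap.smul_apply, smul_eq_mul]
      by_cases hA' : A ∈ S
      · rw [hL0 A hA', hD0 A hA', mul_zero, mul_zero]
      · rw [(g5_sum hL hM h9 L hL0 hu hu').1 A hA hA', (g5_sum hL hM h9 _ hD0 hu hu').1 A hA hA',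
          mul_comm, g5_pr_apply]
    exact h3 v (hL.perf v (mn_symm (hL'.mn ▸ Finset.mem_coe.2 hv)))
  have h5 := congrArg Int.sign key
  rw [Int.sign_mul, Int.sign_mul, Int.sign_eq_one_of_pos hp, Int.sign_eq_neg_one_of_neg hn,
    one_mul, mul_neg_one] at h5
  rw [single_eq_br, map_smul, map_smul, h1, h2, ← hLv, ← hLv, h5, Int.cast_neg, smul_neg]

theorem osg_del {q : Mt} {M : Finset Mt} {k : ℕ} {lab : Mt → ℕ} (h : Loc q M k lab)
    {x : Ch Mt} (hx : x ∈ Sup fun S => Miss M k lab S ∧ S.card = 8) :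
    osg q (del (Miss M k lab) x) = 0 := by
  refine Sup_ind_br (Q := fun x => osg q (del (Miss M k lab) x) = 0) (by simp)
    (fun x y hx hy => by rw [map_add, map_add, hx, hy, add_zero])
    (fun c x hx => by rw [map_smul, map_smul, hx, smul_zero]) ?_ hx
  rintro l hl ⟨hS, h8⟩
  have hlen : l.length = 8 := by rw [← List.toFinset_card_of_nodup hl, h8]
  obtain ⟨w1, hw1, w2, hw2, hne, hlab⟩ := Finset.exists_ne_map_eq_of_card_lt_of_maps_to
    (s := M \ l.toFinset) (t := Finset.range k) (f := lab)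
    (by rw [Finset.card_range, Finset.card_sdiff_of_subset hS.1, h.card, h8]; omega)
    (fun A hA => Finset.mem_range.2 (h.lab_lt A (Finset.mem_sdiff.1 hA).1))
  obtain ⟨hw1, hw1'⟩ := Finset.mem_sdiff.1 hw1
  obtain ⟨hw2, hw2'⟩ := Finset.mem_sdiff.1 hw2
  have m1 := g5_ins hS hw1 hw2 hw2' hne.symm hlab.symm
  have m2 := g5_ins hS hw2 hw1 hw1' hne hlab
  have hW : ∀ w, w ∈ Ext (Miss M k lab) l.toFinset ↔ w ∈ ({w1, w2} : Finset Mt) := by
    intro w
    rw [Finset.mem_insert, Finset.mem_singleton]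
    constructor
    · rintro ⟨hw, hm⟩
      by_contra hc
      have c1 : w1 ≠ w := fun e => hc (Or.inl e.symm)
      have c2 : w2 ≠ w := fun e => hc (Or.inr e.symm)
      have h1 := (g5_ins hm hw1 hw2 (by simp [c2, hw2']) hne.symm hlab.symm).card_le
      rw [Finset.card_insert_of_notMem (by simp [c1, hw1']), Finset.card_insert_of_notMem hw,
        h8, h.card] at h1
      omega
    · rintro (rfl | rfl)
      · exact ⟨hw1', m1⟩
      · exact ⟨hw2', m2⟩
  have n1 : w1 ∉ l := fun e => hw1' (List.mem_toFinset.2 e)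
  have n2 : w2 ∉ l := fun e => hw2' (List.mem_toFinset.2 e)
  have e1 := (osg_eq h (List.nodup_cons.2 ⟨n1, hl⟩) (by rw [List.length_cons, hlen])
    (by rwa [List.toFinset_cons]) hw2 (by simp [hne.symm, n2])).1
  have e2 := (osg_eq h (List.nodup_cons.2 ⟨n2, hl⟩) (by rw [List.length_cons, hlen])
    (by rwa [List.toFinset_cons]) hw1 (by simp [hne, n1])).1
  have e3 : vol (w2 :: w1 :: l) = -vol (w1 :: w2 :: l) := vol_swap [] w2 w1 l
  rw [del_br hl hW, Finset.sum_pair hne, map_add, e1, e2, e3, Int.sign_neg, Int.cast_neg,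
    neg_add_cancel]

theorem osg_ga (g : GLz 4) {q : Mt} (hq : Vert q) {x : Ch Mt}
    (hx : x ∈ Sup fun S => (S : Set Mt) ⊆ Mn q) :
    osg (va g q) (ga g x) = dt g * osg q x := by
  obtain ⟨M, k, lab, hL⟩ := exists_loc hq
  have hM : ((M.image (cj g) : Finset Mt) : Set Mt) = Mn (va g q) := by
    ext A
    rw [va, mem_Mn_pb, ← hL.mn, Finset.mem_coe, Finset.mem_coe, Finset.mem_image]
    constructor
    · rintro ⟨B, hB, rfl⟩
      rwa [cj_linv]
    · intro hA
      exact ⟨_, hA, cj_rinv g A⟩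
  have hB : ∑ᶠ A ∈ Mn (va g q), A = cj g (∑ᶠ A ∈ Mn q, A) := by
    rw [g5_fsum hM, g5_fsum hL.mn, Finset.sum_image fun a _ b _ e => cj_inj g e]
    simp only [cj, Finset.mul_sum, Finset.sum_mul]
  have hs : (∑ᶠ A ∈ Mn q, A).IsSymm := by
    rw [g5_fsum hL.mn, Matrix.IsSymm, Matrix.transpose_sum]
    exact Finset.sum_congr rfl fun A hA => mn_symm (hL.mn ▸ Finset.mem_coe.2 hA)
  refine Sup_ind_br (Q := fun x => osg (va g q) (ga g x) = dt g * osg q x) (by simp)
    (fun x y hx hy => by rw [map_add, map_add, hx, hy, map_add, mul_add])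
    (fun c x hx => by rw [map_smul, map_smul, hx, map_smul, smul_eq_mul, smul_eq_mul,
      mul_left_comm]) ?_ hx
  intro l _ hl
  rw [ga, act_br, osg_br, osg_br, hB, ← List.map_cons, vol_cj, Int.sign_mul, Int.cast_mul]
  · congr 1
    rcases dt_pm g with e | e
    · have e' : (g : Mt).det = 1 := by exact_mod_cast (show (((g : Mt).det : ℤ) : ℚ) = 1 from e)
      rw [e, e']
      norm_num
    · have e' : (g : Mt).det = -1 := by
        exact_mod_cast (show (((g : Mt).det : ℤ) : ℚ) = -1 from e)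
      rw [e, e']
      norm_num
  · intro A hA
    rcases List.mem_cons.1 hA with rfl | hA
    · exact hs
    · exact mn_symm (hl (Finset.mem_coe.2 (List.mem_toFinset.2 hA)))

end Pool.Agent.MP_cbe134_nt.V

end

section

/- The boundary map from facets to perfect forms. -/

open Matrix Finsupp

namespace Pool.Agent.MP_cbe134_nt.V

open Classical in
theorem dd_single {S : Finset Mt} (hS : Spans S) (q : Mt) :
    dd (single S 1) q = if Vert q ∧ (S : Set Mt) ⊆ Mn q then osg q (single S 1) else 0 := by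
  rw [dd, linearCombination_single, one_smul, finsum_mem_eq_finite_toFinset_sum _ (vert_fin hS),
    Finsupp.finsetSum_apply]
  simp only [Finsupp.single_apply, Finset.sum_ite_eq', Set.Finite.mem_toFinset,
    Set.mem_ofPred_eq]

theorem dd_in {q : Mt} (hq : Vert q) {x : Ch Mt}
    (hx : x ∈ Sup fun S => Spans S ∧ (S : Set Mt) ⊆ Mn q) : dd x q = osg q x := by
  refine Sup_ind (Q := fun x => dd x q = osg q x) (by simp) (fun x y h1 h2 => ?_)
    (fun c x h1 => ?_) (fun S hS => ?_) hx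
  · rw [map_add, map_add, Finsupp.add_apply, h1, h2]
  · rw [map_smul, map_smul, Finsupp.smul_apply, h1]
  · rw [dd_single hS.1, if_pos ⟨hq, hS.2⟩]

theorem dd_out {q : Mt} {x : Ch Mt}
    (hx : x ∈ Sup fun S => Spans S ∧ ¬ (S : Set Mt) ⊆ Mn q) : dd x q = 0 := by
  refine Sup_ind (Q := fun x => dd x q = 0) (by simp) (fun x y h1 h2 => ?_)
    (fun c x h1 => ?_) (fun S hS => ?_) hx
  · rw [map_add, Finsupp.add_apply, h1, h2, add_zero]
  · rw [map_smul, Finsupp.smul_apply, h1, smul_zero]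
  · rw [dd_single hS.1, if_neg fun h => hS.2 h.2]

theorem g6_nv {q : Mt} (hq : ¬ Vert q) {x : Ch Mt} (hx : x ∈ Sup Spans) : dd x q = 0 := by
  refine Sup_ind (Q := fun x => dd x q = 0) (by simp) (fun x y h1 h2 => ?_)
    (fun c x h1 => ?_) (fun S hS => ?_) hx
  · rw [map_add, Finsupp.add_apply, h1, h2, add_zero]
  · rw [map_smul, Finsupp.smul_apply, h1, smul_zero]
  · rw [dd_single hS, if_neg fun h => hq h.1]

theorem dd_mem {x : Ch Mt} (hx : x ∈ Wc 9) : dd x ∈ supported ℚ ℚ {q | Vert q} := by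
  exact (mem_supported' ℚ _).2 fun q hq => g6_nv hq (Wc_le_spans (by norm_num) hx)

theorem dd_ga (g : GLz 4) {x : Ch Mt} (hx : x ∈ Wc 9) :
    dd (ga g x) = dt g • mapDomain (va g) (dd x) := by
  refine Sup_ind (Q := fun x => dd (ga g x) = dt g • mapDomain (va g) (dd x)) (by simp)
    (fun x y h1 h2 => ?_) (fun c x h1 => ?_) (fun S hS => ?_) hx
  · rw [map_add, map_add, map_add, h1, h2, mapDomain_add, smul_add]
  · rw [map_smul, map_smul, map_smul, h1, mapDomain_smul, smul_comm]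
  · have hS' : Spans S := hS.1.spans (by rw [hS.2]; norm_num)
    have hl : ∀ q, pb g (va g q) = q := fun q => by
      rw [va, ← pb_mul, Units.inv_mul, pb_one]
    ext q
    obtain ⟨q, rfl⟩ : ∃ q0, q = va g q0 :=
      ⟨va g⁻¹ q, by rw [← va_mul, mul_inv_cancel, va_one]⟩
    rw [Finsupp.smul_apply, mapDomain_apply (Function.LeftInverse.injective hl), smul_eq_mul,
      dd_single hS']
    split_ifs with h
    · rw [← osg_ga g h.1 (single_mem_Sup h.2 1)]
      refine dd_in (va_vert g h.1) (act_mem_Sup (cj_inj g) (p := fun T => T = S) ?_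
        (single_mem_Sup (p := fun T => T = S) rfl 1))
      rintro T rfl
      exact ⟨(spans_image g T).2 hS', by rw [image_sub_mn, hl]; exact h.2⟩
    · rw [mul_zero]
      by_cases hq : Vert q
      · refine dd_out (act_mem_Sup (cj_inj g) (p := fun T => T = S) ?_
          (single_mem_Sup (p := fun T => T = S) rfl 1))
        rintro T rfl
        exact ⟨(spans_image g T).2 hS', by rw [image_sub_mn, hl]; exact fun h' => h ⟨hq, h'⟩⟩
      · exact g6_nv (fun h' => hq (hl q ▸ h'.pb g)) (stb_Spans g trivial _ (single_mem_Sup hS' 1))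

theorem dd_del {x : Ch Mt} (hx : x ∈ Wc 8) : dd (del Cell x) = 0 := by
  refine Sup_ind (Q := fun x => dd (del Cell x) = 0) (by simp)
    (fun x y h1 h2 => ?_) (fun c x h1 => ?_) (fun S hS => ?_) hx
  · rw [map_add, map_add, h1, h2, add_zero]
  · rw [map_smul, map_smul, h1, smul_zero]
  · have hS' : Spans S := hS.1.spans (by rw [hS.2]; norm_num)
    have h1 : single S (1 : ℚ) ∈ Sup fun T => T = S :=
      single_mem_Sup (p := fun T => T = S) rfl 1
    have h2 : ∀ w, Spans (insert w S) := fun w => hS'.mono (Finset.subset_insert w S)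
    ext q
    rw [Finsupp.zero_apply]
    by_cases hq : Vert q
    swap
    · exact g6_nv hq (del_mem_spans (single_mem_Sup hS' 1))
    by_cases h : (S : Set Mt) ⊆ Mn q
    swap
    · refine dd_out (del_mem_Sup (by rintro T rfl; exact ext_fin hS') ?_ h1)
      rintro T w rfl -
      exact ⟨h2 w, fun h' => h ((Finset.coe_subset.2 (Finset.subset_insert w T)).trans h')⟩
    obtain ⟨M, k, lab, hL⟩ := exists_loc hq
    have h3 : ∀ T : Finset Mt, (T : Set Mt) ⊆ Mn q ↔ T ⊆ M := fun T => by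
      rw [← hL.mn, Finset.coe_subset]
    have h4 : dd (del Cell (single S 1) - del (Miss M k lab) (single S 1)) q = 0 := by
      refine dd_out (del_sub_del (by rintro T rfl; exact ext_fin hS') ?_ ?_ h1)
      · rintro T rfl w hw
        exact ⟨hw.1, (hL.cell_iff hq hw.2.1).2 hw.2⟩
      · rintro T w rfl hw hw'
        exact ⟨h2 w, fun h' => hw' ⟨hw.1, (hL.cell_iff hq ((h3 _).1 h')).1 hw.2⟩⟩
    rw [map_sub, Finsupp.sub_apply, sub_eq_zero] at h4
    rw [h4, ← osg_del hL (single_mem_Sup ⟨(hL.cell_iff hq ((h3 S).1 h)).1 hS.1, hS.2⟩ 1)]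
    refine dd_in hq (del_mem_Sup (fun T _ => ext_Miss_fin M k lab T) ?_ h1)
    rintro T w rfl hw
    exact ⟨h2 w, (h3 _).2 hw.2.1⟩

theorem dd_edge {q q' : Mt} (hq : Vert q) (hq' : Vert q') (hne : q ≠ q') {S : Finset Mt}
    (h9 : S.card = 9) (h : (S : Set Mt) ⊆ Mn q) (h' : (S : Set Mt) ⊆ Mn q') :
    dd (single S 1) = osg q (single S 1) • (single q 1 - single q' 1) := by
  have hc : Cell S := ⟨q, q', hq, hq', hne, h, h'⟩
  have h1 := osg_opp hq hq' hne h9 h h'
  ext r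
  rw [dd_single (hc.spans (by rw [h9]; norm_num)), Finsupp.smul_apply, Finsupp.sub_apply,
    smul_eq_mul]
  by_cases e : r = q
  · subst e
    rw [if_pos ⟨hq, h⟩, single_eq_same, single_eq_of_ne hne, sub_zero, mul_one]
  by_cases e' : r = q'
  · subst e'
    rw [if_pos ⟨hq', h'⟩, single_eq_same, single_eq_of_ne e, h1, zero_sub, mul_neg, mul_one]
  rw [single_eq_of_ne e, single_eq_of_ne e', sub_zero, mul_zero, if_neg]
  rintro ⟨hr, hr'⟩
  have h2 := osg_opp hr hq e h9 hr' h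
  have h3 := osg_opp hr hq' e' h9 hr' h'
  have h4 := osg_sq hq hc h9 h
  have h5 : osg q (single S 1) = 0 := by linarith
  rw [h5, mul_zero] at h4
  exact zero_ne_one h4

theorem dd_aug {x : Ch Mt} (hx : x ∈ Wc 9) : ((dd x).sum fun _ c => c) = 0 := by
  have h1 : ∀ y : Mt →₀ ℚ, (y.sum fun _ c => c) =
      linearCombination ℚ (fun _ : Mt => (1 : ℚ)) y := fun y => by
    simp [linearCombination_apply]
  rw [h1]
  refine Sup_ind (Q := fun x => linearCombination ℚ (fun _ : Mt => (1 : ℚ)) (dd x) = 0) (by simp)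
    (fun x y h1 h2 => ?_) (fun c x h1 => ?_) (fun S hS => ?_) hx
  · rw [map_add, map_add, h1, h2, add_zero]
  · rw [map_smul, map_smul, h1, smul_zero]
  · obtain ⟨⟨q, q', hq, hq', hne, h, h'⟩, h9⟩ := hS
    rw [dd_edge hq hq' hne h9 h h', map_smul, map_sub, linearCombination_single,
      linearCombination_single, sub_self, smul_zero]

end Pool.Agent.MP_cbe134_nt.V

end

section

/- Descending cells and connectivity. -/

open Matrix Finsupp

namespace Pool.Agent.MP_cbe134_nt.V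

section aux

variable {ℓ : Mt →+ ℝ} {q : Mt} {M : Finset Mt} {k : ℕ} {lab : Mt → ℕ} {lam : Mt → ℝ}

theorem g7_mem (h : Loc q M k lab) {A : Mt} (hA : A ∈ M) : A ∈ Mn q := by
  rw [← h.mn]
  exact hA

theorem g7_fib (h : Loc q M k lab) (f : Mt → ℝ) :
    ∑ A ∈ M, f A = ∑ i ∈ Finset.range k, ∑ A ∈ M.filter (fun A => lab A = i), f A :=
  (Finset.sum_fiberwise_of_maps_to (fun A hA => Finset.mem_range.2 (h.lab_lt A hA)) f).symm

theorem g7_nonneg (h : Loc q M k lab) {q' : Mt} (hq' : Vert q') {A : Mt} (hA : A ∈ M) :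
    (0 : ℝ) ≤ pr (q' - q) A := by
  have h1 := hq'.two_le_mn (g7_mem h hA)
  have h2 := (g7_mem h hA).2
  have : 0 ≤ pr (q' - q) A := by rw [pr_sub]; omega
  exact_mod_cast this

theorem g7_frame (h : Loc q M k lab) (hq : Vert q) {q' : Mt} (hq' : Vert q') (hne : q' ≠ q) :
    ∃ H : ℝ, 0 < H ∧ ∀ m : ℕ → ℝ,
      ∑ A ∈ M, m (lab A) * (pr (q' - q) A : ℝ) = H * ∑ i ∈ Finset.range k, m i := by
  obtain ⟨H, hH, hs⟩ := h.frame_pos hq hq' hne
  refine ⟨H, by exact_mod_cast hH, fun m => ?_⟩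
  rw [g7_fib h, Finset.mul_sum]
  refine Finset.sum_congr rfl fun i hi => ?_
  rw [← hs i (Finset.mem_range.1 hi), Int.cast_sum, Finset.sum_mul]
  refine Finset.sum_congr rfl fun A hA => ?_
  rw [(Finset.mem_filter.1 hA).2, mul_comm]

theorem g7_up (h : Loc q M k lab) (hq : Vert q)
    (hlam : ∀ h : Mt, h.IsSymm → ℓ h = ∑ A ∈ M, lam A * (pr h A : ℝ)) {q' : Mt} (hq' : Vert q')
    (m : ℕ → ℝ) (hm : ∑ i ∈ Finset.range k, m i ≤ 0)
    (hA : ∀ A ∈ M, A ∉ Mn q' → lam A ≤ m (lab A)) : ℓ q' ≤ ℓ q := by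
  by_cases hne : q' = q
  · rw [hne]
  obtain ⟨H, hH, hs⟩ := g7_frame h hq hq' hne
  rw [← sub_nonpos, ← map_sub, hlam _ (hq'.symm.sub hq.symm)]
  refine le_trans (Finset.sum_le_sum fun A hA' => ?_) ((hs m).le.trans
    (mul_nonpos_of_nonneg_of_nonpos hH.le hm))
  by_cases h1 : A ∈ Mn q'
  · rw [pr_sub, h1.2, (g7_mem h hA').2]
    simp
  · exact mul_le_mul_of_nonneg_right (hA A hA' h1) (g7_nonneg h hq' hA')

theorem g7_low (h : Loc q M k lab) (hq : Vert q)
    (hlam : ∀ h : Mt, h.IsSymm → ℓ h = ∑ A ∈ M, lam A * (pr h A : ℝ)) {q' : Mt} (hq' : Vert q')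
    (m : ℕ → ℝ) (hm : 0 ≤ ∑ i ∈ Finset.range k, m i)
    (hA : ∀ A ∈ M, m (lab A) ≤ lam A) : ℓ q ≤ ℓ q' := by
  by_cases hne : q' = q
  · rw [hne]
  obtain ⟨H, hH, hs⟩ := g7_frame h hq hq' hne
  rw [← sub_nonneg, ← map_sub, hlam _ (hq'.symm.sub hq.symm)]
  refine le_trans ((mul_nonneg hH.le hm).trans (hs m).ge) (Finset.sum_le_sum fun A hA' => ?_)
  exact mul_le_mul_of_nonneg_right (hA A hA') (g7_nonneg h hq' hA')

theorem g7_nbr (h : Loc q M k lab) (hq : Vert q)
    (hlam : ∀ h : Mt, h.IsSymm → ℓ h = ∑ A ∈ M, lam A * (pr h A : ℝ)) {t : ℕ → Mt}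
    (ht : ∀ i < k, t i ∈ M ∧ lab (t i) = i) : ∃ q', Vert q' ∧
      (∀ A ∈ M, t (lab A) ≠ A → A ∈ Mn q') ∧
      (ℓ q' ≤ ℓ q → ∑ i ∈ Finset.range k, lam (t i) ≤ 0) := by
  obtain ⟨q', hq', c, hc, hp⟩ := h.nbr t ht
  refine ⟨q', hq', fun A hA hne => ⟨(g7_mem h hA).1, by rw [hp A hA, if_neg hne]⟩, fun hle => ?_⟩
  rw [← sub_nonpos, ← map_sub, hlam _ (hq'.symm.sub hq.symm), g7_fib h] at hle
  have e : ∀ i ∈ Finset.range k, ∑ A ∈ M.filter (fun A => lab A = i),
      lam A * (pr (q' - q) A : ℝ) = c * lam (t i) := by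
    intro i hi
    obtain ⟨h1, h2⟩ := ht i (Finset.mem_range.1 hi)
    rw [Finset.sum_eq_single_of_mem (t i) (Finset.mem_filter.2 ⟨h1, h2⟩)]
    · rw [pr_sub, hp _ h1, h2, if_pos rfl, (g7_mem h h1).2]
      push_cast
      ring
    · intro A hA hne
      obtain ⟨h3, h4⟩ := Finset.mem_filter.1 hA
      rw [pr_sub, hp _ h3, h4, if_neg hne.symm, (g7_mem h h3).2]
      simp
  rw [Finset.sum_congr rfl e, ← Finset.mul_sum] at hle
  have hc' : (0 : ℝ) < c := by exact_mod_cast hc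
  by_contra h0
  exact absurd hle (not_le.2 (mul_pos hc' (not_le.1 h0)))

end aux

theorem top_erase {ℓ : Mt →+ ℝ} (hℓ : Ht ℓ) {q : Mt} (hq : Vert q) {M : Finset Mt} {k : ℕ}
    {lab : Mt → ℕ} (h : Loc q M k lab) : ∃ u : ℕ → Mt, (∀ i < k, u i ∈ M ∧ lab (u i) = i) ∧
      (∀ S, Cell S → Top ℓ q S → ∀ i < k, Top ℓ q (S.erase (u i))) ∧
      ((∃ S, Cell S ∧ S.card = 9 ∧ Top ℓ q S) ∨ ∀ q', Vert q' → ℓ q ≤ ℓ q') := by
  obtain ⟨lam, hlam⟩ := hℓ.wts M h.perf
  have hu : ∀ i, ∃ A, i < k → (A ∈ M ∧ lab A = i) ∧ ∀ B ∈ M, lab B = i → lam A ≤ lam B := by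
    intro i
    by_cases hi : i < k
    · obtain ⟨A, hA, hA'⟩ := h.ne i hi
      obtain ⟨B, hB, hB'⟩ := Finset.exists_min_image (M.filter fun A => lab A = i) lam
        ⟨A, Finset.mem_filter.2 ⟨hA, hA'⟩⟩
      exact ⟨B, fun _ => ⟨Finset.mem_filter.1 hB,
        fun C hC hC' => hB' C (Finset.mem_filter.2 ⟨hC, hC'⟩)⟩⟩
    · exact ⟨0, fun h => absurd h hi⟩
  choose u hu using hu
  refine ⟨u, fun i hi => (hu i hi).1, fun S hS hT i hi => ?_, ?_⟩
  · have hSM : S ⊆ M := fun A hA => by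
      have := hT.2.1 hA
      rwa [← h.mn] at this
    have hmiss := ((h.cell_iff hq hSM).1 hS).2
    have ht : ∀ j, ∃ A, j < k → (A ∈ M ∧ lab A = j) ∧ A ∉ S ∧
        ∀ B ∈ M, lab B = j → B ∉ S → lam B ≤ lam A := by
      intro j
      by_cases hj : j < k
      · obtain ⟨A, hA, hA', hA''⟩ := hmiss j hj
        obtain ⟨B, hB, hB'⟩ := Finset.exists_max_image (M.filter fun A => lab A = j ∧ A ∉ S) lam
          ⟨A, Finset.mem_filter.2 ⟨hA, hA', hA''⟩⟩
        obtain ⟨h1, h2, h3⟩ := Finset.mem_filter.1 hB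
        exact ⟨B, fun _ => ⟨⟨h1, h2⟩, h3,
          fun C hC hC' hC'' => hB' C (Finset.mem_filter.2 ⟨hC, hC', hC''⟩)⟩⟩
      · exact ⟨0, fun h => absurd h hj⟩
    choose t ht using ht
    obtain ⟨q', hq', h1, h2⟩ := g7_nbr h hq hlam fun j hj => (ht j hj).1
    have h3 := h2 (hT.2.2 q' hq' fun A hA => h1 A (hSM hA) fun e =>
      (ht _ (h.lab_lt A (hSM hA))).2.1 (by rw [e]; exact hA))
    refine ⟨hq, fun A hA => hT.2.1 (Finset.mem_of_mem_erase hA), fun p hp hSp => ?_⟩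
    refine g7_up h hq hlam hp _ h3 fun A hA hA' => ?_
    by_cases hAS : A ∈ S
    · have e : A = u i := by
        by_contra e
        exact hA' (hSp (Finset.mem_erase.2 ⟨e, hAS⟩))
      rw [e, (hu i hi).1.2]
      exact (hu i hi).2 _ (ht i hi).1.1 (ht i hi).1.2
    · exact (ht _ (h.lab_lt A hA)).2.2 A hA rfl hAS
  · rcases le_total (∑ i ∈ Finset.range k, lam (u i)) 0 with h0 | h0
    · left
      have hsub : M.filter (fun A => ¬ u (lab A) = A) ⊆ M := Finset.filter_subset _ _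
      refine ⟨M.filter fun A => ¬ u (lab A) = A, (h.cell_iff hq hsub).2 ⟨hsub, fun i hi =>
        ⟨u i, (hu i hi).1.1, (hu i hi).1.2, fun hm => (Finset.mem_filter.1 hm).2
          (by rw [(hu i hi).1.2])⟩⟩, ?_, hq, fun A hA => g7_mem h (hsub hA), fun p hp hSp => ?_⟩
      · have e : (M.filter fun A => u (lab A) = A).card = k := by
          rw [← Finset.card_range k]
          refine Finset.card_nbij' lab u (fun A hA => ?_) (fun i hi => ?_) (fun A hA => ?_)
            fun i hi => ?_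
          · exact Finset.mem_range.2 (h.lab_lt A (Finset.mem_filter.1 hA).1)
          · have := (hu i (Finset.mem_range.1 hi)).1
            exact Finset.mem_filter.2 ⟨this.1, by rw [this.2]⟩
          · exact (Finset.mem_filter.1 hA).2
          · exact (hu i (Finset.mem_range.1 hi)).1.2
        have := Finset.card_filter_add_card_filter_not (s := M) fun A => u (lab A) = A
        have h9 := h.card
        omega
      · refine g7_up h hq hlam hp _ h0 fun A hA hA' => ?_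
        have e : u (lab A) = A := by
          by_contra e
          exact hA' (hSp (Finset.mem_filter.2 ⟨hA, e⟩))
        rw [e]
    · right
      exact fun p hp => g7_low h hq hlam hp _ h0 fun A hA => (hu _ (h.lab_lt A hA)).2 A hA rfl

theorem ex10 {q q' : Mt} (hq : Vert q) (hq' : Vert q') :
    ∃ x ∈ Wc 9, dd x = single q 1 - single q' 1 := by
  obtain ⟨ℓ, hℓ⟩ := exists_ht
  obtain ⟨q0, hq0, hmin⟩ : ∃ q0, Vert q0 ∧ ∀ p, Vert p → ℓ q0 ≤ ℓ p := by
    obtain ⟨q0, h1, h2⟩ := Set.exists_min_image _ ℓ (hℓ.fin (ℓ q)) ⟨q, hq, le_rfl⟩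
    refine ⟨q0, h1.1, fun p hp => ?_⟩
    rcases le_total (ℓ p) (ℓ q) with h3 | h3
    · exact h2 p ⟨hp, h3⟩
    · exact h1.2.trans h3
  have hfin : ∀ p : Mt, {r | Vert r ∧ ℓ r < ℓ p}.Finite :=
    fun p => (hℓ.fin (ℓ p)).subset fun r hr => ⟨hr.1, hr.2.le⟩
  have key : ∀ n, ∀ p, Vert p → {r | Vert r ∧ ℓ r < ℓ p}.ncard = n →
      single p (1 : ℚ) - single q0 1 ∈ (Wc 9).map dd := by
    intro n
    induction n using Nat.strong_induction_on with
    | _ n ih =>
      intro p hp hn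
      obtain ⟨M, k, lab, hl⟩ := exists_loc hp
      obtain ⟨u, -, -, ⟨S, hS, h9, hT⟩ | h3⟩ := top_erase hℓ hp hl
      · obtain ⟨r, hr, hne, hSr⟩ : ∃ r, Vert r ∧ p ≠ r ∧ (S : Set Mt) ⊆ Mn r := by
          obtain ⟨a, b, ha, hb, hab, hSa, hSb⟩ := hS
          by_cases e : p = a
          · exact ⟨b, hb, e ▸ hab, hSb⟩
          · exact ⟨a, ha, e, hSa⟩
        have hlt : ℓ r < ℓ p := lt_of_le_of_ne (hT.2.2 r hr hSr)
          fun e => hne (hℓ.eq_of_eq hr hp e).symm
        have h1 := ih _ (hn ▸ Set.ncard_lt_ncard ⟨fun s hs => ⟨hs.1, hs.2.trans hlt⟩,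
          fun hs => lt_irrefl _ (hs ⟨hr, hlt⟩).2⟩ (hfin p)) r hr rfl
        have h2 : single p (1 : ℚ) - single r 1 ∈ (Wc 9).map dd := by
          refine ⟨osg p (single S 1) • single S 1, Submodule.smul_mem _ _
            (single_mem_supported _ _ ⟨hS, h9⟩), ?_⟩
          rw [map_smul, dd_edge hp hr hne h9 hT.2.1 hSr, smul_smul, osg_sq hp hS h9 hT.2.1,
            one_smul]
        simpa using add_mem h2 h1
      · rw [hℓ.eq_of_eq hp hq0 (le_antisymm (h3 q0 hq0) (hmin p hp)), sub_self]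
        exact zero_mem _
  have h := Submodule.sub_mem _ (key _ q hq rfl) (key _ q' hq' rfl)
  rwa [sub_sub_sub_cancel_right] at h

end Pool.Agent.MP_cbe134_nt.V

end

section

/- Exactness of the dual Voronoi complex in the top degrees. -/

open Matrix Finsupp

namespace Pool.Agent.MP_cbe134_nt.V

theorem g8_sub {q : Mt} {M : Finset Mt} {k : ℕ} {lab : Mt → ℕ} (h : Loc q M k lab)
    {S : Finset Mt} : S ⊆ M ↔ (S : Set Mt) ⊆ Mn q := by
  rw [← h.mn, Finset.coe_subset]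

theorem g8_contract {ℓ : Mt →+ ℝ} (hℓ : Ht ℓ) {q : Mt} (hq : Vert q) {M : Finset Mt} {k : ℕ}
    {lab : Mt → ℕ} (h : Loc q M k lab) (n : ℕ) {z : Ch Mt}
    (hz : z ∈ Sup fun S => (Cell S ∧ Top ℓ q S) ∧ S.card = n + 1)
    (h0 : del (Miss M k lab) z = 0) :
    ∃ y ∈ Sup fun S => (Cell S ∧ Top ℓ q S) ∧ S.card = n, ∃ S₀ : Finset Mt, S₀.card = 9 ∧
      z - del (Miss M k lab) y ∈
        Sup fun S => (Cell S ∧ Top ℓ q S) ∧ S.card = n + 1 ∧ S = S₀ := by
  obtain ⟨u, hu, her, -⟩ := top_erase hℓ hq h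
  obtain ⟨y, hy, hr⟩ := local_contract M k lab h.lab_lt u hu (fun S => Cell S ∧ Top ℓ q S)
    (fun S hS => (h.cell_iff hq ((g8_sub h).2 hS.2.2.1)).1 hS.1)
    (fun S T hS hST hT => ⟨(h.cell_iff hq hT.1).2 hT, hq, (g8_sub h).1 hT.1, fun q' hq' hT' =>
      hS.2.2.2 q' hq' ((Finset.coe_subset.2 hST).trans hT')⟩)
    (fun S hS i hi => ⟨hS.1.mono (Finset.erase_subset _ _), her S hS.1 hS.2 i hi⟩) n hz h0
  refine ⟨y, hy, _, ?_, hr⟩
  have h1 : (Finset.range k).image u ⊆ M := by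
    intro A hA
    obtain ⟨i, hi, rfl⟩ := Finset.mem_image.1 hA
    exact (hu i (Finset.mem_range.1 hi)).1
  have h2 : ((Finset.range k).image u).card = k := by
    rw [Finset.card_image_of_injOn, Finset.card_range]
    intro i hi j hj e
    rw [← (hu i (Finset.mem_range.1 hi)).2, e, (hu j (Finset.mem_range.1 hj)).2]
  rw [Finset.card_sdiff_of_subset h1, h2, h.card]
  omega

theorem g8_diff {q : Mt} (hq : Vert q) {M : Finset Mt} {k : ℕ} {lab : Mt → ℕ}
    (h : Loc q M k lab) {p r : Finset Mt → Prop} (hp : ∀ S, p S → Spans S)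
    (hr : ∀ S w, p S → w ∉ S → Cell (insert w S) →
      ¬ ((insert w S : Finset Mt) : Set Mt) ⊆ Mn q → r (insert w S))
    {x : Ch Mt} (hx : x ∈ Sup p) : del Cell x - del (Miss M k lab) x ∈ Sup r :=
  del_sub_del (fun S hS => ext_fin (hp S hS))
    (fun _ _ _ hw => ⟨hw.1, (h.cell_iff hq hw.2.1).2 hw.2⟩)
    (fun S w hS hw hw' => hr S w hS hw.1 hw.2 fun e =>
      hw' ⟨hw.1, (h.cell_iff hq ((g8_sub h).2 e)).1 hw.2⟩) hx

theorem g8_zero {p : Finset Mt → Prop} {x : Ch Mt} (hx : x ∈ Sup p) (h : ∀ S, ¬ p S) :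
    x = 0 :=
  Finsupp.ext fun S => by_contra fun e => h S (mem_Sup_iff.1 hx S e)

theorem g8_main {n : ℕ} (hn : 7 ≤ n) (Z : Submodule ℚ (Ch Mt))
    (hZ : ∀ y ∈ Wc n, del Cell y ∈ Z) {ℓ : Mt →+ ℝ} (hℓ : Ht ℓ)
    (hloc : ∀ q M k lab, Vert q → Loc q M k lab → ∀ x₁ x₂ : Ch Mt,
      (x₁ ∈ Sup fun S => (Cell S ∧ Top ℓ q S) ∧ S.card = n + 1) →
      (x₂ ∈ Sup fun S => (Cell S ∧ S.card = n + 1) ∧ ¬ (S : Set Mt) ⊆ Mn q) → x₁ + x₂ ∈ Z →
      ∃ y ∈ Sup fun S => (Cell S ∧ Top ℓ q S) ∧ S.card = n, del (Miss M k lab) y = x₁)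
    {x : Ch Mt} (hx : x ∈ Wc (n + 1)) (hc : x ∈ Z) : ∃ y ∈ Wc n, del Cell y = x := by
  classical
  have key : ∀ (N : ℕ) (t : ℝ), {q | Vert q ∧ ℓ q < t}.ncard = N → ∀ x : Ch Mt,
      (x ∈ Sup fun S => (Cell S ∧ S.card = n + 1) ∧
        ∀ q', Vert q' → (S : Set Mt) ⊆ Mn q' → ℓ q' < t) → x ∈ Z →
      ∃ y ∈ Wc n, del Cell y = x := by
    intro N
    induction N using Nat.strong_induction_on with
    | _ N ih =>
      intro t ht x hx hc
      have hfin : {q | Vert q ∧ ℓ q < t}.Finite :=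
        (hℓ.fin t).subset fun q hq => ⟨hq.1, hq.2.le⟩
      rcases Set.eq_empty_or_nonempty {q | Vert q ∧ ℓ q < t} with he | hne
      · refine ⟨0, zero_mem _, ?_⟩
        rw [map_zero, g8_zero hx]
        rintro S ⟨⟨⟨q, -, hq, -, -, hS, -⟩, -⟩, h⟩
        exact he.subset (show q ∈ {q | Vert q ∧ ℓ q < t} from ⟨hq, h q hq hS⟩)
      obtain ⟨q, ⟨hq, hqt⟩, hmax⟩ := Set.exists_max_image _ ℓ hfin hne
      obtain ⟨M, k, lab, h⟩ := exists_loc hq
      have hlt : ∀ (S : Finset Mt) q', Vert q' → (S : Set Mt) ⊆ Mn q' → ¬ (S : Set Mt) ⊆ Mn q →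
          ℓ q' ≤ ℓ q → ℓ q' < ℓ q := fun S q' hq' h1 h2 h3 =>
        lt_of_le_of_ne h3 fun e => h2 (hℓ.eq_of_eq hq' hq e ▸ h1)
      have hs := Finsupp.filter_add_filter_not x fun S : Finset Mt => (S : Set Mt) ⊆ Mn q
      have h2 : ∀ S : Finset Mt, x.filter (fun S : Finset Mt => ¬ (S : Set Mt) ⊆ Mn q) S ≠ 0 →
          ¬ (S : Set Mt) ⊆ Mn q ∧ x S ≠ 0 := fun S hS => by
        simpa only [Finsupp.filter_apply, ite_ne_right_iff] using hS
      obtain ⟨y, hy, hyx⟩ := hloc q M k lab hq h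
        (x.filter fun S : Finset Mt => (S : Set Mt) ⊆ Mn q)
        (x.filter fun S : Finset Mt => ¬ (S : Set Mt) ⊆ Mn q)
        (mem_Sup_iff.2 fun S hS => by
          rw [Finsupp.filter_apply, ite_ne_right_iff] at hS
          have h1 := mem_Sup_iff.1 hx S hS.2
          exact ⟨⟨h1.1.1, hq, hS.1, fun q' hq' hS' => hmax q' ⟨hq', h1.2 q' hq' hS'⟩⟩, h1.1.2⟩)
        (mem_Sup_iff.2 fun S hS => ⟨(mem_Sup_iff.1 hx S (h2 S hS).2).1, (h2 S hS).1⟩)
        (by rw [hs]; exact hc)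
      have hyW : y ∈ Wc n := Sup_mono (fun S hS => ⟨hS.1.1, hS.2⟩) hy
      have e : x - del Cell y = x.filter (fun S : Finset Mt => ¬ (S : Set Mt) ⊆ Mn q) -
          (del Cell y - del (Miss M k lab) y) := by
        rw [hyx]
        nth_rewrite 1 [← hs]
        abel
      obtain ⟨y', hy', e'⟩ := ih _ (ht ▸ Set.ncard_lt_ncard (s := {q' | Vert q' ∧ ℓ q' < ℓ q})
        ⟨fun q' hq' => ⟨hq'.1, hq'.2.trans hqt⟩, fun hsub => lt_irrefl _ (hsub ⟨hq, hqt⟩).2⟩ hfin)
        (ℓ q) rfl (x - del Cell y) (by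
          rw [e]
          refine Submodule.sub_mem _ (mem_Sup_iff.2 fun S hS => ?_)
            (g8_diff hq h (fun S hS => hS.1.1.spans (hS.2 ▸ hn)) (fun S w hS hw h3 h4 => ?_) hy)
          · have h1 := mem_Sup_iff.1 hx S (h2 S hS).2
            exact ⟨h1.1, fun q' hq' hS' =>
              hlt S q' hq' hS' (h2 S hS).1 (hmax q' ⟨hq', h1.2 q' hq' hS'⟩)⟩
          · exact ⟨⟨h3, by rw [Finset.card_insert_of_notMem hw, hS.2]⟩, fun q' hq' hS' =>
              hlt _ q' hq' hS' h4 (hS.1.2.2.2 q' hq'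
                ((Finset.coe_subset.2 (Finset.subset_insert _ _)).trans hS'))⟩)
        (Z.sub_mem hc (hZ y hyW))
      exact ⟨y + y', add_mem hyW hy', by rw [map_add, e', add_sub_cancel]⟩
  have hfin : (⋃ S ∈ (x.support : Set (Finset Mt)),
      {q | Vert q ∧ (S : Set Mt) ⊆ Mn q}).Finite :=
    x.support.finite_toSet.biUnion fun S hS => by
      have h1 := mem_Sup_iff.1 hx S (Finsupp.mem_support_iff.1 hS)
      exact vert_fin (h1.1.spans (by rw [h1.2]; omega))
  obtain ⟨t, ht⟩ := (hfin.image ℓ).bddAbove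
  refine key _ (t + 1) rfl x (mem_Sup_iff.2 fun S hS =>
    ⟨mem_Sup_iff.1 hx S hS, fun q' hq' hS' => ?_⟩) hc
  exact (ht ⟨q', Set.mem_biUnion (Finsupp.mem_support_iff.2 hS) ⟨hq', hS'⟩, rfl⟩).trans_lt
    (lt_add_one t)

theorem ex8 {x : Ch Mt} (hx : x ∈ Wc 8) (h : del Cell x = 0) : ∃ y ∈ Wc 7, del Cell y = x := by
  obtain ⟨ℓ, hℓ⟩ := exists_ht
  refine g8_main le_rfl (LinearMap.ker (del Cell))
    (fun y hy => del_del_cell (Wc_le_spans le_rfl hy)) hℓ ?_ hx h
  intro q M k lab hq hl x₁ x₂ h1 h2 hc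
  have h3 : del (Miss M k lab) x₁ ∈ Sup fun S => (S : Set Mt) ⊆ Mn q :=
    del_mem_Sup (fun S _ => ext_Miss_fin M k lab S) (fun S w _ hw => (g8_sub hl).1 hw.2.1) h1
  have h4 : del Cell x₁ - del (Miss M k lab) x₁ ∈ Sup fun S => ¬ (S : Set Mt) ⊆ Mn q :=
    g8_diff hq hl (fun S hS => hS.1.1.spans (by rw [hS.2]; omega)) (fun _ _ _ _ _ e => e) h1
  have h5 : del Cell x₂ ∈ Sup fun S => ¬ (S : Set Mt) ⊆ Mn q :=
    del_mem_Sup (fun S hS => ext_fin (hS.1.1.spans (by rw [hS.1.2]; omega)))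
      (fun S w hS _ e => hS.2 ((Finset.coe_subset.2 (Finset.subset_insert _ _)).trans e)) h2
  have h6 := neg_mem (add_mem h4 h5)
  rw [sub_add_eq_add_sub, ← map_add, LinearMap.mem_ker.1 hc, zero_sub, neg_neg] at h6
  obtain ⟨y, hy, S₀, hS₀, hr⟩ := g8_contract hℓ hq hl 7 h1 (Finsupp.ext fun S =>
    by_contra fun e => mem_Sup_iff.1 h6 S e (mem_Sup_iff.1 h3 S e))
  refine ⟨y, hy, (sub_eq_zero.1 (g8_zero hr ?_)).symm⟩
  rintro S ⟨-, h7, rfl⟩
  omega

theorem ex9 {x : Ch Mt} (hx : x ∈ Wc 9) (h : dd x = 0) : ∃ y ∈ Wc 8, del Cell y = x := by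
  obtain ⟨ℓ, hℓ⟩ := exists_ht
  refine g8_main (n := 8) (by omega) (LinearMap.ker dd) (fun y hy => dd_del hy) hℓ ?_ hx h
  intro q M k lab hq hl x₁ x₂ h1 h2 hc
  have h3 : del (Miss M k lab) x₁ ∈ Sup fun _ => False :=
    del_mem_Sup (fun S _ => ext_Miss_fin M k lab S) (fun S w hS hw => by
      have := hw.2.card_le
      rw [Finset.card_insert_of_notMem hw.1, hS.2, hl.card] at this
      omega) h1
  obtain ⟨y, hy, S₀, hS₀, hr⟩ := g8_contract hℓ hq hl 8 h1 (g8_zero h3 fun _ e => e)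
  have h4 : osg q x₁ = 0 := by
    have e1 := dd_in hq (Sup_mono (fun S hS =>
      ⟨hS.1.1.spans (by rw [hS.2]; omega), hS.1.2.2.1⟩) h1)
    have e2 := dd_out (q := q) (Sup_mono (fun S hS =>
      ⟨hS.1.1.spans (by rw [hS.1.2]; omega), hS.2⟩) h2)
    have e3 : dd x₁ q + dd x₂ q = 0 := by
      rw [← Finsupp.add_apply, ← map_add, LinearMap.mem_ker.1 hc, Finsupp.zero_apply]
    rwa [e1, e2, add_zero] at e3
  have h5 := osg_del hl (Sup_mono (fun S hS =>
    ⟨(hl.cell_iff hq ((g8_sub hl).2 hS.1.2.2.1)).1 hS.1.1, hS.2⟩) hy)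
  refine ⟨y, hy, (sub_eq_zero.1 ?_).symm⟩
  have h6 : osg q (x₁ - del (Miss M k lab) y) = 0 := by rw [map_sub, h4, h5, sub_zero]
  generalize x₁ - del (Miss M k lab) y = r at hr h6
  have h7 : r = r S₀ • Finsupp.single S₀ 1 := by
    ext S
    by_cases e : S = S₀
    · simp [e]
    · rw [Finsupp.smul_apply, Finsupp.single_eq_of_ne e, smul_zero]
      exact by_contra fun e' => e (mem_Sup_iff.1 hr S e').2.2
  by_cases h8 : r S₀ = 0
  · rw [h7, h8, zero_smul]
  · have h9 := mem_Sup_iff.1 hr S₀ h8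
    have h10 := osg_sq hq h9.1.1 hS₀ h9.1.2.2.1
    rw [h7, map_smul, smul_eq_mul, mul_eq_zero] at h6
    rw [h6.resolve_left h8, mul_zero] at h10
    exact absurd h10 zero_ne_one

end Pool.Agent.MP_cbe134_nt.V

end
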