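import Pool.Agent.Mg.Fcbe134.G70d310
import Pool.Agent.Mg.Fcbe134.Gd82bf5
import Pool.Agent.Mg.Fcbe134.Gb7408c
import Pool.Agent.Mg.Fcbe134.Gfd7478

section

/- Soundness of the computations with chains. -/

namespace Pool.Agent.MP_cbe134_nt.V

theorem chn_nil : chn [] = 0 := by
  simp [chn]

theorem chn_cons (p : ℤ × List V4) (z : CL) :
    chn (p :: z) = (p.1 : ℚ) • br (p.2.map V4.at) + chn z := by
  simp only [chn, List.map_cons, List.sum_cons]

theorem chn_one (l : List V4) : chn [(1, l)] = br (l.map V4.at) := by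
  rw [chn_cons, chn_nil, add_zero, Int.cast_one, one_smul]

theorem chn_append (z z' : CL) : chn (z ++ z') = chn z + chn z' := by
  simp only [chn, List.map_append, List.sum_append]

theorem chn_csm (c : ℤ) (z : CL) : chn (csm c z) = (c : ℚ) • chn z := by
  induction z with
  | nil => simp [csm, chn_nil]
  | cons p z ih =>
    have h : csm c (p :: z) = (c * p.1, p.2) :: csm c z := rfl
    rw [h, chn_cons, chn_cons, ih, smul_add, Int.cast_mul, mul_smul]

theorem act_br_at (A : M4) (l : List V4) :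
    act (cj A.toM) (br (l.map V4.at)) = br ((l.map A.app).map V4.at) := by
  rw [act_br, List.map_map, List.map_map]
  congr 1
  refine List.map_congr_left fun v _ => ?_
  simp only [Function.comp_apply, at_app]

theorem h5_chn_app (c : ℤ) (A : M4) (z : CL) :
    chn (z.map fun s => (c * s.1, s.2.map A.app)) = (c : ℚ) • act (cj A.toM) (chn z) := by
  induction z with
  | nil => simp [chn_nil]
  | cons s z ih =>
    rw [List.map_cons, chn_cons, chn_cons, ih, map_add, map_smul, act_br_at, smul_add,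
      Int.cast_mul, mul_smul]

theorem chn_opC (a : GR) (z : CL) :
    chn (opC a z) = (a.map fun p => (p.1 : ℚ) • act (cj p.2.toM) (chn z)).sum := by
  induction a with
  | nil => simp [opC, chn_nil]
  | cons p a ih =>
    have h : opC (p :: a) z = (z.map fun s => (p.1 * s.1, s.2.map p.2.app)) ++ opC a z := by
      simp only [opC, List.flatMap_cons]
    rw [h, chn_append, ih, h5_chn_app, List.map_cons, List.sum_cons]

theorem h5_chn_wg (a : V4) (z : CL) :
    chn (z.map fun p => (-p.1, a :: p.2)) = -wg a.at (chn z) := by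
  induction z with
  | nil => simp [chn_nil]
  | cons s z ih =>
    rw [List.map_cons, chn_cons, chn_cons, ih, map_add, map_smul, List.map_cons, br_cons,
      Int.cast_neg, neg_smul, neg_add]

theorem h5_chn_bdl (l : List V4) : chn (bdl l) = bd (br (l.map V4.at)) := by
  induction l with
  | nil => rw [List.map_nil, bd_br_nil]; exact chn_nil
  | cons a l ih =>
    have h : bdl (a :: l) = (1, l) :: (bdl l).map fun p => (-p.1, a :: p.2) := rfl
    rw [h, chn_cons, h5_chn_wg, ih, List.map_cons, bd_br_cons, Int.cast_one, one_smul,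
      sub_eq_add_neg]

theorem chn_bdL (z : CL) : chn (bdL z) = bd (chn z) := by
  induction z with
  | nil => simp [bdL, chn_nil]
  | cons p z ih =>
    have h : bdL (p :: z) = csm p.1 (bdl p.2) ++ bdL z := by
      simp only [bdL, List.flatMap_cons]
    rw [h, chn_append, ih, chn_csm, h5_chn_bdl, chn_cons, map_add, map_smul]

theorem h5_insS (a : V4) (l : List V4) :
    wg a.at (br (l.map V4.at)) = ((insS a l).1 : ℚ) • br ((insS a l).2.map V4.at) := by
  induction l with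
  | nil => simp [insS, br_cons]
  | cons b l ih =>
    unfold insS
    split_ifs with h1 h2
    · simp only [Int.cast_one, one_smul, List.map_cons, br_cons]
    · subst h2
      simp only [List.map_cons, br_cons, wg_self, Int.cast_zero, zero_smul]
    · simp only [List.map_cons, br_cons]
      rw [wg_wg, ih, map_smul, Int.cast_neg, neg_smul]

theorem br_srt (l : List V4) :
    br (l.map V4.at) = ((srt l).1 : ℚ) • br ((srt l).2.map V4.at) := by
  induction l with
  | nil => simp [srt]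
  | cons a l ih =>
    have h : srt (a :: l) = ((insS a.nrm (srt l).2).1 * (srt l).1, (insS a.nrm (srt l).2).2) := rfl
    rw [h, List.map_cons, br_cons, ih, map_smul, ← at_nrm a, h5_insS, Int.cast_mul, mul_comm,
      mul_smul]

theorem chkC_sound {z : CL} (h : chkC z = true) : chn z = 0 := by
  have h1 := chk_sound codeL _ h (fun l : List V4 => br (l.map V4.at))
  rw [List.map_map] at h1
  rw [← h1, chn]
  congr 1
  refine List.map_congr_left fun p _ => ?_
  simp only [Function.comp_apply]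
  rw [br_srt p.2, Int.cast_mul, mul_smul]

theorem h5_iot (a : V4) (l : List V4) : chn (iot a l) = io a.at (br (l.map V4.at)) := by
  induction l with
  | nil =>
    rw [List.map_nil, br_nil, io_single, if_neg (Finset.notMem_empty _)]
    exact chn_nil
  | cons b l ih =>
    have h : iot a (b :: l) = (if a.nrm = b.nrm then [(1, l)] else []) ++
      (iot a l).map fun p => (-p.1, b :: p.2) := rfl
    rw [h, chn_append, h5_chn_wg, ih, List.map_cons, br_cons, io_wg, sub_eq_add_neg]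
    congr 1
    by_cases hab : a.nrm = b.nrm
    · rw [if_pos hab, if_pos (at_eq_iff.2 hab), chn_one]
    · rw [if_neg hab, if_neg (fun e => hab (at_eq_iff.1 e)), chn_nil]

theorem h5_sum (l : List V4) (x : Ch Mt)
    (h : ∀ l' : List V4, (ipl l l' : ℚ) = ip x (br (l'.map V4.at))) (z : CL) :
    (((z.map fun p => p.1 * ipl l p.2).sum : ℤ) : ℚ) = ip x (chn z) := by
  induction z with
  | nil => simp [chn_nil]
  | cons p z ih =>
    rw [List.map_cons, List.sum_cons, Int.cast_add, ih, chn_cons, map_add, map_smul,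
      Int.cast_mul, h, smul_eq_mul]

theorem ipl_eq (l l' : List V4) :
    (ipl l l' : ℚ) = ip (br (l.map V4.at)) (br (l'.map V4.at)) := by
  induction l generalizing l' with
  | nil =>
    cases l' with
    | nil => simp [ipl, br_nil, ip_single]
    | cons b l' =>
      rw [List.map_cons, br_cons, ip_comm, ip_wg, List.map_nil, br_nil, io_single,
        if_neg (Finset.notMem_empty _), map_zero]
      simp [ipl]
  | cons a l ih =>
    have h : ipl (a :: l) l' = ((iot a l').map fun p => p.1 * ipl l p.2).sum := rfl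
    rw [h, h5_sum l _ ih, h5_iot, List.map_cons, br_cons, ip_wg]

theorem ipL_eq (l : List V4) (z : CL) : (ipL l z : ℚ) = ip (br (l.map V4.at)) (chn z) :=
  h5_sum l _ (ipl_eq l) z

theorem mem_at {l : List V4} {v : V4} : v.at ∈ l.map V4.at ↔ v.nrm ∈ l.map V4.nrm := by
  simp only [List.mem_map, at_eq_iff]

theorem nodup_at {l : List V4} (h : (l.map V4.nrm).Nodup) : (l.map V4.at).Nodup := by
  induction l with
  | nil => simp
  | cons a l ih =>
    rw [List.map_cons, List.nodup_cons] at h ⊢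
    exact ⟨fun e => h.1 (mem_at.1 e), ih h.2⟩

theorem chn_mem_Sup {p : Finset Mt → Prop} {z : CL}
    (h : ∀ s ∈ z, (s.2.map V4.at).Nodup → p (s.2.map V4.at).toFinset) : chn z ∈ Sup p := by
  induction z with
  | nil => rw [chn_nil]; exact zero_mem _
  | cons s z ih =>
    rw [chn_cons]
    exact add_mem (Submodule.smul_mem _ _ (br_mem_Sup (h s (List.mem_cons_self ..))))
      (ih fun t ht => h t (List.mem_cons_of_mem _ ht))

end Pool.Agent.MP_cbe134_nt.V

end

section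

/- Perfect forms in four variables: basic facts and minimal vectors. -/

open Matrix

namespace Pool.Agent.MP_cbe134_nt.V

theorem phi_neg (v : Vc) : phi (-v) = phi v := by
  ext i j
  simp [phi, vecMulVec_apply]

theorem phi_symm (v : Vc) : (phi v).IsSymm := by
  ext i j
  simp [phi, vecMulVec_apply, mul_comm]

theorem phi_eq_iff {v w : Vc} : phi v = phi w ↔ v = w ∨ v = -w := by
  constructor
  · intro h
    have h1 : ∀ i j, v i * v j = w i * w j := fun i j => by
      have := congrFun (congrFun h i) j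
      simpa [phi, vecMulVec_apply] using this
    by_cases hw : w = 0
    · left
      subst hw
      funext i
      have := h1 i i
      simpa using this
    · obtain ⟨i, hi⟩ := Function.ne_iff.mp hw
      have hi' : w i ≠ 0 := hi
      rcases mul_self_eq_mul_self_iff.mp (h1 i i) with h2 | h2
      · left
        funext j
        have := h1 i j
        rw [h2] at this
        exact mul_left_cancel₀ hi' this
      · right
        funext j
        have := h1 i j
        rw [h2] at this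
        have h3 : w i * v j = w i * (-w j) := by linarith
        exact mul_left_cancel₀ hi' h3
  · rintro (h | h)
    · rw [h]
    · rw [h, phi_neg]

theorem pr_phi (q : Mt) (v : Vc) : pr q (phi v) = v ⬝ᵥ (q *ᵥ v) := by
  simp only [pr, phi, vecMulVec_apply, dotProduct, mulVec, Finset.mul_sum]
  refine Finset.sum_congr rfl fun i _ => Finset.sum_congr rfl fun j _ => ?_
  ring

theorem pr_sub (q q' A : Mt) : pr (q - q') A = pr q A - pr q' A := by
  simp only [pr, Matrix.sub_apply, sub_mul, Finset.sum_sub_distrib]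

theorem pr_add_left (q q' A : Mt) : pr (q + q') A = pr q A + pr q' A := by
  simp only [pr, Matrix.add_apply, add_mul, Finset.sum_add_distrib]

theorem pr_add (q A B : Mt) : pr q (A + B) = pr q A + pr q B := by
  simp only [pr, Matrix.add_apply, mul_add, Finset.sum_add_distrib]

theorem pr_zsmul (q A : Mt) (c : ℤ) : pr q (c • A) = c * pr q A := by
  simp only [pr, Matrix.smul_apply, smul_eq_mul, Finset.mul_sum]
  refine Finset.sum_congr rfl fun i _ => Finset.sum_congr rfl fun j _ => ?_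
  ring

theorem g1_pr_zero (q : Mt) : pr q 0 = 0 := by
  simp [pr]

theorem pr_sum {ι : Type} (q : Mt) (s : Finset ι) (f : ι → Mt) :
    pr q (∑ i ∈ s, f i) = ∑ i ∈ s, pr q (f i) := by
  classical
  induction s using Finset.induction_on with
  | empty => simp [g1_pr_zero]
  | insert a s ha ih => rw [Finset.sum_insert ha, Finset.sum_insert ha, pr_add, ih]

theorem eq_zero_of_pr {h : Mt} (hs : h.IsSymm) (h0 : ∀ B : Mt, B.IsSymm → pr h B = 0) :
    h = 0 := by
  have h1 : ∑ i, ∑ j, h i j * h i j = 0 := h0 h hs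
  have h2 := (Finset.sum_eq_zero_iff_of_nonneg
    (fun i _ => Finset.sum_nonneg fun j _ => mul_self_nonneg (h i j))).mp h1
  ext i j
  have h3 := (Finset.sum_eq_zero_iff_of_nonneg (fun j _ => mul_self_nonneg (h i j))).mp
    (h2 i (Finset.mem_univ _))
  simpa using h3 j (Finset.mem_univ _)

theorem eq_zero_of_perf {h : Mt} (hs : h.IsSymm) {M : Finset Mt}
    (hM : ∀ B : Mt, B.IsSymm → B ∈ Submodule.span ℤ (M : Set Mt)) (h0 : ∀ A ∈ M, pr h A = 0) :
    h = 0 := by
  refine eq_zero_of_pr hs fun B hB => ?_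
  have h1 := hM B hB
  clear hB
  induction h1 using Submodule.span_induction with
  | mem x hx => exact h0 x hx
  | zero => exact g1_pr_zero h
  | add x y _ _ hx hy => rw [pr_add, hx, hy, add_zero]
  | smul c x _ hx => rw [pr_zsmul, hx, mul_zero]

theorem cj_phi (g : Mt) (v : Vc) : cj g (phi v) = phi (g *ᵥ v) := by
  unfold cj phi
  rw [mul_vecMulVec, vecMulVec_mul, vecMul_transpose]

theorem g1_pr_trace (q A : Mt) : pr q A = (qᵀ * A).trace := by
  simp only [pr, trace, diag_apply, mul_apply, transpose_apply]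
  exact Finset.sum_comm

theorem pr_pb (g q A : Mt) : pr (pb g q) A = pr q (cj g A) := by
  rw [g1_pr_trace, g1_pr_trace]
  unfold pb cj
  rw [transpose_mul, transpose_mul, transpose_transpose, Matrix.mul_assoc, trace_mul_comm]
  simp only [Matrix.mul_assoc]

theorem cj_mul (g h A : Mt) : cj (g * h) A = cj g (cj h A) := by
  simp only [cj, transpose_mul, Matrix.mul_assoc]

theorem cj_one (A : Mt) : cj 1 A = A := by
  simp [cj]

theorem cj_neg (g A : Mt) : cj (-g) A = cj g A := by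
  simp [cj]

theorem pb_mul (g h q : Mt) : pb (g * h) q = pb h (pb g q) := by
  simp only [pb, transpose_mul, Matrix.mul_assoc]

theorem pb_one (q : Mt) : pb 1 q = q := by
  simp [pb]

theorem g1_det_sq (g : GLz 4) : (g : Mt).det * (g : Mt).det = 1 := by
  have h : IsUnit (g : Mt).det := by
    rw [← Matrix.isUnit_iff_isUnit_det]
    exact g.isUnit
  rcases Int.isUnit_iff.mp h with h | h <;> rw [h] <;> rfl

theorem det_pb (g : GLz 4) (q : Mt) : (pb g q).det = q.det := by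
  unfold pb
  rw [det_mul, det_mul, det_transpose]
  linear_combination q.det * g1_det_sq g

theorem cj_symm (g : Mt) {A : Mt} (h : A.IsSymm) : (cj g A).IsSymm := by
  unfold cj Matrix.IsSymm
  rw [transpose_mul, transpose_mul, transpose_transpose, h.eq, Matrix.mul_assoc]

theorem cj_linv (g : GLz 4) :
    Function.LeftInverse (cj ((g⁻¹ : GLz 4) : Mt)) (cj (g : Mt)) := by
  intro A
  rw [← cj_mul, ← Units.val_mul, inv_mul_cancel, Units.val_one, cj_one]

theorem cj_rinv (g : GLz 4) :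
    Function.LeftInverse (cj (g : Mt)) (cj ((g⁻¹ : GLz 4) : Mt)) := by
  intro A
  rw [← cj_mul, ← Units.val_mul, mul_inv_cancel, Units.val_one, cj_one]

theorem cj_inj (g : GLz 4) : Function.Injective (cj (g : Mt)) := (cj_linv g).injective

theorem vert_qA : Vert qAm.toM :=
  ⟨1, Or.inl (by rw [Units.val_one, pb_one])⟩

theorem vert_q1 : Vert q1m.toM :=
  ⟨1, Or.inr (by rw [Units.val_one, pb_one])⟩

/-- the inverse of the rotation -/
def g1_rI : M4 := ⟨⟨0, 1, 0, 0⟩, ⟨0, 0, 1, 0⟩, ⟨0, 0, 0, 1⟩, ⟨-1, -1, -1, -1⟩⟩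

theorem vert_q2 : Vert q2m.toM := by
  obtain ⟨g, hg⟩ := exists_GL (A := g1_rI.toM) (by rw [toM_det]; decide)
  refine ⟨g, Or.inr ?_⟩
  rw [hg, ← toM_pb]
  congr 1

theorem Vert.pb {q : Mt} (hq : Vert q) (g : GLz 4) : Vert (pb g q) := by
  obtain ⟨h, hh⟩ := hq
  refine ⟨h * g, ?_⟩
  rw [Units.val_mul, pb_mul, pb_mul]
  rcases hh with hh | hh
  · left; rw [hh]
  · right; rw [hh]

theorem g1_pb_symm (g : Mt) {q : Mt} (h : q.IsSymm) : (pb g q).IsSymm := by
  unfold pb Matrix.IsSymm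
  rw [transpose_mul, transpose_mul, transpose_transpose, h.eq, Matrix.mul_assoc]

theorem g1_toM_symm {q : M4} (h : q.tr = q) : q.toM.IsSymm := by
  unfold Matrix.IsSymm
  rw [← toM_tr, h]

theorem Vert.symm {q : Mt} (hq : Vert q) : q.IsSymm := by
  obtain ⟨h, hh | hh⟩ := hq
  · rw [hh]; exact g1_pb_symm _ (g1_toM_symm (by decide))
  · rw [hh]; exact g1_pb_symm _ (g1_toM_symm (by decide))

theorem g1_bil_qA (a b c d : ℤ) : qAm.bil ⟨a, b, c, d⟩ ⟨a, b, c, d⟩ =
    a ^ 2 + b ^ 2 + c ^ 2 + d ^ 2 + (a + b + c + d) ^ 2 := by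
  simp only [M4.bil, V4.dot, M4.app, qAm, Int.add_def, Int.mul_def]
  ring

theorem g1_bil_q1 (a b c d : ℤ) : q1m.bil ⟨a, b, c, d⟩ ⟨a, b, c, d⟩ =
    (a + b + c + d) ^ 2 + (a - c) ^ 2 + b ^ 2 + d ^ 2 := by
  simp only [M4.bil, V4.dot, M4.app, q1m, Int.add_def, Int.mul_def]
  ring

theorem g1_bil_q33 (a b c d : ℤ) : q33.bil ⟨a, b, c, d⟩ ⟨a, b, c, d⟩ =
    (a + b + c + d) ^ 2 + (a - c) ^ 2 + b ^ 2 + d ^ 2 +
      ((a + b + c + d) ^ 2 + (b - d) ^ 2 + a ^ 2 + c ^ 2) := by
  simp only [M4.bil, V4.dot, M4.app, q33, Int.add_def, Int.mul_def]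
  ring

theorem g1_two_le_qA {v : V4} (hv : v.toV ≠ 0) : 2 ≤ qAm.bil v v := by
  obtain ⟨a, b, c, d⟩ := v
  rw [g1_bil_qA]
  by_contra hc
  have h1 : a ^ 2 + b ^ 2 + c ^ 2 + d ^ 2 + (a + b + c + d) ^ 2 =
    2 * (a ^ 2 + b ^ 2 + c ^ 2 + d ^ 2 + a * b + a * c + a * d + b * c + b * d + c * d) := by
    ring
  have h2 : a ^ 2 + b ^ 2 + c ^ 2 + d ^ 2 + (a + b + c + d) ^ 2 ≤ 0 := by omega
  have ha : a = 0 := by
    nlinarith [sq_nonneg a, sq_nonneg b, sq_nonneg c, sq_nonneg d, sq_nonneg (a + b + c + d)]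
  have hb : b = 0 := by
    nlinarith [sq_nonneg a, sq_nonneg b, sq_nonneg c, sq_nonneg d, sq_nonneg (a + b + c + d)]
  have hc : c = 0 := by
    nlinarith [sq_nonneg a, sq_nonneg b, sq_nonneg c, sq_nonneg d, sq_nonneg (a + b + c + d)]
  have hd : d = 0 := by
    nlinarith [sq_nonneg a, sq_nonneg b, sq_nonneg c, sq_nonneg d, sq_nonneg (a + b + c + d)]
  apply hv
  funext i
  fin_cases i <;> simp [V4.toV, ha, hb, hc, hd]

theorem g1_two_le_q1 {v : V4} (hv : v.toV ≠ 0) : 2 ≤ q1m.bil v v := by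
  obtain ⟨a, b, c, d⟩ := v
  rw [g1_bil_q1]
  by_contra hc
  have h1 : (a + b + c + d) ^ 2 + (a - c) ^ 2 + b ^ 2 + d ^ 2 =
    2 * (a ^ 2 + b ^ 2 + c ^ 2 + d ^ 2 + a * b + a * d + b * c + b * d + c * d) := by
    ring
  have h2 : (a + b + c + d) ^ 2 + (a - c) ^ 2 + b ^ 2 + d ^ 2 ≤ 0 := by omega
  have ha : a - c = 0 := by
    nlinarith [sq_nonneg (a - c), sq_nonneg b, sq_nonneg d, sq_nonneg (a + b + c + d)]
  have hb : b = 0 := by
    nlinarith [sq_nonneg (a - c), sq_nonneg b, sq_nonneg d, sq_nonneg (a + b + c + d)]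
  have hc : a + b + c + d = 0 := by
    nlinarith [sq_nonneg (a - c), sq_nonneg b, sq_nonneg d, sq_nonneg (a + b + c + d)]
  have hd : d = 0 := by
    nlinarith [sq_nonneg (a - c), sq_nonneg b, sq_nonneg d, sq_nonneg (a + b + c + d)]
  have ha' : a = 0 := by omega
  have hc' : c = 0 := by omega
  apply hv
  funext i
  fin_cases i <;> simp [V4.toV, ha', hb, hc', hd]

theorem Vert.two_le {q : Mt} (hq : Vert q) {v : Vc} (hv : v ≠ 0) : 2 ≤ pr q (phi v) := by
  obtain ⟨g, hg⟩ := hq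
  obtain ⟨w, hw⟩ := toV_surj ((g : Mt) *ᵥ v)
  have hw0 : w.toV ≠ 0 := by
    rw [hw]
    intro h0
    apply hv
    have : ((g⁻¹ : GLz 4) : Mt) *ᵥ ((g : Mt) *ᵥ v) = v := by
      rw [mulVec_mulVec, ← Units.val_mul, inv_mul_cancel, Units.val_one, one_mulVec]
    rw [← this, h0, mulVec_zero]
  rcases hg with hg | hg
  · rw [hg, pr_pb, cj_phi, ← hw]
    have := g1_two_le_qA hw0
    rwa [bil_at] at this
  · rw [hg, pr_pb, cj_phi, ← hw]
    have := g1_two_le_q1 hw0
    rwa [bil_at] at this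

theorem g1_phi_zero : phi 0 = 0 := by
  ext i j
  simp [phi]

theorem Vert.nonneg {q : Mt} (hq : Vert q) (v : Vc) : 0 ≤ pr q (phi v) := by
  by_cases hv : v = 0
  · rw [hv, g1_phi_zero, g1_pr_zero]
  · have := hq.two_le hv
    omega

theorem Vert.two_le_mn {q q' A : Mt} (hq : Vert q) (hA : A ∈ Mn q') : 2 ≤ pr q A := by
  obtain ⟨⟨v, rfl⟩, h2⟩ := hA
  refine hq.two_le fun hv => ?_
  rw [hv, g1_phi_zero, g1_pr_zero] at h2
  omega

theorem mn_symm {q A : Mt} (hA : A ∈ Mn q) : A.IsSymm := by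
  obtain ⟨⟨v, rfl⟩, _⟩ := hA
  exact phi_symm v

theorem mem_Mn_pb (g : GLz 4) {q A : Mt} : A ∈ Mn (pb g q) ↔ cj g A ∈ Mn q := by
  constructor
  · rintro ⟨⟨v, rfl⟩, h2⟩
    exact ⟨⟨_, cj_phi _ _⟩, by rw [← pr_pb]; exact h2⟩
  · rintro ⟨⟨v, hv⟩, h2⟩
    refine ⟨⟨((g⁻¹ : GLz 4) : Mt) *ᵥ v, ?_⟩, by rw [pr_pb]; exact h2⟩
    rw [← cj_phi, ← hv, cj_linv]

theorem g1_bd1 {a : ℤ} (h : a ^ 2 ≤ 3) : a ∈ [(-1 : ℤ), 0, 1] := by
  have h1 : -1 ≤ a := by nlinarith
  have h2 : a ≤ 1 := by nlinarith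
  interval_cases a <;> simp

theorem g1_bd2 {a : ℤ} (h : a ^ 2 ≤ 4) : a ∈ [(-2 : ℤ), -1, 0, 1, 2] := by
  have h1 : -2 ≤ a := by nlinarith
  have h2 : a ≤ 2 := by nlinarith
  interval_cases a <;> simp

theorem g1_kA : ∀ a ∈ [(-1 : ℤ), 0, 1], ∀ b ∈ [(-1 : ℤ), 0, 1], ∀ c ∈ [(-1 : ℤ), 0, 1],
    ∀ d ∈ [(-1 : ℤ), 0, 1], qAm.bil ⟨a, b, c, d⟩ ⟨a, b, c, d⟩ = 2 →
      (⟨a, b, c, d⟩ : V4) ∈ pm minA := by
  decide +kernel

theorem g1_k1 : ∀ a ∈ [(-1 : ℤ), 0, 1], ∀ b ∈ [(-1 : ℤ), 0, 1], ∀ c ∈ [(-1 : ℤ), 0, 1],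
    ∀ d ∈ [(-1 : ℤ), 0, 1], q1m.bil ⟨a, b, c, d⟩ ⟨a, b, c, d⟩ = 2 →
      (⟨a, b, c, d⟩ : V4) ∈ pm min1 := by
  decide +kernel

theorem g1_k33 : ∀ a ∈ [(-2 : ℤ), -1, 0, 1, 2], ∀ b ∈ [(-2 : ℤ), -1, 0, 1, 2],
    ∀ c ∈ [(-2 : ℤ), -1, 0, 1, 2], ∀ d ∈ [(-2 : ℤ), -1, 0, 1, 2],
    q33.bil ⟨a, b, c, d⟩ ⟨a, b, c, d⟩ = 4 → (⟨a, b, c, d⟩ : V4) ∈ pm s33 := by
  decide +kernel

theorem min_qA (v : V4) : qAm.bil v v = 2 ↔ v ∈ pm minA := by
  constructor
  · intro h
    obtain ⟨a, b, c, d⟩ := v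
    have h1 := h
    rw [g1_bil_qA] at h1
    have := sq_nonneg a
    have := sq_nonneg b
    have := sq_nonneg c
    have := sq_nonneg d
    have := sq_nonneg (a + b + c + d)
    exact g1_kA a (g1_bd1 (by omega)) b (g1_bd1 (by omega)) c (g1_bd1 (by omega))
      d (g1_bd1 (by omega)) h
  · revert v
    decide +kernel

theorem min_q1 (v : V4) : q1m.bil v v = 2 ↔ v ∈ pm min1 := by
  constructor
  · intro h
    obtain ⟨a, b, c, d⟩ := v
    have h1 := h
    rw [g1_bil_q1] at h1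
    have := sq_nonneg (a - c)
    have := sq_nonneg b
    have := sq_nonneg d
    have := sq_nonneg (a + b + c + d)
    have ha : a ^ 2 ≤ 3 := by
      have e : 4 * ((a + b + c + d) ^ 2 + (a - c) ^ 2 + b ^ 2 + d ^ 2) = 4 * a ^ 2 +
        ((a + b + c + d - (a - c)) ^ 2 + (a + b + c + d + b) ^ 2 + (a + b + c + d + d) ^ 2 +
          (a - c + b) ^ 2 + (a - c + d) ^ 2 + (b - d) ^ 2) := by ring
      have := sq_nonneg (a + b + c + d - (a - c))
      have := sq_nonneg (a + b + c + d + b)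
      have := sq_nonneg (a + b + c + d + d)
      have := sq_nonneg (a - c + b)
      have := sq_nonneg (a - c + d)
      have := sq_nonneg (b - d)
      omega
    have hc : c ^ 2 ≤ 3 := by
      have e : 4 * ((a + b + c + d) ^ 2 + (a - c) ^ 2 + b ^ 2 + d ^ 2) = 4 * c ^ 2 +
        ((a + b + c + d + (a - c)) ^ 2 + (a + b + c + d + b) ^ 2 + (a + b + c + d + d) ^ 2 +
          (a - c - b) ^ 2 + (a - c - d) ^ 2 + (b - d) ^ 2) := by ring
      have := sq_nonneg (a + b + c + d + (a - c))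
      have := sq_nonneg (a + b + c + d + b)
      have := sq_nonneg (a + b + c + d + d)
      have := sq_nonneg (a - c - b)
      have := sq_nonneg (a - c - d)
      have := sq_nonneg (b - d)
      omega
    exact g1_k1 a (g1_bd1 ha) b (g1_bd1 (by omega)) c (g1_bd1 hc) d (g1_bd1 (by omega)) h
  · revert v
    decide +kernel

theorem min_q33 (v : V4) : q33.bil v v = 4 ↔ v ∈ pm s33 := by
  constructor
  · intro h
    obtain ⟨a, b, c, d⟩ := v
    have h1 := h
    rw [g1_bil_q33] at h1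
    have := sq_nonneg a
    have := sq_nonneg b
    have := sq_nonneg c
    have := sq_nonneg d
    have := sq_nonneg (a - c)
    have := sq_nonneg (b - d)
    have := sq_nonneg (a + b + c + d)
    exact g1_k33 a (g1_bd2 (by omega)) b (g1_bd2 (by omega)) c (g1_bd2 (by omega))
      d (g1_bd2 (by omega)) h
  · revert v
    decide +kernel

theorem g1_mn {q : M4} {l : List V4} (h : ∀ v : V4, q.bil v v = 2 ↔ v ∈ pm l) :
    Mn q.toM = ((l.map V4.at).toFinset : Finset Mt) := by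
  ext A
  simp only [List.coe_toFinset, Set.mem_ofPred_eq, List.mem_map]
  constructor
  · rintro ⟨⟨v, rfl⟩, h2⟩
    obtain ⟨w, rfl⟩ := toV_surj v
    have h3 : q.bil w w = 2 := by rw [bil_at]; exact h2
    rw [h, pm, List.mem_append, List.mem_map] at h3
    rcases h3 with h3 | ⟨u, hu, rfl⟩
    · exact ⟨w, h3, rfl⟩
    · exact ⟨u, hu, (at_neg u).symm⟩
  · rintro ⟨w, hw, rfl⟩
    refine ⟨⟨_, rfl⟩, ?_⟩
    rw [← bil_at, h, pm]
    exact List.mem_append_left _ hw

theorem mn_qA : Mn qAm.toM = ((minA.map V4.at).toFinset : Finset Mt) := g1_mn min_qA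

theorem mn_q1 : Mn q1m.toM = ((min1.map V4.at).toFinset : Finset Mt) := g1_mn min_q1

theorem mem_GA (A : M4) : A ∈ GA ↔ A.pb qAm = qAm :=
  mem_stabL (m := 2) (by decide) (by decide) min_qA A

theorem mem_GD (A : M4) : A ∈ GD ↔ A.pb q1m = q1m :=
  mem_stabL (m := 2) (by decide) (by decide) min_q1 A

theorem mem_G33 (A : M4) : A ∈ G33 ↔ A.pb q33 = q33 :=
  mem_stabL (m := 4) (by decide) (by decide) min_q33 A

theorem nodup_GA : GA.Nodup := nodup_stabL _ (by decide +kernel)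

theorem nodup_GD : GD.Nodup := nodup_stabL _ (by decide +kernel)

theorem nodup_G33 : G33.Nodup := nodup_stabL _ (by decide +kernel)

theorem Cell.mono {S T : Finset Mt} (h : S ⊆ T) (hT : Cell T) : Cell S := by
  obtain ⟨q, q', h1, h2, h3, h4, h5⟩ := hT
  have h' : (S : Set Mt) ⊆ T := Finset.coe_subset.mpr h
  exact ⟨q, q', h1, h2, h3, h'.trans h4, h'.trans h5⟩

theorem g1_image_sub (g : GLz 4) (q : Mt) (S : Finset Mt) :
    ((S.image (cj g) : Finset Mt) : Set Mt) ⊆ Mn q ↔ (S : Set Mt) ⊆ Mn (pb g q) := by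
  rw [Finset.coe_image, Set.image_subset_iff]
  exact forall₂_congr fun A _ => (mem_Mn_pb g).symm

theorem g1_pb_linv (g : GLz 4) (q : Mt) : pb ((g⁻¹ : GLz 4) : Mt) (pb g q) = q := by
  rw [← pb_mul, ← Units.val_mul, mul_inv_cancel, Units.val_one, pb_one]

theorem g1_pb_rinv (g : GLz 4) (q : Mt) : pb g (pb ((g⁻¹ : GLz 4) : Mt) q) = q := by
  rw [← pb_mul, ← Units.val_mul, inv_mul_cancel, Units.val_one, pb_one]

theorem cell_image (g : GLz 4) (S : Finset Mt) : Cell (S.image (cj g)) ↔ Cell S := by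
  constructor
  · rintro ⟨q, q', h1, h2, h3, h4, h5⟩
    refine ⟨pb g q, pb g q', h1.pb g, h2.pb g, fun h => h3 ?_, (g1_image_sub g q S).mp h4,
      (g1_image_sub g q' S).mp h5⟩
    rw [← g1_pb_linv g q, h, g1_pb_linv]
  · rintro ⟨q, q', h1, h2, h3, h4, h5⟩
    refine ⟨pb ((g⁻¹ : GLz 4) : Mt) q, pb ((g⁻¹ : GLz 4) : Mt) q', h1.pb g⁻¹, h2.pb g⁻¹,
      fun h => h3 ?_, (g1_image_sub g _ S).mpr ?_, (g1_image_sub g _ S).mpr ?_⟩
    · rw [← g1_pb_rinv g q, h, g1_pb_rinv]
    · rwa [g1_pb_rinv]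
    · rwa [g1_pb_rinv]

theorem Spans.mono {S T : Finset Mt} (h : S ⊆ T) (hS : Spans S) : Spans T := by
  obtain ⟨V, h1, h2⟩ := hS
  exact ⟨V, h1, fun i => h (h2 i)⟩

theorem g1_spans (g : GLz 4) {S : Finset Mt} (h : Spans S) : Spans (S.image (cj g)) := by
  obtain ⟨V, h1, h2⟩ := h
  refine ⟨V * (g : Mt)ᵀ, ?_, fun i => ?_⟩
  · rw [det_mul, det_transpose]
    refine mul_ne_zero h1 fun h0 => ?_
    have := g1_det_sq g
    rw [h0] at this
    omega
  · have e : (V * (g : Mt)ᵀ) i = (g : Mt) *ᵥ V i := by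
      funext j
      simp [mul_apply, mulVec, dotProduct, mul_comm]
    rw [e, ← cj_phi]
    exact Finset.mem_image_of_mem _ (h2 i)

theorem spans_image (g : GLz 4) (S : Finset Mt) : Spans (S.image (cj g)) ↔ Spans S := by
  refine ⟨fun h => ?_, g1_spans g⟩
  have h1 := g1_spans g⁻¹ h
  rwa [Finset.image_image, (cj_linv g).comp_eq_id, Finset.image_id] at h1

theorem act_ga : Act ⊤ ga := by
  constructor
  · intro v
    have e : cj ((1 : GLz 4) : Mt) = id := by
      funext A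
      rw [Units.val_one, cj_one, id]
    unfold ga
    rw [e, act_id]
  · intro a _ b _ v
    have e : cj ((a * b : GLz 4) : Mt) = cj (a : Mt) ∘ cj (b : Mt) := by
      funext A
      rw [Units.val_mul, cj_mul, Function.comp_apply]
    unfold ga
    rw [e, act_act]

theorem stb_Wc (j : ℕ) : Stb ⊤ ga (Wc j) := by
  intro a _ v hv
  refine act_mem_Sup (cj_inj a) (fun S hS => ⟨(cell_image a S).mpr hS.1, ?_⟩) hv
  rw [Finset.card_image_of_injective _ (cj_inj a), hS.2]

theorem stb_Spans : Stb ⊤ ga (Sup Spans) := by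
  intro a _ v hv
  exact act_mem_Sup (cj_inj a) (fun S hS => g1_spans a hS) hv

theorem ip_ga (g : GLz 4) (x y : Ch Mt) : ip (ga g x) y = ip x (ga g⁻¹ y) :=
  ip_act (cj_linv g) (cj_rinv g) x y

theorem va_one (q : Mt) : va 1 q = q := by
  unfold va
  rw [inv_one, Units.val_one, pb_one]

theorem va_mul (a b : GLz 4) (q : Mt) : va (a * b) q = va a (va b q) := by
  unfold va
  rw [_root_.mul_inv_rev, Units.val_mul, pb_mul]

theorem va_vert (a : GLz 4) {q : Mt} (hq : Vert q) : Vert (va a q) := hq.pb a⁻¹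

theorem image_sub_mn (g : GLz 4) (q : Mt) (S : Finset Mt) :
    ((S.image (cj g) : Finset Mt) : Set Mt) ⊆ Mn q ↔ (S : Set Mt) ⊆ Mn (pb g q) :=
  g1_image_sub g q S

end Pool.Agent.MP_cbe134_nt.V

end

section

/- The local structure of Voronoi domains. -/

open Matrix

namespace Pool.Agent.MP_cbe134_nt.V

theorem g2_mem {L : List V4} {A : Mt} : A ∈ (L.map V4.at).toFinset ↔ ∃ v ∈ L, v.at = A := by
  rw [List.mem_toFinset, List.mem_map]

theorem g2_nodup {L : List V4} (h : L.map V4.nrm = L) (hn : L.Nodup) : (L.map V4.at).Nodup :=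
  nodup_at (by rwa [h])

theorem g2_zip (W : Submodule ℤ Mt) : ∀ (L : List V4) (cs : List ℤ), (∀ v ∈ L, v.at ∈ W) →
    (List.zipWith (fun (a : ℤ) (v : V4) => a • v.at) cs L).sum ∈ W
  | _, [], _ => by simp
  | [], _ :: _, _ => by simp
  | v :: L, c :: cs, h => by
    rw [List.zipWith_cons_cons, List.sum_cons]
    exact W.add_mem (W.smul_mem c (h v List.mem_cons_self))
      (g2_zip W L cs fun w hw => h w (List.mem_cons_of_mem _ hw))

theorem g2_span (L : List V4) (cs : List ℤ) :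
    (List.zipWith (fun (a : ℤ) (v : V4) => a • v.at) cs L).sum ∈
      Submodule.span ℤ (((L.map V4.at).toFinset : Finset Mt) : Set Mt) :=
  g2_zip _ L cs fun v hv => Submodule.subset_span (Finset.mem_coe.2 (g2_mem.2 ⟨v, hv, rfl⟩))

theorem g2_nbr {L : List V4} (hL : ∀ v ∈ L, v.nrm = v) {k : ℕ} {lb : V4 → ℕ} {lab : Mt → ℕ}
    (hlab : ∀ v ∈ L, lab v.at = lb v) (hlt : ∀ v ∈ L, lb v < k)
    (H : ∀ s : ℕ → V4, (∀ i < k, s i ∈ L ∧ lb (s i) = i) → ∃ g q : M4, g.det * g.det = 1 ∧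
      Vert q.toM ∧ ∀ v ∈ L, (g.pb q).bil v v = if s (lb v) = v then 4 else 2)
    (t : ℕ → Mt) (ht : ∀ i < k, t i ∈ (L.map V4.at).toFinset ∧ lab (t i) = i) :
    ∃ q', Vert q' ∧ ∃ c : ℤ, 0 < c ∧ ∀ A ∈ (L.map V4.at).toFinset,
      pr q' A = if t (lab A) = A then 2 + c else 2 := by
  have h1 : ∀ i, ∃ v : V4, i < k → v ∈ L ∧ v.at = t i := fun i => by
    by_cases hi : i < k
    · obtain ⟨v, hv⟩ := g2_mem.1 (ht i hi).1
      exact ⟨v, fun _ => hv⟩
    · exact ⟨⟨0, 0, 0, 0⟩, fun h => absurd h hi⟩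
  choose s hs using h1
  obtain ⟨g, q, h2, h3, h4⟩ := H s fun i hi =>
    ⟨(hs i hi).1, by rw [← hlab _ (hs i hi).1, (hs i hi).2, (ht i hi).2]⟩
  obtain ⟨γ, hγ⟩ := exists_GL (A := g.toM) (by rwa [toM_det])
  refine ⟨(g.pb q).toM, ?_, 2, two_pos, fun A hA => ?_⟩
  · rw [toM_pb, ← hγ]
    exact h3.pb γ
  · obtain ⟨v, hv, rfl⟩ := g2_mem.1 hA
    obtain ⟨h5, h6⟩ := hs _ (hlt v hv)
    rw [← bil_at, h4 v hv, hlab v hv, ← h6]
    refine if_congr ?_ rfl rfl
    rw [at_eq_iff, hL _ h5, hL v hv]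

theorem g2_chkA : ∀ a ∈ minA, ∃ p ∈ nbA, p.1 = a ∧ p.2.det * p.2.det = 1 ∧
    ∀ v ∈ minA, (p.2.pb q1m).bil v v = if a = v then 4 else 2 := by
  decide +kernel

theorem g2_perfA (B : Mt) (hB : B.IsSymm) :
    B = (List.zipWith (fun (a : ℤ) (v : V4) => a • v.at)
      [B 3 3 + B 0 3 + B 1 3 + B 2 3, -B 2 3, B 2 2 + B 0 2 + B 1 2 + B 2 3, -B 1 2, -B 1 3,
        B 1 1 + B 0 1 + B 1 2 + B 1 3, -B 0 1, -B 0 2, -B 0 3, B 0 0 + B 0 1 + B 0 2 + B 0 3]
      minA).sum := by
  have h10 := hB.apply 0 1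
  have h20 := hB.apply 0 2
  have h30 := hB.apply 0 3
  have h21 := hB.apply 1 2
  have h31 := hB.apply 1 3
  have h32 := hB.apply 2 3
  ext i j
  fin_cases i <;> fin_cases j <;>
    simp [minA, V4.at, phi, V4.toV, vecMulVec_apply] <;> omega

theorem loc_qA : Loc qAm.toM (minA.map V4.at).toFinset 1 fun _ => 0 := by
  refine ⟨mn_qA.symm, one_pos, ?_, fun _ _ => one_pos, fun i hi => ?_, fun i hi j hj => ?_,
    fun B hB => ?_, ?_⟩
  · rw [List.toFinset_card_of_nodup (g2_nodup (by decide +kernel) (by decide +kernel))]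
    rfl
  · exact ⟨V4.at ⟨0, 0, 0, 1⟩, g2_mem.2 ⟨_, by decide +kernel, rfl⟩, by omega⟩
  · rw [show i = j by omega]
  · rw [g2_perfA B hB]
    exact g2_span _ _
  · refine g2_nbr (L := minA) (lb := fun _ => 0) (lab := fun _ => 0) (by decide +kernel)
      (fun _ _ => rfl) (fun _ _ => one_pos) fun s hs => ?_
    obtain ⟨p, -, -, h1, h2⟩ := g2_chkA (s 0) (hs 0 one_pos).1
    exact ⟨p.2, q1m, h1, vert_q1, h2⟩

/-- the number of the frame of a vector -/
def g2_lb (v : V4) : ℕ := if v ∈ fr0 then 0 else if v ∈ fr1 then 1 else 2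

/-- the number of the frame of a form of rank one -/
def g2_lab (A : Mt) : ℕ := if A ∈ fr0.map V4.at then 0 else if A ∈ fr1.map V4.at then 1 else 2

theorem g2_lab_eq (v : V4) (hv : v ∈ min1) : g2_lab v.at = g2_lb v := by
  have h0 : fr0.map V4.nrm = fr0 := by decide +kernel
  have h1 : fr1.map V4.nrm = fr1 := by decide +kernel
  have h2 : ∀ v ∈ min1, v.nrm = v := by decide +kernel
  simp only [g2_lab, g2_lb, mem_at, h0, h1, h2 v hv]

theorem g2_chk1 : ∀ a ∈ min1, g2_lb a = 0 → ∀ b ∈ min1, g2_lb b = 1 → ∀ c ∈ min1, g2_lb c = 2 →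
    ∃ p ∈ nb1, (p.1 = a ∧ p.2.1 = b ∧ p.2.2.1 = c) ∧ p.2.2.2.2.det * p.2.2.2.2.det = 1 ∧
      ∀ v ∈ min1, (p.2.2.2.2.pb (if p.2.2.2.1 then qAm else q1m)).bil v v =
        if (if g2_lb v = 0 then a else if g2_lb v = 1 then b else c) = v then 4 else 2 := by
  decide +kernel

theorem g2_perf1 (B : Mt) (hB : B.IsSymm) :
    B = (List.zipWith (fun (a : ℤ) (v : V4) => a • v.at)
      [B 3 3 + B 2 3 + B 0 3 + B 1 3, -B 1 2 - B 0 2, -B 0 1 - B 0 2, 0, -B 2 3,
        B 1 1 + B 0 1 + B 1 2 + B 0 2 + B 1 3, B 0 2, -B 0 3, B 2 2 + B 1 2 + B 2 3, -B 1 3, 0,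
        B 0 0 + B 0 1 + B 0 3]
      min1).sum := by
  have h10 := hB.apply 0 1
  have h20 := hB.apply 0 2
  have h30 := hB.apply 0 3
  have h21 := hB.apply 1 2
  have h31 := hB.apply 1 3
  have h32 := hB.apply 2 3
  ext i j
  fin_cases i <;> fin_cases j <;>
    simp [min1, fr0, fr1, fr2, V4.at, phi, V4.toV, vecMulVec_apply] <;> omega

theorem g2_sum (i : ℕ) : ∑ A ∈ (min1.map V4.at).toFinset.filter (fun A => g2_lab A = i), A =
    (min1.map fun v => if g2_lb v = i then v.at else 0).sum := by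
  rw [Finset.sum_filter, List.sum_toFinset _ (g2_nodup (by decide +kernel) (by decide +kernel)),
    List.map_map]
  refine congrArg List.sum (List.map_congr_left fun v hv => ?_)
  rw [Function.comp_apply, g2_lab_eq v hv]

theorem g2_sums : ∀ i < 3, ∀ j < 3, ∀ a b : Fin 4,
    (min1.map fun v => if g2_lb v = i then v.at else 0).sum a b =
      (min1.map fun v => if g2_lb v = j then v.at else 0).sum a b := by
  decide +kernel

theorem loc_q1 : ∃ lab, Loc q1m.toM (min1.map V4.at).toFinset 3 lab := by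
  have hlt : ∀ v ∈ min1, g2_lb v < 3 := by decide +kernel
  have hne : ∀ i < 3, ∃ v ∈ min1, g2_lb v = i := by decide +kernel
  refine ⟨g2_lab, mn_q1.symm, three_pos, ?_, fun A hA => ?_, fun i hi => ?_, fun i hi j hj => ?_,
    fun B hB => ?_, ?_⟩
  · rw [List.toFinset_card_of_nodup (g2_nodup (by decide +kernel) (by decide +kernel))]
    rfl
  · obtain ⟨v, hv, rfl⟩ := g2_mem.1 hA
    rw [g2_lab_eq v hv]
    exact hlt v hv
  · obtain ⟨v, hv, rfl⟩ := hne i hi
    exact ⟨v.at, g2_mem.2 ⟨v, hv, rfl⟩, g2_lab_eq v hv⟩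
  · rw [g2_sum, g2_sum]
    exact Matrix.ext (g2_sums i hi j hj)
  · rw [g2_perf1 B hB]
    exact g2_span _ _
  · refine g2_nbr (lb := g2_lb) (by decide +kernel) g2_lab_eq hlt fun s hs => ?_
    obtain ⟨p, -, -, h1, h2⟩ := g2_chk1 (s 0) (hs 0 (by omega)).1 (hs 0 (by omega)).2
      (s 1) (hs 1 (by omega)).1 (hs 1 (by omega)).2 (s 2) (hs 2 (by omega)).1 (hs 2 (by omega)).2
    refine ⟨_, _, h1, ?_, fun v hv => (h2 v hv).trans ?_⟩
    · split_ifs
      exacts [vert_qA, vert_q1]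
    · have h3 := hlt v hv
      generalize g2_lb v = n at h3
      interval_cases n <;> rfl

/-- the action on forms as a linear map -/
def g2_cjL (g : Mt) : Mt →ₗ[ℤ] Mt := LinearMap.mulLeftRight ℤ (g, gᵀ)

theorem g2_cjL_apply (g A : Mt) : g2_cjL g A = cj g A := rfl

theorem Loc.pb {q : Mt} {M : Finset Mt} {k : ℕ} {lab : Mt → ℕ} (h : Loc q M k lab)
    (g : GLz 4) : Loc (pb g q) (M.image (cj ((g⁻¹ : GLz 4) : Mt))) k
      fun A => lab (cj g A) := by
  have hm : ∀ A, A ∈ M.image (cj ((g⁻¹ : GLz 4) : Mt)) ↔ cj g A ∈ M := fun A => by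
    rw [Finset.mem_image]
    constructor
    · rintro ⟨B, hB, rfl⟩
      rwa [cj_rinv g]
    · exact fun hA => ⟨_, hA, cj_linv g A⟩
  have hs : ∀ i, ∑ A ∈ (M.image (cj ((g⁻¹ : GLz 4) : Mt))).filter (fun A => lab (cj g A) = i), A =
      g2_cjL ((g⁻¹ : GLz 4) : Mt) (∑ A ∈ M.filter (fun A => lab A = i), A) := fun i => by
    rw [Finset.filter_image, Finset.sum_image fun a _ b _ e => cj_inj g⁻¹ e, map_sum]
    refine Finset.sum_congr (Finset.filter_congr fun A _ => ?_) fun _ _ => rfl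
    rw [cj_rinv g]
  refine ⟨Set.ext fun A => ?_, h.kpos, ?_, fun A hA => h.lab_lt _ ((hm A).1 hA), fun i hi => ?_,
    fun i hi j hj => ?_, fun B hB => ?_, fun t ht => ?_⟩
  · rw [Finset.mem_coe, hm, mem_Mn_pb, ← h.mn, Finset.mem_coe]
  · rw [Finset.card_image_of_injective _ (cj_inj g⁻¹), h.card]
  · obtain ⟨A, hA, e⟩ := h.ne i hi
    exact ⟨_, Finset.mem_image_of_mem _ hA, by rw [cj_rinv g, e]⟩
  · rw [hs, hs, h.sums i hi j hj]
  · have h1 := Submodule.mem_map_of_mem (f := g2_cjL ((g⁻¹ : GLz 4) : Mt))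
      (h.perf _ (cj_symm g hB))
    rw [Submodule.map_span, g2_cjL_apply, cj_linv g] at h1
    rw [Finset.coe_image]
    exact h1
  · obtain ⟨q', h1, c, hc, h2⟩ := h.nbr (fun i => cj g (t i))
      fun i hi => ⟨(hm _).1 (ht i hi).1, (ht i hi).2⟩
    refine ⟨_, h1.pb g, c, hc, fun A hA => ?_⟩
    rw [pr_pb, h2 _ ((hm A).1 hA)]
    exact if_congr (cj_inj g).eq_iff rfl rfl

theorem exists_loc {q : Mt} (hq : Vert q) : ∃ M k lab, Loc q M k lab := by
  obtain ⟨g, rfl | rfl⟩ := hq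
  · exact ⟨_, _, _, loc_qA.pb g⟩
  · obtain ⟨lab, h⟩ := loc_q1
    exact ⟨_, _, _, h.pb g⟩

theorem Vert.mn_fin {q : Mt} (hq : Vert q) : (Mn q).Finite := by
  obtain ⟨M, k, lab, h⟩ := exists_loc hq
  rw [← h.mn]
  exact M.finite_toSet

theorem Loc.g2_mn {q : Mt} {M : Finset Mt} {k : ℕ} {lab : Mt → ℕ} (h : Loc q M k lab) {A : Mt} :
    A ∈ M ↔ A ∈ Mn q := by
  rw [← h.mn, Finset.mem_coe]

/-- the sums of a difference of forms over the frames agree, and are positive -/
theorem Loc.frame_pos {q q' : Mt} {M : Finset Mt} {k : ℕ} {lab : Mt → ℕ} (h : Loc q M k lab)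
    (hq : Vert q) (hq' : Vert q') (hne : q' ≠ q) : ∃ H : ℤ, 0 < H ∧ ∀ i < k,
      ∑ A ∈ M.filter (fun A => lab A = i), pr (q' - q) A = H := by
  have h0 : ∀ A ∈ M, 0 ≤ pr (q' - q) A := fun A hA => by
    have h1 := h.g2_mn.1 hA
    rw [pr_sub, h1.2, sub_nonneg]
    exact hq'.two_le_mn h1
  have h1 : ∀ i < k, ∑ A ∈ M.filter (fun A => lab A = i), pr (q' - q) A =
      ∑ A ∈ M.filter (fun A => lab A = 0), pr (q' - q) A := fun i hi => by
    rw [← pr_sum, ← pr_sum, h.sums i hi 0 h.kpos]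
  refine ⟨_, lt_of_le_of_ne (Finset.sum_nonneg fun A hA => h0 A (Finset.mem_filter.1 hA).1)
    fun e => hne (sub_eq_zero.1 (eq_zero_of_perf (hq'.symm.sub hq.symm) h.perf fun A hA => ?_)),
    h1⟩
  exact (Finset.sum_eq_zero_iff_of_nonneg fun A hA => h0 A (Finset.mem_filter.1 hA).1).1
    ((h1 _ (h.lab_lt A hA)).trans e.symm) A (Finset.mem_filter.2 ⟨hA, rfl⟩)

theorem g2_choose {M S : Finset Mt} {k : ℕ} {lab : Mt → ℕ} (hS : Miss M k lab S) :
    ∃ t : ℕ → Mt, ∀ i < k, t i ∈ M ∧ lab (t i) = i ∧ t i ∉ S := by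
  have h1 : ∀ i, ∃ A, i < k → A ∈ M ∧ lab A = i ∧ A ∉ S := fun i => by
    by_cases hi : i < k
    · obtain ⟨A, hA⟩ := hS.2 i hi
      exact ⟨A, fun _ => hA⟩
    · exact ⟨0, fun h => absurd h hi⟩
  choose t ht using h1
  exact ⟨t, ht⟩

theorem Loc.cell_iff {q : Mt} {M : Finset Mt} {k : ℕ} {lab : Mt → ℕ} (h : Loc q M k lab)
    (hq : Vert q) {S : Finset Mt} (hS : S ⊆ M) : Cell S ↔ Miss M k lab S := by
  constructor
  · rintro ⟨q1, q2, h1, h2, hne, h3, h4⟩
    obtain ⟨q', a1, a2, a3⟩ : ∃ q', Vert q' ∧ q' ≠ q ∧ (S : Set Mt) ⊆ Mn q' := by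
      by_cases e : q1 = q
      · exact ⟨q2, h2, fun e' => hne (e.trans e'.symm), h4⟩
      · exact ⟨q1, h1, e, h3⟩
    obtain ⟨H, hH, hs⟩ := h.frame_pos hq a1 a2
    refine ⟨hS, fun i hi => ?_⟩
    by_contra hc
    push Not at hc
    refine hH.ne ((Finset.sum_eq_zero fun A hA => ?_).symm.trans (hs i hi))
    obtain ⟨b1, b2⟩ := Finset.mem_filter.1 hA
    rw [pr_sub, (a3 (hc A b1 b2)).2, (h.g2_mn.1 b1).2, sub_self]
  · intro hM
    obtain ⟨t, ht⟩ := g2_choose hM
    obtain ⟨q', h1, c, hc, h2⟩ := h.nbr t fun i hi => ⟨(ht i hi).1, (ht i hi).2.1⟩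
    refine ⟨q, q', hq, h1, fun e => ?_, fun A hA => h.g2_mn.1 (hS hA), fun A hA => ?_⟩
    · obtain ⟨b1, b2, -⟩ := ht 0 h.kpos
      have b3 := h2 _ b1
      rw [b2, if_pos rfl, ← e, (h.g2_mn.1 b1).2] at b3
      omega
    · refine ⟨(h.g2_mn.1 (hS hA)).1, ?_⟩
      rw [h2 A (hS hA), if_neg fun e => (ht _ (h.lab_lt A (hS hA))).2.2 (by rw [e]; exact hA)]

theorem Cell.card_le {S : Finset Mt} (h : Cell S) : S.card ≤ 9 := by
  obtain ⟨q, -, hq, -, -, hS, -⟩ := id h
  obtain ⟨M, k, lab, hL⟩ := exists_loc hq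
  have h1 := ((hL.cell_iff hq fun A hA => hL.g2_mn.2 (hS hA)).1 h).card_le
  rw [hL.card] at h1
  omega

theorem cell_of_qA {S : Finset Mt} (h : (S : Set Mt) ⊆ Mn qAm.toM) (hc : S.card ≤ 9) :
    Cell S := by
  have hS : S ⊆ (minA.map V4.at).toFinset := fun A hA => loc_qA.g2_mn.2 (h hA)
  refine (loc_qA.cell_iff vert_qA hS).2 ⟨hS, fun i hi => ?_⟩
  obtain ⟨A, h1, h2⟩ := Finset.exists_mem_notMem_of_card_lt_card
    (show S.card < (minA.map V4.at).toFinset.card by rw [loc_qA.card]; omega)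
  exact ⟨A, h1, (Nat.lt_one_iff.1 hi).symm, h2⟩

/-- four independent vectors -/
def g2_ok : List V4 → Bool
  | [a, b, c, d] => M4.det ⟨a, b, c, d⟩ != 0
  | _ => false

theorem g2_spans {L : List V4}
    (hL : ((L.sublistsLen 7).all fun s => (s.sublistsLen 4).any g2_ok) = true) {S : Finset Mt}
    (h : S ⊆ (L.map V4.at).toFinset) (hc : 7 ≤ S.card) : Spans S := by
  have h1 : S ⊆ ((L.filter fun v => v.at ∈ S).map V4.at).toFinset := fun A hA => by
    obtain ⟨v, hv, rfl⟩ := g2_mem.1 (h hA)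
    exact g2_mem.2 ⟨v, List.mem_filter.2 ⟨hv, decide_eq_true hA⟩, rfl⟩
  have h2 := (hc.trans (Finset.card_le_card h1)).trans (List.toFinset_card_le _)
  rw [List.length_map] at h2
  obtain ⟨s, hs, hok⟩ := List.any_eq_true.1 (List.all_eq_true.1 hL
    ((L.filter fun v => v.at ∈ S).take 7) (List.mem_sublistsLen.2
      ⟨(List.take_sublist _ _).trans List.filter_sublist, List.length_take_of_le h2⟩))
  have h3 : ∀ v ∈ s, v.at ∈ S := fun v hv => of_decide_eq_true (List.mem_filter.1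
    (((List.mem_sublistsLen.1 hs).1.trans (List.take_sublist _ _)).subset hv)).2
  match s, hok, h3 with
  | [a, b, c, d], hok, h3 =>
    refine ⟨M4.toM ⟨a, b, c, d⟩, ?_, fun i => ?_⟩
    · rw [toM_det]
      exact bne_iff_ne.1 hok
    · fin_cases i
      exacts [h3 a (by simp), h3 b (by simp), h3 c (by simp), h3 d (by simp)]

theorem spans_of_mn {q : Mt} (hq : Vert q) {S : Finset Mt} (h : (S : Set Mt) ⊆ Mn q)
    (hc : 7 ≤ S.card) : Spans S := by
  obtain ⟨g, hg⟩ := hq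
  rw [← Finset.card_image_of_injective S (cj_inj g)] at hc
  rw [← spans_image g]
  rcases hg with rfl | rfl
  · rw [← image_sub_mn, mn_qA] at h
    exact g2_spans (by decide +kernel) (Finset.coe_subset.1 h) hc
  · rw [← image_sub_mn, mn_q1] at h
    exact g2_spans (by decide +kernel) (Finset.coe_subset.1 h) hc

theorem Cell.spans {S : Finset Mt} (h : Cell S) (hc : 7 ≤ S.card) : Spans S := by
  obtain ⟨q, -, hq, -, -, hS, -⟩ := h
  exact spans_of_mn hq hS hc

/-- a cell with nine vectors is the complement of a transversal -/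
theorem Loc.facet {q : Mt} {M : Finset Mt} {k : ℕ} {lab : Mt → ℕ} (h : Loc q M k lab)
    {S : Finset Mt} (hS : Miss M k lab S) (hc : S.card = 9) :
    ∃ t : ℕ → Mt, (∀ i < k, t i ∈ M ∧ lab (t i) = i) ∧
      ∀ A, A ∈ S ↔ A ∈ M ∧ t (lab A) ≠ A := by
  obtain ⟨t, ht⟩ := g2_choose hS
  refine ⟨t, fun i hi => ⟨(ht i hi).1, (ht i hi).2.1⟩, fun A => ?_⟩
  have h1 : Miss M k lab (M.filter fun A => t (lab A) ≠ A) :=
    ⟨Finset.filter_subset _ _, fun i hi => ⟨t i, (ht i hi).1, (ht i hi).2.1, fun e =>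
      (Finset.mem_filter.1 e).2 (by rw [(ht i hi).2.1])⟩⟩
  have h2 := h1.card_le
  rw [h.card] at h2
  have h3 : S = M.filter fun A => t (lab A) ≠ A :=
    Finset.eq_of_subset_of_card_le (fun A hA => Finset.mem_filter.2 ⟨hS.1 hA, fun e =>
      (ht _ (h.lab_lt A (hS.1 hA))).2.2 (by rw [e]; exact hA)⟩) (by omega)
  exact (Finset.ext_iff.1 h3 A).trans Finset.mem_filter

end Pool.Agent.MP_cbe134_nt.V

end

section

/- Finiteness statements and the height function. -/

open Matrix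

namespace Pool.Agent.MP_cbe134_nt.V

theorem g3_box (N : ℤ) : {q : Mt | ∀ i j, |q i j| ≤ N}.Finite := by
  have h : (Set.univ.pi fun _ : Fin 4 => Set.univ.pi fun _ : Fin 4 => Set.Icc (-N) N).Finite :=
    Set.Finite.pi fun _ => Set.Finite.pi fun _ => Set.finite_Icc _ _
  refine h.subset fun q hq => ?_
  intro i _ j _
  exact abs_le.1 (hq i j)

theorem g3_bil_comm {q : Mt} (hq : q.IsSymm) (v w : Vc) : v ⬝ᵥ (q *ᵥ w) = w ⬝ᵥ (q *ᵥ v) := by
  rw [dotProduct_mulVec, ← mulVec_transpose, hq.eq, dotProduct_comm]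

theorem g3_bil {q : Mt} (hq : Vert q) (v w : Vc) :
    2 * |v ⬝ᵥ (q *ᵥ w)| ≤ v ⬝ᵥ (q *ᵥ v) + w ⬝ᵥ (q *ᵥ w) := by
  have h1 := hq.nonneg (v + w)
  have h2 := hq.nonneg (v - w)
  rw [pr_phi] at h1 h2
  simp only [mulVec_add, mulVec_sub, add_dotProduct, dotProduct_add, sub_dotProduct,
    dotProduct_sub] at h1 h2
  have h3 := g3_bil_comm hq.symm v w
  rcases abs_cases (v ⬝ᵥ (q *ᵥ w)) with h | h <;> rw [h.1] <;> linarith

theorem g3_reg {V : Mt} (hV : V.det ≠ 0) : IsRegular V :=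
  Matrix.isRegular_of_isLeftRegular_det (IsRegular.of_ne_zero hV).left

theorem g3_entry (V q : Mt) (i j : Fin 4) : (V * q * Vᵀ) i j = V i ⬝ᵥ (q *ᵥ V j) := by
  rw [Matrix.mul_assoc]
  simp only [Matrix.mul_apply, transpose_apply, dotProduct, mulVec]

theorem vert_fin {S : Finset Mt} (h : Spans S) :
    {q | Vert q ∧ (S : Set Mt) ⊆ Mn q}.Finite := by
  obtain ⟨V, hV, hS⟩ := h
  have hinj : Function.Injective fun q : Mt => V * q * Vᵀ := by
    intro a b hab
    have h1 := (g3_reg (V := Vᵀ) (by rwa [det_transpose])).right hab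
    exact (g3_reg hV).left h1
  refine ((g3_box 2).preimage hinj.injOn).subset ?_
  rintro q ⟨hq, hSq⟩ i j
  have hi := (hSq (hS i)).2
  have hj := (hSq (hS j)).2
  rw [pr_phi] at hi hj
  have := g3_bil hq (V i) (V j)
  change |(V * q * Vᵀ) i j| ≤ 2
  rw [g3_entry]
  omega

theorem ext_fin {S : Finset Mt} (h : Spans S) : (Ext Cell S).Finite := by
  refine ((vert_fin h).biUnion (t := fun q => Mn q) fun q hq => hq.1.mn_fin).subset ?_
  rintro w ⟨_, q, q', hq, _, _, h1, _⟩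
  simp only [Finset.coe_insert] at h1
  exact Set.mem_biUnion (x := q) ⟨hq, (Set.subset_insert _ _).trans h1⟩
    (h1 (Set.mem_insert _ _))

theorem g3_fib (S : Finset Mt) : {w : Vc | phi w ∈ S}.Finite := by
  refine Set.Finite.preimage' (f := phi) S.finite_toSet fun A _ => ?_
  rcases Set.eq_empty_or_nonempty (phi ⁻¹' {A}) with h | ⟨v, hv⟩
  · rw [h]; exact Set.finite_empty
  · refine (Set.toFinite {v, -v}).subset fun w hw => ?_
    have : phi w = phi v := by
      rw [Set.mem_preimage, Set.mem_singleton_iff] at hw hv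
      rw [hw, hv]
    exact phi_eq_iff.1 this

theorem stab_fin (S : Finset Mt) {T : Finset Mt} (h : Spans T) :
    {g : GLz 4 | S.image (cj g) = T}.Finite := by
  obtain ⟨V, hV, hT⟩ := h
  have hinj : Function.Injective fun (g : GLz 4) (i : Fin 4) =>
      ((g⁻¹ : GLz 4) : Mt) *ᵥ V i := by
    intro a b hab
    have h1 : ((a⁻¹ : GLz 4) : Mt) * Vᵀ = ((b⁻¹ : GLz 4) : Mt) * Vᵀ := by
      ext i j
      have := congrFun (congrFun hab j) i
      simpa only [Matrix.mul_apply, transpose_apply, dotProduct, mulVec] using this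
    have h2 := (g3_reg (V := Vᵀ) (by rwa [det_transpose])).right h1
    exact inv_injective (Units.ext h2)
  have hfin : (Set.univ.pi fun _ : Fin 4 => {w : Vc | phi w ∈ S}).Finite :=
    Set.Finite.pi fun _ => g3_fib S
  refine (hfin.preimage hinj.injOn).subset ?_
  intro g hg i _
  have hi := hT i
  rw [← (hg : S.image (cj g) = T), Finset.mem_image] at hi
  obtain ⟨A, hA, hAi⟩ := hi
  change phi (((g⁻¹ : GLz 4) : Mt) *ᵥ V i) ∈ S
  rw [← cj_phi, ← hAi, cj_linv g A]
  exact hA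

theorem vstab_fin {q : Mt} (hq : Vert q) : {g : GLz 4 | va g q = q}.Finite := by
  obtain ⟨M, k, lab, hM⟩ := exists_loc hq
  have hsp : Spans M := spans_of_mn hq hM.mn.subset (by rw [hM.card]; omega)
  refine (stab_fin M hsp).subset fun g hg => ?_
  have h1 : pb g q = q := by
    have h2 : pb ((g⁻¹ : GLz 4) : Mt) q = q := hg
    calc pb g q = pb g (pb ((g⁻¹ : GLz 4) : Mt) q) := by rw [h2]
      _ = q := by rw [← pb_mul, Units.inv_mul, pb_one]
  have h3 : ((M.image (cj g) : Finset Mt) : Set Mt) ⊆ Mn q := by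
    rw [image_sub_mn, h1]; exact hM.mn.subset
  rw [← hM.mn] at h3
  exact Finset.eq_of_subset_of_card_le (Finset.coe_subset.1 h3)
    (by rw [Finset.card_image_of_injective _ (cj_inj g)])

theorem g3_tau : ∃ τ : ℝ, 0 < τ ∧ τ < 1 / 100 ∧ Transcendental ℤ τ := by
  have hc : Set.Countable {x : ℝ | IsAlgebraic ℤ x} := Algebraic.countable ℤ ℝ
  obtain ⟨τ, h1, h2, h3⟩ := (hc.dense_compl ℝ).exists_between
    (show (0 : ℝ) < 1 / 100 by norm_num)
  exact ⟨τ, h2, h3, h1⟩

theorem g3_single (q : Mt) (i j : Fin 4) :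
    (Pi.single i 1 : Vc) ⬝ᵥ (q *ᵥ (Pi.single j 1 : Vc)) = q i j := by
  simp

theorem g3_trace {q : Mt} (hq : Vert q) (i j : Fin 4) : |q i j| ≤ ∑ k, q k k := by
  have h0 : ∀ k, 0 ≤ q k k := fun k => by
    have := hq.nonneg (Pi.single k 1)
    rwa [pr_phi, g3_single] at this
  have h1 : ∀ k, q k k ≤ ∑ k, q k k := fun k =>
    Finset.single_le_sum (f := fun k => q k k) (fun k _ => h0 k) (Finset.mem_univ k)
  have h2 := g3_bil hq (Pi.single i 1) (Pi.single j 1)
  simp only [g3_single] at h2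
  have := h1 i
  have := h1 j
  omega

theorem g3_pr_single (h : Mt) (i j : Fin 4) : pr h (Matrix.single i j 1) = h i j := by
  unfold pr
  rw [Finset.sum_eq_single i, Finset.sum_eq_single j]
  · simp
  · intro b _ hb
    simp [hb.symm]
  · simp
  · intro b _ hb
    simp [hb.symm]
  · simp

theorem exists_ht : ∃ ℓ : Mt →+ ℝ, Ht ℓ := by
  obtain ⟨τ, h0, h1, ht⟩ := g3_tau
  let e : Fin 4 × Fin 4 → ℕ := fun p => (finProdFinEquiv p : ℕ) + 1
  have he : Function.Injective e := fun a b hab =>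
    finProdFinEquiv.injective (Fin.ext (Nat.succ_injective hab))
  let ℓ : Mt →+ ℝ :=
    { toFun := fun h => ∑ k, (h k k : ℝ) + ∑ p : Fin 4 × Fin 4, τ ^ e p * (h p.1 p.2 : ℝ)
      map_zero' := by simp
      map_add' := fun a b => by
        simp only [Matrix.add_apply, Int.cast_add, mul_add, Finset.sum_add_distrib]
        ring }
  have hℓ : ∀ h : Mt,
      ℓ h = ∑ k, (h k k : ℝ) + ∑ p : Fin 4 × Fin 4, τ ^ e p * (h p.1 p.2 : ℝ) := fun _ => rfl
  refine ⟨ℓ, fun h _ hh => ?_, fun t => ?_, fun M hM => ?_⟩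
  · have hp := transcendental_iff.1 ht
      (Polynomial.C (∑ k, h k k) + ∑ p : Fin 4 × Fin 4, Polynomial.monomial (e p) (h p.1 p.2))
      (by
        rw [← hh, hℓ, map_add, Polynomial.aeval_C, map_sum (Polynomial.aeval τ)]
        simp only [Polynomial.aeval_monomial, eq_intCast, mul_comm, Int.cast_sum])
    ext i j
    have := congrArg (fun P => Polynomial.coeff P (e (i, j))) hp
    simp only [Polynomial.coeff_add, Polynomial.finsetSum_coeff, Polynomial.coeff_monomial,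
      Polynomial.coeff_zero, he.eq_iff] at this
    rw [Polynomial.coeff_C_of_ne_zero (Nat.succ_ne_zero _)] at this
    simpa using this
  · refine (g3_box ⌈2 * |t|⌉).subset ?_
    rintro q ⟨hq, hqt⟩ i j
    have hT : ∀ i j, |(q i j : ℝ)| ≤ ∑ k, (q k k : ℝ) := fun i j => by
      exact_mod_cast g3_trace hq i j
    have hT0 : (0 : ℝ) ≤ ∑ k, (q k k : ℝ) := (abs_nonneg _).trans (hT 0 0)
    have hb : ∀ p : Fin 4 × Fin 4,
        -(1 / 100 * ∑ k, (q k k : ℝ)) ≤ τ ^ e p * (q p.1 p.2 : ℝ) := fun p => by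
      have a1 : τ ^ e p ≤ 1 / 100 := by
        have : τ ^ e p ≤ τ := pow_le_of_le_one h0.le (by linarith) (Nat.succ_ne_zero _)
        linarith
      have a2 : |τ ^ e p * (q p.1 p.2 : ℝ)| ≤ 1 / 100 * ∑ k, (q k k : ℝ) := by
        rw [abs_mul, abs_of_pos (pow_pos h0 _)]
        exact mul_le_mul a1 (hT _ _) (abs_nonneg _) (by norm_num)
      exact (abs_le.1 a2).1
    have hs := Finset.sum_le_sum fun p (_ : p ∈ (Finset.univ : Finset (Fin 4 × Fin 4))) => hb p
    simp only [Finset.sum_const, Finset.card_univ, Fintype.card_prod, Fintype.card_fin,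
      nsmul_eq_mul] at hs
    rw [hℓ] at hqt
    have h2 : (|q i j| : ℝ) ≤ 2 * |t| := by
      have := hT i j
      have := le_abs_self t
      push_cast at hs
      linarith
    have h3 : ((|q i j| : ℤ) : ℝ) ≤ (⌈2 * |t|⌉ : ℤ) := by
      push_cast
      exact h2.trans (Int.le_ceil _)
    exact_mod_cast h3
  · let K : Submodule ℝ (Mt → ℝ) :=
      { carrier := {f | ∃ lam : Mt → ℝ, ∀ h : Mt, h.IsSymm →
          f h = ∑ A ∈ M, lam A * (pr h A : ℝ)}
        add_mem' := by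
          rintro a b ⟨l, hl⟩ ⟨l', hl'⟩
          refine ⟨l + l', fun h hh => ?_⟩
          simp only [Pi.add_apply, hl h hh, hl' h hh, add_mul, Finset.sum_add_distrib]
        zero_mem' := ⟨0, fun h _ => by simp⟩
        smul_mem' := by
          rintro c a ⟨l, hl⟩
          refine ⟨c • l, fun h hh => ?_⟩
          simp only [Pi.smul_apply, smul_eq_mul, hl h hh, Finset.mul_sum, mul_assoc] }
    have hB : ∀ B ∈ Submodule.span ℤ (M : Set Mt), (fun h => (pr h B : ℝ)) ∈ K := by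
      intro B hB
      induction hB using Submodule.span_induction with
      | mem A hA =>
        refine ⟨fun A' => if A' = A then 1 else 0, fun h _ => ?_⟩
        have hA' : A ∈ M := hA
        simp [hA']
      | zero =>
        have : (fun h : Mt => (pr h 0 : ℝ)) = 0 := by
          ext h; simp [pr]
        rw [this]; exact K.zero_mem
      | add a b _ _ ha hb =>
        have : (fun h : Mt => (pr h (a + b) : ℝ)) =
            (fun h : Mt => (pr h a : ℝ)) + fun h : Mt => (pr h b : ℝ) := by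
          ext h; simp [pr_add]
        rw [this]; exact K.add_mem ha hb
      | smul c a _ ha =>
        have : (fun h : Mt => (pr h (c • a) : ℝ)) = (c : ℝ) • fun h : Mt => (pr h a : ℝ) := by
          ext h; rw [pr_zsmul]; simp
        rw [this]; exact K.smul_mem _ ha
    have hE : ∀ i j, (fun h : Mt => (h i j : ℝ)) ∈ K := by
      intro i j
      have hs : (Matrix.single i j (1 : ℤ) + Matrix.single j i 1 : Mt).IsSymm := by
        rw [Matrix.IsSymm, transpose_add, transpose_single, transpose_single, add_comm]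
      obtain ⟨l, hl⟩ := K.smul_mem (1 / 2) (hB _ (hM _ hs))
      refine ⟨l, fun h hh => ?_⟩
      rw [← hl h hh]
      simp only [Pi.smul_apply, smul_eq_mul, pr_add, g3_pr_single, hh.apply i j]
      push_cast
      ring
    have hK : (∑ k, fun h : Mt => (h k k : ℝ)) +
        ∑ p : Fin 4 × Fin 4, τ ^ e p • (fun h : Mt => (h p.1 p.2 : ℝ)) ∈ K :=
      K.add_mem (K.sum_mem fun k _ => hE k k) (K.sum_mem fun p _ => K.smul_mem _ (hE _ _))
    obtain ⟨l, hl⟩ := hK
    refine ⟨l, fun h hh => ?_⟩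
    rw [← hl h hh, hℓ]
    simp only [Pi.add_apply, Finset.sum_apply, Pi.smul_apply, smul_eq_mul]

theorem Ht.eq_of_eq {ℓ : Mt →+ ℝ} (hℓ : Ht ℓ) {q q' : Mt} (hq : Vert q) (hq' : Vert q')
    (h : ℓ q = ℓ q') : q = q' :=
  sub_eq_zero.1 (hℓ.inj _ (hq.symm.sub hq'.symm) (by rw [map_sub, h, sub_self]))

theorem spans_le_fin : Sup Spans ≤ Sup fun S => (Ext Cell S).Finite :=
  Sup_mono fun _ h => ext_fin h

theorem Wc_le_spans {j : ℕ} (hj : 7 ≤ j) : Wc j ≤ Sup Spans :=
  Sup_mono fun _ h => h.1.spans (h.2 ▸ hj)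

theorem del_mem_Wc {j : ℕ} (hj : 7 ≤ j) {x : Ch Mt} (hx : x ∈ Wc j) :
    del Cell x ∈ Wc (j + 1) :=
  del_mem_Sup (p := fun S => Cell S ∧ S.card = j) (fun _ h => ext_fin (h.1.spans (h.2 ▸ hj)))
    (fun _ _ h hw => ⟨hw.2, by rw [Finset.card_insert_of_notMem hw.1, h.2]⟩) hx

theorem del_ga (g : GLz 4) {x : Ch Mt} (hx : x ∈ Sup Spans) :
    del Cell (ga g x) = ga g (del Cell x) :=
  (act_del (cj_linv g) (cj_rinv g) (cell_image g) (spans_le_fin hx)).symm

theorem del_del_cell {x : Ch Mt} (hx : x ∈ Sup Spans) : del Cell (del Cell x) = 0 :=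
  del_del (fun _ _ h hT => Cell.mono h hT) (spans_le_fin hx)

theorem del_mem_spans {x : Ch Mt} (hx : x ∈ Sup Spans) : del Cell x ∈ Sup Spans :=
  del_mem_Sup (p := Spans) (fun _ h => ext_fin h)
    (fun _ _ h _ => Spans.mono (Finset.subset_insert _ _) h) hx

end Pool.Agent.MP_cbe134_nt.V

end

section

/- The equivariant cochain attached to a chain and a polynomial. -/

open Matrix Finsupp

namespace Pool.Agent.MP_cbe134_nt.V

variable {z z' : Ch Mt} {g g' : Pn 4}

theorem l1_one (S : Finset Mt) (c : ℚ) : (Finsupp.single S c : Ch Mt) = c • Finsupp.single S 1 := by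
  rw [Finsupp.smul_single, smul_eq_mul, mul_one]

theorem l1_mul (a b : GLz 4) (x : Ch Mt) : ga (a * b) x = ga a (ga b x) :=
  act_ga.2 a trivial b trivial x

theorem nm_fin (hz : z ∈ Sup Spans) (x : Ch Mt) : {γ : GLz 4 | ip (ga γ x) z ≠ 0}.Finite := by
  induction x using Finsupp.induction_linear with
  | zero => simp
  | add x y hx hy =>
    refine (hx.union hy).subset fun γ hγ => ?_
    by_contra h
    simp only [Set.mem_union, Set.mem_ofPred_eq, not_or, not_not] at h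
    exact hγ (by rw [map_add, map_add, LinearMap.add_apply, h.1, h.2, add_zero])
  | single S c =>
    refine (z.support.finite_toSet.biUnion fun T hT =>
      stab_fin S (mem_Sup_iff.1 hz T (Finsupp.mem_support_iff.1 hT))).subset fun γ hγ => ?_
    obtain ⟨ε, -, he⟩ := act_single (cj_inj γ) S
    refine Set.mem_biUnion (x := S.image (cj γ)) (Finsupp.mem_support_iff.2 fun h => hγ ?_) rfl
    rw [l1_one, map_smul, ga, he, map_smul, LinearMap.smul_apply, ip_single, h, mul_zero,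
      smul_zero]

theorem l1_fin (hz : z ∈ Sup Spans) (x : Ch Mt) (F : GLz 4 → Pn 4) :
    Function.HasFiniteSupport fun γ : GLz 4 => ip (ga γ x) z • F γ :=
  (nm_fin hz x).subset fun γ hγ h => hγ (by simp only [h, zero_smul])

theorem nm_apply (hz : z ∈ Sup Spans) (g : Pn 4) (x : Ch Mt) :
    Nm z g x = ∑ᶠ γ : GLz 4, ip (ga γ x) z • sub (γ : Mt) g := by
  induction x using Finsupp.induction_linear with
  | zero => simp
  | add x y hx hy =>
    rw [map_add, hx, hy, ← finsum_add_distrib (l1_fin hz x _) (l1_fin hz y _)]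
    simp only [map_add, LinearMap.add_apply, add_smul]
  | single S c =>
    rw [Nm, Finsupp.linearCombination_single, smul_finsum' c (l1_fin hz _ _), l1_one S c]
    simp only [map_smul, LinearMap.smul_apply, smul_assoc]

theorem nm_mem (hz : z ∈ Sup Spans) {d : ℕ} (hg : g ∈ Hd 4 d) (x : Ch Mt) :
    Nm z g x ∈ Hd 4 d := by
  rw [nm_apply hz]
  exact finsum_induction (· ∈ Hd 4 d) (zero_mem _) (fun _ _ => add_mem)
    fun γ => Submodule.smul_mem _ _ (sub_mem _ hg)

theorem nm_ga (hz : z ∈ Sup Spans) (g : Pn 4) (a : GLz 4) (x : Ch Mt) :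
    Nm z g (ga a x) = rhoI a (Nm z g x) := by
  symm
  rw [nm_apply hz, nm_apply hz, map_finsum (rhoI a) (l1_fin hz x _),
    ← finsum_comp_equiv (Equiv.mulRight a)]
  refine finsum_congr fun γ => ?_
  simp only [Equiv.coe_mulRight]
  rw [l1_mul, map_smul, rhoI, AlgHom.toLinearMap_apply, sub_sub,
    ← Units.val_mul, mul_inv_cancel_right]

theorem sub_rhoI (a : GLz 4) (f : Pn 4) : sub (a : Mt) (rhoI a f) = f := by
  rw [rhoI, AlgHom.toLinearMap_apply, sub_sub, Units.inv_mul, sub_one]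

theorem nm_ga' (hz : z ∈ Sup Spans) (g : Pn 4) (a : GLz 4) (x : Ch Mt) :
    sub (a : Mt) (Nm z g (ga a x)) = Nm z g x := by
  rw [nm_ga hz, sub_rhoI]

theorem nm_zero_left (g : Pn 4) (x : Ch Mt) : Nm 0 g x = 0 := by
  rw [nm_apply (zero_mem _)]
  simp

theorem nm_add_left (hz : z ∈ Sup Spans) (hz' : z' ∈ Sup Spans) (g : Pn 4) (x : Ch Mt) :
    Nm (z + z') g x = Nm z g x + Nm z' g x := by
  rw [nm_apply (add_mem hz hz'), nm_apply hz, nm_apply hz',
    ← finsum_add_distrib (l1_fin hz x _) (l1_fin hz' x _)]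
  simp only [map_add, add_smul]

theorem nm_smul_left (hz : z ∈ Sup Spans) (c : ℚ) (g : Pn 4) (x : Ch Mt) :
    Nm (c • z) g x = c • Nm z g x := by
  rw [nm_apply (Submodule.smul_mem _ c hz), nm_apply hz, smul_finsum' c (l1_fin hz _ _)]
  simp only [map_smul, smul_assoc]

theorem nm_add_right (hz : z ∈ Sup Spans) (g g' : Pn 4) (x : Ch Mt) :
    Nm z (g + g') x = Nm z g x + Nm z g' x := by
  rw [nm_apply hz, nm_apply hz, nm_apply hz,
    ← finsum_add_distrib (l1_fin hz x _) (l1_fin hz x _)]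
  simp only [map_add, smul_add]

theorem nm_smul_right (hz : z ∈ Sup Spans) (c : ℚ) (g : Pn 4) (x : Ch Mt) :
    Nm z (c • g) x = c • Nm z g x := by
  rw [nm_apply hz, nm_apply hz, smul_finsum' c (l1_fin hz _ _)]
  refine finsum_congr fun γ => ?_
  rw [map_smul, smul_comm]

theorem nm_move (hz : z ∈ Sup Spans) (g : Pn 4) (a : GLz 4) (x : Ch Mt) :
    Nm (ga a z) g x = Nm z (sub (a : Mt) g) x := by
  rw [nm_apply (stb_Spans a trivial z hz), nm_apply hz, ← finsum_comp_equiv (Equiv.mulLeft a)]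
  refine finsum_congr fun γ => ?_
  rw [Equiv.coe_mulLeft, l1_mul, ip_ga a, ← l1_mul, inv_mul_cancel, act_ga.1, sub_sub,
    Units.val_mul]

theorem l1_cons (p : ℤ × M4) (a : GR) (w : CL) :
    chn (opC (p :: a) w) = (p.1 : ℚ) • act (cj p.2.toM) (chn w) + chn (opC a w) := by
  rw [chn_opC, chn_opC, List.map_cons, List.sum_cons]

theorem l1_GL {A : M4} (h : A.det * A.det = 1) : ∃ γ : GLz 4, (γ : Mt) = A.toM :=
  exists_GL (by rw [toM_det, h])

theorem opC_mem {a : GR} (ha : ∀ p ∈ a, p.2.det * p.2.det = 1) {w : CL}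
    (hw : chn w ∈ Sup Spans) : chn (opC a w) ∈ Sup Spans := by
  induction a with
  | nil =>
    rw [chn_opC]
    exact zero_mem _
  | cons p a ih =>
    obtain ⟨γ, hγ⟩ := l1_GL (ha p List.mem_cons_self)
    rw [l1_cons, ← hγ]
    exact add_mem (Submodule.smul_mem _ _ (stb_Spans γ trivial _ hw))
      (ih fun q hq => ha q (List.mem_cons_of_mem _ hq))

theorem nm_opC {a : GR} (ha : ∀ p ∈ a, p.2.det * p.2.det = 1) {w : CL}
    (hw : chn w ∈ Sup Spans) (g : Pn 4) (x : Ch Mt) :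
    Nm (chn (opC a w)) g x = Nm (chn w) (opR a g) x := by
  induction a with
  | nil =>
    rw [chn_opC, opR_nil, List.map_nil, List.sum_nil, nm_zero_left, nm_apply hw]
    simp
  | cons p a ih =>
    obtain ⟨γ, hγ⟩ := l1_GL (ha p List.mem_cons_self)
    have ha' : ∀ q ∈ a, q.2.det * q.2.det = 1 := fun q hq => ha q (List.mem_cons_of_mem _ hq)
    have h1 : ga γ (chn w) ∈ Sup Spans := stb_Spans γ trivial _ hw
    rw [l1_cons, opR_cons, ← hγ, nm_add_right hw, nm_smul_right hw, ← ih ha', ← nm_move hw,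
      ← nm_smul_left h1, ← nm_add_left (Submodule.smul_mem _ _ h1) (opC_mem ha' hw), ga]

theorem nm_del (hz : z ∈ Sup fun S => Cell S ∧ Spans S) (hb : bd z ∈ Sup Spans) (g : Pn 4)
    {x : Ch Mt} (hx : x ∈ Sup Spans) : Nm z g (del Cell x) = Nm (bd z) g x := by
  rw [nm_apply (Sup_mono (fun _ h => h.2) hz), nm_apply hb]
  refine finsum_congr fun γ => ?_
  rw [← del_ga γ hx, ip_del (spans_le_fin (stb_Spans γ trivial x hx))
    (Sup_mono (fun _ h => h.1) hz)]

/-- a cochain attached to one cell vanishes if it vanishes on that cell -/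
theorem nm_orbit {l : List Mt} (hl : l.Nodup) (hs : Spans l.toFinset) (g : Pn 4)
    (h : Nm (br l) g (br l) = 0) (x : Ch Mt) : Nm (br l) g x = 0 := by
  have hz : br l ∈ Sup Spans := br_mem_Sup fun _ => hs
  obtain ⟨δ, hδ, hb⟩ := br_nodup hl
  induction x using Finsupp.induction_linear with
  | zero => exact map_zero _
  | add x y hx hy => rw [map_add, hx, hy, add_zero]
  | single S c =>
    rw [l1_one, map_smul]
    refine smul_eq_zero_of_right c ?_
    by_cases hS : ∃ γ : GLz 4, S.image (cj γ) = l.toFinset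
    · obtain ⟨γ, hγ⟩ := hS
      obtain ⟨ε, -, he⟩ := act_single (cj_inj γ) S
      have h1 : ga γ (Finsupp.single S 1) = (ε * δ) • br l := by
        rw [ga, he, hγ, hb, Finsupp.smul_single, smul_eq_mul, mul_assoc, hδ, mul_one]
      rw [← nm_ga' hz g γ, h1, map_smul, h, smul_zero, map_zero]
    · rw [nm_apply hz]
      refine finsum_eq_zero_of_forall_eq_zero fun γ => ?_
      obtain ⟨ε, -, he⟩ := act_single (cj_inj γ) S
      rw [ga, he, ip_single, hb, Finsupp.single_eq_of_ne fun e => hS ⟨γ, e⟩, mul_zero, zero_smul]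

end Pool.Agent.MP_cbe134_nt.V

end
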