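import Pool.Agent.MP_cbe134_nt.VD2

section

/- General lemmas on the vanishing of first cohomology. -/

namespace Pool.Agent.MP_cbe134_nt.V

variable {G : Type} [Group G] {E : Type} [AddCommGroup E] [Module ℚ E]
  {S P N K W : Subgroup G} {ρ : G → E →ₗ[ℚ] E} {T F : Submodule ℚ E}

theorem mem_cnj {a g : G} : a ∈ cnj P g ↔ g⁻¹ * a * g ∈ P := Iff.rfl

theorem mem_Fx {v : E} : v ∈ Fx N ρ T ↔ v ∈ T ∧ ∀ a ∈ N, ρ a v = v := Iff.rfl

theorem Act.mono (h : P ≤ S) (hA : Act S ρ) : Act P ρ := by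
  exact ⟨hA.1, fun a ha b hb => hA.2 a (h ha) b (h hb)⟩

theorem Stb.mono (h : P ≤ S) (hT : Stb S ρ T) : Stb P ρ T := by
  exact fun a ha => hT a (h ha)

theorem stb_top : Stb S ρ ⊤ := by
  exact fun _ _ _ _ => Submodule.mem_top

theorem V0.mono (h : P ≤ S) (hF : F ≤ T) (h0 : V0 P ρ T) : V0 S ρ F := by
  exact fun v hv e => h0 v (hF hv) fun a ha => e a (h ha)

theorem stb_Fx (hN : N ≤ S) (hA : Act S ρ) (hT : Stb S ρ T)
    (hn : ∀ g ∈ S, ∀ a ∈ N, g⁻¹ * a * g ∈ N) : Stb S ρ (Fx N ρ T) := by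
  intro g hg v hv
  refine ⟨hT g hg v hv.1, fun a ha => ?_⟩
  have e : a * g = g * (g⁻¹ * a * g) := by group
  rw [← hA.2 a (hN ha) g hg, e, hA.2 g hg _ (hN (hn g hg a ha)), hv.2 _ (hn g hg a ha)]

theorem c1_red (hP : P ≤ S) (hA : Act S ρ) (hT : Stb S ρ T) (h1 : V1 P ρ T)
    (h : ∀ c : G → E, (∀ a ∈ S, c a ∈ T) → (∀ a ∈ S, ∀ b ∈ S, c (a * b) = c a + ρ a (c b)) →
      (∀ a ∈ P, c a = 0) → ∃ v ∈ T, ∀ a ∈ S, c a = ρ a v - v) : V1 S ρ T := by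
  intro c hc hcc
  obtain ⟨v, hv, e⟩ := h1 c (fun a ha => hc a (hP ha)) fun a ha b hb => hcc a (hP ha) b (hP hb)
  obtain ⟨w, hw, e'⟩ := h (fun a => c a - (ρ a v - v))
    (fun a ha => sub_mem (hc a ha) (sub_mem (hT a ha v hv) hv))
    (fun a ha b hb => by
      rw [hcc a ha b hb, hA.2 a ha b hb, map_sub, map_sub]
      abel)
    (fun a ha => by rw [e a ha, sub_self])
  refine ⟨v + w, add_mem hv hw, fun a ha => ?_⟩
  rw [map_add, sub_eq_iff_eq_add.1 (e' a ha)]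
  abel

theorem c1_fix (hP : P ≤ S) {c : G → E}
    (hcc : ∀ a ∈ S, ∀ b ∈ S, c (a * b) = c a + ρ a (c b)) (hz : ∀ a ∈ P, c a = 0) {g p : G}
    (hg : g ∈ S) (hp : p ∈ P) (hp' : g⁻¹ * p * g ∈ P) : ρ p (c g) = c g := by
  have e : p * g = g * (g⁻¹ * p * g) := by group
  have h2 := hcc p (hP hp) g hg
  rw [e, hcc g hg _ (hP hp'), hz _ hp', hz _ hp, map_zero, add_zero, zero_add] at h2
  exact h2.symm

theorem amal1 (hP : P ≤ S) (hA : Act S ρ) (hT : Stb S ρ T) (h1 : V1 P ρ T)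
    (h0 : ∀ g ∈ S, V0 (P ⊓ cnj P g) ρ T) : V1 S ρ T := by
  refine c1_red hP hA hT h1 fun c hc hcc hz => ⟨0, zero_mem _, fun g hg => ?_⟩
  rw [map_zero, sub_zero]
  exact h0 g hg (c g) (hc g hg) fun p hp => c1_fix hP hcc hz hg hp.1 hp.2

theorem ext1 (hN : N ≤ S) (hK : K ≤ S) (hA : Act S ρ) (hT : Stb S ρ T)
    (hn : ∀ g ∈ S, ∀ a ∈ N, g⁻¹ * a * g ∈ N) (hd : ∀ g ∈ S, ∃ a ∈ N, ∃ k ∈ K, g = a * k)
    (h1 : V1 N ρ T) (h2 : V1 K ρ (Fx N ρ T)) : V1 S ρ T := by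
  refine c1_red hN hA hT h1 fun c hc hcc hz => ?_
  have hf : ∀ k ∈ S, c k ∈ Fx N ρ T := fun k hk =>
    ⟨hc k hk, fun a ha => c1_fix hN hcc hz hk ha (hn k hk a ha)⟩
  obtain ⟨v, hv, e⟩ := h2 c (fun k hk => hf k (hK hk))
    fun a ha b hb => hcc a (hK ha) b (hK hb)
  refine ⟨v, hv.1, fun g hg => ?_⟩
  obtain ⟨a, ha, k, hk, rfl⟩ := hd g hg
  rw [hcc a (hN ha) k (hK hk), hz a ha, zero_add, (hf k (hK hk)).2 a ha, e k hk,
    hA.2 a (hN ha) k (hK hk), (stb_Fx hN hA hT hn k (hK hk) v hv).2 a ha]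

theorem c1_one (hA : Act S ρ) {c : G → E}
    (hcc : ∀ a ∈ S, ∀ b ∈ S, c (a * b) = c a + ρ a (c b)) : c 1 = 0 := by
  have h := hcc 1 (one_mem _) 1 (one_mem _)
  rw [one_mul, hA.1] at h
  exact left_eq_add.1 h

theorem cyc1 (τ : G) (hA : Act (Subgroup.zpowers τ) ρ)
    (hs : ∀ v ∈ T, ∃ u ∈ T, ρ τ u - u = v) : V1 (Subgroup.zpowers τ) ρ T := by
  intro c hc hcc
  obtain ⟨u, hu, e⟩ := hs (c τ) (hc τ (Subgroup.mem_zpowers τ))
  refine ⟨u, hu, ?_⟩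
  have h1 := c1_one hA hcc
  rw [Subgroup.zpowers_eq_closure] at hA hcc ⊢
  intro a ha
  induction ha using Subgroup.closure_induction with
  | mem x hx => rw [Set.mem_singleton_iff.1 hx, e]
  | one => rw [h1, hA.1, sub_self]
  | mul x y hx hy ex ey =>
    rw [hcc x hx y hy, ex, ey, hA.2 x hx y hy, map_sub]
    abel
  | inv x hx ex =>
    have h2 := hcc x⁻¹ (inv_mem hx) x hx
    rw [inv_mul_cancel, h1, ex, map_sub, ← hA.2 _ (inv_mem hx) x hx, inv_mul_cancel, hA.1] at h2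
    rw [eq_neg_of_add_eq_zero_left h2.symm, neg_sub]

theorem fin1 (hS : (S : Set G).Finite) (hA : Act S ρ) : V1 S ρ T := by
  intro c hc hcc
  haveI : Fintype S := hS.fintype
  have hn : (Fintype.card S : ℚ) ≠ 0 := Nat.cast_ne_zero.2 Fintype.card_ne_zero
  refine ⟨-(Fintype.card S : ℚ)⁻¹ • ∑ s : S, c s,
    Submodule.smul_mem _ _ (Submodule.sum_mem _ fun s _ => hc s s.2), fun a ha => ?_⟩
  have h2 : ∀ s : S, c ((Equiv.mulLeft (⟨a, ha⟩ : S) s : S) : G) = c a + ρ a (c s) :=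
    fun s => hcc a ha s s.2
  have h1 := Equiv.sum_comp (Equiv.mulLeft (⟨a, ha⟩ : S)) fun s : S => c s
  rw [Finset.sum_congr rfl fun s _ => h2 s, Finset.sum_add_distrib, Finset.sum_const,
    Finset.card_univ, ← map_sum, ← Nat.cast_smul_eq_nsmul ℚ] at h1
  rw [map_smul, ← smul_sub, eq_sub_of_add_eq' h1, sub_sub_cancel_left, neg_smul_neg, smul_smul,
    inv_mul_cancel₀ hn, one_smul]

theorem ses1 (h0 : V0m S ρ F) (h1 : V1 S ρ ⊤) : V1 S ρ F := by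
  intro c hc hcc
  obtain ⟨v, -, e⟩ := h1 c (fun _ _ => Submodule.mem_top) hcc
  exact ⟨v, h0 v fun a ha => e a ha ▸ hc a ha, e⟩

theorem ses2 (hA : Act S ρ) (h1 : V1m S ρ F) (h2 : V2 S ρ ⊤) : V2 S ρ F := by
  intro c hc hcc
  obtain ⟨β, -, e⟩ := h2 c (fun _ _ _ _ => Submodule.mem_top) hcc
  obtain ⟨v, hv⟩ := h1 β fun a ha b hb => e a ha b hb ▸ hc a ha b hb
  refine ⟨fun a => β a - (ρ a v - v), hv, fun a ha b hb => ?_⟩
  dsimp only
  rw [e a ha b hb, hA.2 a ha b hb, map_sub, map_sub]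
  abel

theorem V0.cnj (hS : S ≤ W) (hA : Act W ρ) (hT : Stb W ρ T) {g : G} (hg : g ∈ W)
    (h : V0 S ρ T) : V0 (cnj S g) ρ T := by
  intro v hv e
  have h1 := h (ρ g⁻¹ v) (hT _ (inv_mem hg) v hv) fun s hs => by
    have h2 : s * g⁻¹ = g⁻¹ * (g * s * g⁻¹) := by group
    have h3 : g * s * g⁻¹ ∈ V.cnj S g := by
      rw [mem_cnj]
      simpa [mul_assoc] using hs
    rw [← hA.2 s (hS hs) _ (inv_mem hg), h2,
      hA.2 _ (inv_mem hg) _ (mul_mem (mul_mem hg (hS hs)) (inv_mem hg)), e _ h3]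
  rw [← hA.1 v, ← mul_inv_cancel g, hA.2 g hg _ (inv_mem hg), h1, map_zero]

theorem V1.cnj (hS : S ≤ W) (hA : Act W ρ) (hT : Stb W ρ T) {g : G} (hg : g ∈ W)
    (h : V1 S ρ T) : V1 (cnj S g) ρ T := by
  intro c hc hcc
  have h3 : ∀ s ∈ S, g * s * g⁻¹ ∈ V.cnj S g := fun s hs => by
    rw [mem_cnj]
    simpa [mul_assoc] using hs
  obtain ⟨v, hv, e⟩ := h (fun s => ρ g⁻¹ (c (g * s * g⁻¹)))
    (fun s hs => hT _ (inv_mem hg) _ (hc _ (h3 s hs))) fun s hs t ht => by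
      have h4 : g * (s * t) * g⁻¹ = g * s * g⁻¹ * (g * t * g⁻¹) := by group
      have h2 : g⁻¹ * (g * s * g⁻¹) = s * g⁻¹ := by group
      rw [h4, hcc _ (h3 s hs) _ (h3 t ht), map_add,
        ← hA.2 _ (inv_mem hg) _ (mul_mem (mul_mem hg (hS hs)) (inv_mem hg)), h2,
        hA.2 s (hS hs) _ (inv_mem hg)]
  refine ⟨ρ g v, hT g hg v hv, fun a ha => ?_⟩
  have h5 : g⁻¹ * a * g ∈ S := ha
  have h6 : g * (g⁻¹ * a * g) * g⁻¹ = a := by group
  have h7 : g * (g⁻¹ * a * g) = a * g := by group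
  have h8 : a ∈ W := h6 ▸ mul_mem (mul_mem hg (hS h5)) (inv_mem hg)
  have h9 := congrArg (ρ g) (e _ h5)
  rwa [h6, ← hA.2 g hg _ (inv_mem hg), mul_inv_cancel, hA.1, map_sub, ← hA.2 g hg _ (hS h5), h7,
    hA.2 a h8 g hg] at h9

theorem V1.of_bij {E' : Type} [AddCommGroup E'] [Module ℚ E'] {ρ' : G → E' →ₗ[ℚ] E'}
    {T' : Submodule ℚ E'} (φ : E →ₗ[ℚ] E') (hφ : Set.BijOn φ T T') (hT : Stb S ρ T)
    (hρ : ∀ a ∈ S, ∀ v ∈ T, φ (ρ a v) = ρ' a (φ v)) (h : V1 S ρ' T') : V1 S ρ T := by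
  intro c hc hcc
  obtain ⟨v', hv', e⟩ := h (fun a => φ (c a)) (fun a ha => hφ.mapsTo (hc a ha))
    fun a ha b hb => by rw [hcc a ha b hb, map_add, hρ a ha _ (hc b hb)]
  obtain ⟨v, hv, rfl⟩ := hφ.surjOn hv'
  refine ⟨v, hv, fun a ha => hφ.injOn (hc a ha) (sub_mem (hT a ha v hv) hv) ?_⟩
  rw [e a ha, map_sub, hρ a ha v hv]

theorem V2.of_bij {E' : Type} [AddCommGroup E'] [Module ℚ E'] {ρ' : G → E' →ₗ[ℚ] E'}
    {T' : Submodule ℚ E'} (φ : E →ₗ[ℚ] E') (hφ : Set.BijOn φ T T') (hT : Stb S ρ T)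
    (hρ : ∀ a ∈ S, ∀ v ∈ T, φ (ρ a v) = ρ' a (φ v)) (h : V2 S ρ' T') : V2 S ρ T := by
  intro c hc hcc
  obtain ⟨β', hβ, e⟩ := h (fun a b => φ (c a b)) (fun a ha b hb => hφ.mapsTo (hc a ha b hb))
    fun a ha b hb d hd => by
      rw [← hρ a ha _ (hc b hb d hd), ← map_add, ← map_add, hcc a ha b hb d hd]
  have h1 : ∀ a, ∃ v, a ∈ S → v ∈ T ∧ φ v = β' a := fun a => by
    by_cases ha : a ∈ S
    · obtain ⟨v, hv, e'⟩ := hφ.surjOn (hβ a ha)
      exact ⟨v, fun _ => ⟨hv, e'⟩⟩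
    · exact ⟨0, fun h' => absurd h' ha⟩
  choose β hb using h1
  refine ⟨β, fun a ha => (hb a ha).1, fun a ha b hb' => hφ.injOn (hc a ha b hb')
    (add_mem (sub_mem (hT a ha _ (hb b hb').1) (hb _ (mul_mem ha hb')).1) (hb a ha).1) ?_⟩
  rw [e a ha b hb', map_add, map_sub, hρ a ha _ (hb b hb').1, (hb b hb').2, (hb a ha).2,
    (hb _ (mul_mem ha hb')).2]

theorem V2.aut {G' : Type} [Group G'] (θ : G' ≃* G) (h : V2 ⊤ ρ T) :
    V2 ⊤ (fun g => ρ (θ g)) T := by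
  intro c hc hcc
  obtain ⟨β, hβ, e⟩ := h (fun a b => c (θ.symm a) (θ.symm b))
    (fun a _ b _ => hc _ trivial _ trivial) fun a _ b _ d _ => by
      have h1 := hcc (θ.symm a) trivial (θ.symm b) trivial (θ.symm d) trivial
      simpa only [MulEquiv.apply_symm_apply, map_mul] using h1
  refine ⟨fun a => β (θ a), fun a _ => hβ _ trivial, fun a _ b _ => ?_⟩
  simpa only [MulEquiv.symm_apply_apply, map_mul] using e (θ a) trivial (θ b) trivial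

theorem V1.map {G' : Type} [Group G'] (ι : G' →* G) {S' : Subgroup G'}
    (h : V1 S' (fun g => ρ (ι g)) T) : V1 (S'.map ι) ρ T := by
  intro c hc hcc
  obtain ⟨v, hv, e⟩ := h (fun a => c (ι a)) (fun a ha => hc _ ⟨a, ha, rfl⟩)
    fun a ha b hb => by rw [map_mul, hcc _ ⟨a, ha, rfl⟩ _ ⟨b, hb, rfl⟩]
  refine ⟨v, hv, ?_⟩
  rintro _ ⟨a, ha, rfl⟩
  exact e a ha

/-- action through a sign character -/
theorem sgn1 (χ : G → ℚ) (hχ : ∀ a ∈ S, χ a = 1 ∨ χ a = -1)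
    (hm : ∀ a ∈ S, ∀ b ∈ S, χ (a * b) = χ a * χ b) (hρ : ∀ a ∈ S, ∀ v ∈ T, ρ a v = χ a • v)
    {r : G} (hr : r ∈ S) (hr' : χ r = -1)
    (hadd : ∀ c : G → E, (∀ a ∈ S, ∀ b ∈ S, χ a = 1 → χ b = 1 → c (a * b) = c a + c b) →
      ∀ a ∈ S, χ a = 1 → c a = 0) : V1 S ρ T := by
  intro c hc hcc
  have hz := hadd c fun a ha b hb ea _ => by
    rw [hcc a ha b hb, hρ a ha _ (hc b hb), ea, one_smul]
  have hv : (-(1 / 2 : ℚ)) • c r ∈ T := Submodule.smul_mem _ _ (hc r hr)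
  refine ⟨_, hv, fun a ha => ?_⟩
  rw [hρ a ha _ hv]
  rcases hχ a ha with e | e
  · rw [hz a ha e, e, one_smul, sub_self]
  · have h1 : a * r⁻¹ ∈ S := mul_mem ha (inv_mem hr)
    have h2 := hm _ h1 r hr
    rw [inv_mul_cancel_right, e, hr'] at h2
    have h3 : χ (a * r⁻¹) = 1 := by linarith
    have h4 := hcc _ h1 r hr
    rw [inv_mul_cancel_right, hz _ h1 h3, zero_add, hρ _ h1 _ (hc r hr), h3, one_smul] at h4
    rw [h4, e]
    module

/-- first cohomology of functions on a set with finite stabilisers -/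
theorem shapiro1 {X : Type} (act : G → X → X) (h1 : ∀ x, act 1 x = x)
    (hm : ∀ a b x, act (a * b) x = act a (act b x)) (Vx : Set X)
    (hV : ∀ a, ∀ x ∈ Vx, act a x ∈ Vx) (hfin : ∀ x ∈ Vx, {a | act a x = x}.Finite)
    (hA : Act ⊤ ρ) (hT : Stb ⊤ ρ T) (b : G → X → E) (hb : ∀ a, ∀ x ∈ Vx, b a x ∈ T)
    (hc : ∀ a a', ∀ x ∈ Vx, b (a * a') x = b a x + ρ a (b a' (act a⁻¹ x))) :
    ∃ β : X → E, (∀ x ∈ Vx, β x ∈ T) ∧
      ∀ a, ∀ x ∈ Vx, b a x = ρ a (β (act a⁻¹ x)) - β x := by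
  have hi : ∀ a x, act a⁻¹ (act a x) = x := fun a x => by rw [← hm, inv_mul_cancel, h1]
  have hi' : ∀ a x, act a (act a⁻¹ x) = x := fun a x => by rw [← hm, mul_inv_cancel, h1]
  let s : Setoid X := ⟨fun x y => ∃ g, act g x = y, fun x => ⟨1, h1 x⟩,
    fun ⟨g, e⟩ => ⟨g⁻¹, e ▸ hi g _⟩, fun ⟨g, e⟩ ⟨g', e'⟩ => ⟨g' * g, by rw [hm, e, e']⟩⟩
  obtain ⟨o, ho, ho'⟩ : ∃ o : X → X, (∀ x, ∃ g, act g (o x) = x) ∧ ∀ a x, o (act a x) = o x :=
    ⟨fun x => (Quotient.mk s x).out, fun x => Quotient.mk_out (s := s) x,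
      fun a x => congrArg Quotient.out (Quotient.sound (s := s) ⟨a⁻¹, hi a x⟩)⟩
  choose γ hγ using ho
  have hoV : ∀ x ∈ Vx, o x ∈ Vx := fun x hx => by
    rw [← hi (γ x) (o x), hγ]
    exact hV _ x hx
  have h2 : ∀ y, ∃ v, y ∈ Vx → v ∈ T ∧ ∀ a, act a y = y → b a y = ρ a v - v := fun y => by
    by_cases hy : y ∈ Vx
    · let St : Subgroup G :=
        { carrier := {a | act a y = y}
          mul_mem' := fun {a a'} ha ha' => by
            change act (a * a') y = y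
            rw [hm, show act a' y = y from ha', show act a y = y from ha]
          one_mem' := h1 y
          inv_mem' := fun {a} ha => by
            change act a⁻¹ y = y
            conv_lhs => rw [← show act a y = y from ha]
            exact hi a y }
      obtain ⟨v, hv, e⟩ := fin1 (S := St) (T := T) (hfin y hy) (hA.mono le_top) (fun a => b a y)
        (fun a _ => hb a y hy) fun a ha a' _ => by
          rw [hc a a' y hy, show act a⁻¹ y = y from St.inv_mem ha]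
      exact ⟨v, fun _ => ⟨hv, e⟩⟩
    · exact ⟨0, fun h => absurd h hy⟩
  choose v hv using h2
  have key : ∀ y ∈ Vx, ∀ g g', act g y = act g' y →
      ρ g (v y) - b g (act g y) = ρ g' (v y) - b g' (act g y) := fun y hy g g' e => by
    have h3 : act (g⁻¹ * g') y = y := by rw [hm, ← e, hi]
    have h4 := hc g (g⁻¹ * g') _ (hV g y hy)
    rw [mul_inv_cancel_left, hi, (hv y hy).2 _ h3, map_sub, ← hA.2 g trivial _ trivial,
      mul_inv_cancel_left] at h4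
    rw [h4]
    abel
  refine ⟨fun x => ρ (γ x) (v (o x)) - b (γ x) x, fun x hx =>
    sub_mem (hT _ trivial _ (hv _ (hoV x hx)).1) (hb _ x hx), fun a x hx => ?_⟩
  have h5 := hγ (act a⁻¹ x)
  rw [ho'] at h5
  have h6 := key (o x) (hoV x hx) (γ x) (a * γ (act a⁻¹ x)) (by rw [hγ, hm, h5, hi'])
  rw [hγ] at h6
  dsimp only
  rw [ho', h6, hc a _ x hx, hA.2 a trivial _ trivial, map_sub]
  abel

end Pool.Agent.MP_cbe134_nt.V

end

section

/- General lemmas on the vanishing of second cohomology. -/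

namespace Pool.Agent.MP_cbe134_nt.V

variable {G : Type} [Group G] {E : Type} [AddCommGroup E] [Module ℚ E]
  {S P N K : Subgroup G} {ρ : G → E →ₗ[ℚ] E} {T : Submodule ℚ E}

/-- the cocycle identity -/
def c2_Co (S : Subgroup G) (ρ : G → E →ₗ[ℚ] E) (c : G → G → E) : Prop :=
  ∀ a ∈ S, ∀ b ∈ S, ∀ e ∈ S, ρ a (c b e) + c a (b * e) = c (a * b) e + c a b

theorem c2_cob (hA : Act S ρ) {c : G → G → E} (hc : c2_Co S ρ c) (β : G → E) :
    c2_Co S ρ fun a b => c a b + (ρ a (β b) - β (a * b) + β a) := fun a ha b hb e he => by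
  have h := hc a ha b hb e he
  simp only [map_add, map_sub, hA.2 a ha b hb, mul_assoc]
  linear_combination (norm := abel) h

theorem c2_norm (hP : P ≤ S) (hA : Act S ρ) (hT : Stb S ρ T) (h2 : V2 P ρ T)
    (H : ∀ c : G → G → E, (∀ a ∈ S, ∀ b ∈ S, c a b ∈ T) → c2_Co S ρ c →
      (∀ a ∈ P, ∀ b ∈ P, c a b = 0) → ∃ f : G → E, (∀ a ∈ S, f a ∈ T) ∧
        ∀ a ∈ S, ∀ b ∈ S, f a + ρ a (f b) + c a b = f (a * b)) : V2 S ρ T := by
  classical
  intro c hc hc'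
  obtain ⟨β, h3, h4⟩ := h2 c (fun a ha b hb => hc a (hP ha) b (hP hb))
    fun a ha b hb e he => hc' a (hP ha) b (hP hb) e (hP he)
  have h5 : ∀ a, (if a ∈ P then -β a else 0) ∈ T := fun a => by
    split_ifs with h
    · exact neg_mem (h3 a h)
    · exact zero_mem _
  obtain ⟨f, h6, h7⟩ := H _
    (fun a ha b hb => add_mem (hc a ha b hb) (add_mem (sub_mem (hT a ha _ (h5 b)) (h5 _)) (h5 a)))
    (c2_cob hA hc' fun a => if a ∈ P then -β a else 0) fun a ha b hb => by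
      rw [if_pos ha, if_pos hb, if_pos (mul_mem ha hb), h4 a ha b hb, map_neg]
      abel
  refine ⟨fun a => -(f a + if a ∈ P then -β a else 0), fun a ha => neg_mem (add_mem (h6 a ha) (h5 a)),
    fun a ha b hb => ?_⟩
  have h8 := h7 a ha b hb
  simp only [map_neg, map_add]
  linear_combination (norm := abel) h8

theorem c2_ex (hP : P ≤ S) (hT : Stb S ρ T) (h1 : ∀ g ∈ S, V1 (P ⊓ cnj P g) ρ T)
    {c : G → G → E} (hc : ∀ a ∈ S, ∀ b ∈ S, c a b ∈ T) (hc' : c2_Co S ρ c)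
    (h0 : ∀ a ∈ P, ∀ b ∈ P, c a b = 0) : ∃ e : G → E, ∀ g ∈ S, e g ∈ T ∧
      ∀ p ∈ P, ∀ p' ∈ P, p * g = g * p' → ρ p (e g) = e g + (c g p' - c p g) := by
  have _ := hT
  have key : ∀ g, ∃ v, g ∈ S → v ∈ T ∧
      ∀ p ∈ P, ∀ p' ∈ P, p * g = g * p' → ρ p v = v + (c g p' - c p g) := by
    intro g
    by_cases hg : g ∈ S
    swap
    · exact ⟨0, fun h => absurd h hg⟩
    obtain ⟨v, hv, hv'⟩ := h1 g hg (fun p => c g (g⁻¹ * p * g) - c p g)
      (fun p hp => sub_mem (hc g hg _ (hP hp.2)) (hc p (hP hp.1) g hg)) fun p hp q hq => by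
        have e1 := hc' p (hP hp.1) q (hP hq.1) g hg
        have e2 := hc' g hg _ (hP hp.2) _ (hP hq.2)
        have e3 := hc' p (hP hp.1) g hg _ (hP hq.2)
        rw [h0 p hp.1 q hq.1] at e1
        rw [h0 _ hp.2 _ hq.2, map_zero, show g * (g⁻¹ * p * g) = p * g by group,
          show g⁻¹ * p * g * (g⁻¹ * q * g) = g⁻¹ * (p * q) * g by group] at e2
        rw [show g * (g⁻¹ * q * g) = q * g by group] at e3
        rw [map_sub]
        linear_combination (norm := abel) e1 + e2 - e3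
    refine ⟨v, fun _ => ⟨hv, fun p hp p' hp' e => ?_⟩⟩
    have e1 : g⁻¹ * p * g = p' := by rw [mul_assoc, e, inv_mul_cancel_left]
    have e2 := hv' p ⟨hp, show g⁻¹ * p * g ∈ P from e1 ▸ hp'⟩
    rw [e1] at e2
    rw [e2]
    abel
  choose e he using key
  exact ⟨e, he⟩

theorem c2_fix (hP : P ≤ S) (hA : Act S ρ) {c : G → G → E} (hc' : c2_Co S ρ c) {e : G → E}
    (he : ∀ g ∈ S, e g ∈ T ∧
      ∀ p ∈ P, ∀ p' ∈ P, p * g = g * p' → ρ p (e g) = e g + (c g p' - c p g))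
    {g h p : G} (hg : g ∈ S) (hh : h ∈ S) (hp : p ∈ P) (hp' : g⁻¹ * p * g ∈ P)
    (hp'' : (g * h)⁻¹ * p * (g * h) ∈ P) :
    ρ p (c g h + (ρ g (e h) - e (g * h) + e g)) = c g h + (ρ g (e h) - e (g * h) + e g) := by
  have a1 : p * g = g * (g⁻¹ * p * g) := by group
  have a2 : g⁻¹ * p * g * h = h * ((g * h)⁻¹ * p * (g * h)) := by group
  have a3 : p * (g * h) = g * h * ((g * h)⁻¹ * p * (g * h)) := by group
  generalize (g * h)⁻¹ * p * (g * h) = p'' at *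
  generalize g⁻¹ * p * g = p' at *
  have e1 := hc' p (hP hp) g hg h hh
  have e2 := hc' g hg p' (hP hp') h hh
  have e3 := hc' g hg h hh p'' (hP hp'')
  rw [← a1] at e2
  rw [← a2] at e3
  rw [map_add, map_add, map_sub, ← hA.2 p (hP hp) g hg, a1, hA.2 g hg p' (hP hp'),
    (he g hg).2 p hp p' hp' a1, (he h hh).2 p' hp' p'' hp'' a2,
    (he _ (mul_mem hg hh)).2 p hp p'' hp'' a3, map_add, map_sub]
  linear_combination (norm := abel) e1 - e2 + e3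

theorem c2_seq (w : ℤ → E) (hw : ∀ i, w i ∈ T) :
    ∃ u : ℤ → E, u 0 = 0 ∧ (∀ i, u i ∈ T) ∧ ∀ i, u (i + 1) = u i + w i := by
  refine ⟨fun i => ∑ k ∈ Finset.range i.toNat, w k - ∑ k ∈ Finset.range (-i).toNat, w (-(k + 1)),
    by simp, fun i => sub_mem (sum_mem fun _ _ => hw _) (sum_mem fun _ _ => hw _), fun i => ?_⟩
  obtain ⟨n, rfl⟩ | ⟨n, rfl⟩ : (∃ n : ℕ, i = n) ∨ ∃ n : ℕ, i = -(n + 1) := by
    rcases i with n | n
    · exact Or.inl ⟨n, rfl⟩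
    · exact Or.inr ⟨n, rfl⟩
  · simp only [show ((n : ℤ) + 1).toNat = n + 1 by omega, show (-((n : ℤ) + 1)).toNat = 0 by omega,
      show (-(n : ℤ)).toNat = 0 by omega, Int.toNat_natCast, Finset.sum_range_succ,
      Finset.sum_range_zero, sub_zero]
  · simp only [show (-((n : ℤ) + 1) + 1).toNat = 0 by omega,
      show (-(-((n : ℤ) + 1) + 1)).toNat = n by omega, show (-((n : ℤ) + 1)).toNat = 0 by omega,
      show (-(-((n : ℤ) + 1))).toNat = n + 1 by omega, Finset.sum_range_succ,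
      Finset.sum_range_zero]
    abel

theorem c2_fin (hS : (S : Set G).Finite) : V2 S ρ T := by
  intro c hc hc'
  have hm : ∀ a, a ∈ hS.toFinset ↔ a ∈ S := fun a => hS.mem_toFinset
  have h0 : (hS.toFinset.card : ℚ) ≠ 0 := by
    exact_mod_cast Finset.card_ne_zero.2 ⟨1, (hm 1).2 (one_mem S)⟩
  refine ⟨fun a => (hS.toFinset.card : ℚ)⁻¹ • ∑ e ∈ hS.toFinset, c a e,
    fun a ha => Submodule.smul_mem _ _ (sum_mem fun e he => hc a ha e ((hm e).1 he)),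
    fun a ha b hb => ?_⟩
  have h1 : ∑ e ∈ hS.toFinset, c a (b * e) = ∑ e ∈ hS.toFinset, c a e :=
    Finset.sum_equiv (Equiv.mulLeft b) (fun e => by
      rw [hm, hm, Equiv.coe_mulLeft, S.mul_mem_cancel_left hb]) fun _ _ => rfl
  have h2 := Finset.sum_congr rfl fun e (he : e ∈ hS.toFinset) => hc' a ha b hb e ((hm e).1 he)
  rw [Finset.sum_add_distrib, Finset.sum_add_distrib, h1, Finset.sum_const, ← map_sum,
    ← Nat.cast_smul_eq_nsmul ℚ] at h2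
  rw [map_smul, ← smul_sub, ← smul_add, eq_inv_smul_iff₀ h0]
  linear_combination (norm := abel) -h2

theorem amal2 (hP : P ≤ S) (hA : Act S ρ) (hT : Stb S ρ T) (h2 : V2 P ρ T)
    (h1 : ∀ g ∈ S, V1 (P ⊓ cnj P g) ρ T)
    (h0 : ∀ g ∈ S, ∀ h ∈ S, V0 (P ⊓ cnj P g ⊓ cnj P h) ρ T) : V2 S ρ T := by
  refine c2_norm hP hA hT h2 fun c hc hc' hc0 => ?_
  obtain ⟨e, he⟩ := c2_ex hP hT h1 hc hc' hc0
  refine ⟨e, fun a ha => (he a ha).1, fun g hg h hh => ?_⟩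
  have := h0 g hg _ (mul_mem hg hh) _ (add_mem (hc g hg h hh) (add_mem (sub_mem
    (hT g hg _ (he h hh).1) (he _ (mul_mem hg hh)).1) (he g hg).1))
    fun p hp => c2_fix hP hA hc' he hg hh hp.1.1 hp.1.2 hp.2
  linear_combination (norm := abel) this

theorem ext2 (hN : N ≤ S) (hK : K ≤ S) (hA : Act S ρ) (hT : Stb S ρ T)
    (hn : ∀ g ∈ S, ∀ a ∈ N, g⁻¹ * a * g ∈ N) (κ : G → G)
    (hκ : ∀ g ∈ S, κ g ∈ K ∧ g * (κ g)⁻¹ ∈ N) (hκm : ∀ a ∈ S, ∀ b ∈ S, κ (a * b) = κ a * κ b)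
    (h1 : V1 N ρ T) (h2 : V2 N ρ T) (hK2 : V2 K ρ (Fx N ρ T)) : V2 S ρ T := by
  refine c2_norm hN hA hT h2 fun c hc hc' hc0 => ?_
  obtain ⟨e₀, he₀⟩ := c2_ex hN hT (fun g hg => by
    rwa [inf_eq_left.2 (show N ≤ cnj N g from fun a ha => hn g hg a ha)]) hc hc' hc0
  obtain ⟨γ, h3, h4⟩ := hK2 (fun g h => c g h + (ρ g (e₀ h) - e₀ (g * h) + e₀ g))
    (fun g hg h hh => ⟨add_mem (hc g (hK hg) h (hK hh)) (add_mem (sub_mem
      (hT g (hK hg) _ (he₀ h (hK hh)).1) (he₀ _ (hK (mul_mem hg hh))).1) (he₀ g (hK hg)).1),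
      fun p hp => c2_fix hN hA hc' he₀ (hK hg) (hK hh) hp (hn g (hK hg) p hp)
        (hn _ (hK (mul_mem hg hh)) p hp)⟩)
    fun a ha b hb e he => c2_cob hA hc' e₀ a (hK ha) b (hK hb) e (hK he)
  refine ⟨fun g => ρ (g * (κ g)⁻¹) (e₀ (κ g) - γ (κ g)) + c (g * (κ g)⁻¹) (κ g),
    fun g hg => add_mem (hT _ (hN (hκ g hg).2) _ (sub_mem (he₀ _ (hK (hκ g hg).1)).1
      (h3 _ (hκ g hg).1).1)) (hc _ (hN (hκ g hg).2) _ (hK (hκ g hg).1)), fun g hg h hh => ?_⟩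
  obtain ⟨hk, hn1⟩ := hκ g hg
  obtain ⟨hk', hn2⟩ := hκ h hh
  simp only [hκm g hg h hh]
  generalize κ g = k at *
  generalize κ h = k' at *
  obtain ⟨n, rfl⟩ : ∃ n, g = n * k := ⟨g * k⁻¹, by group⟩
  obtain ⟨n', rfl⟩ : ∃ n, h = n * k' := ⟨h * k'⁻¹, by group⟩
  rw [mul_inv_cancel_right] at hn1 hn2
  have hm : k * n' * k⁻¹ ∈ N := by simpa using hn k⁻¹ (inv_mem (hK hk)) n' hn2
  have a1 : k * n' * k⁻¹ * k = k * n' := by group
  rw [mul_inv_cancel_right, mul_inv_cancel_right,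
    show n * k * (n' * k') * (k * k')⁻¹ = n * (k * n' * k⁻¹) by group]
  generalize k * n' * k⁻¹ = m at *
  have e1 := hc' _ hg n' (hN hn2) k' (hK hk')
  have e2 := hc' _ (hN (mul_mem hn1 hm)) k (hK hk) k' (hK hk')
  have e3 := hc' n (hN hn1) k (hK hk) n' (hN hn2)
  have e4 := hc' n (hN hn1) m (hN hm) k (hK hk)
  have e5 := congrArg (ρ (n * m)) (h4 k hk k' hk')
  have e6 := congrArg (ρ n) ((he₀ k (hK hk)).2 m hm n' hn2 a1)
  have e7 : ∀ v, ρ (n * k) (ρ n' v) = ρ (n * m) (ρ k v) := fun v => by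
    rw [← hA.2 _ hg _ (hN hn2), ← hA.2 _ (hN (mul_mem hn1 hm)) _ (hK hk), mul_assoc, mul_assoc, a1]
  have e8 : ρ (n * m) (γ k) = ρ n (γ k) := by
    rw [hA.2 _ (hN hn1) _ (hN hm), (h3 k hk).2 m hm]
  rw [hc0 n hn1 m hm, a1] at e4
  rw [mul_assoc n m k, a1, ← mul_assoc n k n'] at e2
  rw [← hA.2 _ (hN hn1) _ (hN hm)] at e6
  simp only [map_add, map_sub, e7] at e5 e6 ⊢
  linear_combination (norm := abel) e1 - e2 - e3 + e4 + e5 - e6 + e8

theorem cyc2 (τ : G) (hτ : ¬ IsOfFinOrder τ) (hA : Act (Subgroup.zpowers τ) ρ)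
    (hT : Stb (Subgroup.zpowers τ) ρ T) : V2 (Subgroup.zpowers τ) ρ T := by
  refine c2_norm (P := ⊥) bot_le hA hT (c2_fin (by simp)) fun c hc hc' hc0 => ?_
  have hz : ∀ i : ℤ, τ ^ i ∈ Subgroup.zpowers τ := fun i => ⟨i, rfl⟩
  have h1 : τ ∈ Subgroup.zpowers τ := Subgroup.mem_zpowers τ
  obtain ⟨u, u0, hu, hu'⟩ := c2_seq (fun i => c (τ ^ i) τ) fun i => hc _ (hz i) _ h1
  have hl := Function.leftInverse_invFun (injective_zpow_iff_not_isOfFinOrder.2 hτ)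
  refine ⟨fun g => u (Function.invFun (fun i : ℤ => τ ^ i) g), fun _ _ => hu _, ?_⟩
  rintro _ ⟨i, rfl⟩ _ ⟨j, rfl⟩
  simp only [← zpow_add, hl i, hl j, hl (i + j)]
  have step : ∀ j, u i + ρ (τ ^ i) (u (j + 1)) + c (τ ^ i) (τ ^ (j + 1)) - u (i + (j + 1)) =
      u i + ρ (τ ^ i) (u j) + c (τ ^ i) (τ ^ j) - u (i + j) := fun j => by
    have := hc' _ (hz i) _ (hz j) _ h1
    rw [← zpow_add] at this
    rw [← add_assoc, hu', hu', map_add, zpow_add_one]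
    linear_combination (norm := abel) this
  rw [← sub_eq_zero]
  induction j using Int.induction_on with
  | zero =>
    have := hc' _ (hz i) 1 (one_mem _) 1 (one_mem _)
    rw [hc0 1 (one_mem _) 1 (one_mem _), map_zero, mul_one, mul_one, zero_add,
      left_eq_add] at this
    simp [u0, this]
  | succ j ih => rw [step, ih]
  | pred j ih => rw [← step, sub_add_cancel, ih]

theorem fin2 (hS : (S : Set G).Finite) (hA : Act S ρ) : V2 S ρ T := by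
  have _ := hA
  exact c2_fin hS

end Pool.Agent.MP_cbe134_nt.V

end

section

/- An equivariant cocycle on an acyclic complex has an equivariant primitive. -/

namespace Pool.Agent.MP_cbe134_nt.V

/-- factorisation of a linear map through another one -/
theorem c9_factor {U V E : Type} [AddCommGroup U] [Module ℚ U] [AddCommGroup V] [Module ℚ V]
    [AddCommGroup E] [Module ℚ E] (W : Submodule ℚ U) (f : U →ₗ[ℚ] V) (h : U →ₗ[ℚ] E)
    (T : Submodule ℚ E) (hT : ∀ x ∈ W, h x ∈ T) (hk : ∀ x ∈ W, f x = 0 → h x = 0) :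
    ∃ k : V →ₗ[ℚ] E, (∀ v, k v ∈ T) ∧ ∀ x ∈ W, k (f x) = h x := by
  let f' : W →ₗ[ℚ] V := f.domRestrict W
  let h' : W →ₗ[ℚ] T := (h.domRestrict W).codRestrict T fun x => hT x.1 x.2
  have hle : LinearMap.ker f' ≤ LinearMap.ker h' := fun x hx =>
    Subtype.ext (hk x.1 x.2 hx)
  obtain ⟨g, hg⟩ := LinearMap.exists_extend
    (((LinearMap.ker f').liftQ h' hle).comp f'.quotKerEquivRange.symm.toLinearMap)
  refine ⟨T.subtype.comp g, fun v => (g v).2, fun x hx => ?_⟩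
  have h1 := LinearMap.congr_fun hg (f'.quotKerEquivRange (Submodule.Quotient.mk ⟨x, hx⟩))
  simp only [LinearMap.comp_apply, LinearEquiv.coe_coe, LinearEquiv.symm_apply_apply,
    Submodule.liftQ_apply] at h1
  exact congrArg Subtype.val h1

theorem c9_ext {X E : Type} [AddCommGroup E] [Module ℚ E] {Vx : Set X}
    {L L' : (X →₀ ℚ) →ₗ[ℚ] E}
    (h : ∀ q ∈ Vx, L (Finsupp.single q 1) = L' (Finsupp.single q 1)) {f : X →₀ ℚ}
    (hf : f ∈ Finsupp.supported ℚ ℚ Vx) : L f = L' f := by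
  rw [Finsupp.supported_eq_span_single] at hf
  refine LinearMap.eqOn_span ?_ hf
  rintro _ ⟨q, hq, rfl⟩
  exact h q hq

theorem c9_mem {X E : Type} [AddCommGroup E] [Module ℚ E] {Vx : Set X}
    {L : (X →₀ ℚ) →ₗ[ℚ] E} {T : Submodule ℚ E}
    (h : ∀ q ∈ Vx, L (Finsupp.single q 1) ∈ T) {f : X →₀ ℚ}
    (hf : f ∈ Finsupp.supported ℚ ℚ Vx) : L f ∈ T := by
  rw [Finsupp.supported_eq_span_single] at hf
  refine (Submodule.span_le (p := T.comap L)).2 ?_ hf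
  rintro _ ⟨q, hq, rfl⟩
  exact h q hq

/-- a cochain whose coboundary is constant is a coboundary up to constants -/
theorem c9_const {G X E : Type} [Group G] [AddCommGroup E] [Module ℚ E] (act : G → X → X)
    (h1 : ∀ x, act 1 x = x) (hm : ∀ a b x, act (a * b) x = act a (act b x)) (Vx : Set X)
    (hV : ∀ a, ∀ x ∈ Vx, act a x ∈ Vx) (hfin : ∀ x ∈ Vx, {a | act a x = x}.Finite)
    (ρ : G → E →ₗ[ℚ] E) (hA : Act ⊤ ρ) (T : Submodule ℚ E) (hT : Stb ⊤ ρ T) (h2 : V2 ⊤ ρ T)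
    (b : G → X → E) (hb : ∀ a x, b a x ∈ T)
    (hc : ∀ g h, ∀ q ∈ Vx, ∀ q' ∈ Vx, ρ g (b h (act g⁻¹ q)) - b (g * h) q + b g q =
      ρ g (b h (act g⁻¹ q')) - b (g * h) q' + b g q') :
    ∃ (β : G → E) (γ : X → E), (∀ x ∈ Vx, γ x ∈ T) ∧
      ∀ a, ∀ x ∈ Vx, b a x = ρ a (γ (act a⁻¹ x)) - γ x + β a := by
  rcases Vx.eq_empty_or_nonempty with h0 | ⟨q0, h0⟩
  · subst h0
    exact ⟨0, 0, fun _ h => h.elim, fun _ _ h => h.elim⟩
  obtain ⟨β, hβ, e⟩ := h2 (fun g h => ρ g (b h (act g⁻¹ q0)) - b (g * h) q0 + b g q0)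
    (fun g _ h _ => add_mem (sub_mem (hT g trivial _ (hb _ _)) (hb _ _)) (hb _ _))
    (fun g _ h _ k _ => by
      rw [hc h k q0 h0 (act g⁻¹ q0) (hV _ _ h0), map_add, map_sub, ← hA.2 g trivial h trivial,
        ← hm, ← mul_inv_rev, mul_assoc]
      abel)
  obtain ⟨γ, hγ, e'⟩ := shapiro1 act h1 hm Vx hV hfin hA hT (fun g q => b g q - β g)
    (fun g q _ => sub_mem (hb _ _) (hβ g trivial)) (fun g h q hq => by
      have e1 := e g trivial h trivial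
      rw [hc g h q0 h0 q hq] at e1
      rw [map_sub]
      linear_combination (norm := abel) -e1)
  exact ⟨β, γ, hγ, fun a x hx => by rw [← e' a x hx, sub_add_cancel]⟩

theorem zigzag {G C X E : Type} [Group G] [AddCommGroup C] [Module ℚ C] [AddCommGroup E]
    [Module ℚ E] (α : G → C →ₗ[ℚ] C) (hα : Act ⊤ α) (W1 W2 W3 : Submodule ℚ C)
    (hW1 : Stb ⊤ α W1) (hW2 : Stb ⊤ α W2) (δ : C →ₗ[ℚ] C) (hδ : ∀ x ∈ W2, δ x ∈ W1)
    (hδα : ∀ a, ∀ x ∈ W2, δ (α a x) = α a (δ x)) (act : G → X → X) (h1 : ∀ x, act 1 x = x)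
    (hm : ∀ a b x, act (a * b) x = act a (act b x)) (Vx : Set X)
    (hV : ∀ a, ∀ x ∈ Vx, act a x ∈ Vx) (hfin : ∀ x ∈ Vx, {a | act a x = x}.Finite)
    (χ : G → ℚ) (hχ : ∀ a, χ a * χ a = 1) (hχm : ∀ a b, χ (a * b) = χ a * χ b)
    (dd : C →ₗ[ℚ] (X →₀ ℚ)) (hds : ∀ x ∈ W1, dd x ∈ Finsupp.supported ℚ ℚ Vx)
    (hdα : ∀ a, ∀ x ∈ W1, dd (α a x) = χ a • Finsupp.mapDomain (act a) (dd x))
    (haug : ∀ x ∈ W1, ((dd x).sum fun _ c => c) = 0)
    (hdδ : ∀ x ∈ W2, dd (δ x) = 0) (ex2 : ∀ x ∈ W2, δ x = 0 → ∃ y ∈ W3, δ y = x)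
    (ex1 : ∀ x ∈ W1, dd x = 0 → ∃ y ∈ W2, δ y = x)
    (ex0 : ∀ q ∈ Vx, ∀ q' ∈ Vx, ∃ x ∈ W1, dd x = Finsupp.single q 1 - Finsupp.single q' 1)
    (ρ : G → E →ₗ[ℚ] E) (hA : Act ⊤ ρ) (T : Submodule ℚ E) (hT : Stb ⊤ ρ T)
    (h2 : V2 ⊤ (fun a => χ a • ρ a) T) (Φ : C →ₗ[ℚ] E) (hΦT : ∀ x ∈ W2, Φ x ∈ T)
    (hΦα : ∀ a, ∀ x ∈ W2, Φ (α a x) = ρ a (Φ x)) (hΦδ : ∀ y ∈ W3, Φ (δ y) = 0) :
    ∃ Ψ : C →ₗ[ℚ] E, (∀ x ∈ W1, Ψ x ∈ T) ∧ (∀ a, ∀ x ∈ W1, Ψ (α a x) = ρ a (Ψ x)) ∧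
      ∀ x ∈ W2, Ψ (δ x) = Φ x := by
  have hχ1 : χ 1 = 1 := by
    have := hχm 1 1
    rw [mul_one, hχ] at this
    exact this
  have hχi : ∀ a, χ a⁻¹ = χ a := fun a => by
    have e := hχm a a⁻¹
    rw [mul_inv_cancel, hχ1] at e
    linear_combination χ a * e.symm - χ a⁻¹ * hχ a
  have hαi : ∀ a x, α a⁻¹ (α a x) = x := fun a x => by
    rw [← hα.2 _ trivial _ trivial, inv_mul_cancel, hα.1]
  have hρi : ∀ a x, ρ a (ρ a⁻¹ x) = x := fun a x => by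
    rw [← hA.2 _ trivial _ trivial, mul_inv_cancel, hA.1]
  obtain ⟨A, hAT, hAδ⟩ := c9_factor W2 δ Φ T hΦT fun x hx h0 => by
    obtain ⟨y, hy, rfl⟩ := ex2 x hx h0
    exact hΦδ y hy
  have hB : ∀ g, ∃ B : (X →₀ ℚ) →ₗ[ℚ] E, (∀ v, B v ∈ T) ∧
      ∀ x ∈ W1, B (dd x) = ρ g (A (α g⁻¹ x)) - A x := fun g =>
    c9_factor W1 dd (ρ g ∘ₗ A ∘ₗ α g⁻¹ - A) T
      (fun x _ => sub_mem (hT g trivial _ (hAT _)) (hAT _)) fun x hx h0 => by
        obtain ⟨y, hy, rfl⟩ := ex1 x hx h0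
        change ρ g (A (α g⁻¹ (δ y))) - A (δ y) = 0
        rw [← hδα _ _ hy, hAδ _ (hW2 _ trivial _ hy), hΦα _ _ hy, hρi, hAδ _ hy, sub_self]
  choose B hBT hB using hB
  have hL : ∀ (g : G) (L : (X →₀ ℚ) →ₗ[ℚ] E), ∀ x ∈ W1,
      χ g • ρ g (L (Finsupp.mapDomain (act g⁻¹) (dd x))) = ρ g (L (dd (α g⁻¹ x))) := by
    intro g L x hx
    rw [hdα _ _ hx, hχi, map_smul, map_smul]
  obtain ⟨β, γ, hγ, e⟩ := c9_const act h1 hm Vx hV hfin (fun a => χ a • ρ a)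
    ⟨fun v => by rw [LinearMap.smul_apply, hχ1, one_smul, hA.1], fun a _ b _ v => by
      simp only [LinearMap.smul_apply, map_smul, smul_smul, hχm, hA.2 a trivial b trivial,
        mul_comm (χ a)]⟩
    T (fun a _ v hv => T.smul_mem _ (hT a trivial v hv)) h2
    (fun g q => B g (Finsupp.single q 1)) (fun g q => hBT _ _) (fun g h q hq q' hq' => by
      obtain ⟨x, hx, e⟩ := ex0 q hq q' hq'
      have e1 := hL g (B h) x hx
      have e2 := hB (g * h) x hx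
      have e3 := hB g x hx
      rw [hB h _ (hW1 _ trivial _ hx), map_sub, ← hA.2 g trivial h trivial,
        ← hα.2 _ trivial _ trivial, ← mul_inv_rev, e, Finsupp.mapDomain_sub,
        Finsupp.mapDomain_single, Finsupp.mapDomain_single, map_sub, map_sub, smul_sub] at e1
      rw [e, map_sub] at e2 e3
      simp only [LinearMap.smul_apply]
      linear_combination (norm := abel) e1 - e2 + e3)
  have key : ∀ g, ∀ x ∈ W1, B g (dd x) = ρ g (Finsupp.linearCombination ℚ γ (dd (α g⁻¹ x))) -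
      Finsupp.linearCombination ℚ γ (dd x) := by
    intro g x hx
    have e1 := c9_ext (L := B g) (L' := χ g • ρ g ∘ₗ Finsupp.linearCombination ℚ γ ∘ₗ
      Finsupp.lmapDomain ℚ ℚ (act g⁻¹) - Finsupp.linearCombination ℚ γ +
        Finsupp.linearCombination ℚ fun _ => β g) (fun q hq => by
          have := e g q hq
          simpa using this) (hds x hx)
    have e2 : Finsupp.linearCombination ℚ (fun _ => β g) (dd x) = 0 := by
      rw [Finsupp.linearCombination_apply, Finsupp.sum, ← Finset.sum_smul]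
      have := haug x hx
      rw [Finsupp.sum] at this
      rw [this, zero_smul]
    rw [e1, ← hL g _ x hx, LinearMap.add_apply, e2, add_zero]
    rfl
  refine ⟨A - Finsupp.linearCombination ℚ γ ∘ₗ dd, fun x hx => sub_mem (hAT _)
    (c9_mem (L := Finsupp.linearCombination ℚ γ) (T := T) (fun q hq => by simpa using hγ q hq)
      (hds x hx)), fun a x hx => ?_, fun x hx => ?_⟩
  · have e1 := key a _ (hW1 a trivial x hx)
    rw [hB a _ (hW1 a trivial x hx), hαi] at e1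
    simp only [LinearMap.sub_apply, LinearMap.comp_apply, map_sub]
    linear_combination (norm := abel) -e1
  · simp only [LinearMap.sub_apply, LinearMap.comp_apply]
    rw [hdδ x hx, map_zero, sub_zero, hAδ x hx]

end Pool.Agent.MP_cbe134_nt.V

end
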