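import Pool.Agent.Mg.Fcbe134.G45db98
import Pool.Agent.Mg.Fcbe134.Gfd7478

section

/- Cohomology of translation groups acting on polynomials; top-degree parts. -/

open MvPolynomial Matrix

namespace Pool.Agent.MP_cbe134_nt.V

variable {n d : ℕ}

theorem c4_eval (φ : Fin n → Pn n) (x : Fin n → ℚ) (f : Pn n) :
    eval x (aeval φ f) = eval (fun j => eval x (φ j)) f := by
  induction f using MvPolynomial.induction_on with
  | C a => simp
  | add p q hp hq => simp only [map_add, hp, hq]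
  | mul_X p l hp => simp only [map_mul, hp, aeval_X, eval_X]

theorem c4_trl (a : Fin n → ℤ) (f : Pn n) :
    aff (trl a) f = aeval (fun j => X j + C (a j : ℚ) : Fin n → Pn n) f :=
  poly_ext fun x => by
    rw [eval_aff_trl, c4_eval]
    simp

theorem c4_fix {K : Set (Fin n)} {a : Fin n → ℤ} (h : ∀ j ∈ K, a j = 0) {f : Pn n}
    (hf : f ∈ Sp K) : aff (trl a) f = f := by
  rw [c4_trl]
  have : supported ℚ K ≤ AlgHom.equalizer
      (aeval (fun j => X j + C (a j : ℚ) : Fin n → Pn n)) (AlgHom.id ℚ (Pn n)) := by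
    refine Algebra.adjoin_le ?_
    rintro _ ⟨j, hj, rfl⟩
    change aeval _ (X j) = X j
    simp [h j hj]
  exact this hf

theorem c4_row (a : Fin n → ℤ) (i : Fin n) :
    ((trl a : GLz (n + 1)) : Mx (n + 1)) 0 i.succ = a i := by
  simp [trl, trM, (Fin.succ_ne_zero i).symm]

theorem c4_pow (a : Fin n → ℤ) (k : ℤ) : trl (k • a) = trl a ^ k :=
  map_zpow (MonoidHom.mk' (fun a : Multiplicative (Fin n → ℤ) => trl a.toAdd)
    fun _ _ => trl_add _ _) (Multiplicative.ofAdd a) k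

theorem c4_one (j : Fin n) : Trn {j} = Subgroup.zpowers (trl (Pi.single j (1 : ℤ))) := by
  ext g
  constructor
  · rintro ⟨a, ha, rfl⟩
    refine ⟨a j, (c4_pow _ _).symm.trans (congrArg trl (funext fun i => ?_))⟩
    by_cases h : i = j
    · simp [h]
    · simp [h, ha i h]
  · rintro ⟨k, rfl⟩
    exact ⟨k • Pi.single j 1, fun i (h : ¬ i = j) => by simp [h], (c4_pow _ _).symm⟩

theorem sp_univ : Sp (Set.univ : Set (Fin n)) = ⊤ := by
  rw [Sp, supported_univ, Algebra.top_toSubmodule]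

theorem stb_trn (J K : Set (Fin n)) : Stb (Trn J) aff (Sp K) := by
  rintro _ ⟨a, -, rfl⟩ f hf
  rw [c4_trl]
  have : supported ℚ K ≤ (supported ℚ K).comap
      (aeval (fun j => X j + C (a j : ℚ) : Fin n → Pn n)) := by
    refine Algebra.adjoin_le ?_
    rintro _ ⟨j, hj, rfl⟩
    change aeval _ (X j) ∈ supported ℚ K
    rw [aeval_X]
    exact add_mem (X_mem_supported.2 hj) ((supported ℚ K).algebraMap_mem _)
  exact this hf

theorem fx_trn (J K : Set (Fin n)) : Fx (Trn J) aff (Sp K) = Sp (K \ J) := by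
  ext f
  rw [mem_Fx]
  constructor
  · rintro ⟨h1, h2⟩
    refine mem_supported.2 fun i hi => ⟨mem_supported.1 h1 hi, fun hJ => ?_⟩
    refine not_mem_vars (indep_of_shift fun x => ?_) hi
    have := h2 (trl (Pi.single i 1)) ⟨_, fun j hj => Pi.single_eq_of_ne
      (fun e : j = i => hj (e ▸ hJ)) _, rfl⟩
    conv_rhs => rw [← this, eval_aff_trl]
    refine congrArg (fun y => eval y f) (funext fun j => ?_)
    by_cases h : j = i
    · simp [h]
    · simp [h]
  · intro h
    refine ⟨supported_mono Set.sdiff_subset h, ?_⟩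
    rintro _ ⟨a, ha, rfl⟩
    exact c4_fix (fun j hj => ha j hj.2) h

theorem shift_surj {K : Set (Fin n)} {j : Fin n} (hj : j ∈ K) {f : Pn n} (hf : f ∈ Sp K) :
    ∃ u ∈ Sp K, aff (trl (Pi.single j 1)) u - u = f := by
  change f ∈ (Sp K).map (aff (trl (Pi.single j 1)) - LinearMap.id)
  rw [f.as_sum]
  refine Submodule.sum_mem _ fun e he => ?_
  have hq : monomial (e.erase j) (coeff e f) ∈ Sp (K \ {j}) := by
    refine mem_supported.2 fun i hi => ?_
    rw [vars_monomial (mem_support_iff.1 he), Finsupp.support_erase] at hi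
    obtain ⟨h1, h2⟩ := Finset.mem_erase.1 hi
    exact ⟨mem_supported.1 hf ((mem_vars_iff_mem_support i).2 ⟨e, he, h2⟩), h1⟩
  have e1 : monomial e (coeff e f) = X j ^ e j * monomial (e.erase j) (coeff e f) := by
    rw [← monomial_single_add, Finsupp.single_add_erase]
  rw [e1]
  generalize monomial (e.erase j) (coeff e f) = q at hq
  generalize e j = m
  have e2 := c4_fix (a := Pi.single j 1) (fun i hi => Pi.single_eq_of_ne hi.2 _) hq
  have hB : Polynomial.aeval (X j : Pn n) (Polynomial.bernoulli (m + 1)) ∈ supported ℚ K :=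
    Algebra.adjoin_le (S := supported ℚ K) (Set.singleton_subset_iff.2 (X_mem_supported.2 hj))
      (Polynomial.aeval_mem_adjoin_singleton ℚ _)
  refine ⟨((m : ℚ) + 1)⁻¹ • (Polynomial.aeval (X j : Pn n) (Polynomial.bernoulli (m + 1)) * q),
    Submodule.smul_mem _ _ ((supported ℚ K).mul_mem hB
      (supported_mono Set.sdiff_subset hq)), ?_⟩
  have e3 := congrArg (Polynomial.aeval (X j : Pn n)) (Polynomial.bernoulli_comp_one_add_X (m + 1))
  rw [Polynomial.aeval_comp] at e3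
  simp only [map_add, map_one, Polynomial.aeval_X, map_nsmul, map_pow, Nat.add_sub_cancel] at e3
  rw [map_smul, LinearMap.sub_apply, LinearMap.id_apply, c4_trl, map_mul, ← c4_trl _ q, e2,
    ← Polynomial.aeval_algHom_apply, aeval_X, Pi.single_eq_same, Int.cast_one, C_1,
    add_comm (X j) 1, e3, add_mul, add_sub_cancel_left, ← Nat.cast_smul_eq_nsmul ℚ,
    smul_mul_assoc, smul_smul, Nat.cast_succ, inv_mul_cancel₀ (by positivity), one_smul]

theorem c4_v12 (J : Set (Fin n)) :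
    ∀ K : Set (Fin n), J ⊆ K → V1 (Trn J) aff (Sp K) ∧ V2 (Trn J) aff (Sp K) := by
  have hA : ∀ J : Set (Fin n), Act (Trn J) aff := fun J => act_aff.mono (Trn_le_Par J)
  induction J, J.toFinite using Set.Finite.induction_on with
  | empty =>
    have : ((Trn (∅ : Set (Fin n)) : Subgroup _) : Set (GLz (n + 1))).Finite := by
      refine (Set.finite_singleton (trl 0)).subset ?_
      rintro _ ⟨a, ha, rfl⟩
      exact congrArg trl (funext fun j => ha j (Set.notMem_empty j))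
    exact fun K _ => ⟨fin1 this (hA _), fin2 this (hA _)⟩
  | @insert j J hj _ ih =>
    intro K hK
    have mono : ∀ {I I' : Set (Fin n)}, I ⊆ I' → Trn I ≤ Trn I' := by
      rintro I I' h _ ⟨a, ha, rfl⟩
      exact ⟨a, fun i hi => ha i fun e => hi (h e), rfl⟩
    have hN : Trn {j} ≤ Trn (insert j J) := mono (Set.singleton_subset_iff.2 (Set.mem_insert _ _))
    have hJ : Trn J ≤ Trn (insert j J) := mono (Set.subset_insert _ _)
    have hn : ∀ g ∈ Trn (insert j J), ∀ a ∈ Trn {j}, g⁻¹ * a * g ∈ Trn {j} := by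
      rintro _ ⟨b, -, rfl⟩ _ ⟨a, ha, rfl⟩
      rw [← trl_neg, ← trl_add, ← trl_add, neg_add_cancel_comm]
      exact ⟨a, ha, rfl⟩
    have i1 := ih (K \ {j}) fun i hi => ⟨hK (Or.inr hi), fun e => hj (e ▸ hi)⟩
    rw [← fx_trn] at i1
    have h1 : V1 (Trn {j}) aff (Sp K) := by
      rw [c4_one]
      exact cyc1 _ (c4_one j ▸ hA _) fun v hv => shift_surj (hK (Set.mem_insert _ _)) hv
    have h2 : V2 (Trn {j}) aff (Sp K) := by
      rw [c4_one]
      refine cyc2 _ (fun h => ?_) (c4_one j ▸ hA _) (c4_one j ▸ stb_trn _ _)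
      obtain ⟨k, hk, e⟩ := isOfFinOrder_iff_pow_eq_one.1 h
      rw [← zpow_natCast, ← c4_pow, ← trl_zero] at e
      have := congrFun (trl_inj e) j
      simp at this
      omega
    let κ : GLz (n + 1) → GLz (n + 1) := fun g =>
      trl (Function.update (fun i => (g : Mx (n + 1)) 0 i.succ) j 0)
    have hκ : ∀ a, κ (trl a) = trl (Function.update a j 0) := fun a => by
      simp only [κ, c4_row]
    have hκ1 : ∀ g ∈ Trn (insert j J), κ g ∈ Trn J ∧ g * (κ g)⁻¹ ∈ Trn {j} := by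
      rintro _ ⟨a, ha, rfl⟩
      rw [hκ, ← trl_neg, ← trl_add]
      refine ⟨⟨_, fun i hi => ?_, rfl⟩, ⟨_, fun i (hi : ¬ i = j) => by simp [hi], rfl⟩⟩
      by_cases h : i = j
      · simp [h]
      · rw [Function.update_of_ne h]
        exact ha i fun e => e.elim h hi
    refine ⟨ext1 hN hJ (hA _) (stb_trn _ _) hn (fun g hg => ⟨_, (hκ1 g hg).2, _, (hκ1 g hg).1,
      (inv_mul_cancel_right _ _).symm⟩) h1 i1.1,
      ext2 hN hJ (hA _) (stb_trn _ _) hn κ hκ1 ?_ h1 h2 i1.2⟩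
    rintro _ ⟨a, -, rfl⟩ _ ⟨b, -, rfl⟩
    rw [← trl_add, hκ, hκ, hκ, ← trl_add]
    refine congrArg trl (funext fun i => ?_)
    by_cases h : i = j
    · simp [h]
    · simp [h]

theorem v1_trn {J K : Set (Fin n)} (h : J ⊆ K) : V1 (Trn J) aff (Sp K) :=
  (c4_v12 J K h).1

theorem v2_trn {J K : Set (Fin n)} (h : J ⊆ K) : V2 (Trn J) aff (Sp K) :=
  (c4_v12 J K h).2

/-- Polynomials of degree at most `m - c`. -/
noncomputable def c4_L (n c m : ℕ) : Submodule ℚ (Pn n) :=
  restrictSupport ℚ {e | e.degree + c ≤ m}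

theorem c4_mem {c m : ℕ} {f : Pn n} : f ∈ c4_L n c m ↔ ∀ e ∈ f.support, e.degree + c ≤ m :=
  Iff.rfl

theorem c4_Ld {c m : ℕ} {f : Pn n} : f ∈ c4_L n c (m + c) ↔ f ∈ Ld n m := by
  rw [c4_mem]
  exact forall₂_congr fun e _ => Nat.add_le_add_iff_right

theorem c4_le {c m c' m' : ℕ} (h : m + c' ≤ m' + c) {f : Pn n} (hf : f ∈ c4_L n c m) :
    f ∈ c4_L n c' m' := fun e he => by
  have := c4_mem.1 hf e he
  change e.degree + c' ≤ m'
  omega

theorem c4_X {c m : ℕ} (i : Fin n) {f : Pn n} (hf : f ∈ c4_L n c m) :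
    X i * f ∈ c4_L n c (m + 1) := by
  refine c4_mem.2 fun e he => ?_
  rw [support_X_mul] at he
  obtain ⟨e', h1, rfl⟩ := Finset.mem_map.1 he
  have := c4_mem.1 hf e' h1
  rw [addLeftEmbedding_apply, map_add, Finsupp.degree_single]
  omega

theorem c4_hc {c m k : ℕ} {f : Pn n} (hf : f ∈ c4_L n c m) (h : m < k + c) :
    homogeneousComponent k f = 0 :=
  homogeneousComponent_eq_zero' _ _ fun e he => by
    have := c4_mem.1 hf e he
    omega

theorem c4_taylor (T : Pn n →ₐ[ℚ] Pn n) (D : Derivation ℚ (Pn n) (Pn n)) (a : Fin n → ℚ)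
    (hT : ∀ j, T (X j) = X j + C (a j)) (hD : ∀ j, D (X j) = C (a j)) {m : ℕ} {f : Pn n}
    (hf : f ∈ Ld n m) : T f - f ∈ c4_L n 1 m ∧ T f - f - D f ∈ c4_L n 2 m := by
  have key : ∀ k, ∀ e : Fin n →₀ ℕ, e.degree = k → T (monomial e 1) - monomial e 1 ∈ c4_L n 1 k ∧
      T (monomial e 1) - monomial e 1 - D (monomial e 1) ∈ c4_L n 2 k := by
    intro k
    induction k with
    | zero =>
      intro e he
      rw [(Finsupp.degree_eq_zero_iff e).1 he]
      simp
    | succ k ih =>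
      intro e he
      obtain ⟨i, hi⟩ : ∃ i, e i ≠ 0 := by
        by_contra h
        push Not at h
        rw [show e = 0 from Finsupp.ext h, map_zero] at he
        omega
      obtain ⟨e', rfl⟩ := exists_add_of_le (Finsupp.single_le_iff.2 (Nat.one_le_iff_ne_zero.2 hi))
      rw [map_add, Finsupp.degree_single] at he
      have he' : e'.degree = k := by omega
      obtain ⟨h1, h2⟩ := ih e' he'
      have h0 : (monomial e' 1 : Pn n) ∈ c4_L n 0 k :=
        (monomial_mem_restrictSupport ℚ).2 (Or.inl he'.le)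
      rw [monomial_single_add, pow_one]
      generalize (monomial e' 1 : Pn n) = x at h0 h1 h2
      constructor
      · have : T (X i * x) - X i * x = X i * (T x - x) + a i • ((T x - x) + x) := by
          rw [map_mul, hT, smul_eq_C_mul]
          ring
        rw [this]
        exact add_mem (c4_X i h1) (Submodule.smul_mem _ _
          (add_mem (c4_le (by omega) h1) (c4_le (by omega) h0)))
      · have : T (X i * x) - X i * x - D (X i * x) =
            X i * (T x - x - D x) + a i • (T x - x) := by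
          rw [map_mul, hT, smul_eq_C_mul, D.leibniz, hD, smul_eq_mul, smul_eq_mul]
          ring
        rw [this]
        exact add_mem (c4_X i h2) (Submodule.smul_mem _ _ (c4_le (by omega) h1))
  rw [Ld, restrictTotalDegree, restrictSupport_eq_span] at hf
  induction hf using Submodule.span_induction with
  | mem x hx =>
    obtain ⟨e, he, rfl⟩ := hx
    have he' : e.degree ≤ m := he
    exact ⟨c4_le (by omega) (key _ e rfl).1, c4_le (by omega) (key _ e rfl).2⟩
  | zero => simp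
  | add x y _ _ h1 h2 =>
    refine ⟨?_, ?_⟩
    · convert add_mem h1.1 h2.1 using 1
      rw [map_add]
      ring
    · convert add_mem h1.2 h2.2 using 1
      rw [map_add, map_add]
      ring
  | smul c x _ h1 =>
    refine ⟨?_, ?_⟩
    · rw [map_smul, ← smul_sub]
      exact Submodule.smul_mem _ _ h1.1
    · rw [map_smul, D.map_smul, ← smul_sub, ← smul_sub]
      exact Submodule.smul_mem _ _ h1.2

theorem top_aff (g : GLz (n + 1)) {m : ℕ} {f : Pn n} (hf : f ∈ Ld n m) :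
    homogeneousComponent m (aff g f) =
      dt g • sub (lowM (g : Mx (n + 1)))ᵀ (homogeneousComponent m f) := by
  have h := (c4_taylor (aeval fun j => X j + C ((g : Mx (n + 1)) 0 j.succ : ℚ))
    (mkDerivation ℚ fun j => C ((g : Mx (n + 1)) 0 j.succ : ℚ)) _ (fun j => aeval_X _ j)
    (fun j => mkDerivation_X _ _ j) hf).1
  have h1 := c4_hc h (Nat.lt_succ_self m)
  rw [map_sub, sub_eq_zero] at h1
  rw [← h1, ← sub_homogeneousComponent, ← map_smul]
  refine congrArg _ (poly_ext fun x => ?_)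
  rw [eval_aff, smul_eval, eval_sub, c4_eval]
  refine congrArg (fun y => dt g * eval y f) (funext fun j => ?_)
  simp [mv, lowM, add_comm]

theorem mem_Ld_pred {m : ℕ} {f : Pn n} (hf : f ∈ Ld n (m + 1))
    (h : homogeneousComponent (m + 1) f = 0) : f ∈ Ld n m := by
  intro e he
  have h1 : e.degree ≤ m + 1 := hf he
  have h2 := coeff_homogeneousComponent (m + 1) f e
  rw [h, coeff_zero] at h2
  change e.degree ≤ m
  by_contra h3
  rw [if_pos (by omega)] at h2
  exact mem_support_iff.1 he h2.symm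

theorem c4_top {f : Pn n}
    (h : ∀ m, d ≤ m → f ∈ Ld n (m + 1) → homogeneousComponent (m + 1) f = 0) : f ∈ Ld n d := by
  by_contra h1
  rw [mem_restrictTotalDegree, not_le] at h1
  obtain ⟨m, hm⟩ : ∃ m, f.totalDegree = m + 1 := ⟨f.totalDegree - 1, by omega⟩
  have h2 : f ∈ Ld n (m + 1) := (mem_restrictTotalDegree _ _ _).2 hm.le
  have h3 := (mem_restrictTotalDegree _ _ _).1 (mem_Ld_pred h2 (h m (by omega) h2))
  omega

theorem v0m_of {S : Subgroup (GLz (n + 1))} (hS : S ≤ Par n) {i j : Fin n} (hij : i ≠ j)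
    {t r : GLz (n + 1)} (ht : t ∈ S) (ht' : lowM (t : Mx (n + 1)) = 1 + Matrix.single j i 1)
    (hr : r ∈ S)
    (hr' : lowM (r : Mx (n + 1)) = Matrix.diagonal (Function.update 1 i (-1))) (d : ℕ) :
    V0m S aff (Ld n d) := by
  intro v hv
  refine c4_top fun m hm h2 => ?_
  have key : ∀ a ∈ S, ((lowM (a : Mx (n + 1))).det : ℚ) • sub (lowM (a : Mx (n + 1)))ᵀ
      (homogeneousComponent (m + 1) v) = homogeneousComponent (m + 1) v := fun a ha => by
    rw [← dt_par (hS ha), ← top_aff a h2, ← sub_eq_zero, ← map_sub]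
    exact c4_hc ((c4_Ld (c := 0)).2 (hv a ha)) (by omega)
  have k1 := key t ht
  have k2 := key r hr
  have d1 : (1 + Matrix.single j i 1 : Mx n).det = 1 := det_transvection_of_ne j i hij.symm 1
  have d2 : (Matrix.diagonal (Function.update 1 i (-1)) : Mx n).det = -1 := by
    rw [det_diagonal, Finset.prod_update_of_mem (Finset.mem_univ i)]
    simp
  rw [ht', d1, transpose_add, transpose_one, transpose_single, Int.cast_one, one_smul] at k1
  rw [hr', d2, diagonal_transpose, Int.cast_neg, Int.cast_one, neg_one_smul,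
    neg_eq_iff_eq_neg] at k2
  exact kill hij one_ne_zero k1 k2

/-- first order Taylor formula for a unit translation -/
theorem taylor_trl (j : Fin n) {m : ℕ} {f : Pn n} (hf : f ∈ Ld n (m + 1)) :
    aff (trl (Pi.single j 1)) f - f ∈ Ld n m ∧
      homogeneousComponent m (aff (trl (Pi.single j 1)) f - f) =
        pderiv j (homogeneousComponent (m + 1) f) := by
  obtain ⟨h1, h2⟩ := c4_taylor
    (aeval fun i => X i + C (((Pi.single j 1 : Fin n → ℤ) i : ℤ) : ℚ)) (pderiv j) _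
    (fun i => aeval_X _ i) (fun i => by
      by_cases h : i = j
      · simp [h]
      · simp [h]) hf
  rw [← c4_trl] at h1 h2
  refine ⟨c4_Ld.1 h1, ?_⟩
  have h3 := c4_hc h2 (k := m) (by omega)
  rw [map_sub, sub_eq_zero] at h3
  rw [h3]
  ext e
  rw [coeff_homogeneousComponent, coeff_pderiv, coeff_pderiv, coeff_homogeneousComponent,
    map_add, Finsupp.degree_single]
  by_cases h : e.degree = m
  · rw [if_pos h, if_pos (by omega)]
  · rw [if_neg h, if_neg (by omega), zero_mul]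

theorem mem_Ld_succ {f : Pn n} (h : ∀ j, aff (trl (Pi.single j 1)) f - f ∈ Ld n d) :
    f ∈ Ld n (d + 1) := by
  refine c4_top fun m hm h2 => ?_
  have e := (homogeneousComponent_isHomogeneous (m + 1) f).sum_X_mul_pderiv
  rw [Finset.sum_eq_zero fun j _ => by
    rw [← (taylor_trl j h2).2, c4_hc ((c4_Ld (c := 0)).2 (h j)) (by omega), mul_zero],
    ← Nat.cast_smul_eq_nsmul ℚ, eq_comm, smul_eq_zero] at e
  exact e.resolve_left (by positivity)

end Pool.Agent.MP_cbe134_nt.V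

end

section

/- Stabilisers of two and three vectors. -/

open MvPolynomial Matrix

namespace Pool.Agent.MP_cbe134_nt.V

variable {n : ℕ}

/-- a two by two block placed at the coordinates `i`, `j` -/
def c5_M (i j : Fin n) (x y z w : ℤ) : Mx n :=
  1 + Matrix.single i i (x - 1) + Matrix.single i j y + Matrix.single j i z +
    Matrix.single j j (w - 1)

theorem c5_mv {i j : Fin n} (hij : i ≠ j) (x y z w : ℤ) (u : Fin n → ℤ) (k : Fin n) :
    (c5_M i j x y z w *ᵥ u) k =
      if k = i then x * u i + y * u j else if k = j then z * u i + w * u j else u k := by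
  simp only [c5_M, Matrix.add_mulVec, Matrix.one_mulVec, Matrix.single_mulVec, Pi.add_apply,
    Function.update_apply, Pi.zero_apply]
  split_ifs with h1 h2 h2
  · exact absurd (h1.symm.trans h2) hij
  · subst h1
    ring
  · subst h2
    ring
  · ring

theorem c5_mul {i j : Fin n} (hij : i ≠ j) {x y z w : ℤ} (h : x * w - y * z = 1) :
    c5_M i j x y z w * c5_M i j w (-y) (-z) x = 1 := by
  refine Matrix.ext_iff_mulVec.2 fun u => funext fun k => ?_
  rw [← Matrix.mulVec_mulVec, Matrix.one_mulVec]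
  simp only [c5_mv hij, if_true, if_neg hij.symm]
  split_ifs with h1 h2
  · subst h1
    linear_combination u k * h
  · subst h2
    linear_combination u k * h
  · rfl

theorem clear {i j : Fin n} (hij : i ≠ j) (v : Fin n → ℤ) : ∃ g : GLz n,
    ((g : Mx n) *ᵥ v) j = 0 ∧ (∀ (w : Fin n → ℤ) (k : Fin n), k ≠ i → k ≠ j →
      ((g : Mx n) *ᵥ w) k = w k) ∧
    ∀ w : Fin n → ℤ, w i = 0 → w j = 0 → (g : Mx n) *ᵥ w = w := by
  obtain ⟨a, b, ha, hb, hu⟩ := extract_gcd (v i) (v j)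
  obtain ⟨x, y, hxy⟩ := (gcd_isUnit_iff a b).1 hu
  generalize GCDMonoid.gcd (v i) (v j) = c at ha hb
  refine ⟨⟨c5_M i j x y (-b) a, c5_M i j a (-y) (- -b) x, c5_mul hij (by linear_combination hxy),
    ?_⟩, ?_, fun w k h1 h2 => ?_, fun w h1 h2 => funext fun k => ?_⟩
  · have h := c5_mul hij (x := a) (y := -y) (z := - -b) (w := x) (by linear_combination hxy)
    rwa [neg_neg y, neg_neg (-b)] at h
  · simp only [c5_mv hij, if_true, if_neg hij.symm]
    rw [ha, hb]
    ring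
  · simp only [c5_mv hij, if_neg h1, if_neg h2]
  · simp only [c5_mv hij, h1, h2]
    split_ifs with h3 h4
    · rw [h3, h1]
      ring
    · rw [h4, h2]
      ring
    · rfl

theorem cnj_Fixv (s : Set (Fin n → ℤ)) (g : GLz n) :
    cnj (Fixv s) g = Fixv ((fun v => (g : Mx n) *ᵥ v) '' s) := by
  ext a
  rw [mem_cnj, mem_Fixv, mem_Fixv, Set.forall_mem_image]
  refine forall₂_congr fun v _ => ?_
  rw [Units.val_mul, Units.val_mul, ← Matrix.mulVec_mulVec, ← Matrix.mulVec_mulVec]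
  constructor
  · intro h
    have h1 := congrArg (fun u => (g : Mx n) *ᵥ u) h
    simp only [Matrix.mulVec_mulVec] at h1
    rw [← mul_assoc, Units.mul_inv, one_mul, ← Matrix.mulVec_mulVec] at h1
    exact h1
  · intro h
    rw [h, Matrix.mulVec_mulVec, Units.inv_mul, Matrix.one_mulVec]

theorem c5_back (s : Set (Fin n → ℤ)) (g : GLz n) :
    cnj (Fixv ((fun v => (g : Mx n) *ᵥ v) '' s)) g⁻¹ = Fixv s := by
  rw [cnj_Fixv, Set.image_image]
  simp only [Matrix.mulVec_mulVec, Units.inv_mul, Matrix.one_mulVec, Set.image_id']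

theorem c5_anti {s t : Set (Fin n → ℤ)} (h : s ⊆ t) : Fixv t ≤ Fixv s :=
  fun _ hg v hv => hg v (h hv)

theorem c5_hyp {i k : Fin n} (hik : i ≠ k) {s : Set (Fin n → ℤ)} (hs : ∀ v ∈ s, v k = 0) :
    V0 (Fixv s) (rho (n := n)) ⊤ := by
  intro f _ hf
  have e1 : ∀ c d : ℤ, c + d = 0 →
      Matrix.transvection i k c * Matrix.transvection i k d = (1 : Mx n) := fun c d h => by
    rw [Matrix.transvection_mul_transvection_same _ _ hik, h, Matrix.transvection_zero]
  have e2 : Matrix.diagonal (Function.update 1 k (-1)) *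
      Matrix.diagonal (Function.update 1 k (-1)) = (1 : Mx n) := by
    rw [Matrix.diagonal_mul_diagonal, ← Matrix.diagonal_one]
    congr 1
    funext l
    by_cases hl : l = k
    · subst hl
      simp
    · simp [hl]
  have h1 := hf ⟨Matrix.transvection i k 1, Matrix.transvection i k (-1), e1 _ _ (by ring),
    e1 _ _ (by ring)⟩ (fun v hv => by
      simp [Matrix.transvection, Matrix.add_mulVec, Matrix.single_mulVec, hs v hv])
  have h2 := hf ⟨_, _, e2, e2⟩ (fun v hv => funext fun l => by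
    by_cases hl : l = k
    · subst hl
      simp [Matrix.mulVec_diagonal, hs v hv]
    · simp [Matrix.mulVec_diagonal, hl])
  refine kill hik.symm one_ne_zero ?_ ?_
  · simp only [rho, dt, Matrix.det_transvection_of_ne _ _ hik, Int.cast_one, one_smul,
      AlgHom.toLinearMap_apply] at h1
    simpa only [Matrix.transvection, Matrix.transpose_add, Matrix.transpose_one,
      Matrix.transpose_single] using h1
  · have e3 : (Matrix.diagonal (Function.update 1 k (-1)) : Mx n).det = -1 := by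
      rw [Matrix.det_diagonal, Finset.prod_update_of_mem (Finset.mem_univ k)]
      simp
    simp only [rho, dt, e3, Matrix.diagonal_transpose, LinearMap.smul_apply,
      AlgHom.toLinearMap_apply, Int.cast_neg, Int.cast_one, neg_one_smul] at h2
    exact neg_eq_iff_eq_neg.1 h2

theorem c5_hyp' {i k : Fin n} (hik : i ≠ k) {s : Set (Fin n → ℤ)} (g : GLz n)
    (hs : ∀ v ∈ s, ((g : Mx n) *ᵥ v) k = 0) : V0 (Fixv s) (rho (n := n)) ⊤ := by
  rw [← c5_back s g]
  refine V0.cnj le_top act_rho stb_top (Subgroup.mem_top _) (c5_hyp hik ?_)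
  rintro _ ⟨v, hv, rfl⟩
  exact hs v hv

theorem c5_two (v : Fin 4 → ℤ) : ∃ p : GLz 4, (p : Mx 4) *ᵥ bv 0 = bv 0 ∧
    ((p : Mx 4) *ᵥ v) 2 = 0 ∧ ((p : Mx 4) *ᵥ v) 3 = 0 := by
  obtain ⟨g1, a1, -, a3⟩ := clear (i := 2) (j := 3) (by decide) v
  obtain ⟨g2, b1, b2, b3⟩ := clear (i := 1) (j := 2) (by decide) ((g1 : Mx 4) *ᵥ v)
  refine ⟨g2 * g1, ?_, ?_, ?_⟩ <;> rw [Units.val_mul, ← Matrix.mulVec_mulVec]
  · rw [a3 _ rfl rfl, b3 _ rfl rfl]
  · exact b1
  · rw [b2 _ _ (by decide) (by decide), a1]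

theorem v0_triple (v w : Fin 4 → ℤ) : V0 (Fixv {bv 0, v, w}) (rho (n := 4)) ⊤ := by
  obtain ⟨p, a1, a2, a3⟩ := c5_two v
  obtain ⟨g, b1, -, b3⟩ := clear (i := 2) (j := 3) (by decide) ((p : Mx 4) *ᵥ w)
  refine c5_hyp' (i := 0) (k := 3) (by decide) (g * p) ?_
  rintro u (rfl | rfl | rfl) <;> rw [Units.val_mul, ← Matrix.mulVec_mulVec]
  · rw [a1, b3 _ rfl rfl]
    rfl
  · rw [b3 _ a2 a3, a3]
  · exact b1

theorem v0_pair (v : Fin 3 → ℤ) : V0 (Fixv {bv 0, v}) (rho (n := 3)) ⊤ := by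
  obtain ⟨g, b1, -, b3⟩ := clear (i := 1) (j := 2) (by decide) v
  refine c5_hyp' (i := 0) (k := 2) (by decide) g ?_
  rintro u (rfl | rfl)
  · rw [b3 _ rfl rfl]
    rfl
  · exact b1

theorem c5_par {d : ℕ} (hQ : V1 (Fixv {bv 0, bv 1}) (rho (n := 4)) (Hd 4 d)) :
    V1 (Fixv {bv 0}) (rho (n := 4)) (Hd 4 d) := by
  refine amal1 (c5_anti (by simp)) (act_rho.mono le_top) (stb_rho.mono le_top) hQ fun g hg => ?_
  refine V0.mono ?_ le_top (v0_triple (bv 1) ((g : Mx 4) *ᵥ bv 1))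
  rw [cnj_Fixv, Set.image_pair, hg _ rfl]
  exact le_inf (c5_anti (by simp [Set.insert_subset_iff]))
    (c5_anti (by simp [Set.insert_subset_iff]))

theorem v1_pair {d : ℕ} (hQ : V1 (Fixv {bv 0, bv 1}) (rho (n := 4)) (Hd 4 d))
    (v : Fin 4 → ℤ) : V1 (Fixv {bv 0, v}) (rho (n := 4)) (Hd 4 d) := by
  obtain ⟨p, a1, a2, a3⟩ := c5_two v
  rw [← c5_back _ p, Set.image_pair, a1]
  refine V1.cnj le_top act_rho stb_rho (Subgroup.mem_top _) ?_
  generalize (p : Mx 4) *ᵥ v = u at a2 a3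
  have e : u = u 0 • bv 0 + u 1 • bv 1 := by
    funext k
    fin_cases k <;> simp [bv, a2, a3]
  generalize u 0 = a, u 1 = b at e
  subst e
  by_cases hb : b = 0
  · convert c5_par hQ using 1
    refine le_antisymm (c5_anti (by simp)) fun g hg => ?_
    rintro u (rfl | rfl)
    · exact hg _ rfl
    · rw [hb, zero_smul, add_zero, Matrix.mulVec_smul, hg _ rfl]
  · convert hQ using 1
    refine le_antisymm (fun g hg => ?_) fun g hg => ?_
    · have h0 := hg _ (Or.inl rfl)
      have h1 := hg _ (Or.inr rfl)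
      rintro u (rfl | rfl)
      · exact h0
      · rw [Matrix.mulVec_add, Matrix.mulVec_smul, Matrix.mulVec_smul, h0] at h1
        exact smul_right_injective _ hb (add_left_cancel h1)
    · have h0 := hg _ (Or.inl rfl)
      have h1 := hg _ (Or.inr rfl)
      rintro u (rfl | rfl)
      · exact h0
      · rw [Matrix.mulVec_add, Matrix.mulVec_smul, Matrix.mulVec_smul, h0, h1]

theorem c5_inf (g : GLz (n + 1)) :
    Par n ⊓ cnj (Par n) g = Fixv {bv 0, (g : Mx (n + 1)) *ᵥ bv 0} := by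
  rw [Par, cnj_Fixv, Set.image_singleton]
  refine le_antisymm (fun a ha => ?_) (le_inf (c5_anti (by simp)) (c5_anti (by simp)))
  rintro u (rfl | rfl)
  · exact ha.1 _ rfl
  · exact ha.2 _ rfl

theorem v2_top_of {d : ℕ} (hQ : V1 (Fixv {bv 0, bv 1}) (rho (n := 4)) (Hd 4 d))
    (hP : V2 (Par 3) rho (Hd 4 d)) : V2 ⊤ (rho (n := 4)) (Hd 4 d) := by
  refine amal2 le_top act_rho stb_rho hP (fun g _ => ?_) fun g _ h _ => ?_
  · rw [c5_inf]
    exact v1_pair hQ _
  · refine V0.mono ?_ le_top (v0_triple ((g : Mx 4) *ᵥ bv 0) ((h : Mx 4) *ᵥ bv 0))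
    rw [c5_inf, Par, cnj_Fixv, Set.image_singleton]
    exact le_inf (c5_anti (by simp [Set.insert_subset_iff])) (c5_anti (by simp))

theorem v1_top3_of {m : ℕ} (hP : V1 (Par 2) rho (Hd 3 m)) :
    V1 ⊤ (rho (n := 3)) (Hd 3 m) := by
  refine amal1 le_top act_rho stb_rho hP fun g _ => ?_
  rw [c5_inf]
  exact V0.mono le_rfl le_top (v0_pair _)

end Pool.Agent.MP_cbe134_nt.V

end

section

/- First cohomology of the stabiliser of two basis vectors and of `GL₃(ℤ)`. -/

open MvPolynomial Matrix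

namespace Pool.Agent.MP_cbe134_nt.V

theorem c6_tors {E : Type} [AddCommGroup E] [Module ℚ E] {v : E} {m : ℕ} (hm : m ≠ 0)
    (h : m • v = 0) : v = 0 := by
  have h1 : (m : ℚ) • v = 0 := by rwa [Nat.cast_smul_eq_nsmul]
  exact (smul_eq_zero.1 h1).resolve_left (Nat.cast_ne_zero.2 hm)

theorem add_van_GL2 {E : Type} [AddCommGroup E] [Module ℚ E] (c : GLz 2 → E)
    (hc : ∀ a b, dt a = 1 → dt b = 1 → c (a * b) = c a + c b) (a : GLz 2) (ha : dt a = 1) :
    c a = 0 := by
  have hd : ∀ g : SpecialLinearGroup (Fin 2) ℤ, dt (SpecialLinearGroup.toGL g) = 1 := by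
    intro g
    have h : ((SpecialLinearGroup.toGL g : GLz 2) : Mx 2).det = 1 := g.2
    rw [dt, h, Int.cast_one]
  let φ : SpecialLinearGroup (Fin 2) ℤ →* Multiplicative E := MonoidHom.mk'
    (fun g => Multiplicative.ofAdd (c (SpecialLinearGroup.toGL g))) fun g g' => by
      rw [map_mul, hc _ _ (hd g) (hd g'), ofAdd_add]
  have ht : ∀ (g : SpecialLinearGroup (Fin 2) ℤ) (m : ℕ), m ≠ 0 → g ^ m = 1 → φ g = 1 := by
    intro g m hm hg
    have h1 : φ g ^ m = 1 := by rw [← map_pow, hg, map_one]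
    have h2 : m • (φ g).toAdd = 0 := by rw [← toAdd_pow, h1, toAdd_one]
    exact Multiplicative.toAdd.injective (c6_tors hm h2)
  have hS : φ ModularGroup.S = 1 := ht _ 4 (by norm_num) (by decide)
  have hST : φ (ModularGroup.S * ModularGroup.T) = 1 := ht _ 6 (by norm_num) (by decide)
  have hT : φ ModularGroup.T = 1 := by rwa [map_mul, hS, one_mul] at hST
  have hk : φ.ker = ⊤ := by
    rw [eq_top_iff, ← SpecialLinearGroup.SL2Z_generators, Subgroup.closure_le]
    rintro _ (rfl | rfl)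
    · exact hS
    · exact hT
  have hdet : (a : Mx 2).det = 1 := by
    have h : (((a : Mx 2).det : ℤ) : ℚ) = 1 := ha
    exact_mod_cast h
  have hm : (⟨a, hdet⟩ : SpecialLinearGroup (Fin 2) ℤ) ∈ φ.ker := by rw [hk]; trivial
  have he : SpecialLinearGroup.toGL (⟨a, hdet⟩ : SpecialLinearGroup (Fin 2) ℤ) = a :=
    Units.ext rfl
  have h3 : Multiplicative.ofAdd (c (SpecialLinearGroup.toGL
    (⟨a, hdet⟩ : SpecialLinearGroup (Fin 2) ℤ))) = 1 := hm
  rw [he] at h3
  exact Multiplicative.ofAdd.injective h3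

theorem add_van_P2 {E : Type} [AddCommGroup E] [Module ℚ E] (c : GLz 3 → E)
    (hc : ∀ a ∈ Par 2, ∀ b ∈ Par 2, dt a = 1 → dt b = 1 → c (a * b) = c a + c b)
    (a : GLz 3) (ha : a ∈ Par 2) (ha' : dt a = 1) : c a = 0 := by
  have he : ∀ D : GLz 2, dt D = 1 → c (emb 2 D) = 0 :=
    add_van_GL2 (fun D => c (emb 2 D)) fun D D' h h' => by
      rw [map_mul]
      exact hc _ (emb_mem_Par D) _ (emb_mem_Par D') (by rwa [dt_emb]) (by rwa [dt_emb])
  have h1 : c 1 = 0 := by
    have h := he 1 dt_one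
    rwa [map_one] at h
  have hs : dt (-1 : GLz 2) = 1 := by simp [dt, Matrix.det_fin_two]
  have ht : ∀ x : Fin 2 → ℤ, c (trl x) = 0 := by
    intro x
    have h2 := par_conj (emb_mem_Par (-1 : GLz 2)) x
    rw [lowM_emb, Units.coe_neg_one, Matrix.vecMul_neg, Matrix.vecMul_one] at h2
    have h3 : trl x * emb 2 (-1) = emb 2 (-1) * trl (-x) := by
      rw [← h2]
      group
    have hs' : dt (emb 2 (-1)) = 1 := by rwa [dt_emb]
    have h4 := hc _ (trl_mem_Par x) _ (emb_mem_Par (-1)) (dt_trl x) hs'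
    rw [h3, hc _ (emb_mem_Par (-1)) _ (trl_mem_Par (-x)) hs' (dt_trl _), he _ hs, zero_add,
      add_zero] at h4
    have h5 := hc _ (trl_mem_Par x) _ (trl_mem_Par (-x)) (dt_trl _) (dt_trl _)
    rw [← trl_add, add_neg_cancel, trl_zero, h1, h4] at h5
    exact c6_tors (m := 2) (by norm_num) (by rw [two_nsmul, ← h5])
  obtain ⟨D, x, -, rfl⟩ := par_dec ha
  have hD : dt D = 1 := by rwa [dt_mul, dt_trl, one_mul, dt_emb] at ha'
  rw [hc _ (trl_mem_Par x) _ (emb_mem_Par D) (dt_trl x) (by rwa [dt_emb]), ht, he D hD, add_zero]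

theorem c6_col {n : ℕ} {g : GLz n} {j : Fin n} (h : (g : Mx n) *ᵥ bv j = bv j) (i : Fin n) :
    (g : Mx n) i j = if i = j then 1 else 0 := by
  have h1 := congrFun h i
  simpa [bv, Pi.single_apply] using h1

theorem c6_col' {n : ℕ} {g : GLz n} {j : Fin n}
    (h : ∀ i, (g : Mx n) i j = if i = j then 1 else 0) : (g : Mx n) *ᵥ bv j = bv j := by
  funext i
  simpa [bv, Pi.single_apply] using h i

theorem c6_aff_sp {n : ℕ} {K : Set (Fin n)} {g : GLz (n + 1)}
    (h : ∀ j ∈ K, (g : Mx (n + 1)) *ᵥ bv j.succ = bv j.succ) {f : Pn n} (hf : f ∈ Sp K) :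
    aff g f = dt g • f := by
  have hf' : f ∈ Algebra.adjoin ℚ (X '' K) := hf
  have key : (aeval fun j : Fin n => C ((g : Mx (n + 1)) 0 j.succ : ℚ) +
      ∑ i : Fin n, C ((g : Mx (n + 1)) i.succ j.succ : ℚ) * X i : Pn n →ₐ[ℚ] Pn n) f = f := by
    induction hf' using Algebra.adjoin_induction with
    | mem x hx =>
      obtain ⟨j, hj, rfl⟩ := hx
      simp [c6_col (h j hj), (Fin.succ_ne_zero j).symm, apply_ite]
    | algebraMap r => simp
    | add x y hx hy ihx ihy => rw [map_add, ihx hx, ihy hy]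
    | mul x y hx hy ihx ihy => rw [map_mul, ihx hx, ihy hy]
  rw [aff, LinearMap.smul_apply, AlgHom.toLinearMap_apply, key]

/-- an elementary matrix -/
def c6_tv {n : ℕ} {i j : Fin n} (h : i ≠ j) : GLz n :=
  ⟨1 + Matrix.single j i 1, 1 - Matrix.single j i 1,
    by simp [add_mul, mul_sub, Matrix.single_mul_single_of_ne _ _ _ _ h],
    by simp [sub_mul, mul_add, Matrix.single_mul_single_of_ne _ _ _ _ h]⟩

theorem c6_rf_sq {n : ℕ} (i : Fin n) :
    (Matrix.diagonal (Function.update 1 i (-1)) : Mx n) *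
      Matrix.diagonal (Function.update 1 i (-1)) = 1 := by
  rw [Matrix.diagonal_mul_diagonal, ← Matrix.diagonal_one]
  congr 1
  funext k
  by_cases hk : k = i
  · subst hk
    simp
  · simp [hk]

/-- a reflection -/
def c6_rf {n : ℕ} (i : Fin n) : GLz n :=
  ⟨Matrix.diagonal (Function.update 1 i (-1)), Matrix.diagonal (Function.update 1 i (-1)),
    c6_rf_sq i, c6_rf_sq i⟩

theorem c6_dt_rf {n : ℕ} (i : Fin n) : dt (c6_rf i) = -1 := by
  simp [dt, c6_rf, Matrix.det_diagonal, Finset.prod_update_of_mem]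

theorem v1_P2_aff : V1 (Par 2) aff ⊤ := by
  refine ext1 (N := Trn Set.univ) (K := (emb 2).range) (Trn_le_Par _) ?_ act_aff stb_top ?_ ?_ ?_ ?_
  · rintro _ ⟨D, rfl⟩
    exact emb_mem_Par D
  · rintro g hg _ ⟨a, -, rfl⟩
    exact ⟨_, fun j hj => absurd (Set.mem_univ j) hj, par_conj hg a⟩
  · intro g hg
    obtain ⟨D, a, -, e⟩ := par_dec hg
    exact ⟨trl a, ⟨a, fun j hj => absurd (Set.mem_univ j) hj, rfl⟩, emb 2 D, ⟨D, rfl⟩, e⟩
  · rw [← sp_univ]
    exact v1_trn le_rfl
  · rw [← sp_univ, fx_trn]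
    refine sgn1 dt (fun a _ => dt_pm a) (fun a _ b _ => dt_mul a b)
      (fun a _ v hv => c6_aff_sp (fun j hj => absurd hj.1 hj.2) hv) (r := emb 2 (c6_rf 1))
      ⟨_, rfl⟩ (by rw [dt_emb, c6_dt_rf]) ?_
    rintro c hc _ ⟨D, rfl⟩ hD
    refine add_van_GL2 (fun D => c (emb 2 D)) (fun a b ha hb => ?_) D (by rwa [dt_emb] at hD)
    rw [map_mul]
    exact hc _ ⟨a, rfl⟩ _ ⟨b, rfl⟩ (by rwa [dt_emb]) (by rwa [dt_emb])

theorem c6_Q_iff {g : GLz (3 + 1)} : g ∈ (Fixv {bv 0, bv 1} : Subgroup (GLz (3 + 1))) ↔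
    g ∈ Par 3 ∧ (g : Mx (3 + 1)) *ᵥ bv 1 = bv 1 := by
  simp [mem_Fixv, Par]

theorem c6_Q_le : (Fixv {bv 0, bv 1} : Subgroup (GLz (3 + 1))) ≤ Par 3 :=
  fun _ hg => (c6_Q_iff.1 hg).1

theorem c6_trl_Q {a : Fin 3 → ℤ} :
    trl a ∈ (Fixv {bv 0, bv 1} : Subgroup (GLz (3 + 1))) ↔ a 0 = 0 := by
  rw [c6_Q_iff]
  constructor
  · intro h
    have h1 := c6_col h.2 0
    simpa [trl, trM] using h1
  · intro h
    refine ⟨trl_mem_Par a, c6_col' fun i => ?_⟩
    fin_cases i <;> simp [trl, trM, h]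

theorem c6_emb_Q {D : GLz 3} (hD : D ∈ Par 2) :
    emb 3 D ∈ (Fixv {bv 0, bv 1} : Subgroup (GLz (3 + 1))) := by
  rw [c6_Q_iff]
  refine ⟨emb_mem_Par D, c6_col' fun i => ?_⟩
  have h := mem_Par.1 hD
  refine Fin.cases ?_ (fun i' => ?_) i
  · rfl
  · have h1 : ((emb 3 D : GLz (3 + 1)) : Mx (3 + 1)) i'.succ 1 = (D : Mx 3) i' 0 := rfl
    rw [h1, h i']
    have h2 : (i'.succ = 1) = (i' = 0) := propext (Fin.succ_inj (b := 0))
    simp only [h2]

theorem c6_low {g : GLz (3 + 1)} (hg : g ∈ (Fixv {bv 0, bv 1} : Subgroup (GLz (3 + 1))))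
    (i : Fin 3) : lowM (g : Mx (3 + 1)) i 0 = if i = 0 then 1 else 0 := by
  have h := c6_col (c6_Q_iff.1 hg).2 i.succ
  have h2 : (i.succ = 1) = (i = 0) := propext (Fin.succ_inj (b := 0))
  simp only [h2] at h
  exact h

theorem c6_trn {g : GLz (3 + 1)} :
    g ∈ Trn ({j | j ≠ 0} : Set (Fin 3)) ↔ ∃ a : Fin 3 → ℤ, a 0 = 0 ∧ g = trl a := by
  constructor
  · rintro ⟨a, ha, rfl⟩
    exact ⟨a, ha 0 (fun h => h rfl), rfl⟩
  · rintro ⟨a, ha, rfl⟩
    refine ⟨a, fun j hj => ?_, rfl⟩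
    rw [not_not.1 hj, ha]

theorem v1_Q_aff : V1 (Fixv {bv 0, bv 1} : Subgroup (GLz (3 + 1))) aff ⊤ := by
  have hK : (Par 2).map (emb 3) ≤ (Fixv {bv 0, bv 1} : Subgroup (GLz (3 + 1))) := by
    rintro _ ⟨D, hD, rfl⟩
    exact c6_emb_Q hD
  refine ext1 (N := Trn {j | j ≠ 0}) (K := (Par 2).map (emb 3)) ?_ hK (act_aff.mono c6_Q_le)
    stb_top ?_ ?_ ?_ ?_
  · intro g hg
    obtain ⟨a, ha, rfl⟩ := c6_trn.1 hg
    exact c6_trl_Q.2 ha
  · intro g hg t ht
    obtain ⟨a, ha, rfl⟩ := c6_trn.1 ht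
    refine c6_trn.2 ⟨_, ?_, par_conj (c6_Q_le hg) a⟩
    simp [Matrix.vecMul, dotProduct, c6_low hg, ha]
  · intro g hg
    obtain ⟨D, a, hD, e⟩ := par_dec (c6_Q_le hg)
    have hD' : D ∈ Par 2 := mem_Par.2 fun i => by
      rw [hD]
      exact c6_low hg i
    have ha : trl a ∈ (Fixv {bv 0, bv 1} : Subgroup (GLz (3 + 1))) := by
      rw [eq_mul_inv_of_mul_eq e.symm]
      exact mul_mem hg (inv_mem (c6_emb_Q hD'))
    exact ⟨trl a, c6_trn.2 ⟨a, c6_trl_Q.1 ha, rfl⟩, emb 3 D, ⟨D, hD', rfl⟩, e⟩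
  · rw [← sp_univ]
    exact v1_trn (Set.subset_univ _)
  · rw [← sp_univ, fx_trn]
    refine sgn1 dt (fun a _ => dt_pm a) (fun a _ b _ => dt_mul a b)
      (fun a ha v hv => c6_aff_sp (fun j hj => ?_) hv) (r := emb 3 (emb 2 (c6_rf 1)))
      ⟨_, emb_mem_Par _, rfl⟩ (by rw [dt_emb, dt_emb, c6_dt_rf]) ?_
    · rw [not_not.1 hj.2]
      exact (c6_Q_iff.1 (hK ha)).2
    · rintro c hc _ ⟨D, hD, rfl⟩ hD'
      refine add_van_P2 (fun D => c (emb 3 D)) (fun a ha b hb ha' hb' => ?_) D hD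
        (by rwa [dt_emb] at hD')
      rw [map_mul]
      exact hc _ ⟨a, ha, rfl⟩ _ ⟨b, hb, rfl⟩ (by rwa [dt_emb]) (by rwa [dt_emb])

theorem v1_Q (d : ℕ) : V1 (Fixv {bv 0, bv 1}) (rho (n := 4)) (Hd 4 d) := by
  have h : (2 : Fin 3) ≠ 0 := by decide
  refine dehom1 (n := 3) c6_Q_le (ses1 (v0m_of c6_Q_le h (t := emb 3 (c6_tv h))
    (r := emb 3 (c6_rf 2)) (c6_emb_Q ?_) (lowM_emb _) (c6_emb_Q ?_) (lowM_emb _) d) v1_Q_aff)
  · refine mem_Par.2 fun i => ?_
    fin_cases i <;> simp [c6_tv]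
  · refine mem_Par.2 fun i => ?_
    fin_cases i <;> simp [c6_rf]

theorem v1_GL3 (m : ℕ) : V1 ⊤ (rho (n := 3)) (Hd 3 m) := by
  have h : (1 : Fin 2) ≠ 0 := by decide
  exact v1_top3_of (dehom1 (n := 2) le_rfl (ses1 (v0m_of le_rfl h (t := emb 2 (c6_tv h))
    (r := emb 2 (c6_rf 1)) (emb_mem_Par _) (lowM_emb _) (emb_mem_Par _) (lowM_emb _) m) v1_P2_aff))

end Pool.Agent.MP_cbe134_nt.V

end

section

/- Cocycles of the affine group modulo low degree become trivial on translations. -/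

open MvPolynomial Matrix

namespace Pool.Agent.MP_cbe134_nt.V

/-- cocycles modulo degree `d` -/
def c7_Coc (d : ℕ) (β : GLz (3 + 1) → Pn 3) : Prop :=
  ∀ a ∈ Par 3, ∀ b ∈ Par 3, aff a (β b) - β (a * b) + β a ∈ Ld 3 d

/-- the reflection in the origin -/
def c7_s : GLz (3 + 1) := emb 3 (-1)

/-- the unit translations -/
abbrev c7_t (j : Fin 3) : GLz (3 + 1) := trl (Pi.single j 1)

theorem c7_cob {d : ℕ} {β : GLz (3 + 1) → Pn 3} (h : c7_Coc d β) (v : Pn 3) :
    c7_Coc d fun a => β a - (aff a v - v) := fun a ha b hb => by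
  convert h a ha b hb using 1
  simp only [map_sub, act_aff.2 a ha b hb]
  abel

theorem c7_one {d : ℕ} {β : GLz (3 + 1) → Pn 3} (h : c7_Coc d β) : β 1 ∈ Ld 3 d := by
  simpa [act_aff.1] using h 1 (one_mem _) 1 (one_mem _)

theorem c7_par : c7_s ∈ Par 3 := emb_mem_Par _

theorem c7_dt : dt (-1 : GLz 3) = -1 := by
  simp [dt, det_neg]

theorem c7_ss : c7_s * c7_s = 1 := by
  rw [c7_s, ← map_mul, neg_mul_neg, one_mul, map_one]

theorem c7_low : lowM ((c7_s : GLz (3 + 1)) : Mx (3 + 1)) = -1 := lowM_emb _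

theorem c7_conj (a : Fin 3 → ℤ) : trl a * c7_s = c7_s * trl (-a) := by
  have := par_conj c7_par a
  rw [c7_low, vecMul_neg, vecMul_one] at this
  rw [← this, ← mul_assoc, ← mul_assoc, mul_inv_cancel, one_mul]

theorem c7_hom {M : ℕ} (hM : Odd M) {f : Pn 3} (hf : f ∈ Hd 3 M) : aff c7_s f = f := by
  rw [c7_s, aff_emb, rho, c7_dt, Units.coe_neg_one, transpose_neg, transpose_one]
  change (-1 : ℚ) • sub (-1) f = f
  rw [sub_neg 1 hf, sub_one, hM.neg_one_pow, smul_smul, neg_mul_neg, one_mul, one_smul]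

theorem c7_top {M : ℕ} (hM : Odd M) {f : Pn 3} (hf : f ∈ Ld 3 M) :
    homogeneousComponent M (aff c7_s f) = homogeneousComponent M f := by
  rw [top_aff _ hf, c7_low, c7_s, dt_emb, c7_dt, transpose_neg, transpose_one,
    sub_neg 1 (homogeneousComponent_mem M f), sub_one, hM.neg_one_pow, smul_smul, neg_mul_neg,
    one_mul, one_smul]

theorem c7_top' {M : ℕ} (a : Fin 3 → ℤ) {f : Pn 3} (hf : f ∈ Ld 3 M) :
    homogeneousComponent M (aff (trl a) f) = homogeneousComponent M f := by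
  rw [top_aff _ hf, lowM_trl, dt_trl, transpose_one, sub_one, one_smul]

theorem c7_zero {d M : ℕ} (h : d < M) {f : Pn 3} (hf : f ∈ Ld 3 d) :
    homogeneousComponent M f = 0 :=
  homogeneousComponent_eq_zero _ _ (((mem_restrictTotalDegree _ _ _).1 hf).trans_lt h)

theorem c7_pot {M : ℕ} (u : Fin 3 → Pn 3) (hu : ∀ j, u j ∈ Hd 3 M)
    (h : ∀ i j, pderiv i (u j) = pderiv j (u i)) : ∃ U ∈ Hd 3 (M + 1), ∀ i, pderiv i U = u i := by
  refine ⟨((M : ℚ) + 1)⁻¹ • ∑ j, X j * u j, Submodule.smul_mem _ _ (sum_mem fun j _ => ?_),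
    fun i => ?_⟩
  · rw [add_comm]
    exact (isHomogeneous_X ℚ j).mul (hu j)
  · have h1 : ∑ j, pderiv i (X j * u j) = ((M : ℚ) + 1) • u i := by
      simp only [Derivation.leibniz, smul_eq_mul, h i, Finset.sum_add_distrib,
        IsHomogeneous.sum_X_mul_pderiv (hu i), pderiv_X, add_smul, one_smul,
        Nat.cast_smul_eq_nsmul]
      simp [Pi.single_apply]
    rw [Derivation.map_smul, map_sum, h1, smul_smul, inv_mul_cancel₀ (by positivity), one_smul]

theorem c7_ind {d : ℕ} (hd : Even d) (m : ℕ) : ∀ β : GLz (3 + 1) → Pn 3, c7_Coc d β →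
    β c7_s ∈ Ld 3 d → (∀ j, β (c7_t j) ∈ Ld 3 (d + m)) →
    ∃ v, ∀ j, β (c7_t j) - (aff (c7_t j) v - v) ∈ Ld 3 d := by
  induction m with
  | zero => exact fun β _ _ h => ⟨0, fun j => by simpa using h j⟩
  | succ m ih =>
    intro β hβ hs ht
    replace ht : ∀ j, β (c7_t j) ∈ Ld 3 (d + m + 1) := ht
    rcases Nat.even_or_odd m with hm | hm
    · refine ih β hβ hs fun j => mem_Ld_pred (ht j) ?_
      have hM : Odd (d + m + 1) := (hd.add hm).add_one
      have h1 := hβ _ (trl_mem_Par (Pi.single j 1)) _ c7_par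
      have h2 := hβ _ c7_par _ (trl_mem_Par (-Pi.single j 1))
      have h3 := hβ _ (trl_mem_Par (-Pi.single j 1)) _ (trl_mem_Par (Pi.single j 1))
      rw [← trl_add, neg_add_cancel, trl_zero] at h3
      rw [c7_conj] at h1
      have h4 : β (c7_t j) + aff c7_s (aff (trl (-Pi.single j 1)) (β (c7_t j))) ∈ Ld 3 d := by
        convert add_mem (add_mem (_root_.sub_mem (_root_.sub_mem h1 h2) (aff_mem_Ld (c7_t j) hs)) hs)
          (aff_mem_Ld c7_s (add_mem h3 (c7_one hβ))) using 1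
        simp only [map_add, map_sub]
        abel
      have h5 := c7_zero (M := d + m + 1) (by omega) h4
      rw [map_add, c7_top hM (aff_mem_Ld _ (ht j)), c7_top' _ (ht j), ← two_smul ℚ] at h5
      exact (smul_eq_zero.1 h5).resolve_left two_ne_zero
    · obtain ⟨U, hU, hU'⟩ := c7_pot (fun j => homogeneousComponent (d + m + 1) (β (c7_t j)))
        (fun j => homogeneousComponent_mem _ _) fun i j => by
          have h1 := _root_.sub_mem (hβ _ (trl_mem_Par (Pi.single i 1)) _ (trl_mem_Par (Pi.single j 1)))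
            (hβ _ (trl_mem_Par (Pi.single j 1)) _ (trl_mem_Par (Pi.single i 1)))
          rw [← trl_add, ← trl_add, add_comm (Pi.single j 1)] at h1
          have h2 : (aff (c7_t i) (β (c7_t j)) - β (c7_t j)) -
              (aff (c7_t j) (β (c7_t i)) - β (c7_t i)) ∈ Ld 3 d := by
            convert h1 using 1
            abel
          have h3 := c7_zero (M := d + m) (by have := hm.pos; omega) h2
          rwa [map_sub, (taylor_trl i (ht j)).2, (taylor_trl j (ht i)).2, sub_eq_zero] at h3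
      have hL : U ∈ Ld 3 (d + m + 1 + 1) :=
        (mem_restrictTotalDegree _ _ _).2 (IsHomogeneous.totalDegree_le hU)
      obtain ⟨v, hv⟩ := ih _ (c7_cob hβ U) (by
        rwa [c7_hom (hd.add_odd hm).add_one.add_one hU, sub_self, sub_zero]) fun j =>
          mem_Ld_pred (_root_.sub_mem (ht j) (taylor_trl j hL).1) (by
            rw [map_sub, (taylor_trl j hL).2, homogeneousComponent_of_mem hU, if_pos rfl, hU',
              sub_self])
      refine ⟨U + v, fun j => ?_⟩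
      convert hv j using 1
      rw [map_add]
      abel

theorem c7_all {d : ℕ} {β : GLz (3 + 1) → Pn 3} (hβ : c7_Coc d β)
    (ht : ∀ j, β (c7_t j) ∈ Ld 3 d) (a : Fin 3 → ℤ) : β (trl a) ∈ Ld 3 d := by
  let K : AddSubgroup (Fin 3 → ℤ) :=
    { carrier := {a | β (trl a) ∈ Ld 3 d}
      add_mem' := fun {a b} ha hb => by
        have := _root_.sub_mem (add_mem (aff_mem_Ld (trl a) hb) ha)
          (hβ _ (trl_mem_Par a) _ (trl_mem_Par b))
        rw [← trl_add] at this
        change β (trl (a + b)) ∈ Ld 3 d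
        convert this using 1
        abel
      zero_mem' := by
        change β (trl 0) ∈ Ld 3 d
        rw [trl_zero]
        exact c7_one hβ
      neg_mem' := fun {a} ha => by
        have h := hβ _ (trl_mem_Par (-a)) _ (trl_mem_Par a)
        rw [← trl_add, neg_add_cancel, trl_zero] at h
        change β (trl (-a)) ∈ Ld 3 d
        convert _root_.sub_mem (add_mem h (c7_one hβ)) (aff_mem_Ld (trl (-a)) ha) using 1
        abel }
  change a ∈ K
  rw [pi_eq_sum_univ' a]
  exact sum_mem fun j _ => zsmul_mem (show Pi.single j 1 ∈ K from ht j) _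

theorem v1m_step {d : ℕ} (hd : Even d) (β : GLz (3 + 1) → Pn 3)
    (hβ : ∀ a ∈ Par 3, ∀ b ∈ Par 3, aff a (β b) - β (a * b) + β a ∈ Ld 3 d) :
    ∃ v : Pn 3, ∀ a : Fin 3 → ℤ, β (trl a) - (aff (trl a) v - v) ∈ Ld 3 d := by
  have h0 := c7_cob hβ (-(1 / 2 : ℚ) • β c7_s)
  obtain ⟨v, hv⟩ := c7_ind hd (∑ j, (β (c7_t j) - (aff (c7_t j) (-(1 / 2 : ℚ) • β c7_s) -
      -(1 / 2 : ℚ) • β c7_s)).totalDegree) _ h0 (by
      have h1 := hβ _ c7_par _ c7_par
      rw [c7_ss] at h1
      convert Submodule.smul_mem _ (1 / 2 : ℚ) (add_mem h1 (c7_one hβ)) using 1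
      rw [map_smul]
      module) fun j => (mem_restrictTotalDegree _ _ _).2 (le_add_left (Finset.single_le_sum
        (f := fun j => (β (c7_t j) - (aff (c7_t j) (-(1 / 2 : ℚ) • β c7_s) -
          -(1 / 2 : ℚ) • β c7_s)).totalDegree) (fun _ _ => Nat.zero_le _) (Finset.mem_univ j)))
  refine ⟨-(1 / 2 : ℚ) • β c7_s + v, fun a => ?_⟩
  convert c7_all (c7_cob h0 v) hv a using 1
  rw [map_add]
  abel

end Pool.Agent.MP_cbe134_nt.V

end
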