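import Pool.Agent.Mg.Fcbe134.G4ded4e

/- Finite identities checked by evaluation: values on the wheel. -/

namespace Pool.Agent.MP_cbe134_nt.V

theorem k_mU_u0 : chkG (mU [(1, u0L)] ++ gsm (-2) eps8) = true := by decide +kernel

theorem k_mU_k1 : mU [(1, k1L)] = [] := by decide +kernel

theorem k_mU_f : chkG (mU (bdL [(1, e02 :: u0L)]) ++ gsm (-1) n0) = true := by decide +kernel

end Pool.Agent.MP_cbe134_nt.V
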