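import Pool.Agent.Mg.Fcbe134.G4485fd
import Pool.Agent.Mg.Fcbe134.G4ded4e

/- The subdivided complete graph lies in a single cell of the second type. -/

open Matrix Finsupp

namespace Pool.Agent.MP_cbe134_nt.V

theorem w4_nrm {x a : V4} (h : x.nrm = a) : x = a ∨ x.neg = a := by
  rcases nrm_cases x with e | e
  · exact Or.inl (e.symm.trans h)
  · exact Or.inr (e.symm.trans h)

theorem w4_fix {A : M4} (hdet : A.det ≠ 0)
    (k1 : ∀ u ∈ s0L, (A.app u).nrm ∈ k1L.map V4.nrm)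
    (k2 : ∀ u u' : V4, (A.app u).nrm = (A.app u').nrm → u.nrm = u'.nrm) :
    (A.app e02).nrm = e02.nrm := by
  have k0 : ∀ u ∈ s0L, A.r3.dot u ≠ 0 →
      (A.app u).nrm = ⟨1, 0, 0, -1⟩ ∨ (A.app u).nrm = ⟨0, 0, 1, -1⟩ := by
    intro u hu hne
    have hk : ∀ x ∈ k1L.map V4.nrm, x.d = 0 ∨ x = ⟨1, 0, 0, -1⟩ ∨ x = ⟨0, 0, 1, -1⟩ := by decide
    refine (hk _ (k1 u hu)).resolve_left fun e => hne ?_
    rcases nrm_cases (A.app u) with e' | e' <;> rw [e'] at e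
    · exact e
    · exact neg_eq_zero.1 e
  have k3 : ∀ u u' u'' : V4, u ∈ s0L ∧ u' ∈ s0L ∧ u'' ∈ s0L ∧ u.nrm ≠ u'.nrm ∧
      u.nrm ≠ u''.nrm ∧ u'.nrm ≠ u''.nrm →
      A.r3.dot u = 0 ∨ A.r3.dot u' = 0 ∨ A.r3.dot u'' = 0 := by
    rintro u u' u'' ⟨h1, h2, h3, h4, h5, h6⟩
    by_contra hc
    simp only [not_or] at hc
    rcases k0 u h1 hc.1 with a | a <;> rcases k0 u' h2 hc.2.1 with b | b <;>
      rcases k0 u'' h3 hc.2.2 with c | c <;>
      first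
        | exact h4 (k2 _ _ (a.trans b.symm))
        | exact h5 (k2 _ _ (a.trans c.symm))
        | exact h6 (k2 _ _ (b.trans c.symm))
  have a1 := k3 ⟨1, 0, 0, 0⟩ ⟨0, 1, 0, 0⟩ ⟨0, 0, 1, 0⟩ (by decide)
  have a2 := k3 ⟨1, 0, 0, 0⟩ ⟨0, 1, 0, 0⟩ ⟨1, 0, 0, -1⟩ (by decide)
  have a3 := k3 ⟨1, 0, 0, 0⟩ ⟨0, 1, 0, 0⟩ ⟨0, 0, 1, -1⟩ (by decide)
  have a4 := k3 ⟨1, 0, 0, 0⟩ ⟨1, -1, 0, 0⟩ ⟨0, 0, 1, 0⟩ (by decide)
  have a5 := k3 ⟨1, 0, 0, 0⟩ ⟨1, -1, 0, 0⟩ ⟨1, 0, 0, -1⟩ (by decide)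
  have a6 := k3 ⟨1, 0, 0, 0⟩ ⟨1, -1, 0, 0⟩ ⟨0, 0, 1, -1⟩ (by decide)
  have a7 := k3 ⟨0, 0, 1, 0⟩ ⟨0, 1, 0, 0⟩ ⟨1, 0, 0, -1⟩ (by decide)
  have a8 := k3 ⟨0, 0, 1, 0⟩ ⟨0, 1, 0, 0⟩ ⟨0, 0, 1, -1⟩ (by decide)
  have a9 := k3 ⟨0, 0, 1, 0⟩ ⟨0, 1, -1, 0⟩ ⟨1, 0, 0, -1⟩ (by decide)
  have a10 := k3 ⟨0, 0, 1, 0⟩ ⟨0, 1, -1, 0⟩ ⟨0, 0, 1, -1⟩ (by decide)
  have a11 := k3 ⟨0, 1, 0, 0⟩ ⟨1, -1, 0, 0⟩ ⟨0, 1, -1, 0⟩ (by decide)
  have b1 := k0 ⟨1, 0, 0, -1⟩ (by decide)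
  have b2 := k0 ⟨0, 0, 1, -1⟩ (by decide)
  have b3 : (A.app ⟨1, 0, 0, -1⟩).nrm ≠ (A.app ⟨0, 0, 1, -1⟩).nrm :=
    fun e => absurd (k2 _ _ e) (by decide)
  have goal : A.app e02 = e02 ∨ (A.app e02).neg = e02 → (A.app e02).nrm = e02.nrm := by
    rintro (e | e)
    · rw [e]
    · rw [← nrm_neg, e]
  apply goal
  clear goal k0 k1 k2 k3
  obtain ⟨⟨a0, b0, c0, d0⟩, ⟨a1', b1', c1, d1⟩, ⟨a2', b2', c2, d2⟩, ⟨p0, p1, p2, p3⟩⟩ := A
  simp only [V4.dot, Int.add_def, Int.mul_def, mul_one, mul_zero, add_zero, zero_add,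
    mul_neg] at a1 a2 a3 a4 a5 a6 a7 a8 a9 a10 a11 b1 b2
  obtain rfl : p0 = 0 := by omega
  obtain rfl : p2 = 0 := by omega
  obtain rfl : p1 = 0 := by omega
  have hp : p3 ≠ 0 := by
    rintro rfl
    apply hdet
    have e : ∀ a b : ℤ, Int.sub a b = a - b := fun _ _ => rfl
    simp [M4.det, mn2, e]
  clear a1 a2 a3 a4 a5 a6 a7 a8 a9 a10 a11 hdet
  have en : ∀ a : ℤ, Int.neg a = -a := fun _ => rfl
  rcases b1 (by omega) with x | x <;> rcases b2 (by omega) with y | y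
  · exact absurd (x.trans y.symm) b3
  · rcases w4_nrm x with x | x <;> rcases w4_nrm y with y | y <;>
      simp only [M4.app, V4.neg, e02, V4.dot, Int.add_def, Int.mul_def, en, V4.mk.injEq] at x y ⊢ <;>
      omega
  · rcases w4_nrm x with x | x <;> rcases w4_nrm y with y | y <;>
      simp only [M4.app, V4.neg, e02, V4.dot, Int.add_def, Int.mul_def, en, V4.mk.injEq] at x y ⊢ <;>
      omega
  · exact absurd (x.trans y.symm) b3

theorem w4_cell : Cell (k1L.map V4.at).toFinset := by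
  refine cell_of_qA (fun A hA => ?_) ((List.toFinset_card_le _).trans (by decide))
  obtain ⟨v, hv, rfl⟩ := List.mem_map.1 (List.mem_toFinset.1 (Finset.mem_coe.1 hA))
  have h : ∀ v ∈ k1L, qAm.bil v v = 2 := by decide
  exact ⟨⟨v.toV, rfl⟩, (bil_at qAm v).symm.trans (h v hv)⟩

theorem ext_s0 {w : Mt} (γ : GLz 4)
    (h : (insert w (s0L.map V4.at).toFinset).image (cj γ) = (k1L.map V4.at).toFinset) :
    w = e02.at := by
  obtain ⟨A, hA⟩ := toM_surj (γ : Mt)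
  have hdet : A.det ≠ 0 := by
    rw [← toM_det, hA]
    exact (isUnits_det_units γ).ne_zero
  have hfix : cj γ e02.at = e02.at := by
    rw [← hA, ← at_app, at_eq_iff]
    refine w4_fix hdet (fun u hu => ?_) fun u u' e => ?_
    · rw [← mem_at, ← List.mem_toFinset, ← h, at_app, hA]
      exact Finset.mem_image_of_mem _
        (Finset.mem_insert_of_mem (List.mem_toFinset.2 (List.mem_map_of_mem hu)))
    · rw [← at_eq_iff, at_app, at_app, hA] at e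
      exact at_eq_iff.1 (cj_inj γ e)
  have hm : e02.at ∈ (k1L.map V4.at).toFinset :=
    List.mem_toFinset.2 (List.mem_map_of_mem List.mem_cons_self)
  rw [← h, Finset.mem_image] at hm
  obtain ⟨B, hB, e⟩ := hm
  rw [cj_inj γ (e.trans hfix.symm), Finset.mem_insert, List.mem_toFinset, mem_at] at hB
  exact (hB.resolve_right (by decide)).symm

theorem nm_k1_del (g : Pn 4) : Nm (br (k1L.map V4.at)) g (del Cell (br (s0L.map V4.at))) =
    Nm (br (k1L.map V4.at)) g (br (k1L.map V4.at)) := by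
  have hnd : (s0L.map V4.at).Nodup := nodup_at (by decide)
  have hnd1 : (k1L.map V4.at).Nodup := nodup_at (by decide)
  have hsub : (s0L.map V4.at).toFinset ⊆ (k1L.map V4.at).toFinset := fun A hA =>
    List.mem_toFinset.2 (List.mem_cons_of_mem _ (List.mem_toFinset.1 hA))
  have hs : Spans (s0L.map V4.at).toFinset := (w4_cell.mono hsub).spans (by
    rw [List.toFinset_card_of_nodup hnd]
    decide)
  have hz : br (k1L.map V4.at) ∈ Sup Spans := br_mem_Sup fun _ => hs.mono hsub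
  have he : e02.at ∈ Ext Cell (s0L.map V4.at).toFinset := by
    refine ⟨fun h => absurd (mem_at.1 (List.mem_toFinset.1 h)) (by decide), ?_⟩
    rw [← List.toFinset_cons]
    exact w4_cell
  rw [del_br hnd (W := (ext_fin hs).toFinset) fun w => (Set.Finite.mem_toFinset _).symm, map_sum,
    Finset.sum_eq_single_of_mem e02.at ((Set.Finite.mem_toFinset _).2 he)]
  · rfl
  · intro w hw hne
    have hw' := ((Set.Finite.mem_toFinset _).1 hw).1
    have hnw : (w :: s0L.map V4.at).Nodup :=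
      List.nodup_cons.2 ⟨fun h => hw' (List.mem_toFinset.2 h), hnd⟩
    rw [nm_apply hz]
    refine finsum_eq_zero_of_forall_eq_zero fun γ => ?_
    obtain ⟨ε, -, hε⟩ := br_nodup hnw
    obtain ⟨ε', -, hε'⟩ := br_nodup hnd1
    obtain ⟨ε'', -, hε''⟩ := act_single (cj_inj γ) (w :: s0L.map V4.at).toFinset
    rw [hε, hε', ← smul_single_one, map_smul, ga, hε'', map_smul, LinearMap.smul_apply, ip_single,
      single_eq_of_ne, mul_zero, smul_zero, zero_smul]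
    rw [List.toFinset_cons]
    exact fun h => hne (ext_s0 γ h)

end Pool.Agent.MP_cbe134_nt.V
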