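import Pool.Agent.Mg.Fcbe134.G558c3b
import Pool.Agent.Mg.Fcbe134.G293332
import Pool.Agent.Mg.Fcbe134.G45db98
import Pool.Agent.Mg.Fcbe134.Gb7408c
import Pool.Agent.Mg.Fcbe134.G4485fd
import Pool.Agent.Mg.Fcbe134.G49cffa
import Pool.Agent.Mg.Fcbe134.G8c5f16
import Pool.Agent.Mg.Fcbe134.G0a3af1
import Pool.Agent.Mg.Fcbe134.Gd1fa32
import Pool.Agent.Mg.Fcbe134.Ge6b5fc
import Pool.Agent.Mg.Fcbe134.G70d310

section

/- Vanishing of the second cohomology of `GL₄(ℤ)` in even forms twisted by the determinant. -/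

open MvPolynomial Matrix

namespace Pool.Agent.MP_cbe134_nt.V

theorem c8_top_rho {n : ℕ} (D : GLz n) (m : ℕ) (f : Pn n) :
    homogeneousComponent m (rho D f) = rho D (homogeneousComponent m f) := by
  simp only [rho, LinearMap.smul_apply, map_smul, AlgHom.toLinearMap_apply,
    sub_homogeneousComponent]

theorem c8_top_zero {n d : ℕ} {f : Pn n} (hf : f ∈ Ld n d) : homogeneousComponent (d + 1) f = 0 :=
  homogeneousComponent_eq_zero _ _ (Nat.lt_succ_of_le ((mem_restrictTotalDegree _ _ _).1 hf))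

theorem c8_trl {n d : ℕ} (a : Fin n → ℤ) {f : Pn n} (hf : f ∈ Ld n (d + 1)) :
    aff (trl a) f - f ∈ Ld n d := by
  refine mem_Ld_pred (Submodule.sub_mem _ (aff_mem_Ld _ hf) hf) ?_
  rw [map_sub, top_aff _ hf, dt_trl, lowM_trl, transpose_one, sub_one, one_smul, sub_self]

theorem c8_red {d : ℕ} (β : GLz (3 + 1) → Pn 3)
    (hβ : ∀ a ∈ Par 3, ∀ b ∈ Par 3, aff a (β b) - β (a * b) + β a ∈ Ld 3 d)
    (h0 : ∀ a, β (trl a) ∈ Ld 3 d) : ∃ w, ∀ g ∈ Par 3, β g - (aff g w - w) ∈ Ld 3 d := by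
  have h1 : ∀ g ∈ Par 3, β g ∈ Ld 3 (d + 1) := fun g hg => mem_Ld_succ fun j => by
    have e : trl (Pi.single j 1) * g = g * trl (Pi.single j 1 ᵥ* lowM (g : Mx (3 + 1))) := by
      rw [← par_conj hg]; group
    have a1 := hβ _ (trl_mem_Par (Pi.single j 1)) g hg
    have a2 := hβ g hg _ (trl_mem_Par (Pi.single j 1 ᵥ* lowM (g : Mx (3 + 1))))
    rw [e] at a1
    convert add_mem (Submodule.sub_mem _ (Submodule.sub_mem _ a1 a2) (h0 (Pi.single j 1)))
      (aff_mem_Ld g (h0 (Pi.single j 1 ᵥ* lowM (g : Mx (3 + 1))))) using 1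
    abel
  obtain ⟨w, w1, w2⟩ := v1_GL3 (d + 1) (fun D => homogeneousComponent (d + 1) (β (emb 3 D)))
    (fun D _ => homogeneousComponent_mem _ _) fun a _ b _ => by
      have a1 := c8_top_zero (hβ _ (emb_mem_Par a) _ (emb_mem_Par b))
      rw [map_add, map_sub, aff_emb, c8_top_rho, ← map_mul] at a1
      linear_combination (exp := 1) -a1
  have w3 : w ∈ Ld 3 (d + 1) :=
    (mem_restrictTotalDegree _ _ _).2 (IsHomogeneous.totalDegree_le w1)
  have w4 : homogeneousComponent (d + 1) w = w := by rw [homogeneousComponent_of_mem w1, if_pos rfl]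
  have h2 : ∀ D, β (emb 3 D) - (aff (emb 3 D) w - w) ∈ Ld 3 d := fun D => by
    refine mem_Ld_pred (Submodule.sub_mem _ (h1 _ (emb_mem_Par D))
      (Submodule.sub_mem _ (aff_mem_Ld _ w3) w3)) ?_
    rw [map_sub, map_sub, aff_emb, c8_top_rho, w4, ← w2 D trivial, sub_self]
  refine ⟨w, fun g hg => ?_⟩
  obtain ⟨D, a, -, rfl⟩ := par_dec hg
  convert Submodule.sub_mem _ (add_mem (Submodule.sub_mem _ (h0 a)
    (hβ _ (trl_mem_Par a) _ (emb_mem_Par D))) (aff_mem_Ld (trl a) (h2 D))) (c8_trl a w3) using 1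
  rw [act_aff.2 _ (trl_mem_Par a) _ (emb_mem_Par D), map_sub, map_sub]
  abel

theorem v1m_par {d : ℕ} (hd : Even d) : V1m (Par 3) aff (Ld 3 d) := by
  intro β hβ
  obtain ⟨v, hv⟩ := v1m_step hd β hβ
  obtain ⟨w, hw⟩ := c8_red (fun g => β g - (aff g v - v)) (fun a ha b hb => by
    convert hβ a ha b hb using 1
    rw [act_aff.2 a ha b hb, map_sub, map_sub]
    abel) hv
  refine ⟨v + w, fun g hg => ?_⟩
  convert hw g hg using 1
  rw [map_add]
  abel

theorem c8_v0 {S : Subgroup (GLz (3 + 1))} (h : emb 3 (-1) ∈ S) : V0 S aff (Sp ∅) := by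
  intro v hv h1
  have h2 := h1 _ h
  rw [Subalgebra.mem_toSubmodule, supported_empty, Algebra.mem_bot] at hv
  obtain ⟨c, rfl⟩ := hv
  have h3 : dt (-1 : GLz 3) = -1 := by
    simp [dt, det_neg]
  rw [aff_emb, rho, LinearMap.smul_apply, AlgHom.toLinearMap_apply, AlgHom.commutes, h3,
    neg_one_smul] at h2
  exact CharZero.neg_eq_self_iff.1 h2

theorem v2_par_aff : V2 (Par 3) aff ⊤ := by
  obtain ⟨κ, k1, k2⟩ := exists_kappa (n := 3)
  have hK : (emb 3).range ≤ Par 3 := by rintro _ ⟨D, rfl⟩; exact emb_mem_Par D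
  have hn : ∀ g ∈ Par 3, ∀ a ∈ Trn Set.univ, g⁻¹ * a * g ∈ Trn Set.univ := by
    rintro g hg _ ⟨a, -, rfl⟩
    exact ⟨_, fun j hj => absurd trivial hj, par_conj hg a⟩
  have hF : Fx (Trn (Set.univ : Set (Fin 3))) aff ⊤ = Sp ∅ := by
    rw [← sp_univ, fx_trn, Set.sdiff_self]
  have hP : Subgroup.zpowers (emb 3 (-1)) ≤ (emb 3).range := by
    rw [Subgroup.zpowers_le]; exact ⟨_, rfl⟩
  have hf : (Subgroup.zpowers (emb 3 (-1)) : Set (GLz (3 + 1))).Finite :=
    (isOfFinOrder_iff_pow_eq_one.2 ⟨2, two_pos, by rw [← map_pow]; simp⟩).finite_zpowers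
  have hc : ∀ g ∈ (emb 3).range, emb 3 (-1) ∈ cnj (Subgroup.zpowers (emb 3 (-1))) g := by
    rintro _ ⟨D, rfl⟩
    rw [mem_cnj, ← map_inv, ← map_mul, ← map_mul, mul_neg_one, neg_mul, inv_mul_cancel]
    exact Subgroup.mem_zpowers _
  refine ext2 (Trn_le_Par _) hK act_aff stb_top hn κ k1 k2 (sp_univ ▸ v1_trn subset_rfl)
    (sp_univ ▸ v2_trn subset_rfl) (amal2 hP (act_aff.mono hK)
      ((stb_Fx (Trn_le_Par _) act_aff stb_top hn).mono hK) (fin2 hf (act_aff.mono (hP.trans hK)))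
      (fun g _ => fin1 (hf.subset fun _ h => h.1) (act_aff.mono (inf_le_left.trans (hP.trans hK))))
      fun g hg g' hg' => ?_)
  rw [hF]
  exact c8_v0 ⟨⟨Subgroup.mem_zpowers _, hc g hg⟩, hc g' hg'⟩

theorem v2_GL4 {d : ℕ} (hd : Even d) : V2 ⊤ (rhoD (n := 4)) (Hd 4 d) :=
  v2_rhoD (v2_top_of (v1_Q d) (dehom2 le_rfl (ses2 act_aff (v1m_par hd) v2_par_aff)))

end Pool.Agent.MP_cbe134_nt.V

end

section

/- Every element of both eigenspaces comes from the facet between two domains of type `D₄`. -/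

open Matrix Finsupp

namespace Pool.Agent.MP_cbe134_nt.V

theorem exists_prim {d : ℕ} (hd : Even d) (Φ : Ch Mt →ₗ[ℚ] Pn 4)
    (hT : ∀ x ∈ Wc 8, Φ x ∈ Hd 4 d) (hα : ∀ a, ∀ x ∈ Wc 8, Φ (ga a x) = rhoI a (Φ x))
    (hδ : ∀ y ∈ Wc 7, Φ (del Cell y) = 0) : ∃ Ψ : Ch Mt →ₗ[ℚ] Pn 4,
      (∀ x ∈ Wc 9, Ψ x ∈ Hd 4 d) ∧ (∀ a, ∀ x ∈ Wc 9, Ψ (ga a x) = rhoI a (Ψ x)) ∧
      ∀ x ∈ Wc 8, Ψ (del Cell x) = Φ x :=
  zigzag ga act_ga (Wc 9) (Wc 8) (Wc 7) (stb_Wc 9) (stb_Wc 8) (del Cell)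
    (fun _ hx => del_mem_Wc (j := 8) (by norm_num) hx)
    (fun a _ hx => del_ga a (Wc_le_spans (j := 8) (by norm_num) hx)) va va_one va_mul
    {q | Vert q} (fun a _ hq => va_vert a hq) (fun _ hq => vstab_fin hq) dt dt_sq dt_mul dd
    (fun _ hx => dd_mem hx) (fun a _ hx => dd_ga a hx) (fun _ hx => dd_aug hx)
    (fun _ hx => dd_del hx) (fun _ hx h => ex8 hx h) (fun _ hx h => ex9 hx h)
    (fun _ hq _ hq' => ex10 hq hq') rhoI act_rhoI (Hd 4 d) stb_rhoI (v2_GL4 hd) Φ hT hα hδ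

theorem chi33M_toM (A : M4) : chi33M A.toM = chi33 A := by
  unfold chi33M chi33
  rw [← toM_pb, toM_det]
  by_cases h : A.pb q1m = q1m
  · rw [if_pos h, if_pos (congrArg M4.toM h)]
  · rw [if_neg h, if_neg fun e => h (toM_inj e), Int.cast_neg]

theorem l6_inv {Ψ : Ch Mt →ₗ[ℚ] Pn 4} (hΨ : ∀ a, ∀ x ∈ Wc 9, Ψ (ga a x) = rhoI a (Ψ x))
    {A B : M4} (h : A.mul B = M4.one) {x : Ch Mt} (hx : x ∈ Wc 9) :
    sub A.toM (Ψ x) = Ψ (act (cj B.toM) x) := by
  have h1 : A.toM * B.toM = 1 := by rw [← toM_mul, h, toM_one]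
  exact (hΨ ⟨B.toM, A.toM, mul_eq_one_comm.1 h1, h1⟩ x hx).symm

theorem l6_R5 {Ψ : Ch Mt →ₗ[ℚ] Pn 4} (hΨ : ∀ a, ∀ x ∈ Wc 9, Ψ (ga a x) = rhoI a (Ψ x))
    {w : CL} (hw : chn w ∈ Wc 9) : opR R5 (Ψ (chn w)) = Ψ (chn (opC R5 w)) := by
  rw [chn_opC, opR_eq, k_R5.1]
  simp only [List.map_cons, List.map_nil, List.sum_cons, List.sum_nil, Int.cast_one, one_smul,
    add_zero, map_add]
  rw [l6_inv hΨ (A := M4.one) (B := M4.one) (by decide) hw,
    l6_inv hΨ (A := rM) (B := ((rM.mul rM).mul rM).mul rM) (by decide) hw,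
    l6_inv hΨ (A := rM.mul rM) (B := (rM.mul rM).mul rM) (by decide) hw,
    l6_inv hΨ (A := (rM.mul rM).mul rM) (B := rM.mul rM) (by decide) hw,
    l6_inv hΨ (A := ((rM.mul rM).mul rM).mul rM) (B := rM) (by decide) hw]
  abel

theorem l6_sign {A : M4} (hA : A ∈ G33) :
    act (cj A.toM) (br (s33.map V4.at)) = (chi33 A : ℚ) • br (s33.map V4.at) := by
  have h := chkC_sound (k_sign33 A hA)
  rw [chn_cons, chn_cons, chn_nil, add_zero, Int.cast_one, one_smul, Int.cast_neg, neg_smul,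
    add_neg_eq_zero] at h
  rw [act_br_at]
  exact h

theorem l6_mem {d : ℕ} {Ψ : Ch Mt →ₗ[ℚ] Pn 4} (hT : ∀ x ∈ Wc 9, Ψ x ∈ Hd 4 d)
    (hΨ : ∀ a, ∀ x ∈ Wc 9, Ψ (ga a x) = rhoI a (Ψ x)) : Ψ (br (s33.map V4.at)) ∈ I33 d := by
  refine ⟨hT _ s33_mem, fun M hM => ?_⟩
  have hdet := (stab_group (q := q33) (by decide) mem_G33 nodup_G33).2.2.2.2.2 M hM
  obtain ⟨γ, hγ⟩ := exists_GL hdet
  obtain ⟨A, hA, rfl⟩ := List.mem_map.1 hM
  have h1 := sub_rhoI γ (Ψ (br (s33.map V4.at)))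
  rw [← hΨ γ _ s33_mem, ga, hγ, l6_sign hA, map_smul, map_smul] at h1
  have h2 : (chi33 A : ℚ) * chi33 A = 1 := by
    rw [toM_det] at hdet
    unfold chi33
    split_ifs
    · exact_mod_cast hdet
    · rw [Int.cast_neg, neg_mul_neg]
      exact_mod_cast hdet
  rw [chi33M_toM]
  conv_rhs => rw [← h1, smul_smul, h2, one_smul]

theorem inter_le_map {d : ℕ} (hd : Even d) :
    Rsp shX1 d ⊓ Rsp shY1 d ≤ (I33 d).map (opR R5) := by
  rintro g ⟨hx, hy⟩
  obtain ⟨Ψ, hT, hΨ, hδ⟩ := exists_prim hd (Nm (chn zL) g)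
    (fun x _ => nm_mem zL_spans (Rsp_le _ _ hx) x) (fun a x _ => nm_ga zL_spans g a x)
    fun y h => cocycle hd hx hy (Wc_le_spans le_rfl h)
  have h1 := hδ _ u0_mem
  rw [nm_u0, del_u0, map_add] at h1
  have e : chn [(1, e02 :: u0L), (1, e13 :: u0L)] =
      br ((e02 :: u0L).map V4.at) + br ((e13 :: u0L).map V4.at) := by
    rw [chn_cons, chn_one, Int.cast_one, one_smul]
  have h2 := l6_R5 hΨ (w := [(1, e02 :: u0L), (1, e13 :: u0L)])
    (e ▸ add_mem fac02_mem fac13_mem)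
  rw [chkC_sound k_facets, map_zero, e] at h2
  have h3 := recover hd hy
  rw [← h1, map_add, h2, zero_add] at h3
  refine ⟨(-200 : ℚ)⁻¹ • Ψ (br (s33.map V4.at)), Submodule.smul_mem _ _ (l6_mem hT hΨ), ?_⟩
  rw [map_smul, h3, smul_smul, inv_mul_cancel₀ (by norm_num), one_smul]

end Pool.Agent.MP_cbe134_nt.V

end

section

/- The invariants of `D₄` embed into those of the facet and are killed by the cyclic sum. -/

open Matrix

namespace Pool.Agent.MP_cbe134_nt.V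

/-- the rotation of order five -/
def l7_r : Mt := rM.toM

/-- its inverse -/
def l7_s : Mt := l7_r * l7_r * l7_r * l7_r

theorem l7_sr : l7_s * l7_r = 1 := by
  have h := congrArg M4.toM k_R5.2.1
  simp only [toM_mul, toM_one] at h
  exact h

theorem l7_rs : l7_r * l7_s = 1 := by
  rw [← l7_sr]
  simp only [l7_s, Matrix.mul_assoc]

theorem l7_ss : l7_s * l7_s = l7_r * l7_r * l7_r := by
  have h : l7_s * l7_s = (l7_s * l7_r) * (l7_r * l7_r * l7_r) := by
    simp only [l7_s, Matrix.mul_assoc]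
  rw [h, l7_sr, Matrix.one_mul]

theorem l7_pb_r : pb l7_r q2m.toM = q1m.toM := by
  have h := congrArg M4.toM k_R5.2.2.1
  rw [toM_pb] at h
  exact h

theorem l7_pb_s : pb l7_s q1m.toM = q2m.toM := by
  rw [← l7_pb_r, ← pb_mul, l7_rs, pb_one]

theorem l7_det_r : l7_r.det = 1 := by
  have h : rM.det = 1 := by decide +kernel
  rw [l7_r, toM_det, h]

theorem l7_det_s : l7_s.det = 1 := by
  simp only [l7_s, Matrix.det_mul, l7_det_r, mul_one]

theorem l7_ne : q2m.toM ≠ q1m.toM := by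
  intro h
  have h1 := toM_inj h
  exact absurd h1 (by decide +kernel)

theorem l7_act {d : ℕ} {b : Pn 4} (hb : b ∈ ID4 d) {A : Mt} (hA : pb A q1m.toM = q1m.toM) :
    sub A b = (A.det : ℚ) • b := by
  obtain ⟨B, rfl⟩ := toM_surj A
  have h1 : B.pb q1m = q1m := toM_inj (by rw [toM_pb]; exact hA)
  exact hb.2 B.toM (List.mem_map_of_mem ((mem_GD B).2 h1))

/-- the comparison map -/
noncomputable def l7_io : Pn 4 →ₗ[ℚ] Pn 4 := LinearMap.id - (sub l7_s).toLinearMap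

theorem l7_io_apply (b : Pn 4) : l7_io b = b - sub l7_s b := rfl

theorem l7_mem {d : ℕ} {b : Pn 4} (hb : b ∈ ID4 d) : l7_io b ∈ I33 d := by
  refine ⟨?_, ?_⟩
  · rw [l7_io_apply]
    exact Submodule.sub_mem _ hb.1 (sub_mem _ hb.1)
  · intro A hA
    obtain ⟨B, hB, rfl⟩ := List.mem_map.1 hA
    rw [l7_io_apply, map_sub, sub_sub]
    rcases k_swap33 B hB with ⟨h1, h2⟩ | ⟨h1, h2⟩
    · have h1' : pb B.toM q1m.toM = q1m.toM := by rw [← toM_pb, h1]
      have h2' : pb B.toM q2m.toM = q2m.toM := by rw [← toM_pb, h2]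
      have h3 : pb (l7_s * B.toM * l7_r) q1m.toM = q1m.toM := by
        rw [pb_mul, pb_mul, l7_pb_s, h2', l7_pb_r]
      have h4 : l7_s * B.toM = (l7_s * B.toM * l7_r) * l7_s := by
        rw [Matrix.mul_assoc (l7_s * B.toM), l7_rs, Matrix.mul_one]
      have h5 : (l7_s * B.toM * l7_r).det = B.toM.det := by
        rw [Matrix.det_mul, Matrix.det_mul, l7_det_r, l7_det_s, one_mul, mul_one]
      rw [h4, ← sub_sub, l7_act hb h3, l7_act hb h1', h5, map_smul, chi33M, if_pos h1', smul_sub]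
    · have h1' : pb B.toM q1m.toM = q2m.toM := by rw [← toM_pb, h1]
      have h2' : pb B.toM q2m.toM = q1m.toM := by rw [← toM_pb, h2]
      have h3 : pb (B.toM * l7_r) q1m.toM = q1m.toM := by
        rw [pb_mul, h1', l7_pb_r]
      have h4 : B.toM = (B.toM * l7_r) * l7_s := by
        rw [Matrix.mul_assoc, l7_rs, Matrix.mul_one]
      have h5 : (B.toM * l7_r).det = B.toM.det := by
        rw [Matrix.det_mul, l7_det_r, mul_one]
      have h6 : pb (l7_s * B.toM) q1m.toM = q1m.toM := by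
        rw [pb_mul, l7_pb_s, h2']
      have h7 : (l7_s * B.toM).det = B.toM.det := by
        rw [Matrix.det_mul, l7_det_s, one_mul]
      have h8 : sub B.toM b = (B.toM.det : ℚ) • sub l7_s b := by
        conv_lhs => rw [h4]
        rw [← sub_sub, l7_act hb h3, h5, map_smul]
      have h9 : ¬ pb B.toM q1m.toM = q1m.toM := by rw [h1']; exact l7_ne
      rw [h8, l7_act hb h6, h7, chi33M, if_neg h9, neg_smul, smul_sub, neg_sub]

theorem l7_kill (b : Pn 4) : opR R5 (l7_io b) = 0 := by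
  have e1 : l7_s * (l7_r * l7_r) = l7_r := by
    rw [← Matrix.mul_assoc, l7_sr, Matrix.one_mul]
  have e2 : l7_s * (l7_r * l7_r * l7_r) = l7_r * l7_r := by
    rw [← Matrix.mul_assoc, e1]
  have e3 : l7_s * (l7_r * l7_r * l7_r * l7_r) = l7_r * l7_r * l7_r := by
    rw [← Matrix.mul_assoc, e2]
  have hr : rM.toM = l7_r := rfl
  have hs : l7_r * l7_r * l7_r * l7_r = l7_s := rfl
  rw [k_R5.1, l7_io_apply]
  simp only [opR_cons, opR_nil, toM_mul, toM_one, hr, map_sub, sub_sub, Int.cast_one, one_smul,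
    Matrix.mul_one, l7_sr, e1, e2, e3, sub_one]
  rw [hs]
  abel

theorem l7_inj {d : ℕ} {b : Pn 4} (hb : b ∈ ID4 d) (h : l7_io b = 0) : b = 0 := by
  have h1 : sub l7_s b = b := by
    rw [l7_io_apply, sub_eq_zero] at h
    exact h.symm
  have h3 : sub (l7_r * l7_r * l7_r) b = b := by
    rw [← l7_ss, ← sub_sub, h1, h1]
  obtain ⟨k1, k2, k3, k4, k5, k6, k7, k8⟩ := k_words
  have hr : rM.toM = l7_r := rfl
  have a1 : sub hT.toM b = b := by
    rw [l7_act hb (by rw [← toM_pb, k1]), toM_det, k4, Int.cast_one, one_smul]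
  have a2 : sub hR1.toM b = b := by
    rw [l7_act hb (by rw [← toM_pb, k2]), toM_det, k5, Int.cast_one, one_smul]
  have a3 : sub hR2.toM b = -b := by
    rw [l7_act hb (by rw [← toM_pb, k3]), toM_det, k6, Int.cast_neg, Int.cast_one, neg_one_smul]
  have b1 := congrArg M4.toM k7
  have b2 := congrArg M4.toM k8
  simp only [toM_mul, hr] at b1 b2
  have c1 : (1 + Matrix.single (0 : Fin 4) (2 : Fin 4) (1 : ℤ) : Mt) =
      M4.toM ⟨⟨1, 0, 1, 0⟩, ⟨0, 1, 0, 0⟩, ⟨0, 0, 1, 0⟩, ⟨0, 0, 0, 1⟩⟩ := by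
    ext i j
    fin_cases i <;> fin_cases j <;> simp [M4.toM]
  have c2 : (Matrix.diagonal (Function.update 1 (0 : Fin 4) (-1 : ℤ)) : Mt) =
      M4.toM ⟨⟨-1, 0, 0, 0⟩, ⟨0, 1, 0, 0⟩, ⟨0, 0, 1, 0⟩, ⟨0, 0, 0, 1⟩⟩ := by
    ext i j
    fin_cases i <;> fin_cases j <;> simp [M4.toM]
  refine kill (i := 0) (j := 2) (c := 1) (by decide) one_ne_zero ?_ ?_
  · rw [c1, ← b1, ← sub_sub, a1, h3]
  · rw [c2, ← b2, ← sub_sub (l7_r * l7_r * l7_r), ← sub_sub hR2.toM,
      ← sub_sub (l7_r * l7_r * l7_r), a2, h3, a3, map_neg, h3]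

theorem map_add_le (d : ℕ) :
    Module.finrank ℚ ((I33 d).map (opR R5)) + Module.finrank ℚ (ID4 d) ≤
      Module.finrank ℚ (I33 d) := by
  have : FiniteDimensional ℚ (I33 d) := fin_of_le (d := d) fun f hf => hf.1
  have h1 := LinearMap.finrank_range_add_finrank_ker ((opR R5).domRestrict (I33 d))
  rw [LinearMap.range_domRestrict] at h1
  let j : ID4 d →ₗ[ℚ] LinearMap.ker ((opR R5).domRestrict (I33 d)) :=
    LinearMap.codRestrict _
      (LinearMap.codRestrict (I33 d) (l7_io.domRestrict (ID4 d)) fun b => l7_mem b.2)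
      fun b => by
        rw [LinearMap.mem_ker, LinearMap.domRestrict_apply]
        exact l7_kill b
  have hj : Function.Injective j := by
    rw [injective_iff_map_eq_zero]
    intro b hb
    have h2 : l7_io b = 0 := congrArg (fun x => x.1.1) hb
    exact Subtype.ext (l7_inj b.2 h2)
  have h3 := LinearMap.finrank_le_finrank_of_injective hj
  omega

end Pool.Agent.MP_cbe134_nt.V

end

section

/- The relations of the double shuffle space in depth three. -/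

open MvPolynomial Matrix

namespace Pool.Agent.MP_cbe134_nt.V

/-- the value at a point -/
noncomputable def d3_E (f : Pn 3) (a b c : ℚ) : ℚ := eval ![a, b, c] f

theorem d3_ev (f : Pn 3) (a b c : ℚ) : ev f [a, b, c] = d3_E f a b c := by
  rw [ev, d3_E]
  congr 2
  funext i
  fin_cases i <;> rfl

theorem d3_eval (f : Pn 3) (x : Fin 3 → ℚ) : eval x f = d3_E f (x 0) (x 1) (x 2) := by
  rw [d3_E]
  congr 2
  funext i
  fin_cases i <;> rfl

theorem d3_eval_sub (a b c d e f g h i : ℤ) (F : Pn 3) (x : Fin 3 → ℚ) :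
    eval x (sub (d3_M (a, b, c, d, e, f, g, h, i)) F) =
      d3_E F (a * x 0 + b * x 1 + c * x 2) (d * x 0 + e * x 1 + f * x 2)
        (g * x 0 + h * x 1 + i * x 2) := by
  rw [eval_sub, d3_eval]
  simp [mv, d3_M, Fin.sum_univ_three]

variable {d : ℕ} {f : Pn 3}

theorem d3_relY (hf : f ∈ DS 3 d) (a b c : ℚ) :
    d3_E f a b c + d3_E f b a c + d3_E f b c a = 0 := by
  have h := (hf.2 [a] [b, c] (by simp) (by simp) rfl).1
  simp only [shuf, List.map_cons, List.map_nil, List.cons_append, List.nil_append,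
    List.sum_cons, List.sum_nil, d3_ev] at h
  linarith

theorem d3_relX (hf : f ∈ DS 3 d) (a b c : ℚ) :
    d3_E f a b c + d3_E f a (a - b + c) c + d3_E f a (a - b + c) (a - b) = 0 := by
  have h := (hf.2 [a - b] [b - c, c] (by simp) (by simp) rfl).2
  simp only [shuf, psum, List.map_cons, List.map_nil, List.cons_append, List.nil_append,
    List.sum_cons, List.sum_nil, d3_ev] at h
  have e1 : a - b + (b - c + (c + 0)) = a := by ring
  have e2 : b - c + (c + 0) = b := by ring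
  have e3 : b - c + (a - b + (c + 0)) = a := by ring
  have e4 : a - b + (c + 0) = a - b + c := by ring
  have e5 : b - c + (c + (a - b + 0)) = a := by ring
  have e6 : c + (a - b + 0) = a - b + c := by ring
  rw [e1, e2, e3, e4, e5, e6] at h
  simp only [add_zero] at h
  linarith

theorem d3_rY (hf : f ∈ DS 3 d) (a b c : ℚ) : d3_E f c b a = d3_E f a b c := by
  have h1 := d3_relY hf a b c
  have h2 := d3_relY hf c b a
  linarith

theorem d3_rX (hf : f ∈ DS 3 d) (a b c : ℚ) : d3_E f a (a - c) (a - b) = d3_E f a b c := by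
  have h1 := d3_relX hf a b c
  have h2 := d3_relX hf a (a - c) (a - b)
  have e1 : a - (a - c) + (a - b) = a - b + c := by ring
  have e2 : a - (a - c) = c := by ring
  rw [e1, e2] at h2
  linarith

theorem d3_neg_E (hf : f ∈ Hd 3 d) (a b c : ℚ) :
    d3_E f (-a) (-b) (-c) = (-1) ^ d * d3_E f a b c := by
  rw [d3_E, d3_E, ← eval_smul_Hd hf]
  congr 2
  funext i
  fin_cases i <;> simp

theorem d3_odd (hd : Odd d) (hf : f ∈ DS 3 d) : f = 0 := by
  have rot : ∀ a b c : ℚ, d3_E f (b - a) (c - a) (-a) = -d3_E f a b c := by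
    intro a b c
    have h1 := d3_neg_E hf.1 a (a - c) (a - b)
    rw [hd.neg_one_pow, d3_rX hf, neg_sub, neg_sub] at h1
    rw [← d3_rY hf, h1]
    ring
  refine poly_ext fun x => ?_
  rw [d3_eval, map_zero]
  generalize x 0 = a
  generalize x 1 = b
  generalize x 2 = c
  have h0 := d3_relY hf a b c
  have h1 := d3_relY hf (-b) (a - b) (c - b)
  have h2 := rot b a c
  have h3 := rot (-b) (a - b) (c - b)
  have h4 := rot (a - b) (-b) (c - b)
  have h5 := rot (b - c) (-c) (a - c)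
  have h6 := rot c b a
  have h7 := d3_rY hf a b c
  have h8 := d3_rY hf b c a
  have e1 : a - b - -b = a := by ring
  have e2 : c - b - -b = c := by ring
  have e3 : -b - (a - b) = -a := by ring
  have e4 : c - b - (a - b) = c - a := by ring
  rw [e1, e2, neg_neg] at h3
  rw [e3, e4, neg_sub] at h4
  have h9 := d3_rY hf (b - a) (c - a) (-a)
  have h10 := rot a b c
  linarith

theorem d3_zero (hf : f ∈ DS 3 0) : f = 0 := by
  have hc : ∀ a b c : ℚ, d3_E f a b c = d3_E f 0 0 0 := by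
    intro a b c
    have h := eval_smul_Hd hf.1 0 ![a, b, c]
    rw [pow_zero, one_mul, zero_smul, d3_eval f 0] at h
    exact h.symm
  refine poly_ext fun x => ?_
  have h0 := d3_relY hf 0 0 0
  rw [d3_eval, map_zero, hc]
  linarith

/-- the product of a list of matrices -/
def d3_prod (w : List T9) : T9 := w.foldr d3_mul d3_one

theorem d3_fix_prod {g : Pn 3} (w : List T9) (h : ∀ a ∈ w, sub (d3_M a) g = g) :
    sub (d3_M (d3_prod w)) g = g := by
  induction w with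
  | nil => rw [show d3_prod [] = d3_one from rfl, d3_M_one, sub_one]
  | cons a w ih =>
    rw [show d3_prod (a :: w) = d3_mul a (d3_prod w) from rfl, d3_M_mul, ← sub_sub,
      h a List.mem_cons_self, ih fun b hb => h b (List.mem_cons_of_mem _ hb)]

def d3_gens : List T9 := [(0, 0, 1, 0, 1, 0, 1, 0, 0), (1, 0, 0, 1, 0, -1, 1, -1, 0), d3_neg]

def d3_words : List (List (Fin 3)) :=
  [[2], [2, 1], [2, 1, 0, 1], [2, 0], [1, 0, 1, 0], [2, 0, 1, 0], [2, 0, 1], [2, 1, 0], [0, 1, 0],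
   [2, 1, 0, 1, 0], [0], [1, 0, 1], [1], [1, 0], [0, 1], []]

theorem d3_D_words : ∀ a ∈ d3_D, ∃ w ∈ d3_words, d3_tr a = d3_prod (w.map d3_gens.get) := by
  decide +kernel

theorem d3_fix_D (hd : Even d) (hf : f ∈ DS 3 d) : ∀ a ∈ d3_D, sub (d3_M a)ᵀ f = f := by
  intro a ha
  obtain ⟨w, -, e⟩ := d3_D_words a ha
  rw [← d3_M_tr, e]
  refine d3_fix_prod _ fun b hb => ?_
  obtain ⟨i, -, rfl⟩ := List.mem_map.1 hb
  fin_cases i
  · refine poly_ext fun x => ?_
    change eval x (sub (d3_M (0, 0, 1, 0, 1, 0, 1, 0, 0)) f) = _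
    rw [d3_eval_sub, d3_eval f x, ← d3_rY hf (x 0)]
    congr 1 <;> push_cast <;> ring
  · refine poly_ext fun x => ?_
    change eval x (sub (d3_M (1, 0, 0, 1, 0, -1, 1, -1, 0)) f) = _
    rw [d3_eval_sub, d3_eval f x, ← d3_rX hf (x 0)]
    congr 1 <;> push_cast <;> ring
  · change sub (d3_M d3_neg) f = f
    rw [d3_M_neg, sub_neg_even _ hf.1 hd, sub_one]

theorem d3_sumY (hf : f ∈ DS 3 d) :
    f + sub (d3_M (0, 1, 0, 1, 0, 0, 0, 0, 1)) f + sub (d3_M (0, 1, 0, 0, 0, 1, 1, 0, 0)) f = 0 := by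
  refine poly_ext fun x => ?_
  rw [map_add, map_add, d3_eval_sub, d3_eval_sub, d3_eval f x, map_zero,
    ← d3_relY hf (x 0) (x 1) (x 2)]
  congr 2 <;> congr 1 <;> push_cast <;> ring

theorem d3_sumX (hf : f ∈ DS 3 d) :
    f + sub (d3_M (1, 0, 0, 1, -1, 1, 0, 0, 1)) f +
      sub (d3_M (1, 0, 0, 1, -1, 1, 1, -1, 0)) f = 0 := by
  refine poly_ext fun x => ?_
  rw [map_add, map_add, d3_eval_sub, d3_eval_sub, d3_eval f x, map_zero,
    ← d3_relX hf (x 0) (x 1) (x 2)]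
  congr 2 <;> congr 1 <;> push_cast <;> ring

theorem d3_orth {g : Pn 3} (a b : T9) (h : f + sub (d3_M a) f + sub (d3_M b) f = 0)
    (ha : sub (d3_M (d3_tr a)) g = g) (hb : sub (d3_M (d3_tr b)) g = g) : Bp 3 f g = 0 := by
  have h1 := Bp_sub (d3_M (d3_tr a)) f g
  have h2 := Bp_sub (d3_M (d3_tr b)) f g
  rw [ha, d3_M_tr, Matrix.transpose_transpose] at h1
  rw [hb, d3_M_tr, Matrix.transpose_transpose] at h2
  have h3 := congrArg (fun u => Bp 3 u g) h
  simp only [map_add, LinearMap.add_apply, h1, h2, map_zero, LinearMap.zero_apply] at h3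
  linarith

end Pool.Agent.MP_cbe134_nt.V

end

section

/- The double shuffle space in depth three. -/

namespace Pool.Agent.MP_cbe134_nt.V

open Matrix

/-- the average over the list -/
noncomputable def d3_av (L : List T9) : Pn 3 →ₗ[ℚ] Pn 3 :=
  (L.length : ℚ)⁻¹ • (L.map fun a => (sub (d3_M a)).toLinearMap).sum

theorem d3_av_apply (L : List T9) (g : Pn 3) :
    d3_av L g = (L.length : ℚ)⁻¹ • (L.map fun a => sub (d3_M a) g).sum := by
  rw [d3_av, LinearMap.smul_apply]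
  congr 1
  induction L with
  | nil => rfl
  | cons a L ih => simp only [List.map_cons, List.sum_cons, LinearMap.add_apply, ih]; rfl

theorem d3_av_mem {L : List T9} (h : d3_Grp L) {d : ℕ} {g : Pn 3} (hg : g ∈ Hd 3 d) :
    d3_av L g ∈ d3_I L d := by
  have := avg_mem (L.map d3_M) (fun _ => 1) (h.1.map d3_M_inj) (d3_hmul h) (d3_hinv h)
    (by simp) (by simp) hg
  rw [d3_av_apply]
  refine Submodule.smul_mem _ _ ?_
  simpa only [List.map_map, Function.comp_def, one_smul, d3_I] using this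

theorem d3_len {L : List T9} (h : d3_Grp L) : (L.length : ℚ) ≠ 0 :=
  Nat.cast_ne_zero.2 (List.length_pos_of_mem h.2.1).ne'

theorem d3_av_fix {L : List T9} (h : d3_Grp L) {d : ℕ} {g : Pn 3} (hg : g ∈ d3_I L d) :
    d3_av L g = g := by
  rw [d3_av_apply, List.map_congr_left (d3_mem_I.1 hg).2, List.map_const', List.sum_replicate,
    ← Nat.cast_smul_eq_nsmul ℚ, smul_smul, inv_mul_cancel₀ (d3_len h), one_smul]

theorem d3_av_Bp {L : List T9} (h : d3_Grp L) {f : Pn 3} (hf : ∀ a ∈ L, sub (d3_M a)ᵀ f = f)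
    (g : Pn 3) : Bp 3 f (d3_av L g) = Bp 3 f g := by
  have e : ∀ a ∈ L, (Bp 3 f ∘ fun a => sub (d3_M a) g) a = Bp 3 f g := fun a ha => by
    rw [Function.comp_apply, ← Bp_sub, hf a ha]
  rw [d3_av_apply, map_smul, map_list_sum, List.map_map, List.map_congr_left e, List.map_const',
    List.sum_replicate, nsmul_eq_mul, smul_eq_mul, inv_mul_cancel_left₀ (d3_len h)]

theorem d3_I_odd {L : List T9} (h : d3_Grp L) {d : ℕ} (hd : Odd d) : d3_I L d = ⊥ := by
  rw [eq_bot_iff]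
  intro g hg
  obtain ⟨h1, h2⟩ := d3_mem_I.1 hg
  have h3 := h2 _ h.2.2.1
  rw [d3_M_neg, sub_neg _ h1, sub_one, hd.neg_one_pow, neg_one_smul] at h3
  have h4 : (2 : ℚ) • g = 0 := by
    rw [two_smul]
    nth_rewrite 1 [← h3]
    exact neg_add_cancel g
  simpa using h4

def d3_w0 : List T9 :=
  [(-1, -1, -1, 0, 1, 1, 0, -1, 0), (-1, -1, -1, 0, 1, 0, 0, 0, 1),
   (-1, -1, 0, 0, 0, -1, 0, 1, 1), (-1, -1, -1, 0, 1, 0, 0, 0, 1)]

def d3_w1 : List T9 := (0, 1, 0, 1, 0, 0, 0, 0, 1) :: (d3_w0 ++ [(0, 1, 0, 1, 0, 0, 0, 0, 1)])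

def d3_w2 : List T9 := (0, 0, 1, 0, 1, 0, 1, 0, 0) :: (d3_w0 ++ [(0, 0, 1, 0, 1, 0, 1, 0, 0)])

theorem d3_inf {d : ℕ} (hd : 0 < d) : d3_I d3_Gx d ⊓ d3_I d3_Gy d = ⊥ := by
  rw [eq_bot_iff]
  rintro g ⟨hx, hy⟩
  obtain ⟨h1, hx⟩ := d3_mem_I.1 hx
  obtain ⟨-, hy⟩ := d3_mem_I.1 hy
  have key : ∀ w : List T9, (∀ a ∈ w, a ∈ d3_Gx ∨ a ∈ d3_Gy) → sub (d3_M (d3_prod w)) g = g :=
    fun w hw => d3_fix_prod w fun a ha => (hw a ha).elim (hx a) (hy a)
  have k0 := key d3_w0 (by decide +kernel)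
  have k1 := key d3_w1 (by decide +kernel)
  have k2 := key d3_w2 (by decide +kernel)
  rw [show d3_M (d3_prod d3_w0) = 1 + Matrix.single 0 2 1 by decide +kernel] at k0
  rw [show d3_M (d3_prod d3_w1) = 1 + Matrix.single 1 2 1 by decide +kernel] at k1
  rw [show d3_M (d3_prod d3_w2) = 1 + Matrix.single 2 0 1 by decide +kernel] at k2
  refine eq_zero_of_indep h1 hd fun i => ?_
  fin_cases i
  · exact indep_of_transv (by decide) one_ne_zero k0
  · exact indep_of_transv (by decide) one_ne_zero k1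
  · exact indep_of_transv (by decide) one_ne_zero k2

theorem d3_even {d : ℕ} (hd : 0 < d) (he : Even d) :
    Module.finrank ℚ (DS 3 d) + Module.finrank ℚ (d3_I d3_Gx d) +
      Module.finrank ℚ (d3_I d3_Gy d) ≤ Module.finrank ℚ (d3_I d3_D d) := by
  have h := red_dim (d := d) (d3_av d3_D)
    (fun g hg => (d3_mem_I.1 (d3_av_mem d3_grp_D hg)).1)
    (fun g hg => d3_av_fix d3_grp_D (d3_av_mem d3_grp_D hg))
    (DS 3 d) (d3_I d3_D d) (d3_I d3_Gx d) (d3_I d3_Gy d) (fun f hf => hf.1)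
    (fun g => ⟨fun hg => ⟨(d3_mem_I.1 hg).1, d3_av_fix d3_grp_D hg⟩,
      fun hg => hg.2 ▸ d3_av_mem d3_grp_D hg.1⟩)
    (fun g hg => d3_mem_I.2 ⟨(d3_mem_I.1 hg).1,
      fun a ha => (d3_mem_I.1 hg).2 a (d3_D_sub.1 a ha)⟩)
    (fun g hg => d3_mem_I.2 ⟨(d3_mem_I.1 hg).1,
      fun a ha => (d3_mem_I.1 hg).2 a (d3_D_sub.2 a ha)⟩)
    (fun f hf g _ hg => by rw [← d3_av_Bp d3_grp_D (d3_fix_D he hf), hg, map_zero])
    (fun f hf g hg => d3_orth _ _ (d3_sumX hf) ((d3_mem_I.1 hg).2 _ (by decide +kernel))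
      ((d3_mem_I.1 hg).2 _ (by decide +kernel)))
    (fun f hf g hg => d3_orth _ _ (d3_sumY hf) ((d3_mem_I.1 hg).2 _ (by decide +kernel))
      ((d3_mem_I.1 hg).2 _ (by decide +kernel)))
  rwa [d3_inf hd, finrank_bot, add_zero] at h

theorem ds3_le (d : ℕ) : (Module.finrank ℚ (DS 3 d) : ℚ) ≤ PowerSeries.coeff d ser3 := by
  rcases Nat.eq_zero_or_pos d with rfl | hd
  · rw [show DS 3 0 = ⊥ from eq_bot_iff.2 fun f hf => d3_zero hf, finrank_bot]
    simp [ser3]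
  · rw [d3_coeff d hd.ne']
    rcases Nat.even_or_odd d with he | ho
    · have h : ((_ : ℕ) : ℚ) ≤ (_ : ℕ) := Nat.cast_le.2 (d3_even hd he)
      push_cast at h
      linarith
    · rw [show DS 3 d = ⊥ from eq_bot_iff.2 fun f hf => d3_odd ho hf, d3_I_odd d3_grp_D ho,
        d3_I_odd d3_grp_Gx ho, d3_I_odd d3_grp_Gy ho, finrank_bot]
      simp

end Pool.Agent.MP_cbe134_nt.V

end

section

/- The Broadhurst-Kreimer upper bound in depths at most four. -/

open PowerSeries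

namespace Pool.Agent.MP_cbe134_nt.V

theorem ds4_le (d : ℕ) : (Module.finrank ℚ (DS 4 d) : ℚ) ≤ coeff d ser4 := by
  have hI : I33 d ≤ Hd 4 d := fun _ h => h.1
  have h2 := map_add_le d
  have h3 := dim_diff d
  rcases Nat.even_or_odd d with hd | hd
  · have h1 := ds4_red hd
    haveI : FiniteDimensional ℚ (I33 d) := fin_of_le hI
    have h4 := Submodule.finrank_mono (inter_le_map hd)
    have h5 : Module.finrank ℚ (DS 4 d) + Module.finrank ℚ (ID4 d) ≤
        Module.finrank ℚ (I33 d) := by omega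
    have h6 : ((Module.finrank ℚ (DS 4 d) + Module.finrank ℚ (ID4 d) : ℕ) : ℚ) ≤
        (Module.finrank ℚ (I33 d) : ℚ) := by exact_mod_cast h5
    push_cast at h6
    linarith
  · rw [ds4_odd hd, finrank_bot]
    have h5 : Module.finrank ℚ (ID4 d) ≤ Module.finrank ℚ (I33 d) := by omega
    have h6 : (Module.finrank ℚ (ID4 d) : ℚ) ≤ (Module.finrank ℚ (I33 d) : ℚ) := by
      exact_mod_cast h5
    push_cast
    linarith

theorem bd_Tm {G2 G3 G4 : Gr} (h2 : Bd G2 (X ^ 2 * ser2)) (h3 : Bd G3 (X ^ 3 * ser3))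
    (h4 : Bd G4 (X ^ 4 * ser4)) (r : ℕ) (hr : r ≤ 4) : Bd (Tm G2 G3 G4 r) (uS r) := by
  have o1 : Bd Od (pS 1) := by simpa using bd_Od_pow 1
  interval_cases r
  · exact bd_one
  · rw [← count_one]
    exact o1
  · rw [← count_two]
    exact h2.add (bd_Od_pow 2)
  · rw [← count_three]
    exact (h3.add (h2.mul o1)).add (bd_Od_pow 3)
  · rw [← count_four]
    exact (((h4.add (h3.mul o1)).add h2.sq).add (h2.mul (bd_Od_pow 2))).add (bd_Od_pow 4)

theorem main (k r : ℕ) (hr : r ≤ 4) : (grDim r k : ℚ) ≤ bkCoeff k r := by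
  obtain ⟨G2, g2, h2⟩ := exists_gens 2 le_rfl ser2 ds2_le
  obtain ⟨G3, g3, h3⟩ := exists_gens 3 (by norm_num) ser3 ds3_le
  obtain ⟨G4, g4, h4⟩ := exists_gens 4 (by norm_num) ser4 ds4_le
  have hb : Bd (Sm G2 G3 G4 r) (bS r) := by
    rcases r with _ | r
    · exact bd_one
    · exact (bd_Tm h2 h3 h4 (r + 1) hr).add (bd_Ev.mul (bd_Tm h2 h3 h4 r (by omega)))
  rw [bkCoeff_eq k r hr]
  haveI := (hb k).1
  have h := grDim_le (Fil_le_Sm g2 g3 g4 r hr k)
  refine le_trans ?_ (hb k).2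
  exact_mod_cast h

end Pool.Agent.MP_cbe134_nt.V

end
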