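import Pool.Agent.Mg.Fcbe134.G49cffa
import Pool.Agent.Mg.Fcbe134.G152aea
import Pool.Agent.Mg.Fcbe134.G293332
import Pool.Agent.Mg.Fcbe134.Gc8e3fa
import Pool.Agent.Mg.Fcbe134.G9f9944
import Pool.Agent.Mg.Fcbe134.Gb7408c
import Pool.Agent.Mg.Fcbe134.G4ded4e
import Pool.Agent.Mg.Fcbe134.G8c32bb
import Pool.Agent.Mg.Fcbe134.G7c5977
import Pool.Agent.Mg.Fcbe134.Ge8b39d

section

/- The double shuffle space is at least as large as the intersection of the two eigenspaces. -/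

open Matrix

namespace Pool.Agent.MP_cbe134_nt.V

theorem w2_rel {G : ℚ → ℚ → ℚ → ℚ → ℚ} {g : List ℚ → ℚ}
    (hg : ∀ a b c e, g [a, b, c, e] = G a b c e)
    (h1 : ∀ a b c e, G a b c e + G b a c e + G b c a e + G b c e a = 0)
    (h2 : ∀ a b c e, G a b c e + G a c b e + G a c e b + G c a b e + G c a e b + G c e a b = 0)
    {u v : List ℚ} (hu : u ≠ []) (hv : v ≠ []) (h : u.length + v.length = 4) :
    ((shuf u v).map g).sum = 0 := by
  match u, v, hu, hv, h with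
  | [a], [b, c, e], _, _, _ =>
    simp only [shuf, List.map_cons, List.map_nil, List.cons_append, List.nil_append,
      List.sum_cons, List.sum_nil, hg]
    linear_combination h1 a b c e
  | [a, b], [c, e], _, _, _ =>
    simp only [shuf, List.map_cons, List.map_nil, List.cons_append, List.nil_append,
      List.sum_cons, List.sum_nil, hg]
    linear_combination h2 a b c e
  | [a, b, c], [e], _, _, _ =>
    simp only [shuf, List.map_cons, List.map_nil, List.cons_append, List.nil_append,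
      List.sum_cons, List.sum_nil, hg]
    linear_combination h1 e a b c
  | [_], [_], _, _, h => simp at h
  | [_], [_, _], _, _, h => simp at h
  | [_], _ :: _ :: _ :: _ :: _, _, _, h => simp only [List.length_cons] at h; omega
  | [_, _], [_], _, _, h => simp at h
  | [_, _], _ :: _ :: _ :: _, _, _, h => simp only [List.length_cons] at h; omega
  | [_, _, _], _ :: _ :: _, _, _, h => simp only [List.length_cons] at h; omega
  | _ :: _ :: _ :: _ :: _, _ :: _, _, _, h => simp only [List.length_cons] at h; omega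

theorem mem_ds4 {d : ℕ} {f : Pn 4} (hf : f ∈ Hd 4 d) (h1 : opR (gtr shY1) f = 0)
    (h2 : opR (gtr shY2) f = 0) (h3 : opR (gtr shX1) f = 0) (h4 : opR (gtr shX2) f = 0) :
    f ∈ DS 4 d := by
  refine ⟨hf, fun u v hu hv h => ⟨w2_rel (l9_ev f) (fun a b c e => ?_) (fun a b c e => ?_) hu hv h,
    w2_rel (G := fun a b c e => l9F f (a + b + c + e) (b + c + e) (c + e) e)
      (fun a b c e => ?_) (fun a b c e => ?_) (fun a b c e => ?_) hu hv h⟩⟩
  · have h := congrArg (MvPolynomial.eval ![a, b, c, e]) h1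
    simp [gtr, shY1, opR_cons, opR_nil, M4.tr, l9_eval] at h
    linear_combination h
  · have h := congrArg (MvPolynomial.eval ![a, b, c, e]) h2
    simp [gtr, shY2, opR_cons, opR_nil, M4.tr, l9_eval] at h
    linear_combination h
  · simp only [psum, List.sum_cons, List.sum_nil, l9_ev, add_zero, add_assoc]
  · have h := congrArg (MvPolynomial.eval ![a + b + c + e, b + c + e, c + e, e]) h3
    simp [gtr, shX1, opR_cons, opR_nil, M4.tr, l9_eval] at h
    linear_combination (norm := ring_nf) h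
  · have h := congrArg (MvPolynomial.eval ![a + b + c + e, b + c + e, c + e, e]) h4
    simp [gtr, shX2, opR_cons, opR_nil, M4.tr, l9_eval] at h
    linear_combination (norm := ring_nf) h

theorem w2_ext {x y : Pn 4} (h : ∀ g, Bp 4 x g = Bp 4 y g) : x = y :=
  sub_eq_zero.1 (apol_def (by rw [map_sub (Bp 4), LinearMap.sub_apply, h, sub_self]))

theorem w2_gmul (a b : GR) (f : Pn 4) :
    opR (gtr (gmul a b)) f = opR (gtr a) (opR (gtr b) f) :=
  w2_ext fun g => by rw [Bp_opR, Bp_opR, Bp_opR, opR_gmul]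

theorem w2_append (a b : GR) (f : Pn 4) :
    opR (gtr (a ++ b)) f = opR (gtr a) f + opR (gtr b) f := by
  rw [gtr, List.map_append, opR_append]
  rfl

theorem w2_gsm (c : ℤ) (a : GR) (f : Pn 4) : opR (gtr (gsm c a)) f = (c : ℚ) • opR (gtr a) f :=
  w2_ext fun g => by rw [map_smul, LinearMap.smul_apply, Bp_opR, Bp_opR, opR_gsm, map_smul]

theorem w2_chk {a : GR} (h : chkG a = true) {d : ℕ} (hd : Even d) {f : Pn 4} (hf : f ∈ Hd 4 d) :
    opR (gtr a) f = 0 :=
  apol_def (by rw [Bp_opR, chkG_sound h hd (opR_mem _ hf), map_zero])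

/-- the forms of degree `d` on which `p` acts as the scalar `c` -/
noncomputable def w2E (p : Pn 4 →ₗ[ℚ] Pn 4) (c : ℚ) (d : ℕ) : Submodule ℚ (Pn 4) :=
  Hd 4 d ⊓ LinearMap.eqLocus p (c • LinearMap.id)

theorem w2_mem {p : Pn 4 →ₗ[ℚ] Pn 4} {c : ℚ} {d : ℕ} {f : Pn 4} :
    f ∈ w2E p c d ↔ f ∈ Hd 4 d ∧ p f = c • f := Iff.rfl

theorem w2_split {d : ℕ} {p : Pn 4 →ₗ[ℚ] Pn 4} (hp : ∀ g ∈ Hd 4 d, p g ∈ Hd 4 d)
    (hpp : ∀ g ∈ Hd 4 d, p (p g) = (10 : ℚ) • p g) :
    Module.finrank ℚ (Hd 4 d) ≤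
      Module.finrank ℚ (w2E p 10 d) + Module.finrank ℚ (w2E p 0 d) := by
  have := fin_of_le (show w2E p 10 d ≤ Hd 4 d from inf_le_left)
  have := fin_of_le (show w2E p 0 d ≤ Hd 4 d from inf_le_left)
  have h : Hd 4 d ≤ w2E p 10 d ⊔ w2E p 0 d := fun g hg => by
    rw [← add_sub_cancel ((1 / 10 : ℚ) • p g) g]
    refine Submodule.add_mem_sup (Submodule.smul_mem _ _ (w2_mem.2 ⟨hp g hg, hpp g hg⟩))
      (w2_mem.2 ⟨Submodule.sub_mem _ hg (Submodule.smul_mem _ _ (hp g hg)), ?_⟩)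
    rw [map_sub, map_smul, hpp g hg]
    module
  exact (Submodule.finrank_mono h).trans (Submodule.finrank_add_le_finrank_add_finrank _ _)

/-- the forms fixed by the idempotent and killed by two shuffle operators -/
noncomputable def w2L (s1 s2 : GR) (d : ℕ) : Submodule ℚ (Pn 4) :=
  w2E (opR (gtr eD)) 10 d ⊓ (LinearMap.ker (opR (gtr s1)) ⊓ LinearMap.ker (opR (gtr s2)))

theorem w2_half {d : ℕ} (hd : Even d) {s1 s2 E J Ji : GR}
    (h1 : chkG (gmul s1 E) = true ∧ chkG (gmul s2 E) = true)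
    (h2 : chkG (gmul eD E ++ gsm (-10) E) = true)
    (h3 : chkG (E ++ gmul (gmul Ji E) J ++ gsm (-20) eD) = true) :
    Module.finrank ℚ (w2E (opR (gtr eD)) 10 d) ≤ 2 * Module.finrank ℚ (w2L s1 s2 d) := by
  have := fin_of_le (show w2L s1 s2 d ≤ Hd 4 d from inf_le_left.trans inf_le_left)
  have hE : ∀ g ∈ Hd 4 d, opR (gtr E) g ∈ w2L s1 s2 d := fun g hg => by
    have h := w2_chk h2 hd hg
    rw [w2_append, w2_gmul, w2_gsm] at h
    push_cast at h
    rw [neg_smul, add_neg_eq_zero] at h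
    exact ⟨w2_mem.2 ⟨opR_mem _ hg, h⟩, (w2_gmul _ _ _).symm.trans (w2_chk h1.1 hd hg),
      (w2_gmul _ _ _).symm.trans (w2_chk h1.2 hd hg)⟩
  have h4 : w2E (opR (gtr eD)) 10 d ≤ w2L s1 s2 d ⊔ (w2L s1 s2 d).map (opR (gtr Ji)) :=
    fun g hg => by
      obtain ⟨h5, h6⟩ := w2_mem.1 hg
      have h := w2_chk h3 hd h5
      rw [w2_append, w2_append, w2_gmul, w2_gmul, w2_gsm, h6] at h
      push_cast at h
      have h7 : g = (1 / 200 : ℚ) •
          (opR (gtr E) g + opR (gtr Ji) (opR (gtr E) (opR (gtr J) g))) := by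
        linear_combination (norm := module) (-1 / 200 : ℚ) • h
      rw [h7]
      exact Submodule.smul_mem _ _ (Submodule.add_mem_sup (hE g h5)
        ⟨_, hE _ (opR_mem _ h5), rfl⟩)
  have h5 := Submodule.finrank_mono h4
  have h6 := Submodule.finrank_add_le_finrank_add_finrank (w2L s1 s2 d)
    ((w2L s1 s2 d).map (opR (gtr Ji)))
  have h7 := Submodule.finrank_map_le (opR (gtr Ji)) (w2L s1 s2 d)
  omega

theorem w2_orth {d : ℕ} {s1 s2 : GR} {f g : Pn 4} (hf : f ∈ w2L s1 s2 d) (hg : g ∈ Rsp s1 d) :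
    Bp 4 f g = 0 := by
  obtain ⟨g, -, rfl⟩ := hg
  rw [LinearMap.comp_apply, ← Bp_opR, (w2_mem.1 hf.1).2, map_smul, LinearMap.smul_apply,
    ← Bp_opR, LinearMap.mem_ker.1 hf.2.1, map_zero, LinearMap.zero_apply, smul_zero]

theorem ds4_ge {d : ℕ} (hd : Even d) :
    Module.finrank ℚ (Rsp shX1 d ⊓ Rsp shY1 d : Submodule ℚ (Pn 4)) ≤
      Module.finrank ℚ (DS 4 d) := by
  have hH : ∀ p c, w2E p c d ≤ Hd 4 d := fun _ _ => inf_le_left
  have hL : ∀ s1 s2, w2L s1 s2 d ≤ w2E (opR (gtr eD)) 10 d := fun _ _ => inf_le_left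
  have hR : Rsp shX1 d ⊓ Rsp shY1 d ≤ w2E (opR eD) 10 d := by
    rintro _ ⟨⟨g, hg, rfl⟩, -⟩
    rw [LinearMap.comp_apply]
    exact w2_mem.2 ⟨opR_mem _ (opR_mem _ hg), l9_idem hd (opR_mem _ hg)⟩
  have := fin_of_le (hR.trans (hH _ _))
  have := fin_of_le (hH (opR eD) 0)
  have := fin_of_le ((hL shX1 shX2).trans (hH _ _))
  have := fin_of_le ((hL shY1 shY2).trans (hH _ _))
  have := fin_of_le (show DS 4 d ≤ Hd 4 d from fun f hf => hf.1)
  have h1 := w2_split (p := opR eD) (d := d) (fun g hg => opR_mem _ hg) fun g hg => l9_idem hd hg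
  have h2 := w2_split (p := opR (gtr eD)) (d := d) (fun g hg => opR_mem _ hg) fun g hg => by
    have h := w2_chk k_idem hd hg
    rw [w2_append, w2_gmul, w2_gsm] at h
    push_cast at h
    rwa [neg_smul, add_neg_eq_zero] at h
  have h3 := Bp_dim (w2E (opR (gtr eD)) 0 d) (w2E (opR eD) 10 d) (hH _ _) (hH _ _)
    fun f hf g hg => by
      have h := Bp_opR eD f g
      rw [(w2_mem.1 hf).2, (w2_mem.1 hg).2, map_smul, map_smul, LinearMap.smul_apply, zero_smul,
        eq_comm, smul_eq_zero_iff_right (by norm_num)] at h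
      exact h
  have h4 := Bp_dim (w2L shX1 shX2 d ⊔ w2L shY1 shY2 d)
    ((Rsp shX1 d ⊓ Rsp shY1 d) ⊔ w2E (opR eD) 0 d) ((sup_le (hL _ _) (hL _ _)).trans (hH _ _))
    (sup_le (hR.trans (hH _ _)) (hH _ _)) fun f hf =>
      (show _ ≤ LinearMap.ker (Bp 4 f) from sup_le (fun g hg => by
        obtain ⟨x, hx, y, hy, rfl⟩ := Submodule.mem_sup.1 hf
        rw [LinearMap.mem_ker, map_add, LinearMap.add_apply, w2_orth hx hg.1, w2_orth hy hg.2,
          add_zero]) fun g hg => by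
        have h := Bp_opR eD f g
        rw [(w2_mem.1 (sup_le (hL _ _) (hL _ _) hf)).2, (w2_mem.1 hg).2, map_smul, map_smul,
          LinearMap.smul_apply, zero_smul, smul_eq_zero_iff_right (by norm_num)] at h
        exact h)
  have h5 := Submodule.finrank_sup_add_finrank_inf_eq (Rsp shX1 d ⊓ Rsp shY1 d)
    (w2E (opR eD) 0 d)
  have h6 : (Rsp shX1 d ⊓ Rsp shY1 d) ⊓ w2E (opR eD) 0 d = ⊥ := eq_bot_iff.2 fun g hg => by
    have h := (w2_mem.1 (hR hg.1)).2
    rw [(w2_mem.1 hg.2).2, zero_smul, eq_comm, smul_eq_zero_iff_right (by norm_num)] at h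
    exact h
  rw [h6, finrank_bot] at h5
  have h7 := Submodule.finrank_sup_add_finrank_inf_eq (w2L shX1 shX2 d) (w2L shY1 shY2 d)
  have h8 := Submodule.finrank_mono (show w2L shX1 shX2 d ⊓ w2L shY1 shY2 d ≤ DS 4 d from
    fun f hf => mem_ds4 hf.1.1.1 hf.2.2.1 hf.2.2.2 hf.1.2.1 hf.1.2.2)
  have hx := w2_half hd k_killX k_absX k_sumX
  have hy := w2_half hd k_killY k_absY k_sumY
  omega

end Pool.Agent.MP_cbe134_nt.V

end

section

/- Values of cochains on explicit cells and separation of orbits. -/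

open Matrix Finsupp

namespace Pool.Agent.MP_cbe134_nt.V

theorem w3_supp {p : Finset Mt → Prop} {z : Ch Mt} (hz : z ∈ Sup p) {l : List Mt} (hl : l.Nodup)
    (γ : GLz 4) (h : ip (ga γ (br l)) z ≠ 0) : p (l.map (cj (γ : Mt))).toFinset := by
  obtain ⟨ε, -, hε⟩ := br_nodup (hl.map (cj_inj γ))
  rw [ga, act_br, hε, ip_single] at h
  exact mem_Sup_iff.1 hz _ (right_ne_zero_of_mul h)

theorem w3_stab (γ : GLz 4) (h : ∀ v ∈ u0L, cj (γ : Mt) v.at ∈ Mn qAm.toM) :
    pb (γ : Mt) qAm.toM = qAm.toM := by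
  have hsub : (((u0L.map V4.at).toFinset : Finset Mt) : Set Mt) ⊆ Mn (pb (γ : Mt) qAm.toM) := by
    intro A hA
    rw [Finset.mem_coe, List.mem_toFinset, List.mem_map] at hA
    obtain ⟨v, hv, rfl⟩ := hA
    rw [mem_Mn_pb]
    exact h v hv
  have hd := det_pb γ qAm.toM
  rcases vert_u0 (vert_qA.pb γ) hsub with h1 | h1 | h1
  · exact h1
  · rw [h1, toM_det, toM_det] at hd
    exact absurd hd (by decide)
  · rw [h1, toM_det, toM_det] at hd
    exact absurd hd (by decide)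

theorem w3_img {z : Ch Mt} {M : Set Mt} (hz : z ∈ Sup fun S => (S : Set Mt) ⊆ M) {l : List V4}
    (hl : (l.map V4.at).Nodup) (γ : GLz 4) (h : ip (ga γ (br (l.map V4.at))) z ≠ 0) :
    ∀ v ∈ l, cj (γ : Mt) v.at ∈ M := fun _ hv =>
  w3_supp hz hl γ h (Finset.mem_coe.2 (List.mem_toFinset.2
    (List.mem_map_of_mem (List.mem_map_of_mem hv))))

theorem w3_sum {L : List M4} (hnd : L.Nodup) (hdet : ∀ A ∈ L, A.det * A.det = 1)
    (F : Mt → Pn 4) (hF : ∀ γ : GLz 4, F γ ≠ 0 → ∃ A ∈ L, A.toM = γ) :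
    ∑ᶠ γ : GLz 4, F γ = (L.map fun A => F A.toM).sum := by
  have hinj : Set.InjOn (Units.val : GLz 4 → Mt)
      (Units.val ⁻¹' (((L.map M4.toM).toFinset : Finset Mt) : Set Mt)) :=
    Units.val_injective.injOn
  rw [finsum_eq_sum_of_support_subset
    (s := (L.map M4.toM).toFinset.preimage Units.val hinj)]
  · refine (Finset.sum_preimage Units.val _ hinj F ?_).trans ?_
    · intro A hA hn
      obtain ⟨B, hB, rfl⟩ := List.mem_map.1 (List.mem_toFinset.1 hA)
      obtain ⟨γ, hγ⟩ := l1_GL (hdet B hB)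
      exact absurd ⟨γ, hγ⟩ hn
    · rw [List.sum_toFinset _ (hnd.map fun _ _ => toM_inj), List.map_map]
      rfl
  · intro γ hγ
    rw [Finset.mem_coe, Finset.mem_preimage, List.mem_toFinset, List.mem_map]
    exact hF γ hγ

theorem nm_u0_gen {z : CL} (h : ∀ p ∈ z, ∀ v ∈ p.2, v.nrm ∈ minA) (hz : chn z ∈ Sup Spans)
    (g : Pn 4) : Nm (chn z) g (br (u0L.map V4.at)) = opR (mU z) g := by
  have hz' : chn z ∈ Sup fun S => (S : Set Mt) ⊆ Mn qAm.toM := by
    refine chn_mem_Sup fun s hs _ A hA => ?_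
    rw [Finset.mem_coe, List.mem_toFinset, List.mem_map] at hA
    obtain ⟨v, hv, rfl⟩ := hA
    rw [mn_qA, Finset.mem_coe, List.mem_toFinset, ← at_nrm]
    exact List.mem_map_of_mem (h s hs v hv)
  obtain ⟨-, hmem, -, -, -, hdet⟩ := stab_group (q := qAm) (by decide) mem_GA nodup_GA
  rw [nm_apply hz]
  refine (w3_sum nodup_GA (fun A hA => ?_)
    (fun A : Mt => ip (act (cj A) (br (u0L.map V4.at))) (chn z) • sub A g) ?_).trans ?_
  · rw [← toM_det]
    exact hdet _ (List.mem_map_of_mem hA)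
  · intro γ hγ
    rw [← List.mem_map, hmem]
    refine w3_stab γ (w3_img hz' (nodup_at (by decide)) γ fun h0 => hγ ?_)
    rw [ga] at h0
    simp only [h0, zero_smul]
  · rw [mU, opR_filter, opR_eq, List.map_map]
    congr 1
    refine List.map_congr_left fun A _ => ?_
    simp only [Function.comp, act_br_at, ipL_eq]

theorem w3_s33 {l : List V4} (hl : ∀ v ∈ l, qAm.bil v v = 2) (γ : GLz 4) :
    ip (ga γ (br (s33.map V4.at))) (br (l.map V4.at)) = 0 := by
  by_contra h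
  have h1 := w3_img (br_mem_Sup fun _ => l2_sub_mn qAm hl) (l := s33) (nodup_at (by decide)) γ h
  have h2 := w3_stab γ fun v hv => h1 v (List.mem_cons_of_mem _ hv)
  have h3 := h1 w0 List.mem_cons_self
  rw [← mem_Mn_pb, h2] at h3
  have h4 := h3.2
  rw [← bil_at] at h4
  exact absurd h4 (by decide)

theorem w3_zero {z x : Ch Mt} (hz : z ∈ Sup Spans) (h : ∀ γ : GLz 4, ip (ga γ x) z = 0)
    (g : Pn 4) : Nm z g x = 0 := by
  rw [nm_apply hz]
  simp only [h, zero_smul, finsum_zero]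

theorem w3_zero' {z x : Ch Mt} (hz : z ∈ Sup Spans) (h : ∀ γ : GLz 4, ip (ga γ z) x = 0)
    (g : Pn 4) : Nm z g x = 0 :=
  w3_zero hz (fun γ => by rw [ip_ga, ip_comm, h]) g

theorem nm_f_s33 (g : Pn 4) :
    Nm (br ((e02 :: u0L).map V4.at)) g (br (s33.map V4.at)) = 0 := by
  exact w3_zero (Wc_le_spans (by norm_num) fac02_mem) (w3_s33 (by decide)) g

theorem nm_s33_f02 (g : Pn 4) :
    Nm (br (s33.map V4.at)) g (br ((e02 :: u0L).map V4.at)) = 0 := by
  exact w3_zero' (Wc_le_spans (by norm_num) s33_mem) (w3_s33 (by decide)) g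

theorem nm_s33_f13 (g : Pn 4) :
    Nm (br (s33.map V4.at)) g (br ((e13 :: u0L).map V4.at)) = 0 := by
  exact w3_zero' (Wc_le_spans (by norm_num) s33_mem) (w3_s33 (by decide)) g

theorem fan_spans : br (fanL.map V4.at) ∈ Sup Spans := by
  exact br_mem_Sup fun h =>
    (l2_cellA (by decide) (by decide)).spans (by rw [l2_card h]; decide)

theorem s0_spans : br (s0L.map V4.at) ∈ Sup Spans := by
  exact br_mem_Sup fun h =>
    (l2_cellA (by decide) (by decide)).spans (by rw [l2_card h]; decide)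

theorem k1_spans : br (k1L.map V4.at) ∈ Sup Spans := by
  exact br_mem_Sup fun h =>
    (l2_cellA (by decide) (by decide)).spans (by rw [l2_card h]; decide)

theorem w3_pm {T : List V4} {v : V4} (h : v.at ∈ T.map V4.at) : v ∈ pm T := by
  obtain ⟨t, ht, e⟩ := List.mem_map.1 h
  rcases phi_eq_iff.1 e.symm with h1 | h1
  · rw [toV_inj h1]
    exact List.mem_append_left _ ht
  · rw [← toV_neg] at h1
    rw [toV_inj h1]
    exact List.mem_append_right _ (List.mem_map_of_mem ht)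

/-- the six test vectors -/
def w3_six : List V4 :=
  [⟨1, 0, 0, 0⟩, ⟨0, 1, 0, 0⟩, ⟨0, 0, 1, 0⟩, ⟨0, 0, 0, 1⟩, ⟨1, -1, 0, 0⟩, ⟨0, 1, -1, 0⟩]

theorem w3_app (c0 c1 c2 c3 : V4) : w3_six.map (M4.tr ⟨c0, c1, c2, c3⟩).app =
    [c0, c1, c2, c3, c0.sub c1, c1.sub c2] := by
  obtain ⟨_, _, _, _⟩ := c0
  obtain ⟨_, _, _, _⟩ := c1
  obtain ⟨_, _, _, _⟩ := c2
  obtain ⟨_, _, _, _⟩ := c3
  simp only [w3_six, List.map_cons, List.map_nil, M4.tr, M4.app, V4.dot, V4.sub, h4_add, h4_mul,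
    h4_sub, mul_one, mul_zero, add_zero, zero_add, mul_neg, sub_eq_add_neg]

theorem w3_enum {T : List V4} {A : M4} (h : ∀ v ∈ w3_six, A.app v ∈ pm T) : A ∈ enumL T := by
  rw [← h4_tr A] at h ⊢
  generalize A.tr = B at h ⊢
  obtain ⟨c0, c1, c2, c3⟩ := B
  have h' : ∀ w ∈ [c0, c1, c2, c3, c0.sub c1, c1.sub c2], w ∈ pm T := by
    rw [← w3_app]
    intro w hw
    obtain ⟨v, hv, rfl⟩ := List.mem_map.1 hw
    exact h v hv
  simp only [List.forall_mem_cons] at h'
  obtain ⟨h0, h1, h2, h3, h4, h5, -⟩ := h'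
  unfold enumL
  exact List.mem_flatMap.2 ⟨c0, h0, List.mem_flatMap.2 ⟨c1,
    List.mem_filter.2 ⟨h1, decide_eq_true h4⟩, List.mem_flatMap.2 ⟨c2,
      List.mem_filter.2 ⟨h2, decide_eq_true h5⟩, List.mem_map.2 ⟨c3, h3, rfl⟩⟩⟩⟩

theorem w3_mem {l T : List V4} (hl : (l.map V4.nrm).Nodup) (h6 : ∀ v ∈ w3_six, v ∈ l)
    (γ : GLz 4) (h : ip (ga γ (br (l.map V4.at))) (br (T.map V4.at)) ≠ 0) :
    ∃ A ∈ enumL T, A.toM = γ := by
  obtain ⟨A, hA⟩ := toM_surj γ
  refine ⟨A, w3_enum fun v hv => w3_pm ?_, hA⟩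
  have h1 := w3_img (M := {B | B ∈ T.map V4.at})
    (br_mem_Sup fun _ B hB => List.mem_toFinset.1 (Finset.mem_coe.1 hB)) (nodup_at hl) γ h v
    (h6 v hv)
  rw [at_app, hA]
  exact h1

theorem w3_sep {l T : List V4} (hl : (l.map V4.nrm).Nodup) (h6 : ∀ v ∈ w3_six, v ∈ l)
    (hs : br (l.map V4.at) ∈ Sup Spans) (k : ∀ A ∈ enumL T, ipl (l.map A.app) T = 0)
    (g : Pn 4) : Nm (br (l.map V4.at)) g (br (T.map V4.at)) = 0 := by
  refine w3_zero' hs (fun γ => ?_) g
  by_contra h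
  obtain ⟨A, hA, e⟩ := w3_mem hl h6 γ h
  rw [ga, ← e, act_br_at, ← ipl_eq, k A hA] at h
  exact h Int.cast_zero

theorem w3_nodup {T : List V4} (hl : (pm T).Nodup) : (enumL T).Nodup := by
  unfold enumL
  refine h4_nodup hl (fun A => A.tr.r0) (fun c0 => h4_nodup (hl.filter _) (fun A => A.tr.r1)
    (fun c1 => h4_nodup (hl.filter _) (fun A => A.tr.r2) (fun c2 =>
      hl.map fun c3 c3' h => congrArg (fun A => A.tr.r3) h) ?_) ?_) ?_
  all_goals
    intro x y hy
    simp only [List.mem_flatMap, List.mem_map] at hy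
  · obtain ⟨_, -, rfl⟩ := hy
    rfl
  · obtain ⟨_, -, _, -, rfl⟩ := hy
    rfl
  · obtain ⟨_, -, _, -, _, -, rfl⟩ := hy
    rfl

theorem nm_fan_s0 (g : Pn 4) : Nm (br (fanL.map V4.at)) g (br (s0L.map V4.at)) = 0 := by
  exact w3_sep (by decide) (by decide) fan_spans k_sep1 g

theorem nm_k0_s0 (g : Pn 4) : Nm (br (k0L.map V4.at)) g (br (s0L.map V4.at)) = 0 := by
  exact w3_sep (by decide) (by decide) k0_spans k_sep2 g

theorem nm_k0_fan (g : Pn 4) : Nm (br (k0L.map V4.at)) g (br (fanL.map V4.at)) = 0 := by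
  exact w3_sep (by decide) (by decide) k0_spans k_sep3 g

theorem nm_fan_fan (g : Pn 4) :
    Nm (br (fanL.map V4.at)) g (br (fanL.map V4.at)) = opR mF g := by
  have hnd : (enumL fanL).Nodup := w3_nodup (by decide)
  have hm := w3_mem (l := fanL) (T := fanL) (by decide) (by decide)
  rw [nm_apply fan_spans, mF]
  generalize enumL fanL = L at hnd hm ⊢
  refine (w3_sum (L := L.filter fun A => A.det * A.det == 1) (hnd.filter _)
    (fun A hA => beq_iff_eq.1 (List.mem_filter.1 hA).2)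
    (fun A : Mt => ip (act (cj A) (br (fanL.map V4.at))) (br (fanL.map V4.at)) • sub A g)
    ?_).trans ?_
  · intro γ hγ
    obtain ⟨A, hA, e⟩ := hm γ fun h0 => hγ (by
      rw [ga] at h0
      simp only [h0, zero_smul])
    refine ⟨A, List.mem_filter.2 ⟨hA, beq_iff_eq.2 ?_⟩, e⟩
    rw [← toM_det, e]
    exact g1_det_sq γ
  · rw [List.filter_comm, opR_filter, List.filter_map, opR_eq, List.map_map]
    congr 1
    refine List.map_congr_left fun A _ => ?_
    simp only [Function.comp, act_br_at, ipl_eq]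

end Pool.Agent.MP_cbe134_nt.V

end

section

/- The cochain attached to an invariant of the facet stabiliser. -/

open Matrix Finsupp

namespace Pool.Agent.MP_cbe134_nt.V

variable {d : ℕ} {v : Pn 4}

theorem w5_chi (A : M4) : chi33M A.toM = chi33 A := by
  unfold chi33M chi33
  rw [← toM_pb, toM_det]
  by_cases h : A.pb q1m = q1m
  · rw [if_pos h, if_pos (congrArg M4.toM h)]
  · rw [if_neg h, if_neg fun e => h (toM_inj e), Int.cast_neg]

theorem I33_sub (hv : v ∈ I33 d) {A : M4} (hA : A.pb q33 = q33) :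
    sub A.toM v = (chi33 A : ℚ) • v := by
  rw [← w5_chi]
  exact hv.2 A.toM (List.mem_map.2 ⟨A, (mem_G33 A).2 hA, rfl⟩)

theorem w5_len {a : GR} {f : Pn 4} (h : ∀ p ∈ a, (p.1 : ℚ) • sub p.2.toM f = f) :
    opR a f = (a.length : ℚ) • f := by
  induction a with
  | nil => rw [opR_nil, List.length_nil, Nat.cast_zero, zero_smul]
  | cons p a ih =>
    rw [opR_cons, h p List.mem_cons_self, ih fun q hq => h q (List.mem_cons_of_mem _ hq),
      List.length_cons, Nat.cast_succ, add_smul, one_smul, add_comm]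

theorem w5_sq : (∀ p ∈ eps8, p.1 * p.1 = 1) ∧ ∀ p ∈ su, p.1 * p.1 = 1 := by decide +kernel

theorem w5_fix (hv : v ∈ I33 d) {p : ℤ × M4} (h1 : p.2.pb q33 = q33) (h2 : chi33 p.2 = p.1)
    (h3 : p.1 * p.1 = 1) : (p.1 : ℚ) • sub p.2.toM v = v := by
  rw [I33_sub hv h1, h2, smul_smul, ← Int.cast_mul, h3, Int.cast_one, one_smul]

theorem w5_eps (hv : v ∈ I33 d) : opR eps8 v = (8 : ℚ) • v := by
  rw [w5_len fun p hp => w5_fix hv (k_eps8 p hp).1 (k_eps8 p hp).2.1 (w5_sq.1 p hp), k_lens.1,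
    Nat.cast_ofNat]

theorem w5_su (hv : v ∈ I33 d) : opR su v = (9 : ℚ) • v := by
  rw [w5_len fun p hp => w5_fix hv (k_su p hp).1 (k_su p hp).2 (w5_sq.2 p hp), k_lens.2,
    Nat.cast_ofNat]

theorem w5_G {a b : GR} {c : ℤ} (h : chkG (a ++ gsm c b) = true) (hd : Even d) {f : Pn 4}
    (hf : f ∈ Hd 4 d) : opR a f = (-c : ℚ) • opR b f := by
  have h1 := chkG_sound h hd hf
  rw [opR_append, opR_gsm] at h1
  rw [neg_smul, eq_neg_of_add_eq_zero_left h1]

theorem R5_mem_Y (hd : Even d) (hv : v ∈ I33 d) : opR R5 v ∈ Rsp shY1 d := by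
  have h1 := w5_G k_m2'.1 hd hv.1
  have h2 := w5_G k_m2'.2.2.1 hd hv.1
  have h3 := w5_G k_m2'.2.2.2 hd hv.1
  rw [opR_gmul] at h1 h2 h3
  rw [w5_eps hv, map_smul] at h1
  simp only [Int.cast_neg, Int.cast_one, neg_neg, one_smul, Int.cast_ofNat] at h1 h2 h3
  rw [← h2, ← h1, map_smul, map_smul] at h3
  refine ⟨(20 : ℚ)⁻¹ • opR R5 v, Submodule.smul_mem _ _ (opR_mem _ hv.1), ?_⟩
  rw [LinearMap.comp_apply, map_smul, map_smul]
  linear_combination (norm := module) (160 : ℚ)⁻¹ • h3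

theorem w5_u0 : br (u0L.map V4.at) ∈ Sup Spans := Wc_le_spans (j := 8) (by norm_num) u0_mem

theorem w5_u0' : chn [(1, u0L)] ∈ Sup Spans := chn_one u0L ▸ w5_u0

theorem w5_k1' : chn [(1, k1L)] ∈ Sup Spans := chn_one k1L ▸ k1_spans

theorem w5_cs {x : Ch Mt} (hx : x ∈ Wc 9) : x ∈ Sup fun S => Cell S ∧ Spans S :=
  Sup_mono (fun _ h => ⟨h.1, h.1.spans (by rw [h.2]; norm_num)⟩) hx

theorem w5_ssplit : bd (br (s33.map V4.at)) = chn (opC su [(1, u0L)]) := by
  have h := chkC_sound k_ssplit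
  rw [chn_append, chn_csm, chn_bdL, chn_one s33] at h
  push_cast at h
  linear_combination (norm := module) h

theorem w5_zsplit : chn zL = chn (opC zu [(1, u0L)]) + chn (opC zk [(1, k1L)]) := by
  have h := chkC_sound k_zsplit
  rw [chn_append, chn_append, chn_csm, chn_csm] at h
  push_cast at h
  linear_combination (norm := module) h

theorem w5_fsplit : bd (br ((e02 :: u0L).map V4.at)) =
    chn (opC fu [(1, u0L)]) + chn (opC fk [(1, k1L)]) := by
  have h := chkC_sound k_fsplit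
  rw [chn_append, chn_append, chn_csm, chn_csm, chn_bdL, chn_one (e02 :: u0L)] at h
  push_cast at h
  linear_combination (norm := module) h

theorem w5_fan : chn psiL = chn (opC R5 [(1, fanL)]) := by
  have h := chkC_sound k_fan
  rw [chn_append, chn_csm] at h
  push_cast at h
  linear_combination (norm := module) h

theorem w5_bs : bd (br (s33.map V4.at)) ∈ Sup Spans :=
  w5_ssplit ▸ opC_mem k_det2.2.2.2.2.1 w5_u0'

theorem w5_bf : bd (br ((e02 :: u0L).map V4.at)) ∈ Sup Spans :=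
  w5_fsplit ▸ add_mem (opC_mem k_det2.2.2.1 w5_u0') (opC_mem k_det2.2.2.2.1 w5_k1')

theorem w5_nm_s (hv : v ∈ I33 d) (x : Ch Mt) : Nm (bd (br (s33.map V4.at))) v x =
    (9 : ℚ) • Nm (br (u0L.map V4.at)) v x := by
  rw [w5_ssplit, nm_opC k_det2.2.2.2.2.1 w5_u0', w5_su hv, nm_smul_right w5_u0', chn_one]

theorem w5_nm_z (g : Pn 4) (x : Ch Mt) : Nm (chn zL) g x =
    Nm (br (u0L.map V4.at)) (opR zu g) x + Nm (br (k1L.map V4.at)) (opR zk g) x := by
  rw [w5_zsplit, nm_add_left (opC_mem k_det2.1 w5_u0') (opC_mem k_det2.2.1 w5_k1'),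
    nm_opC k_det2.1 w5_u0', nm_opC k_det2.2.1 w5_k1', chn_one, chn_one]

theorem w5_nm_f (g : Pn 4) (x : Ch Mt) : Nm (bd (br ((e02 :: u0L).map V4.at))) g x =
    Nm (br (u0L.map V4.at)) (opR fu g) x + Nm (br (k1L.map V4.at)) (opR fk g) x := by
  rw [w5_fsplit, nm_add_left (opC_mem k_det2.2.2.1 w5_u0') (opC_mem k_det2.2.2.2.1 w5_k1'),
    nm_opC k_det2.2.2.1 w5_u0', nm_opC k_det2.2.2.2.1 w5_k1', chn_one, chn_one]

theorem w5_min : (∀ p ∈ ([(1, u0L)] : CL), ∀ w ∈ p.2, w.nrm ∈ minA) ∧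
    (∀ p ∈ ([(1, k1L)] : CL), ∀ w ∈ p.2, w.nrm ∈ minA) ∧
    ∀ p ∈ bdL [(1, e02 :: u0L)], ∀ w ∈ p.2, w.nrm ∈ minA := by decide +kernel

theorem w5_uu (hd : Even d) {f : Pn 4} (hf : f ∈ Hd 4 d) :
    Nm (br (u0L.map V4.at)) f (br (u0L.map V4.at)) = (2 : ℚ) • opR eps8 f := by
  have h := nm_u0_gen w5_min.1 w5_u0' f
  rw [chn_one, w5_G k_mU_u0 hd hf] at h
  rw [h, Int.cast_neg, neg_neg, Int.cast_ofNat]

theorem w5_ku (f : Pn 4) : Nm (br (k1L.map V4.at)) f (br (u0L.map V4.at)) = 0 := by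
  have h := nm_u0_gen w5_min.2.1 w5_k1' f
  rwa [chn_one, k_mU_k1, opR_nil] at h

theorem w5_fu (hd : Even d) {f : Pn 4} (hf : f ∈ Hd 4 d) :
    Nm (bd (br ((e02 :: u0L).map V4.at))) f (br (u0L.map V4.at)) = opR n0 f := by
  have e : chn (bdL [(1, e02 :: u0L)]) = bd (br ((e02 :: u0L).map V4.at)) := by
    rw [chn_bdL, chn_one]
  have h := nm_u0_gen w5_min.2.2 (e ▸ w5_bf) f
  rw [e, w5_G k_mU_f hd hf] at h
  rw [h, Int.cast_neg, neg_neg, Int.cast_one, one_smul]

theorem w5_su0 (hd : Even d) (hv : v ∈ I33 d) :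
    Nm (bd (br (s33.map V4.at))) v (br (u0L.map V4.at)) = (144 : ℚ) • v := by
  rw [w5_nm_s hv, w5_uu hd hv.1, w5_eps hv, smul_smul, smul_smul]
  norm_num

theorem nm_s33_u0 (hd : Even d) (hv : v ∈ I33 d) :
    Nm (br (s33.map V4.at)) v (del Cell (br (u0L.map V4.at))) = (144 : ℚ) • v := by
  rw [nm_del (w5_cs s33_mem) w5_bs v w5_u0, w5_su0 hd hv]

theorem nm_s33_s33 (hd : Even d) (hv : v ∈ I33 d) :
    Nm (br (s33.map V4.at)) v (br (s33.map V4.at)) = (144 : ℚ) • v := by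
  have h := nm_s33_u0 hd hv
  rwa [del_u0, map_add, map_add, nm_s33_f02, nm_s33_f13, zero_add, zero_add] at h

theorem w5_eps_m0 (g : Pn 4) : opR eps8 (opR m0 g) = (8 : ℚ) • opR m0 g := by
  rw [w5_len (a := eps8) fun p hp => ?_, k_lens.1, Nat.cast_ofNat]
  obtain ⟨γ, hγ⟩ := l1_GL (k_det2.2.2.2.2.2 p hp)
  have h := chkC_sound (k_eps8 p hp).2.2
  rw [chn_cons, chn_cons, chn_nil, add_zero, Int.cast_one, one_smul, Int.cast_neg, neg_smul,
    add_neg_eq_zero, ← act_br_at] at h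
  have h1 := nm_ga' zL_spans g γ (br (u0L.map V4.at))
  rwa [ga, hγ, h, map_smul, map_smul, nm_u0] at h1

theorem w5_bdz {g : Pn 4} (hg : g ∈ Rsp shY1 d) :
    Nm (chn zL) g (del Cell (br (s0L.map V4.at))) = 0 := by
  have hk : chn [(1, k0L)] ∈ Sup Spans := chn_one k0L ▸ k0_spans
  have hf : chn [(1, fanL)] ∈ Sup Spans := chn_one fanL ▸ fan_spans
  have hR : ∀ p ∈ R5, p.2.det * p.2.det = 1 := fun p hp => by rw [k_det.2.2.2.2 p hp, mul_one]
  have ht := opC_mem k_det.2.2.2.1 hk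
  have h1 := chkC_sound k_zetaD
  rw [zeta, chn_append, chn_append, chn_append, chn_csm, chn_csm, chn_csm, chn_csm, chn_bdL] at h1
  have h2 : bd (chn zL) = (10 : ℚ) • chn psiL + (-1 : ℚ) • chn (opC thc [(1, k0L)]) +
      (-1 : ℚ) • chn zetaD := by
    push_cast at h1
    linear_combination (norm := module) -h1
  rw [nm_del zL_mem bd_zL_spans g s0_spans, h2,
    nm_add_left (add_mem (Submodule.smul_mem _ _ psi_spans) (Submodule.smul_mem _ _ ht))
      (Submodule.smul_mem _ _ zetaD_spans),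
    nm_add_left (Submodule.smul_mem _ _ psi_spans) (Submodule.smul_mem _ _ ht),
    nm_smul_left psi_spans, nm_smul_left ht, nm_smul_left zetaD_spans, nm_zeta hg,
    nm_opC k_det.2.2.2.1 hk, w5_fan, nm_opC hR hf, chn_one, chn_one, nm_fan_s0, nm_k0_s0,
    smul_zero, smul_zero, add_zero, add_zero]

theorem w5_nd : (u0L.map V4.at).Nodup ∧ (k1L.map V4.at).Nodup :=
  ⟨nodup_at (by decide +kernel), nodup_at (by decide +kernel)⟩

theorem w5_cert (hd : Even d) (hv : v ∈ I33 d) : ∃ a ∈ Hd 4 d,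
    opR n0 a = (16000 : ℚ) • v + (80 : ℚ) • opR m0 (opR R5 v) := by
  have hy : (200 : ℚ) • v + opR m0 (opR R5 v) ∈ Hd 4 d :=
    add_mem (Submodule.smul_mem _ _ hv.1) (opR_mem _ (opR_mem _ hv.1))
  have h1 : opR R5 ((200 : ℚ) • v + opR m0 (opR R5 v)) = 0 := by
    rw [map_add, map_smul, recover hd (R5_mem_Y hd hv), neg_smul, add_neg_cancel]
  have h2 : opR eps8 ((200 : ℚ) • v + opR m0 (opR R5 v)) =
      (8 : ℚ) • ((200 : ℚ) • v + opR m0 (opR R5 v)) := by
    rw [map_add, map_smul, w5_eps hv, w5_eps_m0, smul_add, smul_comm]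
  have h3 := w5_G k_m2'.1 hd hy
  have h4 := w5_G k_cert hd hy
  rw [opR_gmul, h2, map_smul, h1, smul_zero, Int.cast_neg, neg_neg, Int.cast_one, one_smul] at h3
  rw [opR_append, opR_gmul, opR_gmul, opR_gmul, ← h3, map_zero, add_zero, h2, map_smul, map_smul,
    Int.cast_neg, neg_neg, Int.cast_ofNat] at h4
  refine ⟨_, opR_mem bb hy, ?_⟩
  linear_combination (norm := module) (8 : ℚ)⁻¹ • h4

theorem delta_zero (hd : Even d) (hv : v ∈ I33 d) : ∃ a ∈ Hd 4 d, ∀ x ∈ Sup Spans,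
    (16000 : ℚ) • Nm (br (s33.map V4.at)) v (del Cell x) +
      (11520 : ℚ) • Nm (chn zL) (opR R5 v) x =
      (144 : ℚ) • Nm (br ((e02 :: u0L).map V4.at)) a (del Cell x) := by
  obtain ⟨a, ha, h⟩ := w5_cert hd hv
  have hg := R5_mem_Y hd hv
  generalize opR R5 v = g at h hg ⊢
  have hD : ∀ x, (16000 : ℚ) • Nm (bd (br (s33.map V4.at))) v x +
      (11520 : ℚ) • Nm (chn zL) g x + (-144 : ℚ) • Nm (bd (br ((e02 :: u0L).map V4.at))) a x =
      Nm (br (u0L.map V4.at)) ((144000 : ℚ) • v + (11520 : ℚ) • opR zu g +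
        (-144 : ℚ) • opR fu a) x +
      Nm (br (k1L.map V4.at)) ((11520 : ℚ) • opR zk g + (-144 : ℚ) • opR fk a) x := fun x => by
    rw [w5_nm_s hv, w5_nm_z, w5_nm_f, nm_add_right w5_u0, nm_add_right w5_u0,
      nm_add_right k1_spans, nm_smul_right w5_u0, nm_smul_right w5_u0, nm_smul_right w5_u0,
      nm_smul_right k1_spans, nm_smul_right k1_spans]
    module
  generalize (144000 : ℚ) • v + (11520 : ℚ) • opR zu g + (-144 : ℚ) • opR fu a = y1 at hD
  generalize (11520 : ℚ) • opR zk g + (-144 : ℚ) • opR fk a = y2 at hD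
  have h1 : Nm (br (u0L.map V4.at)) y1 (br (u0L.map V4.at)) = 0 := by
    have h2 := hD (br (u0L.map V4.at))
    rw [w5_ku, add_zero, w5_su0 hd hv, nm_u0, w5_fu hd ha, h] at h2
    rw [← h2]
    module
  have h2 := nm_orbit w5_nd.1 (l4_spans w5_nd.1 w5_u0) y1 h1
  have h3 : Nm (br (k1L.map V4.at)) y2 (br (k1L.map V4.at)) = 0 := by
    have h4 := hD (del Cell (br (s0L.map V4.at)))
    rw [h2, zero_add, nm_k1_del, ← nm_del (w5_cs s33_mem) w5_bs v (del_mem_spans s0_spans),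
      ← nm_del (w5_cs fac02_mem) w5_bf a (del_mem_spans s0_spans), del_del_cell s0_spans,
      map_zero, map_zero, w5_bdz hg, smul_zero, smul_zero, smul_zero, add_zero, add_zero] at h4
    exact h4.symm
  have h4 := nm_orbit w5_nd.2 (l4_spans w5_nd.2 k1_spans) y2 h3
  refine ⟨a, ha, fun x hx => ?_⟩
  have h5 := hD x
  rw [h2, h4, add_zero] at h5
  rw [nm_del (w5_cs s33_mem) w5_bs v hx, nm_del (w5_cs fac02_mem) w5_bf a hx]
  linear_combination (norm := module) h5

end Pool.Agent.MP_cbe134_nt.V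

end

section

/- Image and kernel of the cyclic sum on the invariants of the facet stabiliser. -/

open Matrix Finsupp

namespace Pool.Agent.MP_cbe134_nt.V

variable {d : ℕ} {v : Pn 4}

theorem w6_cancel {c : ℚ} (hc : c ≠ 0) {f : Pn 4} (h : c • f = 0) : f = 0 :=
  (smul_eq_zero.1 h).resolve_left hc

theorem w6_psi {g : Pn 4} (hy : g ∈ Rsp shY1 d)
    (h : Nm (chn zL) g (del Cell (br (fanL.map V4.at))) = 0) : opR mF (opR R5 g) = 0 := by
  have hk : chn [(1, k0L)] ∈ Sup Spans := chn_one k0L ▸ k0_spans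
  have hf : chn [(1, fanL)] ∈ Sup Spans := chn_one fanL ▸ fan_spans
  have ht := opC_mem k_det.2.2.2.1 hk
  have h1 := chkC_sound k_zetaD
  rw [zeta, chn_append, chn_append, chn_append, chn_csm, chn_csm, chn_csm, chn_csm, chn_bdL] at h1
  have h2 : bd (chn zL) = (10 : ℚ) • chn psiL + (-1 : ℚ) • chn (opC thc [(1, k0L)]) +
      (-1 : ℚ) • chn zetaD := by
    push_cast at h1
    linear_combination (norm := module) -h1
  have h3 := chkC_sound k_fan
  rw [chn_append, chn_csm, Int.cast_neg, Int.cast_one, neg_one_smul, add_neg_eq_zero] at h3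
  rw [nm_del zL_mem bd_zL_spans g fan_spans, h2,
    nm_add_left (add_mem (Submodule.smul_mem _ _ psi_spans) (Submodule.smul_mem _ _ ht))
      (Submodule.smul_mem _ _ zetaD_spans),
    nm_add_left (Submodule.smul_mem _ _ psi_spans) (Submodule.smul_mem _ _ ht),
    nm_smul_left psi_spans, nm_smul_left ht, nm_smul_left zetaD_spans, nm_zeta hy,
    nm_opC k_det.2.2.2.1 hk, chn_one, nm_k0_fan, smul_zero, add_zero, add_zero, h3,
    nm_opC (fun p hp => by rw [k_det.2.2.2.2 p hp, one_mul]) hf, chn_one, nm_fan_fan] at h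
  exact w6_cancel (by norm_num) h

theorem w6_X (hd : Even d) {g : Pn 4} (hy : g ∈ Rsp shY1 d) (h : opR mF (opR R5 g) = 0) :
    g ∈ Rsp shX1 d := by
  have hg := Rsp_le _ _ hy
  obtain ⟨f, hf, e⟩ := hy
  have hf1 : opR shY1 f ∈ Hd 4 d := opR_mem _ hf
  rw [LinearMap.comp_apply] at e
  have h1 := chkG_sound k_idem hd hf1
  have h2 := chkG_sound k_R5eD hd hf1
  rw [opR_append, opR_gsm, opR_gmul, e, Int.cast_neg, neg_smul, add_neg_eq_zero] at h1 h2
  rw [h2, map_smul] at h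
  have h3 := chkG_sound k_mF hd hg
  rw [opR_append, opR_gsm, w6_cancel (by norm_num) h, zero_add] at h3
  have h4 := chkG_sound k_stF hd hg
  rw [opR_append, opR_gsm, opR_gmul, opR_gmul, h1, map_smul, w6_cancel (by norm_num) h3,
    smul_zero, map_zero, zero_add] at h4
  have h5 := chkG_sound k_eEx hd hg
  rw [opR_append, opR_gsm, w6_cancel (by norm_num) h4, smul_zero, add_zero] at h5
  have h6 := chkG_sound k_splitX hd hg
  rw [opR_append, opR_append, opR_gsm, h5, add_zero, opR_gmul, opR_gmul, h1, map_smul,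
    map_smul] at h6
  refine ⟨(1 / 20 : ℚ) • g, Submodule.smul_mem _ _ hg, ?_⟩
  rw [map_smul, LinearMap.comp_apply]
  push_cast at h6
  linear_combination (norm := module) (1 / 200 : ℚ) • h6

theorem R5_mem_X (hd : Even d) (hv : v ∈ I33 d) : opR R5 v ∈ Rsp shX1 d := by
  obtain ⟨a, -, ha⟩ := delta_zero hd hv
  have h := ha _ (del_mem_spans fan_spans)
  rw [del_del_cell fan_spans, map_zero, map_zero, smul_zero, smul_zero, zero_add] at h
  exact w6_X hd (R5_mem_Y hd hv) (w6_psi (R5_mem_Y hd hv) (w6_cancel (by norm_num) h))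

theorem w6_dd : ∃ η : ℚ, η * η = 1 ∧
    dd (br (s33.map V4.at)) = η • (single q1m.toM 1 - single q2m.toM 1) := by
  have hn : (s33.map V4.at).Nodup := nodup_at (by decide)
  obtain ⟨ε, hε, e⟩ := br_nodup hn
  have h9 : (s33.map V4.at).toFinset.card = 9 := l2_card hn
  have h1 := l2_sub_mn q1m (l := s33) (by decide)
  have h2 := l2_sub_mn q2m (l := s33) (by decide)
  refine ⟨ε * osg q1m.toM (single (s33.map V4.at).toFinset 1), ?_, ?_⟩
  · rw [mul_mul_mul_comm, hε, osg_sq vert_q1 l2_cell33 h9 h1, one_mul]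
  · rw [e, l1_one, map_smul,
      dd_edge vert_q1 vert_q2 (fun h => absurd (toM_inj h) (by decide)) h9 h1 h2, smul_smul]

theorem w6_pb {B : Mt → Pn 4}
    (hB : ∀ a, ∀ q ∈ {q | Vert q}, B (va a q) = dt a • rhoI a (B q)) {A : Mt}
    (hA : A.det * A.det = 1) {q : Mt} (hq : Vert q) :
    sub A (B q) = (A.det : ℚ) • B (pb A q) := by
  obtain ⟨γ, rfl⟩ := exists_GL hA
  have h1 : B (pb (γ : Mt) q) = dt γ⁻¹ • sub (γ : Mt) (B q) := hB γ⁻¹ q hq
  have h2 : dt γ * dt γ⁻¹ = 1 := by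
    rw [← dt_mul, mul_inv_cancel, dt, Units.val_one, Matrix.det_one, Int.cast_one]
  rw [h1, smul_smul]
  change _ = (dt γ * dt γ⁻¹) • _
  rw [h2, one_smul]

theorem ker_R5 (hd : Even d) (hv : v ∈ I33 d) (h : opR R5 v = 0) :
    ∃ b ∈ ID4 d, v = b - sub (((rM.mul rM).mul rM).mul rM).toM b := by
  obtain ⟨a, haH, ha⟩ := delta_zero hd hv
  have hs := Wc_le_spans (j := 9) (by norm_num) s33_mem
  have hf := Wc_le_spans (j := 9) (by norm_num) fac02_mem
  have h0 : ∀ x, Nm (chn zL) 0 x = 0 := fun x => by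
    have := nm_smul_right zL_spans 0 0 x
    rwa [zero_smul, zero_smul] at this
  obtain ⟨B, hB1, hB2, hB3⟩ := zigzag1 ga act_ga (Wc 9) (Wc 8) (stb_Wc 9) (del Cell) va va_one
    va_mul {q | Vert q} (fun a _ hq => va_vert a hq) dt dt_sq dt_mul dd (fun _ hx => dd_mem hx)
    (fun a _ hx => dd_ga a hx) (fun _ hx => dd_aug hx) (fun _ hx h => ex9 hx h)
    (fun _ hq _ hq' => ex10 hq hq') rhoI act_rhoI (Hd 4 d) stb_rhoI (v1_GL4 d)
    ((16000 : ℚ) • Nm (br (s33.map V4.at)) v -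
      (144 : ℚ) • Nm (br ((e02 :: u0L).map V4.at)) a)
    (fun x _ => Submodule.sub_mem _ (Submodule.smul_mem _ _ (nm_mem hs hv.1 x))
      (Submodule.smul_mem _ _ (nm_mem hf haH x)))
    (fun g x _ => by
      simp only [LinearMap.sub_apply, LinearMap.smul_apply, nm_ga hs, nm_ga hf, map_sub, map_smul])
    (fun y hy => by
      have := ha y (Wc_le_spans (j := 8) (by norm_num) hy)
      rw [h, h0, smul_zero, add_zero] at this
      rw [LinearMap.sub_apply, LinearMap.smul_apply, LinearMap.smul_apply, this, sub_self])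
  obtain ⟨η, hη, e⟩ := w6_dd
  have h1 := hB3 _ s33_mem
  rw [LinearMap.sub_apply, LinearMap.smul_apply, LinearMap.smul_apply, nm_s33_s33 hd hv, nm_f_s33,
    ← linearCombination_apply, e, map_smul, map_sub, linearCombination_single,
    linearCombination_single, one_smul, one_smul] at h1
  have h2 := w6_pb hB2 (A := (((rM.mul rM).mul rM).mul rM).toM) (by rw [toM_det]; decide) vert_q1
  rw [← toM_pb, show (((rM.mul rM).mul rM).mul rM).pb q1m = q2m by decide, toM_det,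
    show (((rM.mul rM).mul rM).mul rM).det = 1 by decide, Int.cast_one, one_smul] at h2
  refine ⟨(η / 2304000) • B q1m.toM, Submodule.smul_mem _ _ ⟨hB1 _ vert_q1, fun M hM => ?_⟩, ?_⟩
  · obtain ⟨-, h3, -, -, -, h4⟩ := stab_group (q := q1m) (by decide) mem_GD nodup_GD
    rw [w6_pb hB2 (h4 M hM) vert_q1, (h3 M).1 hM]
  · rw [map_smul, h2]
    linear_combination (norm := module) (1 / 2304000 : ℚ) • h1

theorem I33_le (hd : Even d) : Module.finrank ℚ (I33 d) ≤ Module.finrank ℚ (ID4 d) +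
    Module.finrank ℚ (Rsp shX1 d ⊓ Rsp shY1 d : Submodule ℚ (Pn 4)) := by
  have : FiniteDimensional ℚ (I33 d) := fin_of_le (d := d) fun _ h => h.1
  have : FiniteDimensional ℚ (ID4 d) := fin_of_le (d := d) fun _ h => h.1
  have : FiniteDimensional ℚ (Rsp shX1 d ⊓ Rsp shY1 d : Submodule ℚ (Pn 4)) :=
    fin_of_le (d := d) (inf_le_left.trans (Rsp_le _ _))
  have h1 := LinearMap.finrank_range_add_finrank_ker ((opR R5).domRestrict (I33 d))
  have h2 : LinearMap.range ((opR R5).domRestrict (I33 d)) ≤ Rsp shX1 d ⊓ Rsp shY1 d := by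
    rintro _ ⟨x, rfl⟩
    exact ⟨R5_mem_X hd x.2, R5_mem_Y hd x.2⟩
  have h3 : (LinearMap.ker ((opR R5).domRestrict (I33 d))).map (I33 d).subtype ≤
      (ID4 d).map (LinearMap.id - (sub (((rM.mul rM).mul rM).mul rM).toM).toLinearMap) := by
    rintro _ ⟨x, hx, rfl⟩
    obtain ⟨b, hb, e⟩ := ker_R5 hd x.2 hx
    exact ⟨b, hb, e.symm⟩
  have h4 := Submodule.finrank_mono h2
  have h5 := (Submodule.finrank_mono h3).trans (Submodule.finrank_map_le _ _)
  rw [Submodule.finrank_map_subtype_eq] at h5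
  omega

theorem I33_odd (hd : Odd d) : I33 d = ⊥ := by
  refine (Submodule.eq_bot_iff _).2 fun f hf => ?_
  have h := I33_sub hf (A := M4.one.neg) (by decide)
  rw [toM_neg, sub_neg _ hf.1, toM_one, sub_one, hd.neg_one_pow,
    show chi33 M4.one.neg = 1 by decide, Int.cast_one] at h
  exact w6_cancel (c := 2) (by norm_num) (by linear_combination (norm := module) -h)

end Pool.Agent.MP_cbe134_nt.V

end

section

/- The exact dimension of the linearised double shuffle space in depth four. -/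

open PowerSeries

namespace Pool.Agent.MP_cbe134_nt.V

theorem ds4_eq (d : ℕ) : (Module.finrank ℚ (DS 4 d) : ℚ) = coeff d ser4 := by
  refine le_antisymm (ds4_le d) ?_
  rw [← dim_diff d]
  rcases Nat.even_or_odd d with hd | hd
  · have h1 := I33_le hd
    have h2 := ds4_ge hd
    have h5 : Module.finrank ℚ (I33 d) ≤
        Module.finrank ℚ (ID4 d) + Module.finrank ℚ (DS 4 d) := by omega
    have h6 : (Module.finrank ℚ (I33 d) : ℚ) ≤
        ((Module.finrank ℚ (ID4 d) + Module.finrank ℚ (DS 4 d) : ℕ) : ℚ) := by exact_mod_cast h5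
    push_cast at h6
    linarith
  · rw [I33_odd hd, finrank_bot]
    have h1 : (0 : ℚ) ≤ Module.finrank ℚ (ID4 d) := Nat.cast_nonneg _
    have h2 : (0 : ℚ) ≤ Module.finrank ℚ (DS 4 d) := Nat.cast_nonneg _
    push_cast
    linarith

end Pool.Agent.MP_cbe134_nt.V

end
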