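import Pool.Agent.MP_cbe134_nt.A1
import Pool.Agent.MP_cbe134_nt.A2
import Pool.Agent.Mg.Fcbe134.G262689
import Pool.Agent.MP_cbe134_nt.BKDefs

section

/- Upper triangular matrices, evaluation of noncommutative series. -/

open Finset

namespace Pool.Agent.MP_cbe134_nt

/-- square matrices of size `k + 1` -/
abbrev Mt (k : ℕ) := Matrix (Fin (k + 1)) (Fin (k + 1)) ℚ

/-- matrices supported at least `m` steps above the diagonal -/
def Up {k : ℕ} (m : ℕ) (M : Mt k) : Prop :=
  ∀ i j : Fin (k + 1), (j : ℕ) < i + m → M i j = 0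

namespace Up

variable {k m n : ℕ} {M N : Mt k}

lemma zero : Up m (0 : Mt k) := fun _ _ _ => rfl

lemma one : Up 0 (1 : Mt k) := fun i j h => Matrix.one_apply_ne (by rintro rfl; omega)

lemma add (h : Up m M) (h' : Up m N) : Up m (M + N) := fun i j hij => by
  simp [h i j hij, h' i j hij]

lemma neg (h : Up m M) : Up m (-M) := fun i j hij => by simp [h i j hij]

lemma sub (h : Up m M) (h' : Up m N) : Up m (M - N) := fun i j hij => by
  simp [h i j hij, h' i j hij]

lemma smul (c : ℚ) (h : Up m M) : Up m (c • M) := fun i j hij => by simp [h i j hij]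

lemma mono (h : Up m M) (hn : n ≤ m) : Up n M := fun i j hij => h i j (by omega)

lemma mul (h : Up m M) (h' : Up n N) : Up (m + n) (M * N) := fun i j hij => by
  rw [Matrix.mul_apply]
  refine sum_eq_zero fun l _ => ?_
  by_cases hl : (l : ℕ) < i + m
  · rw [h i l hl, zero_mul]
  · rw [h' l j (by omega), mul_zero]

lemma mul' {p : ℕ} (h : Up m M) (h' : Up n N) (hp : p ≤ m + n) : Up p (M * N) :=
  (h.mul h').mono hp

lemma eq_zero (h : Up (k + 1) M) : M = 0 := by
  ext i j
  exact h i j (by omega)

lemma corner (h : Up m M) (hm : k < m) : M 0 (Fin.last k) = 0 := h _ _ (by simpa using hm)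

lemma pow (h : Up 1 M) (n : ℕ) : Up n (M ^ n) := by
  induction n with
  | zero => simpa using one
  | succ n ih => rw [pow_succ]; exact ih.mul h

lemma sum {ι : Type*} (s : Finset ι) (f : ι → Mt k) (h : ∀ i ∈ s, Up m (f i)) :
    Up m (∑ i ∈ s, f i) := fun i j hij => by
  rw [Matrix.sum_apply]
  exact sum_eq_zero fun l hl => h l hl i j hij

lemma exists_inv (h : Up 1 M) : ∃ L : Mt k, L * (1 - M) = 1 ∧ (1 - M) * L = 1 ∧ Up 0 L := by
  have h0 : M ^ (k + 1) = 0 := (h.pow _).eq_zero
  refine ⟨∑ i ∈ range (k + 1), M ^ i, ?_, ?_, ?_⟩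
  · rw [geom_sum_mul_neg, h0, sub_zero]
  · rw [mul_neg_geom_sum, h0, sub_zero]
  · exact sum _ _ fun i _ => (h.pow i).mono (Nat.zero_le _)

lemma cancel (h : Up 1 M) {A B : Mt k} (e : A * (1 - M) = B * (1 - M)) : A = B := by
  obtain ⟨L, -, h2, -⟩ := h.exists_inv
  calc A = A * (1 - M) * L := by rw [mul_assoc, h2, mul_one]
    _ = B := by rw [e, mul_assoc, h2, mul_one]

end Up

variable {k : ℕ}

/-- the letter: `true` is `X`, `false` is `Y` -/
def lett (X Y : Mt k) : Bool → Mt k
  | true => X
  | false => Y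

/-- the monomial of a word; the head of the list is the last letter -/
def mon (X Y : Mt k) : List Bool → Mt k
  | [] => 1
  | c :: u => mon X Y u * lett X Y c

lemma up_lett {X Y : Mt k} (hX : Up 1 X) (hY : Up 1 Y) (c : Bool) : Up 1 (lett X Y c) := by
  cases c
  · exact hY
  · exact hX

lemma up_mon {X Y : Mt k} (hX : Up 1 X) (hY : Up 1 Y) (u : List Bool) :
    Up u.length (mon X Y u) := by
  induction u with
  | nil => exact Up.one
  | cons c u ih => exact ih.mul (up_lett hX hY c)

lemma mon_append (X Y : Mt k) (u : List Bool) (c : Bool) :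
    mon X Y (u ++ [c]) = lett X Y c * mon X Y u := by
  induction u with
  | nil => simp [mon]
  | cons d u ih => simp [mon, ih, mul_assoc]

/-- all words of length at most `m` -/
def wl : ℕ → List (List Bool)
  | 0 => [[]]
  | m + 1 => [] :: ((wl m).map (true :: ·) ++ (wl m).map (false :: ·))

/-- evaluation of a series truncated at length `m` -/
def ev (X Y : Mt k) (m : ℕ) (f : List Bool → ℚ) : Mt k :=
  ((wl m).map fun u => f u • mon X Y u).sum

lemma ev_zero (X Y : Mt k) (f : List Bool → ℚ) : ev X Y 0 f = f [] • 1 := by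
  simp [ev, wl, mon]

lemma ev_succ (X Y : Mt k) (m : ℕ) (f : List Bool → ℚ) :
    ev X Y (m + 1) f = f [] • 1 + ev X Y m (fun u => f (true :: u)) * X
      + ev X Y m (fun u => f (false :: u)) * Y := by
  simp only [ev, wl, mon, List.map_cons, List.map_append, List.map_map, List.sum_cons,
    List.sum_append, ← List.sum_map_mul_right, smul_mul_assoc, add_assoc]
  rfl

lemma ev_add (X Y : Mt k) (m : ℕ) (f g : List Bool → ℚ) :
    ev X Y m (fun u => f u + g u) = ev X Y m f + ev X Y m g := by
  simp only [ev, add_smul, List.sum_map_add]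

lemma ev_smul (X Y : Mt k) (m : ℕ) (t : ℚ) (f : List Bool → ℚ) :
    ev X Y m (fun u => t * f u) = t • ev X Y m f := by
  simp only [ev, mul_smul, List.smul_sum, List.map_map]
  rfl

lemma ev_zero_fun (X Y : Mt k) (m : ℕ) : ev X Y m (fun _ => 0) = 0 := by
  simp [ev]

lemma up_ev_sub {X Y : Mt k} (hX : Up 1 X) (hY : Up 1 Y) (m : ℕ) (f : List Bool → ℚ) :
    Up (m + 1) (ev X Y (m + 1) f - ev X Y m f) := by
  induction m generalizing f with
  | zero =>
    rw [ev_succ, ev_zero, ev_zero, ev_zero]
    have : f [] • (1 : Mt k) + f [true] • 1 * X + f [false] • 1 * Y - f [] • 1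
      = f [true] • X + f [false] • Y := by
      simp only [smul_mul_assoc, one_mul]; abel
    rw [this]
    exact (hX.smul _).add (hY.smul _)
  | succ m ih =>
    rw [ev_succ X Y (m + 1), ev_succ X Y m f]
    have h1 := (ih fun u => f (true :: u)).mul hX
    have h2 := (ih fun u => f (false :: u)).mul hY
    convert h1.add h2 using 1
    noncomm_ring

lemma ev_stable {X Y : Mt k} (hX : Up 1 X) (hY : Up 1 Y) (f : List Bool → ℚ) :
    ev X Y (k + 1) f = ev X Y k f := sub_eq_zero.1 (up_ev_sub hX hY k f).eq_zero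

/-- right multiplication by `t c` -/
def rho (c : Bool) (t : ℚ) (f : List Bool → ℚ) : List Bool → ℚ
  | [] => 0
  | d :: u => if d = c then t * f u else 0

/-- right multiplication by the inverse of `1 - t c` -/
def geo (c : Bool) (t : ℚ) (f : List Bool → ℚ) : List Bool → ℚ
  | [] => f []
  | d :: u => f (d :: u) + if d = c then t * geo c t f u else 0

/-- right multiplication by `1 + t c` -/
def lin (c : Bool) (t : ℚ) (f : List Bool → ℚ) : List Bool → ℚ := fun u => f u + rho c t f u

/-- the series `1` -/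
def dlt : List Bool → ℚ
  | [] => 1
  | _ :: _ => 0

lemma geo_eq (c : Bool) (t : ℚ) (f : List Bool → ℚ) :
    geo c t f = fun u => f u + rho c t (geo c t f) u := by
  funext u
  cases u <;> simp [geo, rho]

lemma ev_rho {X Y : Mt k} (hX : Up 1 X) (hY : Up 1 Y) (c : Bool) (t : ℚ) (f : List Bool → ℚ) :
    ev X Y k (rho c t f) = ev X Y k f * (t • lett X Y c) := by
  rw [← ev_stable hX hY, ev_succ]
  cases c
  · simp [rho, lett, ev_zero_fun, ev_smul]
  · simp [rho, lett, ev_zero_fun, ev_smul]

lemma ev_geo {X Y : Mt k} (hX : Up 1 X) (hY : Up 1 Y) (c : Bool) (t : ℚ) (f : List Bool → ℚ) :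
    ev X Y k (geo c t f) * (1 - t • lett X Y c) = ev X Y k f := by
  have h : ev X Y k (geo c t f) = ev X Y k f + ev X Y k (geo c t f) * (t • lett X Y c) := by
    conv_lhs => rw [geo_eq, ev_add, ev_rho hX hY]
  rw [mul_sub, mul_one]
  exact sub_eq_of_eq_add h

lemma ev_lin {X Y : Mt k} (hX : Up 1 X) (hY : Up 1 Y) (c : Bool) (t : ℚ) (f : List Bool → ℚ) :
    ev X Y k (lin c t f) = ev X Y k f * (1 + t • lett X Y c) := by
  unfold lin
  rw [ev_add, ev_rho hX hY, mul_add, mul_one]

lemma ev_dlt (X Y : Mt k) (m : ℕ) : ev X Y m dlt = 1 := by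
  cases m with
  | zero => simp [ev_zero, dlt]
  | succ m => simp [ev_succ, dlt, ev_zero_fun]

/-- the matrix of a letter attached to a word `v` read from left to right -/
def lm (k : ℕ) (v : List Bool) (c : Bool) : Mt k :=
  fun i j => if (j : ℕ) = i + 1 ∧ v[(i : ℕ)]? = some c then 1 else 0

lemma up_lm (v : List Bool) (c : Bool) : Up 1 (lm k v c) := fun i j h => by
  simp only [lm]
  rw [if_neg]
  omega

lemma mul_lm_zero (M : Mt k) (v : List Bool) (c : Bool) (i : Fin (k + 1)) :
    (M * lm k v c) i 0 = 0 := by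
  rw [Matrix.mul_apply]
  exact sum_eq_zero fun l _ => by simp [lm]

lemma mul_lm_succ (M : Mt k) (v : List Bool) (c : Bool) (i : Fin (k + 1)) (j : Fin k) :
    (M * lm k v c) i j.succ = if v[(j : ℕ)]? = some c then M i j.castSucc else 0 := by
  rw [Matrix.mul_apply, sum_eq_single j.castSucc]
  · simp [lm]
  · intro l _ hl
    have : ¬ ((j : ℕ) = l) := fun h => hl (Fin.ext (by simp [h]))
    simp [lm, this]
  · simp

lemma ev_entry (v : List Bool) (hv : v.length = k) (m : ℕ) (f : List Bool → ℚ) (j : Fin (k + 1))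
    (hj : (j : ℕ) ≤ m) :
    ev (lm k v true) (lm k v false) m f 0 j = f (v.take j).reverse := by
  induction m generalizing f j with
  | zero =>
    obtain rfl : j = 0 := Fin.ext (by simpa using hj)
    simp [ev_zero]
  | succ m ih =>
    rw [ev_succ]
    revert hj
    refine Fin.cases (fun _ => ?_) (fun j hj => ?_) j
    · simp [mul_lm_zero]
    · have hj' : (j : ℕ) < v.length := by omega
      have h1 : (1 : Mt k) 0 j.succ = 0 := Matrix.one_apply_ne (Fin.succ_ne_zero j).symm
      have h2 : ((j.castSucc : Fin (k + 1)) : ℕ) ≤ m := by simpa using hj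
      simp only [Matrix.add_apply, Matrix.smul_apply, h1, mul_lm_succ, ih _ _ h2, Fin.val_succ,
        List.take_succ_eq_append_getElem hj', List.getElem?_eq_getElem hj', List.reverse_append,
        Fin.val_castSucc]
      cases v[(j : ℕ)] <;> simp

/-- the letter matrices of a word `w` whose head is the last letter -/
def xm (w : List Bool) : Mt w.length := lm _ w.reverse true

/-- the letter matrices of a word `w` whose head is the last letter -/
def ym (w : List Bool) : Mt w.length := lm _ w.reverse false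

lemma ev_corner (w : List Bool) (f : List Bool → ℚ) :
    ev (xm w) (ym w) w.length f 0 (Fin.last _) = f w := by
  rw [xm, ym, ev_entry _ (by simp) _ _ _ (by simp)]
  simp [List.take_of_length_le]

lemma xm_row (w : List Bool) (hw : w.getLast? = some false) (M : Mt w.length) (j) :
    (xm w * M) 0 j = 0 := by
  rw [Matrix.mul_apply]
  refine sum_eq_zero fun l _ => ?_
  have : w.reverse[0]? = some false := by
    rw [← List.head?_eq_getElem?, List.head?_reverse, hw]
  simp only [xm, lm, Fin.val_zero, this]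
  simp

lemma ym_col (w : List Bool) (hw : w.head? = some true) (M : Mt w.length) (i) :
    (M * ym w) i (Fin.last _) = 0 := by
  cases w with
  | nil => simp at hw
  | cons c u =>
    obtain rfl : c = true := by simpa using hw
    have := mul_lm_succ (k := u.length + 1) M (true :: u).reverse false i (Fin.last _)
    refine this.trans ?_
    simp

end Pool.Agent.MP_cbe134_nt

end

section

/- The refactorization (q - y)(p - x) = (p - a)(q - b) for `p + q = 1`. -/

open Finset

namespace Pool.Agent.MP_cbe134_nt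

variable {k : ℕ}

lemma exists_lam {x y : Mt k} (hx : Up 1 x) (hy : Up 1 y) :
    ∃ lam : Mt k, lam = 1 + x * lam + lam * y ∧ Up 0 lam := by
  let s : ℕ → Mt k := fun m => Nat.rec 1 (fun _ L => 1 + x * L + L * y) m
  have hs : ∀ m, s (m + 1) = 1 + x * s m + s m * y := fun m => rfl
  have h0 : ∀ m, Up 0 (s m) := by
    intro m
    induction m with
    | zero => exact Up.one
    | succ m ih =>
      rw [hs]
      exact (Up.one.add (hx.mul' ih (by omega))).add (ih.mul' hy (by omega))
  have h1 : ∀ m, Up (m + 1) (s (m + 1) - s m) := by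
    intro m
    induction m with
    | zero =>
      have : s (0 + 1) - s 0 = x + y := by
        rw [hs]
        change 1 + x * 1 + 1 * y - 1 = _
        noncomm_ring
      rw [this]
      exact hx.add hy
    | succ m ih =>
      have : s (m + 1 + 1) - s (m + 1) = x * (s (m + 1) - s m) + (s (m + 1) - s m) * y := by
        linear_combination (norm := noncomm_ring) hs (m + 1) - hs m
      rw [this]
      exact (hx.mul' ih (by omega)).add (ih.mul' hy (by omega))
  refine ⟨s k, ?_, h0 k⟩
  rw [← hs]
  exact (sub_eq_zero.1 (h1 k).eq_zero).symm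

/-- the data of the refactorization -/
structure Tup (x y a b L R : Mt k) : Prop where
  ua : Up 1 a
  ub : Up 1 b
  uL : Up 0 L
  uR : Up 0 R
  e1 : a - b = x - y
  e2 : a * (1 - b) = (1 - y) * x
  eL : L * (1 - y) = 1
  eR : (1 - x) * R = 1
  la : ∃ M, L * a = x * M
  bR : ∃ M, b * R = M * y

lemma exists_tup {x y : Mt k} (hx : Up 1 x) (hy : Up 1 y) :
    ∃ a b L R, Tup x y a b L R := by
  obtain ⟨lam, hl, ul⟩ := exists_lam hx hy
  have h1 : Up 1 (1 - lam) := by
    have : 1 - lam = -(x * lam + lam * y) := by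
      conv_lhs => rw [hl]
      noncomm_ring
    rw [this]
    exact ((hx.mul' ul (by omega)).add (ul.mul' hy (by omega))).neg
  obtain ⟨mu, m1, m2, um⟩ := h1.exists_inv
  rw [sub_sub_cancel] at m1 m2
  obtain ⟨L, l1, l2, uL⟩ := hy.exists_inv
  obtain ⟨R, r1, r2, uR⟩ := hx.exists_inv
  have ea : 1 - y - mu = mu * x * lam := by
    have : mu * lam = mu * (1 + x * lam + lam * y) := by rw [← hl]
    have h2 : mu * (1 + x * lam + lam * y) = mu + mu * x * lam + (mu * lam) * y := by noncomm_ring
    rw [h2, m1] at this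
    rw [this]
    noncomm_ring
  have eb : 1 - x - mu = lam * y * mu := by
    have : lam * mu = (1 + x * lam + lam * y) * mu := by rw [← hl]
    have h2 : (1 + x * lam + lam * y) * mu = mu + x * (lam * mu) + lam * y * mu := by noncomm_ring
    rw [h2, m2] at this
    rw [this]
    noncomm_ring
  refine ⟨1 - y - mu, 1 - x - mu, L, R, ?_, ?_, uL, uR, by noncomm_ring, ?_, l1, r2, ?_, ?_⟩
  · rw [ea]
    exact (um.mul hx).mul' ul (by omega)
  · rw [eb]
    exact (ul.mul hy).mul' um (by omega)
  · have h2 : (1 - y - mu) * mu = mu * x := by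
      rw [ea, mul_assoc, m2, mul_one]
    have : (1 - y - mu) * (1 - (1 - x - mu)) = (1 - y) * x - mu * x + (1 - y - mu) * mu := by
      noncomm_ring
    rw [this, h2, sub_add_cancel]
  · have h2 : lam * (1 - y) = 1 + x * lam := by
      rw [mul_sub, mul_one, sub_eq_iff_eq_add]
      exact hl
    have h3 : L * mu = 1 - x * (lam * L * mu) := by
      have : (1 + x * lam) * (L * mu) = 1 := by
        rw [← h2, mul_assoc, ← mul_assoc (1 - y), l2, one_mul, m2]
      rw [← this]
      noncomm_ring
    refine ⟨lam - lam * L * mu * x * lam, ?_⟩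
    rw [ea, ← mul_assoc, ← mul_assoc, h3]
    noncomm_ring
  · have h2 : (1 - x) * lam = 1 + lam * y := by
      linear_combination (norm := noncomm_ring) hl
    have h3 : mu * R = 1 - (mu * R * lam) * y := by
      have : (mu * R) * (1 + lam * y) = 1 := by
        rw [← h2, mul_assoc, ← mul_assoc R, r1, one_mul, m1]
      rw [← this]
      noncomm_ring
    refine ⟨lam - lam * y * (mu * R * lam), ?_⟩
    rw [eb]
    linear_combination (norm := noncomm_ring) lam * y * h3

namespace Tup

variable {x y a b L R : Mt k}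

lemma refac (T : Tup x y a b L R) (p q : ℚ) (hpq : p + q = 1) :
    (q • 1 - y) * (p • 1 - x) = (p • 1 - a) * (q • 1 - b) := by
  obtain rfl : q = 1 - p := by linarith
  have ha : a = b + (x - y) := by rw [← T.e1]; abel
  have h2 := T.e2
  have e1 : ((1 - p) • (1 : Mt k) - y) * (p • 1 - x)
      = (p * (1 - p)) • 1 - p • y + p • x - (1 - y) * x := by
    simp only [sub_mul, mul_sub, smul_mul_assoc, mul_smul_comm, one_mul, mul_one]
    module
  have e2 : (p • (1 : Mt k) - a) * ((1 - p) • 1 - b)
      = (p * (1 - p)) • 1 - p • b + p • a - a * (1 - b) := by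
    simp only [sub_mul, mul_sub, smul_mul_assoc, mul_smul_comm, one_mul, mul_one]
    module
  rw [e1, e2, h2]
  have : p • a = p • b + p • x - p • y := by
    rw [ha]; simp only [smul_add, smul_sub]; abel
  rw [this]
  abel

lemma up_conj (T : Tup x y a b L R) (hx : Up 1 x) (hy : Up 1 y) (c : Bool) :
    Up 3 (lett a b c * (1 + x - y) - (1 + x - y) * lett x y c) := by
  have h0 : a = x - y * x + a * b := by
    linear_combination (norm := noncomm_ring) T.e2
  have hb : b = a - x + y := by linear_combination (norm := abel1) -T.e1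
  have h1 : Up 2 (a - x) := by
    have : a - x = -(y * x) + a * b := by
      conv_lhs => rw [h0]
      noncomm_ring
    rw [this]
    exact (hy.mul hx).neg.add (T.ua.mul T.ub)
  have h2 : Up 2 (b - y) := by
    have : b - y = a - x := by rw [hb]; abel
    rwa [this]
  have h3 : Up 3 (a - x - (x * y - y * x)) := by
    have : a - x - (x * y - y * x) = (a - x) * b + x * (b - y) := by
      conv_lhs => rw [h0]
      noncomm_ring
    rw [this]
    exact (h1.mul T.ub).add (hx.mul h2)
  cases c
  · have : b * (1 + x - y) - (1 + x - y) * y =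
        (a - x - (x * y - y * x)) + (b - y) * (x - y) := by
      rw [hb]
      noncomm_ring
    simp only [lett]
    rw [this]
    exact h3.add (h2.mul (hx.sub hy))
  · have : a * (1 + x - y) - (1 + x - y) * x =
        (a - x - (x * y - y * x)) + (a - x) * (x - y) := by
      noncomm_ring
    simp only [lett]
    rw [this]
    exact h3.add (h1.mul (hx.sub hy))

lemma up_mon_conj (T : Tup x y a b L R) (hx : Up 1 x) (hy : Up 1 y) (u : List Bool) :
    Up (u.length + 2) (mon a b u * (1 + x - y) - (1 + x - y) * mon x y u) := by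
  induction u with
  | nil =>
    simp only [mon, one_mul, mul_one, sub_self]
    exact Up.zero
  | cons c u ih =>
    have : mon a b (c :: u) * (1 + x - y) - (1 + x - y) * mon x y (c :: u) =
        mon a b u * (lett a b c * (1 + x - y) - (1 + x - y) * lett x y c)
        + (mon a b u * (1 + x - y) - (1 + x - y) * mon x y u) * lett x y c := by
      simp only [mon]
      noncomm_ring
    rw [this]
    exact ((up_mon T.ua T.ub u).mul' (T.up_conj hx hy c) (by simp)).add
      (ih.mul' (up_lett hx hy c) (by simp))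

lemma up_main (T : Tup x y a b L R) (hx : Up 1 x) (hy : Up 1 y) (u : List Bool) :
    Up (u.length + 2) (L * mon a b u * R - (1 + x) * mon x y u * (1 + y)) := by
  have hL : L = 1 + L * y := by
    have := T.eL
    rw [mul_sub, mul_one, sub_eq_iff_eq_add] at this
    exact this
  have hR : R = 1 + x * R := by
    have := T.eR
    rw [sub_mul, one_mul, sub_eq_iff_eq_add] at this
    exact this
  have h1 : Up 2 (L * (1 + x - y) - (1 + x)) := by
    have : L * (1 + x - y) - (1 + x) = L * y * x + (L * (1 - y) - 1) + (L - (1 + L * y)) * x := by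
      noncomm_ring
    rw [this, T.eL, ← hL, sub_self, sub_self, zero_mul, add_zero, add_zero]
    exact (T.uL.mul hy).mul hx
  have h2 : Up 2 (R - (1 + x - y) * (1 + y)) := by
    have : R - (1 + x - y) * (1 + y) = x * x * R - x * y + y * y + (R - (1 + x * R))
        + x * (R - (1 + x * R)) := by
      noncomm_ring
    rw [this, ← hR, sub_self, mul_zero, add_zero, add_zero]
    exact (((hx.mul hx).mul T.uR).sub (hx.mul hy)).add (hy.mul hy)
  have h1y : Up 0 (1 + y) := Up.one.add (hy.mono (by omega))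
  have : L * mon a b u * R - (1 + x) * mon x y u * (1 + y) =
      L * mon a b u * (R - (1 + x - y) * (1 + y))
      + L * (mon a b u * (1 + x - y) - (1 + x - y) * mon x y u) * (1 + y)
      + (L * (1 + x - y) - (1 + x)) * mon x y u * (1 + y) := by
    noncomm_ring
  rw [this]
  refine (Up.add ?_ ?_).add ?_
  · exact (T.uL.mul (up_mon T.ua T.ub u)).mul' h2 (by omega)
  · exact (T.uL.mul (T.up_mon_conj hx hy u)).mul' h1y (by omega)
  · exact (h1.mul (up_mon hx hy u)).mul' h1y (by omega)

end Tup

/-- admissible words: empty, or starting with `y` and ending with `x` -/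
def AdmW (u : List Bool) : Prop := u = [] ∨ (u.head? = some true ∧ u.getLast? = some false)

/-- the structure constants of the difference equation -/
def cst (w : List Bool) (a b L R : Mt w.length) (u : List Bool) : ℚ :=
  (L * mon a b u * R - mon (xm w) (ym w) u) 0 (Fin.last _)

lemma cst_ne_zero {w : List Bool} (h1 : w.head? = some true) (h2 : w.getLast? = some false)
    {a b L R : Mt w.length} (T : Tup (xm w) (ym w) a b L R) (u : List Bool)
    (h : cst w a b L R u ≠ 0) : u.length + 2 ≤ w.length ∧ AdmW u := by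
  have hx : Up 1 (xm w) := up_lm _ _
  have hy : Up 1 (ym w) := up_lm _ _
  constructor
  · by_contra hlt
    apply h
    have h3 := (T.up_main hx hy u).corner (by omega)
    have : L * mon a b u * R - mon (xm w) (ym w) u =
        (L * mon a b u * R - (1 + xm w) * mon (xm w) (ym w) u * (1 + ym w))
        + xm w * (mon (xm w) (ym w) u * (1 + ym w)) + mon (xm w) (ym w) u * ym w := by
      noncomm_ring
    rw [cst, this, Matrix.add_apply, Matrix.add_apply, h3, xm_row w h2, ym_col w h1]
    simp
  · by_contra hn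
    apply h
    have hne : u ≠ [] := fun h => hn (Or.inl h)
    by_cases hh : u.head? = some true
    · obtain ⟨v, c, rfl⟩ := List.eq_nil_or_concat u |>.resolve_left hne
      cases c
      · exact absurd (Or.inr ⟨hh, by simp⟩) hn
      · obtain ⟨M, hM⟩ := T.la
        rw [cst, List.concat_eq_append, mon_append, mon_append, Matrix.sub_apply]
        simp only [lett]
        rw [← mul_assoc, hM, mul_assoc, mul_assoc, xm_row w h2, xm_row w h2, sub_zero]
    · cases u with
      | nil => exact absurd rfl hne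
      | cons c v =>
        cases c
        · obtain ⟨M, hM⟩ := T.bR
          rw [cst, Matrix.sub_apply]
          simp only [mon, lett]
          rw [mul_assoc, mul_assoc, hM, ← mul_assoc, ← mul_assoc, ym_col w h1, ym_col w h1,
            sub_zero]
        · simp at hh

end Pool.Agent.MP_cbe134_nt

end

section

/- The difference equation and its consequence: the sums `F` are combinations of truncated
multiple zeta values of indices without ones. -/

open Finset

namespace Pool.Agent.MP_cbe134_nt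

variable {k : ℕ}

/-- the grading automorphism -/
def th (c : ℚ) (M : Mt k) : Mt k := fun i j => c ^ ((j : ℤ) - (i : ℤ)) * M i j

lemma th_sub (c : ℚ) (M N : Mt k) : th c (M - N) = th c M - th c N := by
  ext i j; simp [th, mul_sub]

lemma th_one (c : ℚ) : th c (1 : Mt k) = 1 := by
  ext i j
  by_cases h : i = j
  · subst h; simp [th]
  · simp [th, Matrix.one_apply_ne h]

lemma th_mul {c : ℚ} (hc : c ≠ 0) (M N : Mt k) : th c (M * N) = th c M * th c N := by
  ext i j
  simp only [th, Matrix.mul_apply, mul_sum]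
  refine sum_congr rfl fun l _ => ?_
  have : c ^ ((j : ℤ) - (i : ℤ)) = c ^ ((l : ℤ) - (i : ℤ)) * c ^ ((j : ℤ) - (l : ℤ)) := by
    rw [← zpow_add₀ hc]; congr 1; ring
  rw [this]; ring

lemma up_th {m : ℕ} (c : ℚ) {M : Mt k} (h : Up m M) : Up m (th c M) := fun i j hij => by
  simp [th, h i j hij]

lemma th_lm (c : ℚ) (v : List Bool) (d : Bool) : th c (lm k v d) = c • lm k v d := by
  ext i j
  simp only [th, lm, Matrix.smul_apply, smul_eq_mul]
  split_ifs with h
  · rw [h.1]; simp
  · simp

lemma th_corner (c : ℚ) (M : Mt k) : th c M 0 (Fin.last k) = c ^ k * M 0 (Fin.last k) := by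
  simp [th]

lemma th_mon {c : ℚ} (hc : c ≠ 0) (X Y : Mt k) (u : List Bool) :
    th c (mon X Y u) = mon (th c X) (th c Y) u := by
  induction u with
  | nil => exact th_one c
  | cons d u ih => cases d <;> simp [mon, lett, th_mul hc, ih]

lemma mon_smul (t : ℚ) (X Y : Mt k) (u : List Bool) :
    mon (t • X) (t • Y) u = t ^ u.length • mon X Y u := by
  induction u with
  | nil => simp [mon]
  | cons d u ih => cases d <;> simp [mon, lett, ih, pow_succ, smul_smul, mul_comm]

lemma Tup.th {x y a b L R : Mt k} (T : Tup x y a b L R) {c : ℚ} (hc : c ≠ 0) :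
    Tup (th c x) (th c y) (th c a) (th c b) (th c L) (th c R) := by
  refine ⟨up_th c T.ua, up_th c T.ub, up_th c T.uL, up_th c T.uR, ?_, ?_, ?_, ?_, ?_, ?_⟩
  · rw [← th_sub, ← th_sub, T.e1]
  · rw [← th_one c, ← th_sub, ← th_sub, ← th_mul hc, ← th_mul hc, T.e2]
  · rw [← th_one c, ← th_sub, ← th_mul hc, T.eL]
  · rw [← th_one c, ← th_sub, ← th_mul hc, T.eR]
  · obtain ⟨M, hM⟩ := T.la
    exact ⟨_root_.Pool.Agent.MP_cbe134_nt.th c M, by rw [← th_mul hc, ← th_mul hc, hM]⟩
  · obtain ⟨M, hM⟩ := T.bR
    exact ⟨_root_.Pool.Agent.MP_cbe134_nt.th c M, by rw [← th_mul hc, ← th_mul hc, hM]⟩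

/-- coefficients of `∏_{n ≤ j} (1 - y/(N-n))⁻¹ (1 - x/n)⁻¹` -/
def AA (N : ℕ) : ℕ → List Bool → ℚ
  | 0 => dlt
  | j + 1 => geo true ((j + 1 : ℚ)⁻¹) (geo false (((N : ℚ) - (j + 1))⁻¹) (AA N j))

lemma ev_AA {X Y : Mt k} (hX : Up 1 X) (hY : Up 1 Y) (N j : ℕ) :
    ev X Y k (AA N (j + 1)) * (1 - (j + 1 : ℚ)⁻¹ • X) * (1 - ((N : ℚ) - (j + 1))⁻¹ • Y)
      = ev X Y k (AA N j) := by
  have h1 := ev_geo hX hY true ((j + 1 : ℚ)⁻¹) (geo false (((N : ℚ) - (j + 1))⁻¹) (AA N j))
  have h2 := ev_geo hX hY false (((N : ℚ) - (j + 1))⁻¹) (AA N j)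
  simp only [lett] at h1 h2
  rw [AA, h1, h2]

lemma swap_factor {x y a b L R : Mt k} {N : ℚ} (hN : N ≠ 0)
    (T : Tup (N⁻¹ • x) (N⁻¹ • y) a b L R) {n : ℚ} (hn : n ≠ 0) (hn' : N - n ≠ 0) :
    (1 - (N - n)⁻¹ • y) * (1 - n⁻¹ • x) =
      (1 - n⁻¹ • (N • a)) * (1 - (N - n)⁻¹ • (N • b)) := by
  have h := T.refac (n / N) ((N - n) / N) (by field_simp; ring)
  have e1 : (1 - (N - n)⁻¹ • y) = (N / (N - n)) • (((N - n) / N) • (1 : Mt k) - N⁻¹ • y) := by
    rw [smul_sub, smul_smul, smul_smul]
    congr 1
    · rw [show N / (N - n) * ((N - n) / N) = 1 by field_simp, one_smul]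
    · congr 1; field_simp
  have e2 : (1 - n⁻¹ • x) = (N / n) • ((n / N) • (1 : Mt k) - N⁻¹ • x) := by
    rw [smul_sub, smul_smul, smul_smul]
    congr 1
    · rw [show N / n * (n / N) = 1 by field_simp, one_smul]
    · congr 1; field_simp
  have e3 : (1 - (N - n)⁻¹ • (N • b)) = (N / (N - n)) • (((N - n) / N) • (1 : Mt k) - b) := by
    rw [smul_sub, smul_smul, smul_smul]
    congr 1
    · rw [show N / (N - n) * ((N - n) / N) = 1 by field_simp, one_smul]
    · congr 1; field_simp
  have e4 : (1 - n⁻¹ • (N • a)) = (N / n) • ((n / N) • (1 : Mt k) - a) := by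
    rw [smul_sub, smul_smul, smul_smul]
    congr 1
    · rw [show N / n * (n / N) = 1 by field_simp, one_smul]
    · congr 1; field_simp
  rw [e1, e2, e3, e4, smul_mul_smul_comm, smul_mul_smul_comm, h, mul_comm (N / n)]

lemma ev_AA_step {x y a b L R : Mt k} (hx : Up 1 x) (hy : Up 1 y) (M : ℕ)
    (T : Tup ((M + 1 : ℚ)⁻¹ • x) ((M + 1 : ℚ)⁻¹ • y) a b L R) :
    ev x y k (AA (M + 2) (M + 1)) =
      L * ev ((M + 1 : ℚ) • a) ((M + 1 : ℚ) • b) k (AA (M + 1) M) * R := by
  have hN : (M + 1 : ℚ) ≠ 0 := by positivity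
  have ha : Up 1 ((M + 1 : ℚ) • a) := T.ua.smul _
  have hb : Up 1 ((M + 1 : ℚ) • b) := T.ub.smul _
  have key : ∀ j, j ≤ M → (1 - (M + 1 : ℚ)⁻¹ • y) * ev x y k (AA (M + 2) (j + 1))
      * (1 - (j + 1 : ℚ)⁻¹ • x) = ev ((M + 1 : ℚ) • a) ((M + 1 : ℚ) • b) k (AA (M + 1) j) := by
    intro j
    induction j with
    | zero =>
      intro _
      have h := ev_AA hx hy (M + 2) 0
      rw [AA, ev_dlt] at h
      rw [AA, ev_dlt, mul_assoc]
      have e : ((M + 2 : ℕ) : ℚ) - ((0 : ℕ) + 1) = M + 1 := by push_cast; ring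
      rw [e] at h
      exact mul_eq_one_comm.1 h
    | succ j ih =>
      intro hj
      have h1 := ev_AA hx hy (M + 2) (j + 1)
      have h2 := ev_AA ha hb (M + 1) j
      have e : ((M + 2 : ℕ) : ℚ) - ((j + 1 : ℕ) + 1) = (M + 1) - (j + 1) := by push_cast; ring
      have e' : ((M + 1 : ℕ) : ℚ) = M + 1 := by push_cast; ring
      rw [e] at h1
      rw [e'] at h2
      have hj' : (M + 1 : ℚ) - (j + 1) ≠ 0 := by
        have : (j : ℚ) + 1 ≤ M := by exact_mod_cast hj
        linarith
      have h3 := swap_factor hN T (n := j + 1) (by positivity) hj'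
      have h4 := ih (by omega)
      refine (ha.smul (j + 1 : ℚ)⁻¹).cancel ((hb.smul ((M + 1 : ℚ) - (j + 1))⁻¹).cancel ?_)
      rw [h2, ← h4, ← h1, mul_assoc _ (1 - (j + 1 : ℚ)⁻¹ • _), ← h3]
      simp only [mul_assoc]
  rw [← key M le_rfl]
  calc _ = (L * (1 - (M + 1 : ℚ)⁻¹ • y)) * ev x y k (AA (M + 2) (M + 1))
      * ((1 - (M + 1 : ℚ)⁻¹ • x) * R) := by rw [T.eL, T.eR, one_mul, mul_one]
    _ = _ := by simp only [mul_assoc]

lemma ev_sandwich (X Y L R : Mt k) (m : ℕ) (f : List Bool → ℚ) (i j : Fin (k + 1)) :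
    (L * ev X Y m f * R) i j = ((wl m).map fun u => f u * (L * mon X Y u * R) i j).sum := by
  unfold ev
  induction wl m with
  | nil => simp
  | cons u l ih =>
    simp only [List.map_cons, List.sum_cons, mul_add, add_mul, Matrix.add_apply, ih,
      mul_smul_comm, smul_mul_assoc, Matrix.smul_apply, smul_eq_mul]

/-- the sums `F_N (w)` -/
def FF (w : List Bool) (N : ℕ) : ℚ := AA N (N - 1) w

lemma FF_step {w : List Bool} (h1 : w.head? = some true) (h2 : w.getLast? = some false)
    {a b L R : Mt w.length} (T : Tup (xm w) (ym w) a b L R) (N : ℕ) :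
    FF w (N + 1) = FF w N + ((wl w.length).map fun u =>
      cst w a b L R u * (((N : ℚ)⁻¹) ^ (w.length - u.length) * FF u N)).sum := by
  cases N with
  | zero =>
    have : ∀ u, cst w a b L R u * ((((0 : ℕ) : ℚ)⁻¹) ^ (w.length - u.length) * FF u 0) = 0 := by
      intro u
      by_cases h : cst w a b L R u = 0
      · rw [h, zero_mul]
      · have := (cst_ne_zero h1 h2 T u h).1
        simp [zero_pow (by omega : w.length - u.length ≠ 0)]
    simp only [this]
    simp [FF, AA]
  | succ M =>
    have hx : Up 1 (xm w) := up_lm _ _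
    have hy : Up 1 (ym w) := up_lm _ _
    have hN : (M + 1 : ℚ) ≠ 0 := by positivity
    have hc : (M + 1 : ℚ)⁻¹ ≠ 0 := inv_ne_zero hN
    have T' := T.th hc
    rw [xm, ym, th_lm, th_lm, ← xm, ← ym] at T'
    have e1 := ev_AA_step hx hy M T'
    have e2 : FF w (M + 1 + 1) = ev (xm w) (ym w) w.length (AA (M + 2) (M + 1)) 0 (Fin.last _) :=
      (ev_corner w _).symm
    have e3 : FF w (M + 1) = (1 * ev (xm w) (ym w) w.length (AA (M + 1) M) * 1) 0 (Fin.last _) := by
      rw [one_mul, mul_one]; exact (ev_corner w _).symm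
    rw [e2, e1, e3, ev_sandwich, ev_sandwich, ← List.sum_map_add]
    congr 1
    refine List.map_congr_left fun u _ => ?_
    have e4 : mon (xm w) (ym w) u = (M + 1 : ℚ) ^ u.length • th (M + 1 : ℚ)⁻¹ (mon (xm w) (ym w) u) := by
      rw [th_mon hc, xm, ym, th_lm, th_lm, ← mon_smul, smul_smul, smul_smul, mul_inv_cancel₀ hN,
        one_smul, one_smul]
    have e5 : (1 * mon (xm w) (ym w) u * 1) 0 (Fin.last _) =
        (M + 1 : ℚ) ^ u.length * (((M + 1 : ℚ)⁻¹) ^ w.length * mon (xm w) (ym w) u 0 (Fin.last _)) := by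
      rw [one_mul, mul_one, ← th_corner, ← smul_eq_mul, ← Matrix.smul_apply, ← e4]
    rw [e5, mon_smul, ← th_mon hc, mul_smul_comm, smul_mul_assoc, ← th_mul hc, ← th_mul hc,
      Matrix.smul_apply, th_corner, smul_eq_mul]
    have e6 : FF u (M + 1) = AA (M + 1) M u := rfl
    have e7 : cst w a b L R u * ((((M + 1 : ℕ) : ℚ)⁻¹) ^ (w.length - u.length)) =
        cst w a b L R u * ((M + 1 : ℚ) ^ u.length * ((M + 1 : ℚ)⁻¹) ^ w.length) := by
      by_cases h : cst w a b L R u = 0
      · rw [h, zero_mul, zero_mul]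
      · have := (cst_ne_zero h1 h2 T u h).1
        obtain ⟨d, hd⟩ : ∃ d, w.length = d + u.length := ⟨w.length - u.length, by omega⟩
        have e8 : w.length - u.length = d := by omega
        congr 1
        rw [e8, show ((M + 1 : ℚ)⁻¹) ^ w.length = ((M + 1 : ℚ)⁻¹) ^ (d + u.length) by rw [← hd]]
        push_cast
        rw [pow_add, inv_pow _ u.length]
        field_simp
    rw [← mul_assoc (cst w a b L R u), e7, e6, cst, Matrix.sub_apply]
    ring

/-- the span of the truncated sums of weight `k` for indices without ones -/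
def SS (k : ℕ) : Submodule ℚ (ℕ → ℚ) :=
  Submodule.span ℚ {f | ∃ v : List ℕ, (∀ a ∈ v, 2 ≤ a) ∧ v.sum = k ∧ f = Zt v}

/-- the summation operator -/
def sig (a : ℕ) (f : ℕ → ℚ) : ℕ → ℚ := fun N => ∑ n ∈ range N, ((n : ℚ)⁻¹) ^ a * f n

lemma sig_mem {a k : ℕ} (ha : 2 ≤ a) {f : ℕ → ℚ} (hf : f ∈ SS k) : sig a f ∈ SS (a + k) := by
  induction hf using Submodule.span_induction with
  | mem f hf =>
    obtain ⟨v, h1, h2, rfl⟩ := hf
    refine Submodule.subset_span ⟨a :: v, ?_, by simp [h2], rfl⟩
    intro b hb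
    rcases List.mem_cons.1 hb with rfl | hb
    · exact ha
    · exact h1 b hb
  | zero =>
    have : sig a 0 = 0 := by funext N; simp [sig]
    rw [this]; exact zero_mem _
  | add f g _ _ hf hg =>
    have : sig a (f + g) = sig a f + sig a g := by
      funext N; simp [sig, mul_add, sum_add_distrib]
    rw [this]; exact add_mem hf hg
  | smul c f _ hf =>
    have : sig a (c • f) = c • sig a f := by
      funext N; simp [sig, mul_sum, mul_left_comm]
    rw [this]; exact Submodule.smul_mem _ c hf

lemma AA_nil (N j : ℕ) : AA N j [] = 1 := by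
  induction j with
  | zero => rfl
  | succ j ih => simpa [AA, geo] using ih

theorem FF_mem (w : List Bool) (hw : AdmW w) : FF w ∈ SS w.length := by
  induction h : w.length using Nat.strong_induction_on generalizing w with
  | _ k ih =>
    rcases hw with rfl | ⟨h1, h2⟩
    · refine Submodule.subset_span ⟨[], by simp, by simpa using h, ?_⟩
      funext N
      exact AA_nil _ _
    · obtain ⟨a, b, L, R, T⟩ := exists_tup (x := xm w) (y := ym w) (up_lm _ _) (up_lm _ _)
      have e : FF w = ((wl w.length).map fun u =>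
          cst w a b L R u • sig (w.length - u.length) (FF u)).sum := by
        funext N
        rw [Pi.list_sum_apply, List.map_map]
        induction N with
        | zero =>
          have : FF w 0 = 0 := by
            cases w with
            | nil => simp at h1
            | cons c u => rfl
          rw [this]
          symm
          refine List.sum_eq_zero fun x hx => ?_
          obtain ⟨u, -, rfl⟩ := List.mem_map.1 hx
          simp [sig]
        | succ N ihN =>
          rw [FF_step h1 h2 T, ihN, ← List.sum_map_add]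
          congr 1
          refine List.map_congr_left fun u _ => ?_
          simp [sig, sum_range_succ, mul_add]
      rw [e]
      refine list_sum_mem fun f hf => ?_
      obtain ⟨u, -, rfl⟩ := List.mem_map.1 hf
      by_cases hc : cst w a b L R u = 0
      · rw [hc, zero_smul]; exact zero_mem _
      · obtain ⟨h3, h4⟩ := cst_ne_zero h1 h2 T u hc
        refine Submodule.smul_mem _ _ ?_
        have := sig_mem (a := w.length - u.length) (by omega) (ih u.length (by omega) u h4 rfl)
        rwa [show w.length - u.length + u.length = k by omega] at this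

end Pool.Agent.MP_cbe134_nt

end

section

/- The discretized iterated integral formula of Maesaka, Seki and Watanabe. -/

open Finset

namespace Pool.Agent.MP_cbe134_nt

variable {k : ℕ}

/-- coefficients of `∏_{n ≤ j} (1 + y/(N-n)) (1 - x/n)⁻¹` -/
def AF (N : ℕ) : ℕ → List Bool → ℚ
  | 0 => dlt
  | j + 1 => geo true ((j + 1 : ℚ)⁻¹) (lin false (((N : ℚ) - (j + 1))⁻¹) (AF N j))

lemma ev_AF {X Y : Mt k} (hX : Up 1 X) (hY : Up 1 Y) (N j : ℕ) :
    ev X Y k (AF N (j + 1)) * (1 - (j + 1 : ℚ)⁻¹ • X)
      = ev X Y k (AF N j) * (1 + ((N : ℚ) - (j + 1))⁻¹ • Y) := by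
  have h1 := ev_geo hX hY true ((j + 1 : ℚ)⁻¹) (lin false (((N : ℚ) - (j + 1))⁻¹) (AF N j))
  have h2 := ev_lin hX hY false (((N : ℚ) - (j + 1))⁻¹) (AF N j)
  simp only [lett] at h1 h2
  rw [AF, h1, h2]

lemma ev_AF_step {x y : Mt k} (hx : Up 1 x) (hy : Up 1 y) (M : ℕ) :
    ∃ W : Mt k, ev x y k (AF (M + 2) (M + 1)) = (1 + x * W) * (ev x y k (AF (M + 1) M) +
      ev x y k (geo true (M + 1 : ℚ)⁻¹ (rho false (M + 1 : ℚ)⁻¹ (AF (M + 1) M)))) := by
  have hN : (M + 1 : ℚ) ≠ 0 := by positivity
  set c : ℚ := (M + 1 : ℚ)⁻¹ with hc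
  obtain ⟨G, g1, -, -⟩ := ((hx.smul c).sub (hy.smul c)).exists_inv
  set Mx : Mt k := 1 - (c • x - c • y) with hMx
  have hv : (1 + x * (c • G)) * Mx = 1 + c • y := by
    rw [add_mul, mul_assoc, smul_mul_assoc, g1, hMx, mul_smul_comm, mul_one, one_mul]
    abel
  refine ⟨c • G, ?_⟩
  have key : ∀ j, j ≤ M → ev x y k (AF (M + 2) (j + 1)) * (1 - (j + 1 : ℚ)⁻¹ • x) =
      (1 + x * (c • G)) * ev x y k (AF (M + 1) j) * Mx := by
    intro j
    induction j with
    | zero =>
      intro _
      have h := ev_AF hx hy (M + 2) 0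
      have e : ((M + 2 : ℕ) : ℚ) - ((0 : ℕ) + 1) = M + 1 := by push_cast; ring
      rw [h, e, AF, AF, ev_dlt, mul_one, one_mul, hv]
    | succ j ih =>
      intro hj
      have h1 := ev_AF hx hy (M + 2) (j + 1)
      have h2 := ev_AF hx hy (M + 1) j
      have e : ((M + 2 : ℕ) : ℚ) - ((j + 1 : ℕ) + 1) = (M + 1) - (j + 1) := by push_cast; ring
      have e' : ((M + 1 : ℕ) : ℚ) = M + 1 := by push_cast; ring
      rw [e] at h1
      rw [e'] at h2
      have hj' : (M + 1 : ℚ) - (j + 1) ≠ 0 := by
        have : (j : ℚ) + 1 ≤ M := by exact_mod_cast hj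
        linarith
      have hj0 : (j + 1 : ℚ) ≠ 0 := by positivity
      have h4 := ih (by omega)
      obtain ⟨A, a1, a2, -⟩ := (hx.smul (j + 1 : ℚ)⁻¹).exists_inv
      set al : Mt k := 1 - (j + 1 : ℚ)⁻¹ • x with hal
      set be : Mt k := 1 + ((M + 1 : ℚ) - (j + 1))⁻¹ • y with hbe
      have hM : Mx = ((j + 1 : ℚ) * c) • al + (((M + 1 : ℚ) - (j + 1)) * c) • be := by
        rw [hMx, hal, hbe, smul_sub, smul_add, smul_smul, smul_smul]
        have e1 : (j + 1 : ℚ) * c * (j + 1 : ℚ)⁻¹ = c := by field_simp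
        have e2 : ((M + 1 : ℚ) - (j + 1)) * c * ((M + 1 : ℚ) - (j + 1))⁻¹ = c := by field_simp
        have e3 : (1 : Mt k) = ((j + 1 : ℚ) * c) • (1 : Mt k)
            + (((M + 1 : ℚ) - (j + 1)) * c) • (1 : Mt k) := by
          rw [← add_smul, show (j + 1 : ℚ) * c + ((M + 1 : ℚ) - (j + 1)) * c = 1 by
            rw [hc]; field_simp; ring, one_smul]
        rw [e1, e2]
        conv_lhs => rw [e3]
        abel
      have h5 : Mx * A * be = be * A * Mx := by
        rw [hM]
        simp only [add_mul, mul_add, smul_mul_assoc, mul_smul_comm, mul_assoc, a1, mul_one]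
        rw [← mul_assoc al, a2]
        simp only [one_mul]
      have h6 : ev x y k (AF (M + 2) (j + 1)) =
          (1 + x * (c • G)) * ev x y k (AF (M + 1) j) * Mx * A := by
        rw [← h4, mul_assoc, a2, mul_one]
      have h7 : ev x y k (AF (M + 1) (j + 1)) = ev x y k (AF (M + 1) j) * be * A := by
        rw [← h2, mul_assoc, a2, mul_one]
      rw [h1, h6, h7]
      calc _ = (1 + x * (c • G)) * ev x y k (AF (M + 1) j) * (Mx * A * be) := by
            simp only [mul_assoc]
        _ = _ := by rw [h5]; simp only [mul_assoc]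
  refine (hx.smul c).cancel ?_
  have h8 := ev_geo hx hy true c (rho false c (AF (M + 1) M))
  rw [ev_rho hx hy] at h8
  simp only [lett] at h8
  rw [key M le_rfl, mul_assoc, mul_assoc, add_mul (ev x y k (AF (M + 1) M)), h8, ← mul_add, hMx]
  congr 2
  abel

/-- the flat sums -/
def FL (w : List Bool) (N : ℕ) : ℚ := AF N (N - 1) w

lemma FL_step {w : List Bool} (h2 : w.getLast? = some false) (M : ℕ) :
    FL w (M + 2) = FL w (M + 1) +
      geo true (M + 1 : ℚ)⁻¹ (rho false (M + 1 : ℚ)⁻¹ (AF (M + 1) M)) w := by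
  obtain ⟨W, hW⟩ := ev_AF_step (x := xm w) (y := ym w) (up_lm _ _) (up_lm _ _) M
  have h := congrFun (congrFun hW 0) (Fin.last _)
  rw [add_mul, one_mul, mul_assoc, Matrix.add_apply, xm_row w h2, add_zero, Matrix.add_apply,
    ev_corner, ev_corner, ev_corner] at h
  exact h

/-- the word of an index; the head of the list is the last letter -/
def wd : List ℕ → List Bool
  | [] => []
  | a :: k => List.replicate (a - 1) true ++ false :: wd k

lemma wd_length (k : List ℕ) (hk : ∀ a ∈ k, 1 ≤ a) : (wd k).length = k.sum := by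
  induction k with
  | nil => rfl
  | cons a k ih =>
    have := hk a (by simp)
    simp [wd, ih fun b hb => hk b (by simp [hb])]
    omega

lemma wd_last (a : ℕ) (k : List ℕ) : (wd (a :: k)).getLast? = some false := by
  induction k generalizing a with
  | nil => simp [wd]
  | cons b k ih =>
    rw [wd, List.getLast?_append, List.getLast?_cons, ih b]
    simp

lemma admW_wd (k : List ℕ) (hk : Adm k) : AdmW (wd k) := by
  cases k with
  | nil => exact Or.inl rfl
  | cons a k =>
    refine Or.inr ⟨?_, wd_last a k⟩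
    have ha : 2 ≤ a := hk.2 a (by simp)
    obtain ⟨b, rfl⟩ : ∃ b, a = b + 2 := ⟨a - 2, by omega⟩
    simp [wd, List.replicate_succ]

lemma geo_rho (t : ℚ) (f : List Bool → ℚ) (i : ℕ) (u : List Bool) :
    geo true t (rho false t f) (List.replicate i true ++ false :: u) = t ^ (i + 1) * f u := by
  induction i with
  | zero => simp [geo, rho]
  | succ i ih =>
    simp only [List.replicate_succ, List.cons_append, geo, rho, ih]
    simp
    ring

lemma AF_nil (N j : ℕ) : AF N j [] = 1 := by
  induction j with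
  | zero => rfl
  | succ j ih => simpa [AF, geo, lin, rho] using ih

theorem FL_wd (k : List ℕ) (hk : ∀ a ∈ k, 1 ≤ a) (N : ℕ) : FL (wd k) N = Zt k N := by
  induction k generalizing N with
  | nil => exact AF_nil _ _
  | cons a k ih =>
    have ha := hk a (by simp)
    have ih' := ih fun b hb => hk b (by simp [hb])
    have h0 : dlt (wd (a :: k)) = 0 := by
      cases h : wd (a :: k) with
      | nil => simp [wd] at h
      | cons c u => rfl
    induction N with
    | zero => rw [Zt_cons_zero]; exact h0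
    | succ N ihN =>
      cases N with
      | zero =>
        rw [Zt_succ, Zt_cons_zero]
        simp only [Nat.cast_zero, inv_zero, zero_pow (by omega : a ≠ 0), zero_mul, add_zero]
        exact h0
      | succ M =>
        rw [FL_step (wd_last a k), ihN, Zt_succ a k (M + 1), wd, geo_rho, ← ih' (M + 1),
          show a - 1 + 1 = a by omega]
        push_cast
        rfl

end Pool.Agent.MP_cbe134_nt

end

section

/- The comparison of the two discretizations, and the generation of the multiple zeta values by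
indices without ones (Hirose, Maesaka, Seki, Watanabe). -/

open Finset Filter Topology

namespace Pool.Agent.MP_cbe134_nt

lemma geo_nonneg {c : Bool} {t : ℚ} {f : List Bool → ℚ} (ht : 0 ≤ t) (hf : ∀ u, 0 ≤ f u)
    (u : List Bool) : 0 ≤ geo c t f u := by
  induction u with
  | nil => exact hf _
  | cons d u ih =>
    simp only [geo]
    have := hf (d :: u)
    split_ifs
    · positivity
    · simpa using this

lemma le_geo {c : Bool} {t : ℚ} {f : List Bool → ℚ} (ht : 0 ≤ t) (hf : ∀ u, 0 ≤ f u)
    (u : List Bool) : f u ≤ geo c t f u := by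
  cases u with
  | nil => exact le_rfl
  | cons d u =>
    simp only [geo]
    have := geo_nonneg (c := c) ht hf u
    split_ifs
    · exact le_add_of_nonneg_right (by positivity)
    · simp

/-- the weight of the letter `c` at step `i` -/
def wt (N : ℕ) (c : Bool) (i : ℕ) : ℚ := if c then (i + 1 : ℚ)⁻¹ else ((N : ℚ) - (i + 1))⁻¹

/-- the sum of the squares of the weights of `y` -/
def sg (N j : ℕ) : ℚ := ∑ i ∈ range j, wt N false i ^ 2

section

variable {M : ℕ}

lemma wt_nonneg (c : Bool) {i : ℕ} (hi : i < M) : 0 ≤ wt (M + 1) c i := by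
  unfold wt
  split_ifs
  · positivity
  · have : (i : ℚ) < M := by exact_mod_cast hi
    push_cast
    exact inv_nonneg.2 (by linarith)

lemma sum_wt_le (c : Bool) {j : ℕ} (hj : j ≤ M) :
    ∑ i ∈ range j, wt (M + 1) c i ≤ harmonic M := by
  refine (sum_le_sum_of_subset_of_nonneg (range_subset_range.2 hj)
    fun i hi _ => wt_nonneg c (mem_range.1 hi)).trans (le_of_eq ?_)
  cases c
  · rw [harmonic, ← sum_range_reflect]
    refine sum_congr rfl fun i hi => ?_
    have hi := mem_range.1 hi
    obtain ⟨d, rfl⟩ : ∃ d, M = d + i + 1 := ⟨M - 1 - i, by omega⟩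
    rw [show d + i + 1 - 1 - i = d by omega]
    simp only [wt]
    push_cast
    congr 1
    ring
  · simp [harmonic, wt]

lemma AA_true (N j : ℕ) (u : List Bool) :
    AA N (j + 1) (true :: u) = AA N j (true :: u) + wt N true j * AA N (j + 1) u := by
  simp [AA, geo, wt]

lemma AA_false (N j : ℕ) (u : List Bool) :
    AA N (j + 1) (false :: u) =
      AA N j (false :: u) + wt N false j * geo false (wt N false j) (AA N j) u := by
  simp [AA, geo, wt]

lemma AF_true (N j : ℕ) (u : List Bool) :
    AF N (j + 1) (true :: u) = AF N j (true :: u) + wt N true j * AF N (j + 1) u := by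
  simp [AF, geo, wt, lin, rho]

lemma AF_false (N j : ℕ) (u : List Bool) :
    AF N (j + 1) (false :: u) = AF N j (false :: u) + wt N false j * AF N j u := by
  simp [AF, geo, wt, lin, rho]

lemma AA_nonneg {j : ℕ} (hj : j ≤ M) (u : List Bool) : 0 ≤ AA (M + 1) j u := by
  induction j generalizing u with
  | zero => cases u <;> simp [AA, dlt]
  | succ j ih =>
    exact geo_nonneg (wt_nonneg (M := M) true hj)
      (geo_nonneg (wt_nonneg (M := M) false hj) (ih (by omega))) u

lemma geo_le_AA {j : ℕ} (hj : j + 1 ≤ M) (u : List Bool) :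
    geo false (wt (M + 1) false j) (AA (M + 1) j) u ≤ AA (M + 1) (j + 1) u :=
  le_geo (wt_nonneg (M := M) true hj)
    (geo_nonneg (wt_nonneg (M := M) false hj) (AA_nonneg (by omega))) u

lemma harmonic_nonneg' (M : ℕ) : 0 ≤ harmonic M := by
  simpa using sum_wt_le (M := M) true (Nat.zero_le _)

lemma AA_le (u : List Bool) {j : ℕ} (hj : j ≤ M) : AA (M + 1) j u ≤ harmonic M ^ u.length := by
  have hH := harmonic_nonneg' M
  induction u generalizing j with
  | nil => simp [AA_nil]
  | cons c u ih =>
    have key : ∀ j, j ≤ M →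
        AA (M + 1) j (c :: u) ≤ (∑ i ∈ range j, wt (M + 1) c i) * harmonic M ^ u.length := by
      intro j
      induction j with
      | zero => intro _; simp [AA, dlt]
      | succ j ihj =>
        intro hj
        have h1 := ihj (by omega)
        have h2 := wt_nonneg (M := M) c hj
        rw [sum_range_succ, add_mul]
        cases c
        · rw [AA_false]
          have := (geo_le_AA hj u).trans (ih hj)
          gcongr
        · rw [AA_true]
          have := ih hj
          gcongr
    refine (key j hj).trans ?_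
    rw [List.length_cons, pow_succ']
    gcongr
    exact sum_wt_le c hj

lemma sg_nonneg (N j : ℕ) : 0 ≤ sg N j := sum_nonneg fun _ _ => sq_nonneg _

lemma sg_succ (N j : ℕ) : sg N (j + 1) = sg N j + wt N false j ^ 2 := sum_range_succ _ _

lemma one_le_harmonic (hM : 1 ≤ M) : 1 ≤ harmonic M := by
  simpa [wt] using sum_wt_le (M := M) true hM

lemma delta_bound (hM : 1 ≤ M) (u : List Bool) {j : ℕ} (hj : j ≤ M) :
    0 ≤ AA (M + 1) j u - AF (M + 1) j u ∧
      AA (M + 1) j u - AF (M + 1) j u ≤ u.length * harmonic M ^ u.length * sg (M + 1) j := by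
  have hH := one_le_harmonic hM
  induction u generalizing j with
  | nil => simp [AA_nil, AF_nil]
  | cons c u ih =>
    set H := harmonic M with hHdef
    have key : ∀ j, j ≤ M → 0 ≤ AA (M + 1) j (c :: u) - AF (M + 1) j (c :: u) ∧
        AA (M + 1) j (c :: u) - AF (M + 1) j (c :: u) ≤
          u.length * H ^ u.length * sg (M + 1) j * (∑ i ∈ range j, wt (M + 1) c i)
          + H ^ (u.length + 1) * sg (M + 1) j := by
      intro j
      induction j with
      | zero => intro _; simp [AA, AF, sg]
      | succ j ihj =>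
        intro hj
        obtain ⟨h0, h1⟩ := ihj (by omega)
        have h2 := wt_nonneg (M := M) c hj
        have h3 : 0 ≤ ∑ i ∈ range j, wt (M + 1) c i :=
          sum_nonneg fun i hi => wt_nonneg c (by have := mem_range.1 hi; omega)
        have h4 := sg_nonneg (M + 1) j
        have h5 : 0 ≤ H ^ u.length := by positivity
        have h6 : (0 : ℚ) ≤ u.length * H ^ u.length := by positivity
        rw [sum_range_succ, sg_succ]
        cases c
        · obtain ⟨g0, g1⟩ := ih (j := j) (by omega)
          set t := wt (M + 1) false j with ht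
          have g2 : AA (M + 1) j u ≤ geo false t (AA (M + 1) j) u :=
            le_geo h2 (AA_nonneg (by omega)) u
          have g3 : geo false t (AA (M + 1) j) u ≤ AA (M + 1) j u + t * H ^ (u.length + 1) := by
            cases u with
            | nil => exact le_add_of_nonneg_right (by positivity)
            | cons d v =>
              simp only [geo]
              have g4 := (geo_le_AA hj v).trans (AA_le v hj)
              have g5 : H ^ v.length ≤ H ^ ((d :: v).length + 1) :=
                pow_le_pow_right₀ hH (by simp; omega)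
              have g6 := g4.trans g5
              split_ifs
              · gcongr
              · gcongr
                positivity
          rw [AA_false, AF_false, ← ht]
          constructor
          · nlinarith [mul_nonneg h2 (sub_nonneg.2 g2), mul_nonneg h2 g0]
          · have a1 := mul_le_mul_of_nonneg_left g3 h2
            have a2 := mul_le_mul_of_nonneg_left g1 h2
            have a3 : 0 ≤ u.length * H ^ u.length * t ^ 2 *
              (∑ i ∈ range j, wt (M + 1) false i + t) := by positivity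
            nlinarith
        · obtain ⟨g0, g1⟩ := ih (j := j + 1) hj
          rw [sg_succ] at g1
          set t := wt (M + 1) false j with ht
          set r := wt (M + 1) true j with hr
          rw [AA_true, AF_true, ← hr]
          constructor
          · nlinarith [mul_nonneg h2 g0]
          · have a2 := mul_le_mul_of_nonneg_left g1 h2
            have a3 : 0 ≤ u.length * H ^ u.length * t ^ 2 *
              (∑ i ∈ range j, wt (M + 1) true i) := by positivity
            have a4 : 0 ≤ H ^ (u.length + 1) * t ^ 2 := by positivity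
            nlinarith
    obtain ⟨k0, k1⟩ := key j hj
    refine ⟨k0, k1.trans ?_⟩
    have h4 := sg_nonneg (M + 1) j
    have h5 := sum_wt_le c hj
    have : u.length * H ^ u.length * sg (M + 1) j * (∑ i ∈ range j, wt (M + 1) c i) ≤
        u.length * H ^ u.length * sg (M + 1) j * H := by gcongr
    simp only [List.length_cons, Nat.cast_add, Nat.cast_one, pow_succ] at this ⊢
    nlinarith

lemma sg_le {j : ℕ} (hj : j < M) : sg (M + 1) (j + 1) ≤ 2 * wt (M + 1) false j := by
  have key : ∀ j, j ≤ M → sg (M + 1) j ≤ 2 * ((M + 1 : ℚ) - j)⁻¹ := by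
    intro j
    induction j with
    | zero => intro _; simp [sg]; positivity
    | succ j ih =>
      intro hj
      rw [sg_succ]
      have h1 := ih (by omega)
      obtain ⟨d, rfl⟩ : ∃ d, M = d + j + 1 := ⟨M - j - 1, by omega⟩
      have e1 : wt (d + j + 1 + 1) false j = (d + 1 : ℚ)⁻¹ := by
        simp only [wt]; push_cast; congr 1; ring
      have e2 : (((d + j + 1 : ℕ) : ℚ) + 1 - j) = d + 2 := by push_cast; ring
      have e3 : (((d + j + 1 : ℕ) : ℚ) + 1 - (j + 1 : ℕ)) = d + 1 := by push_cast; ring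
      rw [e2] at h1
      rw [e1, e3]
      have : 2 * (d + 2 : ℚ)⁻¹ + (d + 1 : ℚ)⁻¹ ^ 2 ≤ 2 * (d + 1 : ℚ)⁻¹ := by
        rw [← sub_nonneg]
        have : 2 * (d + 1 : ℚ)⁻¹ - (2 * (d + 2 : ℚ)⁻¹ + (d + 1 : ℚ)⁻¹ ^ 2)
          = d / ((d + 1) ^ 2 * (d + 2)) := by field_simp; ring
        rw [this]
        positivity
      linarith
  simpa [wt] using key (j + 1) hj

lemma delta_final (hM : 1 ≤ M) (u : List Bool) :
    FF (true :: u) (M + 1) - FL (true :: u) (M + 1) ≤
      4 * u.length * harmonic M ^ (u.length + 1) / (M + 1) := by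
  have hH := one_le_harmonic hM
  set H := harmonic M with hHdef
  have key : ∀ j, j ≤ M → AA (M + 1) j (true :: u) - AF (M + 1) j (true :: u) ≤
      u.length * H ^ u.length * (2 / (M + 1)) *
        (∑ i ∈ range j, wt (M + 1) true i + ∑ i ∈ range j, wt (M + 1) false i) := by
    intro j
    induction j with
    | zero => intro _; simp [AA, AF]
    | succ j ih =>
      intro hj
      have h1 := ih (by omega)
      have h2 := (delta_bound hM u hj).2
      have h3 := sg_le (M := M) hj
      have h4 : wt (M + 1) true j * wt (M + 1) false j =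
          (wt (M + 1) true j + wt (M + 1) false j) / (M + 1) := by
        have : (j : ℚ) + 1 ≤ M := by exact_mod_cast hj
        have h5 : (M + 1 : ℚ) - (j + 1) ≠ 0 := by linarith
        simp only [wt]
        push_cast
        field_simp
        ring
      have h5 := wt_nonneg (M := M) true hj
      have h6 : u.length * H ^ u.length * sg (M + 1) (j + 1) ≤
          u.length * H ^ u.length * (2 * wt (M + 1) false j) := by gcongr
      have h7 := mul_le_mul_of_nonneg_left (h2.trans h6) h5
      have h8 : wt (M + 1) true j * (u.length * H ^ u.length * (2 * wt (M + 1) false j)) =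
          u.length * H ^ u.length * (2 / (M + 1)) * (wt (M + 1) true j + wt (M + 1) false j) := by
        rw [show wt (M + 1) true j * (u.length * H ^ u.length * (2 * wt (M + 1) false j)) =
          2 * u.length * H ^ u.length * (wt (M + 1) true j * wt (M + 1) false j) by ring, h4]
        ring
      rw [AA_true, AF_true, sum_range_succ, sum_range_succ]
      nlinarith
  refine (key M le_rfl).trans ?_
  have h1 := sum_wt_le (M := M) true le_rfl
  have h2 := sum_wt_le (M := M) false le_rfl
  calc _ ≤ u.length * H ^ u.length * (2 / (M + 1)) * (H + H) := by gcongr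
    _ = _ := by ring

end

lemma tendsto_harm (m : ℕ) :
    Tendsto (fun M : ℕ => ((harmonic M : ℚ) : ℝ) ^ m / (M + 1)) atTop (𝓝 0) := by
  have h1 := Real.tendsto_pow_log_div_mul_add_atTop (Real.exp (-1)) 1 m (Real.exp_pos _).ne'
  have h2 : Tendsto (fun M : ℕ => Real.exp 1 * (M : ℝ)) atTop atTop :=
    tendsto_natCast_atTop_atTop.const_mul_atTop (Real.exp_pos _)
  refine squeeze_zero' (Eventually.of_forall fun M => ?_) ?_ (h1.comp h2)
  · have : (0 : ℝ) ≤ harmonic M := by exact_mod_cast harmonic_nonneg' M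
    positivity
  · filter_upwards [eventually_ge_atTop 1] with M hM
    have h0 : (0 : ℝ) ≤ harmonic M := by exact_mod_cast harmonic_nonneg' M
    have hM' : (M : ℝ) ≠ 0 := by positivity
    have h3 := harmonic_le_one_add_log M
    simp only [Function.comp]
    rw [Real.log_mul (Real.exp_pos _).ne' hM', Real.log_exp, ← mul_assoc, ← Real.exp_add]
    simp only [neg_add_cancel, Real.exp_zero, one_mul]
    gcongr

theorem tendsto_FF (k : List ℕ) (hk : Adm k) :
    Tendsto (fun N => (FF (wd k) N : ℝ)) atTop (𝓝 (mzv k)) := by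
  have h1 := tendsto_Zt k hk
  rcases admW_wd k hk with h | ⟨h, -⟩
  · refine h1.congr fun N => ?_
    rw [← FL_wd k hk.1, h, FF, FL, AA_nil, AF_nil]
  · obtain ⟨u, hu⟩ : ∃ u, wd k = true :: u := by
      cases e : wd k with
      | nil => simp [e] at h
      | cons c u => exact ⟨u, by simpa [e] using h⟩
    have h2 : Tendsto (fun M : ℕ => ((FF (wd k) (M + 1) - Zt k (M + 1) : ℚ) : ℝ)) atTop (𝓝 0) := by
      have h3 := (tendsto_harm (u.length + 1)).const_mul (4 * (u.length : ℝ))
      rw [mul_zero] at h3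
      refine squeeze_zero' ?_ ?_ h3
      · filter_upwards [eventually_ge_atTop 1] with M hM
        rw [← FL_wd k hk.1, hu]
        exact_mod_cast (delta_bound hM (true :: u) le_rfl).1
      · filter_upwards [eventually_ge_atTop 1] with M hM
        rw [← FL_wd k hk.1, hu, ← mul_div_assoc]
        exact_mod_cast delta_final hM u
    rw [← tendsto_add_atTop_iff_nat 1]
    have h4 := h2.add ((tendsto_add_atTop_iff_nat 1).2 h1)
    rw [zero_add] at h4
    refine h4.congr fun M => ?_
    push_cast
    ring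

/-- the span of the values of weight `k` without ones -/
noncomputable def No1 (k : ℕ) : Submodule ℚ ℝ :=
  Submodule.span ℚ {x | ∃ v : List ℕ, (∀ a ∈ v, 2 ≤ a) ∧ v.sum = k ∧ x = mzv v}

lemma adm_of_two_le {v : List ℕ} (h : ∀ a ∈ v, 2 ≤ a) : Adm v :=
  ⟨fun a ha => (by have := h a ha; omega), fun a ha => h a (List.mem_of_mem_head? ha)⟩

lemma lim_of_SS {k : ℕ} {f : ℕ → ℚ} (hf : f ∈ SS k) :
    ∃ z ∈ No1 k, Tendsto (fun N => (f N : ℝ)) atTop (𝓝 z) := by
  induction hf using Submodule.span_induction with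
  | mem f hf =>
    obtain ⟨v, h1, h2, rfl⟩ := hf
    exact ⟨mzv v, Submodule.subset_span ⟨v, h1, h2, rfl⟩, tendsto_Zt v (adm_of_two_le h1)⟩
  | zero => exact ⟨0, zero_mem _, by simp⟩
  | add f g _ _ hf hg =>
    obtain ⟨x, hx, hx'⟩ := hf
    obtain ⟨y, hy, hy'⟩ := hg
    exact ⟨x + y, add_mem hx hy, by simpa using hx'.add hy'⟩
  | smul c f _ hf =>
    obtain ⟨x, hx, hx'⟩ := hf
    refine ⟨c • x, Submodule.smul_mem _ c hx, ?_⟩
    simpa [Rat.smul_def] using hx'.const_mul (c : ℝ)

/-- Every multiple zeta value is a rational combination of values without ones. -/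
theorem Zsp_le_No1 (k : ℕ) : Zsp k ≤ No1 k := by
  refine Submodule.span_le.2 ?_
  rintro x ⟨w, h1, h2, rfl⟩
  obtain ⟨z, hz, hz'⟩ := lim_of_SS (FF_mem (wd w) (admW_wd w h1))
  rw [wd_length w h1.1, h2] at hz
  rw [tendsto_nhds_unique (tendsto_FF w h1) hz']
  exact hz

end Pool.Agent.MP_cbe134_nt

end

section

/- Block coordinates of indices without ones and the cotangent integral formula. -/

open Finset PowerSeries

namespace Pool.Agent.MP_cbe134_nt

/-- the iterated integral `J^{n₀} C J^{n₁} ⋯ C J^{n_l} 1` -/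
noncomputable def W : (l : ℕ) → (Fin (l + 1) → ℕ) → ℝ⟦X⟧
  | 0, n => (Jop ^ n 0) 1
  | l + 1, n => (Jop ^ n 0) (Cop (W l (Fin.tail n)))

/-- raise the first entry -/
def raise : List ℕ → List ℕ
  | [] => []
  | b :: k => (b + 1) :: k

/-- the index with blocks of twos of lengths `a i`, separated by raisings of the next entry -/
def word : (l : ℕ) → (Fin (l + 1) → ℕ) → List ℕ
  | 0, a => List.replicate (a 0) 2
  | l + 1, a => List.replicate (a 0) 2 ++ raise (word l (Fin.tail a))

lemma good_W (l : ℕ) (n : Fin (l + 1) → ℕ) : Good (W l n) := by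
  induction l with
  | zero => exact Good.one.jpow _
  | succ l ih => exact (ih _).cop.jpow _

lemma cc_Jpow {g : ℝ⟦X⟧} (hg : constantCoeff g = 0) (n : ℕ) :
    constantCoeff ((Jop ^ n) g) = 0 := by
  cases n with
  | zero => exact hg
  | succ n => rw [pow_succ', Module.End.mul_apply, cc_Jop]

lemma cc_W (l : ℕ) (n : Fin (l + 1) → ℕ) (hn : n (Fin.last l) ≠ 0) :
    constantCoeff (W l n) = 0 := by
  cases l with
  | zero =>
    obtain ⟨m, hm⟩ := Nat.exists_eq_succ_of_ne_zero hn
    have : n 0 = m + 1 := hm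
    rw [W, this, pow_succ', Module.End.mul_apply, cc_Jop]
  | succ l => exact cc_Jpow (cc_Cop _) _

lemma tail_add_zero {l : ℕ} (n : Fin (l + 2) → ℕ) :
    Fin.tail (n + Pi.single 0 1 : Fin (l + 2) → ℕ) = Fin.tail n := by
  funext i
  simp [Fin.tail]

lemma tail_add_succ {l : ℕ} (n : Fin (l + 2) → ℕ) (j : Fin (l + 1)) :
    Fin.tail (n + Pi.single j.succ 1 : Fin (l + 2) → ℕ) = Fin.tail n + Pi.single j 1 := by
  funext i
  simp [Fin.tail, Pi.single_apply]

lemma W_add_zero (l : ℕ) (n : Fin (l + 1) → ℕ) : W l (n + Pi.single 0 1) = Jop (W l n) := by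
  cases l with
  | zero => simp [W, pow_succ']
  | succ l => simp [W, pow_succ', tail_add_zero]

lemma Th_mul_W (l : ℕ) (n : Fin (l + 1) → ℕ) (hn : l = 0 ∨ n (Fin.last l) ≠ 0) :
    Th * W l n = ∑ i, ((n i : ℝ) + 1) • W l (n + Pi.single i 1) := by
  induction l with
  | zero =>
    rw [Fin.sum_univ_one, W_add_zero, W, Th_mul_Jpow, mul_one, Th, add_smul, one_smul, add_comm,
      pow_succ', ← Module.End.mul_apply, ← pow_succ, pow_succ']
    rfl
  | succ l ih =>
    have hn' : Fin.tail n (Fin.last l) ≠ 0 := hn.resolve_left (by omega)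
    rw [Fin.sum_univ_succ, W_add_zero, W, Th_mul_Jpow, Th_mul_C _ (cc_W _ _ hn'),
      ih _ (Or.inr hn'), map_add, map_sum, map_sum, add_smul, one_smul, pow_succ',
      ← Module.End.mul_apply (Jop ^ n 0) Jop, ← pow_succ, pow_succ']
    simp only [W, tail_add_succ, map_smul, Module.End.mul_apply, Pi.add_apply,
      Pi.single_eq_of_ne (Fin.succ_ne_zero _).symm, add_zero]
    simp only [Fin.tail]
    abel

lemma evl_Th_W (l : ℕ) (n : Fin (l + 1) → ℕ) (hn : l = 0 ∨ n (Fin.last l) ≠ 0) :
    evl Th * evl (W l n) = ∑ i, ((n i : ℝ) + 1) * evl (W l (n + Pi.single i 1)) := by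
  rw [← good_Th.evl_mul (good_W l n), Th_mul_W l n hn,
    (Good.sum _ _ fun i _ => (good_W _ _).smul (by positivity)).2]
  simp only [evl_smul]

/-- the summands of a multiple zeta value, by the largest summation variable -/
noncomputable def cseq : List ℕ → ℕ → ℝ
  | [], n => if n = 0 then 1 else 0
  | a :: k, n => ((n : ℝ)⁻¹) ^ a * (Zt k n : ℝ)

lemma hasSum_cseq (w : List ℕ) (hw : Adm w) : HasSum (cseq w) (mzv w) := by
  cases w with
  | nil => rw [mzv_nil]; exact hasSum_ite_eq 0 1
  | cons a k => exact hasSum_mzv a k hw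

lemma rep_two {g : ℝ⟦X⟧} {w : List ℕ} (h : Rep g (cseq w)) :
    Rep (Jop (Jop g)) (cseq (2 :: w)) := by
  convert h.jj using 2 with n
  cases w with
  | nil =>
    cases n with
    | zero => simp [cseq]
    | succ n => simp [cseq, Zt_nil]
  | cons a k =>
    simp only [cseq, Zt_cons]
    push_cast
    rfl

lemma rep_twos {g : ℝ⟦X⟧} {w : List ℕ} (h : Rep g (cseq w)) (m : ℕ) :
    Rep ((Jop ^ (2 * m)) g) (cseq (List.replicate m 2 ++ w)) := by
  induction m with
  | zero => exact h
  | succ m ih =>
    rw [show 2 * (m + 1) = 2 * m + 1 + 1 by ring, pow_succ', pow_succ']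
    exact rep_two ih

lemma rep_raise {g : ℝ⟦X⟧} {w : List ℕ} (hw : w ≠ []) (h : Rep g (cseq w)) :
    Rep (Cop g) (cseq (raise w)) := by
  cases w with
  | nil => exact absurd rfl hw
  | cons a k =>
    convert h.cop using 2 with n
    simp only [raise, cseq]
    ring

lemma raise_length (w : List ℕ) : (raise w).length = w.length := by cases w <;> rfl

lemma raise_sum {w : List ℕ} (hw : w ≠ []) : (raise w).sum = w.sum + 1 := by
  cases w with
  | nil => exact absurd rfl hw
  | cons a k => simp [raise]; ring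

lemma raise_two_le {w : List ℕ} (hw : ∀ c ∈ w, 2 ≤ c) : ∀ c ∈ raise w, 2 ≤ c := by
  cases w with
  | nil => simp [raise]
  | cons a k =>
    intro c hc
    rcases List.mem_cons.1 hc with rfl | hc
    · have := hw a (by simp); omega
    · exact hw c (by simp [hc])

lemma word_length (l : ℕ) (a : Fin (l + 1) → ℕ) : (word l a).length = ∑ i, a i := by
  induction l with
  | zero => simp [word]
  | succ l ih => simp [word, raise_length, ih, Fin.sum_univ_succ (n := l + 1), Fin.tail]

lemma word_ne_nil (l : ℕ) (a : Fin (l + 1) → ℕ) (ha : a (Fin.last l) ≠ 0) : word l a ≠ [] := by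
  intro h
  have h1 := word_length l a
  rw [h] at h1
  exact ha (sum_eq_zero_iff.1 h1.symm _ (mem_univ _))

lemma word_two_le (l : ℕ) (a : Fin (l + 1) → ℕ) : ∀ c ∈ word l a, 2 ≤ c := by
  induction l with
  | zero => intro c hc; rw [List.eq_of_mem_replicate hc]
  | succ l ih =>
    intro c hc
    rcases List.mem_append.1 hc with hc | hc
    · rw [List.eq_of_mem_replicate hc]
    · exact raise_two_le (ih _) c hc

lemma word_sum (l : ℕ) (a : Fin (l + 1) → ℕ) (ha : l = 0 ∨ a (Fin.last l) ≠ 0) :
    (word l a).sum = 2 * ∑ i, a i + l := by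
  induction l with
  | zero => simp [word, mul_comm]
  | succ l ih =>
    have ha' : Fin.tail a (Fin.last l) ≠ 0 := ha.resolve_left (by omega)
    rw [word, List.sum_append, raise_sum (word_ne_nil _ _ ha'), ih _ (Or.inr ha'),
      Fin.sum_univ_succ (n := l + 1)]
    simp [Fin.tail]
    ring

lemma word_add_zero (l : ℕ) (a : Fin (l + 1) → ℕ) :
    word l (a + Pi.single 0 1) = 2 :: word l a := by
  cases l with
  | zero => simp [word, List.replicate_succ]
  | succ l => simp [word, List.replicate_succ, tail_add_zero]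

lemma exists_word (w : List ℕ) (hw : ∀ c ∈ w, 2 ≤ c) (hne : w ≠ []) :
    ∃ (l : ℕ) (a : Fin (l + 1) → ℕ), a (Fin.last l) ≠ 0 ∧ w = word l a := by
  induction w with
  | nil => exact absurd rfl hne
  | cons b k ih =>
    obtain ⟨c, rfl⟩ : ∃ c, b = c + 2 := ⟨b - 2, by have := hw b (by simp); omega⟩
    have hk : ∀ c ∈ k, 2 ≤ c := fun c hc => hw c (by simp [hc])
    clear hw hne
    induction c with
    | zero =>
      by_cases h : k = []
      · exact ⟨0, fun _ => 1, by simp, by simp [h, word]⟩
      · obtain ⟨l, a, h1, h2⟩ := ih hk h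
        refine ⟨l, a + Pi.single 0 1, ?_, by rw [word_add_zero, h2]⟩
        simp only [Pi.add_apply]
        omega
    | succ c ihc =>
      obtain ⟨l, a, h1, h2⟩ := ihc
      refine ⟨l + 1, Fin.cons 0 a, by simpa [← Fin.succ_last] using h1, ?_⟩
      simp [word, ← h2, raise]

lemma rep_W (l : ℕ) (a : Fin (l + 1) → ℕ) (ha : l = 0 ∨ a (Fin.last l) ≠ 0) :
    Rep (W l fun i => 2 * a i) (cseq (word l a)) := by
  induction l with
  | zero => simpa [W, word] using rep_twos (w := []) rep_one (a 0)
  | succ l ih =>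
    have ha' : Fin.tail a (Fin.last l) ≠ 0 := ha.resolve_left (by omega)
    exact rep_twos (rep_raise (word_ne_nil _ _ ha') (ih _ (Or.inr ha'))) (a 0)

/-- The cotangent integral formula. -/
theorem evl_W (l : ℕ) (a : Fin (l + 1) → ℕ) (ha : l = 0 ∨ a (Fin.last l) ≠ 0) :
    evl (W l ((fun i => 2 * a i) + Pi.single 0 1)) = evl Th * mzv (word l a) := by
  rw [W_add_zero]
  exact evl_J_rep (good_W _ _) (rep_W l a ha) (hasSum_cseq _ (adm_of_two_le (word_two_le l a)))

lemma evl_Th_sq : evl Th ^ 2 = Real.pi ^ 2 := by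
  have h0 := evl_W 0 (fun _ => 0) (Or.inl rfl)
  have h1 := evl_W 0 (fun _ => 1) (Or.inl rfl)
  have h2 := evl_Th_W 0 (fun _ => 1) (Or.inl rfl)
  have h3 := evl_Th_W 0 (fun _ => 2) (Or.inl rfl)
  rw [Fin.sum_univ_succ, Fin.sum_univ_zero] at h2 h3
  simp only [W, word, Pi.add_apply, Pi.single_eq_same, List.replicate,
    mzv_nil, mzv_two] at h0 h1 h2 h3
  norm_num at h0 h1 h2 h3
  have := evl_Th_pos
  rw [h0] at h2
  rw [h1] at h3
  have h4 : evl Th * (evl Th ^ 2 - Real.pi ^ 2) = 0 := by
    linear_combination evl Th * h2 + 2 * h3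
  exact sub_eq_zero.1 ((mul_eq_zero.1 h4).resolve_left this.ne')

lemma sum_ins_replicate (f : List ℕ → ℚ) (m : ℕ) (v : List ℕ) :
    ((ins 2 (List.replicate m 2 ++ v)).map f).sum =
      m * f (List.replicate (m + 1) 2 ++ v) +
        ((ins 2 v).map fun w => f (List.replicate m 2 ++ w)).sum := by
  induction m generalizing f with
  | zero => simp
  | succ m ih =>
    rw [List.replicate_succ, List.cons_append, ins, List.map_cons, List.sum_cons, List.map_map,
      ih]
    simp only [List.replicate_succ, List.cons_append, Function.comp]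
    push_cast
    ring

lemma sum_ins_raise (f : List ℕ → ℚ) {u : List ℕ} (hu : u ≠ []) :
    ((ins 2 (raise u)).map f).sum + f (raise (2 :: u)) =
      f (2 :: raise u) + ((ins 2 u).map fun w => f (raise w)).sum := by
  cases u with
  | nil => exact absurd rfl hu
  | cons c u =>
    simp only [raise, ins, List.map_cons, List.sum_cons, List.map_map, Function.comp_def]
    ring

lemma sum_ins_word (l : ℕ) (b : Fin (l + 1) → ℕ) (hb : l = 0 ∨ b (Fin.last l) ≠ 0)
    (f : List ℕ → ℚ) : ((ins 2 (word l b)).map f).sum =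
      ∑ i, (if i = 0 then (b i : ℚ) + 1 else (b i : ℚ)) * f (word l (b + Pi.single i 1)) := by
  induction l generalizing f with
  | zero =>
    have := sum_ins_replicate f (b 0) []
    simp only [List.append_nil, ins, List.map_cons, List.map_nil, List.sum_cons, List.sum_nil,
      ← List.replicate_succ'] at this
    simp [word, this, add_mul]
  | succ l ih =>
    have hb' : Fin.tail b (Fin.last l) ≠ 0 := hb.resolve_left (by omega)
    have h1 := sum_ins_raise (fun w => f (List.replicate (b 0) 2 ++ w)) (word_ne_nil _ _ hb')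
    have h2 := ih _ (Or.inr hb') fun w => f (List.replicate (b 0) 2 ++ raise w)
    rw [h2, Fin.sum_univ_succ, ← word_add_zero] at h1
    rw [word, sum_ins_replicate, Fin.sum_univ_succ, Fin.sum_univ_succ (n := l)]
    simp only [word, tail_add_zero, tail_add_succ, Pi.add_apply, Pi.single_eq_same,
      Pi.single_eq_of_ne (Fin.succ_ne_zero _).symm, add_zero, if_true, Fin.succ_ne_zero, if_false]
      at h1 ⊢
    have e : List.replicate (b 0) 2 ++ 2 :: raise (word l (Fin.tail b)) =
        List.replicate (b 0 + 1) 2 ++ raise (word l (Fin.tail b)) := by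
      rw [List.replicate_succ', List.append_assoc]; rfl
    rw [e] at h1
    simp only [Fin.tail] at h1 ⊢
    linear_combination h1

end Pool.Agent.MP_cbe134_nt

end

section

/- The differential relation for the values without ones, modulo `π²`. -/

open Finset MvPolynomial

namespace Pool.Agent.MP_cbe134_nt

section Poly

variable {ι : Type} [Fintype ι] [DecidableEq ι]

/-- elementary symmetric functions of the squares of the signed sums -/
noncomputable def Esym (ι : Type) [Fintype ι] [DecidableEq ι] (j : ℕ) : MvPolynomial ι ℚ :=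
  ∑ t ∈ powersetCard j (univ : Finset (ι → Bool)), ∏ η ∈ t, sgnSum η ^ 2

lemma Esym_card : Esym ι (Fintype.card (ι → Bool)) = Npoly ι := by
  rw [Esym, ← card_univ, powersetCard_self, sum_singleton, Npoly]

lemma Esym_rel : ∑ j ∈ range (Fintype.card (ι → Bool) + 1),
    (-(∑ i, X i) ^ 2) ^ (Fintype.card (ι → Bool) - j) * Esym ι j = 0 := by
  have h1 : ∏ η : ι → Bool, (sgnSum η ^ 2 + -(∑ i, (X i : MvPolynomial ι ℚ)) ^ 2) = 0 :=
    prod_eq_zero (mem_univ fun _ => true) (by simp [sgnSum])
  rw [prod_add, sum_powerset, card_univ] at h1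
  rw [← h1]
  refine sum_congr rfl fun j _ => ?_
  rw [Esym, mul_sum]
  refine sum_congr rfl fun t ht => ?_
  rw [prod_const, card_univ_sdiff, (mem_powersetCard.1 ht).2, mul_comm]

omit [DecidableEq ι] in
lemma sgnSum_hom (η : ι → Bool) : (sgnSum η).IsHomogeneous 1 := by
  refine IsHomogeneous.sum _ _ _ fun i _ => ?_
  split_ifs
  · exact isHomogeneous_X _ _
  · exact (isHomogeneous_X _ _).neg

lemma Esym_hom (j : ℕ) : (Esym ι j).IsHomogeneous (2 * j) := by
  refine IsHomogeneous.sum _ _ _ fun t ht => ?_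
  have := IsHomogeneous.prod t (fun η => sgnSum η ^ 2) (fun _ => 2)
    fun η _ => (sgnSum_hom η).pow 2
  rwa [sum_const, (mem_powersetCard.1 ht).2, smul_eq_mul, mul_comm] at this

/-- change the sign of one variable -/
noncomputable def flp (i : ι) : MvPolynomial ι ℚ →ₐ[ℚ] MvPolynomial ι ℚ :=
  aeval fun j => if j = i then -X j else X j

lemma flp_monomial (i : ι) (n : ι →₀ ℕ) (c : ℚ) :
    flp i (monomial n c) = monomial n ((-1) ^ n i * c) := by
  rw [flp, aeval_monomial, monomial_eq, Finsupp.prod_fintype _ _ (by simp),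
    Finsupp.prod_fintype _ _ (by simp)]
  have : ∏ j, (if j = i then -X j else X j : MvPolynomial ι ℚ) ^ n j =
      (∏ j, (if j = i then (-1) ^ n j else 1)) * ∏ j, X j ^ n j := by
    rw [← prod_mul_distrib]
    refine prod_congr rfl fun j _ => ?_
    split_ifs
    · exact neg_pow _ _
    · simp
  rw [this]
  simp
  ring

lemma coeff_flp (i : ι) (p : MvPolynomial ι ℚ) (n : ι →₀ ℕ) :
    coeff n (flp i p) = (-1) ^ n i * coeff n p := by
  induction p using MvPolynomial.induction_on' with
  | monomial m c =>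
    rw [flp_monomial, coeff_monomial, coeff_monomial]
    split_ifs with h
    · rw [h]
    · simp
  | add p q hp hq => simp [hp, hq, mul_add]

/-- change one sign -/
def flipEquiv (i : ι) : (ι → Bool) ≃ (ι → Bool) :=
  Function.Involutive.toPerm (fun η j => if j = i then !η j else η j) fun η => by
    funext j
    by_cases h : j = i <;> simp [h]

lemma flp_sgnSum (i : ι) (η : ι → Bool) : flp i (sgnSum η) = sgnSum (flipEquiv i η) := by
  simp only [sgnSum, map_sum]
  refine sum_congr rfl fun j _ => ?_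
  by_cases h : j = i <;> cases h' : η j <;> simp [flp, flipEquiv, h, h'] <;> simp_all

lemma flp_Esym (i : ι) (j : ℕ) : flp i (Esym ι j) = Esym ι j := by
  have h : ∀ y : (ι → Bool) → MvPolynomial ι ℚ, aeval y (esymm (ι → Bool) ℚ j) =
      ∑ t ∈ powersetCard j (univ : Finset (ι → Bool)), ∏ η ∈ t, y η := fun y => by
    simp [esymm]
  have h2 := h fun η => sgnSum (flipEquiv i η) ^ 2
  rw [Esym, map_sum]
  simp only [map_prod, map_pow, flp_sgnSum]
  rw [← h2, ← h]
  conv_rhs => rw [← rename_esymm _ _ j (flipEquiv i), aeval_rename]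
  rfl

lemma Esym_support {j : ℕ} {e : ι →₀ ℕ} (he : e ∈ (Esym ι j).support) :
    ∃ e' : ι →₀ ℕ, e = 2 • e' ∧ ∑ i, e' i = j := by
  have h0 := mem_support_iff.1 he
  have h1 : ∀ i, Even (e i) := fun i => by
    by_contra h
    have := coeff_flp i (Esym ι j) e
    rw [flp_Esym, (Nat.not_even_iff_odd.1 h).neg_one_pow] at this
    exact h0 (by linarith)
  have h2 : e.degree = 2 * j := by
    by_contra h
    exact h0 ((Esym_hom j).coeff_eq_zero h)
  have h3 : e = 2 • e.mapRange (· / 2) (by simp) := by
    ext i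
    obtain ⟨c, hc⟩ := h1 i
    simp only [Finsupp.smul_apply, Finsupp.mapRange_apply, smul_eq_mul]
    omega
  refine ⟨_, h3, ?_⟩
  rw [h3, Finsupp.degree_eq_sum] at h2
  simp only [Finsupp.smul_apply, smul_eq_mul, ← mul_sum] at h2
  omega

omit [DecidableEq ι] in
lemma pair_add (p q f : MvPolynomial ι ℚ) : pair (p + q) f = pair p f + pair q f := by
  classical
  have h : ∀ r : MvPolynomial ι ℚ, r.support ⊆ p.support ∪ q.support → pair r f =
      ∑ n ∈ p.support ∪ q.support, coeff n r * coeff n f * ∏ i, ((n i).factorial : ℚ) :=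
    fun r hr => sum_subset hr fun n _ hn => by simp [notMem_support_iff.1 hn]
  rw [h _ support_add, h _ subset_union_left, h _ subset_union_right, ← sum_add_distrib]
  exact sum_congr rfl fun n _ => by simp [add_mul]

omit [Fintype ι] [DecidableEq ι] in
lemma mem_support_mul_monomial {p : MvPolynomial ι ℚ} {m n : ι →₀ ℕ} {c : ℚ}
    (h : n ∈ (p * monomial m c).support) : ∃ e ∈ p.support, n = e + m := by
  classical
  have h0 := mem_support_iff.1 h
  rw [coeff_mul_monomial'] at h0
  split_ifs at h0 with hle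
  · exact ⟨n - m, mem_support_iff.2 (left_ne_zero_of_mul h0), (tsub_add_cancel_of_le hle).symm⟩
  · exact absurd rfl h0

end Poly

variable {l : ℕ}

/-- the value attached to a monomial -/
noncomputable def val (n : Fin (l + 1) →₀ ℕ) : ℝ :=
  (∏ i, ((n i).factorial : ℝ)) * evl (W l n)

/-- the evaluation functional -/
noncomputable def Lam (l : ℕ) : MvPolynomial (Fin (l + 1)) ℚ →ₗ[ℚ] ℝ :=
  (basisMonomials (Fin (l + 1)) ℚ).constr ℚ val

lemma Lam_monomial (n : Fin (l + 1) →₀ ℕ) (c : ℚ) : Lam l (monomial n c) = c • val n := by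
  have : monomial n c = c • basisMonomials (Fin (l + 1)) ℚ n := by
    simp [smul_monomial]
  rw [this, map_smul, Lam, Module.Basis.constr_basis]

lemma Lam_sigma (q : MvPolynomial (Fin (l + 1)) ℚ) :
    Lam l ((∑ i, X i) * (X (Fin.last l) * q)) = evl Th * Lam l (X (Fin.last l) * q) := by
  induction q using MvPolynomial.induction_on' with
  | monomial m c =>
    rw [X, monomial_mul, one_mul, sum_mul, map_sum]
    set n := Finsupp.single (Fin.last l) 1 + m with hn
    have h1 := evl_Th_W l n (Or.inr (by simp [hn]))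
    simp only [X, monomial_mul, one_mul, Lam_monomial, val]
    rw [mul_smul_comm, mul_left_comm, h1, mul_sum, smul_sum]
    refine sum_congr rfl fun i _ => ?_
    have e1 : ((Finsupp.single i 1 + n : Fin (l + 1) →₀ ℕ) : Fin (l + 1) → ℕ)
        = (n : Fin (l + 1) → ℕ) + Pi.single i 1 := by
      rw [add_comm _ n, Finsupp.coe_add, Finsupp.single_eq_pi_single]
    rw [e1, ← mul_assoc, ← mul_prod_erase _ _ (mem_univ i),
      ← mul_prod_erase _ (fun j => ((n j).factorial : ℝ)) (mem_univ i)]
    have e2 : ∏ j ∈ univ.erase i, ((((n : Fin (l + 1) → ℕ) + Pi.single i 1 : Fin (l + 1) → ℕ) j).factorial : ℝ) =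
        ∏ j ∈ univ.erase i, ((n j).factorial : ℝ) :=
      prod_congr rfl fun j hj => by simp [Pi.single_eq_of_ne (ne_of_mem_erase hj)]
    rw [e2]
    simp only [Pi.add_apply, Pi.single_eq_same, Nat.factorial_succ]
    push_cast
    congr 1
    ring
  | add p q hp hq => simp only [mul_add, map_add, hp, hq]

lemma Lam_sigma_pow (m : ℕ) (q : MvPolynomial (Fin (l + 1)) ℚ) :
    Lam l ((-(∑ i, X i) ^ 2) ^ m * (X (Fin.last l) * q)) =
      (-Real.pi ^ 2) ^ m * Lam l (X (Fin.last l) * q) := by
  induction m generalizing q with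
  | zero => simp
  | succ m ih =>
    have e : (-(∑ i, X i) ^ 2) ^ (m + 1) * (X (Fin.last l) * q) =
        -((∑ i, X i) * (X (Fin.last l) * ((∑ i, X i) * ((-(∑ i, X i) ^ 2) ^ m * q)))) := by ring
    have e2 : X (Fin.last l) * ((∑ i, X i) * ((-(∑ i, X i) ^ 2) ^ m * q)) =
        (∑ i, X i) * (X (Fin.last l) * ((-(∑ i, X i) ^ 2) ^ m * q)) := by ring
    rw [e, map_neg, Lam_sigma, e2, Lam_sigma, mul_left_comm (X _), ih, ← evl_Th_sq]
    ring

/-- all monomials of `p` have the parity pattern of an index of depth `d` -/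
def PatP (p : MvPolynomial (Fin (l + 1)) ℚ) (d : ℕ) : Prop :=
  ∀ n ∈ p.support, ∃ a : Fin (l + 1) →₀ ℕ, n = 2 • a + Finsupp.single 0 1 ∧
    (l = 0 ∨ a (Fin.last l) ≠ 0) ∧ ∑ i, a i = d

lemma val_pat (a : Fin (l + 1) →₀ ℕ) (ha : l = 0 ∨ a (Fin.last l) ≠ 0) :
    val (2 • a + Finsupp.single 0 1) = evl Th *
      ((∏ i, (((2 • a + Finsupp.single 0 1 : Fin (l + 1) →₀ ℕ) i).factorial : ℚ)) •
        mzv (word l a)) := by
  have e : ((2 • a + Finsupp.single 0 1 : Fin (l + 1) →₀ ℕ) : Fin (l + 1) → ℕ) =
      (fun i => 2 * a i) + Pi.single 0 1 := by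
    rw [Finsupp.coe_add, Finsupp.single_eq_pi_single]; rfl
  rw [val, Rat.smul_def, e, evl_W l a ha]
  simp only [Rat.cast_prod, Rat.cast_natCast]
  ring

lemma Lam_eq_sum (p : MvPolynomial (Fin (l + 1)) ℚ) :
    Lam l p = ∑ n ∈ p.support, coeff n p • val n := by
  conv_lhs => rw [p.as_sum, map_sum]
  simp only [Lam_monomial]

lemma Lam_mem {p : MvPolynomial (Fin (l + 1)) ℚ} {d : ℕ} (hp : PatP p d) :
    (evl Th)⁻¹ * Lam l p ∈ Zsp (2 * d + l) := by
  rw [Lam_eq_sum, mul_sum]
  refine sum_mem fun n hn => ?_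
  obtain ⟨a, rfl, h2, h3⟩ := hp n hn
  rw [mul_smul_comm, val_pat a h2, ← mul_assoc, inv_mul_cancel₀ evl_Th_pos.ne', one_mul]
  refine Submodule.smul_mem _ _ (Submodule.smul_mem _ _ ?_)
  exact mzv_mem_Zsp (adm_of_two_le (word_two_le _ _)) (by rw [word_sum _ _ h2, h3])

lemma patP_Esym (j : ℕ) (a : Fin (l + 1) →₀ ℕ) (c : ℚ) (ha : l = 0 ∨ a (Fin.last l) ≠ 0) :
    PatP (Esym _ j * monomial (2 • a + Finsupp.single 0 1) c) (j + ∑ i, a i) := by
  intro n hn
  obtain ⟨e, he, rfl⟩ := mem_support_mul_monomial hn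
  obtain ⟨e', rfl, h2⟩ := Esym_support he
  refine ⟨e' + a, by rw [smul_add, add_assoc], ?_, by simp [sum_add_distrib, h2]⟩
  refine ha.imp_right fun h => ?_
  simp only [Finsupp.add_apply]
  omega

lemma Lam_N_mem (m a : Fin (l + 1) →₀ ℕ) (c : ℚ) (ha : l = 0 ∨ a (Fin.last l) ≠ 0)
    (hm : Finsupp.single (Fin.last l) 1 + m = 2 • a + Finsupp.single 0 1) :
    (evl Th)⁻¹ * Lam l (Npoly _ * monomial (2 • a + Finsupp.single 0 1) c) ∈
      PiZ (2 * (Fintype.card (Fin (l + 1) → Bool) + ∑ i, a i) + l) := by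
  set D := Fintype.card (Fin (l + 1) → Bool) with hD
  have e : ∀ p : MvPolynomial (Fin (l + 1)) ℚ, p * monomial (2 • a + Finsupp.single 0 1) c =
      X (Fin.last l) * (p * monomial m c) := fun p => by
    rw [mul_left_comm, X, monomial_mul, one_mul, hm]
  have h1 := congrArg (fun p => Lam l (p * monomial (2 • a + Finsupp.single 0 1) c))
    (Esym_rel (ι := Fin (l + 1)))
  simp only [zero_mul, map_zero, sum_mul, map_sum, mul_assoc] at h1
  simp only [e, Lam_sigma_pow] at h1
  simp only [← e] at h1
  rw [sum_range_succ, ← hD, Nat.sub_self, pow_zero, one_mul, hD, Esym_card, ← hD] at h1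
  rw [eq_neg_of_add_eq_zero_right h1, mul_neg, mul_sum]
  refine neg_mem (sum_mem fun j hj => ?_)
  have hj := mem_range.1 hj
  obtain ⟨s, hs⟩ : ∃ s, D = j + s + 1 := ⟨D - j - 1, by omega⟩
  have h2 := pi_pow_mul_mem_Zsp (j := s) (Lam_mem (patP_Esym j a c ha))
  have h3 : (evl Th)⁻¹ * ((-Real.pi ^ 2) ^ (D - j) *
      Lam l (Esym _ j * monomial (2 • a + Finsupp.single 0 1) c)) =
      ((-1 : ℚ) ^ (s + 1)) • (Real.pi ^ 2 * (Real.pi ^ (2 * s) * ((evl Th)⁻¹ *
        Lam l (Esym _ j * monomial (2 • a + Finsupp.single 0 1) c)))) := by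
    rw [show D - j = s + 1 by omega, Rat.smul_def, neg_pow]
    push_cast
    ring
  rw [h3]
  exact Submodule.smul_mem _ _ (Submodule.subset_span ⟨_, _, by omega, h2, rfl⟩)

end Pool.Agent.MP_cbe134_nt

end

section

/- The depth drop, from the polynomial vanishing lemma. -/

open Finset MvPolynomial

namespace Pool.Agent.MP_cbe134_nt

variable {l : ℕ}

/-- the generating polynomial of the values of `φ` on indices without ones -/
noncomputable def Bpoly (φ : ℝ →ₗ[ℚ] ℚ) (l d : ℕ) : MvPolynomial (Fin (l + 1)) ℚ :=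
  ∑ a ∈ finsuppAntidiag (univ : Finset (Fin (l + 1))) d,
    monomial a (if a (Fin.last l) ≠ 0 then φ (mzv (word l a)) else 0)

lemma coeff_Bpoly (φ : ℝ →ₗ[ℚ] ℚ) (d : ℕ) (a : Fin (l + 1) →₀ ℕ) :
    coeff a (Bpoly φ l d) =
      if ∑ i, a i = d ∧ a (Fin.last l) ≠ 0 then φ (mzv (word l a)) else 0 := by
  simp only [Bpoly, coeff_sum, coeff_monomial, sum_ite_eq', mem_finsuppAntidiag, subset_univ,
    and_true]
  by_cases h : ∑ i, a i = d
  · simp [h]
  · simp [h]

lemma coeff_Bpoly_pos (φ : ℝ →ₗ[ℚ] ℚ) {d : ℕ} {a : Fin (l + 1) →₀ ℕ} (h1 : ∑ i, a i = d)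
    (h2 : a (Fin.last l) ≠ 0) : coeff a (Bpoly φ l d) = φ (mzv (word l a)) := by
  rw [coeff_Bpoly, if_pos ⟨h1, h2⟩]

lemma coeff_Bpoly_neg (φ : ℝ →ₗ[ℚ] ℚ) {d : ℕ} {a : Fin (l + 1) →₀ ℕ}
    (h : ¬ (∑ i, a i = d ∧ a (Fin.last l) ≠ 0)) : coeff a (Bpoly φ l d) = 0 := by
  rw [coeff_Bpoly, if_neg h]

lemma Bpoly_hom (φ : ℝ →ₗ[ℚ] ℚ) (d : ℕ) : (Bpoly φ l d).IsHomogeneous d :=
  IsHomogeneous.sum _ _ _ fun a ha => isHomogeneous_monomial _ (by
    rw [Finsupp.degree_eq_sum]; exact (mem_finsuppAntidiag.1 ha).1)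

lemma Bpoly_stuffle (φ : ℝ →ₗ[ℚ] ℚ) (d : ℕ) (h1 : PiZ (2 * d + l) ≤ LinearMap.ker φ)
    (h2 : ∀ w : List ℕ, (∀ c ∈ w, 2 ≤ c) → w.sum = 2 * d + l → w.length < d → φ (mzv w) = 0)
    (b : Fin (l + 1) →₀ ℕ) : ∑ i : Fin (l + 1), (if i = 0 then (b i : ℚ) + 1 else (b i : ℚ)) *
      coeff (b + Finsupp.single i 1) (Bpoly φ l d) = 0 := by
  have hs : ∀ i, ∑ j, (b + Finsupp.single i 1 : Fin (l + 1) →₀ ℕ) j = ∑ j, b j + 1 := fun i => by
    simp [sum_add_distrib, Finsupp.single_apply]
  by_cases hd : ∑ j, b j + 1 = d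
  swap
  · exact sum_eq_zero fun i _ => by
      rw [coeff_Bpoly_neg φ (fun h => hd (hs i ▸ h.1)), mul_zero]
  by_cases hb : l = 0 ∨ b (Fin.last l) ≠ 0
  · have hw := word_two_le l b
    have e1 := mzv_stuffle le_rfl (adm_of_two_le hw)
    have e2 := sum_ins_word l b hb fun w => φ (mzv w)
    have e3 : φ (mzv [2] * mzv (word l b)) = 0 := by
      refine h1 ?_
      have : mzv [2] * mzv (word l b) = (1 / 6 : ℚ) • (Real.pi ^ 2 * mzv (word l b)) := by
        rw [mzv_two, Rat.smul_def]; push_cast; ring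
      rw [this]
      refine Submodule.smul_mem _ _ (Submodule.subset_span ⟨_, _, ?_,
        mzv_mem_Zsp (adm_of_two_le hw) rfl, rfl⟩)
      rw [word_sum _ _ hb]
      omega
    have e4 : φ ((mer 2 (word l b)).map mzv).sum = 0 := by
      rw [map_list_sum, List.map_map]
      refine List.sum_eq_zero fun x hx => ?_
      obtain ⟨w, hw', rfl⟩ := List.mem_map.1 hx
      obtain ⟨m1, m2, m3, -⟩ := mem_mer hw'
      refine h2 w (fun c hc => ?_) ?_ ?_
      · rcases m3 c hc with h | ⟨b, -, rfl⟩
        · exact hw c h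
        · omega
      · rw [m1, word_sum _ _ hb]; omega
      · rw [m2, word_length]; omega
    rw [e1, map_add, e4, add_zero, map_list_sum, List.map_map] at e3
    rw [← e3]
    refine Eq.trans ?_ e2.symm
    refine sum_congr rfl fun i _ => ?_
    rw [coeff_Bpoly_pos φ ((hs i).trans hd), Finsupp.coe_add, Finsupp.single_eq_pi_single]
    rcases hb with rfl | hb
    · have : i = Fin.last 0 := Subsingleton.elim (α := Fin 1) _ _
      simp [this]
    · simp only [Finsupp.add_apply]
      omega
  · push Not at hb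
    refine sum_eq_zero fun i _ => ?_
    by_cases hi : i = Fin.last l
    · subst hi
      have : Fin.last l ≠ 0 := fun h => hb.1 (by simpa using congrArg Fin.val h)
      simp [this, hb.2]
    · rw [coeff_Bpoly_neg, mul_zero]
      simp [hb.2, Finsupp.single_apply, hi]

lemma coeff_X_expand (B : MvPolynomial (Fin (l + 1)) ℚ) (a : Fin (l + 1) →₀ ℕ) :
    coeff (2 • a + Finsupp.single 0 1) (X 0 * expand 2 B) = coeff a B := by
  rw [add_comm (2 • a), coeff_X_mul, coeff_expand_smul _ (by norm_num)]

lemma exists_of_coeff_ne {B : MvPolynomial (Fin (l + 1)) ℚ} {n : Fin (l + 1) →₀ ℕ}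
    (h : coeff n (X 0 * expand 2 B) ≠ 0) :
    ∃ a, n = 2 • a + Finsupp.single 0 1 ∧ coeff a B ≠ 0 := by
  rw [mul_comm, X] at h
  obtain ⟨e, he, rfl⟩ := mem_support_mul_monomial (mem_support_iff.2 h)
  obtain ⟨a, ha, rfl⟩ := mem_image.1 (support_expand_subset _ he)
  exact ⟨a, rfl, mem_support_iff.1 ha⟩

lemma pair_eq (φ : ℝ →ₗ[ℚ] ℚ) {d : ℕ} (hd : d ≠ 0) {p : MvPolynomial (Fin (l + 1)) ℚ}
    (hp : PatP p d) : pair p (X 0 * expand 2 (Bpoly φ l d)) = φ ((evl Th)⁻¹ * Lam l p) := by
  rw [Lam_eq_sum, mul_sum, map_sum, pair]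
  refine sum_congr rfl fun n hn => ?_
  obtain ⟨a, rfl, h2, h3⟩ := hp n hn
  rw [mul_smul_comm, val_pat a h2, ← mul_assoc, inv_mul_cancel₀ evl_Th_pos.ne', one_mul,
    coeff_X_expand, coeff_Bpoly, if_pos, map_smul, map_smul, smul_eq_mul, smul_eq_mul]
  · ring
  · refine ⟨h3, ?_⟩
    rcases h2 with rfl | h2
    · rw [Fin.sum_univ_succ, Fin.sum_univ_zero, add_zero] at h3
      exact fun h => hd (h3.symm.trans h)
    · exact h2

lemma Bpoly_pair (φ : ℝ →ₗ[ℚ] ℚ) {d : ℕ} (hd : d ≠ 0) (h1 : PiZ (2 * d + l) ≤ LinearMap.ker φ)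
    (q : MvPolynomial (Fin (l + 1)) ℚ) :
    pair (Npoly (Fin (l + 1)) * X (Fin.last l) * q) (X 0 * expand 2 (Bpoly φ l d)) = 0 := by
  induction q using MvPolynomial.induction_on' with
  | add p q hp hq => rw [mul_add, pair_add, hp, hq, add_zero]
  | monomial m c =>
    rw [mul_assoc, show X (Fin.last l) * monomial m c =
      monomial (Finsupp.single (Fin.last l) 1 + m) c by rw [X, monomial_mul, one_mul]]
    by_cases h : ∃ n ∈ (Npoly (Fin (l + 1)) *
        monomial (Finsupp.single (Fin.last l) 1 + m) c).support,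
        coeff n (X 0 * expand 2 (Bpoly φ l d)) ≠ 0
    · obtain ⟨n, hn, hn'⟩ := h
      obtain ⟨e, he, rfl⟩ := mem_support_mul_monomial hn
      rw [← Esym_card] at he
      obtain ⟨e', rfl, he'⟩ := Esym_support he
      obtain ⟨a, ha, ha'⟩ := exists_of_coeff_ne hn'
      rw [coeff_Bpoly] at ha'
      have ha2 : ∑ i, a i = d := by
        by_contra h
        exact ha' (if_neg fun h' => h h'.1)
      have hpt : ∀ i, 2 * e' i + (Finsupp.single (Fin.last l) 1 + m : Fin (l + 1) →₀ ℕ) i =
          2 * a i + (Finsupp.single 0 1 : Fin (l + 1) →₀ ℕ) i := fun i => by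
        simpa using DFunLike.congr_fun ha i
      have hle : ∀ i, (Finsupp.single 0 1 : Fin (l + 1) →₀ ℕ) i ≤ 1 := fun i => by
        rw [Finsupp.single_apply]; split_ifs <;> omega
      have hm : Finsupp.single (Fin.last l) 1 + m = 2 • (a - e') + Finsupp.single 0 1 := by
        ext i
        have := hpt i
        have := hle i
        simp only [Finsupp.add_apply, Finsupp.smul_apply, Finsupp.tsub_apply, smul_eq_mul] at *
        omega
      have hv : l = 0 ∨ (a - e') (Fin.last l) ≠ 0 := by
        by_cases hl : l = 0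
        · exact Or.inl hl
        · refine Or.inr ?_
          have h3 := DFunLike.congr_fun hm (Fin.last l)
          have : (0 : Fin (l + 1)) ≠ Fin.last l := fun h => hl (by simpa using congrArg Fin.val h.symm)
          simp only [Finsupp.add_apply, Finsupp.smul_apply, smul_eq_mul, Finsupp.single_eq_same,
            Finsupp.single_eq_of_ne' this] at h3
          omega
      have hsum : Fintype.card (Fin (l + 1) → Bool) + ∑ i, (a - e') i = d := by
        rw [← he', ← ha2, ← sum_add_distrib]
        refine sum_congr rfl fun i _ => ?_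
        have := hpt i
        have := hle i
        simp only [Finsupp.tsub_apply]
        omega
      have h4 := Lam_N_mem m (a - e') c hv hm
      have h5 := patP_Esym (Fintype.card (Fin (l + 1) → Bool)) (a - e') c hv
      rw [hsum] at h4 h5
      rw [Esym_card] at h5
      rw [hm, pair_eq φ hd h5]
      exact h1 h4
    · push Not at h
      exact sum_eq_zero fun n hn => by rw [h n hn, mul_zero, zero_mul]

/-- The polynomial vanishing statement with an explicit degree bound. -/
def StmtK (K : ℕ → ℕ) : Prop :=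
  ∀ l d : ℕ, K l ≤ d → ∀ B : MvPolynomial (Fin (l + 1)) ℚ, B.IsHomogeneous d →
    (∀ a ∈ B.support, a (Fin.last l) ≠ 0) →
    (∀ b : Fin (l + 1) →₀ ℕ, ∑ i : Fin (l + 1),
      (if i = 0 then (b i : ℚ) + 1 else (b i : ℚ)) * coeff (b + Finsupp.single i 1) B = 0) →
    (∀ q : MvPolynomial (Fin (l + 1)) ℚ,
      pair (Npoly (Fin (l + 1)) * X (Fin.last l) * q) (X 0 * expand 2 B) = 0) → B = 0

theorem mod_pi {K : ℕ → ℕ} (hK : StmtK K) (k r : ℕ)
    (hr : ∀ l, l + 2 * r + 2 ≤ k → K l ≤ r + 1) : Zsp k ≤ Fil r k ⊔ PiZ k := by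
  intro x hx
  by_contra hn
  obtain ⟨φ, hφ, hker⟩ := Submodule.exists_le_ker_of_notMem hn
  have h1 : PiZ k ≤ LinearMap.ker φ := le_sup_right.trans hker
  have h2 : Fil r k ≤ LinearMap.ker φ := le_sup_left.trans hker
  have key : ∀ d, ∀ w : List ℕ, (∀ c ∈ w, 2 ≤ c) → w.sum = k → w.length = d → φ (mzv w) = 0 := by
    intro d
    induction d using Nat.strong_induction_on with
    | _ d ih =>
      intro w hw hs hl
      rcases le_or_gt d r with hd | hd
      · exact h2 (mzv_mem_Fil (adm_of_two_le hw) hs (hl ▸ hd))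
      · obtain ⟨l, a, ha, rfl⟩ := exists_word w hw (by rintro rfl; simp at hl; omega)
        rw [word_length] at hl
        rw [word_sum _ _ (Or.inr ha), hl] at hs
        have hKl := hr l (by omega)
        subst hs
        have hB := hK l d (by omega) (Bpoly φ l d) (Bpoly_hom φ d)
          (fun a ha => by
            have := mem_support_iff.1 ha
            rw [coeff_Bpoly] at this
            by_contra h
            exact this (if_neg fun h' => h'.2 h))
          (Bpoly_stuffle φ d h1 fun w h3 h4 h5 => ih _ h5 w h3 h4 rfl)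
          (Bpoly_pair φ (by omega) h1)
        have := coeff_Bpoly φ d (Finsupp.equivFunOnFinite.symm a)
        rw [hB, coeff_zero, if_pos ⟨hl, ha⟩] at this
        exact this.symm
  have h3 : No1 k ≤ LinearMap.ker φ := by
    refine Submodule.span_le.2 ?_
    rintro x ⟨w, h3, h4, rfl⟩
    exact key _ w h3 h4 rfl
  exact hφ (h3 (Zsp_le_No1 k hx))

theorem depth_drop {K : ℕ → ℕ} (hK : StmtK K) (k r : ℕ)
    (hr : ∀ l, l + 2 * r + 2 ≤ k → K l ≤ r + 1) : Zsp k ≤ Fil (r + 1) k :=
  reduce_pi 0 r k (Nat.zero_le _)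
    (fun m _ h2 => mod_pi hK m r fun l hl => hr l (by omega)) k le_rfl

end Pool.Agent.MP_cbe134_nt

end

section

/- The Broadhurst-Kreimer coefficient vanishes for `3 r > k + 1`. -/

open MvPowerSeries Finset

namespace Pool.Agent.MP_cbe134_nt

/-- all monomials `X^k Y^r` of `f` satisfy `3 r + c ≤ k` -/
def Slope (f : MvPowerSeries (Fin 2) ℚ) (c : ℤ) : Prop :=
  ∀ n : Fin 2 →₀ ℕ, coeff n f ≠ 0 → 3 * (n 1 : ℤ) + c ≤ n 0

namespace Slope

variable {f g : MvPowerSeries (Fin 2) ℚ} {c d : ℤ}

lemma mono (h : Slope f c) (hd : d ≤ c) : Slope f d := fun n hn => by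
  have := h n hn
  omega

lemma add (h : Slope f c) (h' : Slope g c) : Slope (f + g) c := fun n hn => by
  by_cases h0 : coeff n f = 0
  · exact h' n (by simpa [h0] using hn)
  · exact h n h0

lemma neg (h : Slope f c) : Slope (-f) c := fun n hn => h n (by simpa using hn)

lemma sub (h : Slope f c) (h' : Slope g c) : Slope (f - g) c := by
  rw [sub_eq_add_neg]; exact h.add h'.neg

lemma mul (h : Slope f c) (h' : Slope g d) : Slope (f * g) (c + d) := fun n hn => by
  rw [coeff_mul] at hn
  obtain ⟨p, hp, h0⟩ := exists_ne_zero_of_sum_ne_zero hn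
  have h1 := h _ (left_ne_zero_of_mul h0)
  have h2 := h' _ (right_ne_zero_of_mul h0)
  rw [← mem_antidiagonal.1 hp]
  simp only [Finsupp.add_apply]
  push_cast
  omega

lemma one : Slope 1 0 := fun n hn => by
  rw [coeff_one] at hn
  obtain rfl : n = 0 := by
    by_contra h
    exact hn (if_neg h)
  simp

lemma pow (h : Slope f c) (m : ℕ) : Slope (f ^ m) (m * c) := by
  induction m with
  | zero => simpa using one
  | succ m ih =>
    rw [pow_succ]
    exact (ih.mul h).mono (by push_cast; linarith)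

lemma X0 : Slope (X 0) 1 := fun n hn => by
  rw [coeff_X] at hn
  obtain rfl : n = Finsupp.single 0 1 := by
    by_contra h
    exact hn (if_neg h)
  simp

lemma X1 : Slope (X 1) (-3) := fun n hn => by
  rw [coeff_X] at hn
  obtain rfl : n = Finsupp.single 1 1 := by
    by_contra h
    exact hn (if_neg h)
  simp

lemma inv (h : Slope f 0) (h1 : constantCoeff f = 1) : Slope f⁻¹ 0 := by
  have e : f⁻¹ = 1 + (1 - f) * f⁻¹ := by
    rw [sub_mul, MvPowerSeries.mul_inv_cancel _ (by simp [h1])]
    ring
  have key : ∀ m, ∀ n : Fin 2 →₀ ℕ, n 0 + n 1 = m → coeff n f⁻¹ ≠ 0 →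
      3 * (n 1 : ℤ) + 0 ≤ n 0 := by
    intro m
    induction m using Nat.strong_induction_on with
    | _ m ih =>
      intro n hm hn
      rw [e, map_add] at hn
      by_cases h0 : coeff n (1 : MvPowerSeries (Fin 2) ℚ) = 0
      · rw [h0, zero_add, coeff_mul] at hn
        obtain ⟨p, hp, h2⟩ := exists_ne_zero_of_sum_ne_zero hn
        have h3 := (one.sub h) _ (left_ne_zero_of_mul h2)
        have h4 : p.1 ≠ 0 := fun h5 => left_ne_zero_of_mul h2 (by simp [h5, h1])
        have h5 : p.1 0 + p.1 1 ≠ 0 := fun h6 => h4 (by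
          ext i
          fin_cases i <;> simp <;> omega)
        have h6 := mem_antidiagonal.1 hp
        have h7 := DFunLike.congr_fun h6 0
        have h8 := DFunLike.congr_fun h6 1
        simp only [Finsupp.add_apply] at h7 h8
        have h9 := ih _ (by omega) p.2 rfl (right_ne_zero_of_mul h2)
        omega
      · exact one n h0
  exact fun n hn => key _ n rfl hn

end Slope

lemma slope_BK : Slope serBK (-1) := by
  have h2 : Slope (1 - X 0 ^ 2)⁻¹ 0 :=
    (Slope.one.sub ((Slope.X0.pow 2).mono (by norm_num))).inv (by simp)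
  have h46 : Slope ((1 - X 0 ^ 4) * (1 - X 0 ^ 6))⁻¹ 0 :=
    (((Slope.one.sub ((Slope.X0.pow 4).mono (by norm_num))).mul
      (Slope.one.sub ((Slope.X0.pow 6).mono (by norm_num)))).mono (by norm_num)).inv (by simp)
  have hE : Slope serE 2 := ((Slope.X0.pow 2).mul h2).mono (by norm_num)
  have hO : Slope serO 3 := ((Slope.X0.pow 3).mul h2).mono (by norm_num)
  have hS : Slope serS 12 := ((Slope.X0.pow 12).mul h46).mono (by norm_num)
  have h1 : Slope (1 + serE * X 1) (-1) :=
    (Slope.one.mono (by norm_num)).add ((hE.mul Slope.X1).mono (by norm_num))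
  have h3 : Slope (1 - serO * X 1 + serS * X 1 ^ 2 - serS * X 1 ^ 4) 0 :=
    ((Slope.one.sub ((hO.mul Slope.X1).mono (by norm_num))).add
      ((hS.mul (Slope.X1.pow 2)).mono (by norm_num))).sub
      ((hS.mul (Slope.X1.pow 4)).mono (by norm_num))
  exact (h1.mul (h3.inv (by simp))).mono (by norm_num)

lemma bkCoeff_eq_zero {k r : ℕ} (h : k + 1 < 3 * r) : bkCoeff k r = 0 := by
  by_contra h0
  have := slope_BK _ h0
  simp at this
  omega

lemma grDim_eq_zero {r k : ℕ} (h : Fil (r + 1) k ≤ Fil r k) : grDim (r + 1) k = 0 := by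
  have : (FilPrev (r + 1) k).submoduleOf (Fil (r + 1) k) = ⊤ :=
    Submodule.submoduleOf_eq_top.2 h
  rw [grDim, this]
  exact Module.finrank_zero_of_subsingleton

end Pool.Agent.MP_cbe134_nt

end
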